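import Pool.Agent.Lib_helper98.WA.Defs

/-! Block A2: the reproducing formula (helper9). -/

namespace Pool.Agent.WA

open Complex MeasureTheory Filter Topology UpperHalfPlane
open scoped MatrixGroups ENNReal

theorem A2_range : Set.range UpperHalfPlane.coe = {z : ℂ | 0 < z.im} := by
  ext z
  constructor
  · rintro ⟨w, rfl⟩
    exact w.im_pos
  · intro hz
    exact ⟨⟨z, hz⟩, rfl⟩

theorem A2_dens_meas : Measurable (fun z : ℍ => (1 / NNReal.mk z.im z.im_pos.le : NNReal) ^ 2) := by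
  have h2 : Continuous (fun z : ℍ => (1 / NNReal.mk z.im z.im_pos.le : NNReal) ^ 2) := by
    refine .pow (.div₀ continuous_const ?_ ?_) _
    · exact continuous_im.subtype_mk _
    · exact fun x ↦ NNReal.ne_iff.mp x.im_ne_zero
  exact h2.measurable

theorem A2_integrable (G : ℂ → ℂ) :
    Integrable (fun w : ℍ => G w) ↔
      IntegrableOn (fun z : ℂ => (1 / z.im ^ 2 : ℝ) • G z) {z : ℂ | 0 < z.im} := by
  rw [volume_def, integrable_withDensity_iff_integrable_smul A2_dens_meas]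
  rw [IntegrableOn, ← A2_range, ← measurableEmbedding_coe.map_comap,
    measurableEmbedding_coe.integrable_map_iff]
  apply integrable_congr
  refine Eventually.of_forall fun w => ?_
  simp only [Function.comp_apply]
  rw [NNReal.smul_def]
  congr 1
  push_cast
  rw [div_pow, one_pow]
  rfl

theorem A2_integral (G : ℂ → ℂ) :
    ∫ w : ℍ, G w = ∫ z in {z : ℂ | 0 < z.im}, (1 / z.im ^ 2 : ℝ) • G z := by
  rw [volume_def, integral_withDensity_eq_integral_smul A2_dens_meas]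
  rw [← A2_range, ← measurableEmbedding_coe.map_comap, measurableEmbedding_coe.integral_map]
  apply integral_congr_ae
  refine Eventually.of_forall fun w => ?_
  simp only []
  rw [NNReal.smul_def]
  congr 1
  push_cast
  rw [div_pow, one_pow]
  rfl

/-- the inverse Cayley transform -/
noncomputable def A2_Phi (z : ℂ) (ζ : ℂ) : ℂ := (z - starRingEnd ℂ z * ζ) / (1 - ζ)

theorem A2_one_sub_ne {ζ : ℂ} (hζ : ζ ∈ Metric.ball (0 : ℂ) 1) : 1 - ζ ≠ 0 := by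
  intro h
  have : ζ = 1 := by linear_combination -h
  rw [this] at hζ
  simp at hζ

theorem A2_sub_conj (z : ℂ) : z - starRingEnd ℂ z = 2 * Complex.I * z.im := by
  apply Complex.ext
  · simp
  · simp; ring

theorem A2_Phi_sub (z : ℂ) {ζ : ℂ} (hζ : ζ ∈ Metric.ball (0 : ℂ) 1) :
    A2_Phi z ζ - starRingEnd ℂ z = 2 * Complex.I * z.im / (1 - ζ) := by
  have h := A2_one_sub_ne hζ
  rw [A2_Phi, div_sub' h, ← A2_sub_conj z]
  congr 1
  ring

theorem A2_im_eq (w : ℂ) : (w.im : ℂ) = (w - starRingEnd ℂ w) / (2 * Complex.I) := by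
  rw [A2_sub_conj]
  field_simp

theorem A2_Phi_im (z : ℂ) {ζ : ℂ} (hζ : ζ ∈ Metric.ball (0 : ℂ) 1) :
    (A2_Phi z ζ).im = z.im * (1 - ‖ζ‖ ^ 2) / ‖1 - ζ‖ ^ 2 := by
  have h := A2_one_sub_ne hζ
  have h' : starRingEnd ℂ (1 - ζ) ≠ 0 := by
    rw [Ne, map_eq_zero]; exact h
  have h2 : ((A2_Phi z ζ).im : ℂ) = ((z.im * (1 - ‖ζ‖ ^ 2) / ‖1 - ζ‖ ^ 2 : ℝ) : ℂ) := by
    rw [A2_im_eq, A2_Phi]
    push_cast
    rw [← Complex.conj_mul' ζ, ← Complex.conj_mul' (1 - ζ), A2_im_eq z]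
    rw [map_div₀, map_sub, map_mul, Complex.conj_conj]
    rw [map_sub, map_one] at h'
    rw [map_sub, map_one]
    field_simp
    ring
  exact_mod_cast h2

theorem A2_ball_pos {ζ : ℂ} (hζ : ζ ∈ Metric.ball (0 : ℂ) 1) : 0 < 1 - ‖ζ‖ ^ 2 := by
  rw [mem_ball_zero_iff] at hζ
  nlinarith [norm_nonneg ζ]

theorem A2_Phi_im_pos {z : ℂ} (hz : 0 < z.im) {ζ : ℂ} (hζ : ζ ∈ Metric.ball (0 : ℂ) 1) :
    0 < (A2_Phi z ζ).im := by
  rw [A2_Phi_im z hζ]
  have h1 := A2_ball_pos hζ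
  have h2 : 0 < ‖1 - ζ‖ := norm_pos_iff.mpr (A2_one_sub_ne hζ)
  positivity

theorem A2_Phi_inj {z : ℂ} (hz : 0 < z.im) : Set.InjOn (A2_Phi z) (Metric.ball (0 : ℂ) 1) := by
  intro a ha b hb hab
  have h1 := A2_Phi_sub z ha
  have h2 := A2_Phi_sub z hb
  rw [hab, h2] at h1
  have h3 := A2_one_sub_ne ha
  have h4 := A2_one_sub_ne hb
  have h5 : (2 * Complex.I * z.im : ℂ) ≠ 0 := by
    simp [hz.ne']
  rw [div_eq_div_iff h4 h3] at h1
  have h6 := mul_left_cancel₀ h5 h1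
  linear_combination -h6

theorem A2_Phi_image {z : ℂ} (hz : 0 < z.im) :
    A2_Phi z '' Metric.ball (0 : ℂ) 1 = {w : ℂ | 0 < w.im} := by
  ext w
  constructor
  · rintro ⟨ζ, hζ, rfl⟩
    exact A2_Phi_im_pos hz hζ
  · intro hw
    rw [Set.mem_ofPred_eq] at hw
    have h1 : w - starRingEnd ℂ z ≠ 0 := by
      intro h
      have := congrArg Complex.im h
      simp at this
      linarith
    refine ⟨(w - z) / (w - starRingEnd ℂ z), ?_, ?_⟩
    · rw [mem_ball_zero_iff, norm_div, div_lt_one (norm_pos_iff.mpr h1)]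
      rw [← sq_lt_sq₀ (norm_nonneg _) (norm_nonneg _), ← Complex.normSq_eq_norm_sq,
        ← Complex.normSq_eq_norm_sq, Complex.normSq_apply, Complex.normSq_apply]
      simp
      nlinarith [mul_pos hz hw]
    · rw [A2_Phi]
      have h2 : 1 - (w - z) / (w - starRingEnd ℂ z) = (z - starRingEnd ℂ z) / (w - starRingEnd ℂ z) := by
        rw [eq_div_iff h1, sub_mul, div_mul_cancel₀ _ h1]
        ring
      have h3 : z - starRingEnd ℂ z ≠ 0 := by
        rw [A2_sub_conj]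
        simp [hz.ne']
      rw [h2, div_eq_iff (div_ne_zero h3 h1)]
      field_simp
      ring

theorem A2_Phi_deriv (z : ℂ) {ζ : ℂ} (hζ : ζ ∈ Metric.ball (0 : ℂ) 1) :
    HasDerivAt (A2_Phi z) (2 * Complex.I * z.im / (1 - ζ) ^ 2) ζ := by
  have h := A2_one_sub_ne hζ
  have h1 : HasDerivAt (fun x : ℂ => z - starRingEnd ℂ z * x) (-(starRingEnd ℂ z)) ζ := by
    simpa using ((hasDerivAt_id ζ).const_mul (starRingEnd ℂ z)).const_sub z
  have h2 : HasDerivAt (fun x : ℂ => 1 - x) (-1) ζ := by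
    simpa using (hasDerivAt_id ζ).const_sub (1 : ℂ)
  convert! h1.div h2 h using 1
  rw [← A2_sub_conj z]
  congr 1
  ring

/-- the real derivative -/
noncomputable def A2_D (z : ℂ) (ζ : ℂ) : ℂ →L[ℝ] ℂ :=
  (ContinuousLinearMap.toSpanSingleton ℂ (2 * Complex.I * z.im / (1 - ζ) ^ 2)).restrictScalars ℝ

theorem A2_det (a : ℂ) :
    ((ContinuousLinearMap.toSpanSingleton ℂ a).restrictScalars ℝ : ℂ →L[ℝ] ℂ).det = ‖a‖ ^ 2 := by
  rw [ContinuousLinearMap.det]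
  have h : (((ContinuousLinearMap.toSpanSingleton ℂ a).restrictScalars ℝ : ℂ →L[ℝ] ℂ) : ℂ →ₗ[ℝ] ℂ) =
      ((ContinuousLinearMap.toSpanSingleton ℂ a : ℂ →L[ℂ] ℂ) : ℂ →ₗ[ℂ] ℂ).restrictScalars ℝ := rfl
  rw [h, LinearMap.det_restrictScalars, Algebra.norm_complex_eq]
  have h2 : ((ContinuousLinearMap.toSpanSingleton ℂ a : ℂ →L[ℂ] ℂ) : ℂ →ₗ[ℂ] ℂ).det = a := by
    simp
  rw [h2]
  exact Complex.normSq_eq_norm_sq a

theorem A2_change (z : ℂ) (hz : 0 < z.im) (G : ℂ → ℂ) :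
    (IntegrableOn G {w : ℂ | 0 < w.im} ↔
      IntegrableOn (fun ζ => ‖2 * Complex.I * z.im / (1 - ζ) ^ 2‖ ^ 2 • G (A2_Phi z ζ))
        (Metric.ball (0 : ℂ) 1)) ∧
    ∫ w in {w : ℂ | 0 < w.im}, G w =
      ∫ ζ in Metric.ball (0 : ℂ) 1, ‖2 * Complex.I * z.im / (1 - ζ) ^ 2‖ ^ 2 • G (A2_Phi z ζ) := by
  have hD : ∀ ζ ∈ Metric.ball (0 : ℂ) 1,
      HasFDerivWithinAt (A2_Phi z) (A2_D z ζ) (Metric.ball (0 : ℂ) 1) ζ := by
    intro ζ hζ
    exact ((A2_Phi_deriv z hζ).hasFDerivAt.restrictScalars ℝ).hasFDerivWithinAt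
  have hdet : ∀ ζ, |(A2_D z ζ).det| = ‖2 * Complex.I * z.im / (1 - ζ) ^ 2‖ ^ 2 := by
    intro ζ
    rw [A2_D, A2_det, abs_of_nonneg (by positivity)]
  constructor
  · have := integrableOn_image_iff_integrableOn_abs_det_fderiv_smul volume
      (measurableSet_ball (x := (0 : ℂ)) (ε := 1)) hD (A2_Phi_inj hz) G
    rw [A2_Phi_image hz] at this
    rw [this]
    simp only [hdet]
  · have := integral_image_eq_integral_abs_det_fderiv_smul volume
      (measurableSet_ball (x := (0 : ℂ)) (ε := 1)) hD (A2_Phi_inj hz) G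
    rw [A2_Phi_image hz] at this
    rw [this]
    simp only [hdet]


/-! The disc integral -/

theorem A2_pow_int {a : ℝ} (ha : -(1 / 2 : ℝ) ≤ a) :
    IntegrableOn (fun t : ℝ => t * (1 - t ^ 2) ^ a) (Set.Ioo 0 1) := by
  have h1 : IntegrableOn (fun t : ℝ => (1 - t) ^ (-(1 / 2 : ℝ))) (Set.Ioo 0 1) := by
    have h2 : IntervalIntegrable (fun t : ℝ => t ^ (-(1 / 2 : ℝ))) volume 0 1 :=
      intervalIntegral.intervalIntegrable_rpow' (by norm_num)
    have h3 := h2.comp_sub_left 1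
    rw [sub_zero, sub_self] at h3
    have h4 := h3.symm
    rw [intervalIntegrable_iff_integrableOn_Ioo_of_le zero_le_one] at h4
    exact h4
  apply h1.mono'
  · apply Measurable.aestronglyMeasurable
    fun_prop
  · refine (ae_restrict_iff' measurableSet_Ioo).mpr (Eventually.of_forall fun t ht => ?_)
    obtain ⟨ht0, ht1⟩ := ht
    have h5 : 0 < 1 - t ^ 2 := by nlinarith
    have h6 : 1 - t ^ 2 ≤ 1 := by nlinarith
    rw [Real.norm_eq_abs, abs_of_nonneg (mul_nonneg ht0.le (Real.rpow_nonneg h5.le _))]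
    calc t * (1 - t ^ 2) ^ a ≤ 1 * (1 - t ^ 2) ^ (-(1 / 2 : ℝ)) := by
          apply mul_le_mul ht1.le
          · exact Real.rpow_le_rpow_of_exponent_ge h5 h6 ha
          · exact Real.rpow_nonneg h5.le _
          · norm_num
      _ ≤ (1 - t) ^ (-(1 / 2 : ℝ)) := by
          rw [one_mul]
          apply Real.rpow_le_rpow_of_nonpos (by linarith) _ (by norm_num)
          nlinarith

theorem A2_disc_int {a : ℝ} (ha : -(1 / 2 : ℝ) ≤ a) :
    IntegrableOn (fun ζ : ℂ => (1 - ‖ζ‖ ^ 2) ^ a) (Metric.ball (0 : ℂ) 1) := by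
  have h := (integrableOn_fun_norm_addHaar (volume : Measure ℂ) (f := fun t : ℝ => (1 - t ^ 2) ^ a)
    (r := 1)).mpr
  apply h
  rw [Complex.finrank_real_complex]
  simpa using A2_pow_int ha

theorem A2_mean {H : ℂ → ℂ} (hH : DifferentiableOn ℂ H (Metric.ball (0 : ℂ) 1)) {r : ℝ}
    (hr0 : 0 < r) (hr1 : r < 1) :
    ∫ θ in Set.Ioo (-Real.pi) Real.pi, H (circleMap 0 r θ) = 2 * Real.pi * H 0 := by
  have h1 : Real.circleAverage H 0 r = H 0 := by
    apply DiffContOnCl.circleAverage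
    rw [abs_of_pos hr0]
    apply DifferentiableOn.diffContOnCl
    apply hH.mono
    rw [closure_ball _ hr0.ne']
    exact Metric.closedBall_subset_ball hr1
  rw [Real.circleAverage_def] at h1
  have h2 : ∫ θ in (-Real.pi)..(-Real.pi + 2 * Real.pi), H (circleMap 0 r θ) =
      ∫ θ in (0 : ℝ)..(0 + 2 * Real.pi), H (circleMap 0 r θ) := by
    apply Function.Periodic.intervalIntegral_add_eq
    intro θ
    simp only []
    rw [periodic_circleMap]
  rw [← integral_Ioc_eq_integral_Ioo, ← intervalIntegral.integral_of_le (by linarith [Real.pi_pos])]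
  have h3 : -Real.pi + 2 * Real.pi = Real.pi := by ring
  rw [h3, zero_add] at h2
  rw [h2, ← h1]
  rw [Complex.real_smul]
  push_cast
  have := Real.pi_ne_zero
  field_simp

theorem A2_radial {k : ℕ} (hk : 3 ≤ k) :
    ∫ r in Set.Ioo (0 : ℝ) 1, r * (1 - r ^ 2) ^ (k - 2) = 1 / (2 * ((k : ℝ) - 1)) := by
  rw [← integral_Ioc_eq_integral_Ioo, ← intervalIntegral.integral_of_le zero_le_one]
  have hk1 : (k : ℝ) - 1 ≠ 0 := by
    have : (3 : ℝ) ≤ k := by exact_mod_cast hk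
    intro h
    linarith
  obtain ⟨j, rfl⟩ : ∃ j, k = j + 2 := ⟨k - 2, by omega⟩
  have hd : ∀ x ∈ Set.uIcc (0 : ℝ) 1, HasDerivAt
      (fun r : ℝ => -(1 - r ^ 2) ^ (j + 1) / (2 * (((j + 2 : ℕ) : ℝ) - 1)))
      (x * (1 - x ^ 2) ^ (j + 2 - 2)) x := by
    intro x _
    have h1 : HasDerivAt (fun r : ℝ => 1 - r ^ 2) (-(2 * x)) x := by
      simpa using (hasDerivAt_pow 2 x).const_sub 1
    have h2 := ((h1.pow (j + 1)).neg).div_const (2 * (((j + 2 : ℕ) : ℝ) - 1))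
    convert! h2 using 1
    rw [eq_div_iff (mul_ne_zero two_ne_zero hk1)]
    push_cast
    simp
    ring
  rw [intervalIntegral.integral_eq_sub_of_hasDerivAt hd]
  · simp
    rw [neg_div, neg_neg, one_div, mul_inv, mul_comm]
  · apply Continuous.intervalIntegrable
    fun_prop

theorem A2_disc {H : ℂ → ℂ} (hH : DifferentiableOn ℂ H (Metric.ball (0 : ℂ) 1)) {k : ℕ}
    (hk : 3 ≤ k) {C : ℝ} (hC : ∀ ζ ∈ Metric.ball (0 : ℂ) 1, ‖H ζ‖ ≤ C * (1 - ‖ζ‖ ^ 2) ^ (-(k : ℝ) / 2)) :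
    IntegrableOn (fun ζ : ℂ => H ζ * (((1 - ‖ζ‖ ^ 2) ^ (k - 2) : ℝ) : ℂ)) (Metric.ball (0 : ℂ) 1) ∧
      ∫ ζ in Metric.ball (0 : ℂ) 1, H ζ * (((1 - ‖ζ‖ ^ 2) ^ (k - 2) : ℝ) : ℂ) =
        ((Real.pi / ((k : ℝ) - 1) : ℝ) : ℂ) * H 0 := by
  have ha : -(1 / 2 : ℝ) ≤ (k : ℝ) / 2 - 2 := by
    have : (3 : ℝ) ≤ k := by exact_mod_cast hk
    linarith
  have hbd : ∀ ζ ∈ Metric.ball (0 : ℂ) 1, ‖H ζ * (((1 - ‖ζ‖ ^ 2) ^ (k - 2) : ℝ) : ℂ)‖ ≤
      C * (1 - ‖ζ‖ ^ 2) ^ ((k : ℝ) / 2 - 2) := by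
    intro ζ hζ
    have h1 := A2_ball_pos hζ
    rw [norm_mul, Complex.norm_real, Real.norm_eq_abs, abs_of_nonneg (pow_nonneg h1.le _)]
    calc ‖H ζ‖ * (1 - ‖ζ‖ ^ 2) ^ (k - 2) ≤
          (C * (1 - ‖ζ‖ ^ 2) ^ (-(k : ℝ) / 2)) * (1 - ‖ζ‖ ^ 2) ^ (k - 2) :=
          mul_le_mul_of_nonneg_right (hC ζ hζ) (pow_nonneg h1.le _)
      _ = C * (1 - ‖ζ‖ ^ 2) ^ ((k : ℝ) / 2 - 2) := by
          rw [← Real.rpow_natCast (1 - ‖ζ‖ ^ 2) (k - 2), mul_assoc, ← Real.rpow_add h1,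
            Nat.cast_sub (by omega)]
          congr 2
          push_cast
          ring
  have hcont : ContinuousOn (fun ζ : ℂ => H ζ * (((1 - ‖ζ‖ ^ 2) ^ (k - 2) : ℝ) : ℂ))
      (Metric.ball (0 : ℂ) 1) := by
    apply hH.continuousOn.mul
    fun_prop
  have hint : IntegrableOn (fun ζ : ℂ => H ζ * (((1 - ‖ζ‖ ^ 2) ^ (k - 2) : ℝ) : ℂ))
      (Metric.ball (0 : ℂ) 1) := by
    apply ((A2_disc_int ha).const_mul C).mono'
    · exact hcont.aestronglyMeasurable measurableSet_ball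
    · exact (ae_restrict_iff' measurableSet_ball).mpr (Eventually.of_forall hbd)
  refine ⟨hint, ?_⟩
  set G : ℂ → ℂ := fun ζ => H ζ * (((1 - ‖ζ‖ ^ 2) ^ (k - 2) : ℝ) : ℂ) with hG
  rw [← integral_indicator measurableSet_ball, ← Complex.integral_comp_polarCoord_symm]
  have hsymm : ∀ p : ℝ × ℝ, Complex.polarCoord.symm p = circleMap 0 p.1 p.2 := by
    intro p
    rw [Complex.polarCoord_symm_apply, circleMap, zero_add, Complex.exp_mul_I]
    push_cast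
    rfl
  have h1 : ∫ p in polarCoord.target, p.1 • (Metric.ball (0 : ℂ) 1).indicator G
      (Complex.polarCoord.symm p) =
      ∫ p in Set.Ioo (0 : ℝ) 1 ×ˢ Set.Ioo (-Real.pi) Real.pi, p.1 • G (circleMap 0 p.1 p.2) := by
    have h2 : ∀ p ∈ polarCoord.target, p.1 • (Metric.ball (0 : ℂ) 1).indicator G
        (Complex.polarCoord.symm p) =
        ({p : ℝ × ℝ | p.1 < 1}).indicator (fun p => p.1 • G (circleMap 0 p.1 p.2)) p := by
      intro p hp
      have hp1 : 0 < p.1 := hp.1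
      rw [hsymm]
      by_cases h : p.1 < 1
      · rw [Set.indicator_of_mem, Set.indicator_of_mem]
        · exact h
        · rw [mem_ball_zero_iff, norm_circleMap_zero, abs_of_pos hp1]
          exact h
      · rw [Set.indicator_of_notMem, Set.indicator_of_notMem, smul_zero]
        · exact h
        · rw [mem_ball_zero_iff, norm_circleMap_zero, abs_of_pos hp1]
          exact h
    rw [setIntegral_congr_fun (polarCoord.open_target.measurableSet) h2,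
      setIntegral_indicator (measurableSet_lt measurable_fst measurable_const)]
    congr 2
    ext p
    constructor
    · rintro ⟨⟨h3, h4⟩, h5⟩
      exact ⟨⟨h3, h5⟩, h4⟩
    · rintro ⟨⟨h3, h5⟩, h4⟩
      exact ⟨⟨h3, h4⟩, h5⟩
  rw [h1]
  have hmem : ∀ p ∈ Set.Ioo (0 : ℝ) 1 ×ˢ Set.Ioo (-Real.pi) Real.pi,
      circleMap 0 p.1 p.2 ∈ Metric.ball (0 : ℂ) 1 := by
    intro p hp
    rw [mem_ball_zero_iff, norm_circleMap_zero, abs_of_pos hp.1.1]
    exact hp.1.2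
  have hI : IntegrableOn (fun p : ℝ × ℝ => p.1 • G (circleMap 0 p.1 p.2))
      (Set.Ioo (0 : ℝ) 1 ×ˢ Set.Ioo (-Real.pi) Real.pi) := by
    have h3 : IntegrableOn (fun p : ℝ × ℝ => C * (p.1 * (1 - p.1 ^ 2) ^ ((k : ℝ) / 2 - 2)))
        (Set.Ioo (0 : ℝ) 1 ×ˢ Set.Ioo (-Real.pi) Real.pi) := by
      rw [IntegrableOn, Measure.volume_eq_prod, ← Measure.prod_restrict]
      exact ((A2_pow_int ha).const_mul C).comp_fst _
    apply h3.mono'
    · apply ContinuousOn.aestronglyMeasurable _ (measurableSet_Ioo.prod measurableSet_Ioo)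
      apply continuousOn_fst.smul
      apply hcont.comp _ hmem
      unfold circleMap
      fun_prop
    · refine (ae_restrict_iff' (measurableSet_Ioo.prod measurableSet_Ioo)).mpr
        (Eventually.of_forall fun p hp => ?_)
      rw [norm_smul, Real.norm_eq_abs, abs_of_pos hp.1.1]
      have h4 : ‖G (circleMap 0 p.1 p.2)‖ ≤
          C * (1 - ‖circleMap 0 p.1 p.2‖ ^ 2) ^ ((k : ℝ) / 2 - 2) := hbd _ (hmem p hp)
      have h40 : ‖circleMap 0 p.1 p.2‖ = p.1 := by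
        rw [norm_circleMap_zero, abs_of_pos hp.1.1]
      rw [h40] at h4
      calc p.1 * ‖G (circleMap 0 p.1 p.2)‖ ≤ p.1 * (C * (1 - p.1 ^ 2) ^ ((k : ℝ) / 2 - 2)) :=
            mul_le_mul_of_nonneg_left h4 hp.1.1.le
        _ = C * (p.1 * (1 - p.1 ^ 2) ^ ((k : ℝ) / 2 - 2)) := by ring
  rw [Measure.volume_eq_prod] at hI ⊢
  rw [setIntegral_prod _ hI]
  have h5 : ∀ r ∈ Set.Ioo (0 : ℝ) 1,
      ∫ θ in Set.Ioo (-Real.pi) Real.pi, r • G (circleMap 0 r θ) =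
        (((r * (1 - r ^ 2) ^ (k - 2) : ℝ)) : ℂ) * (2 * Real.pi * H 0) := by
    intro r hr
    rw [← A2_mean hH hr.1 hr.2, ← integral_const_mul]
    apply integral_congr_ae
    refine Eventually.of_forall fun θ => ?_
    simp only [hG]
    rw [norm_circleMap_zero, sq_abs, Complex.real_smul]
    push_cast
    ring
  simp only []
  have h6 : ∫ a in Set.Ioo (0 : ℝ) 1, ((a * (1 - a ^ 2) ^ (k - 2) : ℝ) : ℂ) =
      ((∫ a in Set.Ioo (0 : ℝ) 1, a * (1 - a ^ 2) ^ (k - 2) : ℝ) : ℂ) := integral_ofReal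
  rw [setIntegral_congr_fun measurableSet_Ioo h5, integral_mul_const, h6, A2_radial hk]
  push_cast
  have hk1 : (k : ℂ) - 1 ≠ 0 := by
    have h6 : (k : ℝ) - 1 ≠ 0 := by
      have : (3 : ℝ) ≤ k := by exact_mod_cast hk
      intro h
      linarith
    exact_mod_cast h6
  field_simp

theorem rep {k : ℕ} (hk : 3 ≤ k) {F : ℂ → ℂ} (hF : DifferentiableOn ℂ F {z : ℂ | 0 < z.im})
    {C : ℝ} (hC : ∀ z : ℂ, 0 < z.im → ‖F z‖ ≤ C * z.im ^ (-(k : ℝ) / 2)) (z : ℍ) :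
    Integrable (fun w : ℍ => phf k F w * starRingEnd ℂ (phf k (ez k z) w)) ∧
      ∫ w : ℍ, phf k F w * starRingEnd ℂ (phf k (ez k z) w) =
        ((4 * Real.pi / ((k : ℝ) - 1) : ℝ) : ℂ) * phf k F z := by
  set z₀ : ℂ := (z : ℂ) with hz₀
  have hz : 0 < z₀.im := z.im_pos
  -- the integrand on ℂ
  set G : ℂ → ℂ := fun w => F w * ((w.im ^ ((k : ℝ) / 2) : ℝ) : ℂ) *
    starRingEnd ℂ (ez k z w * ((w.im ^ ((k : ℝ) / 2) : ℝ) : ℂ)) with hG
  have hGw : (fun w : ℍ => phf k F w * starRingEnd ℂ (phf k (ez k z) w)) = fun w : ℍ => G w := by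
    funext w
    rfl
  set H : ℂ → ℂ := fun ζ => F (A2_Phi z₀ ζ) / (1 - ζ) ^ k with hH
  have hHd : DifferentiableOn ℂ H (Metric.ball (0 : ℂ) 1) := by
    apply DifferentiableOn.div
    · apply hF.comp
      · intro ζ hζ
        exact (A2_Phi_deriv z₀ hζ).differentiableAt.differentiableWithinAt
      · intro ζ hζ
        exact A2_Phi_im_pos hz hζ
    · fun_prop
    · intro ζ hζ
      exact pow_ne_zero _ (A2_one_sub_ne hζ)
  have hHb : ∀ ζ ∈ Metric.ball (0 : ℂ) 1,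
      ‖H ζ‖ ≤ (C * z₀.im ^ (-(k : ℝ) / 2)) * (1 - ‖ζ‖ ^ 2) ^ (-(k : ℝ) / 2) := by
    intro ζ hζ
    have h1 := A2_ball_pos hζ
    have h2 : 0 < ‖1 - ζ‖ := norm_pos_iff.mpr (A2_one_sub_ne hζ)
    rw [hH]
    simp only []
    rw [norm_div, norm_pow, div_le_iff₀ (pow_pos h2 _)]
    refine (hC _ (A2_Phi_im_pos hz hζ)).trans_eq ?_
    rw [A2_Phi_im z₀ hζ, Real.div_rpow (by positivity) (by positivity),
      Real.mul_rpow hz.le h1.le, ← Real.rpow_natCast ‖1 - ζ‖ k]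
    have h3 : (‖1 - ζ‖ ^ 2) ^ (-(k : ℝ) / 2) = (‖1 - ζ‖ ^ (k : ℝ))⁻¹ := by
      rw [← Real.rpow_natCast ‖1 - ζ‖ 2, ← Real.rpow_mul h2.le, ← Real.rpow_neg h2.le]
      congr 1
      push_cast
      ring
    rw [h3]
    field_simp
  obtain ⟨hI, hv⟩ := A2_disc hHd hk hHb
  -- comparison
  have hcomp : ∀ ζ ∈ Metric.ball (0 : ℂ) 1,
      ‖2 * Complex.I * z₀.im / (1 - ζ) ^ 2‖ ^ 2 •
        ((1 / (A2_Phi z₀ ζ).im ^ 2 : ℝ) • G (A2_Phi z₀ ζ)) =
      (4 * ((z₀.im ^ ((k : ℝ) / 2) : ℝ) : ℂ)) * (H ζ * (((1 - ‖ζ‖ ^ 2) ^ (k - 2) : ℝ) : ℂ)) := by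
    intro ζ hζ
    have hs := A2_ball_pos hζ
    have ha := A2_one_sub_ne hζ
    set a : ℂ := 1 - ζ with haa
    set b : ℂ := starRingEnd ℂ a with hbb
    have hb : b ≠ 0 := by rw [hbb, Ne, map_eq_zero]; exact ha
    have hab : ((‖a‖ : ℝ) : ℂ) ^ 2 = a * b := by
      rw [hbb, Complex.mul_conj, Complex.normSq_eq_norm_sq]
      push_cast
      rfl
    set y : ℝ := z₀.im with hy
    set Y : ℝ := y ^ ((k : ℝ) / 2) with hY
    set t : ℝ := 1 - ‖ζ‖ ^ 2 with ht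
    set v : ℝ := (A2_Phi z₀ ζ).im with hv0
    have hvpos : 0 < v := A2_Phi_im_pos hz hζ
    have hvv : v = y * t / ‖a‖ ^ 2 := A2_Phi_im z₀ hζ
    have hvc : (v : ℂ) = y * t / (a * b) := by
      rw [hvv, ← hab]
      push_cast
      rfl
    have hyc : (y : ℂ) ≠ 0 := by exact_mod_cast hz.ne'
    have htc : (t : ℂ) ≠ 0 := by exact_mod_cast hs.ne'
    have e1 : ez k z (A2_Phi z₀ ζ) = (Y : ℂ) * a ^ k / (y : ℂ) ^ k := by
      have hps : A2_Phi z₀ ζ - starRingEnd ℂ (z : ℂ) = 2 * Complex.I * y / a := A2_Phi_sub z₀ hζ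
      rw [ez, hps, div_pow, mul_pow (2 * Complex.I) (y : ℂ) k]
      have h2 : ((2 : ℂ) * Complex.I) ^ k ≠ 0 := pow_ne_zero _ (by simp)
      have h3 : ((z.im ^ ((k : ℝ) / 2) : ℝ) : ℂ) = (Y : ℂ) := rfl
      rw [h3]
      field_simp
    have e2 : starRingEnd ℂ (ez k z (A2_Phi z₀ ζ)) = (Y : ℂ) * b ^ k / (y : ℂ) ^ k := by
      rw [e1, map_div₀, map_mul, map_pow, map_pow, Complex.conj_ofReal, Complex.conj_ofReal]
    have e3 : ((v ^ ((k : ℝ) / 2) : ℝ) : ℂ) * ((v ^ ((k : ℝ) / 2) : ℝ) : ℂ) = (v : ℂ) ^ k := by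
      rw [← Complex.ofReal_mul, ← Real.rpow_add hvpos, add_halves, Real.rpow_natCast]
      push_cast
      rfl
    have e4 : ((‖2 * Complex.I * z₀.im / a ^ 2‖ ^ 2 : ℝ) : ℂ) = 4 * (y : ℂ) ^ 2 / (a * b) ^ 2 := by
      rw [← hab, norm_div, norm_mul, norm_mul, norm_pow, Complex.norm_I, Complex.norm_real,
        Real.norm_eq_abs, abs_of_pos hz]
      push_cast
      rw [Complex.norm_ofNat]
      field_simp
      push_cast
      ring
    obtain ⟨j, rfl⟩ : ∃ j, k = j + 2 := ⟨k - 2, by omega⟩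
    rw [Complex.real_smul, Complex.real_smul, e4, hG]
    simp only []
    rw [map_mul, e2, Complex.conj_ofReal]
    have e5 : F (A2_Phi z₀ ζ) * ((v ^ (((j + 2 : ℕ) : ℝ) / 2) : ℝ) : ℂ) *
        ((Y : ℂ) * b ^ (j + 2) / (y : ℂ) ^ (j + 2) * ((v ^ (((j + 2 : ℕ) : ℝ) / 2) : ℝ) : ℂ)) =
        F (A2_Phi z₀ ζ) * ((Y : ℂ) * b ^ (j + 2) / (y : ℂ) ^ (j + 2)) * (v : ℂ) ^ (j + 2) := by
      rw [← e3]
      ring
    rw [e5]
    push_cast
    rw [hvc, hH]
    simp only [Nat.add_sub_cancel]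
    rw [← haa]
    field_simp
    rw [div_pow, mul_pow (y : ℂ) (t : ℂ), mul_pow a b]
    field_simp
    try ring
  have hcomp2 : ∀ ζ ∈ Metric.ball (0 : ℂ) 1,
      ‖2 * Complex.I * z₀.im / (1 - ζ) ^ 2‖ ^ 2 •
        ((fun w : ℂ => (1 / w.im ^ 2 : ℝ) • G w) (A2_Phi z₀ ζ)) =
      (4 * ((z₀.im ^ ((k : ℝ) / 2) : ℝ) : ℂ)) * (H ζ * (((1 - ‖ζ‖ ^ 2) ^ (k - 2) : ℝ) : ℂ)) :=
    hcomp
  obtain ⟨c1, c2⟩ := A2_change z₀ hz (fun w : ℂ => (1 / w.im ^ 2 : ℝ) • G w)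
  rw [hGw]
  constructor
  · rw [A2_integrable, c1]
    exact (integrableOn_congr_fun hcomp2 measurableSet_ball).mpr (hI.const_mul _)
  · rw [A2_integral, c2, setIntegral_congr_fun measurableSet_ball hcomp2, integral_const_mul, hv]
    have h0 : H 0 = F z₀ := by
      rw [hH]
      simp [A2_Phi]
    rw [h0, phf]
    push_cast
    have h7 : ((z.im ^ ((k : ℝ) / 2) : ℝ) : ℂ) = ((z₀.im ^ ((k : ℝ) / 2) : ℝ) : ℂ) := rfl
    rw [h7]
    ring

end Pool.Agent.WA
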