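import Pool.Agent.Lib_helper98.WA.Defs
import Pool.Agent.Lib_helper68.GL2.RSA

/-! Block A1 (EZ) of the weight aspect theorem: the kernel functions (helper37). -/

namespace Pool.Agent.WA

open Complex MeasureTheory Filter Topology UpperHalfPlane ModularGroup
open scoped MatrixGroups Modular ENNReal
open Pool.Agent.GL2 (qs HData am dens hatw Ep Mol xt FD IsCompletedL oddZ RSA_coe_smul RSA_im_smul
  RSA_denom_ne)

theorem A1_norm_comm (z w : ℂ) : ‖w - starRingEnd ℂ z‖ = ‖z - starRingEnd ℂ w‖ := by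
  have h1 : starRingEnd ℂ (w - starRingEnd ℂ z) = -(z - starRingEnd ℂ w) := by
    rw [map_sub, Complex.conj_conj]
    ring
  rw [← Complex.norm_conj, h1, norm_neg]

theorem A1_im_pos (z : ℍ) (w : ℂ) (hw : 0 < w.im) : 0 < (w - starRingEnd ℂ (z : ℂ)).im := by
  rw [Complex.sub_im, Complex.conj_im]
  have := z.im_pos
  have h : (z : ℂ).im = z.im := rfl
  rw [h]
  linarith

theorem A1_ne (z : ℍ) (w : ℂ) (hw : 0 < w.im) : w - starRingEnd ℂ (z : ℂ) ≠ 0 := by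
  intro h
  have := A1_im_pos z w hw
  rw [h] at this
  simp at this

theorem ch_eq (z w : ℍ) : ch z w = Real.cosh (dist z w / 2) ^ 2 := by
  rw [UpperHalfPlane.cosh_half_dist, ch, div_pow, mul_pow, Real.sq_sqrt
    (mul_nonneg z.im_pos.le w.im_pos.le), Complex.dist_eq]
  congr 1
  ring

theorem one_le_ch (z w : ℍ) : 1 ≤ ch z w := by
  rw [ch_eq]
  exact one_le_pow₀ (Real.one_le_cosh _)

theorem ch_comm (z w : ℍ) : ch z w = ch w z := by
  rw [ch_eq, ch_eq, dist_comm]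

theorem ch_smul (g : SL(2, ℤ)) (z w : ℍ) : ch (g • z) (g • w) = ch z w := by
  rw [ch_eq, ch_eq]
  congr 3
  exact dist_smul (Matrix.SpecialLinearGroup.map (Int.castRingHom ℝ) g : SL(2, ℝ)) z w

theorem ch_tri (z w v : ℍ) : ch z v ≤ 4 * ch z w * ch w v := by
  rw [ch_eq, ch_eq, ch_eq]
  have h1 : Real.cosh (dist z v / 2) ≤ Real.cosh (dist z w / 2 + dist w v / 2) := by
    rw [Real.cosh_le_cosh, abs_of_nonneg (by positivity), abs_of_nonneg (by positivity)]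
    have := dist_triangle z w v
    linarith
  have h2 : Real.cosh (dist z w / 2 + dist w v / 2) ≤
      2 * (Real.cosh (dist z w / 2) * Real.cosh (dist w v / 2)) := by
    rw [Real.cosh_add]
    have h3 : Real.sinh (dist z w / 2) ≤ Real.cosh (dist z w / 2) := (Real.sinh_lt_cosh _).le
    have h4 : Real.sinh (dist w v / 2) ≤ Real.cosh (dist w v / 2) := (Real.sinh_lt_cosh _).le
    have h5 : 0 ≤ Real.sinh (dist w v / 2) := Real.sinh_nonneg_iff.mpr (by positivity)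
    have h6 := Real.cosh_pos (dist z w / 2)
    nlinarith [mul_le_mul h3 h4 h5 h6.le]
  have h7 := Real.cosh_pos (dist z v / 2)
  calc Real.cosh (dist z v / 2) ^ 2
      ≤ (2 * (Real.cosh (dist z w / 2) * Real.cosh (dist w v / 2))) ^ 2 :=
        pow_le_pow_left₀ h7.le (h1.trans h2) 2
    _ = _ := by ring

theorem ch_cont : Continuous (fun p : ℍ × ℍ => ch p.1 p.2) := by
  have h : (fun p : ℍ × ℍ => ch p.1 p.2) = fun p => Real.cosh (dist p.1 p.2 / 2) ^ 2 := by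
    funext p
    exact ch_eq _ _
  rw [h]
  have h1 : Continuous (fun p : ℍ × ℍ => dist p.1 p.2) := continuous_dist
  exact (Real.continuous_cosh.comp (h1.div_const 2)).pow 2

theorem vz_cont (β : ℝ) : Continuous (vz β) := by
  rw [UpperHalfPlane.isEmbedding_coe.continuous_iff]
  have h : (UpperHalfPlane.coe ∘ vz β) = fun u : ℝ => (β : ℂ) + (Real.exp u : ℂ) * Complex.I := by
    funext u
    apply Complex.ext
    · simp [vz]
    · simp [vz, Complex.exp_ofReal_re]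
  rw [h]
  fun_prop

theorem ez_norm (k : ℕ) (z w : ℍ) : ‖phf k (ez k z) w‖ = ch z w ^ (-(k : ℝ) / 2) := by
  have hy := z.im_pos
  have hv := w.im_pos
  have hn : 0 < ‖(w : ℂ) - starRingEnd ℂ (z : ℂ)‖ := norm_pos_iff.mpr (A1_ne z w w.im_pos)
  unfold phf ez
  rw [norm_mul, norm_div, norm_mul, norm_pow, norm_pow, Complex.norm_real, Complex.norm_real,
    norm_mul, Complex.norm_I, mul_one, Real.norm_of_nonneg (Real.rpow_nonneg hy.le _),
    Real.norm_of_nonneg (Real.rpow_nonneg hv.le _)]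
  have h2 : ‖(2 : ℂ)‖ = 2 := by simp
  rw [h2, ch, ← A1_norm_comm (z : ℂ) (w : ℂ), neg_div, Real.rpow_neg (by positivity),
    Real.div_rpow (by positivity) (by positivity), inv_div]
  have h3 : (‖(w : ℂ) - starRingEnd ℂ (z : ℂ)‖ ^ 2) ^ ((k : ℝ) / 2) =
      ‖(w : ℂ) - starRingEnd ℂ (z : ℂ)‖ ^ k := by
    rw [← Real.rpow_natCast, ← Real.rpow_natCast, ← Real.rpow_mul hn.le]
    congr 1
    push_cast
    ring
  have h4 : (4 * z.im * w.im) ^ ((k : ℝ) / 2) =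
      2 ^ k * (z.im ^ ((k : ℝ) / 2)) * (w.im ^ ((k : ℝ) / 2)) := by
    rw [Real.mul_rpow (by positivity) hv.le, Real.mul_rpow (by norm_num) hy.le]
    congr 2
    have : (4 : ℝ) = 2 ^ (2 : ℝ) := by norm_num
    rw [this, ← Real.rpow_mul (by norm_num), ← Real.rpow_natCast]
    congr 1
    ring
  rw [h3, h4]
  ring

theorem ez_holo (k : ℕ) (z : ℍ) : DifferentiableOn ℂ (ez k z) {w : ℂ | 0 < w.im} := by
  unfold ez
  apply DifferentiableOn.div
  · exact differentiableOn_const _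
  · exact (differentiableOn_id.sub_const _).pow k
  · intro w hw
    exact pow_ne_zero _ (A1_ne z w hw)

theorem ez_bound (k : ℕ) (z : ℍ) (w : ℂ) (hw : 0 < w.im) :
    ‖ez k z w‖ ≤ w.im ^ (-(k : ℝ) / 2) := by
  have h1 := ez_norm k z ⟨w, hw⟩
  have h2 : ch z ⟨w, hw⟩ ^ (-(k : ℝ) / 2) ≤ 1 := by
    apply Real.rpow_le_one_of_one_le_of_nonpos (one_le_ch _ _)
    have : (0 : ℝ) ≤ k := Nat.cast_nonneg k
    linarith
  unfold phf at h1
  have h3 : (⟨w, hw⟩ : ℍ).im = w.im := rfl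
  have h4 : ((⟨w, hw⟩ : ℍ) : ℂ) = w := rfl
  rw [h3, h4, norm_mul, Complex.norm_real, Real.norm_of_nonneg (Real.rpow_nonneg hw.le _)] at h1
  have h5 : 0 < w.im ^ ((k : ℝ) / 2) := Real.rpow_pos_of_pos hw _
  rw [neg_div, Real.rpow_neg hw.le, ← one_div, le_div_iff₀ h5, h1]
  exact h2

theorem ez_cont (k : ℕ) : Continuous (fun p : ℍ × ℍ => phf k (ez k p.1) p.2) := by
  unfold phf ez
  have hc1 : Continuous (fun p : ℍ × ℍ => (p.1 : ℂ)) := UpperHalfPlane.continuous_coe.comp continuous_fst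
  have hc2 : Continuous (fun p : ℍ × ℍ => (p.2 : ℂ)) := UpperHalfPlane.continuous_coe.comp continuous_snd
  have hi1 : Continuous (fun p : ℍ × ℍ => p.1.im) := UpperHalfPlane.continuous_im.comp continuous_fst
  have hi2 : Continuous (fun p : ℍ × ℍ => p.2.im) := UpperHalfPlane.continuous_im.comp continuous_snd
  have hr1 : Continuous (fun p : ℍ × ℍ => p.1.im ^ ((k : ℝ) / 2)) :=
    hi1.rpow_const (fun p => Or.inl p.1.im_pos.ne')
  have hr2 : Continuous (fun p : ℍ × ℍ => p.2.im ^ ((k : ℝ) / 2)) :=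
    hi2.rpow_const (fun p => Or.inl p.2.im_pos.ne')
  apply Continuous.mul
  · apply Continuous.div
    · exact continuous_const.mul (Complex.continuous_ofReal.comp hr1)
    · exact (hc2.sub (Complex.continuous_conj.comp hc1)).pow k
    · intro p
      exact pow_ne_zero _ (A1_ne p.1 p.2 p.2.im_pos)
  · exact Complex.continuous_ofReal.comp hr2

theorem A1_jd_ne (g : SL(2, ℤ)) (w : ℍ) : jd g w ≠ 0 := RSA_denom_ne g w

theorem A1_im_rpow (k : ℕ) (g : SL(2, ℤ)) (w : ℍ) :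
    (g • w : ℍ).im ^ ((k : ℝ) / 2) = w.im ^ ((k : ℝ) / 2) / ‖jd g w‖ ^ k := by
  rw [RSA_im_smul, Real.div_rpow w.im_pos.le (by positivity)]
  congr 1
  have hn : 0 ≤ ‖jd g w‖ := norm_nonneg _
  have h : ‖((g 1 0 : ℤ) : ℂ) * (w : ℂ) + ((g 1 1 : ℤ) : ℂ)‖ = ‖jd g w‖ := rfl
  rw [h, ← Real.rpow_natCast, ← Real.rpow_natCast, ← Real.rpow_mul hn]
  congr 1
  push_cast
  ring

theorem A1_sub (g : SL(2, ℤ)) (w z : ℍ) :
    ((g • w : ℍ) : ℂ) - starRingEnd ℂ ((g • z : ℍ) : ℂ) =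
      ((w : ℂ) - starRingEnd ℂ (z : ℂ)) / (jd g w * starRingEnd ℂ (jd g z)) := by
  have hdet : (g 0 0 : ℤ) * g 1 1 - g 0 1 * g 1 0 = 1 := by
    have := g.det_coe
    rwa [Matrix.det_fin_two] at this
  have hdetC : ((g 0 0 : ℤ) : ℂ) * ((g 1 1 : ℤ) : ℂ) - ((g 0 1 : ℤ) : ℂ) * ((g 1 0 : ℤ) : ℂ) = 1 := by
    exact_mod_cast hdet
  have h1 := A1_jd_ne g w
  have h2 : starRingEnd ℂ (jd g z) ≠ 0 := (map_ne_zero _).mpr (A1_jd_ne g z)
  rw [RSA_coe_smul, RSA_coe_smul, map_div₀]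
  have h3 : starRingEnd ℂ (((g 1 0 : ℤ) : ℂ) * (z : ℂ) + ((g 1 1 : ℤ) : ℂ)) =
      starRingEnd ℂ (jd g z) := rfl
  have h4 : ((g 1 0 : ℤ) : ℂ) * (w : ℂ) + ((g 1 1 : ℤ) : ℂ) = jd g w := rfl
  rw [h3, h4, div_sub_div _ _ h1 h2]
  congr 1
  simp only [jd, map_add, map_mul, map_intCast]
  linear_combination ((w : ℂ) - starRingEnd ℂ (z : ℂ)) * hdetC

theorem ez_smul (k : ℕ) (g : SL(2, ℤ)) (z w : ℍ) :
    phf k (ez k z) (g • w) =
      jk k g w * starRingEnd ℂ (jk k g (g⁻¹ • z)) * phf k (ez k (g⁻¹ • z)) w := by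
  obtain ⟨z', hz'⟩ : ∃ z', z' = g⁻¹ • z := ⟨_, rfl⟩
  have hz : z = g • z' := by rw [hz', smul_inv_smul]
  rw [← hz', hz]
  unfold phf ez jk
  rw [A1_im_rpow, A1_im_rpow, A1_sub]
  have h1 := A1_jd_ne g w
  have h2 : starRingEnd ℂ (jd g z') ≠ 0 := (map_ne_zero _).mpr (A1_jd_ne g z')
  have h3 := A1_ne z' w w.im_pos
  have h4 : (‖jd g w‖ : ℂ) ≠ 0 := by
    rw [Ne, Complex.ofReal_eq_zero]
    exact (norm_pos_iff.mpr h1).ne'
  have h5 : (‖jd g z'‖ : ℂ) ≠ 0 := by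
    rw [Ne, Complex.ofReal_eq_zero]
    exact (norm_pos_iff.mpr (A1_jd_ne g z')).ne'
  rw [map_pow, map_div₀, Complex.conj_ofReal]
  push_cast
  rw [div_pow, div_pow, div_pow, mul_pow]
  field_simp
  ring

theorem jk_norm (k : ℕ) (g : SL(2, ℤ)) (w : ℍ) : ‖jk k g w‖ = 1 := by
  have h1 : 0 < ‖jd g w‖ := norm_pos_iff.mpr (A1_jd_ne g w)
  rw [jk, norm_pow, norm_div, Complex.norm_real, norm_norm, div_self h1.ne', one_pow]

theorem A1_jd_cont (g : SL(2, ℤ)) : Continuous (jd g) := by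
  unfold jd
  exact (continuous_const.mul UpperHalfPlane.continuous_coe).add continuous_const

theorem jk_cont (k : ℕ) (g : SL(2, ℤ)) : Continuous (jk k g) := by
  unfold jk
  apply Continuous.pow
  apply Continuous.div (A1_jd_cont g)
  · exact Complex.continuous_ofReal.comp (A1_jd_cont g).norm
  · intro w
    rw [Ne, Complex.ofReal_eq_zero]
    exact (norm_pos_iff.mpr (A1_jd_ne g w)).ne'

theorem A1_jd_mul (g h : SL(2, ℤ)) (w : ℍ) : jd (g * h) w = jd g (h • w) * jd h w := by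
  have h1 := A1_jd_ne h w
  have h3 : ((h • w : ℍ) : ℂ) = (((h 0 0 : ℤ) : ℂ) * (w : ℂ) + ((h 0 1 : ℤ) : ℂ)) / jd h w :=
    RSA_coe_smul h w
  have h4 : jd g (h • w) = ((g 1 0 : ℤ) : ℂ) * ((h • w : ℍ) : ℂ) + ((g 1 1 : ℤ) : ℂ) := rfl
  rw [h4, h3, add_mul, mul_assoc, div_mul_cancel₀ _ h1]
  have e1 : (g * h) 1 0 = g 1 0 * h 0 0 + g 1 1 * h 1 0 := by
    rw [Matrix.SpecialLinearGroup.coe_mul, Matrix.mul_apply, Fin.sum_univ_two]
  have e2 : (g * h) 1 1 = g 1 0 * h 0 1 + g 1 1 * h 1 1 := by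
    rw [Matrix.SpecialLinearGroup.coe_mul, Matrix.mul_apply, Fin.sum_univ_two]
  unfold jd
  rw [e1, e2]
  push_cast
  ring

theorem jk_mul (k : ℕ) (g h : SL(2, ℤ)) (w : ℍ) :
    jk k (g * h) w = jk k g (h • w) * jk k h w := by
  unfold jk
  rw [A1_jd_mul, norm_mul, ← mul_pow]
  push_cast
  rw [mul_div_mul_comm]

theorem cf_smul {k : ℕ} {b : ℕ → ℂ} (H : CForm k b) (g : SL(2, ℤ)) (w : ℍ) :
    phf k (qc b) (g • w) = jk k g w * phf k (qc b) w := by
  have hdet : (g 0 0 : ℤ) * g 1 1 - g 0 1 * g 1 0 = 1 := by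
    have := g.det_coe
    rwa [Matrix.det_fin_two] at this
  have h1 := H.slash (g 0 0) (g 0 1) (g 1 0) (g 1 1) hdet (w : ℂ) w.im_pos
  have h4 : (‖jd g w‖ : ℂ) ≠ 0 := by
    rw [Ne, Complex.ofReal_eq_zero]
    exact (norm_pos_iff.mpr (A1_jd_ne g w)).ne'
  unfold phf
  rw [A1_im_rpow, RSA_coe_smul, h1]
  have h5 : ((g 1 0 : ℤ) : ℂ) * (w : ℂ) + ((g 1 1 : ℤ) : ℂ) = jd g w := rfl
  rw [h5]
  unfold jk
  push_cast
  rw [div_pow]
  field_simp

theorem geo_phf (k : ℕ) (b : ℕ → ℂ) (β u : ℝ) : geo k b β u = phf k (qc b) (vz β u) := by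
  unfold geo phf
  have h1 : ((vz β u : ℍ) : ℂ) = (β : ℂ) + (Real.exp u : ℝ) * Complex.I := by
    apply Complex.ext
    · simp [vz]
    · simp [vz, Complex.exp_ofReal_re]
  have h2 : (vz β u).im = Real.exp u := rfl
  rw [h1, h2, ← Real.exp_mul]
  congr 3
  ring

end Pool.Agent.WA
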