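import Pool.Agent.Lib_helper98.WA.Defs
import Pool.Agent.Lib_helper68.GL2.RSA

/-! Block A4 (KF, KSUM) of the weight aspect theorem (helper37). -/

namespace Pool.Agent.WA

open Complex MeasureTheory Filter Topology UpperHalfPlane ModularGroup
open scoped MatrixGroups Modular ENNReal
open Pool.Agent.GL2 (qs HData am dens hatw Ep Mol xt FD IsCompletedL oddZ RSA_coe_smul RSA_im_smul
  RSA_denom_ne)

theorem A4_det (g : SL(2, ℤ)) :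
    ((g 0 0 : ℤ) : ℝ) * ((g 1 1 : ℤ) : ℝ) - ((g 0 1 : ℤ) : ℝ) * ((g 1 0 : ℤ) : ℝ) = 1 := by
  have hdet : (g 0 0 : ℤ) * g 1 1 - g 0 1 * g 1 0 = 1 := by
    have := g.det_coe
    rwa [Matrix.det_fin_two] at this
  exact_mod_cast hdet

theorem pq_cX (g : SL(2, ℤ)) (β β' : ℝ) :
    gp g β' * gq g β - ((g 1 0 : ℤ) : ℝ) * gX g β β' = 1 := by
  unfold gp gq gX
  linear_combination A4_det g

theorem ch_formula (g : SL(2, ℤ)) (β β' u u' : ℝ) :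
    ch (g • vz β u) (vz β' u') = (gX g β β' ^ 2 * Real.exp (-(u + u')) +
      ((g 1 0 : ℤ) : ℝ) ^ 2 * Real.exp (u + u') + gp g β' ^ 2 * Real.exp (u - u') +
      gq g β ^ 2 * Real.exp (u' - u) + 2) / 4 := by
  have hd := A4_det g
  have hpq := pq_cX g β β'
  unfold ch
  rw [RSA_im_smul, RSA_coe_smul]
  obtain ⟨y, hy, hyu⟩ : ∃ y : ℝ, 0 < y ∧ Real.exp u = y := ⟨_, Real.exp_pos u, rfl⟩
  obtain ⟨y', hy', hyu'⟩ : ∃ y : ℝ, 0 < y ∧ Real.exp u' = y := ⟨_, Real.exp_pos u', rfl⟩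
  have e1 : Real.exp (-(u + u')) = 1 / (y * y') := by
    rw [Real.exp_neg, Real.exp_add, hyu, hyu', one_div]
  have e2 : Real.exp (u + u') = y * y' := by rw [Real.exp_add, hyu, hyu']
  have e3 : Real.exp (u - u') = y / y' := by rw [Real.exp_sub, hyu, hyu']
  have e4 : Real.exp (u' - u) = y' / y := by rw [Real.exp_sub, hyu, hyu']
  have i1 : (vz β u).im = y := hyu
  have i2 : (vz β' u').im = y' := hyu'
  have c1 : ((vz β u : ℍ) : ℂ) = ⟨β, y⟩ := by rw [← hyu]; rfl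
  have c2 : ((vz β' u' : ℍ) : ℂ) = ⟨β', y'⟩ := by rw [← hyu']; rfl
  have hne := RSA_denom_ne g (vz β u)
  rw [c1] at hne
  rw [e1, e2, e3, e4, i1, i2, c1, c2]
  set D : ℂ := ((g 1 0 : ℤ) : ℂ) * (⟨β, y⟩ : ℂ) + ((g 1 1 : ℤ) : ℂ) with hD
  have hDn : ‖D‖ ≠ 0 := norm_ne_zero_iff.mpr hne
  have h1 : (((g 0 0 : ℤ) : ℂ) * (⟨β, y⟩ : ℂ) + ((g 0 1 : ℤ) : ℂ)) / D - starRingEnd ℂ ⟨β', y'⟩ =
      ((((g 0 0 : ℤ) : ℂ) * (⟨β, y⟩ : ℂ) + ((g 0 1 : ℤ) : ℂ)) - starRingEnd ℂ ⟨β', y'⟩ * D) / D := by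
    field_simp
  have h2 : (((g 0 0 : ℤ) : ℂ) * (⟨β, y⟩ : ℂ) + ((g 0 1 : ℤ) : ℂ)) - starRingEnd ℂ ⟨β', y'⟩ * D =
      ⟨gX g β β' - ((g 1 0 : ℤ) : ℝ) * y * y', gp g β' * y + gq g β * y'⟩ := by
    apply Complex.ext
    · simp [hD, gX]
      ring
    · simp [hD, gp, gq]
      ring
  rw [h1, h2, norm_div, div_pow]
  have h3 : ‖(⟨gX g β β' - ((g 1 0 : ℤ) : ℝ) * y * y', gp g β' * y + gq g β * y'⟩ : ℂ)‖ ^ 2 =
      (gX g β β' - ((g 1 0 : ℤ) : ℝ) * y * y') ^ 2 + (gp g β' * y + gq g β * y') ^ 2 := by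
    rw [← Complex.normSq_eq_norm_sq, Complex.normSq_apply]
    ring
  rw [h3]
  have h4 : (gX g β β' - ((g 1 0 : ℤ) : ℝ) * y * y') ^ 2 + (gp g β' * y + gq g β * y') ^ 2 =
      gX g β β' ^ 2 + ((g 1 0 : ℤ) : ℝ) ^ 2 * (y ^ 2 * y' ^ 2) + gp g β' ^ 2 * y ^ 2 +
        gq g β ^ 2 * y' ^ 2 + 2 * (y * y') := by
    linear_combination (2 * y * y') * hpq
  rw [h4]
  field_simp

theorem A4_sumZ : Summable (fun a : ℤ => 1 / (1 + (a : ℝ) ^ 2)) := by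
  have h : Summable (fun a : ℤ => 1 / ((a : ℝ) ^ 2)) := by
    have := (Real.summable_one_div_int_pow (p := 2)).mpr (by norm_num)
    exact this
  have h2 : Summable (fun a : ℤ => 1 / ((a : ℝ) ^ 2) + (if a = 0 then 1 else 0)) := by
    apply h.add
    exact (hasSum_ite_eq (0 : ℤ) (1 : ℝ)).summable
  apply Summable.of_nonneg_of_le _ _ h2
  · intro a
    positivity
  · intro a
    by_cases ha : a = 0
    · simp [ha]
    · have h3 : (0 : ℝ) < (a : ℝ) ^ 2 := by positivity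
      rw [if_neg ha, add_zero]
      apply one_div_le_one_div_of_le h3
      linarith

/-- the sum over the four entries is finite -/
theorem A4_sumSL : ∑' g : SL(2, ℤ), ENNReal.ofReal
    ((1 + ((g 0 0 : ℤ) : ℝ) ^ 2 + ((g 0 1 : ℤ) : ℝ) ^ 2 + ((g 1 0 : ℤ) : ℝ) ^ 2 +
      ((g 1 1 : ℤ) : ℝ) ^ 2) ^ (-(4 : ℝ))) < ∞ := by
  obtain ⟨F, hF⟩ : ∃ F : ℤ → ℝ≥0∞, F = fun a : ℤ => ENNReal.ofReal (1 / (1 + (a : ℝ) ^ 2)) :=
    ⟨_, rfl⟩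
  have hFs : ∑' a, F a < ∞ := by
    rw [hF, ← ENNReal.ofReal_tsum_of_nonneg (fun a => by positivity) A4_sumZ]
    exact ENNReal.ofReal_lt_top
  obtain ⟨emb, hemb⟩ : ∃ emb : SL(2, ℤ) → ℤ × ℤ × ℤ × ℤ,
      emb = fun g => (g 0 0, g 0 1, g 1 0, g 1 1) := ⟨_, rfl⟩
  have hinj : Function.Injective emb := by
    intro g h hgh
    rw [hemb] at hgh
    simp only [Prod.mk.injEq] at hgh
    obtain ⟨h1, h2, h3, h4⟩ := hgh
    ext i j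
    fin_cases i <;> fin_cases j <;> assumption
  calc _ ≤ ∑' g : SL(2, ℤ), (fun q : ℤ × ℤ × ℤ × ℤ => F q.1 * (F q.2.1 * (F q.2.2.1 * F q.2.2.2)))
        (emb g) := by
        apply ENNReal.tsum_le_tsum
        intro g
        rw [hemb, hF]
        simp only
        rw [← ENNReal.ofReal_mul (by positivity), ← ENNReal.ofReal_mul (by positivity),
          ← ENNReal.ofReal_mul (by positivity)]
        apply ENNReal.ofReal_le_ofReal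
        obtain ⟨a, ha⟩ : ∃ a : ℝ, a = ((g 0 0 : ℤ) : ℝ) := ⟨_, rfl⟩
        obtain ⟨b, hb⟩ : ∃ a : ℝ, a = ((g 0 1 : ℤ) : ℝ) := ⟨_, rfl⟩
        obtain ⟨c, hc⟩ : ∃ a : ℝ, a = ((g 1 0 : ℤ) : ℝ) := ⟨_, rfl⟩
        obtain ⟨d, hd⟩ : ∃ a : ℝ, a = ((g 1 1 : ℤ) : ℝ) := ⟨_, rfl⟩
        rw [← ha, ← hb, ← hc, ← hd]
        have hS : 0 < 1 + a ^ 2 + b ^ 2 + c ^ 2 + d ^ 2 := by positivity
        rw [Real.rpow_neg hS.le]
        have h4 : (1 + a ^ 2 + b ^ 2 + c ^ 2 + d ^ 2) ^ (4 : ℝ) =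
            (1 + a ^ 2 + b ^ 2 + c ^ 2 + d ^ 2) ^ 4 := by
          rw [← Real.rpow_natCast]
          norm_num
        rw [h4, ← one_div, one_div_mul_one_div, one_div_mul_one_div, one_div_mul_one_div]
        apply one_div_le_one_div_of_le (by positivity)
        have ha2 := sq_nonneg a
        have hb2 := sq_nonneg b
        have hc2 := sq_nonneg c
        have hd2 := sq_nonneg d
        have k1 : 1 + a ^ 2 ≤ 1 + a ^ 2 + b ^ 2 + c ^ 2 + d ^ 2 := by linarith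
        have k2 : 1 + b ^ 2 ≤ 1 + a ^ 2 + b ^ 2 + c ^ 2 + d ^ 2 := by linarith
        have k3 : 1 + c ^ 2 ≤ 1 + a ^ 2 + b ^ 2 + c ^ 2 + d ^ 2 := by linarith
        have k4 : 1 + d ^ 2 ≤ 1 + a ^ 2 + b ^ 2 + c ^ 2 + d ^ 2 := by linarith
        calc (1 + a ^ 2) * ((1 + b ^ 2) * ((1 + c ^ 2) * (1 + d ^ 2)))
            ≤ (1 + a ^ 2 + b ^ 2 + c ^ 2 + d ^ 2) * ((1 + a ^ 2 + b ^ 2 + c ^ 2 + d ^ 2) *
              ((1 + a ^ 2 + b ^ 2 + c ^ 2 + d ^ 2) * (1 + a ^ 2 + b ^ 2 + c ^ 2 + d ^ 2))) := by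
              gcongr
          _ = _ := by ring
    _ ≤ ∑' q : ℤ × ℤ × ℤ × ℤ, F q.1 * (F q.2.1 * (F q.2.2.1 * F q.2.2.2)) :=
        ENNReal.tsum_comp_le_tsum_of_injective hinj _
    _ = (∑' a, F a) * ((∑' a, F a) * ((∑' a, F a) * (∑' a, F a))) := by
        rw [ENNReal.tsum_prod']
        simp_rw [ENNReal.tsum_mul_left, ENNReal.tsum_mul_right]
        congr 1
        rw [ENNReal.tsum_prod']
        simp_rw [ENNReal.tsum_mul_left, ENNReal.tsum_mul_right]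
        congr 1
        rw [ENNReal.tsum_prod']
        simp_rw [ENNReal.tsum_mul_left, ENNReal.tsum_mul_right]
    _ < ∞ := by
        exact ENNReal.mul_lt_top hFs (ENNReal.mul_lt_top hFs (ENNReal.mul_lt_top hFs hFs))

/-- `1 + a² + b² + c² + d² ≤ K (X² + c² + p² + q² + 1)` -/
theorem A4_low (g : SL(2, ℤ)) (β β' : ℝ) :
    1 + ((g 0 0 : ℤ) : ℝ) ^ 2 + ((g 0 1 : ℤ) : ℝ) ^ 2 + ((g 1 0 : ℤ) : ℝ) ^ 2 +
      ((g 1 1 : ℤ) : ℝ) ^ 2 ≤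
    (20 * (1 + β ^ 2) * (1 + β' ^ 2)) *
      (gX g β β' ^ 2 + ((g 1 0 : ℤ) : ℝ) ^ 2 + gp g β' ^ 2 + gq g β ^ 2 + 1) := by
  obtain ⟨a, ha⟩ : ∃ a : ℝ, a = ((g 0 0 : ℤ) : ℝ) := ⟨_, rfl⟩
  obtain ⟨b, hb⟩ : ∃ a : ℝ, a = ((g 0 1 : ℤ) : ℝ) := ⟨_, rfl⟩
  obtain ⟨c, hc⟩ : ∃ a : ℝ, a = ((g 1 0 : ℤ) : ℝ) := ⟨_, rfl⟩
  obtain ⟨d, hd⟩ : ∃ a : ℝ, a = ((g 1 1 : ℤ) : ℝ) := ⟨_, rfl⟩
  unfold gX gp gq
  rw [← ha, ← hb, ← hc, ← hd]
  obtain ⟨p, hp⟩ : ∃ p : ℝ, p = a - β' * c := ⟨_, rfl⟩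
  obtain ⟨q, hq⟩ : ∃ q : ℝ, q = c * β + d := ⟨_, rfl⟩
  obtain ⟨X, hX⟩ : ∃ X : ℝ, X = a * β + b - β' * (c * β + d) := ⟨_, rfl⟩
  rw [← hX, ← hp, ← hq]
  have h1 : a = p + β' * c := by rw [hp]; ring
  have h2 : d = q - c * β := by rw [hq]; ring
  have h3 : b = X - a * β + β' * q := by rw [hX, hq]; ring
  obtain ⟨S, hS⟩ : ∃ S : ℝ, S = X ^ 2 + c ^ 2 + p ^ 2 + q ^ 2 + 1 := ⟨_, rfl⟩
  obtain ⟨P, hP⟩ : ∃ P : ℝ, P = (1 + β ^ 2) * (1 + β' ^ 2) := ⟨_, rfl⟩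
  have hP1 : 1 + β ^ 2 ≤ P := by rw [hP]; nlinarith [sq_nonneg β, sq_nonneg β', mul_nonneg (sq_nonneg β) (sq_nonneg β')]
  have hP2 : 1 + β' ^ 2 ≤ P := by rw [hP]; nlinarith [sq_nonneg β, sq_nonneg β', mul_nonneg (sq_nonneg β) (sq_nonneg β')]
  have hP0 : 1 ≤ P := by nlinarith [sq_nonneg β]
  have hX2 := sq_nonneg X
  have hc2 := sq_nonneg c
  have hp2 := sq_nonneg p
  have hq2 := sq_nonneg q
  have hS1 : 1 ≤ S := by rw [hS]; linarith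
  have ka : a ^ 2 ≤ 2 * (1 + β' ^ 2) * (p ^ 2 + c ^ 2) := by
    rw [h1]
    nlinarith [sq_nonneg (p - β' * c), mul_nonneg (sq_nonneg β') hp2, mul_nonneg (sq_nonneg β') hc2]
  have ka' : a ^ 2 ≤ 2 * P * S := by
    calc a ^ 2 ≤ 2 * (1 + β' ^ 2) * (p ^ 2 + c ^ 2) := ka
      _ ≤ 2 * P * S := by
        have : p ^ 2 + c ^ 2 ≤ S := by rw [hS]; linarith
        gcongr
  have kd' : d ^ 2 ≤ 2 * P * S := by
    have kd : d ^ 2 ≤ 2 * (1 + β ^ 2) * (q ^ 2 + c ^ 2) := by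
      rw [h2]
      nlinarith [sq_nonneg (q + c * β), mul_nonneg (sq_nonneg β) hq2, mul_nonneg (sq_nonneg β) hc2]
    calc d ^ 2 ≤ 2 * (1 + β ^ 2) * (q ^ 2 + c ^ 2) := kd
      _ ≤ 2 * P * S := by
        have : q ^ 2 + c ^ 2 ≤ S := by rw [hS]; linarith
        gcongr
  have kb' : b ^ 2 ≤ 12 * P * S := by
    have kb : b ^ 2 ≤ 3 * (X ^ 2 + a ^ 2 * β ^ 2 + β' ^ 2 * q ^ 2) := by
      rw [h3]
      nlinarith [sq_nonneg (X + a * β), sq_nonneg (X - β' * q), sq_nonneg (a * β + β' * q)]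
    have k1 : a ^ 2 * β ^ 2 ≤ 2 * P * S := by
      have e1 : β ^ 2 ≤ 1 + β ^ 2 := by linarith
      calc a ^ 2 * β ^ 2 ≤ (2 * (1 + β' ^ 2) * (p ^ 2 + c ^ 2)) * (1 + β ^ 2) := by
            gcongr
        _ = 2 * P * (p ^ 2 + c ^ 2) := by rw [hP]; ring
        _ ≤ 2 * P * S := by
          have : p ^ 2 + c ^ 2 ≤ S := by rw [hS]; linarith
          gcongr
    have k2 : β' ^ 2 * q ^ 2 ≤ P * S := by
      have e1 : β' ^ 2 ≤ P := by linarith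
      have e2 : q ^ 2 ≤ S := by rw [hS]; linarith
      gcongr
    have k3 : X ^ 2 ≤ P * S := by
      have e2 : X ^ 2 ≤ S := by rw [hS]; linarith
      nlinarith
    nlinarith
  have kc' : c ^ 2 ≤ P * S := by
    have e2 : c ^ 2 ≤ S := by rw [hS]; linarith
    nlinarith
  have k1' : 1 ≤ P * S := by nlinarith
  have hfin : 1 + a ^ 2 + b ^ 2 + c ^ 2 + d ^ 2 ≤ 20 * P * S := by nlinarith
  calc 1 + a ^ 2 + b ^ 2 + c ^ 2 + d ^ 2 ≤ 20 * P * S := hfin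
    _ = _ := by rw [hP, hS]; ring

theorem ch_sum (β β' V : ℝ) : ∃ C : ℝ, ∀ u ∈ Set.Icc (-V) V, ∀ u' ∈ Set.Icc (-V) V,
    ∑' g : SL(2, ℤ), ENNReal.ofReal (ch (g • vz β u) (vz β' u') ^ (-(4 : ℝ))) ≤
      ENNReal.ofReal C := by
  obtain ⟨κ, hκ⟩ : ∃ κ : ℝ, κ = 1 / (20 * (1 + β ^ 2) * (1 + β' ^ 2)) * Real.exp (-(2 * V)) / 4 :=
    ⟨_, rfl⟩
  have hκ0 : 0 < κ := by rw [hκ]; positivity
  obtain ⟨T, hT⟩ : ∃ T : ℝ≥0∞, T = ∑' g : SL(2, ℤ), ENNReal.ofReal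
    ((1 + ((g 0 0 : ℤ) : ℝ) ^ 2 + ((g 0 1 : ℤ) : ℝ) ^ 2 + ((g 1 0 : ℤ) : ℝ) ^ 2 +
      ((g 1 1 : ℤ) : ℝ) ^ 2) ^ (-(4 : ℝ))) := ⟨_, rfl⟩
  have hTf : T ≠ ∞ := by rw [hT]; exact A4_sumSL.ne
  refine ⟨κ ^ (-(4 : ℝ)) * T.toReal, ?_⟩
  intro u hu u' hu'
  have hV : 0 ≤ V := by
    have := hu.1.trans hu.2
    linarith
  rw [ENNReal.ofReal_mul (by positivity), ENNReal.ofReal_toReal hTf, hT, ← ENNReal.tsum_mul_left]
  apply ENNReal.tsum_le_tsum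
  intro g
  rw [← ENNReal.ofReal_mul (by positivity), ← Real.mul_rpow hκ0.le (by positivity)]
  apply ENNReal.ofReal_le_ofReal
  apply Real.rpow_le_rpow_of_nonpos
  · positivity
  · have hlow := A4_low g β β'
    rw [ch_formula]
    obtain ⟨X, hX⟩ : ∃ X, X = gX g β β' := ⟨_, rfl⟩
    obtain ⟨p, hp⟩ : ∃ X, X = gp g β' := ⟨_, rfl⟩
    obtain ⟨q, hq⟩ : ∃ X, X = gq g β := ⟨_, rfl⟩
    obtain ⟨c, hc⟩ : ∃ X : ℝ, X = ((g 1 0 : ℤ) : ℝ) := ⟨_, rfl⟩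
    rw [← hX, ← hp, ← hq] at hlow ⊢
    have hE : Real.exp (-(2 * V)) ≤ 1 := by
      rw [Real.exp_le_one_iff]
      linarith
    have m1 : Real.exp (-(2 * V)) ≤ Real.exp (-(u + u')) := by
      apply Real.exp_le_exp.mpr
      linarith [hu.2, hu'.2]
    have m2 : Real.exp (-(2 * V)) ≤ Real.exp (u + u') := by
      apply Real.exp_le_exp.mpr
      linarith [hu.1, hu'.1]
    have m3 : Real.exp (-(2 * V)) ≤ Real.exp (u - u') := by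
      apply Real.exp_le_exp.mpr
      linarith [hu.1, hu'.2]
    have m4 : Real.exp (-(2 * V)) ≤ Real.exp (u' - u) := by
      apply Real.exp_le_exp.mpr
      linarith [hu.2, hu'.1]
    have hstep : κ * (1 + ((g 0 0 : ℤ) : ℝ) ^ 2 + ((g 0 1 : ℤ) : ℝ) ^ 2 + ((g 1 0 : ℤ) : ℝ) ^ 2 +
        ((g 1 1 : ℤ) : ℝ) ^ 2) ≤ κ * ((20 * (1 + β ^ 2) * (1 + β' ^ 2)) *
        (X ^ 2 + ((g 1 0 : ℤ) : ℝ) ^ 2 + p ^ 2 + q ^ 2 + 1)) := by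
      gcongr
    refine hstep.trans ?_
    have hk : κ * ((20 * (1 + β ^ 2) * (1 + β' ^ 2)) *
        (X ^ 2 + ((g 1 0 : ℤ) : ℝ) ^ 2 + p ^ 2 + q ^ 2 + 1)) =
        (Real.exp (-(2 * V)) * X ^ 2 + Real.exp (-(2 * V)) * ((g 1 0 : ℤ) : ℝ) ^ 2 +
          Real.exp (-(2 * V)) * p ^ 2 + Real.exp (-(2 * V)) * q ^ 2 + Real.exp (-(2 * V))) / 4 := by
      rw [hκ]
      field_simp
    rw [hk]
    apply div_le_div_of_nonneg_right _ (by norm_num)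
    have n1 := mul_le_mul_of_nonneg_right m1 (sq_nonneg X)
    have n2 := mul_le_mul_of_nonneg_right m2 (sq_nonneg ((g 1 0 : ℤ) : ℝ))
    have n3 := mul_le_mul_of_nonneg_right m3 (sq_nonneg p)
    have n4 := mul_le_mul_of_nonneg_right m4 (sq_nonneg q)
    linarith
  · norm_num

end Pool.Agent.WA
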