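import Pool.Agent.Lib_helper98.WAF.B2

/-! Block B4 (GAM). -/

namespace Pool.Agent.WA

open Complex MeasureTheory Filter Topology UpperHalfPlane ModularGroup
open scoped MatrixGroups Modular ENNReal
open Pool.Agent.GL2 (qs HData am dens hatw Ep Mol xt FD IsCompletedL oddZ)

theorem gk_pos {k : ℕ} (hk : 1 ≤ k) : 0 < gk k := by
  unfold gk
  have h1 : 0 < Real.Gamma ((k : ℝ) / 2) := Real.Gamma_pos_of_pos (by
    have : (1 : ℝ) ≤ k := by exact_mod_cast hk
    linarith)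
  have h2 : 0 < (2 * Real.pi) ^ (-(k : ℝ) / 2) := Real.rpow_pos_of_pos (by positivity) _
  exact mul_pos h1 h2

theorem omk_pos {k : ℕ} (hk : 2 ≤ k) : 0 < omk k := by
  unfold omk
  have h1 : 0 < Real.Gamma ((k : ℝ) - 1) := Real.Gamma_pos_of_pos (by
    have : (2 : ℝ) ≤ k := by exact_mod_cast hk
    linarith)
  positivity

theorem om_pos {k : ℕ} (hk : 2 ≤ k) {a : ℕ → ℝ} (H : HData k a) : 0 < om k a := by
  unfold om
  apply div_pos (omk_pos hk)
  apply pn_pos hk (cf_of_hdata H)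
  rw [H.one]
  simp

theorem b4_cb_low (n : ℕ) : (2 * n + 1) * (Nat.centralBinom n) ^ 2 ≤ 16 ^ n := by
  induction n with
  | zero => simp
  | succ n ih =>
    have h := Nat.succ_mul_centralBinom_succ n
    -- (n+1) c' = 2 (2n+1) c
    set c := Nat.centralBinom n with hc
    set c' := Nat.centralBinom (n + 1) with hc'
    have h2 : (n + 1) ^ 2 * ((2 * (n + 1) + 1) * c' ^ 2) ≤ (n + 1) ^ 2 * 16 ^ (n + 1) := by
      calc (n + 1) ^ 2 * ((2 * (n + 1) + 1) * c' ^ 2) = (2 * n + 3) * ((n + 1) * c') ^ 2 := by ring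
        _ = (2 * n + 3) * (2 * (2 * n + 1) * c) ^ 2 := by rw [h]
        _ = 4 * ((2 * n + 3) * (2 * n + 1)) * ((2 * n + 1) * c ^ 2) := by ring
        _ ≤ 4 * ((2 * n + 3) * (2 * n + 1)) * 16 ^ n := Nat.mul_le_mul_left _ ih
        _ ≤ 4 * (4 * (n + 1) ^ 2) * 16 ^ n := by
            apply Nat.mul_le_mul_right
            nlinarith
        _ = (n + 1) ^ 2 * 16 ^ (n + 1) := by ring
    exact Nat.le_of_mul_le_mul_left h2 (by positivity)

theorem b4_cb_up (n : ℕ) (hn : 1 ≤ n) : 16 ^ n ≤ 4 * n * (Nat.centralBinom n) ^ 2 := by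
  induction n, hn using Nat.le_induction with
  | base => simp [Nat.centralBinom]
  | succ n hn ih =>
    have h := Nat.succ_mul_centralBinom_succ n
    set c := Nat.centralBinom n with hc
    set c' := Nat.centralBinom (n + 1) with hc'
    have h2 : (n + 1) * 16 ^ (n + 1) ≤ (n + 1) * (4 * (n + 1) * c' ^ 2) := by
      calc (n + 1) * 16 ^ (n + 1) = 16 * (n + 1) * 16 ^ n := by ring
        _ ≤ 16 * (n + 1) * (4 * n * c ^ 2) := Nat.mul_le_mul_left _ ih
        _ = 16 * (4 * n * (n + 1)) * c ^ 2 := by ring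
        _ ≤ 16 * ((2 * n + 1) ^ 2) * c ^ 2 := by
            apply Nat.mul_le_mul_right
            apply Nat.mul_le_mul_left
            nlinarith
        _ = 4 * (2 * (2 * n + 1) * c) ^ 2 := by ring
        _ = 4 * ((n + 1) * c') ^ 2 := by rw [h]
        _ = (n + 1) * (4 * (n + 1) * c' ^ 2) := by ring
    exact Nat.le_of_mul_le_mul_left h2 (by positivity)

theorem b4_ratio (n : ℕ) :
    gk (2 * n + 2) ^ 2 / omk (2 * n + 2) = (4 : ℝ) ^ n / (Real.pi * Nat.centralBinom n) := by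
  unfold gk omk
  have e1 : ((2 * n + 2 : ℕ) : ℝ) / 2 = (n : ℝ) + 1 := by push_cast; ring
  have e2 : ((2 * n + 2 : ℕ) : ℝ) - 1 = ((2 * n : ℕ) : ℝ) + 1 := by push_cast; ring
  have e3 : -((2 * n + 2 : ℕ) : ℝ) / 2 = -(((n + 1 : ℕ) : ℝ)) := by push_cast; ring
  rw [e1, e2, e3, Real.Gamma_nat_eq_factorial, Real.Gamma_nat_eq_factorial,
    Real.rpow_neg (by positivity), Real.rpow_natCast]
  have hcb : (Nat.centralBinom n : ℝ) * ((n.factorial : ℝ) ^ 2) = ((2 * n).factorial : ℝ) := by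
    have := Nat.centralBinom_eq_two_mul_choose n
    have h2 := Nat.choose_mul_factorial_mul_factorial (show n ≤ 2 * n by omega)
    rw [← this] at h2
    have h3 : 2 * n - n = n := by omega
    rw [h3] at h2
    rw [← h2]
    push_cast
    ring
  rw [← hcb]
  have hc0 : (Nat.centralBinom n : ℝ) ≠ 0 := by exact_mod_cast (Nat.centralBinom_pos n).ne'
  have hf0 : (n.factorial : ℝ) ≠ 0 := by exact_mod_cast (Nat.factorial_pos n).ne'
  have hpi : Real.pi ≠ 0 := Real.pi_ne_zero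
  have e4 : 2 * n + 2 - 1 = 2 * n + 1 := by omega
  rw [e4]
  have h24 : (2 : ℝ) ^ (n * 2) = 4 ^ n := by rw [mul_comm, pow_mul]; norm_num
  have h44 : (4 : ℝ) ^ (n * 2) = 4 ^ n * 4 ^ n := by rw [mul_comm n 2, two_mul, pow_add]
  field_simp
  ring_nf
  rw [h24, h44]
  ring

theorem gam_ratio {k : ℕ} (hk : 4 ≤ k) (he : Even k) :
    Real.sqrt k / 10 ≤ gk k ^ 2 / omk k ∧ gk k ^ 2 / omk k ≤ Real.sqrt k := by
  obtain ⟨m, hm⟩ := he
  obtain ⟨n, rfl⟩ : ∃ n, k = 2 * n + 2 := ⟨m - 1, by omega⟩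
  have hn : 1 ≤ n := by omega
  rw [b4_ratio]
  have hc0 : (0 : ℝ) < Nat.centralBinom n := by exact_mod_cast Nat.centralBinom_pos n
  have hlow : (2 * (n : ℝ) + 1) * (Nat.centralBinom n : ℝ) ^ 2 ≤ ((4 : ℝ) ^ n) ^ 2 := by
    rw [← pow_mul, mul_comm n 2, pow_mul]
    norm_num
    exact_mod_cast b4_cb_low n
  have hup : ((4 : ℝ) ^ n) ^ 2 ≤ 4 * n * (Nat.centralBinom n : ℝ) ^ 2 := by
    rw [← pow_mul, mul_comm n 2, pow_mul]
    norm_num
    exact_mod_cast b4_cb_up n hn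
  have hpi3 : 3 < Real.pi := Real.pi_gt_three
  have hpi4 : Real.pi < 4 := by
    have := Real.pi_lt_d2
    linarith
  have hpi0 : 0 < Real.pi := Real.pi_pos
  have h4 : (0 : ℝ) < 4 ^ n := by positivity
  have hn' : (1 : ℝ) ≤ n := by exact_mod_cast hn
  constructor
  · rw [le_div_iff₀ (by positivity)]
    have hs : Real.sqrt ((2 * n + 2 : ℕ) : ℝ) / 10 * (Real.pi * Nat.centralBinom n) =
      Real.sqrt (((2 * n + 2 : ℕ) : ℝ) * (Real.pi * Nat.centralBinom n / 10) ^ 2) := by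
      rw [Real.sqrt_mul (by positivity), Real.sqrt_sq (by positivity)]
      ring
    rw [hs]
    apply Real.sqrt_le_iff.2
    refine ⟨h4.le, ?_⟩
    push_cast
    calc (2 * (n : ℝ) + 2) * (Real.pi * Nat.centralBinom n / 10) ^ 2
        = ((2 * n + 2) * Real.pi ^ 2 / 100) * (Nat.centralBinom n : ℝ) ^ 2 := by ring
      _ ≤ (2 * n + 1) * (Nat.centralBinom n : ℝ) ^ 2 := by
          apply mul_le_mul_of_nonneg_right _ (by positivity)
          have : Real.pi ^ 2 ≤ 16 := by nlinarith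
          rw [div_le_iff₀ (by norm_num)]
          nlinarith
      _ ≤ ((4 : ℝ) ^ n) ^ 2 := hlow
  · rw [div_le_iff₀ (by positivity)]
    have hs : Real.sqrt ((2 * n + 2 : ℕ) : ℝ) * (Real.pi * Nat.centralBinom n) =
      Real.sqrt (((2 * n + 2 : ℕ) : ℝ) * (Real.pi * Nat.centralBinom n) ^ 2) := by
      rw [Real.sqrt_mul (by positivity), Real.sqrt_sq (by positivity)]
    rw [hs]
    apply Real.le_sqrt_of_sq_le
    push_cast
    calc ((4 : ℝ) ^ n) ^ 2 ≤ 4 * n * (Nat.centralBinom n : ℝ) ^ 2 := hup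
      _ ≤ ((2 * n + 2) * Real.pi ^ 2) * (Nat.centralBinom n : ℝ) ^ 2 := by
          apply mul_le_mul_of_nonneg_right _ (by positivity)
          have : 9 ≤ Real.pi ^ 2 := by nlinarith
          nlinarith
      _ = (2 * (n : ℝ) + 2) * (Real.pi * Nat.centralBinom n) ^ 2 := by ring

theorem b4_gamma_int {k : ℕ} (hk : 2 ≤ k) :
    IntegrableOn (fun t : ℝ => t ^ (k - 2) * Real.exp (-t)) (Set.Ioi 0) ∧
      ∫ t in Set.Ioi (0 : ℝ), t ^ (k - 2) * Real.exp (-t) = Real.Gamma ((k : ℝ) - 1) := by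
  have hk' : (2 : ℝ) ≤ k := by exact_mod_cast hk
  have h0 : (0 : ℝ) < (k : ℝ) - 1 := by linarith
  have e : ∀ t ∈ Set.Ioi (0 : ℝ), Real.exp (-t) * t ^ ((k : ℝ) - 1 - 1) =
      t ^ (k - 2) * Real.exp (-t) := by
    intro t ht
    rw [mul_comm]
    congr 1
    rw [← Real.rpow_natCast]
    congr 1
    push_cast [Nat.cast_sub hk]
    ring
  constructor
  · have := Real.GammaIntegral_convergent h0
    exact this.congr_fun e measurableSet_Ioi
  · rw [Real.Gamma_eq_integral h0]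
    exact (setIntegral_congr_fun measurableSet_Ioi e).symm

theorem b4_gamma_int2 {k : ℕ} (hk : 2 ≤ k) :
    IntegrableOn (fun t : ℝ => t ^ (k - 2) * Real.exp (-(2 * t))) (Set.Ioi 0) ∧
      ∫ t in Set.Ioi (0 : ℝ), t ^ (k - 2) * Real.exp (-(2 * t)) =
        Real.Gamma ((k : ℝ) - 1) / 2 ^ (k - 1) := by
  obtain ⟨h1, h2⟩ := b4_gamma_int hk
  have e : ∀ t : ℝ, t ^ (k - 2) * Real.exp (-(2 * t)) =
      (1 / 2 ^ (k - 2)) * ((2 * t) ^ (k - 2) * Real.exp (-(2 * t))) := by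
    intro t
    rw [mul_pow]
    field_simp
  constructor
  · have h3 : IntegrableOn (fun t : ℝ => (2 * t) ^ (k - 2) * Real.exp (-(2 * t))) (Set.Ioi 0) := by
      have := (integrableOn_Ioi_comp_mul_left_iff (fun t : ℝ => t ^ (k - 2) * Real.exp (-t)) 0
        (show (0 : ℝ) < 2 by norm_num)).2 (by simpa using h1)
      exact this
    have h4 : IntegrableOn (fun t : ℝ => (1 / 2 ^ (k - 2)) * ((2 * t) ^ (k - 2) *
        Real.exp (-(2 * t)))) (Set.Ioi 0) := h3.const_mul (1 / 2 ^ (k - 2))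
    refine h4.congr_fun (fun t _ => (e t).symm) measurableSet_Ioi
  · simp_rw [e]
    rw [integral_const_mul]
    have := integral_comp_mul_left_Ioi (fun t : ℝ => t ^ (k - 2) * Real.exp (-t)) 0
      (show (0 : ℝ) < 2 by norm_num)
    rw [this]
    simp only [mul_zero, smul_eq_mul]
    rw [h2]
    obtain ⟨m, rfl⟩ : ∃ m, k = m + 2 := ⟨k - 2, by omega⟩
    have e1 : m + 2 - 2 = m := by omega
    have e2 : m + 2 - 1 = m + 1 := by omega
    rw [e1, e2, pow_succ]
    field_simp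

theorem gam_low : ∃ k₀ : ℕ, ∀ k : ℕ, k₀ ≤ k → ∀ x : ℝ, 0 ≤ x → x ≤ k / 2 →
    Real.Gamma ((k : ℝ) - 1) / 2 ≤ ∫ t in Set.Ioi x, t ^ (k - 2) * Real.exp (-t) := by
  refine ⟨8, ?_⟩
  intro k hk x hx0 hxk
  have hk2 : 2 ≤ k := by omega
  obtain ⟨h1, h2⟩ := b4_gamma_int hk2
  obtain ⟨h3, h4⟩ := b4_gamma_int2 hk2
  have hG : 0 < Real.Gamma ((k : ℝ) - 1) := Real.Gamma_pos_of_pos (by
    have : (8 : ℝ) ≤ k := by exact_mod_cast hk
    linarith)
  have hsplit : ∫ t in Set.Ioi (0 : ℝ), t ^ (k - 2) * Real.exp (-t) =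
      (∫ t in Set.Ioc 0 x, t ^ (k - 2) * Real.exp (-t)) +
        ∫ t in Set.Ioi x, t ^ (k - 2) * Real.exp (-t) := by
    rw [← Set.Ioc_union_Ioi_eq_Ioi hx0]
    apply setIntegral_union
    · rw [Set.disjoint_left]
      intro t ht ht'
      exact absurd ht.2 (not_le.2 ht')
    · exact measurableSet_Ioi
    · exact h1.mono_set (fun t ht => ht.1)
    · exact h1.mono_set (Set.Ioi_subset_Ioi hx0)
  have hle : ∫ t in Set.Ioc 0 x, t ^ (k - 2) * Real.exp (-t) ≤
      Real.exp x * (Real.Gamma ((k : ℝ) - 1) / 2 ^ (k - 1)) := by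
    rw [← h4, ← integral_const_mul]
    calc ∫ t in Set.Ioc 0 x, t ^ (k - 2) * Real.exp (-t)
        ≤ ∫ t in Set.Ioc 0 x, Real.exp x * (t ^ (k - 2) * Real.exp (-(2 * t))) := by
          apply setIntegral_mono_on
          · exact h1.mono_set (fun t ht => ht.1)
          · exact (h3.mono_set (fun t ht => ht.1)).const_mul _
          · exact measurableSet_Ioc
          · intro t ht
            have : Real.exp (-t) ≤ Real.exp x * Real.exp (-(2 * t)) := by
              rw [← Real.exp_add]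
              apply Real.exp_le_exp.2
              linarith [ht.2]
            calc t ^ (k - 2) * Real.exp (-t) ≤ t ^ (k - 2) * (Real.exp x * Real.exp (-(2 * t))) :=
                  mul_le_mul_of_nonneg_left this (pow_nonneg ht.1.le _)
              _ = _ := by ring
      _ ≤ ∫ t in Set.Ioi 0, Real.exp x * (t ^ (k - 2) * Real.exp (-(2 * t))) := by
          apply setIntegral_mono_set
          · exact h3.const_mul _
          · filter_upwards [ae_restrict_mem measurableSet_Ioi] with t ht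
            have : 0 ≤ t ^ (k - 2) := pow_nonneg (le_of_lt ht) _
            simp only [Pi.zero_apply]
            positivity
          · exact (Filter.Eventually.of_forall fun t ht => ht.1)
  have hexp : Real.exp x / 2 ^ (k - 1) ≤ 1 / 2 := by
    have e1 : Real.exp x ≤ Real.exp (k / 2) := Real.exp_le_exp.2 hxk
    have e2 : Real.exp ((k : ℝ) / 2) = (Real.exp (1 / 2)) ^ k := by
      rw [← Real.exp_nat_mul]
      congr 1
      ring
    have e3 : Real.exp (1 / 2) ≤ 33 / 20 := by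
      have h5 := Real.exp_one_lt_d9
      have h6 : Real.exp (1 / 2) ^ 2 = Real.exp 1 := by
        rw [← Real.exp_nat_mul]; norm_num
      have h7 := Real.exp_pos (1 / 2)
      nlinarith
    have e4 : (33 / 20 : ℝ) ^ k * 2 ≤ 2 ^ (k - 1) := by
      obtain ⟨j, rfl⟩ : ∃ j, k = j + 8 := ⟨k - 8, by omega⟩
      have e5 : j + 8 - 1 = j + 7 := by omega
      rw [e5, pow_add, pow_add]
      have e6 : (33 / 20 : ℝ) ^ j ≤ 2 ^ j := pow_le_pow_left₀ (by norm_num) (by norm_num) j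
      have e7 : (0 : ℝ) ≤ 2 ^ j := by positivity
      nlinarith
    rw [div_le_div_iff₀ (by positivity) (by norm_num)]
    calc Real.exp x * 2 ≤ (33 / 20 : ℝ) ^ k * 2 := by
          apply mul_le_mul_of_nonneg_right _ (by norm_num)
          calc Real.exp x ≤ (Real.exp (1 / 2)) ^ k := by rw [← e2]; exact e1
            _ ≤ (33 / 20 : ℝ) ^ k := pow_le_pow_left₀ (Real.exp_pos _).le e3 k
      _ ≤ 1 * 2 ^ (k - 1) := by linarith
  have hfin : Real.exp x * (Real.Gamma ((k : ℝ) - 1) / 2 ^ (k - 1)) ≤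
      Real.Gamma ((k : ℝ) - 1) / 2 := by
    calc Real.exp x * (Real.Gamma ((k : ℝ) - 1) / 2 ^ (k - 1))
        = (Real.exp x / 2 ^ (k - 1)) * Real.Gamma ((k : ℝ) - 1) := by ring
      _ ≤ (1 / 2) * Real.Gamma ((k : ℝ) - 1) := mul_le_mul_of_nonneg_right hexp hG.le
      _ = _ := by ring
  rw [h2] at hsplit
  linarith

theorem rho_low : ∃ k₀ : ℕ, ∀ k : ℕ, k₀ ≤ k → ∀ n : ℕ, 1 ≤ n → 8 * Real.pi * n ≤ k →
    omk k / (2 * (n : ℝ) ^ (k - 1)) ≤ rho k n := by
  obtain ⟨k0, h0⟩ := gam_low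
  refine ⟨max k0 2, ?_⟩
  intro k hk n hn hkn
  have hk0 : k0 ≤ k := le_trans (le_max_left _ _) hk
  have hk2 : 2 ≤ k := le_trans (le_max_right _ _) hk
  have hn0 : (0 : ℝ) < n := by exact_mod_cast (by omega : 0 < n)
  have hpi := Real.pi_pos
  set b : ℝ := 4 * Real.pi * n with hb
  have hb0 : 0 < b := by positivity
  have h1 := h0 k hk0 b hb0.le (by rw [hb]; linarith)
  unfold rho omk
  have e : ∀ y : ℝ, y ^ (k - 2) * Real.exp (-4 * Real.pi * n * y) =
      (1 / b ^ (k - 2)) * ((b * y) ^ (k - 2) * Real.exp (-(b * y))) := by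
    intro y
    have hexp : -4 * Real.pi * n * y = -(b * y) := by rw [hb]; ring
    rw [hexp]
    have hb1 : b ^ (k - 2) ≠ 0 := by positivity
    have hb2 : (b * y) ^ (k - 2) = b ^ (k - 2) * y ^ (k - 2) := mul_pow _ _ _
    rw [hb2, ← mul_assoc, ← mul_assoc, one_div, inv_mul_cancel₀ hb1, one_mul]
  simp_rw [e]
  rw [integral_const_mul]
  have h2 := integral_comp_mul_left_Ioi (fun t : ℝ => t ^ (k - 2) * Real.exp (-t)) 1 hb0
  rw [h2]
  simp only [mul_one, smul_eq_mul]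
  obtain ⟨m, rfl⟩ : ∃ m, k = m + 2 := ⟨k - 2, by omega⟩
  have e1 : m + 2 - 2 = m := by omega
  have e2 : m + 2 - 1 = m + 1 := by omega
  rw [e1, e2]
  rw [e1] at h1
  calc Real.Gamma (((m + 2 : ℕ) : ℝ) - 1) / (4 * Real.pi) ^ (m + 1) / (2 * (n : ℝ) ^ (m + 1))
      = (1 / b ^ m) * (b⁻¹ * (Real.Gamma (((m + 2 : ℕ) : ℝ) - 1) / 2)) := by
        rw [hb]
        have e3 : (4 * Real.pi * (n : ℝ)) ^ m = (4 * Real.pi) ^ m * (n : ℝ) ^ m := mul_pow _ _ _
        rw [e3, pow_succ, pow_succ]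
        have : (4 * Real.pi) ^ m ≠ 0 := by positivity
        have : (n : ℝ) ^ m ≠ 0 := by positivity
        field_simp
    _ ≤ (1 / b ^ m) * (b⁻¹ * ∫ t in Set.Ioi b, t ^ m * Real.exp (-t)) := by
        apply mul_le_mul_of_nonneg_left _ (by positivity)
        exact mul_le_mul_of_nonneg_left h1 (by positivity)

end Pool.Agent.WA
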