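import Pool.Agent.Lib_helper98.WA.Defs

/-!
# Block B5a (GE): the density `e^{ku/2 - 2πn e^u}`
-/

namespace Pool.Agent.WA

open Complex MeasureTheory Filter Topology

/-- `e^{-(k/2)(e^v - 1 - v)}` -/
noncomputable def B5a_E (k : ℕ) (v : ℝ) : ℝ := Real.exp (-((k : ℝ) / 2) * (Real.exp v - 1 - v))

/-- the shift -/
noncomputable def B5a_L (k n : ℕ) : ℝ := Real.log (k / (4 * Real.pi * n))

/-- the constant -/
noncomputable def B5a_A (k n : ℕ) : ℝ := Real.exp ((k : ℝ) / 2 * B5a_L k n - (k : ℝ) / 2)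

theorem B5a_A_pos (k n : ℕ) : 0 < B5a_A k n := Real.exp_pos _

theorem B5a_E_pos (k : ℕ) (v : ℝ) : 0 < B5a_E k v := Real.exp_pos _

theorem B5a_E_cont (k : ℕ) : Continuous (B5a_E k) := by
  unfold B5a_E
  fun_prop

theorem B5a_gd_eq {k n : ℕ} (hk : 1 ≤ k) (hn : 1 ≤ n) (u : ℝ) :
    gd k n u = B5a_A k n * B5a_E k (u - B5a_L k n) := by
  have hk' : (0 : ℝ) < k := by exact_mod_cast hk
  have hn' : (0 : ℝ) < n := by exact_mod_cast hn
  unfold gd B5a_A B5a_E
  rw [← Real.exp_add]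
  congr 1
  have h1 : Real.exp (u - B5a_L k n) = Real.exp u * (4 * Real.pi * n / k) := by
    rw [Real.exp_sub, B5a_L, Real.exp_log (by positivity)]
    field_simp
  rw [h1]
  field_simp
  ring

/-- lower bounds for `h(v) = e^v - 1 - v` -/
theorem B5a_h_small {v : ℝ} (hv : |v| ≤ 2) : v ^ 2 / 4 ≤ Real.exp v - 1 - v := by
  rcases le_total 0 v with h | h
  · have := Real.quadratic_le_exp_of_nonneg h
    nlinarith [sq_nonneg v]
  · have h2 : 1 + v / 2 ≤ Real.exp (v / 2) := by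
      have := Real.add_one_le_exp (v / 2)
      linarith
    have h3 : 0 ≤ 1 + v / 2 := by
      have := abs_le.mp hv
      linarith
    have h4 : (1 + v / 2) ^ 2 ≤ Real.exp (v / 2) ^ 2 := pow_le_pow_left₀ h3 h2 2
    have h5 : Real.exp (v / 2) ^ 2 = Real.exp v := by
      rw [← Real.exp_nat_mul]
      congr 1
      push_cast
      ring
    rw [h5] at h4
    nlinarith

theorem B5a_h_large {v : ℝ} (hv : 2 ≤ |v|) : |v| / 2 ≤ Real.exp v - 1 - v := by
  rcases le_total 0 v with h | h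
  · rw [abs_of_nonneg h] at hv ⊢
    have := Real.quadratic_le_exp_of_nonneg h
    nlinarith
  · rw [abs_of_nonpos h] at hv ⊢
    have := Real.exp_pos v
    linarith

theorem B5a_h_nonneg (v : ℝ) : 0 ≤ Real.exp v - 1 - v := by
  have := Real.add_one_le_exp v
  linarith

theorem B5a_h_up {v : ℝ} (hv : |v| ≤ 1) : Real.exp v - 1 - v ≤ v ^ 2 := by
  have := Real.abs_exp_sub_one_sub_id_le hv
  exact (le_abs_self _).trans this

theorem B5a_E_le {k : ℕ} (v : ℝ) : B5a_E k v ≤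
    Real.exp (-((k : ℝ) / 8) * v ^ 2) + Real.exp (-((k : ℝ) / 4) * |v|) := by
  unfold B5a_E
  have hk : (0 : ℝ) ≤ k := Nat.cast_nonneg k
  rcases le_total |v| 2 with h | h
  · have h1 := B5a_h_small h
    have h2 : Real.exp (-((k : ℝ) / 2) * (Real.exp v - 1 - v)) ≤ Real.exp (-((k : ℝ) / 8) * v ^ 2) := by
      apply Real.exp_le_exp.mpr
      nlinarith
    linarith [Real.exp_pos (-((k : ℝ) / 4) * |v|)]
  · have h1 := B5a_h_large h
    have h2 : Real.exp (-((k : ℝ) / 2) * (Real.exp v - 1 - v)) ≤ Real.exp (-((k : ℝ) / 4) * |v|) := by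
      apply Real.exp_le_exp.mpr
      nlinarith
    linarith [Real.exp_pos (-((k : ℝ) / 8) * v ^ 2)]

theorem B5a_exp_abs {a : ℝ} (ha : 0 < a) : Integrable (fun v : ℝ => Real.exp (-a * |v|)) ∧
    ∫ v : ℝ, Real.exp (-a * |v|) = 2 / a := by
  have h1 : ∫ v : ℝ, Real.exp (-a * |v|) = 2 / a := by
    rw [integral_comp_abs (f := fun v => Real.exp (-a * v)), integral_exp_mul_Ioi (by linarith)]
    field_simp
    simp
  refine ⟨?_, h1⟩
  by_contra h
  rw [integral_undef h] at h1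
  have : 0 < 2 / a := by positivity
  linarith

theorem B5a_E_int {k : ℕ} (hk : 1 ≤ k) : Integrable (B5a_E k) := by
  have hk' : (0 : ℝ) < k := by exact_mod_cast hk
  have h1 := (integrable_exp_neg_mul_sq (b := (k : ℝ) / 8) (by positivity)).add
    (B5a_exp_abs (a := (k : ℝ) / 4) (by positivity)).1
  refine h1.mono' (B5a_E_cont k).aestronglyMeasurable (Eventually.of_forall fun v => ?_)
  rw [Real.norm_of_nonneg (B5a_E_pos k v).le]
  exact B5a_E_le v

theorem B5a_mom_le {k : ℕ} (hk : 1 ≤ k) (v : ℝ) : v ^ 2 * B5a_E k v ≤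
    16 / k * Real.exp (-((k : ℝ) / 16) * v ^ 2) + 128 / k ^ 2 * Real.exp (-((k : ℝ) / 8) * |v|) := by
  have hk' : (0 : ℝ) < k := by exact_mod_cast hk
  have h0 := B5a_E_le (k := k) v
  have h1 : v ^ 2 * Real.exp (-((k : ℝ) / 8) * v ^ 2) ≤
      16 / k * Real.exp (-((k : ℝ) / 16) * v ^ 2) := by
    have h2 : Real.exp (-((k : ℝ) / 8) * v ^ 2) =
        Real.exp (-((k : ℝ) / 16 * v ^ 2)) * Real.exp (-((k : ℝ) / 16) * v ^ 2) := by
      rw [← Real.exp_add]
      congr 1
      ring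
    rw [h2, ← mul_assoc]
    refine mul_le_mul_of_nonneg_right ?_ (Real.exp_pos _).le
    have h3 : (k : ℝ) / 16 * v ^ 2 ≤ Real.exp ((k : ℝ) / 16 * v ^ 2) := by
      have := Real.add_one_le_exp ((k : ℝ) / 16 * v ^ 2)
      linarith
    rw [Real.exp_neg, ← div_eq_mul_inv, div_le_iff₀ (Real.exp_pos _)]
    have h4 : v ^ 2 = 16 / k * ((k : ℝ) / 16 * v ^ 2) := by field_simp
    rw [h4]
    refine mul_le_mul_of_nonneg_left ?_ (by positivity)
    have h5 : (k : ℝ) / 16 * (16 / k * ((k : ℝ) / 16 * v ^ 2)) = (k : ℝ) / 16 * v ^ 2 := by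
      field_simp
    rw [h5]
    exact h3
  have h2 : v ^ 2 * Real.exp (-((k : ℝ) / 4) * |v|) ≤
      128 / k ^ 2 * Real.exp (-((k : ℝ) / 8) * |v|) := by
    have h3 : Real.exp (-((k : ℝ) / 4) * |v|) =
        Real.exp (-((k : ℝ) / 8 * |v|)) * Real.exp (-((k : ℝ) / 8) * |v|) := by
      rw [← Real.exp_add]
      congr 1
      ring
    rw [h3, ← mul_assoc]
    refine mul_le_mul_of_nonneg_right ?_ (Real.exp_pos _).le
    have h4 : ((k : ℝ) / 8 * |v|) ^ 2 / 2 ≤ Real.exp ((k : ℝ) / 8 * |v|) := by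
      have h5 : 0 ≤ (k : ℝ) / 8 * |v| := by positivity
      have := Real.quadratic_le_exp_of_nonneg h5
      linarith
    rw [Real.exp_neg, ← div_eq_mul_inv, div_le_iff₀ (Real.exp_pos _)]
    have h5 : v ^ 2 = 128 / (k : ℝ) ^ 2 * (((k : ℝ) / 8 * |v|) ^ 2 / 2) := by
      rw [mul_pow, sq_abs]
      field_simp
      ring
    calc v ^ 2 = 128 / (k : ℝ) ^ 2 * (((k : ℝ) / 8 * |v|) ^ 2 / 2) := h5
      _ ≤ 128 / (k : ℝ) ^ 2 * Real.exp ((k : ℝ) / 8 * |v|) :=
        mul_le_mul_of_nonneg_left h4 (by positivity)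
  calc v ^ 2 * B5a_E k v ≤ v ^ 2 * (Real.exp (-((k : ℝ) / 8) * v ^ 2) +
      Real.exp (-((k : ℝ) / 4) * |v|)) := mul_le_mul_of_nonneg_left h0 (sq_nonneg v)
    _ = v ^ 2 * Real.exp (-((k : ℝ) / 8) * v ^ 2) + v ^ 2 * Real.exp (-((k : ℝ) / 4) * |v|) := by
      ring
    _ ≤ _ := add_le_add h1 h2

theorem B5a_dom_int {k : ℕ} (hk : 1 ≤ k) : Integrable (fun v : ℝ =>
    16 / k * Real.exp (-((k : ℝ) / 16) * v ^ 2) +
      128 / (k : ℝ) ^ 2 * Real.exp (-((k : ℝ) / 8) * |v|)) := by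
  have hk' : (0 : ℝ) < k := by exact_mod_cast hk
  exact ((integrable_exp_neg_mul_sq (b := (k : ℝ) / 16) (by positivity)).const_mul _).add
    ((B5a_exp_abs (a := (k : ℝ) / 8) (by positivity)).1.const_mul _)

theorem B5a_mom_int {k : ℕ} (hk : 1 ≤ k) : Integrable (fun v => v ^ 2 * B5a_E k v) := by
  refine (B5a_dom_int hk).mono' ?_ (Eventually.of_forall fun v => ?_)
  · exact ((continuous_id.pow 2).mul (B5a_E_cont k)).aestronglyMeasurable
  · rw [Real.norm_of_nonneg (mul_nonneg (sq_nonneg v) (B5a_E_pos k v).le)]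
    exact B5a_mom_le hk v

theorem B5a_mom {k : ℕ} (hk : 1 ≤ k) :
    ∫ v, v ^ 2 * B5a_E k v ≤ 2200 / (k * Real.sqrt k) := by
  have hk' : (0 : ℝ) < k := by exact_mod_cast hk
  have hk1 : (1 : ℝ) ≤ k := by exact_mod_cast hk
  have hs : 0 < Real.sqrt k := Real.sqrt_pos.mpr hk'
  have hs1 : 1 ≤ Real.sqrt k := by
    rw [show (1 : ℝ) = Real.sqrt 1 by simp]
    exact Real.sqrt_le_sqrt hk1
  have hss : Real.sqrt k * Real.sqrt k = k := Real.mul_self_sqrt hk'.le
  calc ∫ v, v ^ 2 * B5a_E k v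
      ≤ ∫ v : ℝ, (16 / k * Real.exp (-((k : ℝ) / 16) * v ^ 2) +
        128 / (k : ℝ) ^ 2 * Real.exp (-((k : ℝ) / 8) * |v|)) :=
        integral_mono (B5a_mom_int hk) (B5a_dom_int hk) fun v => B5a_mom_le hk v
    _ = 16 / k * Real.sqrt (Real.pi / ((k : ℝ) / 16)) + 128 / (k : ℝ) ^ 2 * (2 / ((k : ℝ) / 8)) := by
        rw [integral_add ((integrable_exp_neg_mul_sq (b := (k : ℝ) / 16) (by positivity)).const_mul _)
          ((B5a_exp_abs (a := (k : ℝ) / 8) (by positivity)).1.const_mul _), integral_const_mul,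
          integral_const_mul, integral_gaussian, (B5a_exp_abs (a := (k : ℝ) / 8) (by positivity)).2]
    _ ≤ 128 / (k * Real.sqrt k) + 2048 / (k * Real.sqrt k) := by
        refine add_le_add ?_ ?_
        · have h1 : Real.sqrt (Real.pi / ((k : ℝ) / 16)) ≤ 8 / Real.sqrt k := by
            rw [Real.sqrt_le_left (by positivity), div_pow, Real.sq_sqrt hk'.le]
            rw [div_div_eq_mul_div]
            refine div_le_div_of_nonneg_right ?_ hk'.le
            have := Real.pi_le_four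
            linarith
          calc 16 / (k : ℝ) * Real.sqrt (Real.pi / ((k : ℝ) / 16)) ≤ 16 / k * (8 / Real.sqrt k) :=
                mul_le_mul_of_nonneg_left h1 (by positivity)
            _ = 128 / (k * Real.sqrt k) := by
                field_simp
                norm_num
        · have h1 : 128 / (k : ℝ) ^ 2 * (2 / ((k : ℝ) / 8)) = 2048 / (k * (k : ℝ) ^ 2) := by
            field_simp
            norm_num
          rw [h1]
          refine div_le_div_of_nonneg_left (by norm_num) (by positivity) ?_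
          refine mul_le_mul_of_nonneg_left ?_ hk'.le
          nlinarith
    _ ≤ 2200 / (k * Real.sqrt k) := by
        rw [← add_div]
        exact div_le_div_of_nonneg_right (by norm_num) (by positivity)

theorem B5a_Z_low {k : ℕ} (hk : 1 ≤ k) : 1 / Real.sqrt k ≤ ∫ v, B5a_E k v := by
  have hk' : (0 : ℝ) < k := by exact_mod_cast hk
  have hk1 : (1 : ℝ) ≤ k := by exact_mod_cast hk
  have hs : 0 < Real.sqrt k := Real.sqrt_pos.mpr hk'
  have hs1 : 1 ≤ Real.sqrt k := by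
    rw [show (1 : ℝ) = Real.sqrt 1 by simp]
    exact Real.sqrt_le_sqrt hk1
  have hle : 1 / Real.sqrt k ≤ 1 := by
    rw [div_le_one hs]
    exact hs1
  have h1 : ∫ v in Set.Icc (-(1 / Real.sqrt k)) (1 / Real.sqrt k), (1 / 2 : ℝ) ≤
      ∫ v in Set.Icc (-(1 / Real.sqrt k)) (1 / Real.sqrt k), B5a_E k v := by
    refine setIntegral_mono_on ?_ (B5a_E_int hk).integrableOn measurableSet_Icc fun v hv => ?_
    · exact integrableOn_const (by simp)
    · have hv1 : |v| ≤ 1 / Real.sqrt k := abs_le.mpr hv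
      have h2 := B5a_h_up (hv1.trans hle)
      have h3 : v ^ 2 ≤ 1 / k := by
        rw [← sq_abs]
        calc |v| ^ 2 ≤ (1 / Real.sqrt k) ^ 2 := pow_le_pow_left₀ (abs_nonneg v) hv1 2
          _ = 1 / k := by rw [div_pow, Real.sq_sqrt hk'.le, one_pow]
      unfold B5a_E
      have h4 : -(1 / 2 : ℝ) ≤ -((k : ℝ) / 2) * (Real.exp v - 1 - v) := by
        have h5 : (k : ℝ) / 2 * (Real.exp v - 1 - v) ≤ (k : ℝ) / 2 * (1 / k) :=
          mul_le_mul_of_nonneg_left (h2.trans h3) (by positivity)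
        have h6 : (k : ℝ) / 2 * (1 / k) = 1 / 2 := by field_simp
        linarith
      have h5 : (1 / 2 : ℝ) ≤ Real.exp (-(1 / 2 : ℝ)) := by
        have := Real.add_one_le_exp (-(1 / 2 : ℝ))
        linarith
      exact h5.trans (Real.exp_le_exp.mpr h4)
  have h2 : ∫ v in Set.Icc (-(1 / Real.sqrt k)) (1 / Real.sqrt k), (1 / 2 : ℝ) =
      1 / Real.sqrt k := by
    rw [setIntegral_const, smul_eq_mul, Measure.real, Real.volume_Icc,
      ENNReal.toReal_ofReal (by have : 0 < 1 / Real.sqrt k := by positivity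
                                linarith)]
    ring
  rw [← h2]
  exact h1.trans (setIntegral_le_integral (B5a_E_int hk)
    (Eventually.of_forall fun v => (B5a_E_pos k v).le))

theorem gd_int {k n : ℕ} (hk : 1 ≤ k) (hn : 1 ≤ n) :
    Integrable (gd k n) ∧ ∫ u, gd k n u = gk k * (n : ℝ) ^ (-(k : ℝ) / 2) := by
  have hk' : (0 : ℝ) < k := by exact_mod_cast hk
  have hn' : (0 : ℝ) < n := by exact_mod_cast hn
  constructor
  · have h1 := ((B5a_E_int hk).comp_sub_right (B5a_L k n)).const_mul (B5a_A k n)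
    refine h1.congr (Eventually.of_forall fun u => ?_)
    exact (B5a_gd_eq hk hn u).symm
  · have himg : Real.exp '' Set.univ = Set.Ioi 0 := by
      rw [Set.image_univ, Real.range_exp]
    have hder : ∀ x ∈ (Set.univ : Set ℝ), HasDerivWithinAt Real.exp (Real.exp x) Set.univ x :=
      fun x _ => (Real.hasDerivAt_exp x).hasDerivWithinAt
    have hinj : Set.InjOn Real.exp Set.univ := Real.exp_injective.injOn
    have h1 := Real.integral_rpow_mul_exp_neg_mul_Ioi (a := (k : ℝ) / 2) (r := 2 * Real.pi * n)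
      (by positivity) (by positivity)
    rw [← himg, integral_image_eq_integral_abs_deriv_smul MeasurableSet.univ hder hinj,
      setIntegral_univ] at h1
    have h2 : (fun x : ℝ => |Real.exp x| • (Real.exp x ^ ((k : ℝ) / 2 - 1) *
        Real.exp (-(2 * Real.pi * n * Real.exp x)))) = gd k n := by
      funext x
      rw [abs_of_pos (Real.exp_pos x), smul_eq_mul, ← Real.exp_mul, ← Real.exp_add, ← Real.exp_add]
      unfold gd
      congr 1
      ring
    rw [h2] at h1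
    rw [h1, gk, one_div, Real.inv_rpow (by positivity), Real.mul_rpow (by positivity) hn'.le]
    rw [show -(k : ℝ) / 2 = -((k : ℝ) / 2) by ring, Real.rpow_neg (by positivity),
      Real.rpow_neg hn'.le, mul_inv]
    ring

theorem B5a_gd_tot {k n : ℕ} (hk : 1 ≤ k) (hn : 1 ≤ n) :
    gk k * (n : ℝ) ^ (-(k : ℝ) / 2) = B5a_A k n * ∫ v, B5a_E k v := by
  rw [← (gd_int hk hn).2]
  have h1 : gd k n = fun u => B5a_A k n * B5a_E k (u - B5a_L k n) := by
    funext u
    exact B5a_gd_eq hk hn u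
  rw [h1, integral_const_mul, integral_sub_right_eq_self (B5a_E k)]

theorem B5a_moment {k n : ℕ} (hk : 1 ≤ k) (hn : 1 ≤ n) :
    Integrable (fun u : ℝ => (u - Real.log (k / (4 * Real.pi * n))) ^ 2 * gd k n u) ∧
      ∫ u : ℝ, (u - Real.log (k / (4 * Real.pi * n))) ^ 2 * gd k n u ≤
        2200 / k * (gk k * (n : ℝ) ^ (-(k : ℝ) / 2)) := by
  have hk' : (0 : ℝ) < k := by exact_mod_cast hk
  have hs : 0 < Real.sqrt k := Real.sqrt_pos.mpr hk'
  have h1 : (fun u : ℝ => (u - Real.log (k / (4 * Real.pi * n))) ^ 2 * gd k n u) =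
      fun u => B5a_A k n * ((fun v => v ^ 2 * B5a_E k v) (u - B5a_L k n)) := by
    funext u
    rw [B5a_gd_eq hk hn u]
    simp only [B5a_L]
    ring
  rw [h1]
  constructor
  · exact ((B5a_mom_int hk).comp_sub_right (B5a_L k n)).const_mul (B5a_A k n)
  · rw [integral_const_mul, integral_sub_right_eq_self (fun v => v ^ 2 * B5a_E k v),
      B5a_gd_tot hk hn]
    have h2 := B5a_mom hk
    have h3 := B5a_Z_low hk
    have h4 : 2200 / (k * Real.sqrt k) ≤ 2200 / k * ∫ v, B5a_E k v := by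
      calc 2200 / (k * Real.sqrt k) = 2200 / k * (1 / Real.sqrt k) := by
            field_simp
        _ ≤ 2200 / k * ∫ v, B5a_E k v := mul_le_mul_of_nonneg_left h3 (by positivity)
    calc B5a_A k n * ∫ v, v ^ 2 * B5a_E k v ≤ B5a_A k n * (2200 / k * ∫ v, B5a_E k v) :=
          mul_le_mul_of_nonneg_left (h2.trans h4) (B5a_A_pos k n).le
      _ = 2200 / k * (B5a_A k n * ∫ v, B5a_E k v) := by ring

theorem gd_moment : ∃ (C : ℝ) (k₀ : ℕ), ∀ k : ℕ, k₀ ≤ k → ∀ n : ℕ, 1 ≤ n →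
    Integrable (fun u : ℝ => (u - Real.log (k / (4 * Real.pi * n))) ^ 2 * gd k n u) ∧
      ∫ u : ℝ, (u - Real.log (k / (4 * Real.pi * n))) ^ 2 * gd k n u ≤
        C / k * (gk k * (n : ℝ) ^ (-(k : ℝ) / 2)) :=
  ⟨2200, 1, fun _ hk _ hn => B5a_moment hk hn⟩

theorem B5a_gd_pos (k n : ℕ) (u : ℝ) : 0 < gd k n u := Real.exp_pos _

theorem B5a_gd_cont (k n : ℕ) : Continuous (gd k n) := by
  unfold gd
  fun_prop

theorem B5a_peetre (x v : ℝ) : 1 / (1 + (x + v) ^ 2) ≤ 2 * (1 + v ^ 2) / (1 + x ^ 2) := by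
  rw [div_le_div_iff₀ (by positivity) (by positivity)]
  nlinarith [sq_nonneg (x + 2 * v), sq_nonneg (v * (x + v)), sq_nonneg v]

theorem gd_peetre : ∃ (C : ℝ) (k₀ : ℕ), ∀ k : ℕ, k₀ ≤ k → ∀ n : ℕ, 1 ≤ n → ∀ s : ℝ,
    ∫ u : ℝ, gd k n u / (1 + (u - s) ^ 2) ≤
      C * (gk k * (n : ℝ) ^ (-(k : ℝ) / 2)) /
        (1 + (Real.log (k / (4 * Real.pi * n)) - s) ^ 2) := by
  refine ⟨2 * 2201, 1, fun k hk n hn s => ?_⟩
  have hk' : (0 : ℝ) < k := by exact_mod_cast hk
  have hk1 : (1 : ℝ) ≤ k := by exact_mod_cast hk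
  set L := Real.log (k / (4 * Real.pi * n)) with hL
  obtain ⟨h1, h2⟩ := B5a_moment hk hn
  obtain ⟨h3, h4⟩ := gd_int hk hn
  rw [← hL] at h1 h2
  have hG : 0 ≤ gk k * (n : ℝ) ^ (-(k : ℝ) / 2) := by
    rw [← h4]
    exact integral_nonneg fun u => (B5a_gd_pos k n u).le
  have h5 : Integrable (fun u : ℝ => 2 / (1 + (L - s) ^ 2) *
      (gd k n u + (u - L) ^ 2 * gd k n u)) := (h3.add h1).const_mul _
  have h6 : ∀ u : ℝ, gd k n u / (1 + (u - s) ^ 2) ≤ 2 / (1 + (L - s) ^ 2) *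
      (gd k n u + (u - L) ^ 2 * gd k n u) := by
    intro u
    have h7 := B5a_peetre (L - s) (u - L)
    rw [show L - s + (u - L) = u - s by ring] at h7
    calc gd k n u / (1 + (u - s) ^ 2) = gd k n u * (1 / (1 + (u - s) ^ 2)) := by ring
      _ ≤ gd k n u * (2 * (1 + (u - L) ^ 2) / (1 + (L - s) ^ 2)) :=
        mul_le_mul_of_nonneg_left h7 (B5a_gd_pos k n u).le
      _ = _ := by ring
  have h7 : Integrable (fun u : ℝ => gd k n u / (1 + (u - s) ^ 2)) := by
    refine h5.mono' ?_ (Eventually.of_forall fun u => ?_)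
    · exact ((B5a_gd_cont k n).div (by fun_prop) fun u => by positivity).aestronglyMeasurable
    · rw [Real.norm_of_nonneg (div_nonneg (B5a_gd_pos k n u).le (by positivity))]
      exact h6 u
  calc ∫ u : ℝ, gd k n u / (1 + (u - s) ^ 2)
      ≤ ∫ u : ℝ, 2 / (1 + (L - s) ^ 2) * (gd k n u + (u - L) ^ 2 * gd k n u) :=
        integral_mono h7 h5 h6
    _ = 2 / (1 + (L - s) ^ 2) * (gk k * (n : ℝ) ^ (-(k : ℝ) / 2) +
        ∫ u : ℝ, (u - L) ^ 2 * gd k n u) := by
        rw [integral_const_mul, integral_add h3 h1, h4]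
    _ ≤ 2 / (1 + (L - s) ^ 2) * (gk k * (n : ℝ) ^ (-(k : ℝ) / 2) +
        2200 * (gk k * (n : ℝ) ^ (-(k : ℝ) / 2))) := by
        refine mul_le_mul_of_nonneg_left ?_ (by positivity)
        have h8 : 2200 / (k : ℝ) ≤ 2200 := by
          rw [div_le_iff₀ hk']
          linarith
        have h9 := mul_le_mul_of_nonneg_right h8 hG
        linarith
    _ = _ := by ring

theorem gd_lim {F : ℝ → ℂ} (hF : Continuous F) {M : ℝ} (hM : ∀ u, ‖F u‖ ≤ M) {δ : ℝ}
    (hδ : 0 < δ) : ∃ k₀ : ℕ, ∀ k : ℕ, k₀ ≤ k →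
    ‖(∫ u in Set.Ioi (Real.log 12), (gd k 1 u : ℂ) * F (u - Real.log (k / (4 * Real.pi)))) /
      (gk k : ℂ) - F 0‖ ≤ δ := by
  have hM0 : 0 ≤ M := (norm_nonneg _).trans (hM 0)
  obtain ⟨r, hr, hr2⟩ := Metric.continuousAt_iff.mp (hF.continuousAt (x := (0 : ℝ))) (δ / 2)
    (by positivity)
  -- choose k₀
  obtain ⟨k₁, hk₁⟩ := exists_nat_gt ((2 * M / r ^ 2 + M) * 2200 * 2 / δ)
  obtain ⟨k₂, hk₂⟩ := exists_nat_gt (12 * Real.exp 1 * (4 * Real.pi))
  refine ⟨max 1 (max k₁ k₂), fun k hk => ?_⟩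
  have hk0 : 1 ≤ k := le_trans (le_max_left _ _) hk
  have hk' : (0 : ℝ) < k := by exact_mod_cast hk0
  have hkk₁ : (2 * M / r ^ 2 + M) * 2200 * 2 / δ < k := hk₁.trans_le
    (by exact_mod_cast (le_max_left _ _).trans ((le_max_right _ _).trans hk))
  have hkk₂ : 12 * Real.exp 1 * (4 * Real.pi) < k := hk₂.trans_le
    (by exact_mod_cast (le_max_right _ _).trans ((le_max_right _ _).trans hk))
  set L := Real.log (k / (4 * Real.pi)) with hL
  obtain ⟨h1, h2⟩ := B5a_moment hk0 (le_refl 1)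
  obtain ⟨h3, h4⟩ := gd_int hk0 (le_refl 1)
  simp only [Nat.cast_one, mul_one, Real.one_rpow] at h1 h2 h4
  rw [← hL] at h1 h2
  have hgk : 0 < gk k := by
    rw [gk]
    have := Real.Gamma_pos_of_pos (show 0 < (k : ℝ) / 2 by positivity)
    positivity
  have hgkc : (gk k : ℂ) ≠ 0 := by exact_mod_cast hgk.ne'
  -- location of L
  have hLlow : Real.log 12 + 1 ≤ L := by
    have h5 : Real.log (12 * Real.exp 1) ≤ L := by
      rw [hL]
      refine Real.log_le_log (by positivity) ?_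
      rw [le_div_iff₀ (by positivity)]
      exact hkk₂.le
    rwa [Real.log_mul (by norm_num) (Real.exp_pos 1).ne', Real.log_exp] at h5
  -- pointwise bound
  set Gf : ℝ → ℂ := fun u => if Real.log 12 < u then F (u - L) - F 0 else -F 0 with hGf
  have hpt : ∀ u, ‖Gf u‖ ≤ δ / 2 + (2 * M / r ^ 2 + M) * (u - L) ^ 2 := by
    intro u
    simp only [hGf]
    split_ifs with hu
    · rcases lt_or_ge |u - L| r with h | h
      · have h5 := hr2 (x := u - L) (by rw [Real.dist_eq, sub_zero]; exact h)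
        rw [dist_eq_norm] at h5
        have : 0 ≤ (2 * M / r ^ 2 + M) * (u - L) ^ 2 := by positivity
        linarith
      · have h5 : ‖F (u - L) - F 0‖ ≤ 2 * M := by
          refine (norm_sub_le _ _).trans ?_
          linarith [hM (u - L), hM 0]
        have h6 : r ^ 2 ≤ (u - L) ^ 2 := by
          rw [← sq_abs (u - L)]
          exact pow_le_pow_left₀ hr.le h 2
        have h7 : 2 * M ≤ 2 * M / r ^ 2 * (u - L) ^ 2 := by
          rw [div_mul_eq_mul_div, le_div_iff₀ (by positivity)]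
          exact mul_le_mul_of_nonneg_left h6 (by positivity)
        have h8 : 0 ≤ M * (u - L) ^ 2 := by positivity
        nlinarith
    · have h5 : 1 ≤ (u - L) ^ 2 := by
        have h6 : u - L ≤ -1 := by linarith [not_lt.mp hu]
        nlinarith
      rw [norm_neg]
      have h6 : M ≤ M * (u - L) ^ 2 := le_mul_of_one_le_right hM0 h5
      have h7 : 0 ≤ 2 * M / r ^ 2 * (u - L) ^ 2 := by positivity
      nlinarith [hM 0]
  have hFb : ∀ u, ‖(gd k 1 u : ℂ) * F (u - L)‖ ≤ M * gd k 1 u := by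
    intro u
    rw [norm_mul, Complex.norm_real, Real.norm_of_nonneg (B5a_gd_pos k 1 u).le, mul_comm]
    exact mul_le_mul_of_nonneg_right (hM _) (B5a_gd_pos k 1 u).le
  have hFi : Integrable (fun u : ℝ => (gd k 1 u : ℂ) * F (u - L)) := by
    refine (h3.const_mul M).mono' ?_ (Eventually.of_forall hFb)
    exact ((Complex.continuous_ofReal.comp (B5a_gd_cont k 1)).mul
      (hF.comp (by fun_prop))).aestronglyMeasurable
  have h0i : Integrable (fun u : ℝ => (gd k 1 u : ℂ) * F 0) := h3.ofReal.mul_const _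
  have hdiff : (∫ u in Set.Ioi (Real.log 12), (gd k 1 u : ℂ) * F (u - L)) - gk k * F 0 =
      ∫ u : ℝ, (gd k 1 u : ℂ) * Gf u := by
    have h5 : (gk k : ℂ) * F 0 = ∫ u : ℝ, (gd k 1 u : ℂ) * F 0 := by
      rw [integral_mul_const, integral_complex_ofReal, h4]
    rw [h5, ← integral_indicator measurableSet_Ioi, ← integral_sub
      (hFi.indicator measurableSet_Ioi) h0i]
    refine integral_congr_ae (Eventually.of_forall fun u => ?_)
    simp only [Set.indicator, Set.mem_Ioi, hGf]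
    split_ifs
    · ring
    · ring
  have hbd : ‖∫ u : ℝ, (gd k 1 u : ℂ) * Gf u‖ ≤ δ * gk k := by
    have hdom : Integrable (fun u : ℝ => δ / 2 * gd k 1 u + (2 * M / r ^ 2 + M) *
        ((u - L) ^ 2 * gd k 1 u)) := (h3.const_mul _).add (h1.const_mul _)
    calc ‖∫ u : ℝ, (gd k 1 u : ℂ) * Gf u‖ ≤ ∫ u : ℝ, (δ / 2 * gd k 1 u +
          (2 * M / r ^ 2 + M) * ((u - L) ^ 2 * gd k 1 u)) := by
          refine norm_integral_le_of_norm_le hdom (Eventually.of_forall fun u => ?_)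
          rw [norm_mul, Complex.norm_real, Real.norm_of_nonneg (B5a_gd_pos k 1 u).le]
          calc gd k 1 u * ‖Gf u‖ ≤ gd k 1 u * (δ / 2 + (2 * M / r ^ 2 + M) * (u - L) ^ 2) :=
                mul_le_mul_of_nonneg_left (hpt u) (B5a_gd_pos k 1 u).le
            _ = _ := by ring
      _ = δ / 2 * gk k + (2 * M / r ^ 2 + M) * ∫ u : ℝ, (u - L) ^ 2 * gd k 1 u := by
          rw [integral_add (h3.const_mul _) (h1.const_mul _), integral_const_mul,
            integral_const_mul, h4]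
      _ ≤ δ / 2 * gk k + (2 * M / r ^ 2 + M) * (2200 / k * gk k) := by
          have : 0 ≤ 2 * M / r ^ 2 + M := by positivity
          linarith [mul_le_mul_of_nonneg_left h2 this]
      _ ≤ δ / 2 * gk k + δ / 2 * gk k := by
          have h5 : (2 * M / r ^ 2 + M) * (2200 / k) ≤ δ / 2 := by
            rw [← mul_div_assoc, div_le_iff₀ hk']
            rw [div_lt_iff₀ hδ] at hkk₁
            nlinarith
          have h6 := mul_le_mul_of_nonneg_right h5 hgk.le
          linarith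
      _ = δ * gk k := by ring
  have hfin : (∫ u in Set.Ioi (Real.log 12), (gd k 1 u : ℂ) * F (u - L)) / (gk k : ℂ) - F 0 =
      (∫ u : ℝ, (gd k 1 u : ℂ) * Gf u) / (gk k : ℂ) := by
    rw [← hdiff]
    field_simp
  rw [hfin, norm_div, Complex.norm_real, Real.norm_of_nonneg hgk.le, div_le_iff₀ hgk]
  exact hbd

end Pool.Agent.WA
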