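import Pool.Agent.Lib_helper98.WA.Defs

/-! Block B1a (helper38): basic facts about `CForm`. -/

namespace Pool.Agent.WA

open Complex MeasureTheory Filter Topology UpperHalfPlane
open scoped MatrixGroups ENNReal
open Pool.Agent.GL2 (qs HData am dens hatw Ep Mol xt FD IsCompletedL oddZ)

theorem B1a_growth {k : ℕ} {b : ℕ → ℂ} (H : CForm k b) :
    ∃ C : ℝ, 0 ≤ C ∧ ∀ n : ℕ, ‖b n‖ ≤ C * (n : ℝ) ^ k := by
  obtain ⟨C, hC⟩ := H.growth
  refine ⟨max C 0, le_max_right _ _, fun n => ?_⟩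
  rcases Nat.eq_zero_or_pos n with h | h
  · subst h
    rw [H.zero, norm_zero]
    positivity
  · have h1 : (1 : ℝ) ≤ n := by exact_mod_cast h
    have h2 : (n : ℝ) ^ ((k : ℝ) / 2) ≤ (n : ℝ) ^ k := by
      rw [← Real.rpow_natCast]
      apply Real.rpow_le_rpow_of_exponent_le h1
      have : (0 : ℝ) ≤ k := Nat.cast_nonneg k
      linarith
    calc ‖b n‖ ≤ C * (n : ℝ) ^ ((k : ℝ) / 2) := hC n
      _ ≤ max C 0 * (n : ℝ) ^ ((k : ℝ) / 2) := by
          apply mul_le_mul_of_nonneg_right (le_max_left _ _)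
          positivity
      _ ≤ max C 0 * (n : ℝ) ^ k := mul_le_mul_of_nonneg_left h2 (le_max_right _ _)

theorem cf_summable {k : ℕ} {b : ℕ → ℂ} (H : CForm k b) {y : ℝ} (hy : 0 < y) :
    Summable (fun n : ℕ => ‖b n‖ * Real.exp (-y * n)) := by
  obtain ⟨C, hC0, hC⟩ := B1a_growth H
  have h1 := (Real.summable_pow_mul_exp_neg_nat_mul k hy).mul_left C
  refine Summable.of_nonneg_of_le (fun n => by positivity) (fun n => ?_) h1
  rw [← mul_assoc]
  exact mul_le_mul_of_nonneg_right (hC n) (Real.exp_pos _).le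

theorem B1a_norm_term (b : ℕ → ℂ) (z : ℂ) (n : ℕ) :
    ‖b n * cexp (2 * Real.pi * Complex.I * n * z)‖ = ‖b n‖ * Real.exp (-(2 * Real.pi * z.im) * n) := by
  rw [norm_mul, Complex.norm_exp]
  congr 2
  simp [Complex.mul_re, Complex.mul_im]
  ring

theorem B1a_summable_norm {k : ℕ} {b : ℕ → ℂ} (H : CForm k b) {z : ℂ} (hz : 0 < z.im) :
    Summable (fun n : ℕ => ‖b n * cexp (2 * Real.pi * Complex.I * n * z)‖) := by
  refine (cf_summable H (y := 2 * Real.pi * z.im) (by positivity)).congr fun n => ?_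
  rw [B1a_norm_term]

theorem B1a_hasSum {k : ℕ} {b : ℕ → ℂ} (H : CForm k b) {z : ℂ} (hz : 0 < z.im) :
    HasSum (fun n : ℕ => b n * cexp (2 * Real.pi * Complex.I * n * z)) (qc b z) :=
  (Summable.of_norm (B1a_summable_norm H hz)).hasSum

theorem B1a_diffAt {k : ℕ} {b : ℕ → ℂ} (H : CForm k b) {z : ℂ} (hz : 0 < z.im) :
    DifferentiableAt ℂ (qc b) z := by
  have hopen : IsOpen {w : ℂ | z.im / 2 < w.im} :=
    isOpen_lt continuous_const Complex.continuous_im
  have h1 : DifferentiableOn ℂ (fun w : ℂ => ∑' n : ℕ, b n * cexp (2 * Real.pi * Complex.I * n * w))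
      {w : ℂ | z.im / 2 < w.im} := by
    refine differentiableOn_tsum_of_summable_norm
      (u := fun n : ℕ => ‖b n‖ * Real.exp (-(2 * Real.pi * (z.im / 2)) * n))
      (cf_summable H (by positivity)) (fun n => ?_) hopen (fun n w hw => ?_)
    · apply Differentiable.differentiableOn
      fun_prop
    · rw [B1a_norm_term]
      apply mul_le_mul_of_nonneg_left _ (norm_nonneg _)
      apply Real.exp_le_exp.2
      have h2 : z.im / 2 < w.im := hw
      have h3 : 0 ≤ (2 * Real.pi) * ((w.im - z.im / 2) * n) :=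
        mul_nonneg (by positivity) (mul_nonneg (by linarith) (Nat.cast_nonneg n))
      nlinarith [h3]
  have h2 : z ∈ {w : ℂ | z.im / 2 < w.im} := by
    show z.im / 2 < z.im
    linarith
  exact h1.differentiableAt (hopen.mem_nhds h2)

theorem cf_holo {k : ℕ} {b : ℕ → ℂ} (H : CForm k b) :
    DifferentiableOn ℂ (qc b) {z : ℂ | 0 < z.im} :=
  fun _ hz => (B1a_diffAt H hz).differentiableWithinAt

theorem cf_decay {k : ℕ} {b : ℕ → ℂ} (H : CForm k b) :
    ∃ C : ℝ, ∀ z : ℂ, 1 / 2 ≤ z.im → ‖qc b z‖ ≤ C * Real.exp (-2 * Real.pi * z.im) := by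
  have hs := cf_summable H (y := Real.pi) Real.pi_pos
  refine ⟨Real.exp Real.pi * ∑' n : ℕ, ‖b n‖ * Real.exp (-Real.pi * n), fun z hz => ?_⟩
  have hz0 : 0 < z.im := by linarith
  have h1 : ‖qc b z‖ ≤ ∑' n : ℕ, ‖b n * cexp (2 * Real.pi * Complex.I * n * z)‖ :=
    norm_tsum_le_tsum_norm (B1a_summable_norm H hz0)
  refine h1.trans ?_
  rw [← tsum_mul_left, ← tsum_mul_right]
  refine (B1a_summable_norm H hz0).tsum_le_tsum (fun n => ?_) ((hs.mul_left _).mul_right _)
  rw [B1a_norm_term]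
  rcases Nat.eq_zero_or_pos n with h | h
  · subst h
    rw [H.zero]
    simp
  · have h2 : (1 : ℝ) ≤ n := by exact_mod_cast h
    have h3 : Real.exp Real.pi * (‖b n‖ * Real.exp (-Real.pi * n)) *
        Real.exp (-2 * Real.pi * z.im) =
        ‖b n‖ * Real.exp (Real.pi + -Real.pi * n + -2 * Real.pi * z.im) := by
      rw [Real.exp_add, Real.exp_add]
      ring
    rw [h3]
    apply mul_le_mul_of_nonneg_left _ (norm_nonneg _)
    apply Real.exp_le_exp.2
    have h4 : 0 ≤ Real.pi * ((n - 1) * (2 * z.im - 1)) :=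
      mul_nonneg Real.pi_pos.le (mul_nonneg (by linarith) (by linarith))
    nlinarith [h4]

theorem qc_comb {k : ℕ} {ι : Type} [Fintype ι] {a : ι → ℕ → ℂ} (h : ∀ i, CForm k (a i))
    (c : ι → ℂ) {z : ℂ} (hz : 0 < z.im) :
    qc (fun n => ∑ i, c i * a i n) z = ∑ i, c i * qc (a i) z := by
  have h1 : HasSum (fun n : ℕ => ∑ i, c i * (a i n * cexp (2 * Real.pi * Complex.I * n * z)))
      (∑ i, c i * qc (a i) z) :=
    hasSum_sum fun i _ => (B1a_hasSum (h i) hz).mul_left (c i)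
  rw [← h1.tsum_eq, qc]
  refine tsum_congr fun n => ?_
  rw [Finset.sum_mul]
  refine Finset.sum_congr rfl fun i _ => ?_
  ring

theorem cf_comb {k : ℕ} {ι : Type} [Fintype ι] {a : ι → ℕ → ℂ} (h : ∀ i, CForm k (a i))
    (c : ι → ℂ) : CForm k (fun n => ∑ i, c i * a i n) := by
  refine ⟨?_, ?_, ?_, ?_⟩
  · exact Finset.sum_eq_zero fun i _ => by rw [(h i).zero, mul_zero]
  · choose C hC using fun i => (h i).growth
    refine ⟨∑ i, ‖c i‖ * C i, fun n => ?_⟩
    rw [Finset.sum_mul]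
    refine (norm_sum_le _ _).trans (Finset.sum_le_sum fun i _ => ?_)
    rw [norm_mul, mul_assoc]
    exact mul_le_mul_of_nonneg_left (hC i n) (norm_nonneg _)
  · choose C hC using fun i => (h i).bound
    refine ⟨∑ i, ‖c i‖ * C i, fun z hz => ?_⟩
    rw [qc_comb h c hz, Finset.sum_mul]
    refine (norm_sum_le _ _).trans (Finset.sum_le_sum fun i _ => ?_)
    rw [norm_mul, mul_assoc]
    exact mul_le_mul_of_nonneg_left (hC i z hz) (norm_nonneg _)
  · intro α β γ δ hd z hz
    have him : 0 < (((α : ℂ) * z + β) / (γ * z + δ)).im := by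
      have hne : (γ : ℂ) * z + δ ≠ 0 := by
        intro h0
        have h1 := congrArg Complex.im h0
        have h2 := congrArg Complex.re h0
        simp at h1 h2
        rcases h1 with h1 | h1
        · rw [h1] at h2
          simp at h2
          rw [h1, h2] at hd
          simp at hd
        · exact hz.ne' h1
      have hpos : 0 < Complex.normSq ((γ : ℂ) * z + δ) := Complex.normSq_pos.2 hne
      have h3 : (((α : ℂ) * z + β) / (γ * z + δ)).im =
          ((α : ℝ) * δ - β * γ) * z.im / Complex.normSq ((γ : ℂ) * z + δ) := by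
        rw [Complex.div_im]
        simp
        field_simp
        ring
      have h4 : ((α : ℝ) * δ - β * γ) = 1 := by exact_mod_cast hd
      rw [h3, h4, one_mul]
      exact div_pos hz hpos
    rw [qc_comb h c him, qc_comb h c hz, Finset.mul_sum]
    refine Finset.sum_congr rfl fun i _ => ?_
    rw [(h i).slash α β γ δ hd z hz]
    ring

theorem cf_of_hdata {k : ℕ} {a : ℕ → ℝ} (H : HData k a) : CForm k (fun n => (a n : ℂ)) := by
  refine ⟨?_, ?_, ?_, ?_⟩
  · show ((a 0 : ℝ) : ℂ) = 0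
    rw [H.zero, Complex.ofReal_zero]
  · obtain ⟨C, hC⟩ := H.growth
    refine ⟨C, fun n => ?_⟩
    rw [Complex.norm_real, Real.norm_eq_abs]
    exact hC n
  · exact H.bound
  · exact H.slash

theorem B1a_im (β u : ℝ) : ((β : ℂ) + ((Real.exp u : ℝ) : ℂ) * Complex.I).im = Real.exp u := by
  simp only [Complex.add_im, Complex.ofReal_im, Complex.mul_im, Complex.ofReal_re, Complex.I_re,
    Complex.I_im, mul_zero, mul_one, zero_add, add_zero]

theorem geo_bdd {k : ℕ} {b : ℕ → ℂ} (H : CForm k b) :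
    ∃ C : ℝ, ∀ β u, ‖geo k b β u‖ ≤ C := by
  obtain ⟨C, hC⟩ := H.bound
  refine ⟨C, fun β u => ?_⟩
  have h1 := hC (β + (Real.exp u : ℝ) * Complex.I) (by rw [B1a_im]; exact Real.exp_pos u)
  rw [B1a_im] at h1
  rw [geo, norm_mul, Complex.norm_real, Real.norm_eq_abs, Real.abs_exp]
  have h2 := mul_le_mul_of_nonneg_right h1 (Real.exp_pos (k * u / 2)).le
  refine h2.trans (le_of_eq ?_)
  rw [← Real.exp_mul, mul_assoc, ← Real.exp_add]
  have : u * (-(k : ℝ) / 2) + k * u / 2 = 0 := by ring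
  rw [this, Real.exp_zero, mul_one]

theorem geo_cont {k : ℕ} {b : ℕ → ℂ} (H : CForm k b) (β : ℝ) : Continuous (geo k b β) := by
  have h1 : Continuous (fun u : ℝ => qc b ((β : ℂ) + ((Real.exp u : ℝ) : ℂ) * Complex.I)) := by
    rw [continuous_iff_continuousAt]
    intro u
    have h2 : ContinuousAt (qc b) ((β : ℂ) + ((Real.exp u : ℝ) : ℂ) * Complex.I) :=
      (B1a_diffAt H (by rw [B1a_im]; exact Real.exp_pos u)).continuousAt
    have h3 : ContinuousAt (fun u : ℝ => (β : ℂ) + ((Real.exp u : ℝ) : ℂ) * Complex.I) u := by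
      fun_prop
    exact ContinuousAt.comp (f := fun u : ℝ => (β : ℂ) + ((Real.exp u : ℝ) : ℂ) * Complex.I) h2 h3
  exact h1.mul (by fun_prop)

theorem geo_series {k : ℕ} {b : ℕ → ℂ} (H : CForm k b) (β u : ℝ) :
    HasSum (fun n : ℕ => b n * cexp (2 * Real.pi * Complex.I * n * β) * (gd k n u : ℂ))
      (geo k b β u) := by
  have h1 := (B1a_hasSum H (z := β + (Real.exp u : ℝ) * Complex.I)
    (by rw [B1a_im]; exact Real.exp_pos u)).mul_right ((Real.exp (k * u / 2) : ℝ) : ℂ)
  refine h1.congr_fun fun n => ?_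
  have h2 : ((gd k n u : ℝ) : ℂ) =
      cexp (((k * u / 2 - 2 * Real.pi * n * Real.exp u : ℝ)) : ℂ) := by
    rw [gd, Complex.ofReal_exp]
  have h3 : cexp (2 * Real.pi * Complex.I * n * β) * cexp
      (((k * u / 2 - 2 * Real.pi * n * Real.exp u : ℝ)) : ℂ) =
      cexp (2 * Real.pi * Complex.I * n * ((β : ℂ) + ((Real.exp u : ℝ) : ℂ) * Complex.I)) *
        cexp (((k * u / 2 : ℝ)) : ℂ) := by
    rw [← Complex.exp_add, ← Complex.exp_add]
    congr 1
    push_cast
    linear_combination (2 * Real.pi * n * cexp u) * (-Complex.I_sq)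
  rw [h2, Complex.ofReal_exp (k * u / 2)]
  linear_combination (b n) * h3

end Pool.Agent.WA
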