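import Pool.Agent.Lib_helper98.WAF.A1
import Pool.Agent.Lib_helper68.GL2.RSA

/-! Block A3 (CHI) of the weight aspect theorem (helper37). -/

namespace Pool.Agent.WA

open Complex MeasureTheory Filter Topology UpperHalfPlane ModularGroup
open scoped MatrixGroups Modular ENNReal
open Pool.Agent.GL2 (qs HData am dens hatw Ep Mol xt FD IsCompletedL oddZ RSA_coe_smul RSA_im_smul
  RSA_denom_ne RSA_lint)

theorem A3_ch_pos (z w : ℍ) : 0 < ch z w := lt_of_lt_of_le one_pos (one_le_ch z w)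

theorem A3_lint1 (x0 A : ℝ) (hA : 0 < A) :
    ∫⁻ x : ℝ, ENNReal.ofReal (1 / ((x - x0) ^ 2 + A ^ 2)) = ENNReal.ofReal (Real.pi / A) := by
  have hint : Integrable (fun x : ℝ => (1 + ((x - x0) / A) ^ 2)⁻¹) :=
    (integrable_inv_one_add_sq.comp_div hA.ne').comp_sub_right x0
  have hval : ∫ x : ℝ, (1 + ((x - x0) / A) ^ 2)⁻¹ = A * Real.pi := by
    have h1 := integral_sub_right_eq_self (fun x : ℝ => (1 + (x / A) ^ 2)⁻¹) x0 (μ := volume)
    rw [h1]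
    have h2 := Measure.integral_comp_div (fun x : ℝ => (1 + x ^ 2)⁻¹) A
    rw [h2, integral_univ_inv_one_add_sq, abs_of_pos hA, smul_eq_mul]
  have h3 : ∀ x : ℝ, ENNReal.ofReal (1 / ((x - x0) ^ 2 + A ^ 2)) =
      ENNReal.ofReal (1 / A ^ 2) * ENNReal.ofReal ((1 + ((x - x0) / A) ^ 2)⁻¹) := by
    intro x
    rw [← ENNReal.ofReal_mul (by positivity)]
    congr 1
    rw [div_pow]
    have : (x - x0) ^ 2 + A ^ 2 ≠ 0 := by positivity
    field_simp
    ring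
  rw [lintegral_congr h3, lintegral_const_mul' _ _ ENNReal.ofReal_ne_top,
    ← ofReal_integral_eq_lintegral_ofReal hint (Eventually.of_forall (fun x => by positivity)),
    hval, ← ENNReal.ofReal_mul (by positivity)]
  congr 1
  field_simp

theorem A3_pt {x0 y0 x y : ℝ} (hy0 : 0 < y0) (hy : 0 < y) :
    (((x0 - x) ^ 2 + (y0 + y) ^ 2) / (4 * y0 * y)) ^ (-(4 : ℝ)) * (1 / y ^ 2) ≤
      (256 * y0 ^ 2 / (y ^ 2 + y0 ^ 2)) * (1 / ((x - x0) ^ 2 + (y0 + |y|) ^ 2)) := by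
  rw [abs_of_pos hy]
  obtain ⟨s, hs⟩ : ∃ s, s = (x - x0) ^ 2 := ⟨_, rfl⟩
  have hs0 : 0 ≤ s := by rw [hs]; positivity
  have hs' : (x0 - x) ^ 2 = s := by rw [hs]; ring
  rw [hs', ← hs]
  obtain ⟨A, hA⟩ : ∃ A, A = y0 + y := ⟨_, rfl⟩
  have hA0 : 0 < A := by rw [hA]; positivity
  rw [← hA]
  have hS : 0 < s + A ^ 2 := by positivity
  rw [Real.rpow_neg (by positivity)]
  have h4 : ((s + A ^ 2) / (4 * y0 * y)) ^ (4 : ℝ) = ((s + A ^ 2) / (4 * y0 * y)) ^ 4 := by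
    rw [← Real.rpow_natCast]
    norm_num
  rw [h4]
  have e1 : (((s + A ^ 2) / (4 * y0 * y)) ^ 4)⁻¹ * (1 / y ^ 2) =
      (256 * y0 ^ 4 * y ^ 2 / (s + A ^ 2) ^ 3) * (1 / (s + A ^ 2)) := by
    field_simp
    ring
  rw [e1]
  apply mul_le_mul_of_nonneg_right _ (by positivity)
  rw [div_le_div_iff₀ (by positivity) (by positivity)]
  have k1 : A ^ 2 ≤ s + A ^ 2 := by linarith
  have k2 : (A ^ 2) ^ 3 ≤ (s + A ^ 2) ^ 3 := pow_le_pow_left₀ (by positivity) k1 3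
  have k3 : y0 ^ 2 ≤ A ^ 2 := by rw [hA]; gcongr; linarith
  have k4 : y ^ 2 ≤ A ^ 2 := by rw [hA]; gcongr; linarith
  have k5 : y ^ 2 + y0 ^ 2 ≤ A ^ 2 := by rw [hA]; nlinarith [mul_pos hy0 hy]
  calc 256 * y0 ^ 4 * y ^ 2 * (y ^ 2 + y0 ^ 2)
      = 256 * y0 ^ 2 * (y0 ^ 2 * y ^ 2 * (y ^ 2 + y0 ^ 2)) := by ring
    _ ≤ 256 * y0 ^ 2 * (A ^ 2 * A ^ 2 * A ^ 2) := by gcongr
    _ = 256 * y0 ^ 2 * (A ^ 2) ^ 3 := by ring
    _ ≤ 256 * y0 ^ 2 * (s + A ^ 2) ^ 3 := by gcongr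

theorem ch_lint : ∃ C : ℝ, ∀ z : ℍ,
    ∫⁻ w : ℍ, ENNReal.ofReal (ch z w ^ (-(4 : ℝ))) ≤ ENNReal.ofReal C := by
  refine ⟨256 * Real.pi ^ 2, ?_⟩
  intro z
  obtain ⟨x0, hx0⟩ : ∃ x0, x0 = z.re := ⟨_, rfl⟩
  obtain ⟨y0, hy0'⟩ : ∃ x0, x0 = z.im := ⟨_, rfl⟩
  have hy0 : 0 < y0 := by rw [hy0']; exact z.im_pos
  have h1 := RSA_lint (fun ζ : ℂ => ENNReal.ofReal
    ((‖(z : ℂ) - starRingEnd ℂ ζ‖ ^ 2 / (4 * z.im * ζ.im)) ^ (-(4 : ℝ))))
  have h2 : ∀ w : ℍ, ENNReal.ofReal (ch z w ^ (-(4 : ℝ))) = (fun ζ : ℂ => ENNReal.ofReal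
    ((‖(z : ℂ) - starRingEnd ℂ ζ‖ ^ 2 / (4 * z.im * ζ.im)) ^ (-(4 : ℝ)))) (w : ℂ) := by
    intro w
    rfl
  rw [lintegral_congr h2, h1]
  obtain ⟨G, hG⟩ : ∃ G : ℝ × ℝ → ℝ≥0∞, G = fun p => ENNReal.ofReal
    ((256 * y0 ^ 2 / (p.2 ^ 2 + y0 ^ 2)) * (1 / ((p.1 - x0) ^ 2 + (y0 + |p.2|) ^ 2))) := ⟨_, rfl⟩
  have hcont : Continuous (fun p : ℝ × ℝ =>
      (256 * y0 ^ 2 / (p.2 ^ 2 + y0 ^ 2)) * (1 / ((p.1 - x0) ^ 2 + (y0 + |p.2|) ^ 2))) := by
    apply Continuous.mul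
    · apply Continuous.div (by fun_prop) (by fun_prop)
      intro p
      positivity
    · apply Continuous.div (by fun_prop) (by fun_prop)
      intro p
      positivity
  have hGm : Measurable G := by
    rw [hG]
    exact hcont.measurable.ennreal_ofReal
  have hms : MeasurableSet {z : ℂ | 0 < z.im} :=
    (isOpen_lt continuous_const Complex.continuous_im).measurableSet
  rw [← lintegral_indicator hms]
  calc _ ≤ ∫⁻ ζ : ℂ, G (Complex.measurableEquivRealProd ζ) := by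
        apply lintegral_mono
        intro ζ
        by_cases hζ : ζ ∈ {z : ℂ | 0 < z.im}
        · rw [Set.indicator_of_mem hζ, hG]
          simp only [Complex.measurableEquivRealProd_apply]
          have hζ' : 0 < ζ.im := hζ
          have hz' : 0 < z.im := z.im_pos
          rw [← ENNReal.ofReal_mul (Real.rpow_nonneg (by positivity) _)]
          apply ENNReal.ofReal_le_ofReal
          have h3 : ‖(z : ℂ) - starRingEnd ℂ ζ‖ ^ 2 = (x0 - ζ.re) ^ 2 + (y0 + ζ.im) ^ 2 := by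
            rw [← Complex.normSq_eq_norm_sq, Complex.normSq_apply, hx0, hy0']
            have a1 : (z : ℂ).re = z.re := rfl
            have a2 : (z : ℂ).im = z.im := rfl
            rw [Complex.sub_re, Complex.sub_im, Complex.conj_re, Complex.conj_im, a1, a2]
            ring
          rw [h3, ← hy0']
          exact A3_pt hy0 hζ
        · rw [Set.indicator_of_notMem hζ]
          exact bot_le
    _ = ∫⁻ p : ℝ × ℝ, G p := by
        have := Complex.volume_preserving_equiv_real_prod.lintegral_comp_emb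
          Complex.measurableEquivRealProd.measurableEmbedding G
        exact this
    _ = ∫⁻ y : ℝ, ∫⁻ x : ℝ, G (x, y) := by
        rw [Measure.volume_eq_prod]
        exact lintegral_prod_symm' _ hGm
    _ ≤ ∫⁻ y : ℝ, ENNReal.ofReal (256 * Real.pi * y0) *
          ENNReal.ofReal (1 / ((y - 0) ^ 2 + y0 ^ 2)) := by
        apply lintegral_mono
        intro y
        have h4 : ∀ x : ℝ, G (x, y) = ENNReal.ofReal (256 * y0 ^ 2 / (y ^ 2 + y0 ^ 2)) *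
            ENNReal.ofReal (1 / ((x - x0) ^ 2 + (y0 + |y|) ^ 2)) := by
          intro x
          rw [hG]
          simp only
          rw [ENNReal.ofReal_mul (by positivity)]
        simp only
        rw [lintegral_congr h4, lintegral_const_mul' _ _ ENNReal.ofReal_ne_top,
          A3_lint1 x0 (y0 + |y|) (by positivity), ← ENNReal.ofReal_mul (by positivity),
          ← ENNReal.ofReal_mul (by positivity)]
        apply ENNReal.ofReal_le_ofReal
        have h5 : Real.pi / (y0 + |y|) ≤ Real.pi / y0 := by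
          apply div_le_div_of_nonneg_left Real.pi_pos.le hy0
          have := abs_nonneg y
          linarith
        calc 256 * y0 ^ 2 / (y ^ 2 + y0 ^ 2) * (Real.pi / (y0 + |y|))
            ≤ 256 * y0 ^ 2 / (y ^ 2 + y0 ^ 2) * (Real.pi / y0) := by gcongr
          _ = 256 * Real.pi * y0 * (1 / ((y - 0) ^ 2 + y0 ^ 2)) := by
            rw [sub_zero]
            field_simp
    _ = ENNReal.ofReal (256 * Real.pi ^ 2) := by
        rw [lintegral_const_mul' _ _ ENNReal.ofReal_ne_top, A3_lint1 0 y0 hy0,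
          ← ENNReal.ofReal_mul (by positivity)]
        congr 1
        field_simp

theorem A3_pt2 (k : ℕ) (hk : 16 ≤ k) (z z' w : ℍ) :
    ch z w ^ (-(k : ℝ) / 2) * ch z' w ^ (-(k : ℝ) / 2) ≤
      256 * ch z z' ^ (-(4 : ℝ)) * ch z w ^ (-(4 : ℝ)) := by
  have h1 := one_le_ch z w
  have h2 := one_le_ch z' w
  have h3 := one_le_ch z z'
  have p1 := A3_ch_pos z w
  have p2 := A3_ch_pos z' w
  have p3 := A3_ch_pos z z'
  have hk' : (16 : ℝ) ≤ k := by exact_mod_cast hk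
  have e1 : ch z w ^ (-(k : ℝ) / 2) ≤ ch z w ^ (-(8 : ℝ)) :=
    Real.rpow_le_rpow_of_exponent_le h1 (by linarith)
  have e2 : ch z' w ^ (-(k : ℝ) / 2) ≤ ch z' w ^ (-(4 : ℝ)) :=
    Real.rpow_le_rpow_of_exponent_le h2 (by linarith)
  have e3 : ch z w ^ (-(8 : ℝ)) = ch z w ^ (-(4 : ℝ)) * ch z w ^ (-(4 : ℝ)) := by
    rw [← Real.rpow_add p1]
    norm_num
  have e4 : ch z w ^ (-(4 : ℝ)) * ch z' w ^ (-(4 : ℝ)) ≤ 256 * ch z z' ^ (-(4 : ℝ)) := by
    rw [← Real.mul_rpow p1.le p2.le]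
    have t1 := ch_tri z w z'
    rw [ch_comm w z'] at t1
    have t2 : ch z z' / 4 ≤ ch z w * ch z' w := by linarith
    calc (ch z w * ch z' w) ^ (-(4 : ℝ)) ≤ (ch z z' / 4) ^ (-(4 : ℝ)) :=
          Real.rpow_le_rpow_of_nonpos (by positivity) t2 (by norm_num)
      _ = 256 * ch z z' ^ (-(4 : ℝ)) := by
        rw [div_eq_mul_inv, Real.mul_rpow p3.le (by norm_num), mul_comm]
        congr 1
        rw [Real.rpow_neg (by norm_num)]
        have : ((4 : ℝ)⁻¹) ^ (4 : ℝ) = ((4 : ℝ)⁻¹) ^ (4 : ℕ) := by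
          rw [← Real.rpow_natCast]
          norm_num
        rw [this]
        norm_num
  have q1 : 0 ≤ ch z w ^ (-(4 : ℝ)) := Real.rpow_nonneg p1.le _
  have q2 : 0 ≤ ch z' w ^ (-(4 : ℝ)) := Real.rpow_nonneg p2.le _
  calc ch z w ^ (-(k : ℝ) / 2) * ch z' w ^ (-(k : ℝ) / 2)
      ≤ ch z w ^ (-(8 : ℝ)) * ch z' w ^ (-(4 : ℝ)) :=
        mul_le_mul e1 e2 (Real.rpow_nonneg p2.le _) (Real.rpow_nonneg p1.le _)
    _ = (ch z w ^ (-(4 : ℝ)) * ch z' w ^ (-(4 : ℝ))) * ch z w ^ (-(4 : ℝ)) := by rw [e3]; ring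
    _ ≤ _ := mul_le_mul_of_nonneg_right e4 q1

theorem ch_lint2 : ∃ C : ℝ, ∀ k : ℕ, 16 ≤ k → ∀ z z' : ℍ,
    ∫⁻ w : ℍ, ENNReal.ofReal (ch z w ^ (-(k : ℝ) / 2)) *
      ENNReal.ofReal (ch z' w ^ (-(k : ℝ) / 2)) ≤ ENNReal.ofReal (C * ch z z' ^ (-(4 : ℝ))) := by
  obtain ⟨C, hC⟩ := ch_lint
  refine ⟨256 * |C|, ?_⟩
  intro k hk z z'
  have p3 := A3_ch_pos z z'
  calc _ ≤ ∫⁻ w : ℍ, ENNReal.ofReal (256 * ch z z' ^ (-(4 : ℝ))) *
        ENNReal.ofReal (ch z w ^ (-(4 : ℝ))) := by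
        apply lintegral_mono
        intro w
        simp only
        rw [← ENNReal.ofReal_mul (Real.rpow_nonneg (A3_ch_pos z w).le _),
          ← ENNReal.ofReal_mul (by positivity)]
        exact ENNReal.ofReal_le_ofReal (A3_pt2 k hk z z' w)
    _ = ENNReal.ofReal (256 * ch z z' ^ (-(4 : ℝ))) *
        ∫⁻ w : ℍ, ENNReal.ofReal (ch z w ^ (-(4 : ℝ))) :=
        lintegral_const_mul' _ _ ENNReal.ofReal_ne_top
    _ ≤ ENNReal.ofReal (256 * ch z z' ^ (-(4 : ℝ))) * ENNReal.ofReal |C| := by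
        gcongr
        exact (hC z).trans (ENNReal.ofReal_le_ofReal (le_abs_self C))
    _ = _ := by
        rw [← ENNReal.ofReal_mul (by positivity)]
        congr 1
        ring

end Pool.Agent.WA
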