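import Pool.Agent.Lib_helper98.WAF.A8

namespace Pool.Agent.WA

open Complex MeasureTheory Filter Topology UpperHalfPlane ModularGroup
open scoped MatrixGroups Modular ENNReal

theorem A9_amgm {x y : ℝ} (s : ℝ) : 2 * |x * y| ≤ x ^ 2 * Real.exp s + y ^ 2 * Real.exp (-s) := by
  have h1 : Real.exp s = Real.exp (s / 2) ^ 2 := by
    rw [← Real.exp_nat_mul]; congr 1; push_cast; ring
  have h2 : Real.exp (-s) = Real.exp (-(s / 2)) ^ 2 := by
    rw [← Real.exp_nat_mul]; congr 1; push_cast; ring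
  have h3 : Real.exp (s / 2) * Real.exp (-(s / 2)) = 1 := by
    rw [← Real.exp_add]; simp
  rw [h1, h2]
  have h4 : |x * y| = |x| * |y| := abs_mul x y
  rw [h4]
  have h5 : 0 ≤ (|x| * Real.exp (s / 2) - |y| * Real.exp (-(s / 2))) ^ 2 := sq_nonneg _
  have h6 : |x| ^ 2 = x ^ 2 := sq_abs x
  have h7 : |y| ^ 2 = y ^ 2 := sq_abs y
  have h8 : (|x| * Real.exp (s / 2) - |y| * Real.exp (-(s / 2))) ^ 2 =
      x ^ 2 * Real.exp (s / 2) ^ 2 + y ^ 2 * Real.exp (-(s / 2)) ^ 2 - 2 * (|x| * |y|) := by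
    linear_combination Real.exp (s / 2) ^ 2 * h6 + Real.exp (-(s / 2)) ^ 2 * h7 -
      2 * (|x| * |y|) * h3
  linarith

/-- a nonzero element of `(1/N²) ℤ` -/
theorem A9_sep {N : ℕ} (hN : 0 < N) {x : ℝ} {m : ℤ} (hm : x * (N : ℝ) ^ 2 = m) (hx : x ≠ 0) :
    1 / (N : ℝ) ^ 2 ≤ |x| := by
  have hN' : (0 : ℝ) < (N : ℝ) ^ 2 := by positivity
  have hm0 : m ≠ 0 := by
    intro h
    rw [h] at hm
    simp at hm
    rcases hm with h1 | h1
    · exact hx h1
    · omega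
  have h1 : (1 : ℝ) ≤ |(m : ℝ)| := by
    have := Int.one_le_abs hm0
    exact_mod_cast this
  rw [div_le_iff₀ hN']
  calc (1 : ℝ) ≤ |(m : ℝ)| := h1
    _ = |x| * (N : ℝ) ^ 2 := by rw [← hm, abs_mul, abs_of_pos hN']

theorem A9_int {N : ℕ} {β β' : ℚ} {P P' : ℤ} (hβ : (β : ℝ) * N = P) (hβ' : (β' : ℝ) * N = P')
    (g : SL(2, ℤ)) : (∃ m : ℤ, gX g β β' * (N : ℝ) ^ 2 = m) ∧
      (∃ m : ℤ, gp g β' * (N : ℝ) = m) ∧ ∃ m : ℤ, gq g β * (N : ℝ) = m := by
  refine ⟨⟨g 0 0 * P * N + g 0 1 * N ^ 2 - P' * (g 1 0 * P + g 1 1 * N), ?_⟩,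
    ⟨g 0 0 * N - P' * g 1 0, ?_⟩, ⟨g 1 0 * P + g 1 1 * N, ?_⟩⟩
  · unfold gX
    push_cast
    rw [← hβ, ← hβ']
    ring
  · unfold gp
    push_cast
    rw [← hβ']
    ring
  · unfold gq
    push_cast
    rw [← hβ]
    ring

/-- the finite family of type (iv) -/
def A9S (β β' : ℝ) (g : SL(2, ℤ)) : Prop :=
  0 < gp g β' * gq g β ∧ ((g 1 0 : ℤ) : ℝ) * gX g β β' < 0

theorem A9_ch {g : SL(2, ℤ)} {β β' u u' : ℝ} {V : ℝ} {N : ℕ} (hN : 0 < N)
    (hX : ∃ m : ℤ, gX g β β' * (N : ℝ) ^ 2 = m) (hp : ∃ m : ℤ, gp g β' * (N : ℝ) = m)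
    (hq : ∃ m : ℤ, gq g β * (N : ℝ) = m)
    (hu : u ∈ Set.Icc (-V) V) (hu' : u' ∈ Set.Icc (-V) V)
    (h1 : ¬ MainI β β' g) (h2 : ¬ MainR β β' g) (h3 : ¬ A9S β β' g) :
    1 + Real.exp (-2 * V) / (4 * (N : ℝ) ^ 4) ≤ ch (g • vz β u) (vz β' u') := by
  have hpq := pq_cX g β β'
  rw [ch_formula]
  set X := gX g β β'
  set p := gp g β'
  set q := gq g β
  set c : ℝ := ((g 1 0 : ℤ) : ℝ) with hcdef
  have hN1 : (1 : ℝ) ≤ N := by exact_mod_cast hN
  have hN0 : (0 : ℝ) < N := by linarith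
  have hV : 0 ≤ V := by
    have := hu.1.trans hu.2
    linarith
  -- lower bounds
  have hXb : X ≠ 0 → 1 / (N : ℝ) ^ 2 ≤ |X| := by
    intro h
    obtain ⟨m, hm⟩ := hX
    exact A9_sep hN hm h
  have hpb : p ≠ 0 → 1 / (N : ℝ) ^ 2 ≤ |p| := by
    intro h
    obtain ⟨m, hm⟩ := hp
    refine A9_sep (m := m * N) hN ?_ h
    push_cast
    rw [← hm]; ring
  have hqb : q ≠ 0 → 1 / (N : ℝ) ^ 2 ≤ |q| := by
    intro h
    obtain ⟨m, hm⟩ := hq
    refine A9_sep (m := m * N) hN ?_ h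
    push_cast
    rw [← hm]; ring
  have hcb : c ≠ 0 → 1 / (N : ℝ) ^ 2 ≤ |c| := by
    intro h
    refine A9_sep (m := g 1 0 * N ^ 2) hN ?_ h
    push_cast
    rw [hcdef]
  have hsq : ∀ x : ℝ, 1 / (N : ℝ) ^ 2 ≤ |x| → 1 / (N : ℝ) ^ 4 ≤ x ^ 2 := by
    intro x hx
    rw [← sq_abs x]
    calc 1 / (N : ℝ) ^ 4 = (1 / (N : ℝ) ^ 2) ^ 2 := by
          field_simp
      _ ≤ |x| ^ 2 := pow_le_pow_left₀ (by positivity) hx 2
  have hexp : ∀ s : ℝ, |s| ≤ 2 * V → Real.exp (-2 * V) ≤ Real.exp s := by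
    intro s hs
    apply Real.exp_le_exp.2
    have := (abs_le.1 hs).1
    linarith
  have hs1 : |u + u'| ≤ 2 * V := by
    rw [abs_le]; constructor
    · linarith [hu.1, hu'.1]
    · linarith [hu.2, hu'.2]
  have hs2 : |u - u'| ≤ 2 * V := by
    rw [abs_le]; constructor
    · linarith [hu.1, hu'.2]
    · linarith [hu.2, hu'.1]
  have hs3 : |u' - u| ≤ 2 * V := by
    rw [abs_sub_comm]; exact hs2
  have hs4 : |-(u + u')| ≤ 2 * V := by
    rw [abs_neg]; exact hs1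
  have hprod : ∀ x s : ℝ, x ≠ 0 → (1 / (N : ℝ) ^ 2 ≤ |x|) → |s| ≤ 2 * V →
      Real.exp (-2 * V) / (N : ℝ) ^ 4 ≤ x ^ 2 * Real.exp s := by
    intro x s _ hx hs
    calc Real.exp (-2 * V) / (N : ℝ) ^ 4 = (1 / (N : ℝ) ^ 4) * Real.exp (-2 * V) := by ring
      _ ≤ x ^ 2 * Real.exp s := mul_le_mul (hsq x hx) (hexp s hs) (Real.exp_pos _).le (sq_nonneg _)
  have hη : Real.exp (-2 * V) / (4 * (N : ℝ) ^ 4) = (Real.exp (-2 * V) / (N : ℝ) ^ 4) / 4 := by
    field_simp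
  rw [hη]
  have hXc := A9_amgm (x := c) (y := X) (u + u')
  have hpq2 := A9_amgm (x := p) (y := q) (u - u')
  rw [neg_sub] at hpq2
  have g1 : 0 ≤ X ^ 2 * Real.exp (-(u + u')) := by positivity
  have g2 : 0 ≤ c ^ 2 * Real.exp (u + u') := by positivity
  have g3 : 0 ≤ p ^ 2 * Real.exp (u - u') := by positivity
  have g4 : 0 ≤ q ^ 2 * Real.exp (u' - u) := by positivity
  by_cases hcX : c * X = 0
  · -- case (i)
    have e1 : p * q = 1 := by linarith
    rw [e1] at hpq2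
    simp only [abs_one] at hpq2
    have hne : c ≠ 0 ∨ X ≠ 0 := by
      by_contra hcon
      push Not at hcon
      apply h1
      refine ⟨?_, hcon.2⟩
      have := hcon.1
      rw [hcdef] at this
      exact_mod_cast this
    rcases hne with h | h
    · have := hprod c (u + u') h (hcb h) hs1
      linarith
    · have := hprod X (-(u + u')) h (hXb h) hs4
      linarith
  · by_cases hpq0 : p * q = 0
    · -- case (ii)
      have e1 : c * X = -1 := by linarith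
      rw [e1] at hXc
      simp only [abs_neg, abs_one] at hXc
      have hne : p ≠ 0 ∨ q ≠ 0 := by
        by_contra hcon
        push Not at hcon
        exact h2 ⟨hcon.1, hcon.2⟩
      rcases hne with h | h
      · have := hprod p (u - u') h (hpb h) hs2
        linarith
      · have := hprod q (u' - u) h (hqb h) hs3
        linarith
    · -- case (iii)
      have hcX1 : 1 / (N : ℝ) ^ 2 ≤ |c * X| := by
        obtain ⟨m, hm⟩ := hX
        refine A9_sep (m := g 1 0 * m) hN ?_ hcX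
        push_cast
        rw [← hm, hcdef]; ring
      have hpq1 : 1 / (N : ℝ) ^ 2 ≤ |p * q| := by
        obtain ⟨m, hm⟩ := hp
        obtain ⟨m', hm'⟩ := hq
        refine A9_sep (m := m * m') hN ?_ hpq0
        push_cast
        rw [← hm, ← hm']; ring
      have key : 1 + 2 / (N : ℝ) ^ 2 ≤ |p * q| + |c * X| := by
        have e0 : 2 / (N : ℝ) ^ 2 = 2 * (1 / (N : ℝ) ^ 2) := by ring
        rw [e0]
        rcases lt_or_gt_of_ne hcX with h | h
        · -- cX < 0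
          have h5 : p * q < 0 := by
            rcases lt_or_gt_of_ne hpq0 with h5 | h5
            · exact h5
            · exact absurd ⟨h5, h⟩ h3
          rw [abs_of_neg h5] at hpq1 ⊢
          rw [abs_of_neg h]
          linarith
        · have h5 : 0 < p * q := by linarith
          rw [abs_of_pos h5]
          rw [abs_of_pos h] at hcX1 ⊢
          linarith
      have hb : Real.exp (-2 * V) / (N : ℝ) ^ 4 ≤ 1 / (N : ℝ) ^ 2 := by
        have e1 : Real.exp (-2 * V) ≤ 1 := by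
          rw [Real.exp_le_one_iff]; linarith
        have e2 : (N : ℝ) ^ 2 ≤ (N : ℝ) ^ 4 := pow_le_pow_right₀ hN1 (by norm_num)
        calc Real.exp (-2 * V) / (N : ℝ) ^ 4 ≤ 1 / (N : ℝ) ^ 4 := by gcongr
          _ ≤ 1 / (N : ℝ) ^ 2 := by
              apply one_div_le_one_div_of_le (by positivity) e2
      have e3 : (0 : ℝ) ≤ 1 / (N : ℝ) ^ 2 := by positivity
      have e4 : 2 / (N : ℝ) ^ 2 = 2 * (1 / (N : ℝ) ^ 2) := by ring
      rw [e4] at key
      linarith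


/-- the finite set of type (iv) -/
theorem A9_fin {N : ℕ} (hN : 0 < N) {β β' : ℚ} {P P' : ℤ} (hβ : (β : ℝ) * N = P)
    (hβ' : (β' : ℝ) * N = P') : {g : SL(2, ℤ) | A9S β β' g}.Finite := by
  set R : ℝ := 1 + (N : ℝ) ^ 2 * (1 + |(β : ℝ)|) * (1 + |(β' : ℝ)|) with hR
  obtain ⟨M, hM⟩ := exists_int_gt R
  let e : SL(2, ℤ) → ℤ × ℤ × ℤ × ℤ := fun g => (g 0 0, g 0 1, g 1 0, g 1 1)
  have he : Function.Injective e := by
    intro g g' h
    simp only [e, Prod.mk.injEq] at h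
    obtain ⟨h1, h2, h3, h4⟩ := h
    ext i j
    fin_cases i <;> fin_cases j <;> simp_all
  have hfin : (Set.Icc (-M) M ×ˢ Set.Icc (-M) M ×ˢ Set.Icc (-M) M ×ˢ Set.Icc (-M) M).Finite :=
    (Set.finite_Icc _ _).prod ((Set.finite_Icc _ _).prod ((Set.finite_Icc _ _).prod
      (Set.finite_Icc _ _)))
  refine (hfin.preimage he.injOn).subset ?_
  intro g hg
  obtain ⟨h1, h2⟩ := hg
  have hpq := pq_cX g β β'
  obtain ⟨⟨m1, hm1⟩, ⟨m2, hm2⟩, ⟨m3, hm3⟩⟩ := A9_int hβ hβ' g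
  have hN1 : (1 : ℝ) ≤ N := by exact_mod_cast hN
  have hN0 : (0 : ℝ) < N := by linarith
  have hN2 : (0 : ℝ) < (N : ℝ) ^ 2 := by positivity
  set X := gX g β β' with hXd
  set p := gp g β' with hpd
  set q := gq g β with hqd
  set c : ℝ := ((g 1 0 : ℤ) : ℝ) with hcdef
  have hX0 : X ≠ 0 := by
    intro h; rw [h] at h2; simp at h2
  have hc0 : c ≠ 0 := by
    intro h; rw [h] at h2; simp at h2
  have hp0 : p ≠ 0 := by
    intro h; rw [h] at h1; simp at h1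
  have hq0 : q ≠ 0 := by
    intro h; rw [h] at h1; simp at h1
  have hXb : 1 / (N : ℝ) ^ 2 ≤ |X| := A9_sep hN hm1 hX0
  have hpb : 1 / (N : ℝ) ^ 2 ≤ |p| := by
    refine A9_sep (m := m2 * N) hN ?_ hp0
    push_cast
    rw [← hm2]; ring
  have hqb : 1 / (N : ℝ) ^ 2 ≤ |q| := by
    refine A9_sep (m := m3 * N) hN ?_ hq0
    push_cast
    rw [← hm3]; ring
  have hcb : 1 ≤ |c| := by
    have : g 1 0 ≠ 0 := by
      intro h; apply hc0; rw [hcdef, h]; simp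
    have := Int.one_le_abs this
    rw [hcdef]
    exact_mod_cast this
  have e1 : |c| * |X| ≤ 1 := by
    rw [← abs_mul, abs_of_neg h2]; linarith
  have e2 : |p| * |q| ≤ 1 := by
    rw [← abs_mul, abs_of_pos h1]; linarith
  have b1 : |X| ≤ 1 := by
    calc |X| = 1 * |X| := (one_mul _).symm
      _ ≤ |c| * |X| := mul_le_mul_of_nonneg_right hcb (abs_nonneg X)
      _ ≤ 1 := e1
  have b2 : |c| ≤ (N : ℝ) ^ 2 := by
    have : |c| * (1 / (N : ℝ) ^ 2) ≤ 1 := (mul_le_mul_of_nonneg_left hXb (abs_nonneg c)).trans e1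
    rw [mul_one_div, div_le_one hN2] at this
    exact this
  have b3 : |p| ≤ (N : ℝ) ^ 2 := by
    have : |p| * (1 / (N : ℝ) ^ 2) ≤ 1 := (mul_le_mul_of_nonneg_left hqb (abs_nonneg p)).trans e2
    rw [mul_one_div, div_le_one hN2] at this
    exact this
  have b4 : |q| ≤ (N : ℝ) ^ 2 := by
    have : |q| * (1 / (N : ℝ) ^ 2) ≤ 1 := by
      rw [mul_comm] at e2
      exact (mul_le_mul_of_nonneg_left hpb (abs_nonneg q)).trans e2
    rw [mul_one_div, div_le_one hN2] at this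
    exact this
  have ha : ((g 0 0 : ℤ) : ℝ) = p + β' * c := by
    rw [hpd, hcdef]; unfold gp; ring
  have hd : ((g 1 1 : ℤ) : ℝ) = q - c * β := by
    rw [hqd, hcdef]; unfold gq; ring
  have hb : ((g 0 1 : ℤ) : ℝ) = X - ((g 0 0 : ℤ) : ℝ) * β + β' * q := by
    rw [hXd, hqd]; unfold gX gq; ring
  have na : |((g 0 0 : ℤ) : ℝ)| ≤ (N : ℝ) ^ 2 * (1 + |(β' : ℝ)|) := by
    rw [ha]
    calc |p + β' * c| ≤ |p| + |(β' : ℝ)| * |c| := by
          rw [← abs_mul]; exact abs_add_le _ _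
      _ ≤ (N : ℝ) ^ 2 + |(β' : ℝ)| * (N : ℝ) ^ 2 := by gcongr
      _ = (N : ℝ) ^ 2 * (1 + |(β' : ℝ)|) := by ring
  have nd : |((g 1 1 : ℤ) : ℝ)| ≤ (N : ℝ) ^ 2 * (1 + |(β : ℝ)|) := by
    rw [hd]
    calc |q - c * β| ≤ |q| + |c| * |(β : ℝ)| := by
          rw [← abs_mul]; exact abs_sub _ _
      _ ≤ (N : ℝ) ^ 2 + (N : ℝ) ^ 2 * |(β : ℝ)| := by gcongr
      _ = (N : ℝ) ^ 2 * (1 + |(β : ℝ)|) := by ring
  have nb : |((g 0 1 : ℤ) : ℝ)| ≤ 1 + (N : ℝ) ^ 2 * (1 + |(β' : ℝ)|) * |(β : ℝ)| +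
      |(β' : ℝ)| * (N : ℝ) ^ 2 := by
    rw [hb]
    calc |X - ((g 0 0 : ℤ) : ℝ) * β + β' * q| ≤ |X - ((g 0 0 : ℤ) : ℝ) * β| + |β' * q| :=
          abs_add_le _ _
      _ ≤ |X| + |((g 0 0 : ℤ) : ℝ) * β| + |β' * q| := by
          gcongr
          exact abs_sub _ _
      _ = |X| + |((g 0 0 : ℤ) : ℝ)| * |(β : ℝ)| + |(β' : ℝ)| * |q| := by
          rw [abs_mul, abs_mul]
      _ ≤ 1 + (N : ℝ) ^ 2 * (1 + |(β' : ℝ)|) * |(β : ℝ)| + |(β' : ℝ)| * (N : ℝ) ^ 2 := by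
          gcongr
  have t1 : 0 ≤ (N : ℝ) ^ 2 * |(β : ℝ)| := by positivity
  have t2 : 0 ≤ (N : ℝ) ^ 2 * |(β' : ℝ)| := by positivity
  have t3 : 0 ≤ (N : ℝ) ^ 2 * |(β : ℝ)| * |(β' : ℝ)| := by positivity
  have hRe : R = 1 + (N : ℝ) ^ 2 + (N : ℝ) ^ 2 * |(β : ℝ)| + (N : ℝ) ^ 2 * |(β' : ℝ)| +
      (N : ℝ) ^ 2 * |(β : ℝ)| * |(β' : ℝ)| := by rw [hR]; ring
  have hin : ∀ z : ℤ, |((z : ℤ) : ℝ)| ≤ R → z ∈ Set.Icc (-M) M := by
    intro z hz
    have h5 : |((z : ℤ) : ℝ)| ≤ (M : ℝ) := hz.trans hM.le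
    rw [abs_le] at h5
    constructor
    · exact_mod_cast h5.1
    · exact_mod_cast h5.2
  have z1 : (N : ℝ) ^ 2 * (1 + |(β' : ℝ)|) = (N : ℝ) ^ 2 + (N : ℝ) ^ 2 * |(β' : ℝ)| := by ring
  have z2 : (N : ℝ) ^ 2 * (1 + |(β : ℝ)|) = (N : ℝ) ^ 2 + (N : ℝ) ^ 2 * |(β : ℝ)| := by ring
  have z3 : 1 + (N : ℝ) ^ 2 * (1 + |(β' : ℝ)|) * |(β : ℝ)| + |(β' : ℝ)| * (N : ℝ) ^ 2 =
      1 + (N : ℝ) ^ 2 * |(β : ℝ)| + (N : ℝ) ^ 2 * |(β : ℝ)| * |(β' : ℝ)| +
        (N : ℝ) ^ 2 * |(β' : ℝ)| := by ring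
  refine ⟨hin _ ?_, hin _ ?_, hin _ ?_, hin _ ?_⟩
  · rw [hRe]; linarith
  · rw [hRe]; linarith
  · change |c| ≤ R
    rw [hRe]; linarith
  · rw [hRe]; linarith

theorem A9_quad {N : ℕ} (hN : 0 < N) {x y : ℝ} (hx : x ≠ 0) (hy : y ≠ 0)
    (hxy : 1 / (N : ℝ) ^ 2 ≤ |x * y|) (t : ℝ) :
    (t - Real.log (|x| / |y|)) ^ 2 / (N : ℝ) ^ 2 ≤
      x ^ 2 * Real.exp (-t) + y ^ 2 * Real.exp t - 2 * |x * y| := by
  have hx' : 0 < |x| := abs_pos.2 hx
  have hy' : 0 < |y| := abs_pos.2 hy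
  set t₀ := Real.log (|x| / |y|) with ht₀
  have he : Real.exp t₀ = |x| / |y| := Real.exp_log (by positivity)
  have he' : Real.exp (-t₀) = |y| / |x| := by
    rw [Real.exp_neg, he, inv_div]
  have h1 : x ^ 2 = |x * y| * Real.exp t₀ := by
    rw [he, abs_mul, ← sq_abs x]; field_simp
  have h2 : y ^ 2 = |x * y| * Real.exp (-t₀) := by
    rw [he', abs_mul, ← sq_abs y]; field_simp
  have h3 : x ^ 2 * Real.exp (-t) + y ^ 2 * Real.exp t - 2 * |x * y| =
      |x * y| * (2 * Real.cosh (t - t₀) - 2) := by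
    rw [h1, h2, Real.cosh_eq]
    have e1 : Real.exp (t - t₀) = Real.exp (-t₀) * Real.exp t := by
      rw [← Real.exp_add]; congr 1; ring
    have e2 : Real.exp (-(t - t₀)) = Real.exp t₀ * Real.exp (-t) := by
      rw [← Real.exp_add]; congr 1; ring
    rw [e1, e2]
    ring
  rw [h3]
  have h4 := A8_cosh (t - t₀)
  calc (t - t₀) ^ 2 / (N : ℝ) ^ 2 = 1 / (N : ℝ) ^ 2 * (t - t₀) ^ 2 := by ring
    _ ≤ |x * y| * (2 * Real.cosh (t - t₀) - 2) := by
        apply mul_le_mul hxy (by linarith) (sq_nonneg _) (abs_nonneg _)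

theorem A9_pow {k : ℕ} (hk : 4 ≤ k) {a b x : ℝ} (ha : 0 ≤ a) (hb : 0 ≤ b) (hx : 1 + a + b ≤ x) :
    x ^ (-(k : ℝ) / 2) ≤ (1 + k / 4 * a)⁻¹ * (1 + k / 4 * b)⁻¹ := by
  have hk' : (4 : ℝ) ≤ k := by exact_mod_cast hk
  have hx0 : 0 < x := by linarith
  have h1 : x ^ (-(k : ℝ) / 2) = ((x ^ 2) ^ ((k : ℝ) / 4))⁻¹ := by
    rw [← Real.rpow_natCast x 2, ← Real.rpow_mul hx0.le, ← Real.rpow_neg hx0.le]
    congr 1
    push_cast
    ring
  rw [h1, ← mul_inv]
  apply inv_anti₀ (by positivity)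
  have h2 : (1 + a) * (1 + b) ≤ x ^ 2 := by nlinarith [mul_nonneg ha hb]
  calc (1 + (k : ℝ) / 4 * a) * (1 + k / 4 * b) ≤ (1 + a) ^ ((k : ℝ) / 4) * (1 + b) ^ ((k : ℝ) / 4) := by
        apply mul_le_mul
        · exact one_add_mul_self_le_rpow_one_add (by linarith) (by linarith)
        · exact one_add_mul_self_le_rpow_one_add (by linarith) (by linarith)
        · positivity
        · positivity
    _ = ((1 + a) * (1 + b)) ^ ((k : ℝ) / 4) := by
        rw [Real.mul_rpow (by positivity) (by positivity)]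
    _ ≤ (x ^ 2) ^ ((k : ℝ) / 4) := by
        apply Real.rpow_le_rpow (by positivity) h2 (by positivity)

/-- centre of the first kernel -/
noncomputable def A9s (β β' : ℝ) (g : SL(2, ℤ)) : ℝ :=
  Real.log (|gX g β β'| / |((g 1 0 : ℤ) : ℝ)|)

/-- centre of the second kernel -/
noncomputable def A9t (β β' : ℝ) (g : SL(2, ℤ)) : ℝ := Real.log (|gq g β| / |gp g β'|)

theorem A9_S {N : ℕ} (hN : 0 < N) {β β' : ℚ} {P P' : ℤ} (hβ : (β : ℝ) * N = P)
    (hβ' : (β' : ℝ) * N = P') {g : SL(2, ℤ)} (hg : A9S β β' g) {k : ℕ} (hk : 4 ≤ k) (u u' : ℝ) :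
    ENNReal.ofReal (ch (g • vz β u) (vz β' u') ^ (-(k : ℝ) / 2)) ≤
      A8K (k / (16 * (N : ℝ) ^ 2)) (u + u' - A9s β β' g) *
        A8K (k / (16 * (N : ℝ) ^ 2)) (u - u' - A9t β β' g) := by
  obtain ⟨h1, h2⟩ := hg
  have hpq := pq_cX g β β'
  obtain ⟨⟨m1, hm1⟩, ⟨m2, hm2⟩, ⟨m3, hm3⟩⟩ := A9_int hβ hβ' g
  rw [ch_formula]
  unfold A9s A9t
  set X := gX g β β' with hXd
  set p := gp g β' with hpd
  set q := gq g β with hqd
  set c : ℝ := ((g 1 0 : ℤ) : ℝ) with hcdef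
  have hX0 : X ≠ 0 := by
    intro h; rw [h] at h2; simp at h2
  have hc0 : c ≠ 0 := by
    intro h; rw [h] at h2; simp at h2
  have hp0 : p ≠ 0 := by
    intro h; rw [h] at h1; simp at h1
  have hq0 : q ≠ 0 := by
    intro h; rw [h] at h1; simp at h1
  have hcX1 : 1 / (N : ℝ) ^ 2 ≤ |X * c| := by
    refine A9_sep (m := m1 * g 1 0) hN ?_ (mul_ne_zero hX0 hc0)
    push_cast
    rw [← hm1, hcdef]; ring
  have hpq1 : 1 / (N : ℝ) ^ 2 ≤ |q * p| := by
    refine A9_sep (m := m2 * m3) hN ?_ (mul_ne_zero hq0 hp0)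
    push_cast
    rw [← hm2, ← hm3]; ring
  have k1 := A9_quad hN hX0 hc0 hcX1 (u + u')
  have k2 := A9_quad hN hq0 hp0 hpq1 (u - u')
  rw [mul_comm X c, abs_of_neg h2] at k1
  rw [mul_comm q p, abs_of_pos h1, neg_sub] at k2
  have hN0 : (0 : ℝ) < N := by exact_mod_cast hN
  have hx : 1 + (u + u' - Real.log (|X| / |c|)) ^ 2 / (4 * (N : ℝ) ^ 2) +
      (u - u' - Real.log (|q| / |p|)) ^ 2 / (4 * (N : ℝ) ^ 2) ≤
      (X ^ 2 * Real.exp (-(u + u')) + c ^ 2 * Real.exp (u + u') + p ^ 2 * Real.exp (u - u') +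
        q ^ 2 * Real.exp (u' - u) + 2) / 4 := by
    have e1 : ∀ z : ℝ, z / (4 * (N : ℝ) ^ 2) = (z / (N : ℝ) ^ 2) / 4 := by
      intro z; field_simp
    rw [e1, e1]
    linarith
  have hfin := A9_pow hk (by positivity) (by positivity) hx
  unfold A8K
  rw [← ENNReal.ofReal_mul (by positivity)]
  apply ENNReal.ofReal_le_ofReal
  refine hfin.trans (le_of_eq ?_)
  congr 3
  · field_simp; ring
  · field_simp; ring

theorem A9_int2 {κ : ℝ} (hκ : 0 < κ) (σ₀ s₀ : ℝ) :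
    ∫⁻ u : ℝ, ∫⁻ u' : ℝ, A8K κ (u + u' - σ₀) * A8K κ (u - u' - s₀) =
      ENNReal.ofReal (Real.pi ^ 2 / (2 * κ)) := by
  have hK := A8K_meas κ
  have h1 : ∀ u : ℝ, ∫⁻ u' : ℝ, A8K κ (u + u' - σ₀) * A8K κ (u - u' - s₀) =
      ∫⁻ t : ℝ, A8K κ t * A8K κ (2 * u - t - σ₀ - s₀) := by
    intro u
    rw [← lintegral_add_right_eq_self (fun t => A8K κ t * A8K κ (2 * u - t - σ₀ - s₀)) (u - σ₀)]
    refine lintegral_congr fun u' => ?_
    congr 2
    · ring
    · ring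
  simp only [h1]
  rw [lintegral_lintegral_swap]
  · have h2 : ∀ t : ℝ, ∫⁻ u : ℝ, A8K κ t * A8K κ (2 * u - t - σ₀ - s₀) =
        A8K κ t * ENNReal.ofReal (Real.pi / Real.sqrt (4 * κ)) := by
      intro t
      rw [lintegral_const_mul]
      · congr 1
        rw [← A8K_lint (κ := 4 * κ) (by positivity),
          ← lintegral_add_right_eq_self (A8K (4 * κ)) (-(t + σ₀ + s₀) / 2)]
        refine lintegral_congr fun u => ?_
        unfold A8K
        congr 3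
        ring
      · apply hK.comp
        fun_prop
    simp only [h2]
    rw [lintegral_mul_const _ hK, A8K_lint hκ, ← ENNReal.ofReal_mul (by positivity)]
    congr 1
    have e1 : Real.sqrt (4 * κ) = 2 * Real.sqrt κ := by
      rw [Real.sqrt_mul (by norm_num)]
      congr 1
      rw [show (4 : ℝ) = 2 ^ 2 by norm_num, Real.sqrt_sq (by norm_num)]
    have hs : 0 < Real.sqrt κ := Real.sqrt_pos.2 hκ
    rw [e1]
    have hsq : Real.sqrt κ ^ 2 = κ := Real.sq_sqrt hκ.le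
    rw [← hsq]
    field_simp
    rw [Real.sqrt_sq hs.le]
  · apply Measurable.aemeasurable
    change Measurable (fun p : ℝ × ℝ => A8K κ p.2 * A8K κ (2 * p.1 - p.2 - σ₀ - s₀))
    exact (hK.comp measurable_snd).mul (hK.comp (by fun_prop))

theorem nonmain (β β' : ℚ) (V : ℝ) : ∃ (C : ℝ) (k₀ : ℕ), ∀ k : ℕ, k₀ ≤ k →
    ∫⁻ u in Set.Icc (-V) V, ∫⁻ u' in Set.Icc (-V) V,
      ∑' g : {g : SL(2, ℤ) // ¬ MainI (β : ℝ) (β' : ℝ) g ∧ ¬ MainR (β : ℝ) (β' : ℝ) g},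
        ENNReal.ofReal (ch (g.1 • vz β u) (vz β' u') ^ (-(k : ℝ) / 2)) ≤
      ENNReal.ofReal (C / k) := by
  classical
  obtain ⟨C₀, hC₀⟩ := ch_sum (β : ℝ) (β' : ℝ) V
  -- the common denominator
  set N : ℕ := β.den * β'.den with hNdef
  have hN : 0 < N := Nat.mul_pos β.den_pos β'.den_pos
  have hβ : (β : ℝ) * N = ((β.num * β'.den : ℤ) : ℝ) := by
    rw [hNdef]
    have h0 : (β.den : ℝ) ≠ 0 := by exact_mod_cast β.den_ne_zero
    have h1 : (β : ℝ) * β.den = β.num := by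
      have := Rat.mul_den_eq_num β
      exact_mod_cast this
    push_cast
    rw [← h1]; ring
  have hβ' : (β' : ℝ) * N = ((β'.num * β.den : ℤ) : ℝ) := by
    rw [hNdef]
    have h1 : (β' : ℝ) * β'.den = β'.num := by
      have := Rat.mul_den_eq_num β'
      exact_mod_cast this
    push_cast
    rw [← h1]; ring
  have hSfin := A9_fin hN hβ hβ'
  set η : ℝ := Real.exp (-2 * V) / (4 * (N : ℝ) ^ 4) with hη
  have hN0 : (0 : ℝ) < N := by exact_mod_cast hN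
  have hη0 : 0 < η := by positivity
  set S : Finset SL(2, ℤ) := hSfin.toFinset with hS
  refine ⟨(2 * V) ^ 2 * |C₀| * ((1 + η) ^ 4 * (2 / η)) +
    S.card * (8 * Real.pi ^ 2 * (N : ℝ) ^ 2), 8, ?_⟩
  intro k hk
  have hk' : (8 : ℝ) ≤ k := by exact_mod_cast hk
  have hk0 : (0 : ℝ) < k := by linarith
  set κ : ℝ := k / (16 * (N : ℝ) ^ 2) with hκ
  have hκ0 : 0 < κ := by positivity
  set D : ℝ := (1 + η) ^ (-((k : ℝ) / 2 - 4)) with hD
  have hD0 : 0 < D := by positivity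
  -- the kernels
  let G : SL(2, ℤ) → ℝ → ℝ → ℝ≥0∞ := fun g u u' =>
    A8K κ (u + u' - A9s β β' g) * A8K κ (u - u' - A9t β β' g)
  have hGm : ∀ g, Measurable (Function.uncurry (G g)) := by
    intro g
    change Measurable (fun p : ℝ × ℝ => A8K κ (p.1 + p.2 - A9s β β' g) *
      A8K κ (p.1 - p.2 - A9t β β' g))
    exact ((A8K_meas κ).comp (by fun_prop)).mul ((A8K_meas κ).comp (by fun_prop))
  have hpt : ∀ u ∈ Set.Icc (-V) V, ∀ u' ∈ Set.Icc (-V) V,
      ∑' g : {g : SL(2, ℤ) // ¬ MainI (β : ℝ) (β' : ℝ) g ∧ ¬ MainR (β : ℝ) (β' : ℝ) g},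
        ENNReal.ofReal (ch (g.1 • vz β u) (vz β' u') ^ (-(k : ℝ) / 2)) ≤
      ENNReal.ofReal (D * |C₀|) + ∑ g ∈ S, G g u u' := by
    intro u hu u' hu'
    let F1 : SL(2, ℤ) → ℝ≥0∞ := fun g =>
      ENNReal.ofReal D * ENNReal.ofReal (ch (g • vz β u) (vz β' u') ^ (-(4 : ℝ)))
    let F2 : SL(2, ℤ) → ℝ≥0∞ := fun g => if g ∈ S then G g u u' else 0
    have hle : ∀ g : {g : SL(2, ℤ) // ¬ MainI (β : ℝ) (β' : ℝ) g ∧ ¬ MainR (β : ℝ) (β' : ℝ) g},
        ENNReal.ofReal (ch (g.1 • vz β u) (vz β' u') ^ (-(k : ℝ) / 2)) ≤ F1 g.1 + F2 g.1 := by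
      intro ⟨g, hg1, hg2⟩
      by_cases hgS : A9S β β' g
      · have hmem : g ∈ S := by
          rw [hS, Set.Finite.mem_toFinset]; exact hgS
        simp only [F2, if_pos hmem]
        refine le_trans ?_ le_add_self
        exact A9_S hN hβ hβ' hgS (by omega) u u'
      · refine le_trans ?_ le_self_add
        obtain ⟨i1, i2, i3⟩ := A9_int hβ hβ' g
        have hch := A9_ch hN i1 i2 i3 hu hu' hg1 hg2 hgS
        rw [← hη] at hch
        have hchpos : 0 < ch (g • vz β u) (vz β' u') := by linarith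
        simp only [F1]
        rw [← ENNReal.ofReal_mul hD0.le]
        apply ENNReal.ofReal_le_ofReal
        have e1 : ch (g • vz β u) (vz β' u') ^ (-(k : ℝ) / 2) =
            ch (g • vz β u) (vz β' u') ^ (-((k : ℝ) / 2 - 4)) *
              ch (g • vz β u) (vz β' u') ^ (-(4 : ℝ)) := by
          rw [← Real.rpow_add hchpos]
          congr 1
          ring
        rw [e1]
        apply mul_le_mul_of_nonneg_right _ (by positivity)
        exact Real.rpow_le_rpow_of_nonpos (by positivity) hch (by linarith)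
    calc ∑' g : {g : SL(2, ℤ) // ¬ MainI (β : ℝ) (β' : ℝ) g ∧ ¬ MainR (β : ℝ) (β' : ℝ) g},
          ENNReal.ofReal (ch (g.1 • vz β u) (vz β' u') ^ (-(k : ℝ) / 2))
        ≤ ∑' g : {g : SL(2, ℤ) // ¬ MainI (β : ℝ) (β' : ℝ) g ∧ ¬ MainR (β : ℝ) (β' : ℝ) g},
          (fun g => F1 g + F2 g) g.1 := ENNReal.tsum_le_tsum hle
      _ ≤ ∑' g : SL(2, ℤ), (F1 g + F2 g) :=
          ENNReal.tsum_comp_le_tsum_of_injective Subtype.val_injective _
      _ = ∑' g : SL(2, ℤ), F1 g + ∑' g : SL(2, ℤ), F2 g := ENNReal.tsum_add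
      _ ≤ ENNReal.ofReal (D * |C₀|) + ∑ g ∈ S, G g u u' := by
          gcongr
          · simp only [F1]
            rw [ENNReal.tsum_mul_left, ENNReal.ofReal_mul hD0.le]
            gcongr
            exact (hC₀ u hu u' hu').trans (ENNReal.ofReal_le_ofReal (le_abs_self _))
          · rw [tsum_eq_sum (s := S)]
            · apply Finset.sum_le_sum
              intro g hg
              simp only [F2, if_pos hg]
              exact le_rfl
            · intro g hg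
              simp only [F2, if_neg hg]
  -- integrate
  have hvol : volume (Set.Icc (-V) V) = ENNReal.ofReal (2 * V) := by
    rw [Real.volume_Icc]
    congr 1
    ring
  have hGi : ∀ g, ∫⁻ u : ℝ, ∫⁻ u' : ℝ, G g u u' =
      ENNReal.ofReal (8 * Real.pi ^ 2 * (N : ℝ) ^ 2 / k) := by
    intro g
    have := A9_int2 hκ0 (A9s β β' g) (A9t β β' g)
    simp only [G]
    rw [this]
    congr 1
    rw [hκ]
    field_simp
    ring
  calc ∫⁻ u in Set.Icc (-V) V, ∫⁻ u' in Set.Icc (-V) V,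
      ∑' g : {g : SL(2, ℤ) // ¬ MainI (β : ℝ) (β' : ℝ) g ∧ ¬ MainR (β : ℝ) (β' : ℝ) g},
        ENNReal.ofReal (ch (g.1 • vz β u) (vz β' u') ^ (-(k : ℝ) / 2))
      ≤ ∫⁻ u in Set.Icc (-V) V, ∫⁻ u' in Set.Icc (-V) V,
          (ENNReal.ofReal (D * |C₀|) + ∑ g ∈ S, G g u u') := by
        refine setLIntegral_mono' measurableSet_Icc fun u hu => ?_
        exact setLIntegral_mono' measurableSet_Icc fun u' hu' => hpt u hu u' hu'
    _ = ∫⁻ u in Set.Icc (-V) V, (ENNReal.ofReal (D * |C₀|) * ENNReal.ofReal (2 * V) +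
          ∫⁻ u' in Set.Icc (-V) V, ∑ g ∈ S, G g u u') := by
        refine lintegral_congr fun u => ?_
        rw [lintegral_add_left measurable_const, setLIntegral_const, hvol]
    _ = ENNReal.ofReal (D * |C₀|) * ENNReal.ofReal (2 * V) * ENNReal.ofReal (2 * V) +
          ∫⁻ u in Set.Icc (-V) V, ∫⁻ u' in Set.Icc (-V) V, ∑ g ∈ S, G g u u' := by
        rw [lintegral_add_left measurable_const, setLIntegral_const, hvol]
    _ ≤ ENNReal.ofReal (D * |C₀|) * ENNReal.ofReal (2 * V) * ENNReal.ofReal (2 * V) +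
          ∫⁻ u : ℝ, ∫⁻ u' : ℝ, ∑ g ∈ S, G g u u' := by
        refine add_le_add le_rfl ?_
        refine (setLIntegral_le_lintegral _ _).trans ?_
        exact lintegral_mono fun u => setLIntegral_le_lintegral _ _
    _ = ENNReal.ofReal (D * |C₀|) * ENNReal.ofReal (2 * V) * ENNReal.ofReal (2 * V) +
          ∑ g ∈ S, ∫⁻ u : ℝ, ∫⁻ u' : ℝ, G g u u' := by
        congr 1
        rw [← lintegral_finsetSum]
        · refine lintegral_congr fun u => ?_
          rw [lintegral_finsetSum]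
          intro g _
          exact (hGm g).of_uncurry_left
        · intro g _
          exact (hGm g).lintegral_prod_right'
    _ = ENNReal.ofReal (D * |C₀|) * ENNReal.ofReal (2 * V) * ENNReal.ofReal (2 * V) +
          (S.card : ℝ≥0∞) * ENNReal.ofReal (8 * Real.pi ^ 2 * (N : ℝ) ^ 2 / k) := by
        simp only [hGi, Finset.sum_const, nsmul_eq_mul]
    _ ≤ ENNReal.ofReal (((2 * V) ^ 2 * |C₀| * ((1 + η) ^ 4 * (2 / η)) +
          S.card * (8 * Real.pi ^ 2 * (N : ℝ) ^ 2)) / k) := by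
        rw [add_div, ENNReal.ofReal_add (by positivity) (by positivity)]
        gcongr
        · rcases lt_or_ge V 0 with hV | hV
          · have : ENNReal.ofReal (2 * V) = 0 := ENNReal.ofReal_of_nonpos (by linarith)
            rw [this]
            simp
          · rw [mul_assoc, ← ENNReal.ofReal_mul (by positivity), ← ENNReal.ofReal_mul (by positivity)]
            apply ENNReal.ofReal_le_ofReal
            have hDb : D ≤ (1 + η) ^ 4 * (2 / η) / k := by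
              have e1 : D = (1 + η) ^ 4 * ((1 + η) ^ ((k : ℝ) / 2))⁻¹ := by
                rw [hD, ← Real.rpow_natCast (1 + η) 4, ← Real.rpow_neg (by positivity),
                  ← Real.rpow_add (by positivity)]
                congr 1
                push_cast
                ring
              have e2 : 1 + (k : ℝ) / 2 * η ≤ (1 + η) ^ ((k : ℝ) / 2) :=
                one_add_mul_self_le_rpow_one_add (by linarith) (by linarith)
              have e3 : (k : ℝ) / 2 * η ≤ (1 + η) ^ ((k : ℝ) / 2) := by linarith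
              have e4 : ((1 + η) ^ ((k : ℝ) / 2))⁻¹ ≤ ((k : ℝ) / 2 * η)⁻¹ :=
                inv_anti₀ (by positivity) e3
              calc D = (1 + η) ^ 4 * ((1 + η) ^ ((k : ℝ) / 2))⁻¹ := e1
                _ ≤ (1 + η) ^ 4 * ((k : ℝ) / 2 * η)⁻¹ := by gcongr
                _ = (1 + η) ^ 4 * (2 / η) / k := by field_simp
            calc D * |C₀| * (2 * V * (2 * V)) ≤
                  ((1 + η) ^ 4 * (2 / η) / k) * |C₀| * (2 * V * (2 * V)) := by gcongr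
              _ = (2 * V) ^ 2 * |C₀| * ((1 + η) ^ 4 * (2 / η)) / k := by ring
        · have e5 : (S.card : ℝ) * (8 * Real.pi ^ 2 * (N : ℝ) ^ 2) / k =
              (S.card : ℝ) * (8 * Real.pi ^ 2 * (N : ℝ) ^ 2 / k) := by ring
          rw [e5, ENNReal.ofReal_mul (by positivity), ENNReal.ofReal_natCast]

end Pool.Agent.WA
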