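import Pool.Agent.Lib_helper98.WAF.A9

/-! Block A10 (LIM) of the weight aspect theorem (helper37). -/

namespace Pool.Agent.WA

open Complex MeasureTheory Filter Topology UpperHalfPlane ModularGroup
open scoped MatrixGroups Modular ENNReal
open Pool.Agent.GL2 (qs HData am dens hatw Ep Mol xt FD IsCompletedL oddZ)

instance A10_countable : Countable SL(2, ℤ) := by
  have : Countable (Matrix (Fin 2) (Fin 2) ℤ) := inferInstanceAs (Countable (Fin 2 → Fin 2 → ℤ))
  exact inferInstanceAs (Countable {A : Matrix (Fin 2) (Fin 2) ℤ // A.det = 1})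

/-- the kernel -/
noncomputable def A10_K (k : ℕ) (β β' : ℝ) (g : SL(2, ℤ)) (u u' : ℝ) : ℝ≥0∞ :=
  ENNReal.ofReal (ch (g • vz β u) (vz β' u') ^ (-(k : ℝ) / 2))

theorem A10_K_meas (k : ℕ) (β β' : ℝ) (g : SL(2, ℤ)) :
    Measurable (fun p : ℝ × ℝ => A10_K k β β' g p.1 p.2) := by
  unfold A10_K
  simp_rw [ch_formula]
  apply Measurable.ennreal_ofReal
  apply Measurable.pow_const
  fun_prop

theorem A10_sum_meas (k : ℕ) (β β' : ℝ) (P : SL(2, ℤ) → Prop) :
    Measurable (fun p : ℝ × ℝ => ∑' g : {g : SL(2, ℤ) // P g}, A10_K k β β' g.1 p.1 p.2) :=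
  Measurable.ennreal_tsum (fun g => A10_K_meas k β β' g.1)

/-- splitting of a sum into three parts -/
theorem A10_tsum (P Q : SL(2, ℤ) → Prop) (f : SL(2, ℤ) → ℝ≥0∞) :
    ∑' g, f g ≤ ∑' g : {g // P g}, f g.1 + ∑' g : {g // Q g}, f g.1 +
      ∑' g : {g // ¬ P g ∧ ¬ Q g}, f g.1 := by
  have h1 : ∑' g : {g // P g}, f g.1 = ∑' g, {g | P g}.indicator f g := tsum_subtype {g | P g} f
  have h2 : ∑' g : {g // Q g}, f g.1 = ∑' g, {g | Q g}.indicator f g := tsum_subtype {g | Q g} f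
  have h3 : ∑' g : {g // ¬ P g ∧ ¬ Q g}, f g.1 = ∑' g, {g | ¬ P g ∧ ¬ Q g}.indicator f g :=
    tsum_subtype {g | ¬ P g ∧ ¬ Q g} f
  rw [h1, h2, h3, ← ENNReal.tsum_add, ← ENNReal.tsum_add]
  apply ENNReal.tsum_le_tsum
  intro g
  by_cases hP : P g
  · rw [Set.indicator_of_mem (s := {g | P g}) hP]
    exact le_self_add.trans le_self_add
  · by_cases hQ : Q g
    · rw [Set.indicator_of_mem (s := {g | Q g}) hQ]
      exact le_add_self.trans le_self_add
    · rw [Set.indicator_of_mem (s := {g | ¬ P g ∧ ¬ Q g}) (by exact ⟨hP, hQ⟩)]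
      exact le_add_self

theorem A10_add3 {F G H : ℝ × ℝ → ℝ≥0∞} (hF : Measurable F) (hG : Measurable G) :
    ∫⁻ u : ℝ, ∫⁻ u' : ℝ, (F (u, u') + G (u, u') + H (u, u')) =
      (∫⁻ u : ℝ, ∫⁻ u' : ℝ, F (u, u')) + (∫⁻ u : ℝ, ∫⁻ u' : ℝ, G (u, u')) +
        ∫⁻ u : ℝ, ∫⁻ u' : ℝ, H (u, u') := by
  have h1 : ∀ u : ℝ, ∫⁻ u' : ℝ, (F (u, u') + G (u, u') + H (u, u')) =
      (∫⁻ u' : ℝ, F (u, u')) + (∫⁻ u' : ℝ, G (u, u')) + ∫⁻ u' : ℝ, H (u, u') := by
    intro u
    rw [lintegral_add_left, lintegral_add_left]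
    · exact hF.comp measurable_prodMk_left
    · exact (hF.comp measurable_prodMk_left).add (hG.comp measurable_prodMk_left)
  simp_rw [h1]
  rw [lintegral_add_left, lintegral_add_left]
  · exact hF.lintegral_prod_right'
  · exact hF.lintegral_prod_right'.add hG.lintegral_prod_right'

/-- one pair of geodesics -/
theorem A10_pair {J : Type} (β β' : ℚ) (V : ℝ) (C : ℝ) (k : ℕ)
    (hC : ∫⁻ u in Set.Icc (-V) V, ∫⁻ u' in Set.Icc (-V) V,
      ∑' g : {g : SL(2, ℤ) // ¬ MainI (β : ℝ) (β' : ℝ) g ∧ ¬ MainR (β : ℝ) (β' : ℝ) g},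
        ENNReal.ofReal (ch (g.1 • vz β u) (vz β' u') ^ (-(k : ℝ) / 2)) ≤
      ENNReal.ofReal (C / k)) (hk : 1 ≤ k) {Ψ : J → ℝ → ℂ} {M : ℝ} (hΨ : PsiB Ψ M V) (j j' : J) :
    ∫⁻ u : ℝ, ∫⁻ u' : ℝ, ‖Ψ j u‖ₑ * ‖Ψ j' u'‖ₑ *
      ∑' g : SL(2, ℤ), ENNReal.ofReal (ch (g • vz β u) (vz β' u') ^ (-(k : ℝ) / 2)) ≤
    (open Classical in (if ∃ g, MainI (β : ℝ) (β' : ℝ) g then ENNReal.ofReal (9 / Real.sqrt k) *
      ((∫⁻ u, ‖Ψ j u‖ₑ ^ 2) + ∫⁻ u, ‖Ψ j' u‖ₑ ^ 2) else 0)) +
    (open Classical in (if ∃ g, MainR (β : ℝ) (β' : ℝ) g then ENNReal.ofReal (9 / Real.sqrt k) *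
      ((∫⁻ u, ‖Ψ j u‖ₑ ^ 2) + ∫⁻ u, ‖Ψ j' u‖ₑ ^ 2) else 0)) +
    ENNReal.ofReal M * ENNReal.ofReal M * ENNReal.ofReal (C / k) := by
  have m1 : Measurable (fun u => ‖Ψ j u‖ₑ) := (hΨ.meas j).enorm
  have m2 : Measurable (fun u => ‖Ψ j' u‖ₑ) := (hΨ.meas j').enorm
  have m12 : Measurable (fun p : ℝ × ℝ => ‖Ψ j p.1‖ₑ * ‖Ψ j' p.2‖ₑ) :=
    (m1.comp measurable_fst).mul (m2.comp measurable_snd)
  have b1 : ∀ (i : J) (u : ℝ), ‖Ψ i u‖ₑ ≤
      (Set.Icc (-V) V).indicator (fun _ => ENNReal.ofReal M) u := by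
    intro i u
    by_cases hu : u ∈ Set.Icc (-V) V
    · rw [Set.indicator_of_mem hu, ← ofReal_norm]
      exact ENNReal.ofReal_le_ofReal (hΨ.bdd i u)
    · rw [Set.indicator_of_notMem hu, hΨ.supp i u hu, enorm_zero]
  have hmI : Measurable (fun p : ℝ × ℝ => ‖Ψ j p.1‖ₑ * ‖Ψ j' p.2‖ₑ *
      ∑' g : {g : SL(2, ℤ) // MainI (β : ℝ) (β' : ℝ) g}, A10_K k β β' g.1 p.1 p.2) :=
    m12.mul (A10_sum_meas k β β' _)
  have hmR : Measurable (fun p : ℝ × ℝ => ‖Ψ j p.1‖ₑ * ‖Ψ j' p.2‖ₑ *
      ∑' g : {g : SL(2, ℤ) // MainR (β : ℝ) (β' : ℝ) g}, A10_K k β β' g.1 p.1 p.2) :=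
    m12.mul (A10_sum_meas k β β' _)
  calc _ ≤ ∫⁻ u : ℝ, ∫⁻ u' : ℝ,
        (‖Ψ j u‖ₑ * ‖Ψ j' u'‖ₑ *
          ∑' g : {g : SL(2, ℤ) // MainI (β : ℝ) (β' : ℝ) g}, A10_K k β β' g.1 u u' +
        ‖Ψ j u‖ₑ * ‖Ψ j' u'‖ₑ *
          ∑' g : {g : SL(2, ℤ) // MainR (β : ℝ) (β' : ℝ) g}, A10_K k β β' g.1 u u' +
        ‖Ψ j u‖ₑ * ‖Ψ j' u'‖ₑ *
          ∑' g : {g : SL(2, ℤ) // ¬ MainI (β : ℝ) (β' : ℝ) g ∧ ¬ MainR (β : ℝ) (β' : ℝ) g},
            A10_K k β β' g.1 u u') := by
        apply lintegral_mono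
        intro u
        apply lintegral_mono
        intro u'
        simp only
        rw [← mul_add, ← mul_add]
        gcongr
        exact A10_tsum (MainI (β : ℝ) (β' : ℝ)) (MainR (β : ℝ) (β' : ℝ))
          (fun g => A10_K k β β' g u u')
    _ = _ := A10_add3 (F := fun p : ℝ × ℝ => ‖Ψ j p.1‖ₑ * ‖Ψ j' p.2‖ₑ *
          ∑' g : {g : SL(2, ℤ) // MainI (β : ℝ) (β' : ℝ) g}, A10_K k β β' g.1 p.1 p.2)
          (G := fun p : ℝ × ℝ => ‖Ψ j p.1‖ₑ * ‖Ψ j' p.2‖ₑ *
          ∑' g : {g : SL(2, ℤ) // MainR (β : ℝ) (β' : ℝ) g}, A10_K k β β' g.1 p.1 p.2)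
          (H := fun p : ℝ × ℝ => ‖Ψ j p.1‖ₑ * ‖Ψ j' p.2‖ₑ *
          ∑' g : {g : SL(2, ℤ) // ¬ MainI (β : ℝ) (β' : ℝ) g ∧ ¬ MainR (β : ℝ) (β' : ℝ) g},
            A10_K k β β' g.1 p.1 p.2) hmI hmR
    _ ≤ _ := by
        refine add_le_add (add_le_add ?_ ?_) ?_
        · split_ifs with hI
          · exact mainI_bound (β : ℝ) (β' : ℝ) hk m1 m2
          · have : IsEmpty {g : SL(2, ℤ) // MainI (β : ℝ) (β' : ℝ) g} :=
              ⟨fun g => hI ⟨g.1, g.2⟩⟩
            simp
        · split_ifs with hR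
          · exact mainR_bound (β : ℝ) (β' : ℝ) hk m1 m2
          · have : IsEmpty {g : SL(2, ℤ) // MainR (β : ℝ) (β' : ℝ) g} :=
              ⟨fun g => hR ⟨g.1, g.2⟩⟩
            simp
        · calc _ ≤ ∫⁻ u : ℝ, ∫⁻ u' : ℝ, (Set.Icc (-V) V).indicator (fun _ => ENNReal.ofReal M) u *
                (Set.Icc (-V) V).indicator (fun _ => ENNReal.ofReal M) u' *
                ∑' g : {g : SL(2, ℤ) // ¬ MainI (β : ℝ) (β' : ℝ) g ∧ ¬ MainR (β : ℝ) (β' : ℝ) g},
                  A10_K k β β' g.1 u u' := by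
                apply lintegral_mono
                intro u
                apply lintegral_mono
                intro u'
                simp only
                gcongr
                · exact b1 j u
                · exact b1 j' u'
            _ = ∫⁻ u : ℝ, (Set.Icc (-V) V).indicator (fun u => ENNReal.ofReal M *
                (ENNReal.ofReal M * ∫⁻ u' in Set.Icc (-V) V,
                ∑' g : {g : SL(2, ℤ) // ¬ MainI (β : ℝ) (β' : ℝ) g ∧ ¬ MainR (β : ℝ) (β' : ℝ) g},
                  A10_K k β β' g.1 u u')) u := by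
                apply lintegral_congr
                intro u
                by_cases hu : u ∈ Set.Icc (-V) V
                · rw [Set.indicator_of_mem hu, Set.indicator_of_mem hu,
                    ← lintegral_const_mul' _ _ ENNReal.ofReal_ne_top,
                    ← lintegral_const_mul' _ _ ENNReal.ofReal_ne_top,
                    ← lintegral_indicator measurableSet_Icc]
                  apply lintegral_congr
                  intro u'
                  by_cases hu' : u' ∈ Set.Icc (-V) V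
                  · rw [Set.indicator_of_mem hu', Set.indicator_of_mem hu', mul_assoc]
                  · rw [Set.indicator_of_notMem hu', Set.indicator_of_notMem hu', mul_zero,
                      zero_mul]
                · rw [Set.indicator_of_notMem hu, Set.indicator_of_notMem hu]
                  simp
            _ = ENNReal.ofReal M * ENNReal.ofReal M * ∫⁻ u in Set.Icc (-V) V,
                ∫⁻ u' in Set.Icc (-V) V,
                ∑' g : {g : SL(2, ℤ) // ¬ MainI (β : ℝ) (β' : ℝ) g ∧ ¬ MainR (β : ℝ) (β' : ℝ) g},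
                  A10_K k β β' g.1 u u' := by
                rw [lintegral_indicator measurableSet_Icc,
                  lintegral_const_mul' _ _ ENNReal.ofReal_ne_top,
                  lintegral_const_mul' _ _ ENNReal.ofReal_ne_top, mul_assoc]
            _ ≤ _ := by
                gcongr
                exact hC

theorem A10_sq {Ψ : ℝ → ℂ} {M V : ℝ} (h1 : Measurable Ψ) (h2 : ∀ u, ‖Ψ u‖ ≤ M)
    (h3 : ∀ u, u ∉ Set.Icc (-V) V → Ψ u = 0) :
    ∫⁻ u, ‖Ψ u‖ₑ ^ 2 = ENNReal.ofReal (∫ u, ‖Ψ u‖ ^ 2) := by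
  have hint : Integrable (fun u => ‖Ψ u‖ ^ 2) := by
    have h4 : Integrable ((Set.Icc (-V) V).indicator (fun _ : ℝ => M ^ 2)) := by
      rw [integrable_indicator_iff measurableSet_Icc]
      exact integrableOn_const (by simp)
    apply h4.mono' (h1.norm.pow_const 2).aestronglyMeasurable
    apply Eventually.of_forall
    intro u
    rw [Real.norm_of_nonneg (by positivity)]
    by_cases hu : u ∈ Set.Icc (-V) V
    · rw [Set.indicator_of_mem hu]
      exact pow_le_pow_left₀ (norm_nonneg _) (h2 u) 2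
    · rw [Set.indicator_of_notMem hu, h3 u hu]
      simp
  rw [ofReal_integral_eq_lintegral_ofReal hint (Eventually.of_forall (fun u => by positivity))]
  apply lintegral_congr
  intro u
  rw [← ofReal_norm, ENNReal.ofReal_pow (norm_nonneg _)]

theorem ks_lim {J : Type} [Fintype J] (β : J → ℚ)
    (hβ : ∀ i j, i ≠ j → ∀ n : ℤ, β i - β j ≠ n) (M V δ : ℝ) (hδ : 0 < δ) :
    ∃ k₀ : ℕ, ∀ k : ℕ, k₀ ≤ k → ∀ Ψ : J → ℝ → ℂ, PsiB Ψ M V →
      KS k (fun j => (β j : ℝ)) Ψ ≤
        ENNReal.ofReal ((40 * ∑ j, (∫ u, ‖Ψ j u‖ ^ 2) + δ) / Real.sqrt k) := by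
  classical
  choose C k1 hC using fun p : J × J => nonmain (β p.1) (β p.2) V
  obtain ⟨D, hD⟩ : ∃ D : ℝ, D = ∑ p : J × J, |M| * |M| * |C p| := ⟨_, rfl⟩
  have hD0 : 0 ≤ D := by rw [hD]; positivity
  obtain ⟨k2, hk2⟩ : ∃ k2 : ℕ, (D / δ) ^ 2 ≤ (k2 : ℝ) := exists_nat_ge _
  refine ⟨max (max (∑ p, k1 p) k2) 1, ?_⟩
  intro k hk Ψ hΨ
  have hk1 : ∀ p, k1 p ≤ k := by
    intro p
    refine le_trans ?_ ((le_max_left _ _).trans ((le_max_left _ _).trans hk))
    exact Finset.single_le_sum (f := k1) (fun _ _ => Nat.zero_le _) (Finset.mem_univ p)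
  have hkk2 : k2 ≤ k := (le_max_right _ _).trans ((le_max_left _ _).trans hk)
  have hk0 : 1 ≤ k := (le_max_right _ _).trans hk
  have hkR : (0 : ℝ) < k := by exact_mod_cast hk0
  have hsk : 0 < Real.sqrt k := Real.sqrt_pos.mpr hkR
  obtain ⟨S, hS⟩ : ∃ S : J → ℝ≥0∞, S = fun j => ∫⁻ u, ‖Ψ j u‖ₑ ^ 2 := ⟨_, rfl⟩
  obtain ⟨s, hs⟩ : ∃ s : ℝ≥0∞, s = ENNReal.ofReal (9 / Real.sqrt k) := ⟨_, rfl⟩
  -- the diagonal terms
  have hI : ∑ j, ∑ j', (if ∃ g, MainI (β j : ℝ) (β j' : ℝ) g then s * (S j + S j') else 0) ≤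
      2 * (s * ∑ j, S j) := by
    calc _ ≤ ∑ j, ∑ j', (if j = j' then s * (S j + S j') else 0) := by
          apply Finset.sum_le_sum
          intro j _
          apply Finset.sum_le_sum
          intro j' _
          by_cases h : j = j'
          · rw [if_pos h]
            split_ifs
            · exact le_rfl
            · exact bot_le
          · rw [if_neg h, if_neg]
            rintro ⟨g, hg⟩
            obtain ⟨n, hn⟩ := mainI_int hg
            apply hβ j j' h n
            exact_mod_cast hn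
      _ = ∑ j, s * (S j + S j) := by
          apply Finset.sum_congr rfl
          intro j _
          rw [Finset.sum_ite_eq]
          simp
      _ = 2 * (s * ∑ j, S j) := by
          rw [Finset.mul_sum, Finset.mul_sum]
          apply Finset.sum_congr rfl
          intro j _
          ring
  -- a general counting bound
  have hcount : ∀ P : J → J → Prop, (∀ j a b, P j a → P j b → a = b) →
      ∀ f : J → ℝ≥0∞, ∀ j, ∑ j', (if P j j' then f j else 0) ≤ f j := by
    intro P hP f j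
    by_cases h : ∃ a, P j a
    · obtain ⟨a, ha⟩ := h
      calc ∑ j', (if P j j' then f j else 0) ≤ ∑ j', (if a = j' then f j else 0) := by
            apply Finset.sum_le_sum
            intro j' _
            by_cases h' : P j j'
            · rw [if_pos h', if_pos (hP j a j' ha h')]
            · rw [if_neg h']
              exact bot_le
        _ = f j := by
            rw [Finset.sum_ite_eq]
            simp
    · have : ∀ j' ∈ Finset.univ, (if P j j' then f j else 0) = 0 := by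
        intro j' _
        rw [if_neg]
        exact fun hh => h ⟨j', hh⟩
      rw [Finset.sum_eq_zero this]
      exact bot_le
  have hR : ∑ j, ∑ j', (if ∃ g, MainR (β j : ℝ) (β j' : ℝ) g then s * (S j + S j') else 0) ≤
      2 * (s * ∑ j, S j) := by
    have hr1 : ∀ j a b : J, (∃ g, MainR (β j : ℝ) (β a : ℝ) g) →
        (∃ g, MainR (β j : ℝ) (β b : ℝ) g) → a = b := by
      rintro j a b ⟨g, hg⟩ ⟨g', hg'⟩
      by_contra hab
      obtain ⟨n, hn⟩ := mainR_right hg hg'
      apply hβ a b hab n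
      exact_mod_cast hn
    have hr2 : ∀ j a b : J, (∃ g, MainR (β a : ℝ) (β j : ℝ) g) →
        (∃ g, MainR (β b : ℝ) (β j : ℝ) g) → a = b := by
      rintro j a b ⟨g, hg⟩ ⟨g', hg'⟩
      by_contra hab
      obtain ⟨n, hn⟩ := mainR_left hg hg'
      apply hβ a b hab n
      exact_mod_cast hn
    calc _ = ∑ j, ∑ j', (if ∃ g, MainR (β j : ℝ) (β j' : ℝ) g then s * S j else 0) +
          ∑ j, ∑ j', (if ∃ g, MainR (β j : ℝ) (β j' : ℝ) g then s * S j' else 0) := by
          rw [← Finset.sum_add_distrib]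
          apply Finset.sum_congr rfl
          intro j _
          rw [← Finset.sum_add_distrib]
          apply Finset.sum_congr rfl
          intro j' _
          split_ifs
          · ring
          · simp
      _ ≤ ∑ j, s * S j + ∑ j', s * S j' := by
          apply add_le_add
          · apply Finset.sum_le_sum
            intro j _
            exact hcount (fun j j' => ∃ g, MainR (β j : ℝ) (β j' : ℝ) g) hr1 (fun j => s * S j) j
          · rw [Finset.sum_comm]
            apply Finset.sum_le_sum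
            intro j' _
            exact hcount (fun j' j => ∃ g, MainR (β j : ℝ) (β j' : ℝ) g) hr2 (fun j => s * S j) j'
      _ = 2 * (s * ∑ j, S j) := by
          rw [Finset.mul_sum]
          ring
  have hSreal : ∀ j, S j = ENNReal.ofReal (∫ u, ‖Ψ j u‖ ^ 2) := by
    intro j
    rw [hS]
    exact A10_sq (hΨ.meas j) (hΨ.bdd j) (hΨ.supp j)
  have hsum : ∑ j, S j = ENNReal.ofReal (∑ j, ∫ u, ‖Ψ j u‖ ^ 2) := by
    rw [ENNReal.ofReal_sum_of_nonneg (fun j _ => integral_nonneg (fun u => by positivity))]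
    exact Finset.sum_congr rfl (fun j _ => hSreal j)
  have hT0 : 0 ≤ ∑ j, ∫ u, ‖Ψ j u‖ ^ 2 :=
    Finset.sum_nonneg (fun j _ => integral_nonneg (fun u => by positivity))
  have hrest : ∑ j, ∑ j', ENNReal.ofReal M * ENNReal.ofReal M * ENNReal.ofReal (C (j, j') / k) ≤
      ENNReal.ofReal (D / k) := by
    calc _ ≤ ∑ j, ∑ j', ENNReal.ofReal (|M| * |M| * |C (j, j')| / k) := by
          apply Finset.sum_le_sum
          intro j _
          apply Finset.sum_le_sum
          intro j' _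
          rw [mul_div_assoc, ENNReal.ofReal_mul (by positivity), ENNReal.ofReal_mul (abs_nonneg _)]
          gcongr
          · exact le_abs_self M
          · exact le_abs_self M
          · exact le_abs_self _
      _ = ENNReal.ofReal (D / k) := by
          rw [hD, Finset.sum_div, Fintype.sum_prod_type,
            ENNReal.ofReal_sum_of_nonneg (fun j _ => Finset.sum_nonneg (fun j' _ => by positivity))]
          apply Finset.sum_congr rfl
          intro j _
          rw [ENNReal.ofReal_sum_of_nonneg (fun j' _ => by positivity)]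
  have hDk : D / k ≤ δ / Real.sqrt k := by
    rw [div_le_div_iff₀ hkR hsk]
    have h1 : D / δ ≤ Real.sqrt k := by
      apply Real.le_sqrt_of_sq_le
      refine hk2.trans ?_
      exact_mod_cast hkk2
    have h2 : D ≤ δ * Real.sqrt k := by
      rw [div_le_iff₀ hδ] at h1
      linarith
    calc D * Real.sqrt k ≤ (δ * Real.sqrt k) * Real.sqrt k := by gcongr
      _ = δ * k := by rw [mul_assoc, Real.mul_self_sqrt hkR.le]
  unfold KS
  calc _ ≤ ∑ j, ∑ j', ((if ∃ g, MainI (β j : ℝ) (β j' : ℝ) g then s * (S j + S j') else 0) +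
        (if ∃ g, MainR (β j : ℝ) (β j' : ℝ) g then s * (S j + S j') else 0) +
        ENNReal.ofReal M * ENNReal.ofReal M * ENNReal.ofReal (C (j, j') / k)) := by
        apply Finset.sum_le_sum
        intro j _
        apply Finset.sum_le_sum
        intro j' _
        have := A10_pair (J := J) (β j) (β j') V (C (j, j')) k (hC (j, j') k (hk1 _)) hk0 hΨ j j'
        rw [hS, hs]
        convert this using 3
    _ = (∑ j, ∑ j', (if ∃ g, MainI (β j : ℝ) (β j' : ℝ) g then s * (S j + S j') else 0)) +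
        (∑ j, ∑ j', (if ∃ g, MainR (β j : ℝ) (β j' : ℝ) g then s * (S j + S j') else 0)) +
        ∑ j, ∑ j', ENNReal.ofReal M * ENNReal.ofReal M * ENNReal.ofReal (C (j, j') / k) := by
        simp_rw [Finset.sum_add_distrib]
    _ ≤ 2 * (s * ∑ j, S j) + 2 * (s * ∑ j, S j) + ENNReal.ofReal (D / k) :=
        add_le_add (add_le_add hI hR) hrest
    _ = ENNReal.ofReal (36 * (∑ j, ∫ u, ‖Ψ j u‖ ^ 2) / Real.sqrt k + D / k) := by
        rw [hsum, hs, ← ENNReal.ofReal_mul (by positivity)]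
        have h2 : (2 : ℝ≥0∞) = ENNReal.ofReal 2 := by simp
        rw [h2, ← ENNReal.ofReal_mul (by norm_num), ← ENNReal.ofReal_add (by positivity)
          (by positivity), ← ENNReal.ofReal_add (by positivity) (by positivity)]
        congr 1
        ring
    _ ≤ _ := by
        apply ENNReal.ofReal_le_ofReal
        rw [add_div]
        apply add_le_add _ hDk
        gcongr
        norm_num

end Pool.Agent.WA
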