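import Pool.Agent.Lib_helper98.WAF.A3
import Pool.Agent.Lib_helper98.WAF.A4
import Pool.Agent.Lib_helper68.GL2.B7

/-! Block A5 (PTB): finiteness for the averaged kernel. -/

namespace Pool.Agent.WA

open Complex MeasureTheory Filter Topology UpperHalfPlane ModularGroup
open scoped MatrixGroups Modular ENNReal
open Pool.Agent.GL2 (RSA_mp RSA_unfold RSA_countable)

/-- the kernel in `[0,∞]` -/
noncomputable def A5_A (k : ℕ) (z w : ℍ) : ℝ≥0∞ := ENNReal.ofReal (ch z w ^ (-(k : ℝ) / 2))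

theorem A5_A_def (k : ℕ) (z w : ℍ) :
    A5_A k z w = ENNReal.ofReal (ch z w ^ (-(k : ℝ) / 2)) := rfl

attribute [irreducible] A5_A

theorem A5_cont (k : ℕ) : Continuous (fun p : ℍ × ℍ => ch p.1 p.2 ^ (-(k : ℝ) / 2)) :=
  ch_cont.rpow_const (fun p => Or.inl (by linarith [one_le_ch p.1 p.2]))

theorem A5_meas (k : ℕ) : Measurable (fun p : ℍ × ℍ => A5_A k p.1 p.2) := by
  simp_rw [A5_A_def]
  exact ENNReal.measurable_ofReal.comp (A5_cont k).measurable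

theorem A5_meas_right (k : ℕ) (z : ℍ) : Measurable (fun w : ℍ => A5_A k z w) := by
  have h : Measurable (fun w : ℍ => ((z, w) : ℍ × ℍ)) := measurable_prodMk_left
  exact (A5_meas k).comp h

theorem A5_le {k : ℕ} (hk : 16 ≤ k) (z w : ℍ) :
    A5_A k z w ≤ ENNReal.ofReal (ch z w ^ (-(4 : ℝ))) := by
  rw [A5_A_def]
  apply ENNReal.ofReal_le_ofReal
  apply Real.rpow_le_rpow_of_exponent_le (one_le_ch z w)
  have : (16 : ℝ) ≤ k := by exact_mod_cast hk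
  linarith

theorem A5_enorm (k : ℕ) (z w : ℍ) : ‖phf k (ez k z) w‖ₑ = A5_A k z w := by
  rw [← ofReal_norm, ez_norm, A5_A_def]

theorem A5_smul_meas (g : SL(2, ℤ)) : Measurable (fun w : ℍ => g • w) := (RSA_mp g).measurable

theorem A5_A_smul (k : ℕ) (h : SL(2, ℤ)) (z w : ℍ) : A5_A k z (h • w) = A5_A k (h⁻¹ • z) w := by
  rw [A5_A_def, A5_A_def, ← ch_smul h⁻¹ z (h • w), inv_smul_smul]

theorem A5_meas_vz (k : ℕ) (b : ℝ) : Measurable (fun p : ℍ × ℝ => A5_A k (vz b p.2) p.1) := by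
  have h : Measurable (fun p : ℍ × ℝ => ((vz b p.2, p.1) : ℍ × ℍ)) :=
    ((vz_cont b).measurable.comp measurable_snd).prodMk measurable_fst
  exact (A5_meas k).comp h

theorem A5_meas_vz' (k : ℕ) (b : ℝ) (w : ℍ) : Measurable (fun u : ℝ => A5_A k (vz b u) w) := by
  have h : Measurable (fun u : ℝ => ((vz b u, w) : ℍ × ℍ)) :=
    (vz_cont b).measurable.prodMk measurable_const
  exact (A5_meas k).comp h

theorem A5_sm (F : ℍ × ℍ → ℂ) (hF : Continuous F) (ψ : ℝ → ℂ) (hψ : Measurable ψ) (v : ℝ → ℍ)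
    (hv : Continuous v) :
    StronglyMeasurable (fun w : ℍ => ∫ u : ℝ, starRingEnd ℂ (ψ u) * F (v u, w)) := by
  have h1 : Measurable (fun p : ℍ × ℝ => starRingEnd ℂ (ψ p.2)) :=
    (Complex.continuous_conj.measurable.comp hψ).comp measurable_snd
  have h3 : Continuous (fun p : ℍ × ℝ => ((v p.2, p.1) : ℍ × ℍ)) :=
    (hv.comp continuous_snd).prodMk continuous_fst
  have h2 : Continuous (fun p : ℍ × ℝ => F (v p.2, p.1)) := hF.comp h3
  have h4 : StronglyMeasurable (fun p : ℍ × ℝ => starRingEnd ℂ (ψ p.2) * F (v p.2, p.1)) :=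
    (h1.mul h2.measurable).stronglyMeasurable
  exact h4.integral_prod_right'

theorem kap_meas {J : Type} [Fintype J] {k : ℕ} (β : J → ℝ) {Ψ : J → ℝ → ℂ}
    {M V : ℝ} (hΨ : PsiB Ψ M V) : StronglyMeasurable (kap k β Ψ) := by
  unfold kap
  apply Finset.stronglyMeasurable_fun_sum
  intro j _
  exact A5_sm (fun p => phf k (ez k p.1) p.2) (ez_cont k) (Ψ j) (hΨ.meas j) (vz (β j))
    (vz_cont (β j))

theorem A5_Psi_lint {J : Type} [Fintype J] {Ψ : J → ℝ → ℂ} {M V : ℝ} (hΨ : PsiB Ψ M V) (j : J) :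
    ∫⁻ u : ℝ, ‖Ψ j u‖ₑ < ∞ := by
  have h1 : ∫⁻ u : ℝ, ‖Ψ j u‖ₑ ≤ ∫⁻ u : ℝ in Set.Icc (-V) V, ENNReal.ofReal M := by
    rw [← lintegral_indicator measurableSet_Icc]
    apply lintegral_mono
    intro u
    by_cases hu : u ∈ Set.Icc (-V) V
    · simp only [Set.indicator_of_mem hu]
      rw [← ofReal_norm]
      exact ENNReal.ofReal_le_ofReal (hΨ.bdd j u)
    · simp only [Set.indicator_of_notMem hu, hΨ.supp j u hu]
      simp
  refine h1.trans_lt ?_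
  rw [lintegral_const]
  apply ENNReal.mul_lt_top ENNReal.ofReal_lt_top
  rw [Measure.restrict_apply MeasurableSet.univ, Set.univ_inter, Real.volume_Icc]
  exact ENNReal.ofReal_lt_top

theorem A5_kap_le {J : Type} [Fintype J] {k : ℕ} (β : J → ℝ) (Ψ : J → ℝ → ℂ) (w : ℍ) :
    ‖kap k β Ψ w‖ₑ ≤ ∑ j, ∫⁻ u : ℝ, ‖Ψ j u‖ₑ * A5_A k (vz (β j) u) w := by
  unfold kap
  refine (enorm_sum_le _ _).trans (Finset.sum_le_sum fun j _ => ?_)
  refine (enorm_integral_le_lintegral_enorm _).trans (lintegral_mono fun u => ?_)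
  show ‖starRingEnd ℂ (Ψ j u) * phf k (ez k (vz (β j) u)) w‖ₑ ≤ _
  rw [enorm_mul, A5_enorm]
  apply mul_le_mul_left
  rw [← ofReal_norm, ← ofReal_norm, RCLike.norm_conj]

theorem kap_lint1 {J : Type} [Fintype J] {k : ℕ} (hk : 16 ≤ k) (β : J → ℝ) {Ψ : J → ℝ → ℂ}
    {M V : ℝ} (hΨ : PsiB Ψ M V) : ∫⁻ w : ℍ, ‖kap k β Ψ w‖ₑ < ∞ := by
  obtain ⟨C, hC⟩ := ch_lint
  have hjm : ∀ j, Measurable (fun p : ℍ × ℝ => ‖Ψ j p.2‖ₑ * A5_A k (vz (β j) p.2) p.1) := by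
    intro j
    exact ((hΨ.meas j).enorm.comp measurable_snd).mul (A5_meas_vz k (β j))
  refine (lintegral_mono (A5_kap_le β Ψ)).trans_lt ?_
  rw [lintegral_finsetSum]
  · apply ENNReal.sum_lt_top.mpr
    intro j _
    rw [lintegral_lintegral_swap (hjm j).aemeasurable]
    have h1 : ∫⁻ u : ℝ, ∫⁻ w : ℍ, ‖Ψ j u‖ₑ * A5_A k (vz (β j) u) w ≤
        ∫⁻ u : ℝ, ‖Ψ j u‖ₑ * ENNReal.ofReal C := by
      apply lintegral_mono
      intro u
      show ∫⁻ w : ℍ, ‖Ψ j u‖ₑ * A5_A k (vz (β j) u) w ≤ _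
      rw [lintegral_const_mul _ (A5_meas_right k _)]
      apply mul_le_mul_right
      exact (lintegral_mono (fun w => A5_le hk _ w)).trans (hC _)
    refine h1.trans_lt ?_
    rw [lintegral_mul_const _ (hΨ.meas j).enorm]
    exact ENNReal.mul_lt_top (A5_Psi_lint hΨ j) ENNReal.ofReal_lt_top
  · intro j _
    exact (hjm j).lintegral_prod_right'

theorem A5_inner (k : ℕ) (z z' : ℍ) :
    ∫⁻ w in 𝒟ᵒ, (∑' g : SL(2, ℤ), A5_A k z (g • w)) * (∑' g : SL(2, ℤ), A5_A k z' (g • w)) =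
      2 * ∑' h : SL(2, ℤ), ∫⁻ w : ℍ, A5_A k z w * A5_A k z' (h • w) := by
  have hms := fun g => A5_smul_meas g
  have hG : ∀ h : SL(2, ℤ), Measurable (fun w : ℍ => A5_A k z w * A5_A k z' (h • w)) :=
    fun h => (A5_meas_right k z).mul ((A5_meas_right k z').comp (hms h))
  have h1 : ∀ w : ℍ, (∑' g : SL(2, ℤ), A5_A k z (g • w)) * (∑' g : SL(2, ℤ), A5_A k z' (g • w)) =
      ∑' h : SL(2, ℤ), ∑' g : SL(2, ℤ), A5_A k z (g • w) * A5_A k z' (h • (g • w)) := by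
    intro w
    rw [← ENNReal.tsum_mul_right, ENNReal.tsum_comm]
    apply tsum_congr
    intro g
    rw [← ENNReal.tsum_mul_left]
    rw [← (Equiv.mulRight g).tsum_eq (fun g' => A5_A k z (g • w) * A5_A k z' (g' • w))]
    apply tsum_congr
    intro h
    rw [Equiv.coe_mulRight, mul_smul]
  simp_rw [h1]
  rw [lintegral_tsum]
  · rw [← ENNReal.tsum_mul_left]
    apply tsum_congr
    intro h
    exact RSA_unfold (fun w => A5_A k z w * A5_A k z' (h • w)) (hG h)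
  · intro h
    apply Measurable.aemeasurable
    apply Measurable.ennreal_tsum
    intro g
    exact (hG h).comp (hms g)

theorem A5_inner_le {k : ℕ} (hk : 16 ≤ k) (β β' V : ℝ) : ∃ K : ℝ≥0∞, K < ∞ ∧
    ∀ u ∈ Set.Icc (-V) V, ∀ u' ∈ Set.Icc (-V) V,
    ∫⁻ w in 𝒟ᵒ, (∑' g : SL(2, ℤ), A5_A k (vz β u) (g • w)) *
      (∑' g : SL(2, ℤ), A5_A k (vz β' u') (g • w)) ≤ K := by
  obtain ⟨C, hC⟩ := ch_lint2
  obtain ⟨C', hC'⟩ := ch_sum β' β V
  refine ⟨2 * (ENNReal.ofReal (max C 0) * ENNReal.ofReal C'),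
    ENNReal.mul_lt_top (by norm_num) (ENNReal.mul_lt_top ENNReal.ofReal_lt_top
      ENNReal.ofReal_lt_top), ?_⟩
  intro u hu u' hu'
  rw [A5_inner]
  apply mul_le_mul_right
  have h1 : ∀ h : SL(2, ℤ), ∫⁻ w : ℍ, A5_A k (vz β u) w * A5_A k (vz β' u') (h • w) ≤
      ENNReal.ofReal (max C 0) *
        ENNReal.ofReal (ch (h⁻¹ • vz β' u') (vz β u) ^ (-(4 : ℝ))) := by
    intro h
    have h2 : ∀ w : ℍ, A5_A k (vz β u) w * A5_A k (vz β' u') (h • w) =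
        ENNReal.ofReal (ch (vz β u) w ^ (-(k : ℝ) / 2)) *
        ENNReal.ofReal (ch (h⁻¹ • vz β' u') w ^ (-(k : ℝ) / 2)) := by
      intro w
      rw [A5_A_smul, A5_A_def, A5_A_def]
    rw [lintegral_congr h2]
    refine (hC k hk (vz β u) (h⁻¹ • vz β' u')).trans ?_
    rw [← ENNReal.ofReal_mul (le_max_right _ _)]
    apply ENNReal.ofReal_le_ofReal
    rw [ch_comm]
    apply mul_le_mul_of_nonneg_right (le_max_left _ _)
    exact Real.rpow_nonneg (by linarith [one_le_ch (h⁻¹ • vz β' u') (vz β u)]) _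
  refine (ENNReal.tsum_le_tsum h1).trans ?_
  rw [ENNReal.tsum_mul_left]
  apply mul_le_mul_right
  have h3 := (Equiv.inv SL(2, ℤ)).tsum_eq
    (fun g : SL(2, ℤ) => ENNReal.ofReal (ch (g • vz β' u') (vz β u) ^ (-(4 : ℝ))))
  simp only [Equiv.inv_apply] at h3
  rw [h3]
  exact hC' u' hu' u hu

/-- the inner sum -/
noncomputable def A5_S (k : ℕ) (z w : ℍ) : ℝ≥0∞ := ∑' g : SL(2, ℤ), A5_A k z (g • w)

theorem A5_S_meas (k : ℕ) : Measurable (fun p : ℍ × ℍ => A5_S k p.1 p.2) := by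
  unfold A5_S
  apply Measurable.ennreal_tsum
  intro g
  have h : Measurable (fun p : ℍ × ℍ => ((p.1, g • p.2) : ℍ × ℍ)) :=
    measurable_fst.prodMk ((A5_smul_meas g).comp measurable_snd)
  exact (A5_meas k).comp h

theorem A5_S_meas_vz (k : ℕ) (b : ℝ) : Measurable (fun p : ℍ × ℝ => A5_S k (vz b p.2) p.1) := by
  have h : Measurable (fun p : ℍ × ℝ => ((vz b p.2, p.1) : ℍ × ℍ)) :=
    ((vz_cont b).measurable.comp measurable_snd).prodMk measurable_fst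
  exact (A5_S_meas k).comp h

theorem A5_S_meas_right (k : ℕ) (z : ℍ) : Measurable (fun w : ℍ => A5_S k z w) := by
  have h : Measurable (fun w : ℍ => ((z, w) : ℍ × ℍ)) := measurable_prodMk_left
  exact (A5_S_meas k).comp h

theorem A5_S_meas_left (k : ℕ) (b : ℝ) (w : ℍ) : Measurable (fun u : ℝ => A5_S k (vz b u) w) := by
  have h : Measurable (fun u : ℝ => ((vz b u, w) : ℍ × ℍ)) :=
    (vz_cont b).measurable.prodMk measurable_const
  exact (A5_S_meas k).comp h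

theorem A5_S_eq (k : ℕ) (z w : ℍ) : ∑' g : SL(2, ℤ), A5_A k z (g • w) = A5_S k z w := rfl

attribute [irreducible] A5_S

theorem kap_lint {J : Type} [Fintype J] {k : ℕ} (hk : 16 ≤ k) (β : J → ℝ) {Ψ : J → ℝ → ℂ}
    {M V : ℝ} (hΨ : PsiB Ψ M V) :
    ∫⁻ w in 𝒟ᵒ, (∑' g : SL(2, ℤ), ‖kap k β Ψ (g • w)‖ₑ) ^ 2 < ∞ := by
  have hFm : ∀ j, Measurable (fun p : ℍ × ℝ => ‖Ψ j p.2‖ₑ * A5_S k (vz (β j) p.2) p.1) := by
    intro j
    exact ((hΨ.meas j).enorm.comp measurable_snd).mul (A5_S_meas_vz k (β j))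
  -- pointwise bound
  have h1 : ∀ w : ℍ, ∑' g : SL(2, ℤ), ‖kap k β Ψ (g • w)‖ₑ ≤
      ∑ j, ∫⁻ u : ℝ, ‖Ψ j u‖ₑ * A5_S k (vz (β j) u) w := by
    intro w
    refine (ENNReal.tsum_le_tsum (fun g => A5_kap_le β Ψ (g • w))).trans ?_
    rw [Summable.tsum_finsetSum (fun _ _ => ENNReal.summable)]
    apply Finset.sum_le_sum
    intro j _
    rw [← lintegral_tsum]
    · apply lintegral_mono
      intro u
      show ∑' g : SL(2, ℤ), ‖Ψ j u‖ₑ * A5_A k (vz (β j) u) (g • w) ≤ _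
      rw [ENNReal.tsum_mul_left, A5_S_eq]
    · intro g
      exact ((hΨ.meas j).enorm.mul (A5_meas_vz' k (β j) (g • w))).aemeasurable
  have h2 : ∀ w : ℍ, (∑' g : SL(2, ℤ), ‖kap k β Ψ (g • w)‖ₑ) ^ 2 ≤
      ∑ j, ∑ j', ∫⁻ p : ℝ × ℝ, (‖Ψ j p.1‖ₑ * A5_S k (vz (β j) p.1) w) *
        (‖Ψ j' p.2‖ₑ * A5_S k (vz (β j') p.2) w) := by
    intro w
    refine (pow_le_pow_left₀ (by simp) (h1 w) 2).trans ?_
    rw [sq, Finset.sum_mul_sum]
    apply Finset.sum_le_sum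
    intro j _
    apply Finset.sum_le_sum
    intro j' _
    apply le_of_eq
    rw [Measure.volume_eq_prod]
    symm
    apply lintegral_prod_mul (f := fun u => ‖Ψ j u‖ₑ * A5_S k (vz (β j) u) w)
      (g := fun u => ‖Ψ j' u‖ₑ * A5_S k (vz (β j') u) w)
    · exact ((hΨ.meas j).enorm.mul (A5_S_meas_left k (β j) w)).aemeasurable
    · exact ((hΨ.meas j').enorm.mul (A5_S_meas_left k (β j') w)).aemeasurable
  refine (lintegral_mono h2).trans_lt ?_
  have hGm : ∀ j j', Measurable (fun q : ℍ × (ℝ × ℝ) =>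
      (‖Ψ j q.2.1‖ₑ * A5_S k (vz (β j) q.2.1) q.1) *
        (‖Ψ j' q.2.2‖ₑ * A5_S k (vz (β j') q.2.2) q.1)) := by
    intro j j'
    have m1 : Measurable (fun q : ℍ × (ℝ × ℝ) => ((q.1, q.2.1) : ℍ × ℝ)) :=
      measurable_fst.prodMk (measurable_fst.comp measurable_snd)
    have m2 : Measurable (fun q : ℍ × (ℝ × ℝ) => ((q.1, q.2.2) : ℍ × ℝ)) :=
      measurable_fst.prodMk (measurable_snd.comp measurable_snd)
    exact ((hFm j).comp m1).mul ((hFm j').comp m2)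
  rw [lintegral_finsetSum]
  swap
  · intro j _
    apply Finset.measurable_fun_sum
    intro j' _
    exact (hGm j j').lintegral_prod_right'
  apply ENNReal.sum_lt_top.mpr
  intro j _
  rw [lintegral_finsetSum]
  swap
  · intro j' _
    exact (hGm j j').lintegral_prod_right'
  apply ENNReal.sum_lt_top.mpr
  intro j' _
  rw [lintegral_lintegral_swap (hGm j j').aemeasurable]
  obtain ⟨K, hK, hKb⟩ := A5_inner_le hk (β j) (β j') V
  have h3 : ∀ p : ℝ × ℝ, ∫⁻ w in 𝒟ᵒ, (‖Ψ j p.1‖ₑ * A5_S k (vz (β j) p.1) w) *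
        (‖Ψ j' p.2‖ₑ * A5_S k (vz (β j') p.2) w) ≤ ‖Ψ j p.1‖ₑ * ‖Ψ j' p.2‖ₑ * K := by
    intro p
    have hSm : ∀ z : ℍ, Measurable (fun w : ℍ => A5_S k z w) := A5_S_meas_right k
    have h4 : ∀ w : ℍ, (‖Ψ j p.1‖ₑ * A5_S k (vz (β j) p.1) w) *
        (‖Ψ j' p.2‖ₑ * A5_S k (vz (β j') p.2) w) =
        ‖Ψ j p.1‖ₑ * ‖Ψ j' p.2‖ₑ * (A5_S k (vz (β j) p.1) w * A5_S k (vz (β j') p.2) w) := by
      intro w
      ring
    simp_rw [h4]
    have hm : Measurable (fun w : ℍ => A5_S k (vz (β j) p.1) w * A5_S k (vz (β j') p.2) w) :=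
      (hSm _).mul (hSm _)
    rw [lintegral_const_mul _ hm]
    by_cases hu : p.1 ∈ Set.Icc (-V) V
    · by_cases hu' : p.2 ∈ Set.Icc (-V) V
      · apply mul_le_mul_right
        have h5 := hKb p.1 hu p.2 hu'
        simp only [A5_S_eq] at h5
        exact h5
      · rw [hΨ.supp j' p.2 hu']
        simp
    · rw [hΨ.supp j p.1 hu]
      simp
  refine (lintegral_mono h3).trans_lt ?_
  rw [lintegral_mul_const' _ _ hK.ne, Measure.volume_eq_prod,
    lintegral_prod_mul (hΨ.meas j).enorm.aemeasurable (hΨ.meas j').enorm.aemeasurable]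
  exact ENNReal.mul_lt_top (ENNReal.mul_lt_top (A5_Psi_lint hΨ j) (A5_Psi_lint hΨ j')) hK

end Pool.Agent.WA
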