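import Pool.Agent.Lib_helper98.WAF.B1a
import Pool.Agent.Lib_helper68.GL2.B7

/-! Block B1b (BASC2): dm_*, pn_*. -/

namespace Pool.Agent.WA

open Complex MeasureTheory Filter Topology UpperHalfPlane ModularGroup
open scoped MatrixGroups Modular ENNReal
open Pool.Agent.GL2 (qs HData am dens hatw Ep Mol xt FD IsCompletedL oddZ)

theorem dm_series {k : ℕ} {b : ℕ → ℂ} (H : CForm k b) (m : ℕ) (u : ℝ) :
    HasSum (fun n : ℕ => (if n.Coprime m then b n else 0) * (gd k n u : ℂ)) (dm k b m u) := by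
  have hs := cf_summable H (y := 2 * Real.pi * Real.exp u) (by positivity)
  have h1 : Summable (fun n : ℕ => (if n.Coprime m then b n else 0) *
      ((Real.exp (-2 * Real.pi * n * Real.exp u) : ℝ) : ℂ)) := by
    apply Summable.of_norm
    apply Summable.of_nonneg_of_le (fun n => norm_nonneg _) (fun n => ?_) hs
    rw [norm_mul, Complex.norm_real, Real.norm_eq_abs, abs_of_pos (Real.exp_pos _)]
    have e : -2 * Real.pi * n * Real.exp u = -(2 * Real.pi * Real.exp u) * n := by ring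
    rw [e]
    apply mul_le_mul_of_nonneg_right _ (Real.exp_pos _).le
    split_ifs
    · exact le_rfl
    · simp
  have h2 := h1.hasSum.mul_left ((Real.exp (k * u / 2) : ℝ) : ℂ)
  have h3 : (fun n : ℕ => (if n.Coprime m then b n else 0) * (gd k n u : ℂ)) =
      fun n : ℕ => ((Real.exp (k * u / 2) : ℝ) : ℂ) * ((if n.Coprime m then b n else 0) *
      ((Real.exp (-2 * Real.pi * n * Real.exp u) : ℝ) : ℂ)) := by
    funext n
    have hg : gd k n u = Real.exp (k * u / 2) * Real.exp (-2 * Real.pi * n * Real.exp u) := by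
      unfold gd
      rw [← Real.exp_add]
      congr 1
      ring
    rw [hg]
    push_cast
    ring
  rw [h3]
  exact h2

theorem b1b_geom {m : ℕ} (hm : 0 < m) (n a : ℕ) :
    ∑ j ∈ Finset.range m, cexp (-(2 * Real.pi * Complex.I) * a * j / m) *
      cexp (2 * Real.pi * Complex.I * n * ((j : ℝ) / m : ℝ)) =
      if (m : ℤ) ∣ (n : ℤ) - a then (m : ℂ) else 0 := by
  have hm' : (m : ℂ) ≠ 0 := by exact_mod_cast hm.ne'
  set x : ℂ := cexp (2 * Real.pi * Complex.I * ((n : ℂ) - a) / m) with hx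
  have h1 : ∀ j ∈ Finset.range m, cexp (-(2 * Real.pi * Complex.I) * a * j / m) *
      cexp (2 * Real.pi * Complex.I * n * ((j : ℝ) / m : ℝ)) = x ^ j := by
    intro j _
    rw [hx, ← Complex.exp_nat_mul, ← Complex.exp_add]
    congr 1
    push_cast
    field_simp
    ring
  rw [Finset.sum_congr rfl h1]
  have hxm : x ^ m = 1 := by
    rw [hx, ← Complex.exp_nat_mul, Complex.exp_eq_one_iff]
    refine ⟨(n : ℤ) - a, ?_⟩
    push_cast
    field_simp
  split_ifs with h
  · obtain ⟨c, hc⟩ := h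
    have hx1 : x = 1 := by
      rw [hx, Complex.exp_eq_one_iff]
      refine ⟨c, ?_⟩
      have : (n : ℂ) - a = m * c := by exact_mod_cast hc
      rw [this]
      field_simp
    rw [hx1]
    simp
  · have hx1 : x ≠ 1 := by
      intro hx1
      rw [hx, Complex.exp_eq_one_iff] at hx1
      obtain ⟨c, hc⟩ := hx1
      apply h
      refine ⟨c, ?_⟩
      have hpi : (2 * Real.pi * Complex.I : ℂ) ≠ 0 := Complex.two_pi_I_ne_zero
      have h2 : (n : ℂ) - a = m * c := by
        rw [div_eq_iff hm'] at hc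
        have h3 : (2 * Real.pi * Complex.I : ℂ) * ((n : ℂ) - a) =
            (2 * Real.pi * Complex.I : ℂ) * (m * c) := by
          rw [hc]; ring
        exact mul_left_cancel₀ hpi h3
      exact_mod_cast h2
    rw [geom_sum_eq hx1, hxm, sub_self, zero_div]

theorem b1b_theta {m : ℕ} (hm : 0 < m) (n : ℕ) :
    ∑ j ∈ Finset.range m, theta m m 1 j *
      cexp (2 * Real.pi * Complex.I * n * ((j : ℝ) / m : ℝ)) =
      if n.Coprime m then 1 else 0 := by
  have hm' : (m : ℂ) ≠ 0 := by exact_mod_cast hm.ne'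
  unfold theta
  have h1 : ∀ j ∈ Finset.range m, ((1 / (m : ℂ)) *
      ∑ a ∈ (Finset.range m).filter (fun a => 1 ∣ a ∧ (a / 1).Coprime m),
      cexp (-(2 * Real.pi * Complex.I) * a * j / m)) *
        cexp (2 * Real.pi * Complex.I * n * ((j : ℝ) / m : ℝ)) =
      ∑ a ∈ (Finset.range m).filter (fun a => 1 ∣ a ∧ (a / 1).Coprime m),
        (1 / (m : ℂ)) * (cexp (-(2 * Real.pi * Complex.I) * a * j / m) *
          cexp (2 * Real.pi * Complex.I * n * ((j : ℝ) / m : ℝ))) := by
    intro j _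
    rw [Finset.mul_sum, Finset.sum_mul]
    apply Finset.sum_congr rfl
    intro a _
    ring
  rw [Finset.sum_congr rfl h1, Finset.sum_comm]
  simp_rw [← Finset.mul_sum]
  simp_rw [b1b_geom hm n]
  rw [Finset.sum_ite, Finset.sum_const_zero, add_zero, Finset.sum_const, Finset.filter_filter]
  have h2 : (Finset.range m).filter (fun a : ℕ => (1 ∣ a ∧ (a / 1).Coprime m) ∧
      (m : ℤ) ∣ (n : ℤ) - (a : ℤ)) = if n.Coprime m then {n % m} else ∅ := by
    ext a
    have hcop : (n % m).Coprime m ↔ n.Coprime m := by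
      unfold Nat.Coprime
      rw [(Nat.mod_modEq n m).gcd_eq]
    have hdiv : a < m → ((m : ℤ) ∣ (n : ℤ) - a ↔ a = n % m) := by
      intro ha
      rw [← Nat.modEq_iff_dvd]
      unfold Nat.ModEq
      rw [Nat.mod_eq_of_lt ha]
    simp only [Finset.mem_filter, Finset.mem_range, Nat.div_one, one_dvd, true_and]
    split_ifs with h
    · rw [Finset.mem_singleton]
      constructor
      · rintro ⟨ha, _, hd⟩
        exact (hdiv ha).1 hd
      · rintro rfl
        have hlt := Nat.mod_lt n hm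
        exact ⟨hlt, hcop.2 h, (hdiv hlt).2 rfl⟩
    · constructor
      · rintro ⟨ha, hc, hd⟩
        have := (hdiv ha).1 hd
        subst this
        exact absurd (hcop.1 hc) h
      · intro ha
        exact absurd ha (Finset.notMem_empty _)
  rw [h2]
  split_ifs with h
  · simp [hm']
  · simp

theorem dm_geo {k : ℕ} {b : ℕ → ℂ} (H : CForm k b) {m : ℕ} (hm : 0 < m) (u : ℝ) :
    dm k b m u = ∑ j ∈ Finset.range m, theta m m 1 j * geo k b ((j : ℝ) / m) u := by
  have h1 : HasSum (fun n : ℕ => ∑ j ∈ Finset.range m, theta m m 1 j *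
      (b n * cexp (2 * Real.pi * Complex.I * n * ((j : ℝ) / m : ℝ)) * (gd k n u : ℂ)))
      (∑ j ∈ Finset.range m, theta m m 1 j * geo k b ((j : ℝ) / m) u) := by
    apply hasSum_sum
    intro j _
    exact (geo_series H ((j : ℝ) / m) u).mul_left _
  refine (dm_series H m u).unique ?_
  convert h1 using 1
  ext n
  have h2 := b1b_theta hm n
  calc (if n.Coprime m then b n else 0) * (gd k n u : ℂ)
      = (if n.Coprime m then (1 : ℂ) else 0) * (b n * (gd k n u : ℂ)) := by
        split_ifs <;> ring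
    _ = _ := by
        rw [← h2, Finset.sum_mul]
        apply Finset.sum_congr rfl
        intro j _
        ring

theorem dm_bdd {k : ℕ} {b : ℕ → ℂ} (H : CForm k b) {m : ℕ} (hm : 0 < m) :
    ∃ C : ℝ, ∀ u, ‖dm k b m u‖ ≤ C := by
  obtain ⟨C, hC⟩ := geo_bdd H
  refine ⟨∑ j ∈ Finset.range m, ‖theta m m 1 j‖ * C, ?_⟩
  intro u
  rw [dm_geo H hm u]
  refine (norm_sum_le _ _).trans ?_
  apply Finset.sum_le_sum
  intro j _
  rw [norm_mul]
  exact mul_le_mul_of_nonneg_left (hC _ _) (norm_nonneg _)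

theorem dm_cont {k : ℕ} {b : ℕ → ℂ} (H : CForm k b) {m : ℕ} (hm : 0 < m) :
    Continuous (dm k b m) := by
  have h : dm k b m = fun u => ∑ j ∈ Finset.range m, theta m m 1 j * geo k b ((j : ℝ) / m) u := by
    ext u
    exact dm_geo H hm u
  rw [h]
  apply continuous_finsetSum
  intro j _
  exact continuous_const.mul (geo_cont H _)

theorem b1b_FD_meas : MeasurableSet FD := by
  have hmo : MeasurableSet (𝒟ᵒ : Set ℍ) := isOpen_fdo.measurableSet
  have : FD = (↑) '' 𝒟ᵒ := by rw [coe_fdo]; rfl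
  rw [this]
  exact measurableEmbedding_coe.measurableSet_image.mpr hmo

theorem b1b_bound {k : ℕ} {b : ℕ → ℂ} (H : CForm k b) : ∃ C : ℝ, 0 ≤ C ∧
    ∀ z : ℂ, 0 < z.im → ‖qc b z‖ ^ 2 * z.im ^ k ≤ C := by
  obtain ⟨C, hC⟩ := H.bound
  refine ⟨C ^ 2, by positivity, ?_⟩
  intro z hz
  have h1 := hC z hz
  have h2 : ‖qc b z‖ ^ 2 ≤ (C * z.im ^ (-(k : ℝ) / 2)) ^ 2 :=
    pow_le_pow_left₀ (norm_nonneg _) h1 2
  have h3 : (z.im ^ (-(k : ℝ) / 2)) ^ 2 * z.im ^ k = 1 := by
    rw [← Real.rpow_natCast, ← Real.rpow_mul hz.le, ← Real.rpow_natCast z.im k,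
      ← Real.rpow_add hz]
    push_cast
    rw [show -(k : ℝ) / 2 * 2 + k = 0 by ring, Real.rpow_zero]
  calc ‖qc b z‖ ^ 2 * z.im ^ k ≤ (C * z.im ^ (-(k : ℝ) / 2)) ^ 2 * z.im ^ k :=
        mul_le_mul_of_nonneg_right h2 (by positivity)
    _ = C ^ 2 * ((z.im ^ (-(k : ℝ) / 2)) ^ 2 * z.im ^ k) := by ring
    _ = C ^ 2 := by rw [h3, mul_one]

theorem b1b_inv_int : IntegrableOn (fun z : ℂ => 1 / z.im ^ 2) FD := by
  constructor
  · have : Measurable (fun z : ℂ => 1 / z.im ^ 2) := by fun_prop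
    exact this.aestronglyMeasurable
  · rw [hasFiniteIntegral_iff_ofReal]
    · have h1 := GL2.RSA_lint_fd (fun _ => 1)
      rw [setLIntegral_one] at h1
      simp only [one_mul] at h1
      rw [← h1]
      exact GL2.b7_vol_fdo
    · refine Eventually.of_forall fun z => ?_
      simp only [Pi.zero_apply]
      positivity

theorem pn_int {k : ℕ} {b : ℕ → ℂ} (H : CForm k b) :
    IntegrableOn (fun z : ℂ => ‖qc b z‖ ^ 2 * z.im ^ k / z.im ^ 2) FD := by
  obtain ⟨C, hC0, hC⟩ := b1b_bound H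
  apply Integrable.mono' (b1b_inv_int.const_mul C)
  · apply ContinuousOn.aestronglyMeasurable _ b1b_FD_meas
    have h1 : ContinuousOn (qc b) FD := (cf_holo H).continuousOn.mono (fun z hz => hz.1)
    apply ContinuousOn.div
    · exact (h1.norm.pow 2).mul (by fun_prop)
    · fun_prop
    · intro z hz
      have : 0 < z.im := hz.1
      positivity
  · filter_upwards [ae_restrict_mem b1b_FD_meas] with z hz
    have hz0 : 0 < z.im := hz.1
    rw [Real.norm_eq_abs, abs_of_nonneg (by positivity)]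
    calc ‖qc b z‖ ^ 2 * z.im ^ k / z.im ^ 2 ≤ C / z.im ^ 2 :=
          div_le_div_of_nonneg_right (hC z hz0) (by positivity)
      _ = C * (1 / z.im ^ 2) := by ring

theorem pn_nonneg (k : ℕ) (b : ℕ → ℂ) : 0 ≤ pn k b := by
  unfold pn
  apply setIntegral_nonneg b1b_FD_meas
  intro z hz
  have hz0 : 0 < z.im := hz.1
  positivity

theorem b1b_phf_sq (k : ℕ) (b : ℕ → ℂ) (w : ℍ) :
    ‖phf k (qc b) w‖ ^ 2 = ‖qc b (w : ℂ)‖ ^ 2 * (w : ℂ).im ^ k := by
  have hw : 0 < (w : ℂ).im := w.im_pos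
  unfold phf
  rw [norm_mul, mul_pow, Complex.norm_real, Real.norm_eq_abs, sq_abs]
  congr 1
  have : w.im = (w : ℂ).im := rfl
  rw [this, ← Real.rpow_natCast, ← Real.rpow_mul hw.le, ← Real.rpow_natCast (w : ℂ).im k]
  congr 1
  push_cast
  ring

/-- the Petersson norm as an integral over `ℍ` -/
theorem pn_eq {k : ℕ} {b : ℕ → ℂ} (H : CForm k b) :
    IntegrableOn (fun w : ℍ => ‖phf k (qc b) w‖ ^ 2) 𝒟ᵒ ∧
      ∫ w in 𝒟ᵒ, ‖phf k (qc b) w‖ ^ 2 = pn k b := by
  obtain ⟨C, hC0, hC⟩ := b1b_bound H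
  have hcont : Continuous (fun w : ℍ => ‖phf k (qc b) w‖ ^ 2) := by
    have h1 : (fun w : ℍ => ‖phf k (qc b) w‖ ^ 2) =
        fun w : ℍ => ‖qc b (w : ℂ)‖ ^ 2 * (w : ℂ).im ^ k := by
      ext w
      exact b1b_phf_sq k b w
    rw [h1]
    have h2 : Continuous (fun w : ℍ => qc b (w : ℂ)) :=
      (cf_holo H).continuousOn.comp_continuous UpperHalfPlane.continuous_coe (fun w => w.im_pos)
    have h3 : Continuous (fun w : ℍ => ((w : ℂ)).im) :=
      Complex.continuous_im.comp UpperHalfPlane.continuous_coe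
    exact (h2.norm.pow 2).mul (h3.pow k)
  have hmo : MeasurableSet (𝒟ᵒ : Set ℍ) := isOpen_fdo.measurableSet
  constructor
  · apply Measure.integrableOn_of_bounded (M := C) GL2.b7_vol_fdo.ne
    · exact hcont.aestronglyMeasurable
    · refine Eventually.of_forall fun w => ?_
      rw [Real.norm_eq_abs, abs_of_nonneg (by positivity), b1b_phf_sq]
      exact hC _ w.im_pos
  · rw [integral_eq_lintegral_of_nonneg_ae (Eventually.of_forall fun w => by positivity)
      hcont.aestronglyMeasurable]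
    unfold pn
    rw [integral_eq_lintegral_of_nonneg_ae _ (pn_int H).aestronglyMeasurable]
    · congr 1
      have h1 := GL2.RSA_lint_fd (fun z : ℂ => ENNReal.ofReal (‖qc b z‖ ^ 2 * z.im ^ k))
      simp_rw [b1b_phf_sq]
      rw [h1]
      apply setLIntegral_congr_fun b1b_FD_meas
      intro z hz
      have hz0 : 0 < z.im := hz.1
      simp only
      rw [← ENNReal.ofReal_mul (by positivity)]
      congr 1
      ring
    · filter_upwards [ae_restrict_mem b1b_FD_meas] with z hz
      have hz0 : 0 < z.im := hz.1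
      simp only [Pi.zero_apply]
      positivity

end Pool.Agent.WA
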