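import Pool.Agent.Lib_helper98.WAF.A2
import Pool.Agent.Lib_helper98.WAF.A5
import Pool.Agent.Lib_helper98.WAF.B1b
import Pool.Agent.Lib_helper68.GL2.B7

/-! Block A6 (PTC): the functional as an inner product. -/

namespace Pool.Agent.WA

open Complex MeasureTheory Filter Topology UpperHalfPlane ModularGroup
open scoped MatrixGroups Modular ENNReal
open Pool.Agent.GL2 (RSA_mp RSA_unfold RSA_countable b7_unfold)

/-- the kernel function -/
noncomputable def A6_E (k : ℕ) (z w : ℍ) : ℂ := phf k (ez k z) w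

theorem A6_E_def (k : ℕ) (z w : ℍ) : phf k (ez k z) w = A6_E k z w := rfl

theorem A6_E_cont (k : ℕ) : Continuous (fun p : ℍ × ℍ => A6_E k p.1 p.2) := ez_cont k

theorem A6_E_norm (k : ℕ) (z w : ℍ) : ‖A6_E k z w‖ = ch z w ^ (-(k : ℝ) / 2) := ez_norm k z w

/-- the invariant function of the form -/
noncomputable def A6_F (k : ℕ) (b : ℕ → ℂ) (w : ℍ) : ℂ := phf k (qc b) w

theorem A6_F_def (k : ℕ) (b : ℕ → ℂ) (w : ℍ) : phf k (qc b) w = A6_F k b w := rfl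

theorem A6_F_cont {k : ℕ} {b : ℕ → ℂ} (H : CForm k b) : Continuous (A6_F k b) := by
  have h1 : Continuous (fun w : ℍ => qc b (w : ℂ)) := by
    have h2 := (cf_holo H).continuousOn
    exact h2.comp_continuous UpperHalfPlane.continuous_coe (fun w => w.im_pos)
  have h3 : Continuous (fun w : ℍ => (w.im ^ ((k : ℝ) / 2) : ℝ)) :=
    UpperHalfPlane.continuous_im.rpow_const (fun w => Or.inl w.im_pos.ne')
  exact h1.mul (Complex.continuous_ofReal.comp h3)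

theorem A6_F_bdd {k : ℕ} {b : ℕ → ℂ} (H : CForm k b) : ∃ C : ℝ, 0 ≤ C ∧ ∀ w, ‖A6_F k b w‖ ≤ C := by
  obtain ⟨C, hC⟩ := H.bound
  refine ⟨max C 0, le_max_right _ _, fun w => ?_⟩
  show ‖qc b w * ((w.im ^ ((k : ℝ) / 2) : ℝ) : ℂ)‖ ≤ _
  rw [norm_mul, Complex.norm_real, Real.norm_eq_abs,
    abs_of_nonneg (Real.rpow_nonneg w.im_pos.le _)]
  have h1 := hC (w : ℂ) w.im_pos
  have h2 : 0 < w.im ^ ((k : ℝ) / 2) := Real.rpow_pos_of_pos w.im_pos _
  have h3 : (w : ℂ).im = w.im := rfl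
  rw [h3] at h1
  calc ‖qc b w‖ * w.im ^ ((k : ℝ) / 2) ≤ C * w.im ^ (-(k : ℝ) / 2) * w.im ^ ((k : ℝ) / 2) :=
        mul_le_mul_of_nonneg_right h1 h2.le
    _ = C := by
        rw [mul_assoc, ← Real.rpow_add w.im_pos]
        rw [show -(k : ℝ) / 2 + (k : ℝ) / 2 = 0 by ring, Real.rpow_zero, mul_one]
    _ ≤ max C 0 := le_max_left _ _

attribute [irreducible] A6_E A6_F

theorem A6_E_cont_left (k : ℕ) (b : ℝ) (w : ℍ) : Continuous (fun u : ℝ => A6_E k (vz b u) w) := by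
  have h : Continuous (fun u : ℝ => ((vz b u, w) : ℍ × ℍ)) :=
    (vz_cont b).prodMk continuous_const
  exact (A6_E_cont k).comp h

theorem A6_E_cont_pair (k : ℕ) (b : ℝ) :
    Continuous (fun p : ℝ × ℍ => A6_E k (vz b p.1) p.2) := by
  have h : Continuous (fun p : ℝ × ℍ => ((vz b p.1, p.2) : ℍ × ℍ)) :=
    ((vz_cont b).comp continuous_fst).prodMk continuous_snd
  exact (A6_E_cont k).comp h

theorem A6_E_cont_right (k : ℕ) (z : ℍ) : Continuous (fun w : ℍ => A6_E k z w) := by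
  have h : Continuous (fun w : ℍ => ((z, w) : ℍ × ℍ)) := continuous_const.prodMk continuous_id
  exact (A6_E_cont k).comp h

theorem A6_kap_eq {J : Type} [Fintype J] (k : ℕ) (β : J → ℝ) (Ψ : J → ℝ → ℂ) (w : ℍ) :
    kap k β Ψ w = ∑ j, ∫ u : ℝ, starRingEnd ℂ (Ψ j u) * A6_E k (vz (β j) u) w := by
  simp only [kap, A6_E_def]

theorem A6_E_lint {k : ℕ} (hk : 16 ≤ k) : ∃ C : ℝ, ∀ z : ℍ,
    ∫⁻ w : ℍ, ‖A6_E k z w‖ₑ ≤ ENNReal.ofReal C := by
  obtain ⟨C, hC⟩ := ch_lint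
  refine ⟨C, fun z => (lintegral_mono fun w => ?_).trans (hC z)⟩
  show ‖A6_E k z w‖ₑ ≤ _
  rw [← ofReal_norm, A6_E_norm]
  apply ENNReal.ofReal_le_ofReal
  apply Real.rpow_le_rpow_of_exponent_le (one_le_ch z w)
  have : (16 : ℝ) ≤ k := by exact_mod_cast hk
  linarith

theorem A6_Psi_lint {J : Type} [Fintype J] {Ψ : J → ℝ → ℂ} {M V : ℝ} (hΨ : PsiB Ψ M V) (j : J) :
    ∫⁻ u : ℝ, ‖Ψ j u‖ₑ < ∞ := by
  have h1 : ∫⁻ u : ℝ, ‖Ψ j u‖ₑ ≤ ∫⁻ u : ℝ in Set.Icc (-V) V, ENNReal.ofReal M := by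
    rw [← lintegral_indicator measurableSet_Icc]
    apply lintegral_mono
    intro u
    by_cases hu : u ∈ Set.Icc (-V) V
    · simp only [Set.indicator_of_mem hu]
      rw [← ofReal_norm]
      exact ENNReal.ofReal_le_ofReal (hΨ.bdd j u)
    · simp only [Set.indicator_of_notMem hu, hΨ.supp j u hu]
      simp
  refine h1.trans_lt ?_
  rw [lintegral_const]
  apply ENNReal.mul_lt_top ENNReal.ofReal_lt_top
  rw [Measure.restrict_apply MeasurableSet.univ, Set.univ_inter, Real.volume_Icc]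
  exact ENNReal.ofReal_lt_top

/-- integrability on the product -/
theorem A6_prod {J : Type} [Fintype J] {k : ℕ} (hk : 16 ≤ k) (β : J → ℝ) {Ψ : J → ℝ → ℂ}
    {M V : ℝ} (hΨ : PsiB Ψ M V) {b : ℕ → ℂ} (H : CForm k b) (j : J) :
    Integrable (fun p : ℝ × ℍ => Ψ j p.1 *
      (A6_F k b p.2 * starRingEnd ℂ (A6_E k (vz (β j) p.1) p.2))) (volume.prod volume) := by
  obtain ⟨C, hC0, hC⟩ := A6_F_bdd H
  obtain ⟨C', hC'⟩ := A6_E_lint hk
  have hm : Measurable (fun p : ℝ × ℍ => Ψ j p.1 *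
      (A6_F k b p.2 * starRingEnd ℂ (A6_E k (vz (β j) p.1) p.2))) := by
    apply ((hΨ.meas j).comp measurable_fst).mul
    apply ((A6_F_cont H).measurable.comp measurable_snd).mul
    exact Complex.continuous_conj.measurable.comp (A6_E_cont_pair k (β j)).measurable
  refine ⟨hm.aestronglyMeasurable, ?_⟩
  rw [HasFiniteIntegral, lintegral_prod _ hm.enorm.aemeasurable]
  have h1 : ∀ u : ℝ, ∫⁻ w : ℍ, ‖Ψ j u *
      (A6_F k b w * starRingEnd ℂ (A6_E k (vz (β j) u) w))‖ₑ ≤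
      ‖Ψ j u‖ₑ * (ENNReal.ofReal C * ENNReal.ofReal C') := by
    intro u
    have h2 : ∀ w : ℍ, ‖Ψ j u * (A6_F k b w * starRingEnd ℂ (A6_E k (vz (β j) u) w))‖ₑ ≤
        ‖Ψ j u‖ₑ * (ENNReal.ofReal C * ‖A6_E k (vz (β j) u) w‖ₑ) := by
      intro w
      rw [enorm_mul, enorm_mul]
      apply mul_le_mul_right
      apply mul_le_mul'
      · rw [← ofReal_norm]
        exact ENNReal.ofReal_le_ofReal (hC w)
      · rw [← ofReal_norm, ← ofReal_norm, RCLike.norm_conj]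
    refine (lintegral_mono h2).trans ?_
    have hm2 : Measurable (fun w : ℍ => ‖A6_E k (vz (β j) u) w‖ₑ) :=
      (A6_E_cont_right k _).measurable.enorm
    rw [lintegral_const_mul _ (hm2.const_mul _), lintegral_const_mul _ hm2]
    apply mul_le_mul_right
    apply mul_le_mul_right
    exact hC' _
  refine (lintegral_mono h1).trans_lt ?_
  rw [lintegral_mul_const _ (hΨ.meas j).enorm]
  exact ENNReal.mul_lt_top (A6_Psi_lint hΨ j)
    (ENNReal.mul_lt_top ENNReal.ofReal_lt_top ENNReal.ofReal_lt_top)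

theorem Lf_eq {J : Type} [Fintype J] {k : ℕ} (hk : 16 ≤ k) (β : J → ℝ) {Ψ : J → ℝ → ℂ}
    {M V : ℝ} (hΨ : PsiB Ψ M V) {b : ℕ → ℂ} (H : CForm k b) :
    Integrable (fun w : ℍ => phf k (qc b) w * starRingEnd ℂ (kap k β Ψ w)) ∧
      Lf k β Ψ b = (((((k : ℝ) - 1) / (4 * Real.pi)) : ℝ) : ℂ) *
        ∫ w : ℍ, phf k (qc b) w * starRingEnd ℂ (kap k β Ψ w) := by
  simp only [A6_F_def]
  have hint := fun j => A6_prod hk β hΨ H j
  -- pointwise form of the integrand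
  have h1 : ∀ w : ℍ, A6_F k b w * starRingEnd ℂ (kap k β Ψ w) =
      ∑ j, ∫ u : ℝ, Ψ j u * (A6_F k b w * starRingEnd ℂ (A6_E k (vz (β j) u) w)) := by
    intro w
    rw [A6_kap_eq, map_sum, Finset.mul_sum]
    apply Finset.sum_congr rfl
    intro j _
    rw [← integral_conj, ← integral_const_mul]
    congr 1
    ext u
    rw [map_mul, Complex.conj_conj]
    ring
  have h2 : ∀ j, Integrable (fun w : ℍ =>
      ∫ u : ℝ, Ψ j u * (A6_F k b w * starRingEnd ℂ (A6_E k (vz (β j) u) w))) :=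
    fun j => (hint j).integral_prod_right
  have hI : Integrable (fun w : ℍ => A6_F k b w * starRingEnd ℂ (kap k β Ψ w)) := by
    simp_rw [h1]
    exact integrable_finsetSum _ (fun j _ => h2 j)
  refine ⟨hI, ?_⟩
  simp_rw [h1]
  rw [integral_finsetSum _ (fun j _ => h2 j), Finset.mul_sum, Lf]
  apply Finset.sum_congr rfl
  intro j _
  rw [integral_integral_swap (f := fun (w : ℍ) (u : ℝ) =>
    Ψ j u * (A6_F k b w * starRingEnd ℂ (A6_E k (vz (β j) u) w))) (hint j).swap,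
    ← integral_const_mul]
  congr 1
  ext u
  rw [integral_const_mul, geo_phf]
  obtain ⟨C, hC⟩ := H.bound
  have h3 := (rep (k := k) (by omega) (cf_holo H) (C := C) hC (vz (β j) u)).2
  simp only [A6_F_def, A6_E_def] at h3
  rw [A6_F_def, h3]
  have hk1 : ((k : ℝ) - 1) ≠ 0 := by
    have : (16 : ℝ) ≤ k := by exact_mod_cast hk
    linarith
  have hpi := Real.pi_ne_zero
  have h4 : (((((k : ℝ) - 1) / (4 * Real.pi)) : ℝ) : ℂ) *
      (((4 * Real.pi / ((k : ℝ) - 1)) : ℝ) : ℂ) = 1 := by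
    rw [← Complex.ofReal_mul]
    rw [show ((k : ℝ) - 1) / (4 * Real.pi) * (4 * Real.pi / ((k : ℝ) - 1)) = 1 by
      field_simp]
    simp
  linear_combination (-(Ψ j u) * A6_F k b (vz (β j) u)) * h4

theorem A6_Kap_meas {J : Type} [Fintype J] {k : ℕ} (hk : 16 ≤ k) (β : J → ℝ) {Ψ : J → ℝ → ℂ}
    {M V : ℝ} (hΨ : PsiB Ψ M V) :
    AEStronglyMeasurable (Kap k β Ψ) (volume.restrict 𝒟ᵒ) := by
  have hkm := kap_meas (k := k) β hΨ
  have hfin := kap_lint hk β hΨ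
  have hms : ∀ g : SL(2, ℤ), Measurable (fun z : ℍ => g • z) := fun g => (RSA_mp g).measurable
  have hmeas : Measurable (fun w : ℍ => (∑' g : SL(2, ℤ), ‖kap k β Ψ (g • w)‖ₑ) ^ 2) := by
    apply Measurable.pow_const
    apply Measurable.ennreal_tsum
    intro g
    exact hkm.measurable.enorm.comp (hms g)
  have hae : ∀ᵐ w ∂(volume.restrict 𝒟ᵒ : Measure ℍ),
      (∑' g : SL(2, ℤ), ‖kap k β Ψ (g • w)‖ₑ) ^ 2 < ∞ :=
    ae_lt_top hmeas hfin.ne
  apply aestronglyMeasurable_of_tendsto_ae (atTop : Filter (Finset SL(2, ℤ)))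
    (f := fun s w => ∑ g ∈ s, starRingEnd ℂ (jk k g w) * kap k β Ψ (g • w))
  · intro s
    apply Finset.aestronglyMeasurable_fun_sum
    intro g _
    have h1 : Measurable (fun w : ℍ => starRingEnd ℂ (jk k g w)) :=
      Complex.continuous_conj.measurable.comp (jk_cont k g).measurable
    exact (h1.mul (hkm.measurable.comp (hms g))).aestronglyMeasurable
  · filter_upwards [hae] with w hw
    have h2 : ∑' g : SL(2, ℤ), ‖kap k β Ψ (g • w)‖ₑ ≠ ∞ := by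
      intro h
      rw [h] at hw
      simp at hw
    have h3 : Summable (fun g : SL(2, ℤ) => starRingEnd ℂ (jk k g w) * kap k β Ψ (g • w)) := by
      apply Summable.of_norm
      have h4 := ENNReal.summable_toReal h2
      apply h4.congr
      intro g
      rw [norm_mul, RCLike.norm_conj, jk_norm, one_mul]
      simp
    exact h3.hasSum

theorem A6_Kap_enorm {J : Type} [Fintype J] (k : ℕ) (β : J → ℝ) (Ψ : J → ℝ → ℂ) (w : ℍ) :
    ‖Kap k β Ψ w‖ₑ ≤ ∑' g : SL(2, ℤ), ‖kap k β Ψ (g • w)‖ₑ := by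
  unfold Kap
  refine enorm_tsum_le_tsum_enorm.trans (le_of_eq ?_)
  apply tsum_congr
  intro g
  rw [enorm_mul]
  have h1 : ‖starRingEnd ℂ (jk k g w)‖ₑ = 1 := by
    rw [← ofReal_norm, RCLike.norm_conj, jk_norm]
    simp
  rw [h1, one_mul]

theorem Lf_CS {J : Type} [Fintype J] {k : ℕ} (hk : 16 ≤ k) (β : J → ℝ) {Ψ : J → ℝ → ℂ}
    {M V : ℝ} (hΨ : PsiB Ψ M V) {b : ℕ → ℂ} (H : CForm k b) :
    ‖Lf k β Ψ b‖ ^ 2 ≤ (((k : ℝ) - 1) / (8 * Real.pi)) ^ 2 * pn k b *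
      ∫ w in 𝒟ᵒ, ‖Kap k β Ψ w‖ ^ 2 := by
  obtain ⟨hI, hL⟩ := Lf_eq hk β hΨ H
  have hkm := kap_meas (k := k) β hΨ
  have hGm : StronglyMeasurable (fun w : ℍ => phf k (qc b) w * starRingEnd ℂ (kap k β Ψ w)) := by
    simp only [A6_F_def]
    exact ((A6_F_cont H).measurable.mul
      (Complex.continuous_conj.measurable.comp hkm.measurable)).stronglyMeasurable
  have hunf := b7_unfold _ hGm hI
  have h1 : ∀ w : ℍ, ∑' g : SL(2, ℤ), phf k (qc b) (g • w) * starRingEnd ℂ (kap k β Ψ (g • w)) =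
      phf k (qc b) w * starRingEnd ℂ (Kap k β Ψ w) := by
    intro w
    have h2 : starRingEnd ℂ (Kap k β Ψ w) =
        ∑' g : SL(2, ℤ), jk k g w * starRingEnd ℂ (kap k β Ψ (g • w)) := by
      unfold Kap
      rw [Complex.conj_tsum]
      apply tsum_congr
      intro g
      rw [map_mul, Complex.conj_conj]
    rw [h2, ← tsum_mul_left]
    apply tsum_congr
    intro g
    rw [cf_smul H]
    ring
  simp only [h1] at hunf
  obtain ⟨hp1, hp2⟩ := pn_eq H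
  have hFm : AEStronglyMeasurable (A6_F k b) (volume.restrict 𝒟ᵒ) :=
    (A6_F_cont H).aestronglyMeasurable
  simp only [A6_F_def] at hunf hp1 hp2 hL
  have hF2 : MemLp (A6_F k b) 2 (volume.restrict 𝒟ᵒ) :=
    (memLp_two_iff_integrable_sq_norm hFm).mpr hp1
  have hKm := A6_Kap_meas hk β hΨ
  have hK2i : Integrable (fun w : ℍ => ‖Kap k β Ψ w‖ ^ 2) (volume.restrict 𝒟ᵒ) := by
    refine ⟨(hKm.norm.pow 2), ?_⟩
    rw [HasFiniteIntegral]
    refine lt_of_le_of_lt (lintegral_mono fun w => ?_) (kap_lint hk β hΨ)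
    show ‖‖Kap k β Ψ w‖ ^ 2‖ₑ ≤ _
    rw [enorm_pow, enorm_norm]
    exact pow_le_pow_left₀ (by simp) (A6_Kap_enorm k β Ψ w) 2
  have hK2 : MemLp (Kap k β Ψ) 2 (volume.restrict 𝒟ᵒ) :=
    (memLp_two_iff_integrable_sq_norm hKm).mpr hK2i
  -- Cauchy-Schwarz
  have hcs : ‖∫ w in 𝒟ᵒ, A6_F k b w * starRingEnd ℂ (Kap k β Ψ w)‖ ^ 2 ≤
      pn k b * ∫ w in 𝒟ᵒ, ‖Kap k β Ψ w‖ ^ 2 := by
    have h3 := integral_mul_norm_le_Lp_mul_Lq (μ := volume.restrict 𝒟ᵒ) (f := A6_F k b)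
      (g := Kap k β Ψ) Real.HolderConjugate.two_two (by simpa using hF2) (by simpa using hK2)
    have h4 : ‖∫ w in 𝒟ᵒ, A6_F k b w * starRingEnd ℂ (Kap k β Ψ w)‖ ≤
        ∫ w in 𝒟ᵒ, ‖A6_F k b w‖ * ‖Kap k β Ψ w‖ := by
      refine (norm_integral_le_integral_norm _).trans (le_of_eq ?_)
      congr 1
      ext w
      rw [norm_mul, RCLike.norm_conj]
    have h5 := h4.trans h3
    have hA : 0 ≤ ∫ w in 𝒟ᵒ, ‖A6_F k b w‖ ^ 2 := integral_nonneg (fun w => by positivity)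
    have hB : 0 ≤ ∫ w in 𝒟ᵒ, ‖Kap k β Ψ w‖ ^ 2 := integral_nonneg (fun w => by positivity)
    have h6 := pow_le_pow_left₀ (norm_nonneg _) h5 2
    refine h6.trans (le_of_eq ?_)
    rw [mul_pow, ← hp2]
    simp only [Real.rpow_two]
    rw [← Real.rpow_natCast, ← Real.rpow_natCast, ← Real.rpow_mul hA, ← Real.rpow_mul hB]
    norm_num
  have h7 : ∫ w : ℍ, A6_F k b w * starRingEnd ℂ (kap k β Ψ w) =
      (1 / 2 : ℂ) * ∫ w in 𝒟ᵒ, A6_F k b w * starRingEnd ℂ (Kap k β Ψ w) := by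
    rw [hunf]
    ring
  rw [hL, h7, norm_mul, norm_mul, mul_pow, mul_pow, Complex.norm_real, Real.norm_eq_abs, sq_abs]
  have h8 : ‖(1 / 2 : ℂ)‖ = 1 / 2 := by norm_num
  rw [h8]
  calc (((k : ℝ) - 1) / (4 * Real.pi)) ^ 2 * ((1 / 2) ^ 2 *
        ‖∫ w in 𝒟ᵒ, A6_F k b w * starRingEnd ℂ (Kap k β Ψ w)‖ ^ 2)
      = (((k : ℝ) - 1) / (8 * Real.pi)) ^ 2 *
        ‖∫ w in 𝒟ᵒ, A6_F k b w * starRingEnd ℂ (Kap k β Ψ w)‖ ^ 2 := by
        have := Real.pi_ne_zero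
        field_simp
        ring
    _ ≤ (((k : ℝ) - 1) / (8 * Real.pi)) ^ 2 * (pn k b * ∫ w in 𝒟ᵒ, ‖Kap k β Ψ w‖ ^ 2) :=
        mul_le_mul_of_nonneg_left hcs (by positivity)
    _ = _ := by ring

end Pool.Agent.WA
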