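import Pool.Agent.Lib_helper98.WAF.A6
import Pool.Agent.Lib_helper68.GL2.B7

/-! Block A7 (PTD): the norm of the averaged kernel (helper96). -/

namespace Pool.Agent.WA

open Complex MeasureTheory Filter Topology UpperHalfPlane ModularGroup
open scoped MatrixGroups Modular ENNReal
open Pool.Agent.GL2 (qs HData am dens hatw Ep Mol xt FD IsCompletedL oddZ RSA_mp RSA_unfold b7_me
  b7_unfold RSA_countable)

theorem A7_E_enorm (k : ℕ) (z w : ℍ) :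
    ‖phf k (ez k z) w‖ₑ = ENNReal.ofReal (ch z w ^ (-(k : ℝ) / 2)) := by
  rw [← ofReal_norm, ez_norm]

theorem A7_E_le (k : ℕ) (z w : ℍ) : ‖phf k (ez k z) w‖ ≤ 1 := by
  rw [ez_norm]
  apply Real.rpow_le_one_of_one_le_of_nonpos (one_le_ch z w)
  have : (0 : ℝ) ≤ k := Nat.cast_nonneg k
  linarith

theorem A7_E_le' (k : ℕ) (z w : ℍ) : ‖phf k (ez k z) w‖ₑ ≤ 1 := by
  rw [← ofReal_norm]
  calc ENNReal.ofReal ‖phf k (ez k z) w‖ ≤ ENNReal.ofReal 1 :=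
        ENNReal.ofReal_le_ofReal (A7_E_le k z w)
    _ = 1 := ENNReal.ofReal_one

theorem A7_lintE {k : ℕ} (hk : 16 ≤ k) : ∃ C : ℝ, ∀ z : ℍ,
    ∫⁻ w : ℍ, ‖phf k (ez k z) w‖ₑ ≤ ENNReal.ofReal C := by
  obtain ⟨C, hC⟩ := ch_lint
  refine ⟨C, fun z => le_trans (lintegral_mono fun w => ?_) (hC z)⟩
  rw [A7_E_enorm]
  apply ENNReal.ofReal_le_ofReal
  apply Real.rpow_le_rpow_of_exponent_le (one_le_ch z w)
  have : (16 : ℝ) ≤ k := by exact_mod_cast hk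
  linarith

theorem A7_E_cont (k : ℕ) (β : ℝ) :
    Continuous (fun p : ℍ × ℝ => phf k (ez k (vz β p.2)) p.1) := by
  have h1 : Continuous (fun p : ℍ × ℝ => ((vz β p.2, p.1) : ℍ × ℍ)) :=
    ((vz_cont β).comp continuous_snd).prodMk continuous_fst
  have h2 := (ez_cont k).comp h1
  simpa only [Function.comp_def] using h2

theorem A7_psi_lint {J : Type} {Ψ : J → ℝ → ℂ} {M V : ℝ} (hΨ : PsiB Ψ M V) (j : J) :
    ∫⁻ u, ‖Ψ j u‖ₑ < ∞ := by
  have h1 : ∀ u, ‖Ψ j u‖ₑ ≤ (Set.Icc (-V) V).indicator (fun _ => ENNReal.ofReal M) u := by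
    intro u
    by_cases hu : u ∈ Set.Icc (-V) V
    · rw [Set.indicator_of_mem hu, ← ofReal_norm]
      exact ENNReal.ofReal_le_ofReal (hΨ.bdd j u)
    · rw [Set.indicator_of_notMem hu, hΨ.supp j u hu]
      simp
  refine lt_of_le_of_lt (lintegral_mono h1) ?_
  rw [lintegral_indicator measurableSet_Icc, setLIntegral_const, Real.volume_Icc]
  exact ENNReal.mul_lt_top ENNReal.ofReal_lt_top ENNReal.ofReal_lt_top

/-- one summand of `κ` -/
noncomputable def A7_kj (k : ℕ) (β : ℝ) (Ψ : ℝ → ℂ) (w : ℍ) : ℂ :=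
  ∫ u : ℝ, starRingEnd ℂ (Ψ u) * phf k (ez k (vz β u)) w

theorem A7_kap {J : Type} [Fintype J] (k : ℕ) (β : J → ℝ) (Ψ : J → ℝ → ℂ) (w : ℍ) :
    kap k β Ψ w = ∑ j, A7_kj k (β j) (Ψ j) w := rfl

/-- integrability on `ℍ × ℝ` -/
theorem A7_intprod {k : ℕ} (β : ℝ) {Ψ : ℝ → ℂ} (hm : Measurable Ψ)
    (hi : ∫⁻ u, ‖Ψ u‖ₑ < ∞) {H : ℍ → ℂ} (hH : Measurable H)
    (hfin : ∃ C : ℝ≥0∞, C < ∞ ∧ ∀ u, ∫⁻ w : ℍ, ‖H w‖ₑ * ‖phf k (ez k (vz β u)) w‖ₑ ≤ C) :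
    Integrable (fun p : ℍ × ℝ => H p.1 * (starRingEnd ℂ (Ψ p.2) * phf k (ez k (vz β p.2)) p.1))
      (volume.prod volume) := by
  have hmeas : Measurable (fun p : ℍ × ℝ => H p.1 *
      (starRingEnd ℂ (Ψ p.2) * phf k (ez k (vz β p.2)) p.1)) := by
    apply (hH.comp measurable_fst).mul
    apply Measurable.mul
    · exact (Complex.continuous_conj.measurable.comp hm).comp measurable_snd
    · exact (A7_E_cont k β).measurable
  refine ⟨hmeas.aestronglyMeasurable, ?_⟩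
  unfold HasFiniteIntegral
  rw [lintegral_prod_symm' _ hmeas.enorm]
  obtain ⟨C, hC, hb⟩ := hfin
  have h1 : ∀ u : ℝ, ∫⁻ w : ℍ, ‖H w * (starRingEnd ℂ (Ψ u) * phf k (ez k (vz β u)) w)‖ₑ ≤
      ‖Ψ u‖ₑ * C := by
    intro u
    have h2 : ∀ w : ℍ, ‖H w * (starRingEnd ℂ (Ψ u) * phf k (ez k (vz β u)) w)‖ₑ =
        ‖Ψ u‖ₑ * (‖H w‖ₑ * ‖phf k (ez k (vz β u)) w‖ₑ) := by
      intro w
      rw [enorm_mul, enorm_mul, RCLike.enorm_conj]
      ring
    simp_rw [h2]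
    rw [lintegral_const_mul]
    · gcongr
      exact hb u
    · have : Measurable (fun w : ℍ => phf k (ez k (vz β u)) w) :=
        ((ez_cont k).comp (continuous_const.prodMk continuous_id)).measurable
      exact hH.enorm.mul this.enorm
  refine lt_of_le_of_lt (lintegral_mono h1) ?_
  rw [lintegral_mul_const _ hm.enorm]
  exact ENNReal.mul_lt_top hi hC

theorem A7_E_meas (k : ℕ) (z : ℍ) : Measurable (fun w : ℍ => phf k (ez k z) w) :=
  ((ez_cont k).comp (continuous_const.prodMk continuous_id)).measurable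

/-- reproducing property of `κ_j` -/
theorem A7_rep1 {k : ℕ} (hk : 16 ≤ k) (β : ℝ) {Ψ : ℝ → ℂ} (hm : Measurable Ψ)
    (hi : ∫⁻ u, ‖Ψ u‖ₑ < ∞) (z : ℍ) :
    Integrable (fun w : ℍ => A7_kj k β Ψ w * starRingEnd ℂ (phf k (ez k z) w)) ∧
      ∫ w : ℍ, A7_kj k β Ψ w * starRingEnd ℂ (phf k (ez k z) w) =
        ((4 * Real.pi / ((k : ℝ) - 1) : ℝ) : ℂ) * A7_kj k β Ψ z := by
  obtain ⟨C, hC⟩ := A7_lintE hk
  have hH : Measurable (fun w : ℍ => starRingEnd ℂ (phf k (ez k z) w)) :=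
    Complex.continuous_conj.measurable.comp (A7_E_meas k z)
  have h1 := A7_intprod (k := k) β hm hi hH ⟨ENNReal.ofReal C, ENNReal.ofReal_lt_top, fun u => by
    refine le_trans (lintegral_mono fun w => ?_) (hC (vz β u))
    calc ‖starRingEnd ℂ (phf k (ez k z) w)‖ₑ * ‖phf k (ez k (vz β u)) w‖ₑ
        ≤ 1 * ‖phf k (ez k (vz β u)) w‖ₑ := by
          gcongr
          rw [RCLike.enorm_conj]
          exact A7_E_le' k z w
      _ = _ := one_mul _⟩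
  have h2 : ∀ w : ℍ, A7_kj k β Ψ w * starRingEnd ℂ (phf k (ez k z) w) =
      ∫ u : ℝ, starRingEnd ℂ (phf k (ez k z) w) *
        (starRingEnd ℂ (Ψ u) * phf k (ez k (vz β u)) w) := by
    intro w
    rw [integral_const_mul, mul_comm]
    rfl
  constructor
  · simp_rw [h2]
    exact h1.integral_prod_left
  · simp_rw [h2]
    rw [integral_integral_swap h1]
    unfold A7_kj
    rw [← integral_const_mul]
    congr 1
    ext u
    have h3 := (rep (by omega : 3 ≤ k) (ez_holo k (vz β u)) (C := 1)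
      (fun w hw => by rw [one_mul]; exact ez_bound k (vz β u) w hw) z).2
    have h4 : ∀ w : ℍ, starRingEnd ℂ (phf k (ez k z) w) *
        (starRingEnd ℂ (Ψ u) * phf k (ez k (vz β u)) w) =
        starRingEnd ℂ (Ψ u) * (phf k (ez k (vz β u)) w * starRingEnd ℂ (phf k (ez k z) w)) := by
      intro w; ring
    simp_rw [h4]
    rw [integral_const_mul, h3]
    ring

theorem A7_repK {J : Type} [Fintype J] {k : ℕ} (hk : 16 ≤ k) (β : J → ℝ) {Ψ : J → ℝ → ℂ}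
    {M V : ℝ} (hΨ : PsiB Ψ M V) (z : ℍ) :
    ∫ w : ℍ, kap k β Ψ w * starRingEnd ℂ (phf k (ez k z) w) =
        ((4 * Real.pi / ((k : ℝ) - 1) : ℝ) : ℂ) * kap k β Ψ z := by
  simp_rw [A7_kap, Finset.sum_mul, Finset.mul_sum]
  rw [integral_finsetSum]
  · apply Finset.sum_congr rfl
    intro j _
    exact (A7_rep1 hk (β j) (hΨ.meas j) (A7_psi_lint hΨ j) z).2
  · intro j _
    exact (A7_rep1 hk (β j) (hΨ.meas j) (A7_psi_lint hΨ j) z).1

theorem A7_jk_one (k : ℕ) (w : ℍ) : jk k 1 w = 1 := by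
  unfold jk jd
  simp

theorem A7_repH {J : Type} [Fintype J] {k : ℕ} (hk : 16 ≤ k) (β : J → ℝ) {Ψ : J → ℝ → ℂ}
    {M V : ℝ} (hΨ : PsiB Ψ M V) (h : SL(2, ℤ)) (z : ℍ) :
    ∫ w : ℍ, starRingEnd ℂ (jk k h w) * kap k β Ψ (h • w) * starRingEnd ℂ (phf k (ez k z) w) =
        jk k h⁻¹ (h • z) * (((4 * Real.pi / ((k : ℝ) - 1) : ℝ) : ℂ) * kap k β Ψ (h • z)) := by
  rw [← (RSA_mp h⁻¹).integral_comp (b7_me h⁻¹), ← A7_repK hk β hΨ (h • z), ← integral_const_mul]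
  congr 1
  ext w
  have h1 := ez_smul k h⁻¹ z w
  rw [inv_inv] at h1
  have h2 := jk_mul k h h⁻¹ w
  rw [mul_inv_cancel, A7_jk_one] at h2
  rw [h1, smul_inv_smul, map_mul, map_mul, Complex.conj_conj]
  have h3 : starRingEnd ℂ (jk k h (h⁻¹ • w)) * starRingEnd ℂ (jk k h⁻¹ w) = 1 := by
    rw [← map_mul, ← h2, map_one]
  linear_combination (jk k h⁻¹ (h • z) * kap k β Ψ w *
    starRingEnd ℂ (phf k (ez k (h • z)) w)) * h3

theorem A7_kap_meas {J : Type} [Fintype J] {k : ℕ} (β : J → ℝ) {Ψ : J → ℝ → ℂ}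
    {M V : ℝ} (hΨ : PsiB Ψ M V) : Measurable (kap k β Ψ) := (kap_meas β hΨ).measurable

theorem A7_H_meas {J : Type} [Fintype J] {k : ℕ} (β : J → ℝ) {Ψ : J → ℝ → ℂ}
    {M V : ℝ} (hΨ : PsiB Ψ M V) (h : SL(2, ℤ)) :
    Measurable (fun w : ℍ => starRingEnd ℂ (jk k h w) * kap k β Ψ (h • w)) :=
  (Complex.continuous_conj.measurable.comp (jk_cont k h).measurable).mul
    ((A7_kap_meas β hΨ).comp (RSA_mp h).measurable)

theorem A7_jk_enorm (k : ℕ) (h : SL(2, ℤ)) (w : ℍ) : ‖jk k h w‖ₑ = 1 := by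
  rw [← ofReal_norm, jk_norm, ENNReal.ofReal_one]

/-- the bound for one `h` -/
theorem A7_oneh {J : Type} [Fintype J] {k : ℕ} (hk : 16 ≤ k) (β : J → ℝ) {Ψ : J → ℝ → ℂ}
    {M V : ℝ} (hΨ : PsiB Ψ M V) (h : SL(2, ℤ)) :
    ‖∫ w : ℍ, starRingEnd ℂ (jk k h w) * kap k β Ψ (h • w) * starRingEnd ℂ (kap k β Ψ w)‖ₑ ≤
      ENNReal.ofReal (4 * Real.pi / ((k : ℝ) - 1)) *
        ∑ j, ∫⁻ u : ℝ, ‖Ψ j u‖ₑ * ‖kap k β Ψ (h • vz (β j) u)‖ₑ := by
  set H : ℍ → ℂ := fun w => starRingEnd ℂ (jk k h w) * kap k β Ψ (h • w) with hHd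
  have hHm : Measurable H := A7_H_meas β hΨ h
  have hHe : ∀ w, ‖H w‖ₑ = ‖kap k β Ψ (h • w)‖ₑ := by
    intro w
    rw [hHd]
    simp only
    rw [enorm_mul, RCLike.enorm_conj, A7_jk_enorm, one_mul]
  have hHfin : ∫⁻ w : ℍ, ‖H w‖ₑ < ∞ := by
    simp_rw [hHe]
    rw [(RSA_mp h).lintegral_comp (f := fun w => ‖kap k β Ψ w‖ₑ) (A7_kap_meas β hΨ).enorm]
    exact kap_lint1 hk β hΨ
  have hprod : ∀ j, Integrable (fun p : ℍ × ℝ => H p.1 *
      (starRingEnd ℂ (starRingEnd ℂ (Ψ j p.2)) *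
        starRingEnd ℂ (phf k (ez k (vz (β j) p.2)) p.1))) (volume.prod volume) := by
    intro j
    have hH' : Measurable (fun w => starRingEnd ℂ (H w)) :=
      Complex.continuous_conj.measurable.comp hHm
    have h1 := A7_intprod (k := k) (β j) (hΨ.meas j) (A7_psi_lint hΨ j) hH'
      ⟨∫⁻ w : ℍ, ‖H w‖ₑ, hHfin, fun u => lintegral_mono fun w => by
        calc ‖starRingEnd ℂ (H w)‖ₑ * ‖phf k (ez k (vz (β j) u)) w‖ₑ
            ≤ ‖H w‖ₑ * 1 := by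
              rw [RCLike.enorm_conj]
              gcongr
              exact A7_E_le' k _ w
          _ = _ := mul_one _⟩
    have h2 := ContinuousLinearMap.integrable_comp (Complex.conjCLE : ℂ →L[ℝ] ℂ) h1
    refine h2.congr (Eventually.of_forall fun p => ?_)
    show starRingEnd ℂ _ = _
    simp only [map_mul, Complex.conj_conj]
  have hk1 : ∀ (j : J) (w : ℍ), H w * starRingEnd ℂ (A7_kj k (β j) (Ψ j) w) =
      ∫ u : ℝ, H w * (starRingEnd ℂ (starRingEnd ℂ (Ψ j u)) *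
        starRingEnd ℂ (phf k (ez k (vz (β j) u)) w)) := by
    intro j w
    rw [integral_const_mul]
    congr 1
    unfold A7_kj
    rw [← integral_conj]
    simp_rw [map_mul]
  have hmain : ∫ w : ℍ, H w * starRingEnd ℂ (kap k β Ψ w) =
      ∑ j, ∫ u : ℝ, Ψ j u * (jk k h⁻¹ (h • vz (β j) u) *
        (((4 * Real.pi / ((k : ℝ) - 1) : ℝ) : ℂ) * kap k β Ψ (h • vz (β j) u))) := by
    have h1 : ∀ w : ℍ, H w * starRingEnd ℂ (kap k β Ψ w) =
        ∑ j, H w * starRingEnd ℂ (A7_kj k (β j) (Ψ j) w) := by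
      intro w
      rw [A7_kap, map_sum, Finset.mul_sum]
    simp_rw [h1]
    rw [integral_finsetSum]
    · apply Finset.sum_congr rfl
      intro j _
      simp_rw [hk1 j]
      rw [integral_integral_swap (hprod j)]
      congr 1
      ext u
      have h3 := A7_repH hk β hΨ h (vz (β j) u)
      have h4 : ∀ w : ℍ, H w * (starRingEnd ℂ (starRingEnd ℂ (Ψ j u)) *
          starRingEnd ℂ (phf k (ez k (vz (β j) u)) w)) =
          Ψ j u * (starRingEnd ℂ (jk k h w) * kap k β Ψ (h • w) *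
            starRingEnd ℂ (phf k (ez k (vz (β j) u)) w)) := by
        intro w
        rw [Complex.conj_conj, hHd]
        ring
      simp_rw [h4]
      rw [integral_const_mul, h3]
    · intro j _
      simp_rw [hk1 j]
      exact (hprod j).integral_prod_left
  rw [hmain, Finset.mul_sum]
  refine (enorm_sum_le _ _).trans (Finset.sum_le_sum fun j _ => ?_)
  refine (enorm_integral_le_lintegral_enorm _).trans ?_
  rw [← lintegral_const_mul' _ _ ENNReal.ofReal_ne_top]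
  apply lintegral_mono
  intro u
  simp only
  rw [enorm_mul, enorm_mul, enorm_mul, A7_jk_enorm, one_mul]
  have h5 : ‖(((4 * Real.pi / ((k : ℝ) - 1) : ℝ) : ℂ))‖ₑ =
      ENNReal.ofReal (4 * Real.pi / ((k : ℝ) - 1)) := by
    have h6 : (0 : ℝ) ≤ 4 * Real.pi / ((k : ℝ) - 1) := by
      have : (16 : ℝ) ≤ k := by exact_mod_cast hk
      have h7 : (0 : ℝ) ≤ (k : ℝ) - 1 := by linarith
      positivity
    rw [← ofReal_norm, Complex.norm_real, Real.norm_of_nonneg h6]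
  rw [h5]
  apply le_of_eq
  ring

theorem A7_ch_meas (k : ℕ) (β β' : ℝ) (h : SL(2, ℤ)) :
    Measurable (fun p : ℝ × ℝ => ENNReal.ofReal (ch (h • vz β p.1) (vz β' p.2) ^ (-(k : ℝ) / 2))) := by
  apply ENNReal.measurable_ofReal.comp
  apply Measurable.pow_const
  have h1 : Measurable (fun p : ℝ × ℝ => ((h • vz β p.1, vz β' p.2) : ℍ × ℍ)) :=
    ((RSA_mp h).measurable.comp ((vz_cont β).measurable.comp measurable_fst)).prodMk
      ((vz_cont β').measurable.comp measurable_snd)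
  have h2 := ch_cont.measurable.comp h1
  simpa only [Function.comp_def] using h2

theorem A7_kap_le {J : Type} [Fintype J] (k : ℕ) (β : J → ℝ) (Ψ : J → ℝ → ℂ) (w : ℍ) :
    ‖kap k β Ψ w‖ₑ ≤ ∑ j', ∫⁻ u' : ℝ, ‖Ψ j' u'‖ₑ *
      ENNReal.ofReal (ch w (vz (β j') u') ^ (-(k : ℝ) / 2)) := by
  unfold kap
  refine (enorm_sum_le _ _).trans (Finset.sum_le_sum fun j _ => ?_)
  refine (enorm_integral_le_lintegral_enorm _).trans ?_
  apply lintegral_mono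
  intro u
  simp only
  rw [enorm_mul, RCLike.enorm_conj, A7_E_enorm, ch_comm]

/-- `KS` as a sum over the group -/
theorem A7_KS {J : Type} [Fintype J] (k : ℕ) (β : J → ℝ) {Ψ : J → ℝ → ℂ}
    {M V : ℝ} (hΨ : PsiB Ψ M V) : KS k β Ψ =
      ∑' h : SL(2, ℤ), ∑ j, ∫⁻ u : ℝ, ‖Ψ j u‖ₑ * ∑ j', ∫⁻ u' : ℝ, ‖Ψ j' u'‖ₑ *
        ENNReal.ofReal (ch (h • vz (β j) u) (vz (β j') u') ^ (-(k : ℝ) / 2)) := by
  have hm : ∀ (h : SL(2, ℤ)) (j j' : J), Measurable (fun p : ℝ × ℝ => ‖Ψ j p.1‖ₑ * (‖Ψ j' p.2‖ₑ *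
        ENNReal.ofReal (ch (h • vz (β j) p.1) (vz (β j') p.2) ^ (-(k : ℝ) / 2)))) := by
    intro h j j'
    exact ((hΨ.meas j).enorm.comp measurable_fst).mul
      (((hΨ.meas j').enorm.comp measurable_snd).mul (A7_ch_meas k (β j) (β j') h))
  have hm2 : ∀ (h : SL(2, ℤ)) (j j' : J), Measurable (fun u : ℝ => ∫⁻ u' : ℝ, ‖Ψ j u‖ₑ *
      (‖Ψ j' u'‖ₑ * ENNReal.ofReal (ch (h • vz (β j) u) (vz (β j') u') ^ (-(k : ℝ) / 2)))) := by
    intro h j j'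
    exact (hm h j j').lintegral_prod_right'
  have hm3 : ∀ (h : SL(2, ℤ)) (j j' : J) (u : ℝ), Measurable (fun u' : ℝ =>
      (‖Ψ j' u'‖ₑ * ENNReal.ofReal (ch (h • vz (β j) u) (vz (β j') u') ^ (-(k : ℝ) / 2)))) := by
    intro h j j' u
    have h0 := (A7_ch_meas k (β j) (β j') h).comp (measurable_prodMk_left (x := u))
    simp only [Function.comp_def] at h0
    exact (hΨ.meas j').enorm.mul h0
  have h1 : ∀ (h : SL(2, ℤ)) (j : J), ∫⁻ u : ℝ, ‖Ψ j u‖ₑ * ∑ j', ∫⁻ u' : ℝ, ‖Ψ j' u'‖ₑ *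
        ENNReal.ofReal (ch (h • vz (β j) u) (vz (β j') u') ^ (-(k : ℝ) / 2)) =
      ∑ j', ∫⁻ u : ℝ, ∫⁻ u' : ℝ, ‖Ψ j u‖ₑ * (‖Ψ j' u'‖ₑ *
        ENNReal.ofReal (ch (h • vz (β j) u) (vz (β j') u') ^ (-(k : ℝ) / 2))) := by
    intro h j
    simp_rw [Finset.mul_sum]
    rw [lintegral_finsetSum]
    · apply Finset.sum_congr rfl
      intro j' _
      apply lintegral_congr
      intro u
      rw [lintegral_const_mul _ (hm3 h j j' u)]
    · intro j' _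
      have h0 : (fun u : ℝ => ‖Ψ j u‖ₑ * ∫⁻ u' : ℝ, ‖Ψ j' u'‖ₑ *
          ENNReal.ofReal (ch (h • vz (β j) u) (vz (β j') u') ^ (-(k : ℝ) / 2))) =
          fun u : ℝ => ∫⁻ u' : ℝ, ‖Ψ j u‖ₑ * (‖Ψ j' u'‖ₑ *
            ENNReal.ofReal (ch (h • vz (β j) u) (vz (β j') u') ^ (-(k : ℝ) / 2))) := by
        ext u
        rw [lintegral_const_mul _ (hm3 h j j' u)]
      rw [h0]
      exact hm2 h j j'
  simp_rw [h1]
  rw [Summable.tsum_finsetSum (fun _ _ => ENNReal.summable)]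
  unfold KS
  apply Finset.sum_congr rfl
  intro j _
  rw [Summable.tsum_finsetSum (fun _ _ => ENNReal.summable)]
  apply Finset.sum_congr rfl
  intro j' _
  rw [← lintegral_tsum (fun h => (hm2 h j j').aemeasurable)]
  apply lintegral_congr
  intro u
  rw [← lintegral_tsum]
  · apply lintegral_congr
    intro u'
    rw [← ENNReal.tsum_mul_left]
    congr 1
    ext h
    ring
  · intro h
    have h0 := (hm h j j').comp (measurable_prodMk_left (x := u))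
    simp only [Function.comp_def] at h0
    exact h0.aemeasurable

/-- summing the bounds over `h` -/
theorem A7_allh {J : Type} [Fintype J] {k : ℕ} (hk : 16 ≤ k) (β : J → ℝ) {Ψ : J → ℝ → ℂ}
    {M V : ℝ} (hΨ : PsiB Ψ M V) :
    ∑' h : SL(2, ℤ), ‖∫ w : ℍ, starRingEnd ℂ (jk k h w) * kap k β Ψ (h • w) *
        starRingEnd ℂ (kap k β Ψ w)‖ₑ ≤
      ENNReal.ofReal (4 * Real.pi / ((k : ℝ) - 1)) * KS k β Ψ := by
  rw [A7_KS k β hΨ, ← ENNReal.tsum_mul_left]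
  apply ENNReal.tsum_le_tsum
  intro h
  refine (A7_oneh hk β hΨ h).trans ?_
  gcongr with j _ u
  exact A7_kap_le k β Ψ _

/-- the absolute sum -/
noncomputable def A7_A {J : Type} [Fintype J] (k : ℕ) (β : J → ℝ) (Ψ : J → ℝ → ℂ) (w : ℍ) : ℝ≥0∞ :=
  ∑' g : SL(2, ℤ), ‖kap k β Ψ (g • w)‖ₑ

theorem A7_A_smul {J : Type} [Fintype J] (k : ℕ) (β : J → ℝ) (Ψ : J → ℝ → ℂ) (h : SL(2, ℤ))
    (w : ℍ) : A7_A k β Ψ (h • w) = A7_A k β Ψ w := by
  unfold A7_A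
  rw [← (Equiv.mulRight h).tsum_eq (fun g : SL(2, ℤ) => ‖kap k β Ψ (g • w)‖ₑ)]
  apply tsum_congr
  intro g
  rw [Equiv.coe_mulRight, mul_smul]

theorem A7_Kap_smul {J : Type} [Fintype J] (k : ℕ) (β : J → ℝ) (Ψ : J → ℝ → ℂ) (h : SL(2, ℤ))
    (w : ℍ) : Kap k β Ψ (h • w) = jk k h w * Kap k β Ψ w := by
  unfold Kap
  rw [← (Equiv.mulRight h).tsum_eq
    (fun g : SL(2, ℤ) => starRingEnd ℂ (jk k g w) * kap k β Ψ (g • w)), ← tsum_mul_left]
  apply tsum_congr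
  intro g
  rw [Equiv.coe_mulRight, mul_smul, jk_mul, map_mul]
  have h1 : jk k h w * starRingEnd ℂ (jk k h w) = 1 := by
    rw [Complex.mul_conj, Complex.normSq_eq_norm_sq, jk_norm]
    norm_num
  linear_combination (-starRingEnd ℂ (jk k g (h • w)) * kap k β Ψ (g • h • w)) * h1

theorem A7_Kap_meas {J : Type} [Fintype J] {k : ℕ} (β : J → ℝ) {Ψ : J → ℝ → ℂ}
    {M V : ℝ} (hΨ : PsiB Ψ M V) : Measurable (Kap k β Ψ) := by
  unfold Kap
  exact Measurable.tsum (fun g => A7_H_meas β hΨ g)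

/-- block A7 -/
theorem Kap_norm {J : Type} [Fintype J] {k : ℕ} (hk : 16 ≤ k) (β : J → ℝ) {Ψ : J → ℝ → ℂ}
    {M V : ℝ} (hΨ : PsiB Ψ M V) :
    ENNReal.ofReal (∫ w in 𝒟ᵒ, ‖Kap k β Ψ w‖ ^ 2) ≤
      ENNReal.ofReal (8 * Real.pi / ((k : ℝ) - 1)) * KS k β Ψ := by
  set f : SL(2, ℤ) → ℍ → ℂ := fun g w => starRingEnd ℂ (jk k g w) * kap k β Ψ (g • w) *
    starRingEnd ℂ (kap k β Ψ w) with hf
  have hkm := A7_kap_meas (k := k) β hΨ
  have hkc : Measurable (fun w : ℍ => starRingEnd ℂ (kap k β Ψ w)) :=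
    Complex.continuous_conj.measurable.comp hkm
  have hfm : ∀ g, Measurable (f g) := fun g => (A7_H_meas β hΨ g).mul hkc
  set G : ℍ → ℂ := fun w => Kap k β Ψ w * starRingEnd ℂ (kap k β Ψ w) with hG
  have hGf : ∀ w, G w = ∑' g, f g w := by
    intro w
    rw [hG, hf]
    simp only
    unfold Kap
    rw [tsum_mul_right]
  have hGm : Measurable G := (A7_Kap_meas β hΨ).mul hkc
  have hfe : ∀ g w, ‖f g w‖ₑ = ‖kap k β Ψ (g • w)‖ₑ * ‖kap k β Ψ w‖ₑ := by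
    intro g w
    rw [hf]
    simp only
    rw [enorm_mul, enorm_mul, RCLike.enorm_conj, RCLike.enorm_conj, A7_jk_enorm, one_mul]
  have hAm : Measurable (A7_A k β Ψ) := by
    unfold A7_A
    exact Measurable.tsum (fun g => (hkm.comp (RSA_mp g).measurable).enorm)
  have hfin : ∫⁻ w : ℍ, ∑' g, ‖f g w‖ₑ < ∞ := by
    have h1 : ∀ w, ∑' g, ‖f g w‖ₑ = A7_A k β Ψ w * ‖kap k β Ψ w‖ₑ := by
      intro w
      simp_rw [hfe]
      rw [ENNReal.tsum_mul_right]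
      rfl
    simp_rw [h1]
    have h2 := RSA_unfold (fun w => A7_A k β Ψ w * ‖kap k β Ψ w‖ₑ) (hAm.mul hkm.enorm)
    simp_rw [A7_A_smul, ENNReal.tsum_mul_left] at h2
    have h3 : ∫⁻ z in 𝒟ᵒ, A7_A k β Ψ z * ∑' i : SL(2, ℤ), ‖kap k β Ψ (i • z)‖ₑ < ∞ := by
      have h4 := kap_lint hk β hΨ
      refine lt_of_le_of_lt (le_of_eq ?_) h4
      apply lintegral_congr
      intro w
      rw [sq]
      rfl
    rw [h2] at h3
    by_contra hcon
    rw [not_lt, top_le_iff] at hcon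
    rw [hcon] at h3
    simp at h3
  have hGi : Integrable G := by
    refine ⟨hGm.aestronglyMeasurable, ?_⟩
    unfold HasFiniteIntegral
    refine lt_of_le_of_lt (lintegral_mono fun w => ?_) hfin
    rw [hGf]
    exact enorm_tsum_le_tsum_enorm
  have hpt : ∀ w : ℍ, ∑' g : SL(2, ℤ), G (g • w) = ((‖Kap k β Ψ w‖ ^ 2 : ℝ) : ℂ) := by
    intro w
    have h1 : ∀ g : SL(2, ℤ), G (g • w) = Kap k β Ψ w *
        star (starRingEnd ℂ (jk k g w) * kap k β Ψ (g • w)) := by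
      intro g
      rw [hG]
      simp only
      rw [A7_Kap_smul, RCLike.star_def, map_mul, Complex.conj_conj]
      ring
    simp_rw [h1]
    rw [tsum_mul_left, ← tsum_star]
    have h2 : ∑' g : SL(2, ℤ), starRingEnd ℂ (jk k g w) * kap k β Ψ (g • w) = Kap k β Ψ w := rfl
    rw [h2, RCLike.star_def, Complex.mul_conj, Complex.normSq_eq_norm_sq]
  have hunf := b7_unfold G hGm.stronglyMeasurable hGi
  simp_rw [hpt] at hunf
  have hofr : ∫ z in 𝒟ᵒ, ((‖Kap k β Ψ z‖ ^ 2 : ℝ) : ℂ) =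
      ((∫ z in 𝒟ᵒ, ‖Kap k β Ψ z‖ ^ 2 : ℝ) : ℂ) := integral_ofReal
  rw [hofr] at hunf
  have hsum : ∫ w : ℍ, G w = ∑' g, ∫ w : ℍ, f g w := by
    simp_rw [hGf]
    apply integral_tsum (fun g => (hfm g).aestronglyMeasurable)
    rw [← lintegral_tsum (fun g => (hfm g).enorm.aemeasurable)]
    exact hfin.ne
  rw [hsum] at hunf
  have hnn : 0 ≤ ∫ w in 𝒟ᵒ, ‖Kap k β Ψ w‖ ^ 2 := integral_nonneg (fun w => by positivity)
  have h1 : ENNReal.ofReal (∫ w in 𝒟ᵒ, ‖Kap k β Ψ w‖ ^ 2) =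
      ‖((∫ w in 𝒟ᵒ, ‖Kap k β Ψ w‖ ^ 2 : ℝ) : ℂ)‖ₑ := by
    rw [← ofReal_norm, Complex.norm_real, Real.norm_of_nonneg hnn]
  rw [h1, hunf, enorm_mul]
  have h2 : ‖(2 : ℂ)‖ₑ = ENNReal.ofReal 2 := by
    rw [← ofReal_norm]
    simp
  have hk1 : (0 : ℝ) ≤ 4 * Real.pi / ((k : ℝ) - 1) := by
    have : (16 : ℝ) ≤ k := by exact_mod_cast hk
    have h7 : (0 : ℝ) ≤ (k : ℝ) - 1 := by linarith
    positivity
  calc ‖(2 : ℂ)‖ₑ * ‖∑' g, ∫ w : ℍ, f g w‖ₑ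
      ≤ ENNReal.ofReal 2 * ∑' g, ‖∫ w : ℍ, f g w‖ₑ := by
        rw [h2]
        gcongr
        exact enorm_tsum_le_tsum_enorm
    _ ≤ ENNReal.ofReal 2 * (ENNReal.ofReal (4 * Real.pi / ((k : ℝ) - 1)) * KS k β Ψ) := by
        gcongr
        exact A7_allh hk β hΨ
    _ = ENNReal.ofReal (8 * Real.pi / ((k : ℝ) - 1)) * KS k β Ψ := by
        rw [← mul_assoc, ← ENNReal.ofReal_mul (by norm_num)]
        congr 2
        ring

/-- block A7 -/
theorem point_bound {J : Type} [Fintype J] {k : ℕ} (hk : 16 ≤ k) (β : J → ℝ) {Ψ : J → ℝ → ℂ}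
    {M V : ℝ} (hΨ : PsiB Ψ M V) {b : ℕ → ℂ} (H : CForm k b) :
    ENNReal.ofReal (‖Lf k β Ψ b‖ ^ 2) ≤
      ENNReal.ofReal (((k : ℝ) - 1) / (8 * Real.pi) * pn k b) * KS k β Ψ := by
  have hkk : (16 : ℝ) ≤ k := by exact_mod_cast hk
  have hk1 : (0 : ℝ) < (k : ℝ) - 1 := by linarith
  have hpn := pn_nonneg k b
  have hc : 0 ≤ (((k : ℝ) - 1) / (8 * Real.pi)) ^ 2 * pn k b := by positivity
  calc ENNReal.ofReal (‖Lf k β Ψ b‖ ^ 2)
      ≤ ENNReal.ofReal ((((k : ℝ) - 1) / (8 * Real.pi)) ^ 2 * pn k b *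
          ∫ w in 𝒟ᵒ, ‖Kap k β Ψ w‖ ^ 2) := ENNReal.ofReal_le_ofReal (Lf_CS hk β hΨ H)
    _ = ENNReal.ofReal ((((k : ℝ) - 1) / (8 * Real.pi)) ^ 2 * pn k b) *
          ENNReal.ofReal (∫ w in 𝒟ᵒ, ‖Kap k β Ψ w‖ ^ 2) := ENNReal.ofReal_mul hc
    _ ≤ ENNReal.ofReal ((((k : ℝ) - 1) / (8 * Real.pi)) ^ 2 * pn k b) *
          (ENNReal.ofReal (8 * Real.pi / ((k : ℝ) - 1)) * KS k β Ψ) := by
        gcongr
        exact Kap_norm hk β hΨ
    _ = ENNReal.ofReal (((k : ℝ) - 1) / (8 * Real.pi) * pn k b) * KS k β Ψ := by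
        rw [← mul_assoc, ← ENNReal.ofReal_mul hc]
        congr 2
        field_simp

end Pool.Agent.WA
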