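import Pool.Agent.Lib_helper98.WAF.A4

namespace Pool.Agent.WA

open Complex MeasureTheory Filter Topology UpperHalfPlane ModularGroup
open scoped MatrixGroups Modular ENNReal

theorem A8_det (g : SL(2, ℤ)) : g 0 0 * g 1 1 - g 0 1 * g 1 0 = 1 := by
  have h := g.det_coe
  rw [Matrix.det_fin_two] at h
  exact h

/-- if the lower left entry of `g' g⁻¹` vanishes -/
theorem A8_tri {a b c d a' b' c' d' : ℤ} (h : a * d - b * c = 1) (h' : a' * d' - b' * c' = 1)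
    (h0 : c' * d - d' * c = 0) : ∃ α n : ℤ, α * α = 1 ∧ a' = α * a + n * c ∧ b' = α * b + n * d ∧
      c' = α * c ∧ d' = α * d := by
  have h1 : (a' * d - b' * c) * (-c' * b + d' * a) = 1 := by
    linear_combination h * (a' * d' - b' * c') + h' + (-a' * b + b' * a) * h0
  have h2 : (a' * d - b' * c) = (-c' * b + d' * a) := by
    rcases Int.mul_eq_one_iff_eq_one_or_neg_one.1 h1 with ⟨h3, h4⟩ | ⟨h3, h4⟩
    · rw [h3, h4]
    · rw [h3, h4]
  refine ⟨a' * d - b' * c, -a' * b + b' * a, ?_, ?_, ?_, ?_, ?_⟩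
  · rw [← h2] at h1; exact h1
  · linear_combination (-a') * h
  · linear_combination (-b') * h
  · rw [h2]; linear_combination (-c') * h + a * h0
  · rw [h2]; linear_combination (-d') * h + b * h0

theorem A8_sq {α : ℤ} (h : α * α = 1) : α = 1 ∨ α = -1 := by
  rcases Int.mul_eq_one_iff_eq_one_or_neg_one.1 h with ⟨h3, _⟩ | ⟨h3, _⟩
  · exact Or.inl h3
  · exact Or.inr h3

theorem A8_ext {g g' : SL(2, ℤ)} {α : ℤ} (hα : α * α = 1) (h00 : g' 0 0 = α * g 0 0)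
    (h01 : g' 0 1 = α * g 0 1) (h10 : g' 1 0 = α * g 1 0) (h11 : g' 1 1 = α * g 1 1) :
    g' = g ∨ g' = -g := by
  rcases A8_sq hα with h | h
  · left
    ext i j
    fin_cases i <;> fin_cases j <;> simp_all
  · right
    ext i j
    fin_cases i <;> fin_cases j <;> simp_all

theorem mainI_int {β β' : ℝ} {g : SL(2, ℤ)} (h : MainI β β' g) : ∃ n : ℤ, β - β' = n := by
  obtain ⟨h1, h2⟩ := h
  have hd := A8_det g
  rw [h1] at hd
  unfold gX at h2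
  rw [h1] at h2
  have h3 : g 0 0 * g 1 1 = 1 := by linarith
  have h4 : g 0 0 = g 1 1 := by
    rcases Int.mul_eq_one_iff_eq_one_or_neg_one.1 h3 with ⟨h3, h4⟩ | ⟨h3, h4⟩
    · rw [h3, h4]
    · rw [h3, h4]
  rw [← h4] at h2 h3
  refine ⟨-(g 0 0 * g 0 1), ?_⟩
  have h5 : ((g 0 0 : ℤ) : ℝ) * ((g 0 0 : ℤ) : ℝ) = 1 := by exact_mod_cast h3
  push_cast
  push_cast at h2
  linear_combination ((g 0 0 : ℤ) : ℝ) * h2 - (β - β') * h5

theorem A8_R {β β' β'' : ℝ} {g g' : SL(2, ℤ)} (h : MainR β β' g) (h' : MainR β β'' g') :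
    ∃ α n : ℤ, α * α = 1 ∧ g' 0 0 = α * g 0 0 + n * g 1 0 ∧ g' 0 1 = α * g 0 1 + n * g 1 1 ∧
      g' 1 0 = α * g 1 0 ∧ g' 1 1 = α * g 1 1 := by
  obtain ⟨h1, h2⟩ := h
  obtain ⟨h3, h4⟩ := h'
  unfold gp at h1 h3
  unfold gq at h2 h4
  refine A8_tri (A8_det g) (A8_det g') ?_
  have : ((g' 1 0 : ℤ) : ℝ) * ((g 1 1 : ℤ) : ℝ) - ((g' 1 1 : ℤ) : ℝ) * ((g 1 0 : ℤ) : ℝ) = 0 := by
    linear_combination ((g' 1 0 : ℤ) : ℝ) * h2 - ((g 1 0 : ℤ) : ℝ) * h4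
  exact_mod_cast this

theorem A8_c {β β' : ℝ} {g : SL(2, ℤ)} (h : MainR β β' g) : ((g 1 0 : ℤ) : ℝ) ≠ 0 := by
  obtain ⟨h1, h2⟩ := h
  unfold gp at h1
  unfold gq at h2
  intro h0
  rw [h0] at h1 h2
  have hd := A8_det g
  have hd' : ((g 0 0 : ℤ) : ℝ) * ((g 1 1 : ℤ) : ℝ) - ((g 0 1 : ℤ) : ℝ) * ((g 1 0 : ℤ) : ℝ) = 1 := by
    exact_mod_cast hd
  rw [h0] at hd'
  have : ((g 1 1 : ℤ) : ℝ) = 0 := by linarith
  rw [this] at hd'
  simp at hd'

theorem mainR_right {β β' β'' : ℝ} {g g' : SL(2, ℤ)} (h : MainR β β' g) (h' : MainR β β'' g') :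
    ∃ n : ℤ, β' - β'' = n := by
  obtain ⟨α, n, hα, h1, h2, h3, h4⟩ := A8_R h h'
  have hc := A8_c h
  obtain ⟨h5, h6⟩ := h
  obtain ⟨h7, h8⟩ := h'
  unfold gp at h5 h7
  refine ⟨-(n * α), ?_⟩
  have hα' : (α : ℝ) * α = 1 := by exact_mod_cast hα
  have h1' : ((g' 0 0 : ℤ) : ℝ) = α * ((g 0 0 : ℤ) : ℝ) + n * ((g 1 0 : ℤ) : ℝ) := by
    exact_mod_cast h1
  have h3' : ((g' 1 0 : ℤ) : ℝ) = α * ((g 1 0 : ℤ) : ℝ) := by exact_mod_cast h3
  rw [h1', h3'] at h7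
  apply mul_left_cancel₀ hc
  push_cast
  linear_combination (-1) * h5 + (α : ℝ) * h7 - (((g 0 0 : ℤ) : ℝ) - β'' * ((g 1 0 : ℤ) : ℝ)) * hα'

theorem mainR_left {β β₁ β' : ℝ} {g g' : SL(2, ℤ)} (h : MainR β β' g) (h' : MainR β₁ β' g') :
    ∃ n : ℤ, β - β₁ = n := by
  have hc := A8_c h
  obtain ⟨h1, h2⟩ := h
  obtain ⟨h3, h4⟩ := h'
  unfold gp at h1 h3
  unfold gq at h2 h4
  have hd := A8_det g
  have hd' := A8_det g'
  have h0 : g 0 0 * g' 1 0 - g 1 0 * g' 0 0 = 0 := by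
    have : ((g 0 0 : ℤ) : ℝ) * ((g' 1 0 : ℤ) : ℝ) - ((g 1 0 : ℤ) : ℝ) * ((g' 0 0 : ℤ) : ℝ) = 0 := by
      linear_combination ((g' 1 0 : ℤ) : ℝ) * h1 - ((g 1 0 : ℤ) : ℝ) * h3
    exact_mod_cast this
  obtain ⟨α, n, hα, e1, e2, e3, e4⟩ := A8_tri (a := g 1 1) (b := g 0 1) (c := g 1 0) (d := g 0 0)
    (a' := g' 1 1) (b' := g' 0 1) (c' := g' 1 0) (d' := g' 0 0) (by linarith) (by linarith)
    (by linarith)
  refine ⟨n * α, ?_⟩
  have hα' : (α : ℝ) * α = 1 := by exact_mod_cast hα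
  have e1' : ((g' 1 1 : ℤ) : ℝ) = α * ((g 1 1 : ℤ) : ℝ) + n * ((g 1 0 : ℤ) : ℝ) := by
    exact_mod_cast e1
  have e3' : ((g' 1 0 : ℤ) : ℝ) = α * ((g 1 0 : ℤ) : ℝ) := by exact_mod_cast e3
  rw [e1', e3'] at h4
  apply mul_left_cancel₀ hc
  push_cast
  linear_combination h2 - (α : ℝ) * h4 + (((g 1 0 : ℤ) : ℝ) * β₁ + ((g 1 1 : ℤ) : ℝ)) * hα'


/-! ### the kernel -/

theorem A8_cosh (x : ℝ) : 1 + x ^ 2 / 2 ≤ Real.cosh x := by
  have h1 : Real.cosh x = 1 + 2 * Real.sinh (x / 2) ^ 2 := by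
    have := Real.cosh_two_mul (x / 2)
    rw [show 2 * (x / 2) = x by ring] at this
    rw [this, Real.cosh_sq]
    ring
  have h2 : (x / 2) ^ 2 ≤ Real.sinh (x / 2) ^ 2 := by
    rw [← sq_abs (x / 2), ← sq_abs (Real.sinh (x / 2)), Real.abs_sinh]
    have h3 : |x / 2| ≤ Real.sinh |x / 2| := Real.self_le_sinh_iff.2 (abs_nonneg _)
    exact pow_le_pow_left₀ (abs_nonneg _) h3 2
  rw [h1]
  nlinarith

theorem A8_coshpow {k : ℕ} (s : ℝ) :
    (Real.cosh (s / 2) ^ 2) ^ (-(k : ℝ) / 2) ≤ (1 + k * (s ^ 2 / 8))⁻¹ := by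
  have hpos : 0 < Real.cosh (s / 2) := Real.cosh_pos _
  rw [← Real.rpow_natCast (Real.cosh (s / 2)) 2, ← Real.rpow_mul hpos.le,
    show ((2 : ℕ) : ℝ) * (-(k : ℝ) / 2) = -(k : ℝ) by push_cast; ring,
    Real.rpow_neg hpos.le, Real.rpow_natCast]
  apply inv_anti₀ (by positivity)
  have h1 : 1 + s ^ 2 / 8 ≤ Real.cosh (s / 2) := by
    have := A8_cosh (s / 2)
    nlinarith
  calc 1 + (k : ℝ) * (s ^ 2 / 8) ≤ (1 + s ^ 2 / 8) ^ k :=
        one_add_mul_le_pow (by nlinarith [sq_nonneg s]) k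
    _ ≤ Real.cosh (s / 2) ^ k := pow_le_pow_left₀ (by positivity) h1 k

/-- the kernel `1 / (1 + κ s²)` -/
noncomputable def A8K (κ s : ℝ) : ℝ≥0∞ := ENNReal.ofReal (1 + κ * s ^ 2)⁻¹

theorem A8K_meas (κ : ℝ) : Measurable (A8K κ) := by
  unfold A8K
  fun_prop

theorem A8K_lint {κ : ℝ} (hκ : 0 < κ) :
    ∫⁻ s : ℝ, A8K κ s = ENNReal.ofReal (Real.pi / Real.sqrt κ) := by
  have hs : 0 < Real.sqrt κ := Real.sqrt_pos.2 hκ
  have h1 : ∀ s : ℝ, (1 + κ * s ^ 2)⁻¹ = (fun x : ℝ => (1 + x ^ 2)⁻¹) (Real.sqrt κ * s) := by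
    intro s
    simp only [mul_pow, Real.sq_sqrt hκ.le]
  have h2 : Integrable (fun s : ℝ => (1 + κ * s ^ 2)⁻¹) := by
    simp only [h1]
    exact (integrable_inv_one_add_sq).comp_mul_left' hs.ne'
  unfold A8K
  rw [← ofReal_integral_eq_lintegral_ofReal h2 (ae_of_all _ (fun s => by positivity))]
  simp only [h1]
  rw [Measure.integral_comp_mul_left (fun x : ℝ => (1 + x ^ 2)⁻¹), integral_univ_inv_one_add_sq,
    abs_of_pos (by positivity), smul_eq_mul]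
  congr 1
  field_simp

theorem A8_ab (a b : ℝ≥0∞) : 2 * (a * b) ≤ a ^ 2 + b ^ 2 := by
  rcases le_total a b with h | h
  · obtain ⟨c, rfl⟩ := exists_add_of_le h
    calc 2 * (a * (a + c)) ≤ 2 * (a * (a + c)) + c ^ 2 := le_self_add
      _ = a ^ 2 + (a + c) ^ 2 := by ring
  · obtain ⟨c, rfl⟩ := exists_add_of_le h
    calc 2 * ((b + c) * b) ≤ 2 * ((b + c) * b) + c ^ 2 := le_self_add
      _ = (b + c) ^ 2 + b ^ 2 := by ring

theorem A8_sum {S : SL(2, ℤ) → Prop} (hS : ∀ g g', S g → S g' → g' = g ∨ g' = -g)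
    (F : SL(2, ℤ) → ℝ≥0∞) {B : ℝ≥0∞} (hF : ∀ g, S g → F g ≤ B) :
    ∑' g : {g : SL(2, ℤ) // S g}, F g.1 ≤ 2 * B := by
  by_cases h : ∃ g, S g
  · obtain ⟨g, hg⟩ := h
    have h1 : ∀ g' : {g : SL(2, ℤ) // S g}, g'.1 ∈ ({g, -g} : Finset (SL(2, ℤ))) := by
      intro g'
      rcases hS g g'.1 hg g'.2 with h | h
      · rw [h]; simp
      · rw [h]; simp
    let e : {g : SL(2, ℤ) // S g} → {x // x ∈ ({g, -g} : Finset (SL(2, ℤ)))} := fun x => ⟨x.1, h1 x⟩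
    have he : Function.Injective e := by
      intro x y hxy
      exact Subtype.ext (congrArg (fun z => z.1) hxy)
    calc ∑' g : {g : SL(2, ℤ) // S g}, F g.1 ≤ ∑' g' : {g : SL(2, ℤ) // S g}, (fun _ => B) (e g') :=
          ENNReal.tsum_le_tsum (fun g' => hF g'.1 g'.2)
      _ ≤ ∑' x : {x // x ∈ ({g, -g} : Finset (SL(2, ℤ)))}, (fun _ => B) x :=
          ENNReal.tsum_comp_le_tsum_of_injective he _
      _ = (({g, -g} : Finset (SL(2, ℤ))).card : ℝ≥0∞) * B := by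
          rw [tsum_fintype, Finset.sum_const, nsmul_eq_mul, Finset.card_univ, Fintype.card_coe]
      _ ≤ 2 * B := by
          gcongr
          exact_mod_cast Finset.card_le_two
  · have : IsEmpty {g : SL(2, ℤ) // S g} := ⟨fun x => h ⟨x.1, x.2⟩⟩
    simp

theorem A8_fin {f f' : ℝ → ℝ≥0∞} (hf : Measurable f) (hf' : Measurable f') {κ : ℝ} (hκ : 0 < κ)
    (ε c : ℝ) (hε : ε = 1 ∨ ε = -1) :
    ∫⁻ u : ℝ, ∫⁻ u' : ℝ, f u * f' u' * (2 * A8K κ (u + ε * u' + c)) ≤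
      ENNReal.ofReal (Real.pi / Real.sqrt κ) * ((∫⁻ u, f u ^ 2) + ∫⁻ u, f' u ^ 2) := by
  have hK := A8K_meas κ
  have hK2 : Measurable (Function.uncurry fun (u u' : ℝ) => A8K κ (u + ε * u' + c)) := by
    apply hK.comp
    fun_prop
  have hI1 : ∀ u : ℝ, ∫⁻ u' : ℝ, A8K κ (u + ε * u' + c) = ENNReal.ofReal (Real.pi / Real.sqrt κ) := by
    intro u
    rw [← A8K_lint hκ]
    rcases hε with h | h
    · rw [h]
      have : ∀ u' : ℝ, u + 1 * u' + c = u' + (u + c) := fun u' => by ring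
      simp only [this]
      exact lintegral_add_right_eq_self (A8K κ) (u + c)
    · rw [h]
      have : ∀ u' : ℝ, u + (-1) * u' + c = (u + c) - u' := fun u' => by ring
      simp only [this]
      exact lintegral_sub_left_eq_self (A8K κ) (u + c)
  have hI2 : ∀ u' : ℝ, ∫⁻ u : ℝ, A8K κ (u + ε * u' + c) = ENNReal.ofReal (Real.pi / Real.sqrt κ) := by
    intro u'
    rw [← A8K_lint hκ]
    have : ∀ u : ℝ, u + ε * u' + c = u + (ε * u' + c) := fun u => by ring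
    simp only [this]
    exact lintegral_add_right_eq_self (A8K κ) (ε * u' + c)
  calc ∫⁻ u : ℝ, ∫⁻ u' : ℝ, f u * f' u' * (2 * A8K κ (u + ε * u' + c))
      ≤ ∫⁻ u : ℝ, ∫⁻ u' : ℝ, (f u ^ 2 * A8K κ (u + ε * u' + c) +
          f' u' ^ 2 * A8K κ (u + ε * u' + c)) := by
        refine lintegral_mono fun u => lintegral_mono fun u' => ?_
        rw [← add_mul]
        calc f u * f' u' * (2 * A8K κ (u + ε * u' + c)) =
              (2 * (f u * f' u')) * A8K κ (u + ε * u' + c) := by ring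
          _ ≤ (f u ^ 2 + f' u' ^ 2) * A8K κ (u + ε * u' + c) := by
              gcongr
              exact A8_ab _ _
    _ = (∫⁻ u : ℝ, ∫⁻ u' : ℝ, f u ^ 2 * A8K κ (u + ε * u' + c)) +
          ∫⁻ u : ℝ, ∫⁻ u' : ℝ, f' u' ^ 2 * A8K κ (u + ε * u' + c) := by
        rw [← lintegral_add_left]
        · refine lintegral_congr fun u => ?_
          rw [lintegral_add_left]
          exact (measurable_const).mul (hK2.of_uncurry_left (x := u))
        · apply Measurable.lintegral_prod_right'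
            (f := fun p : ℝ × ℝ => f p.1 ^ 2 * A8K κ (p.1 + ε * p.2 + c))
          exact ((hf.comp measurable_fst).pow_const 2).mul hK2
    _ = (∫⁻ u : ℝ, ∫⁻ u' : ℝ, f u ^ 2 * A8K κ (u + ε * u' + c)) +
          ∫⁻ u' : ℝ, ∫⁻ u : ℝ, f' u' ^ 2 * A8K κ (u + ε * u' + c) := by
        congr 1
        rw [lintegral_lintegral_swap]
        apply Measurable.aemeasurable
        exact ((hf'.comp measurable_snd).pow_const 2).mul hK2
    _ = (∫⁻ u : ℝ, f u ^ 2 * ENNReal.ofReal (Real.pi / Real.sqrt κ)) +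
          ∫⁻ u' : ℝ, f' u' ^ 2 * ENNReal.ofReal (Real.pi / Real.sqrt κ) := by
        congr 1
        · refine lintegral_congr fun u => ?_
          rw [lintegral_const_mul _ (hK2.of_uncurry_left (x := u)), hI1]
        · refine lintegral_congr fun u' => ?_
          rw [lintegral_const_mul _ (hK2.of_uncurry_right (y := u')), hI2]
    _ = ENNReal.ofReal (Real.pi / Real.sqrt κ) * ((∫⁻ u, f u ^ 2) + ∫⁻ u, f' u ^ 2) := by
        rw [lintegral_mul_const _ (hf.pow_const 2), lintegral_mul_const _ (hf'.pow_const 2)]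
        ring

theorem A8_const {k : ℕ} (hk : 1 ≤ k) :
    ENNReal.ofReal (Real.pi / Real.sqrt (k / 8)) ≤ ENNReal.ofReal (9 / Real.sqrt k) := by
  apply ENNReal.ofReal_le_ofReal
  have hk0 : (0 : ℝ) < k := by exact_mod_cast hk
  have h1 : Real.sqrt ((k : ℝ) / 8) = Real.sqrt k / Real.sqrt 8 := Real.sqrt_div hk0.le 8
  rw [h1, div_div_eq_mul_div]
  have h8 : Real.sqrt 8 ≤ 2.83 := by
    rw [Real.sqrt_le_left (by norm_num)]
    norm_num
  have hpi : Real.pi ≤ 3.15 := Real.pi_lt_d2.le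
  gcongr
  calc Real.pi * Real.sqrt 8 ≤ 3.15 * 2.83 := by
        apply mul_le_mul hpi h8 (Real.sqrt_nonneg _) (by norm_num)
    _ ≤ 9 := by norm_num

theorem A8_ofK {k : ℕ} {x s : ℝ} (h : x = Real.cosh (s / 2) ^ 2) :
    ENNReal.ofReal (x ^ (-(k : ℝ) / 2)) ≤ A8K ((k : ℝ) / 8) s := by
  rw [h]
  unfold A8K
  apply ENNReal.ofReal_le_ofReal
  refine (A8_coshpow (k := k) s).trans (le_of_eq ?_)
  congr 1
  ring

theorem A8_cosh_sq (s : ℝ) : Real.cosh (s / 2) ^ 2 = (Real.exp s + Real.exp (-s) + 2) / 4 := by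
  rw [Real.cosh_eq]
  have h1 : Real.exp s = Real.exp (s / 2) ^ 2 := by
    rw [← Real.exp_nat_mul]; congr 1; push_cast; ring
  have h2 : Real.exp (-s) = Real.exp (-(s / 2)) ^ 2 := by
    rw [← Real.exp_nat_mul]; congr 1; push_cast; ring
  have h3 : Real.exp (s / 2) * Real.exp (-(s / 2)) = 1 := by
    rw [← Real.exp_add]; simp
  rw [h1, h2]
  linear_combination h3 / 2

theorem mainI_bound (β β' : ℝ) {k : ℕ} (hk : 1 ≤ k) {f f' : ℝ → ℝ≥0∞} (hf : Measurable f)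
    (hf' : Measurable f') :
    ∫⁻ u : ℝ, ∫⁻ u' : ℝ, f u * f' u' * ∑' g : {g : SL(2, ℤ) // MainI β β' g},
      ENNReal.ofReal (ch (g.1 • vz β u) (vz β' u') ^ (-(k : ℝ) / 2)) ≤
      ENNReal.ofReal (9 / Real.sqrt k) * ((∫⁻ u, f u ^ 2) + ∫⁻ u, f' u ^ 2) := by
  have hk0 : (0 : ℝ) < k := by exact_mod_cast hk
  refine le_trans ?_ ((A8_fin hf hf' (κ := (k : ℝ) / 8) (by positivity) (-1) 0
    (Or.inr rfl)).trans (mul_le_mul' (A8_const hk) le_rfl))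
  refine lintegral_mono fun u => lintegral_mono fun u' => mul_le_mul' le_rfl ?_
  refine A8_sum (S := MainI β β')
    (F := fun g => ENNReal.ofReal (ch (g • vz β u) (vz β' u') ^ (-(k : ℝ) / 2))) ?_ ?_
  · intro g g' hg hg'
    obtain ⟨h1, h2⟩ := hg
    obtain ⟨h3, h4⟩ := hg'
    have hd := A8_det g
    have hd' := A8_det g'
    obtain ⟨α, n, hα, e1, e2, e3, e4⟩ := A8_tri (a := g 0 0) (b := g 0 1) (c := g 1 0)
      (d := g 1 1) (a' := g' 0 0) (b' := g' 0 1) (c' := g' 1 0) (d' := g' 1 1) hd hd'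
      (by rw [h1, h3]; ring)
    unfold gX at h2 h4
    rw [h1] at h2
    rw [e1, e2, e3, e4, h1] at h4
    push_cast at h2 h4
    have hn : ((n : ℤ) : ℝ) * ((g 1 1 : ℤ) : ℝ) = 0 := by
      linear_combination h4 - (α : ℝ) * h2
    have hd1 : g 1 1 ≠ 0 := by
      intro h0
      rw [h0, h1] at hd
      simp at hd
    have hn0 : n = 0 := by
      have : n * g 1 1 = 0 := by exact_mod_cast hn
      rcases mul_eq_zero.1 this with h | h
      · exact h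
      · exact absurd h hd1
    rw [hn0] at e1 e2
    exact A8_ext hα (by rw [e1]; ring) (by rw [e2]; ring) e3 e4
  · intro g hg
    obtain ⟨h1, h2⟩ := hg
    apply A8_ofK
    rw [ch_formula, A8_cosh_sq]
    have hpq := pq_cX g β β'
    rw [h2, h1] at hpq
    have hp : gp g β' = (g 0 0 : ℤ) := by
      unfold gp
      rw [h1]
      simp
    have hq : gq g β = (g 1 1 : ℤ) := by
      unfold gq
      rw [h1]
      simp
    have hd := A8_det g
    rw [h1] at hd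
    have hd2 : g 0 0 * g 1 1 = 1 := by linarith
    have ha : (g 0 0 : ℝ) ^ 2 = 1 ∧ (g 1 1 : ℝ) ^ 2 = 1 := by
      rcases Int.mul_eq_one_iff_eq_one_or_neg_one.1 hd2 with ⟨h3, h4⟩ | ⟨h3, h4⟩
      · rw [h3, h4]; simp
      · rw [h3, h4]; simp
    rw [h2, h1, hp, hq, ha.1, ha.2]
    have e1 : u + -1 * u' + 0 = u - u' := by ring
    rw [e1, neg_sub]
    simp

theorem mainR_bound (β β' : ℝ) {k : ℕ} (hk : 1 ≤ k) {f f' : ℝ → ℝ≥0∞} (hf : Measurable f)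
    (hf' : Measurable f') :
    ∫⁻ u : ℝ, ∫⁻ u' : ℝ, f u * f' u' * ∑' g : {g : SL(2, ℤ) // MainR β β' g},
      ENNReal.ofReal (ch (g.1 • vz β u) (vz β' u') ^ (-(k : ℝ) / 2)) ≤
      ENNReal.ofReal (9 / Real.sqrt k) * ((∫⁻ u, f u ^ 2) + ∫⁻ u, f' u ^ 2) := by
  have hk0 : (0 : ℝ) < k := by exact_mod_cast hk
  by_cases hex : ∃ g₀ : SL(2, ℤ), MainR β β' g₀
  · obtain ⟨g₀, hg₀⟩ := hex
    have hc0 := A8_c hg₀
    have huniq : ∀ g g', MainR β β' g → MainR β β' g' → g' = g ∨ g' = -g := by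
      intro g g' hg hg'
      obtain ⟨α, n, hα, e1, e2, e3, e4⟩ := A8_R hg hg'
      have hc := A8_c hg
      obtain ⟨h1, h2⟩ := hg
      obtain ⟨h3, h4⟩ := hg'
      unfold gp at h1 h3
      rw [e1, e3] at h3
      push_cast at h3
      have hn : ((n : ℤ) : ℝ) * ((g 1 0 : ℤ) : ℝ) = 0 := by
        linear_combination h3 - (α : ℝ) * h1
      have hn0 : n = 0 := by
        rcases mul_eq_zero.1 hn with h | h
        · exact_mod_cast h
        · exact absurd h hc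
      rw [hn0] at e1 e2
      exact A8_ext hα (by rw [e1]; ring) (by rw [e2]; ring) e3 e4
    refine le_trans ?_ ((A8_fin hf hf' (κ := (k : ℝ) / 8) (by positivity) 1
      (2 * Real.log |(g₀ 1 0 : ℤ)|) (Or.inl rfl)).trans (mul_le_mul' (A8_const hk) le_rfl))
    refine lintegral_mono fun u => lintegral_mono fun u' => mul_le_mul' le_rfl ?_
    refine A8_sum (S := MainR β β')
      (F := fun g => ENNReal.ofReal (ch (g • vz β u) (vz β' u') ^ (-(k : ℝ) / 2))) huniq ?_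
    intro g hg
    have hcc : (((g 1 0 : ℤ) : ℝ)) ^ 2 = ((g₀ 1 0 : ℤ) : ℝ) ^ 2 := by
      rcases huniq g₀ g hg₀ hg with h | h
      · rw [h]
      · rw [h]; simp
    have hc := A8_c hg
    obtain ⟨h1, h2⟩ := hg
    apply A8_ofK
    rw [ch_formula, A8_cosh_sq]
    have hpq := pq_cX g β β'
    rw [h2, h1] at hpq
    have hX : gX g β β' ^ 2 = (((g₀ 1 0 : ℤ) : ℝ) ^ 2)⁻¹ := by
      rw [← hcc]
      have : gX g β β' = - ((g 1 0 : ℤ) : ℝ)⁻¹ := by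
        field_simp
        linarith
      rw [this]
      rw [neg_sq, inv_pow]
    have habs : 0 < |((g₀ 1 0 : ℤ) : ℝ)| := abs_pos.2 hc0
    have hlog : Real.exp (2 * Real.log |(g₀ 1 0 : ℤ)|) = ((g₀ 1 0 : ℤ) : ℝ) ^ 2 := by
      rw [show (2 : ℝ) * Real.log |(g₀ 1 0 : ℤ)| = ((2 : ℕ) : ℝ) * Real.log |((g₀ 1 0 : ℤ) : ℝ)| by
        push_cast; rfl, Real.exp_nat_mul, Real.exp_log habs, sq_abs]
    rw [h2, h1, hX, hcc]
    have e1 : Real.exp (u + 1 * u' + 2 * Real.log |(g₀ 1 0 : ℤ)|) =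
        ((g₀ 1 0 : ℤ) : ℝ) ^ 2 * Real.exp (u + u') := by
      rw [Real.exp_add, hlog]; ring_nf
    have e2 : Real.exp (-(u + 1 * u' + 2 * Real.log |(g₀ 1 0 : ℤ)|)) =
        (((g₀ 1 0 : ℤ) : ℝ) ^ 2)⁻¹ * Real.exp (-(u + u')) := by
      rw [Real.exp_neg, e1, mul_inv, Real.exp_neg]
    rw [e1, e2]
    ring
  · have : IsEmpty {g : SL(2, ℤ) // MainR β β' g} := ⟨fun x => hex ⟨x.1, x.2⟩⟩
    simp

end Pool.Agent.WA
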