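import Pool.Agent.Lib_helper98.WAF.B1b

/-! Block B10 (TR): transference. -/

namespace Pool.Agent.WA

open Complex MeasureTheory Filter Topology UpperHalfPlane ModularGroup
open scoped MatrixGroups Modular ENNReal
open Pool.Agent.GL2 (qs HData am dens hatw Ep Mol xt FD IsCompletedL oddZ)

theorem B10_geom {N : ℕ} (hN : 0 < N) (M a : ℕ) :
    ∑ j ∈ Finset.range N, cexp (-(2 * Real.pi * Complex.I) * a * j / N) *
      cexp (2 * Real.pi * Complex.I * M * ((j : ℝ) / N : ℝ)) =
      if M ≡ a [MOD N] then (N : ℂ) else 0 := by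
  have hN' : (N : ℂ) ≠ 0 := by exact_mod_cast hN.ne'
  have hterm : ∀ j : ℕ, cexp (-(2 * Real.pi * Complex.I) * a * j / N) *
      cexp (2 * Real.pi * Complex.I * M * ((j : ℝ) / N : ℝ)) =
      (cexp (2 * Real.pi * Complex.I * ((M : ℂ) - a) / N)) ^ j := by
    intro j
    rw [← Complex.exp_add, ← Complex.exp_nat_mul]
    congr 1
    push_cast
    field_simp
    ring
  simp only [hterm]
  by_cases h : M ≡ a [MOD N]
  · rw [if_pos h]
    obtain ⟨t, ht⟩ : ∃ t : ℤ, (M : ℤ) - a = N * t := by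
      have := (Nat.modEq_iff_dvd.mp h.symm)
      exact this
    have h1 : cexp (2 * Real.pi * Complex.I * ((M : ℂ) - a) / N) = 1 := by
      have h2 : (2 * Real.pi * Complex.I * ((M : ℂ) - a) / N) = t * (2 * Real.pi * Complex.I) := by
        have h3 : ((M : ℂ) - a) = N * t := by exact_mod_cast congrArg (Int.cast : ℤ → ℂ) ht
        rw [h3]
        field_simp
      rw [h2]
      exact Complex.exp_int_mul_two_pi_mul_I t
    rw [h1]
    simp
  · rw [if_neg h]
    set ζ := cexp (2 * Real.pi * Complex.I * ((M : ℂ) - a) / N) with hζ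
    have hζN : ζ ^ N = 1 := by
      rw [hζ, ← Complex.exp_nat_mul]
      have h2 : ((N : ℂ) * (2 * Real.pi * Complex.I * ((M : ℂ) - a) / N)) =
          (((M : ℤ) - a : ℤ) : ℂ) * (2 * Real.pi * Complex.I) := by
        push_cast
        field_simp
      rw [h2]
      exact Complex.exp_int_mul_two_pi_mul_I _
    have hζ1 : ζ ≠ 1 := by
      intro h1
      rw [hζ, Complex.exp_eq_one_iff] at h1
      obtain ⟨n, hn⟩ := h1
      apply h
      apply (Nat.modEq_iff_dvd.mpr _)
      have hpi : (2 * Real.pi * Complex.I : ℂ) ≠ 0 := Complex.two_pi_I_ne_zero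
      have h3 : ((M : ℂ) - a) = n * N := by
        have h4 : (2 * Real.pi * Complex.I) * (((M : ℂ) - a) / N) =
            (2 * Real.pi * Complex.I) * n := by
          rw [← mul_div_assoc, hn]; ring
        have h5 := mul_left_cancel₀ hpi h4
        field_simp at h5
        rw [h5]; ring
      have h6 : ((M : ℤ) - a) = n * N := by exact_mod_cast h3
      refine ⟨-n, ?_⟩
      linarith
    rw [geom_sum_eq hζ1, hζN]
    simp

theorem B10_theta {N m r : ℕ} (hN : 0 < N) (hr : 0 < r) (hrm : r * m ∣ N) (M : ℕ) :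
    ∑ j ∈ Finset.range N, theta N m r j * cexp (2 * Real.pi * Complex.I * M * ((j : ℝ) / N : ℝ)) =
      if r ∣ M ∧ (M / r).Coprime m then 1 else 0 := by
  have hN' : (N : ℂ) ≠ 0 := by exact_mod_cast hN.ne'
  have hrN : r ∣ N := (Dvd.intro m rfl).trans hrm
  have hstep : ∑ j ∈ Finset.range N, theta N m r j *
      cexp (2 * Real.pi * Complex.I * M * ((j : ℝ) / N : ℝ)) =
      (1 / (N : ℂ)) * ∑ a ∈ (Finset.range N).filter (fun a => r ∣ a ∧ (a / r).Coprime m),
        (if M ≡ a [MOD N] then (N : ℂ) else 0) := by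
    unfold theta
    simp only [← B10_geom hN, Finset.mul_sum, Finset.sum_mul]
    rw [Finset.sum_comm]
    refine Finset.sum_congr rfl fun a _ => Finset.sum_congr rfl fun j _ => ?_
    ring
  rw [hstep]
  have hmod : ∀ a ∈ (Finset.range N).filter (fun a => r ∣ a ∧ (a / r).Coprime m),
      (if M ≡ a [MOD N] then (N : ℂ) else 0) = if a = M % N then (N : ℂ) else 0 := by
    intro a ha
    rw [Finset.mem_filter, Finset.mem_range] at ha
    by_cases h : a = M % N
    · rw [if_pos h, if_pos]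
      rw [h]
      exact (Nat.mod_modEq M N).symm
    · rw [if_neg h, if_neg]
      intro h1
      apply h
      have h2 : M % N = a % N := h1
      rw [h2, Nat.mod_eq_of_lt ha.1]
  rw [Finset.sum_congr rfl hmod, Finset.sum_ite_eq' ]
  have hkey : (M % N ∈ (Finset.range N).filter (fun a => r ∣ a ∧ (a / r).Coprime m)) ↔
      (r ∣ M ∧ (M / r).Coprime m) := by
    rw [Finset.mem_filter, Finset.mem_range]
    have h1 : r ∣ M % N ↔ r ∣ M := (Nat.dvd_mod_iff hrN)
    constructor
    · rintro ⟨-, h2, h3⟩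
      have h4 := h1.mp h2
      refine ⟨h4, ?_⟩
      obtain ⟨s, hs⟩ := h4
      obtain ⟨t, ht⟩ := hrm
      rw [hs, Nat.mul_div_cancel_left _ hr]
      have h5 : M % N = r * (s % (m * t)) := by
        rw [hs, ht, mul_assoc, Nat.mul_mod_mul_left]
      rw [h5, Nat.mul_div_cancel_left _ hr] at h3
      have h6 : s % (m * t) ≡ s [MOD m] := (Nat.mod_modEq s (m * t)).of_mul_right t
      rw [Nat.Coprime, ← h6.gcd_eq]
      exact h3
    · rintro ⟨h2, h3⟩
      refine ⟨Nat.mod_lt _ hN, h1.mpr h2, ?_⟩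
      obtain ⟨s, hs⟩ := h2
      obtain ⟨t, ht⟩ := hrm
      rw [hs, Nat.mul_div_cancel_left _ hr] at h3
      have h5 : M % N = r * (s % (m * t)) := by
        rw [hs, ht, mul_assoc, Nat.mul_mod_mul_left]
      rw [h5, Nat.mul_div_cancel_left _ hr]
      have h6 : s % (m * t) ≡ s [MOD m] := (Nat.mod_modEq s (m * t)).of_mul_right t
      rw [Nat.Coprime, ← h6.gcd_eq] at h3
      exact h3
  by_cases h : (r ∣ M ∧ (M / r).Coprime m)
  · rw [if_pos h, if_pos (hkey.mpr h)]
    field_simp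
  · rw [if_neg h, if_neg (fun h' => h (hkey.mp h'))]
    simp

theorem B10_gd_shift (k n r : ℕ) (hr : 0 < r) (u : ℝ) :
    gd k n (u + Real.log r) = (r : ℝ) ^ ((k : ℝ) / 2) * gd k (r * n) u := by
  have hr' : (0 : ℝ) < r := by exact_mod_cast hr
  unfold gd
  rw [Real.rpow_def_of_pos hr', ← Real.exp_add]
  congr 1
  rw [Real.exp_add, Real.exp_log hr']
  push_cast
  ring

theorem B10_sum {k : ℕ} {a : ℕ → ℝ} (H : HData k a) {m : ℕ} {N r : ℕ} (hN : 0 < N)
    (hr : 0 < r) (hrm : r * m ∣ N) (hsm : r.primeFactors ⊆ m.primeFactors) (hm : 0 < m) (u : ℝ) :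
    ∑ j ∈ Finset.range N, theta N m r j * geo k (fun n => (a n : ℂ)) ((j : ℝ) / N) u =
      ((a r * (r : ℝ) ^ (-(k : ℝ) / 2) : ℝ) : ℂ) *
        dm k (fun n => (a n : ℂ)) m (u + Real.log r) := by
  have HC := cf_of_hdata H
  have hr' : (0 : ℝ) < r := by exact_mod_cast hr
  have h1 : HasSum (fun n : ℕ => ∑ j ∈ Finset.range N, theta N m r j *
      ((a n : ℂ) * cexp (2 * Real.pi * Complex.I * n * ((j : ℝ) / N : ℝ)) * (gd k n u : ℂ)))
      (∑ j ∈ Finset.range N, theta N m r j * geo k (fun n => (a n : ℂ)) ((j : ℝ) / N) u) := by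
    refine hasSum_sum fun j _ => ?_
    exact (geo_series HC ((j : ℝ) / N) u).mul_left _
  have h2 : ∀ n : ℕ, ∑ j ∈ Finset.range N, theta N m r j *
      ((a n : ℂ) * cexp (2 * Real.pi * Complex.I * n * ((j : ℝ) / N : ℝ)) * (gd k n u : ℂ)) =
      (if r ∣ n ∧ (n / r).Coprime m then 1 else 0) * ((a n : ℂ) * (gd k n u : ℂ)) := by
    intro n
    rw [← B10_theta hN hr hrm n, Finset.sum_mul]
    refine Finset.sum_congr rfl fun j _ => ?_
    ring
  simp only [h2] at h1
  have hinj : Function.Injective (fun n : ℕ => r * n) := fun x y h => Nat.eq_of_mul_eq_mul_left hr h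
  have h3 : HasSum (fun n : ℕ => (if r ∣ (r * n) ∧ ((r * n) / r).Coprime m then (1 : ℂ) else 0) *
      ((a (r * n) : ℂ) * (gd k (r * n) u : ℂ)))
      (∑ j ∈ Finset.range N, theta N m r j * geo k (fun n => (a n : ℂ)) ((j : ℝ) / N) u) := by
    refine (hinj.hasSum_iff (f := fun n : ℕ =>
      (if r ∣ n ∧ (n / r).Coprime m then (1 : ℂ) else 0) * ((a n : ℂ) * (gd k n u : ℂ))) ?_).mpr h1
    intro x hx
    rw [if_neg, zero_mul]
    rintro ⟨⟨s, hs⟩, -⟩
    exact hx ⟨s, hs.symm⟩
  have h4 := (dm_series HC m (u + Real.log r)).mul_left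
    ((a r * (r : ℝ) ^ (-(k : ℝ) / 2) : ℝ) : ℂ)
  have h5 : (fun n : ℕ => ((a r * (r : ℝ) ^ (-(k : ℝ) / 2) : ℝ) : ℂ) *
      ((if n.Coprime m then (a n : ℂ) else 0) * (gd k n (u + Real.log r) : ℂ))) =
      (fun n : ℕ => (if r ∣ (r * n) ∧ ((r * n) / r).Coprime m then (1 : ℂ) else 0) *
      ((a (r * n) : ℂ) * (gd k (r * n) u : ℂ))) := ?_
  · rw [h5] at h4
    exact h3.unique h4
  funext n
  symm
  rw [Nat.mul_div_cancel_left _ hr, B10_gd_shift k n r hr u]
  by_cases hc : n.Coprime m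
  · rw [if_pos ⟨Dvd.intro n rfl, hc⟩, if_pos hc]
    have hrn : r.Coprime n := by
      rw [Nat.Coprime, Nat.eq_one_iff_not_exists_prime_dvd]
      intro p hp hpd
      have hpr : p ∣ r := hpd.trans (Nat.gcd_dvd_left r n)
      have hpn : p ∣ n := hpd.trans (Nat.gcd_dvd_right r n)
      have hpm : p ∣ m := Nat.dvd_of_mem_primeFactors
        (hsm (Nat.mem_primeFactors.mpr ⟨hp, hpr, hr.ne'⟩))
      exact hp.one_lt.ne' (Nat.dvd_one.mp (hc ▸ Nat.dvd_gcd hpn hpm))
    rw [H.mul r n hrn]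
    have hpow : (r : ℝ) ^ (-(k : ℝ) / 2) * (r : ℝ) ^ ((k : ℝ) / 2) = 1 := by
      rw [← Real.rpow_add hr']
      simp [neg_div]
    have hpow' : (((r : ℝ) ^ (-(k : ℝ) / 2) : ℝ) : ℂ) * (((r : ℝ) ^ ((k : ℝ) / 2) : ℝ) : ℂ) = 1 := by
      exact_mod_cast hpow
    push_cast only [Complex.ofReal_mul]
    linear_combination (-(a r : ℂ) * (a n : ℂ) * (gd k (r * n) u : ℂ)) * hpow'
  · rw [if_neg (fun h => hc h.2), if_neg hc]
    simp

theorem B10_hint {α β : ℝ} (W : WtW α β) : Continuous (hatw W.w) ∧ Integrable (hatw W.w) := by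
  have hwi : Integrable (fun t => (W.w t : ℂ)) :=
    (W.cont.integrable_of_hasCompactSupport W.cs).ofReal
  have hc : Continuous (hatw W.w) := by
    unfold hatw
    refine continuous_of_dominated (bound := fun t => ‖(W.w t : ℂ)‖) ?_ ?_ hwi.norm ?_
    · intro u
      have : Continuous (fun t : ℝ => cexp ((t : ℂ) * u * Complex.I)) := by fun_prop
      exact hwi.1.mul this.aestronglyMeasurable
    · intro u
      refine Filter.Eventually.of_forall fun t => ?_
      rw [norm_mul, ← Complex.ofReal_mul, Complex.norm_exp_ofReal_mul_I, mul_one]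
    · refine Filter.Eventually.of_forall fun t => ?_
      fun_prop
  refine ⟨hc, ?_⟩
  refine Integrable.mono' (g := fun u : ℝ => |W.C| * (1 + u ^ 2)⁻¹)
    (integrable_inv_one_add_sq.const_mul _) hc.aestronglyMeasurable ?_
  refine Filter.Eventually.of_forall fun u => ?_
  have h1 := W.decay u
  have h2 : (1 : ℝ) ≤ 1 + u ^ 2 := by nlinarith [sq_nonneg u]
  calc ‖hatw W.w u‖ ≤ W.C / (1 + u ^ 2) ^ 2 := h1
    _ ≤ |W.C| / (1 + u ^ 2) ^ 2 := by gcongr; exact le_abs_self _
    _ ≤ |W.C| / (1 + u ^ 2) := by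
        apply div_le_div_of_nonneg_left (abs_nonneg _) (by positivity)
        nlinarith
    _ = |W.C| * (1 + u ^ 2)⁻¹ := by rw [div_eq_mul_inv]

theorem transfer {k : ℕ} {a : ℕ → ℝ} (H : HData k a) {α β : ℝ} (W : WtW α β) {m : ℕ}
    (hm : 0 < m) {ε : ℝ} (A : Apx m.primeFactors ε) :
    Yf A W.w m k (fun n => (a n : ℂ)) = ∑ p ∈ A.ι, A.c p * (lam k a p.2 : ℂ) *
      ∫ u, dm k (fun n => (a n : ℂ)) m u *
        hatw W.w (u - Real.log p.1 + Real.log A.B) := by
  have HC := cf_of_hdata H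
  obtain ⟨hwc, hwi⟩ := B10_hint W
  have hR : 0 < A.R := by
    unfold Apx.R
    exact Finset.prod_pos fun p hp => (A.pos p hp).2
  have hN : 0 < A.R * m := Nat.mul_pos hR hm
  have hgi : ∀ (β' c : ℝ), Integrable (fun u => hatw W.w (u + c) *
      geo k (fun n => (a n : ℂ)) β' u) := by
    intro β' c
    obtain ⟨C, hC⟩ := geo_bdd HC
    exact (hwi.comp_add_right c).mul_bdd (c := C) (geo_cont HC β').aestronglyMeasurable
      (Filter.Eventually.of_forall fun u => hC β' u)
  unfold Yf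
  have e1 : ∀ j : Fin (A.R * m), ∫ u : ℝ, Psi A W.w m j u *
      geo k (fun n => (a n : ℂ)) ((j : ℕ) / (A.R * m : ℕ)) u =
      ∑ p ∈ A.ι, A.c p * (Real.sqrt p.2 : ℂ) * ∫ u : ℝ, theta (A.R * m) m p.2 j *
        (hatw W.w (u + (Real.log p.2 - Real.log p.1 + Real.log A.B)) *
          geo k (fun n => (a n : ℂ)) ((j : ℕ) / (A.R * m : ℕ)) u) := by
    intro j
    simp only [← integral_const_mul]
    rw [← integral_finsetSum]
    · refine integral_congr_ae (Filter.Eventually.of_forall fun u => ?_)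
      simp only [Psi, Finset.sum_mul]
      refine Finset.sum_congr rfl fun p _ => ?_
      rw [show u + Real.log (p.2 : ℝ) - Real.log (p.1 : ℝ) + Real.log (A.B : ℝ) =
        u + (Real.log p.2 - Real.log p.1 + Real.log A.B) by ring]
      ring
    · intro p _
      exact ((hgi _ _).const_mul _).const_mul _
  simp only [e1]
  rw [Finset.sum_comm]
  refine Finset.sum_congr rfl fun p hp => ?_
  rw [← Finset.mul_sum]
  have hp2 : 0 < p.2 := (A.pos p hp).2
  have hp2' : (0 : ℝ) < p.2 := by exact_mod_cast hp2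
  have e2 : ∑ j : Fin (A.R * m), ∫ u : ℝ, theta (A.R * m) m p.2 j *
      (hatw W.w (u + (Real.log p.2 - Real.log p.1 + Real.log A.B)) *
        geo k (fun n => (a n : ℂ)) ((j : ℕ) / (A.R * m : ℕ)) u) =
      ((a p.2 * (p.2 : ℝ) ^ (-(k : ℝ) / 2) : ℝ) : ℂ) * ∫ u, dm k (fun n => (a n : ℂ)) m u *
        hatw W.w (u - Real.log p.1 + Real.log A.B) := by
    rw [← integral_finsetSum]
    · have e3 : ∀ u : ℝ, ∑ j : Fin (A.R * m), theta (A.R * m) m p.2 j *
          (hatw W.w (u + (Real.log p.2 - Real.log p.1 + Real.log A.B)) *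
            geo k (fun n => (a n : ℂ)) ((j : ℕ) / (A.R * m : ℕ)) u) =
          ((a p.2 * (p.2 : ℝ) ^ (-(k : ℝ) / 2) : ℝ) : ℂ) *
            (dm k (fun n => (a n : ℂ)) m (u + Real.log p.2) *
              hatw W.w ((u + Real.log p.2) - Real.log p.1 + Real.log A.B)) := by
        intro u
        rw [show u + Real.log (p.2 : ℝ) - Real.log (p.1 : ℝ) + Real.log (A.B : ℝ) =
          u + (Real.log p.2 - Real.log p.1 + Real.log A.B) by ring, ← mul_assoc,
          ← B10_sum H hN hp2 _ (A.smooth p hp) hm u]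
        · rw [Finset.sum_mul, Finset.sum_range]
          refine Finset.sum_congr rfl fun j _ => ?_
          ring
        · exact Nat.mul_dvd_mul_right (Finset.dvd_prod_of_mem _ hp) m
      simp only [e3]
      rw [integral_const_mul]
      congr 1
      exact integral_add_right_eq_self (μ := volume) (fun u => dm k (fun n => (a n : ℂ)) m u *
        hatw W.w (u - Real.log p.1 + Real.log A.B)) (Real.log p.2)
    · intro j _
      exact (hgi _ _).const_mul _
  rw [e2]
  have hlam : (Real.sqrt p.2 : ℂ) * ((a p.2 * (p.2 : ℝ) ^ (-(k : ℝ) / 2) : ℝ) : ℂ) =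
      (lam k a p.2 : ℂ) := by
    rw [← Complex.ofReal_mul]
    congr 1
    unfold lam
    rw [Real.sqrt_eq_rpow, ← mul_assoc, mul_comm _ (a p.2), mul_assoc, ← Real.rpow_add hp2']
    congr 2
    ring
  rw [← hlam]
  ring

end Pool.Agent.WA
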