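import Pool.Agent.Lib_helper98.WA.Defs
import Pool.Agent.Lib_helper58.Planch

/-! Block B11: Parseval modulo `N` and Plancherel for the weights `Psi`. -/

namespace Pool.Agent.WA

open Complex MeasureTheory Filter Topology
open Pool.Agent.GL2 (hatw)

/-! ### Parseval modulo `N` -/

theorem B11_geom {N : ℕ} (hN : 0 < N) {a a' : ℕ} (ha : a < N) (ha' : a' < N) (h : a ≠ a') :
    ∑ j ∈ Finset.range N, cexp (-(2 * Real.pi * I) * a * j / N) *
      starRingEnd ℂ (cexp (-(2 * Real.pi * I) * a' * j / N)) = 0 := by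
  have hN' : (N : ℂ) ≠ 0 := by exact_mod_cast hN.ne'
  set ζ : ℂ := cexp (2 * Real.pi * I * (((a' : ℤ) - a : ℤ) : ℂ) / N) with hζ
  have h1 : ∀ j : ℕ, cexp (-(2 * Real.pi * I) * a * j / N) *
      starRingEnd ℂ (cexp (-(2 * Real.pi * I) * a' * j / N)) = ζ ^ j := by
    intro j
    rw [hζ, ← Complex.exp_conj, ← Complex.exp_add, ← Complex.exp_nat_mul]
    congr 1
    simp only [map_div₀, map_mul, map_neg, Complex.conj_ofReal, Complex.conj_I, map_natCast,
      map_ofNat]
    push_cast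
    ring
  simp only [h1]
  have h2 : ζ ≠ 1 := by
    intro h3
    rw [hζ, Complex.exp_eq_one_iff] at h3
    obtain ⟨n, hn⟩ := h3
    have hpi : (2 * Real.pi * I : ℂ) ≠ 0 := Complex.two_pi_I_ne_zero
    have h4 : (((a' : ℤ) - a : ℤ) : ℂ) = n * N := by
      have : 2 * Real.pi * I * (((a' : ℤ) - a : ℤ) : ℂ) = 2 * Real.pi * I * (n * N) := by
        rw [div_eq_iff hN'] at hn
        rw [hn]
        ring
      exact mul_left_cancel₀ hpi this
    have h5 : ((a' : ℤ) - a : ℤ) = n * N := by exact_mod_cast h4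
    have h6 : (N : ℤ) ∣ ((a' : ℤ) - a) := ⟨n, by rw [h5]; ring⟩
    have h7 : ((a' : ℤ) - a) = 0 := by
      apply Int.eq_zero_of_abs_lt_dvd h6
      rw [abs_lt]
      constructor <;> omega
    omega
  have h3 : ζ ^ N = 1 := by
    rw [hζ, ← Complex.exp_nat_mul, Complex.exp_eq_one_iff]
    exact ⟨(a' : ℤ) - a, by field_simp⟩
  rw [geom_sum_eq h2, h3, sub_self, zero_div]

theorem B11_parseval {N : ℕ} (hN : 0 < N) (g : ℕ → ℂ) :
    ∑ j ∈ Finset.range N, ‖(1 / (N : ℂ)) * ∑ a ∈ Finset.range N,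
      g a * cexp (-(2 * Real.pi * I) * a * j / N)‖ ^ 2 =
      (1 / (N : ℝ)) * ∑ a ∈ Finset.range N, ‖g a‖ ^ 2 := by
  have hN' : (N : ℝ) ≠ 0 := by exact_mod_cast hN.ne'
  have hN2 : (N : ℂ) ≠ 0 := by exact_mod_cast hN.ne'
  have h1 : ∀ j : ℕ, ((‖(1 / (N : ℂ)) * ∑ a ∈ Finset.range N,
      g a * cexp (-(2 * Real.pi * I) * a * j / N)‖ ^ 2 : ℝ) : ℂ) =
      (1 / (N : ℂ)) ^ 2 * ∑ a ∈ Finset.range N, ∑ a' ∈ Finset.range N,
        (g a * starRingEnd ℂ (g a')) * (cexp (-(2 * Real.pi * I) * a * j / N) *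
          starRingEnd ℂ (cexp (-(2 * Real.pi * I) * a' * j / N))) := by
    intro j
    rw [← Complex.normSq_eq_norm_sq, ← Complex.mul_conj, map_mul, map_sum]
    have h2 : starRingEnd ℂ (1 / (N : ℂ)) = 1 / (N : ℂ) := by simp
    rw [h2]
    have h3 : (1 / (N : ℂ) * ∑ a ∈ Finset.range N, g a * cexp (-(2 * Real.pi * I) * a * j / N)) *
        (1 / (N : ℂ) * ∑ x ∈ Finset.range N,
          starRingEnd ℂ (g x * cexp (-(2 * Real.pi * I) * x * j / N))) =
        (1 / (N : ℂ)) ^ 2 * ((∑ a ∈ Finset.range N, g a * cexp (-(2 * Real.pi * I) * a * j / N)) *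
          ∑ x ∈ Finset.range N, starRingEnd ℂ (g x * cexp (-(2 * Real.pi * I) * x * j / N))) := by
      ring
    rw [h3, Finset.sum_mul_sum]
    congr 1
    refine Finset.sum_congr rfl fun a _ => Finset.sum_congr rfl fun a' _ => ?_
    rw [map_mul]
    ring
  have h4 : ((∑ j ∈ Finset.range N, ‖(1 / (N : ℂ)) * ∑ a ∈ Finset.range N,
      g a * cexp (-(2 * Real.pi * I) * a * j / N)‖ ^ 2 : ℝ) : ℂ) =
      (((1 / (N : ℝ)) * ∑ a ∈ Finset.range N, ‖g a‖ ^ 2 : ℝ) : ℂ) := by
    rw [Complex.ofReal_sum, Finset.sum_congr rfl (fun j _ => h1 j), ← Finset.mul_sum,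
      Finset.sum_comm]
    have h5 : ∀ a ∈ Finset.range N, ∑ j ∈ Finset.range N, ∑ a' ∈ Finset.range N,
        (g a * starRingEnd ℂ (g a')) * (cexp (-(2 * Real.pi * I) * a * j / N) *
          starRingEnd ℂ (cexp (-(2 * Real.pi * I) * a' * j / N))) =
        (N : ℂ) * ((‖g a‖ ^ 2 : ℝ) : ℂ) := by
      intro a ha
      rw [Finset.sum_comm, Finset.sum_eq_single a]
      · rw [← Finset.mul_sum]
        have h6 : ∀ j ∈ Finset.range N, cexp (-(2 * Real.pi * I) * a * j / N) *
            starRingEnd ℂ (cexp (-(2 * Real.pi * I) * a * j / N)) = 1 := by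
          intro j _
          rw [Complex.mul_conj, Complex.normSq_eq_norm_sq]
          have : cexp (-(2 * Real.pi * I) * a * j / N) =
              cexp (((-(2 * Real.pi) * a * j / N : ℝ) : ℂ) * I) := by
            congr 1
            push_cast
            ring
          rw [this, Complex.norm_exp_ofReal_mul_I]
          simp
        rw [Finset.sum_congr rfl h6, Finset.sum_const, Finset.card_range, Complex.mul_conj,
          Complex.normSq_eq_norm_sq]
        simp
        ring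
      · intro a' ha' hne
        rw [← Finset.mul_sum, B11_geom hN (Finset.mem_range.1 ha) (Finset.mem_range.1 ha')
          (Ne.symm hne), mul_zero]
      · intro h
        exact absurd ha h
    rw [Finset.sum_congr rfl h5, ← Finset.mul_sum]
    push_cast
    field_simp
  exact_mod_cast h4

/-! ### arithmetic -/

theorem B11_coprime {m r b : ℕ} (hr : 0 < r) (hrm : r.primeFactors ⊆ m.primeFactors)
    (hb : b.Coprime m) : r.Coprime b := by
  refine Nat.Coprime.symm (Nat.coprime_of_dvd' fun p hp h1 h2 => ?_)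
  have h3 : p ∈ m.primeFactors := hrm (Nat.mem_primeFactors.2 ⟨hp, h2, hr.ne'⟩)
  have h4 : p ∣ Nat.gcd b m := Nat.dvd_gcd h1 (Nat.dvd_of_mem_primeFactors h3)
  rw [hb] at h4
  exact h4

theorem B11_unique {m r r' a : ℕ} (hr : 0 < r) (hrm : r.primeFactors ⊆ m.primeFactors)
    (hr' : 0 < r') (hrm' : r'.primeFactors ⊆ m.primeFactors)
    (h : r ∣ a ∧ (a / r).Coprime m) (h' : r' ∣ a ∧ (a / r').Coprime m) : r = r' := by
  refine Nat.dvd_antisymm ?_ ?_
  · refine (B11_coprime hr hrm h'.2).dvd_of_dvd_mul_right (m := r') ?_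
    rw [Nat.mul_div_cancel' h'.1]
    exact h.1
  · refine (B11_coprime hr' hrm' h.2).dvd_of_dvd_mul_right (m := r) ?_
    rw [Nat.mul_div_cancel' h.1]
    exact h'.1

theorem B11_count (m K : ℕ) :
    ((Finset.range (K * m)).filter (fun b => b.Coprime m)).card = K * m.totient := by
  induction K with
  | zero => simp
  | succ K ih =>
    have h1 : Finset.range ((K + 1) * m) = Finset.range (K * m) ∪ Finset.Ico (K * m) (K * m + m) := by
      ext x
      rw [Finset.mem_union, Finset.mem_range, Finset.mem_range, Finset.mem_Ico]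
      constructor
      · intro h
        rw [add_mul, one_mul] at h
        omega
      · intro h
        rw [add_mul, one_mul]
        omega
    rw [h1, Finset.filter_union, Finset.card_union_of_disjoint, ih]
    · have h2 := Nat.filter_coprime_Ico_eq_totient m (K * m)
      have h3 : (Finset.Ico (K * m) (K * m + m)).filter (fun b => b.Coprime m) =
          (Finset.Ico (K * m) (K * m + m)).filter (fun b => m.Coprime b) := by
        refine Finset.filter_congr fun x _ => ?_
        exact Nat.coprime_comm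
      rw [h3, h2, add_mul, one_mul]
    · rw [Finset.disjoint_left]
      intro x hx hx'
      rw [Finset.mem_filter, Finset.mem_range] at hx
      rw [Finset.mem_filter, Finset.mem_Ico] at hx'
      omega

theorem B11_count' {m r K : ℕ} (hr : 0 < r) :
    ((Finset.range (r * (K * m))).filter (fun a => r ∣ a ∧ (a / r).Coprime m)).card =
      K * m.totient := by
  rw [← B11_count m K]
  refine (Finset.card_bij (fun b _ => r * b) ?_ ?_ ?_).symm
  · intro b hb
    rw [Finset.mem_filter, Finset.mem_range] at hb ⊢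
    refine ⟨Nat.mul_lt_mul_of_pos_left hb.1 hr, Nat.dvd_mul_right _ _, ?_⟩
    rw [Nat.mul_div_cancel_left _ hr]
    exact hb.2
  · intro b _ b' _ h
    exact Nat.eq_of_mul_eq_mul_left hr h
  · intro a ha
    rw [Finset.mem_filter, Finset.mem_range] at ha
    refine ⟨a / r, ?_, Nat.mul_div_cancel' ha.2.1⟩
    rw [Finset.mem_filter, Finset.mem_range]
    refine ⟨?_, ha.2.2⟩
    rw [Nat.div_lt_iff_lt_mul hr, mul_comm]
    exact ha.1

theorem B11_R_pos {S : Finset ℕ} {ε : ℝ} (A : Apx S ε) : 0 < A.R :=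
  Finset.prod_pos fun p hp => (A.pos p hp).2

theorem psi_pars {m : ℕ} (hm : 0 < m) {ε : ℝ} (A : Apx m.primeFactors ε) (w : ℝ → ℝ) (u : ℝ) :
    ∑ j : Fin (A.R * m), ‖Psi A w m j u‖ ^ 2 =
      ((m.totient : ℝ) / m) * ∑ r ∈ A.ι.image Prod.snd, ‖∑ p ∈ A.ι.filter (fun p => p.2 = r),
        A.c p * hatw w (u + Real.log r - Real.log p.1 + Real.log A.B)‖ ^ 2 := by
  classical
  have hN : 0 < A.R * m := Nat.mul_pos (B11_R_pos A) hm
  set N : ℕ := A.R * m with hNdef
  have hNR : (N : ℝ) ≠ 0 := by exact_mod_cast hN.ne'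
  have hmR : (m : ℝ) ≠ 0 := by exact_mod_cast hm.ne'
  set F : ℕ → ℂ := fun r => ∑ p ∈ A.ι.filter (fun p => p.2 = r),
    A.c p * hatw w (u + Real.log r - Real.log p.1 + Real.log A.B) with hF
  set g : ℕ → ℂ := fun a => ∑ r ∈ A.ι.image Prod.snd,
    if r ∣ a ∧ (a / r).Coprime m then (Real.sqrt r : ℂ) * F r else 0 with hg
  have hRs : ∀ r ∈ A.ι.image Prod.snd, 0 < r ∧ r.primeFactors ⊆ m.primeFactors ∧ r ∣ A.R := by
    intro r hr
    obtain ⟨p, hp, rfl⟩ := Finset.mem_image.1 hr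
    exact ⟨(A.pos p hp).2, A.smooth p hp, Finset.dvd_prod_of_mem _ hp⟩
  have hPsi1 : ∀ j : ℕ, Psi A w m j u = ∑ r ∈ A.ι.image Prod.snd,
        (Real.sqrt r : ℂ) * theta N m r j * F r := by
    intro j
    rw [Psi, ← Finset.sum_fiberwise_of_maps_to (g := Prod.snd) (t := A.ι.image Prod.snd)
      (fun p hp => Finset.mem_image_of_mem _ hp)]
    refine Finset.sum_congr rfl fun r _ => ?_
    rw [hF, Finset.mul_sum]
    refine Finset.sum_congr rfl fun p hp => ?_
    rw [(Finset.mem_filter.1 hp).2]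
    ring
  show _ = ((m.totient : ℝ) / m) * ∑ r ∈ A.ι.image Prod.snd, ‖F r‖ ^ 2
  clear_value F
  clear hF
  have hPsi : ∀ j : ℕ, Psi A w m j u = (1 / (N : ℂ)) * ∑ a ∈ Finset.range N,
      g a * cexp (-(2 * Real.pi * I) * a * j / N) := by
    intro j
    rw [hPsi1 j, hg]
    simp only [Finset.sum_mul]
    rw [Finset.sum_comm, Finset.mul_sum]
    refine Finset.sum_congr rfl fun r _ => ?_
    rw [theta, Finset.sum_filter, Finset.mul_sum, Finset.mul_sum, Finset.mul_sum, Finset.sum_mul]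
    refine Finset.sum_congr rfl fun a _ => ?_
    split_ifs
    · ring
    · ring
  have e1 : ∑ j : Fin N, ‖Psi A w m j u‖ ^ 2 = ∑ j ∈ Finset.range N, ‖Psi A w m j u‖ ^ 2 :=
    Fin.sum_univ_eq_sum_range (fun j => ‖Psi A w m j u‖ ^ 2) N
  rw [e1, Finset.sum_congr rfl (fun j _ => by rw [hPsi j]), B11_parseval hN g]
  have hg2 : ∀ a, ‖g a‖ ^ 2 = ∑ r ∈ A.ι.image Prod.snd,
      if r ∣ a ∧ (a / r).Coprime m then (r : ℝ) * ‖F r‖ ^ 2 else 0 := by
    intro a
    by_cases h : ∃ r ∈ A.ι.image Prod.snd, r ∣ a ∧ (a / r).Coprime m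
    · obtain ⟨r, hr, hra⟩ := h
      have hr2 := hRs r hr
      have e2 : g a = (Real.sqrt r : ℂ) * F r := by
        rw [hg]
        simp only
        rw [Finset.sum_eq_single r]
        · rw [if_pos hra]
        · intro r' hr' hne
          rw [if_neg]
          intro h'
          have hr3 := hRs r' hr'
          exact hne (B11_unique hr3.1 hr3.2.1 hr2.1 hr2.2.1 h' hra)
        · intro h
          exact absurd hr h
      rw [e2, Finset.sum_eq_single r]
      · rw [if_pos hra, norm_mul, mul_pow, Complex.norm_real, Real.norm_eq_abs, sq_abs,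
          Real.sq_sqrt (Nat.cast_nonneg r)]
      · intro r' hr' hne
        rw [if_neg]
        intro h'
        have hr3 := hRs r' hr'
        exact hne (B11_unique hr3.1 hr3.2.1 hr2.1 hr2.2.1 h' hra)
      · intro h
        exact absurd hr h
    · have e2 : g a = 0 := by
        rw [hg]
        refine Finset.sum_eq_zero fun r hr => ?_
        rw [if_neg]
        exact fun h' => h ⟨r, hr, h'⟩
      rw [e2, norm_zero, zero_pow two_ne_zero, eq_comm]
      refine Finset.sum_eq_zero fun r hr => ?_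
      rw [if_neg]
      exact fun h' => h ⟨r, hr, h'⟩
  rw [Finset.sum_congr rfl (fun a _ => hg2 a), Finset.sum_comm, Finset.mul_sum, Finset.mul_sum]
  refine Finset.sum_congr rfl fun r hr => ?_
  obtain ⟨hr1, _, K, hK⟩ := hRs r hr
  rw [← Finset.sum_filter, Finset.sum_const, nsmul_eq_mul]
  have e3 : N = r * (K * m) := by rw [hNdef, hK]; ring
  have e4 : ((Finset.range N).filter (fun a => r ∣ a ∧ (a / r).Coprime m)).card =
      K * m.totient := by
    rw [e3]
    exact B11_count' hr1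
  rw [e4]
  have hrR : (r : ℝ) ≠ 0 := by exact_mod_cast hr1.ne'
  have hKR : (K : ℝ) ≠ 0 := by
    intro h
    have : K = 0 := by exact_mod_cast h
    rw [e3, this] at hN
    simp at hN
  have e5 : (N : ℝ) = r * (K * m) := by rw [e3]; push_cast; ring
  rw [e5]
  push_cast
  field_simp

/-! ### Plancherel -/

theorem B11_hatw_cont {w : ℝ → ℝ} (hw : Continuous w) (hc : HasCompactSupport w) :
    Continuous (hatw w) := by
  unfold hatw
  have hi : Integrable w := hw.integrable_of_hasCompactSupport hc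
  refine continuous_of_dominated (bound := fun t => ‖w t‖) ?_ ?_ hi.norm ?_
  · intro u
    exact (by fun_prop : Continuous fun t : ℝ => (w t : ℂ) * cexp (t * u * I)).aestronglyMeasurable
  · intro u
    refine ae_of_all _ fun t => ?_
    rw [norm_mul, ← ofReal_mul, norm_exp_ofReal_mul_I, mul_one, Complex.norm_real]
  · exact ae_of_all _ fun t => by fun_prop

theorem B11_planch {G : ℝ → ℂ} (hG : Continuous G) (hc : HasCompactSupport G) :
    ∫ u : ℝ, ‖∫ t : ℝ, G t * cexp (t * u * I)‖ ^ 2 = 2 * Real.pi * ∫ t, ‖G t‖ ^ 2 := by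
  have h1 : ∀ u : ℝ, ∫ t : ℝ, G t * cexp (t * u * I) =
      FourierTransform.fourier G ((-1 / (2 * Real.pi)) * u) := by
    intro u
    rw [Real.fourier_real_eq_integral_exp_smul]
    refine integral_congr_ae (ae_of_all _ fun t => ?_)
    simp only [smul_eq_mul]
    rw [mul_comm]
    congr 2
    have hpi : (Real.pi : ℂ) ≠ 0 := by exact_mod_cast Real.pi_ne_zero
    push_cast
    field_simp
  have hL1 : Integrable G := hG.integrable_of_hasCompactSupport hc
  have hL2 : MemLp G 2 := hG.memLp_of_hasCompactSupport hc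
  have hP := Pool.Agent.H58.plancherel G hL1 hL2
  have h2 : ∫ ξ : ℝ, ‖FourierTransform.fourier G ξ‖ ^ 2 = ∫ t, ‖G t‖ ^ 2 := by
    have hcF : Continuous (FourierTransform.fourier G : ℝ → ℂ) :=
      (VectorFourier.fourierIntegral_continuous Real.continuous_fourierChar
        (by exact (innerSL ℝ (E := ℝ)).continuous₂) hL1)
    have hm1 : AEStronglyMeasurable (fun ξ => ‖FourierTransform.fourier G ξ‖ ^ 2) volume :=
      (hcF.norm.pow 2).aestronglyMeasurable
    have hm2 : AEStronglyMeasurable (fun t => ‖G t‖ ^ 2) volume :=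
      (hG.norm.pow 2).aestronglyMeasurable
    rw [integral_eq_lintegral_of_nonneg_ae (ae_of_all _ fun _ => by positivity) hm1,
      integral_eq_lintegral_of_nonneg_ae (ae_of_all _ fun _ => by positivity) hm2]
    congr 1
    have h3 : ∀ z : ℂ, ENNReal.ofReal (‖z‖ ^ 2) = ‖z‖ₑ ^ 2 := by
      intro z
      rw [ENNReal.ofReal_pow (norm_nonneg _), ofReal_norm]
    simp only [h3]
    exact hP
  simp only [h1]
  rw [Measure.integral_comp_mul_left (fun ξ => ‖FourierTransform.fourier G ξ‖ ^ 2), h2]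
  rw [smul_eq_mul]
  congr 1
  rw [abs_of_nonpos]
  · field_simp
  · rw [inv_nonpos]
    have := Real.pi_pos
    rw [neg_div]
    exact neg_nonpos.2 (by positivity)

/-- the Dirichlet polynomial -/
noncomputable def B11_P {S : Finset ℕ} {ε : ℝ} (A : Apx S ε) (r : ℕ) (t : ℝ) : ℂ :=
  ∑ p ∈ A.ι.filter (fun p => p.2 = r), A.c p * (p.1 : ℂ) ^ (-(t * Complex.I) : ℂ)

theorem B11_P_cont {S : Finset ℕ} {ε : ℝ} (A : Apx S ε) (r : ℕ) : Continuous (B11_P A r) := by
  unfold B11_P
  refine continuous_finsetSum _ fun p hp => continuous_const.mul ?_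
  have hp1 : 0 < p.1 := (A.pos p (Finset.mem_filter.1 hp).1).1
  have hp2 : (p.1 : ℂ) ≠ 0 := by exact_mod_cast hp1.ne'
  exact Continuous.const_cpow (by fun_prop) (Or.inl hp2)

noncomputable def B11_G {S : Finset ℕ} {ε : ℝ} (A : Apx S ε) (w : ℝ → ℝ) (r : ℕ) (t : ℝ) : ℂ :=
  (w t : ℂ) * (cexp (t * (Real.log r + Real.log A.B : ℝ) * I) * B11_P A r t)

theorem B11_Gnorm {S : Finset ℕ} {ε : ℝ} (A : Apx S ε) (w : ℝ → ℝ) (r : ℕ) (t : ℝ) :
    ‖B11_G A w r t‖ ^ 2 = w t ^ 2 * ‖B11_P A r t‖ ^ 2 := by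
  rw [B11_G, norm_mul, norm_mul, ← Complex.ofReal_mul, norm_exp_ofReal_mul_I, one_mul, mul_pow,
    Complex.norm_real, Real.norm_eq_abs, sq_abs]

theorem B11_F_eq {S : Finset ℕ} {ε : ℝ} (A : Apx S ε) {α β : ℝ} (W : WtW α β) (r : ℕ) (u : ℝ) :
    ∑ p ∈ A.ι.filter (fun p => p.2 = r),
      A.c p * hatw W.w (u + Real.log r - Real.log p.1 + Real.log A.B) =
      ∫ t : ℝ, B11_G A W.w r t * cexp (t * u * I) := by
  have h1 : ∀ t : ℝ, B11_G A W.w r t * cexp (t * u * I) =
      ∑ p ∈ A.ι.filter (fun p => p.2 = r), A.c p * ((W.w t : ℂ) *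
        cexp (t * ((u + Real.log r - Real.log p.1 + Real.log A.B : ℝ) : ℂ) * I)) := by
    intro t
    rw [B11_G, B11_P, Finset.mul_sum, Finset.mul_sum, Finset.sum_mul]
    refine Finset.sum_congr rfl fun p hp => ?_
    have hp1 : 0 < p.1 := (A.pos p (Finset.mem_filter.1 hp).1).1
    have hp2 : (p.1 : ℂ) ≠ 0 := by exact_mod_cast hp1.ne'
    have h2 : (p.1 : ℂ) ^ (-(t * Complex.I) : ℂ) = cexp (-(t * I) * (Real.log p.1 : ℝ)) := by
      rw [Complex.cpow_def_of_ne_zero hp2, ← Complex.natCast_log]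
      congr 1
      ring
    have h3 : cexp (t * ((u + Real.log r - Real.log p.1 + Real.log A.B : ℝ) : ℂ) * I) =
        cexp (t * (Real.log r + Real.log A.B : ℝ) * I) * cexp (-(t * I) * (Real.log p.1 : ℝ)) *
          cexp (t * u * I) := by
      rw [← Complex.exp_add, ← Complex.exp_add]
      congr 1
      push_cast
      ring
    rw [h2, h3]
    ring
  simp only [h1]
  rw [integral_finsetSum]
  · refine Finset.sum_congr rfl fun p _ => ?_
    rw [integral_const_mul]
    rfl
  · intro p _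
    refine Integrable.const_mul ?_ _
    have hcs : HasCompactSupport fun t : ℝ => (W.w t : ℂ) := W.cs.comp_left (g := fun x : ℝ => (x : ℂ)) (by simp)
    refine Continuous.integrable_of_hasCompactSupport ?_ hcs.mul_right
    have := W.cont
    fun_prop

theorem B11_G_cont {S : Finset ℕ} {ε : ℝ} (A : Apx S ε) {α β : ℝ} (W : WtW α β) (r : ℕ) :
    Continuous (B11_G A W.w r) := by
  have h1 := W.cont
  have h2 := B11_P_cont A r
  unfold B11_G
  fun_prop

theorem B11_G_cs {S : Finset ℕ} {ε : ℝ} (A : Apx S ε) {α β : ℝ} (W : WtW α β) (r : ℕ) :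
    HasCompactSupport (B11_G A W.w r) := by
  have hcs : HasCompactSupport fun t : ℝ => (W.w t : ℂ) :=
    W.cs.comp_left (g := fun x : ℝ => (x : ℂ)) (by simp)
  exact hcs.mul_right

theorem psi_plan {S : Finset ℕ} {ε : ℝ} (A : Apx S ε) {α β : ℝ} (W : WtW α β) :
    ∑ r ∈ A.ι.image Prod.snd, ∫ u : ℝ, ‖∑ p ∈ A.ι.filter (fun p => p.2 = r),
      A.c p * hatw W.w (u + Real.log r - Real.log p.1 + Real.log A.B)‖ ^ 2 ≤
      2 * Real.pi * (1 + ε) ^ 2 * ∫ t, W.w t ^ 2 := by
  simp only [B11_F_eq A W]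
  simp only [B11_planch (B11_G_cont A W _) (B11_G_cs A W _)]
  rw [← Finset.mul_sum]
  have hint : ∀ r, Integrable (fun t => ‖B11_G A W.w r t‖ ^ 2) := by
    intro r
    refine Continuous.integrable_of_hasCompactSupport ((B11_G_cont A W r).norm.pow 2) ?_
    exact (B11_G_cs A W r).comp_left (g := fun z : ℂ => ‖z‖ ^ 2) (by simp)
  rw [← integral_finsetSum _ (fun r _ => hint r)]
  have hw2 : Integrable (fun t => W.w t ^ 2) := by
    refine Continuous.integrable_of_hasCompactSupport (W.cont.pow 2) ?_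
    exact W.cs.comp_left (g := fun x : ℝ => x ^ 2) (by simp)
  have h1 : ∫ t, ∑ r ∈ A.ι.image Prod.snd, ‖B11_G A W.w r t‖ ^ 2 ≤
      ∫ t, (1 + ε) ^ 2 * W.w t ^ 2 := by
    refine integral_mono (integrable_finsetSum _ fun r _ => hint r) (hw2.const_mul _) fun t => ?_
    simp only [B11_Gnorm]
    rw [← Finset.mul_sum, mul_comm]
    exact mul_le_mul_of_nonneg_right (A.l2 t) (sq_nonneg _)
  rw [integral_const_mul] at h1
  have hpi := Real.pi_pos
  calc 2 * Real.pi * ∫ t, ∑ r ∈ A.ι.image Prod.snd, ‖B11_G A W.w r t‖ ^ 2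
      ≤ 2 * Real.pi * ((1 + ε) ^ 2 * ∫ t, W.w t ^ 2) := by gcongr
    _ = 2 * Real.pi * (1 + ε) ^ 2 * ∫ t, W.w t ^ 2 := by ring

/-! ### decay -/

theorem B11_C_nonneg {α β : ℝ} (W : WtW α β) : 0 ≤ W.C := by
  have h := W.decay 0
  norm_num at h
  exact (norm_nonneg _).trans h

theorem B11_shift {α β : ℝ} (W : WtW α β) (c u : ℝ) :
    ‖hatw W.w (u + c)‖ ≤ W.C * (2 * (1 + c ^ 2)) / (1 + u ^ 2) := by
  have h0 := B11_C_nonneg W
  have h1 := W.decay (u + c)
  refine h1.trans ?_
  rw [div_le_div_iff₀ (by positivity) (by positivity), mul_assoc]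
  refine mul_le_mul_of_nonneg_left ?_ h0
  have h2 : 1 + u ^ 2 ≤ 2 * (1 + c ^ 2) * (1 + (u + c) ^ 2) := by
    nlinarith [sq_nonneg (u + 2 * c), sq_nonneg (c * (u + c)), sq_nonneg u, sq_nonneg c,
      sq_nonneg (u + c)]
  have h3 : (1 : ℝ) ≤ 1 + (u + c) ^ 2 := by nlinarith [sq_nonneg (u + c)]
  calc 1 + u ^ 2 ≤ 2 * (1 + c ^ 2) * (1 + (u + c) ^ 2) := h2
    _ ≤ 2 * (1 + c ^ 2) * (1 + (u + c) ^ 2) ^ 2 := by
        refine mul_le_mul_of_nonneg_left ?_ (by positivity)
        nlinarith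

theorem B11_theta (N m r b : ℕ) : ‖theta N m r b‖ ≤ 1 := by
  rw [theta, norm_mul]
  have h1 : ‖∑ a ∈ (Finset.range N).filter (fun a => r ∣ a ∧ (a / r).Coprime m),
      cexp (-(2 * Real.pi * I) * a * b / N)‖ ≤ N := by
    refine (norm_sum_le_of_le (f := fun a : ℕ => cexp (-(2 * Real.pi * I) * a * b / N))
      (n := fun _ => (1 : ℝ)) _ ?_).trans ?_
    · intro a _
      have : cexp (-(2 * Real.pi * I) * a * b / N) =
          cexp (((-(2 * Real.pi) * a * b / N : ℝ) : ℂ) * I) := by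
        congr 1
        push_cast
        ring
      rw [this, Complex.norm_exp_ofReal_mul_I]
    · rw [Finset.sum_const, nsmul_eq_mul, mul_one]
      have := Finset.card_filter_le (Finset.range N) (fun a => r ∣ a ∧ (a / r).Coprime m)
      rw [Finset.card_range] at this
      exact_mod_cast this
  have h2 : ‖(1 / (N : ℂ))‖ = 1 / N := by
    rw [norm_div, norm_one, Complex.norm_natCast]
  rw [h2]
  rcases Nat.eq_zero_or_pos N with h | h
  · subst h
    simp
  · have hN : (0 : ℝ) < N := by exact_mod_cast h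
    calc 1 / (N : ℝ) * _ ≤ 1 / (N : ℝ) * N := by gcongr
      _ = 1 := by field_simp

theorem psi_decay {m : ℕ} (hm : 0 < m) {ε : ℝ} (A : Apx m.primeFactors ε) {α β : ℝ}
    (W : WtW α β) : (∀ j : ℕ, Continuous (Psi A W.w m j)) ∧
      ∃ C : ℝ, 0 < C ∧ ∀ (j : ℕ) (u : ℝ), ‖Psi A W.w m j u‖ ≤ C / (1 + u ^ 2) := by
  have hc := B11_hatw_cont W.cont W.cs
  refine ⟨fun j => ?_, ?_⟩
  · unfold Psi
    refine continuous_finsetSum _ fun p _ => ?_
    refine continuous_const.mul (hc.comp ?_)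
    fun_prop
  · have h0 := B11_C_nonneg W
    refine ⟨∑ p ∈ A.ι, ‖A.c p‖ * Real.sqrt p.2 *
      (W.C * (2 * (1 + (Real.log p.2 - Real.log p.1 + Real.log A.B) ^ 2))) + 1, ?_, fun j u => ?_⟩
    · have : 0 ≤ ∑ p ∈ A.ι, ‖A.c p‖ * Real.sqrt p.2 *
        (W.C * (2 * (1 + (Real.log p.2 - Real.log p.1 + Real.log A.B) ^ 2))) :=
        Finset.sum_nonneg fun p _ => by positivity
      linarith
    · have hu : 0 < 1 + u ^ 2 := by positivity
      rw [add_div, Finset.sum_div]
      have h1 : ‖Psi A W.w m j u‖ ≤ ∑ p ∈ A.ι, ‖A.c p‖ * Real.sqrt p.2 *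
        (W.C * (2 * (1 + (Real.log p.2 - Real.log p.1 + Real.log A.B) ^ 2))) / (1 + u ^ 2) := by
        rw [Psi]
        refine norm_sum_le_of_le _ fun p _ => ?_
        have h2 := B11_shift W (Real.log p.2 - Real.log p.1 + Real.log A.B) u
        have h3 := B11_theta (A.R * m) m p.2 j
        rw [norm_mul, norm_mul, norm_mul, Complex.norm_real, Real.norm_eq_abs,
          abs_of_nonneg (Real.sqrt_nonneg _)]
        rw [show u + Real.log p.2 - Real.log p.1 + Real.log A.B =
          u + (Real.log p.2 - Real.log p.1 + Real.log A.B) by ring]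
        calc ‖A.c p‖ * Real.sqrt p.2 * ‖theta (A.R * m) m p.2 j‖ *
            ‖hatw W.w (u + (Real.log p.2 - Real.log p.1 + Real.log A.B))‖
            ≤ ‖A.c p‖ * Real.sqrt p.2 * 1 * (W.C * (2 * (1 +
              (Real.log p.2 - Real.log p.1 + Real.log A.B) ^ 2)) / (1 + u ^ 2)) := by
              gcongr
          _ = _ := by ring
      have h3 : 0 ≤ 1 / (1 + u ^ 2) := by positivity
      linarith

theorem psi_l2 {m : ℕ} (hm : 0 < m) {ε : ℝ} (A : Apx m.primeFactors ε) {α β : ℝ}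
    (W : WtW α β) : ∑ j : Fin (A.R * m), ∫ u, ‖Psi A W.w m j u‖ ^ 2 ≤
      2 * Real.pi * ((m.totient : ℝ) / m) * (1 + ε) ^ 2 * ∫ t, W.w t ^ 2 := by
  obtain ⟨hcont, C, hC, hdec⟩ := psi_decay hm A W
  have hint : ∀ j : ℕ, Integrable (fun u => ‖Psi A W.w m j u‖ ^ 2) := by
    intro j
    refine Integrable.mono' (g := fun u => C ^ 2 * (1 + u ^ 2)⁻¹)
      (integrable_inv_one_add_sq.const_mul _) ((hcont j).norm.pow 2).aestronglyMeasurable ?_
    refine ae_of_all _ fun u => ?_
    rw [norm_pow, norm_norm]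
    have hu : 1 ≤ 1 + u ^ 2 := by nlinarith [sq_nonneg u]
    have h1 := pow_le_pow_left₀ (norm_nonneg _) (hdec j u) 2
    refine h1.trans ?_
    rw [div_pow, div_eq_mul_inv]
    refine mul_le_mul_of_nonneg_left ?_ (by positivity)
    apply inv_anti₀ (by positivity)
    nlinarith
  have hc := B11_hatw_cont W.cont W.cs
  have hint2 : ∀ r : ℕ, Integrable (fun u => ‖∑ p ∈ A.ι.filter (fun p => p.2 = r),
      A.c p * hatw W.w (u + Real.log r - Real.log p.1 + Real.log A.B)‖ ^ 2) := by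
    intro r
    have h0 := B11_C_nonneg W
    set D : ℝ := ∑ p ∈ A.ι.filter (fun p => p.2 = r), ‖A.c p‖ *
      (W.C * (2 * (1 + (Real.log r - Real.log p.1 + Real.log A.B) ^ 2))) with hD
    have hcc : Continuous (fun u => ∑ p ∈ A.ι.filter (fun p => p.2 = r),
      A.c p * hatw W.w (u + Real.log r - Real.log p.1 + Real.log A.B)) := by
      refine continuous_finsetSum _ fun p _ => continuous_const.mul (hc.comp ?_)
      fun_prop
    refine Integrable.mono' (g := fun u => D ^ 2 * (1 + u ^ 2)⁻¹)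
      (integrable_inv_one_add_sq.const_mul _) (hcc.norm.pow 2).aestronglyMeasurable ?_
    refine ae_of_all _ fun u => ?_
    rw [norm_pow, norm_norm]
    have h2 : ‖∑ p ∈ A.ι.filter (fun p => p.2 = r),
        A.c p * hatw W.w (u + Real.log r - Real.log p.1 + Real.log A.B)‖ ≤ D / (1 + u ^ 2) := by
      rw [hD, Finset.sum_div]
      refine norm_sum_le_of_le _ fun p _ => ?_
      have h2 := B11_shift W (Real.log r - Real.log p.1 + Real.log A.B) u
      rw [show u + Real.log r - Real.log p.1 + Real.log A.B =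
          u + (Real.log r - Real.log p.1 + Real.log A.B) by ring, norm_mul, mul_div_assoc]
      exact mul_le_mul_of_nonneg_left h2 (norm_nonneg _)
    have hu : 1 ≤ 1 + u ^ 2 := by nlinarith [sq_nonneg u]
    have h1 := pow_le_pow_left₀ (norm_nonneg _) h2 2
    refine h1.trans ?_
    rw [div_pow, div_eq_mul_inv]
    refine mul_le_mul_of_nonneg_left ?_ (by positivity)
    apply inv_anti₀ (by positivity)
    nlinarith
  rw [← integral_finsetSum _ (fun (j : Fin (A.R * m)) _ => hint j)]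
  simp only [psi_pars hm A W.w]
  rw [integral_const_mul, integral_finsetSum _ (fun r _ => hint2 r)]
  have h1 := psi_plan A W
  calc ((m.totient : ℝ) / m) * ∑ r ∈ A.ι.image Prod.snd, ∫ u : ℝ,
        ‖∑ p ∈ A.ι.filter (fun p => p.2 = r),
          A.c p * hatw W.w (u + Real.log r - Real.log p.1 + Real.log A.B)‖ ^ 2
      ≤ ((m.totient : ℝ) / m) * (2 * Real.pi * (1 + ε) ^ 2 * ∫ t, W.w t ^ 2) :=
        mul_le_mul_of_nonneg_left h1 (by positivity)
    _ = _ := by ring

end Pool.Agent.WA
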