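import Pool.Agent.Lib_helper98.WAF.B6

/-! Block B7: tails at the rational cusps. -/

namespace Pool.Agent.WA

open Complex MeasureTheory Filter Topology UpperHalfPlane
open scoped MatrixGroups ENNReal
open Pool.Agent.GL2 (qs HData am dens hatw Ep Mol xt FD IsCompletedL oddZ)

theorem geo_flip {k : ℕ} {b : ℕ → ℂ} (H : CForm k b) (β : ℚ) : ∃ (β' : ℚ) (θ : ℂ), ‖θ‖ = 1 ∧
    ∀ u : ℝ, geo k b β u = θ * geo k b β' (-u - 2 * Real.log β.den) := by
  have hcop : IsCoprime β.num (β.den : ℤ) := by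
    rw [Int.isCoprime_iff_gcd_eq_one]
    exact β.reduced
  obtain ⟨x, y, hxy⟩ := hcop
  -- `x * num + y * den = 1`; take `a = -x`, `b0 = -y`, `c = den`, `d = -num`
  have hdet : (-x) * (-β.num) - (-y) * (β.den : ℤ) = 1 := by linarith
  have hc0 : (0 : ℝ) < (β.den : ℝ) := by exact_mod_cast β.den_pos
  have hcC : ((β.den : ℕ) : ℂ) ≠ 0 := by exact_mod_cast hc0.ne'
  refine ⟨-(x : ℚ) / β.den, (Complex.I ^ k)⁻¹, by simp, ?_⟩
  intro u
  have hβ : ((β : ℝ) : ℂ) = (β.num : ℂ) / (β.den : ℂ) := by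
    have h1 : (β : ℝ) = (β.num : ℝ) / (β.den : ℝ) := Rat.cast_def β
    rw [h1]
    push_cast
    rfl
  set y' : ℝ := Real.exp (-u - 2 * Real.log β.den) with hy'
  have hyy : y' = 1 / ((β.den : ℝ) ^ 2 * Real.exp u) := by
    rw [hy', Real.exp_sub, Real.exp_neg, mul_comm (2 : ℝ), Real.exp_mul, Real.exp_log hc0]
    rw [show (β.den : ℝ) ^ (2 : ℝ) = (β.den : ℝ) ^ 2 by
      rw [← Real.rpow_natCast]; norm_num]
    field_simp
  have hexp : (0 : ℝ) < Real.exp u := Real.exp_pos u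
  have hexpC : ((Real.exp u : ℝ) : ℂ) ≠ 0 := by exact_mod_cast hexp.ne'
  set z : ℂ := ((β : ℝ) : ℂ) + (Real.exp u : ℝ) * Complex.I with hz
  have hzim : 0 < z.im := by
    rw [hz]
    simp only [Complex.add_im, Complex.ofReal_im, Complex.mul_im, Complex.ofReal_re, Complex.I_im,
      Complex.I_re, mul_one, mul_zero, zero_add, add_zero]
    exact hexp
  have hcz : ((β.den : ℤ) : ℂ) * z + ((-β.num : ℤ) : ℂ) = Complex.I * ((β.den : ℂ) * (Real.exp u : ℝ)) := by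
    rw [hz, hβ]
    push_cast
    field_simp
    ring
  have hcz0 : Complex.I * ((β.den : ℂ) * (Real.exp u : ℝ)) ≠ 0 :=
    mul_ne_zero Complex.I_ne_zero (mul_ne_zero hcC hexpC)
  have hsl := H.slash (-x) (-y) (β.den : ℤ) (-β.num) hdet z hzim
  have hmob : (((-x : ℤ) : ℂ) * z + ((-y : ℤ) : ℂ)) / (((β.den : ℤ) : ℂ) * z + ((-β.num : ℤ) : ℂ)) =
      ((((-(x : ℚ) / β.den : ℚ) : ℝ)) : ℂ) + (y' : ℝ) * Complex.I := by
    rw [hcz, hyy, hz, hβ]
    have hxy' : (x : ℂ) * (β.num : ℂ) + (y : ℂ) * (β.den : ℂ) = 1 := by exact_mod_cast hxy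
    have hI : Complex.I ^ 2 = -1 := Complex.I_sq
    have hEu : cexp (u : ℂ) ≠ 0 := Complex.exp_ne_zero _
    push_cast
    field_simp
    linear_combination (-1 : ℂ) * hxy' - hI
  rw [hmob, hcz] at hsl
  have hg1 : geo k b β u = qc b z * ((Real.exp (k * u / 2) : ℝ) : ℂ) := rfl
  have hg2 : geo k b ((-(x : ℚ) / β.den : ℚ) : ℝ) (-u - 2 * Real.log β.den) =
      qc b (((((-(x : ℚ) / β.den : ℚ) : ℝ)) : ℂ) + (y' : ℝ) * Complex.I) *
        ((Real.exp (k * (-u - 2 * Real.log β.den) / 2) : ℝ) : ℂ) := rfl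
  rw [hg1, hg2, hsl]
  generalize qc b z = Q
  have e1 : (Real.exp (k * u / 2) : ℝ) = Real.exp (u / 2) ^ k := by
    rw [← Real.exp_nat_mul]
    congr 1
    ring
  have e2 : (Real.exp (k * (-u - 2 * Real.log β.den) / 2) : ℝ) =
      (Real.exp (-u / 2) / β.den) ^ k := by
    rw [show (k : ℝ) * (-u - 2 * Real.log β.den) / 2 = k * (-u / 2 - Real.log β.den) by ring,
      Real.exp_nat_mul, Real.exp_sub, Real.exp_log hc0]
  rw [e1, e2]
  have e3 : Real.exp u = Real.exp (u / 2) * Real.exp (u / 2) := by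
    rw [← Real.exp_add]; congr 1; ring
  have e4 : Real.exp (-u / 2) = (Real.exp (u / 2))⁻¹ := by
    rw [neg_div, Real.exp_neg]
  have hE : ((Real.exp (u / 2) : ℝ) : ℂ) ≠ 0 := by
    exact_mod_cast (Real.exp_pos _).ne'
  rw [e3, e4]
  push_cast
  rw [mul_pow, mul_pow, mul_pow, div_pow, inv_pow]
  have hIk : (Complex.I : ℂ) ^ k ≠ 0 := pow_ne_zero _ Complex.I_ne_zero
  have hEk : (((Real.exp (u / 2) : ℝ) : ℂ)) ^ k ≠ 0 := pow_ne_zero _ hE
  have hck : ((β.den : ℂ)) ^ k ≠ 0 := pow_ne_zero _ hcC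
  push_cast at hEk
  field_simp

theorem b7_int {k : ℕ} {b : ℕ → ℂ} (H : CForm k b) (β : ℝ) {Ψ : ℝ → ℂ} (hm : Measurable Ψ)
    (hb : ∀ u, ‖Ψ u‖ ≤ 1 / (1 + u ^ 2)) : Integrable (fun u => Ψ u * geo k b β u) := by
  obtain ⟨C, hC⟩ := geo_bdd H
  have h1 : Integrable (fun u : ℝ => (1 + u ^ 2)⁻¹ * C) :=
    integrable_inv_one_add_sq.mul_const C
  refine h1.mono' (hm.aestronglyMeasurable.mul (geo_cont H β).aestronglyMeasurable) ?_
  refine Filter.Eventually.of_forall (fun u => ?_)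
  rw [norm_mul, ← one_div]
  exact mul_le_mul (hb u) (hC β u) (norm_nonneg _) (by positivity)

theorem tail_all (β : ℚ) {δ : ℝ} (hδ : 0 < δ) : ∃ (V : ℝ) (k₀ : ℕ), ∀ k : ℕ, k₀ ≤ k → Even k →
    ∀ Ψ : ℝ → ℂ, Measurable Ψ → (∀ u, ‖Ψ u‖ ≤ 1 / (1 + u ^ 2)) →
      (∀ u ∈ Set.Icc (-V) V, Ψ u = 0) → ∀ b, CForm k b →
        ‖∫ u, Ψ u * geo k b β u‖ ^ 2 ≤ δ * Real.sqrt k * pn k b := by
  obtain ⟨V, k₀, hV, hT⟩ := tail_pos (δ := δ / 4) (by positivity)
  set L : ℝ := 2 * Real.log β.den with hL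
  have hL0 : 0 ≤ L := by
    have : (1 : ℝ) ≤ (β.den : ℝ) := by exact_mod_cast β.den_pos
    have := Real.log_nonneg this
    positivity
  refine ⟨V + L, k₀, ?_⟩
  intro k hk hev Ψ hm hb hz b H
  obtain ⟨β', θ, hθ, hflip⟩ := geo_flip H β
  let Ψ1 : ℝ → ℂ := fun u => if 0 < u then Ψ u else 0
  let Ψ2 : ℝ → ℂ := fun u => if 0 < u then 0 else Ψ u
  have hm1 : Measurable Ψ1 := Measurable.ite measurableSet_Ioi hm measurable_const
  have hm2 : Measurable Ψ2 := Measurable.ite measurableSet_Ioi measurable_const hm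
  have hpos : ∀ u : ℝ, (0 : ℝ) ≤ 1 / (1 + u ^ 2) := fun u => by positivity
  have hb1 : ∀ u, ‖Ψ1 u‖ ≤ 1 / (1 + u ^ 2) := by
    intro u
    by_cases h : 0 < u
    · simp only [Ψ1, if_pos h]; exact hb u
    · simp only [Ψ1, if_neg h, norm_zero]; exact hpos u
  have hb2 : ∀ u, ‖Ψ2 u‖ ≤ 1 / (1 + u ^ 2) := by
    intro u
    by_cases h : 0 < u
    · simp only [Ψ2, if_pos h, norm_zero]; exact hpos u
    · simp only [Ψ2, if_neg h]; exact hb u
  have hsplit : ∫ u, Ψ u * geo k b β u = (∫ u, Ψ1 u * geo k b β u) + ∫ u, Ψ2 u * geo k b β u := by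
    rw [← integral_add (b7_int H β hm1 hb1) (b7_int H β hm2 hb2)]
    congr 1
    funext u
    by_cases h : 0 < u
    · simp only [Ψ1, Ψ2, if_pos h]; ring
    · simp only [Ψ1, Ψ2, if_neg h]; ring
  have hA : ‖∫ u, Ψ1 u * geo k b β u‖ ^ 2 ≤ δ / 4 * Real.sqrt k * pn k b := by
    refine hT k hk hev β Ψ1 hm1 hb1 ?_ b H
    intro u hu
    by_cases h : 0 < u
    · simp only [Ψ1, if_pos h]
      exact hz u ⟨by linarith, by linarith⟩
    · simp only [Ψ1, if_neg h]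
  let Ψ3 : ℝ → ℂ := fun v => Ψ2 (-v - L)
  have hm3 : Measurable Ψ3 := hm2.comp (by fun_prop)
  have hz3 : ∀ v, v ≤ V → Ψ3 v = 0 := by
    intro v hv
    by_cases h : 0 < -v - L
    · simp only [Ψ3, Ψ2, if_pos h]
    · simp only [Ψ3, Ψ2, if_neg h]
      exact hz _ ⟨by linarith, by linarith⟩
  have hb3 : ∀ v, ‖Ψ3 v‖ ≤ 1 / (1 + v ^ 2) := by
    intro v
    by_cases hv : v ≤ V
    · rw [hz3 v hv, norm_zero]; exact hpos v
    · push Not at hv
      refine (hb2 _).trans ?_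
      apply one_div_le_one_div_of_le (by positivity)
      nlinarith
  have hB : ‖∫ u, Ψ2 u * geo k b β u‖ ^ 2 ≤ δ / 4 * Real.sqrt k * pn k b := by
    have h1 : ∫ u, Ψ2 u * geo k b β u = θ * ∫ v, Ψ3 v * geo k b β' v := by
      have h2 : (fun u => Ψ2 u * geo k b β u) =
          fun u => (fun v => θ * (Ψ3 v * geo k b β' v)) (-L - u) := by
        funext u
        simp only [Ψ3]
        rw [hflip u, show -(-L - u) - L = u by ring, show -u - 2 * Real.log β.den = -L - u by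
          rw [hL]; ring]
        ring
      rw [h2, integral_sub_left_eq_self (fun v => θ * (Ψ3 v * geo k b β' v)) volume (-L),
        integral_const_mul]
    rw [h1, norm_mul, hθ, one_mul]
    exact hT k hk hev β' Ψ3 hm3 hb3 hz3 b H
  rw [hsplit]
  have h4 : ‖(∫ u, Ψ1 u * geo k b β u) + ∫ u, Ψ2 u * geo k b β u‖ ^ 2 ≤
      2 * ‖∫ u, Ψ1 u * geo k b β u‖ ^ 2 + 2 * ‖∫ u, Ψ2 u * geo k b β u‖ ^ 2 := by
    have h5 := norm_add_le (∫ u, Ψ1 u * geo k b β u) (∫ u, Ψ2 u * geo k b β u)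
    have h6 := pow_le_pow_left₀ (norm_nonneg _) h5 2
    nlinarith [sq_nonneg (‖∫ u, Ψ1 u * geo k b β u‖ - ‖∫ u, Ψ2 u * geo k b β u‖)]
  calc _ ≤ _ := h4
    _ ≤ 2 * (δ / 4 * Real.sqrt k * pn k b) + 2 * (δ / 4 * Real.sqrt k * pn k b) := by
        linarith
    _ = δ * Real.sqrt k * pn k b := by ring

end Pool.Agent.WA
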