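import Pool.Agent.Lib_helper98.WAF.A10
import Pool.Agent.Lib_helper98.WAF.A7
import Pool.Agent.Lib_helper98.WAF.B7

/-! Block B8 (RB): functionals supported on rational geodesics. -/

namespace Pool.Agent.WA

open Complex MeasureTheory Filter Topology UpperHalfPlane
open scoped MatrixGroups ENNReal
open Pool.Agent.GL2 (qs HData am dens hatw Ep Mol xt FD IsCompletedL oddZ)

theorem B8_dom (A : ℝ) : Integrable (fun u : ℝ => A / (1 + u ^ 2)) := by
  have := (integrable_inv_one_add_sq).const_mul A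
  refine this.congr (Eventually.of_forall fun u => ?_)
  simp [div_eq_mul_inv]

theorem B8_int {k : ℕ} {b : ℕ → ℂ} (H : CForm k b) (β : ℝ) {Ψ : ℝ → ℂ} (hm : Measurable Ψ)
    {A : ℝ} (hA : ∀ u, ‖Ψ u‖ ≤ A / (1 + u ^ 2)) : Integrable (fun u => Ψ u * geo k b β u) := by
  obtain ⟨C, hC⟩ := geo_bdd H
  have h1 : Integrable Ψ := (B8_dom A).mono' hm.aestronglyMeasurable (Eventually.of_forall hA)
  exact h1.mul_bdd (c := C) (geo_cont H β).aestronglyMeasurable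
    (Eventually.of_forall fun u => hC β u)

theorem B8_sq_int {Ψ : ℝ → ℂ} (hm : Measurable Ψ) {A : ℝ} (hA0 : 0 ≤ A)
    (hA : ∀ u, ‖Ψ u‖ ≤ A / (1 + u ^ 2)) : Integrable (fun u => ‖Ψ u‖ ^ 2) := by
  refine (B8_dom (A ^ 2)).mono' (hm.norm.pow_const 2).aestronglyMeasurable
    (Eventually.of_forall fun u => ?_)
  rw [Real.norm_of_nonneg (by positivity)]
  have h1 : (0 : ℝ) < 1 + u ^ 2 := by positivity
  have h2 : ‖Ψ u‖ ^ 2 ≤ (A / (1 + u ^ 2)) ^ 2 := pow_le_pow_left₀ (norm_nonneg _) (hA u) 2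
  refine h2.trans ?_
  rw [div_pow]
  refine div_le_div_of_nonneg_left (by positivity) h1 ?_
  nlinarith [sq_nonneg u]

theorem ratl_bound {J : Type} [Fintype J] (β : J → ℚ)
    (hβ : ∀ i j, i ≠ j → ∀ n : ℤ, β i - β j ≠ n) {A δ : ℝ} (hA : 0 < A) (hδ : 0 < δ) :
    ∃ k₀ : ℕ, ∀ k : ℕ, k₀ ≤ k → Even k → ∀ Ψ : J → ℝ → ℂ, (∀ j, Measurable (Ψ j)) →
      (∀ j u, ‖Ψ j u‖ ≤ A / (1 + u ^ 2)) → ∀ b, CForm k b →
        ‖Lf k (fun j => (β j : ℝ)) Ψ b‖ ^ 2 ≤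
          Real.sqrt k * (4 * ∑ j, (∫ u, ‖Ψ j u‖ ^ 2) + δ) * pn k b := by
  classical
  set N : ℝ := (Fintype.card J : ℝ) with hN
  have hN0 : 0 ≤ N := Nat.cast_nonneg _
  set δ' : ℝ := δ / (2 * (1 + N ^ 2 * A ^ 2)) with hδ'
  have hδ'0 : 0 < δ' := by positivity
  choose V₁ k₁ hk₁ using fun j : J => tail_all (β j) hδ'0
  set V : ℝ := ∑ j, |V₁ j| with hV
  have hVj : ∀ j, V₁ j ≤ V := fun j => (le_abs_self _).trans
    (Finset.single_le_sum (f := fun j => |V₁ j|) (fun j _ => abs_nonneg _) (Finset.mem_univ j))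
  obtain ⟨k₂, hk₂⟩ := ks_lim β hβ A V δ' hδ'0
  refine ⟨16 + k₂ + ∑ j, k₁ j, fun k hk he Ψ hm hΨ b H => ?_⟩
  have hk16 : 16 ≤ k := by omega
  have hkk1 : ∀ j, k₁ j ≤ k := fun j => by
    have := Finset.single_le_sum (f := k₁) (fun _ _ => Nat.zero_le _) (Finset.mem_univ j)
    omega
  have hk0 : (0 : ℝ) < k := by
    have : 0 < k := by omega
    exact_mod_cast this
  have hpn := pn_nonneg k b
  have hsk : 0 < Real.sqrt k := Real.sqrt_pos.2 hk0
  have hss : Real.sqrt k * Real.sqrt k = k := Real.mul_self_sqrt hk0.le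
  set Ψ₁ : J → ℝ → ℂ := fun j u => if u ∈ Set.Icc (-V) V then Ψ j u else 0 with hΨ₁
  set Ψ₂ : J → ℝ → ℂ := fun j u => if u ∈ Set.Icc (-V) V then 0 else Ψ j u with hΨ₂
  have hm₁ : ∀ j, Measurable (Ψ₁ j) := fun j =>
    Measurable.ite measurableSet_Icc (hm j) measurable_const
  have hm₂ : ∀ j, Measurable (Ψ₂ j) := fun j =>
    Measurable.ite measurableSet_Icc measurable_const (hm j)
  have hpos : ∀ u : ℝ, 0 ≤ A / (1 + u ^ 2) := fun u => by positivity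
  have hb₁ : ∀ j u, ‖Ψ₁ j u‖ ≤ A / (1 + u ^ 2) := by
    intro j u
    simp only [hΨ₁]
    split_ifs
    · exact hΨ j u
    · rw [norm_zero]; exact hpos u
  have hb₂ : ∀ j u, ‖Ψ₂ j u‖ ≤ A / (1 + u ^ 2) := by
    intro j u
    simp only [hΨ₂]
    split_ifs
    · rw [norm_zero]; exact hpos u
    · exact hΨ j u
  have hsum : ∀ j u, Ψ j u = Ψ₁ j u + Ψ₂ j u := by
    intro j u
    simp only [hΨ₁, hΨ₂]
    split_ifs <;> simp
  set β' : J → ℝ := fun j => (β j : ℝ) with hβ'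
  have hLf : Lf k β' Ψ b = Lf k β' Ψ₁ b + Lf k β' Ψ₂ b := by
    unfold Lf
    rw [← Finset.sum_add_distrib]
    refine Finset.sum_congr rfl fun j _ => ?_
    rw [← integral_add (B8_int H _ (hm₁ j) (hb₁ j)) (B8_int H _ (hm₂ j) (hb₂ j))]
    refine integral_congr_ae (Eventually.of_forall fun u => ?_)
    simp only
    rw [hsum j u]
    ring
  -- the compact part
  have hPB : PsiB Ψ₁ A V := by
    refine ⟨hm₁, fun j u => (hb₁ j u).trans ?_, fun j u hu => ?_⟩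
    · rw [div_le_iff₀ (by positivity)]
      nlinarith [sq_nonneg u, mul_nonneg hA.le (sq_nonneg u)]
    · simp only [hΨ₁]
      rw [if_neg hu]
  set S : ℝ := ∑ j, ∫ u, ‖Ψ j u‖ ^ 2 with hS
  set S₁ : ℝ := ∑ j, ∫ u, ‖Ψ₁ j u‖ ^ 2 with hS₁
  have hS₁0 : 0 ≤ S₁ := Finset.sum_nonneg fun j _ => integral_nonneg fun u => by positivity
  have hS₁S : S₁ ≤ S := by
    refine Finset.sum_le_sum fun j _ => ?_
    refine integral_mono (B8_sq_int (hm₁ j) hA.le (hb₁ j)) (B8_sq_int (hm j) hA.le (hΨ j))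
      fun u => ?_
    simp only [hΨ₁]
    split_ifs
    · exact le_refl _
    · simp
  have h1 : ‖Lf k β' Ψ₁ b‖ ^ 2 ≤ Real.sqrt k * (8 / 5 * S + δ') * pn k b := by
    have h2 := point_bound hk16 β' hPB H
    have h3 := hk₂ k (by omega) Ψ₁ hPB
    have h4 : ENNReal.ofReal (‖Lf k β' Ψ₁ b‖ ^ 2) ≤
        ENNReal.ofReal (((k : ℝ) - 1) / (8 * Real.pi) * pn k b *
          ((40 * S₁ + δ') / Real.sqrt k)) := by
      have hk1 : (1 : ℝ) ≤ k := by
        have : 1 ≤ k := by omega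
        exact_mod_cast this
      rw [ENNReal.ofReal_mul (by
        refine mul_nonneg (div_nonneg (by linarith) (by positivity)) hpn)]
      exact h2.trans (mul_le_mul_right h3 _)
    have h5 := (ENNReal.ofReal_le_ofReal_iff (by
      have hk1 : (1 : ℝ) ≤ k := by
        have : 1 ≤ k := by omega
        exact_mod_cast this
      have h6 : 0 ≤ (k : ℝ) - 1 := by linarith
      positivity)).1 h4
    refine h5.trans ?_
    have hpi : (3.14 : ℝ) < Real.pi := Real.pi_gt_d2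
    have h7 : ((k : ℝ) - 1) / (8 * Real.pi) * pn k b * ((40 * S₁ + δ') / Real.sqrt k) =
        (((k : ℝ) - 1) / Real.sqrt k) * ((40 * S₁ + δ') / (8 * Real.pi)) * pn k b := by
      field_simp
    rw [h7]
    have h8 : ((k : ℝ) - 1) / Real.sqrt k ≤ Real.sqrt k := by
      rw [div_le_iff₀ hsk, hss]
      linarith
    have h9 : (40 * S₁ + δ') / (8 * Real.pi) ≤ 8 / 5 * S + δ' := by
      rw [div_le_iff₀ (by positivity)]
      have e1 : (8 / 5 * S + δ') * (8 * Real.pi) = 64 / 5 * Real.pi * S + 8 * Real.pi * δ' := by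
        ring
      rw [e1]
      have e2 : 40 * S ≤ 64 / 5 * Real.pi * S := by
        have : 40 ≤ 64 / 5 * Real.pi := by linarith
        exact mul_le_mul_of_nonneg_right this (hS₁0.trans hS₁S)
      have e3 : δ' ≤ 8 * Real.pi * δ' := by nlinarith
      linarith
    have h10 : 0 ≤ (40 * S₁ + δ') / (8 * Real.pi) := by positivity
    calc (((k : ℝ) - 1) / Real.sqrt k) * ((40 * S₁ + δ') / (8 * Real.pi)) * pn k b
        ≤ Real.sqrt k * (8 / 5 * S + δ') * pn k b := by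
          refine mul_le_mul_of_nonneg_right ?_ hpn
          exact mul_le_mul h8 h9 h10 hsk.le
      _ = _ := rfl
  -- the tails
  have h2 : ∀ j, ‖∫ u, Ψ₂ j u * geo k b (β' j) u‖ ^ 2 ≤ A ^ 2 * (δ' * Real.sqrt k * pn k b) := by
    intro j
    have h3 := hk₁ j k (hkk1 j) he (fun u => Ψ₂ j u / A) ((hm₂ j).div_const _) (fun u => ?_)
      (fun u hu => ?_) b H
    · have h4 : ∫ u, Ψ₂ j u * geo k b (β' j) u =
          (A : ℂ) * ∫ u, Ψ₂ j u / A * geo k b (β' j) u := by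
        rw [← integral_const_mul]
        refine integral_congr_ae (Eventually.of_forall fun u => ?_)
        have : (A : ℂ) ≠ 0 := by exact_mod_cast hA.ne'
        simp only
        field_simp
      rw [h4, norm_mul, mul_pow, Complex.norm_real, Real.norm_of_nonneg hA.le]
      exact mul_le_mul_of_nonneg_left h3 (by positivity)
    · rw [norm_div, Complex.norm_real, Real.norm_of_nonneg hA.le, div_le_iff₀ hA]
      refine (hb₂ j u).trans (le_of_eq ?_)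
      ring
    · simp only [hΨ₂]
      rw [if_pos]
      · simp
      · exact ⟨by linarith [hu.1, hVj j], by linarith [hu.2, hVj j]⟩
  have h3 : ‖Lf k β' Ψ₂ b‖ ^ 2 ≤ N ^ 2 * (A ^ 2 * (δ' * Real.sqrt k * pn k b)) := by
    unfold Lf
    have h4 : ‖∑ j, ∫ u, Ψ₂ j u * geo k b (β' j) u‖ ^ 2 ≤
        (∑ j, ‖∫ u, Ψ₂ j u * geo k b (β' j) u‖) ^ 2 :=
      pow_le_pow_left₀ (norm_nonneg _) (norm_sum_le _ _) 2
    refine h4.trans ?_
    have h5 := sq_sum_le_card_mul_sum_sq (s := (Finset.univ : Finset J))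
      (f := fun j => ‖∫ u, Ψ₂ j u * geo k b (β' j) u‖)
    refine h5.trans ?_
    have h6 : ∑ j, ‖∫ u, Ψ₂ j u * geo k b (β' j) u‖ ^ 2 ≤
        ∑ _j : J, (A ^ 2 * (δ' * Real.sqrt k * pn k b)) := Finset.sum_le_sum fun j _ => h2 j
    rw [Finset.sum_const, nsmul_eq_mul] at h6
    have e7 : ((Finset.univ : Finset J).card : ℝ) = N := by rw [hN]; rfl
    rw [e7] at h6 ⊢
    calc N * ∑ j, ‖∫ u, Ψ₂ j u * geo k b (β' j) u‖ ^ 2
        ≤ N * (N * (A ^ 2 * (δ' * Real.sqrt k * pn k b))) := mul_le_mul_of_nonneg_left h6 hN0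
      _ = _ := by ring
  -- conclusion
  have h4 : ‖Lf k β' Ψ b‖ ^ 2 ≤ 2 * ‖Lf k β' Ψ₁ b‖ ^ 2 + 2 * ‖Lf k β' Ψ₂ b‖ ^ 2 := by
    rw [hLf]
    have h5 : ‖Lf k β' Ψ₁ b + Lf k β' Ψ₂ b‖ ^ 2 ≤ (‖Lf k β' Ψ₁ b‖ + ‖Lf k β' Ψ₂ b‖) ^ 2 :=
      pow_le_pow_left₀ (norm_nonneg _) (norm_add_le _ _) 2
    nlinarith [sq_nonneg (‖Lf k β' Ψ₁ b‖ - ‖Lf k β' Ψ₂ b‖)]
  have hδe : 2 * δ' * (1 + N ^ 2 * A ^ 2) = δ := by
    rw [hδ']
    field_simp
  have hX : 0 ≤ Real.sqrt k * pn k b := mul_nonneg hsk.le hpn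
  have hS0 : 0 ≤ S := hS₁0.trans hS₁S
  calc ‖Lf k β' Ψ b‖ ^ 2 ≤ 2 * (Real.sqrt k * (8 / 5 * S + δ') * pn k b) +
        2 * (N ^ 2 * (A ^ 2 * (δ' * Real.sqrt k * pn k b))) := by linarith
    _ = (16 / 5 * S + 2 * δ' * (1 + N ^ 2 * A ^ 2)) * (Real.sqrt k * pn k b) := by ring
    _ ≤ (4 * S + δ) * (Real.sqrt k * pn k b) := by
        refine mul_le_mul_of_nonneg_right ?_ hX
        rw [hδe]
        linarith
    _ = _ := by ring

end Pool.Agent.WA
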