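import Pool.Agent.Lib_helper98.WAF.B11
import Pool.Agent.Lib_helper98.WAF.B8

/-! Block B12: the mean square of the mollified functional. -/

namespace Pool.Agent.WA

open Complex MeasureTheory Filter Topology UpperHalfPlane
open scoped MatrixGroups ENNReal
open Pool.Agent.GL2 (qs HData am dens hatw Ep Mol xt FD IsCompletedL oddZ)

theorem b12_R_pos {S : Finset ℕ} {ε : ℝ} (A : Apx S ε) : 0 < A.R :=
  Finset.prod_pos (fun p hp => (A.pos p hp).2)

theorem b12_distinct (N : ℕ) (i j : Fin N) (hij : i ≠ j) (n : ℤ) :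
    ((i : ℕ) : ℚ) / (N : ℚ) - ((j : ℕ) : ℚ) / (N : ℚ) ≠ n := by
  intro h
  have hN : 0 < N := Fin.pos i
  have hNq : (0 : ℚ) < N := by exact_mod_cast hN
  have h1 : ((i : ℕ) : ℚ) - ((j : ℕ) : ℚ) = n * N := by
    field_simp at h
    linarith
  have h2 : ((i : ℕ) : ℤ) - ((j : ℕ) : ℤ) = n * N := by exact_mod_cast h1
  have hi : ((i : ℕ) : ℤ) < N := by exact_mod_cast i.2
  have hj : ((j : ℕ) : ℤ) < N := by exact_mod_cast j.2
  have hi0 : (0 : ℤ) ≤ ((i : ℕ) : ℤ) := Int.natCast_nonneg _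
  have hj0 : (0 : ℤ) ≤ ((j : ℕ) : ℤ) := Int.natCast_nonneg _
  have hn : n = 0 := by
    by_contra hn
    rcases lt_or_gt_of_ne hn with h3 | h3
    · have : n ≤ -1 := by omega
      nlinarith
    · have : 1 ≤ n := by omega
      nlinarith
  apply hij
  apply Fin.ext
  rw [hn] at h2
  omega

theorem rhs_weight : ∃ C₁ : ℝ, 0 < C₁ ∧ ∀ {α β : ℝ} (W : WtW α β) {m : ℕ}, 0 < m →
    ∀ {ε : ℝ}, 0 < ε → ∀ (A : Apx m.primeFactors ε) {δ : ℝ}, 0 < δ →
    ∃ k₀ : ℕ, ∀ k : ℕ, k₀ ≤ k → Even k → ∀ b, CForm k b →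
      ‖Yf A W.w m k b / (gk k : ℂ)‖ ^ 2 ≤
        (C₁ * ((m.totient : ℝ) / m) * (1 + ε) ^ 2 * (∫ t, W.w t ^ 2) + δ) / omk k * pn k b := by
  refine ⟨80 * Real.pi, by positivity, ?_⟩
  intro α β W m hm ε hε A δ hδ
  obtain ⟨hcont, C, hC0, hC⟩ := psi_decay hm A W
  obtain ⟨k₀, hk₀⟩ := ratl_bound (J := Fin (A.R * m))
    (fun j => ((j : ℕ) : ℚ) / ((A.R * m : ℕ) : ℚ))
    (fun i j hij n => b12_distinct (A.R * m) i j hij n) hC0 (δ := δ / 10) (by positivity)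
  refine ⟨max k₀ 4, ?_⟩
  intro k hk hev b H
  have hk1 : k₀ ≤ k := (le_max_left _ _).trans hk
  have hk4 : 4 ≤ k := (le_max_right _ _).trans hk
  have h1 := hk₀ k hk1 hev (fun j u => Psi A W.w m j u) (fun j => (hcont j).measurable)
    (fun j u => by simpa using hC j u) b H
  have h2 : Lf k (fun j : Fin (A.R * m) => (((((j : ℕ) : ℚ) / ((A.R * m : ℕ) : ℚ) : ℚ)) : ℝ))
      (fun j u => Psi A W.w m j u) b = Yf A W.w m k b := by
    unfold Lf Yf
    refine Finset.sum_congr rfl (fun j _ => ?_)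
    have h3 : (((((j : ℕ) : ℚ) / ((A.R * m : ℕ) : ℚ) : ℚ)) : ℝ) =
        ((j : ℕ) : ℝ) / ((A.R * m : ℕ) : ℝ) := by
      push_cast
      rfl
    simp only [h3]
  rw [h2] at h1
  have h4 := psi_l2 hm A W
  have hgk : 0 < gk k := gk_pos (by omega)
  have homk : 0 < omk k := omk_pos (by omega)
  have hr := (gam_ratio hk4 hev).1
  have hpn : 0 ≤ pn k b := pn_nonneg k b
  have hsk : 0 < Real.sqrt k := Real.sqrt_pos.mpr (by exact_mod_cast (by omega : 0 < k))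
  rw [norm_div, div_pow, Complex.norm_real, Real.norm_eq_abs, abs_of_pos hgk]
  rw [le_div_iff₀ homk] at hr
  have hg2 : 0 < gk k ^ 2 := by positivity
  rw [div_le_iff₀ hg2]
  set X : ℝ := ((m.totient : ℝ) / m) * (1 + ε) ^ 2 * ∫ t, W.w t ^ 2 with hX
  have hX0 : 0 ≤ X := by
    have : 0 ≤ ∫ t, W.w t ^ 2 := integral_nonneg (fun t => sq_nonneg _)
    positivity
  have h5 : Real.sqrt k * (4 * ∑ j : Fin (A.R * m), (∫ u, ‖Psi A W.w m j u‖ ^ 2) + δ / 10) * pn k b ≤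
      Real.sqrt k * (8 * Real.pi * X + δ / 10) * pn k b := by
    have h6 : 4 * ∑ j : Fin (A.R * m), (∫ u, ‖Psi A W.w m j u‖ ^ 2) ≤ 8 * Real.pi * X := by
      have : ∑ j : Fin (A.R * m), (∫ u, ‖Psi A W.w m j u‖ ^ 2) ≤ 2 * Real.pi * X := by
        refine h4.trans (le_of_eq ?_)
        rw [hX]
        ring
      linarith
    gcongr
  refine (h1.trans h5).trans ?_
  have h7 : Real.sqrt k / omk k ≤ 10 * (gk k ^ 2 / (omk k ^ 2)) := by
    rw [div_le_iff₀ homk]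
    have : 10 * (gk k ^ 2 / omk k ^ 2) * omk k = 10 * gk k ^ 2 / omk k := by
      field_simp
    rw [this, le_div_iff₀ homk]
    linarith
  calc Real.sqrt k * (8 * Real.pi * X + δ / 10) * pn k b
      = (8 * Real.pi * X + δ / 10) * pn k b * Real.sqrt k := by ring
    _ ≤ (8 * Real.pi * X + δ / 10) * pn k b * (10 * gk k ^ 2 / omk k) := by
        apply mul_le_mul_of_nonneg_left _ (by positivity)
        rw [le_div_iff₀ homk]
        linarith
    _ = (80 * Real.pi * ((m.totient : ℝ) / m) * (1 + ε) ^ 2 * (∫ t, W.w t ^ 2) + δ) / omk k *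
          pn k b * gk k ^ 2 := by
        rw [hX]
        ring

end Pool.Agent.WA
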