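import Pool.Agent.Lib_helper98.WA.Defs

/-! Block B13: one prime approximation of the phase. -/

namespace Pool.Agent.WA

open Complex MeasureTheory Filter Topology

theorem B13_Ef_ne {p : ℕ} (hp : p.Prime) {z : ℂ} (hz : ‖z‖ = 1) {l : ℝ} (hl : |l| ≤ 21 / 10) :
    Ef p l z ≠ 0 := by
  intro h
  set s : ℝ := (p : ℝ) ^ (-(1 : ℝ) / 2) with hs
  have hp0 : (0 : ℝ) < p := by exact_mod_cast hp.pos
  have hp2 : (2 : ℝ) ≤ p := by exact_mod_cast hp.two_le
  have hs0 : 0 < s := Real.rpow_pos_of_pos hp0 _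
  have hs2 : s ^ 2 = 1 / p := by
    rw [hs, ← Real.rpow_natCast, ← Real.rpow_mul hp0.le]
    norm_num
    rw [Real.rpow_neg_one]
  have hs2' : s ^ 2 ≤ 1 / 2 := by
    rw [hs2]
    exact one_div_le_one_div_of_le (by norm_num) hp2
  have hxy : z.re ^ 2 + z.im ^ 2 = 1 := by
    have h1 := Complex.sq_norm z
    rw [hz, Complex.normSq_apply] at h1
    nlinarith [h1]
  have hE : Ef p l z = 1 - ((l * s : ℝ) : ℂ) * z + ((s ^ 2 : ℝ) : ℂ) * z ^ 2 := by
    rw [Ef, ← hs, hs2]
    push_cast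
    ring
  rw [hE] at h
  have hre := congrArg Complex.re h
  have him := congrArg Complex.im h
  simp only [Complex.add_re, Complex.sub_re, Complex.one_re,
    Complex.add_im, Complex.sub_im, Complex.one_im, Complex.zero_re,
    Complex.zero_im, pow_two z, Complex.mul_re, Complex.mul_im, Complex.ofReal_re,
    Complex.ofReal_im] at hre him
  set x := z.re
  set y := z.im
  by_cases hy : y = 0
  · rw [hy] at hre hxy
    have hx : x ^ 2 = 1 := by nlinarith
    have h1 : 1 + s ^ 2 = l * s * x := by nlinarith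
    have h2 : (l * s * x) ^ 2 ≤ (21 / 10) ^ 2 * s ^ 2 := by
      have : l ^ 2 ≤ (21 / 10) ^ 2 := by
        rw [← sq_abs l]
        exact pow_le_pow_left₀ (abs_nonneg l) hl 2
      calc (l * s * x) ^ 2 = l ^ 2 * s ^ 2 * x ^ 2 := by ring
        _ = l ^ 2 * s ^ 2 := by rw [hx]; ring
        _ ≤ (21 / 10) ^ 2 * s ^ 2 := by nlinarith [sq_nonneg s]
    rw [← h1] at h2
    nlinarith [sq_nonneg s]
  · have h1 : l * s = 2 * x * s ^ 2 := by
      have : y * (2 * x * s ^ 2 - l * s) = 0 := by nlinarith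
      rcases mul_eq_zero.1 this with h | h
      · exact absurd h hy
      · linarith
    rw [h1] at hre
    have : 1 - s ^ 2 * (x ^ 2 + y ^ 2) = 0 := by nlinarith
    rw [hxy] at this
    nlinarith

theorem B13_Ef_cont (p : ℕ) : Continuous (fun q : ℂ × ℝ => Ef p q.2 q.1) := by
  unfold Ef
  fun_prop

theorem B13_Uc_cont (j : ℕ) : Continuous (Uc j) := by
  induction j using Nat.twoStepInduction with
  | zero => exact continuous_const
  | one => exact continuous_id
  | more n h1 h2 =>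
    show Continuous fun l => l * Uc (n + 1) l - Uc n l
    exact (continuous_id.mul h2).sub h1

/-- the compact space -/
abbrev B13_X : Type := Circle × Set.Icc (-(21 / 10) : ℝ) (21 / 10)

theorem B13_cc : Continuous (fun x : Circle => (x : ℂ)) := continuous_subtype_val

/-- the basis functions -/
noncomputable def B13_bas (q : ℤ × ℕ) : C(B13_X, ℂ) where
  toFun x := ((x.1 ^ q.1 : Circle) : ℂ) * ((Uc q.2 (x.2 : ℝ) : ℝ) : ℂ)
  continuous_toFun := by
    refine Continuous.mul ?_ ?_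
    · exact B13_cc.comp ((continuous_zpow q.1).comp continuous_fst)
    · exact Complex.continuous_ofReal.comp
        ((B13_Uc_cont q.2).comp (continuous_subtype_val.comp continuous_snd))

theorem B13_bas_apply (q : ℤ × ℕ) (x : B13_X) :
    B13_bas q x = (x.1 : ℂ) ^ q.1 * ((Uc q.2 (x.2 : ℝ) : ℝ) : ℂ) := by
  show ((x.1 ^ q.1 : Circle) : ℂ) * ((Uc q.2 (x.2 : ℝ) : ℝ) : ℂ) = _
  rw [Circle.coe_zpow]

noncomputable def B13_z : C(B13_X, ℂ) where
  toFun x := (x.1 : ℂ)
  continuous_toFun := continuous_subtype_val.comp continuous_fst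

noncomputable def B13_l : C(B13_X, ℂ) where
  toFun x := ((x.2 : ℝ) : ℂ)
  continuous_toFun := Complex.continuous_ofReal.comp (continuous_subtype_val.comp continuous_snd)

noncomputable def B13_V : Submodule ℂ C(B13_X, ℂ) := Submodule.span ℂ (Set.range B13_bas)

theorem B13_z_bas (q : ℤ × ℕ) : B13_z * B13_bas q = B13_bas (q.1 + 1, q.2) := by
  ext x
  have h0 : (x.1 : ℂ) ≠ 0 := Circle.coe_ne_zero x.1
  rw [ContinuousMap.mul_apply, B13_bas_apply, B13_bas_apply, zpow_add₀ h0, zpow_one]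
  show (x.1 : ℂ) * _ = _
  ring

theorem B13_sz_bas (q : ℤ × ℕ) : star B13_z * B13_bas q = B13_bas (q.1 - 1, q.2) := by
  ext x
  have h0 : (x.1 : ℂ) ≠ 0 := Circle.coe_ne_zero x.1
  rw [ContinuousMap.mul_apply, B13_bas_apply, B13_bas_apply, zpow_sub₀ h0, zpow_one]
  show starRingEnd ℂ (x.1 : ℂ) * _ = _
  have : starRingEnd ℂ (x.1 : ℂ) = (x.1 : ℂ)⁻¹ := by
    rw [← Circle.coe_inv_eq_conj, Circle.coe_inv]
  rw [this]
  field_simp

theorem B13_l_bas0 (m : ℤ) : B13_l * B13_bas (m, 0) = B13_bas (m, 1) := by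
  ext x
  rw [ContinuousMap.mul_apply, B13_bas_apply, B13_bas_apply]
  show ((x.2 : ℝ) : ℂ) * _ = _
  simp only [Uc]
  push_cast
  ring

theorem B13_l_bas1 (m : ℤ) (j : ℕ) :
    B13_l * B13_bas (m, j + 1) = B13_bas (m, j + 2) + B13_bas (m, j) := by
  ext x
  rw [ContinuousMap.add_apply, ContinuousMap.mul_apply, B13_bas_apply, B13_bas_apply, B13_bas_apply]
  show ((x.2 : ℝ) : ℂ) * _ = _
  simp only [Uc]
  push_cast
  ring

theorem B13_mem_bas (q : ℤ × ℕ) : B13_bas q ∈ B13_V := Submodule.subset_span ⟨q, rfl⟩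

theorem B13_stable {f : C(B13_X, ℂ)} (hf : ∀ q, f * B13_bas q ∈ B13_V) :
    ∀ v ∈ B13_V, f * v ∈ B13_V := by
  intro v hv
  induction hv using Submodule.span_induction with
  | mem x hx =>
    obtain ⟨q, rfl⟩ := hx
    exact hf q
  | zero => rw [mul_zero]; exact B13_V.zero_mem
  | add x y _ _ hx hy => rw [mul_add]; exact B13_V.add_mem hx hy
  | smul a x _ hx => rw [mul_smul_comm]; exact B13_V.smul_mem a hx

/-- the stabiliser of `V` -/
noncomputable def B13_St : Subalgebra ℂ C(B13_X, ℂ) where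
  carrier := {f | ∀ v ∈ B13_V, f * v ∈ B13_V}
  mul_mem' := fun {a b} ha hb v hv => by
    rw [mul_assoc]
    exact ha _ (hb v hv)
  add_mem' := fun {a b} ha hb v hv => by
    rw [add_mul]
    exact B13_V.add_mem (ha v hv) (hb v hv)
  algebraMap_mem' := fun r v hv => by
    rw [← Algebra.smul_def]
    exact B13_V.smul_mem r hv

noncomputable def B13_A : StarSubalgebra ℂ C(B13_X, ℂ) :=
  StarAlgebra.adjoin ℂ ({B13_z, B13_l} : Set C(B13_X, ℂ))

theorem B13_A_le {f : C(B13_X, ℂ)} (hf : f ∈ B13_A) : f ∈ B13_V := by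
  have h1 : B13_A.toSubalgebra ≤ B13_St := by
    rw [B13_A, StarAlgebra.adjoin_toSubalgebra]
    refine Algebra.adjoin_le ?_
    have hz : B13_z ∈ B13_St :=
      B13_stable (fun q => by rw [B13_z_bas]; exact B13_mem_bas _)
    have hsz : star B13_z ∈ B13_St :=
      B13_stable (fun q => by rw [B13_sz_bas]; exact B13_mem_bas _)
    have hl : B13_l ∈ B13_St := by
      refine B13_stable (fun q => ?_)
      obtain ⟨m, j⟩ := q
      cases j with
      | zero => rw [B13_l_bas0]; exact B13_mem_bas _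
      | succ j => rw [B13_l_bas1]; exact B13_V.add_mem (B13_mem_bas _) (B13_mem_bas _)
    have hsl : star B13_l = B13_l := by
      ext x
      show starRingEnd ℂ ((x.2 : ℝ) : ℂ) = _
      rw [Complex.conj_ofReal]
      rfl
    rintro g (hg | hg)
    · rcases hg with rfl | hg
      · exact hz
      · rw [Set.mem_singleton_iff] at hg
        rw [hg]
        exact hl
    · rw [Set.mem_star] at hg
      rcases hg with hg | hg
      · have : g = star B13_z := by rw [← hg, star_star]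
        rw [this]
        exact hsz
      · rw [Set.mem_singleton_iff] at hg
        have : g = B13_l := by rw [← star_star g, hg, hsl]
        rw [this]
        exact hl
  have h2 : f ∈ B13_St := h1 hf
  have h3 : (1 : C(B13_X, ℂ)) = B13_bas (0, 0) := by
    ext x
    rw [B13_bas_apply]
    simp [Uc]
  have h4 := h2 1 (by rw [h3]; exact B13_mem_bas _)
  rwa [mul_one] at h4

theorem B13_A_dense : B13_A.topologicalClosure = ⊤ := by
  apply ContinuousMap.starSubalgebra_topologicalClosure_eq_top_of_separatesPoints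
  intro x y hxy
  by_cases h : x.1 = y.1
  · have h2 : x.2 ≠ y.2 := fun h2 => hxy (Prod.ext h h2)
    refine ⟨fun x => B13_l x, ⟨B13_l, ?_, rfl⟩, ?_⟩
    · exact StarAlgebra.subset_adjoin ℂ _ (by simp)
    · show ((x.2 : ℝ) : ℂ) ≠ ((y.2 : ℝ) : ℂ)
      intro h3
      exact h2 (Subtype.ext (Complex.ofReal_injective h3))
  · refine ⟨fun x => B13_z x, ⟨B13_z, ?_, rfl⟩, ?_⟩
    · exact StarAlgebra.subset_adjoin ℂ _ (by simp)
    · show (x.1 : ℂ) ≠ (y.1 : ℂ)
      intro h3
      exact h (Circle.coe_injective h3)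

noncomputable def B13_ph {p : ℕ} (hp : p.Prime) : C(B13_X, ℂ) where
  toFun x := phase p (x.2 : ℝ) (x.1 : ℂ)
  continuous_toFun := by
    have h1 : Continuous fun x : B13_X => Ef p (x.2 : ℝ) (x.1 : ℂ) :=
      (B13_Ef_cont p).comp ((continuous_subtype_val.comp continuous_fst).prodMk
        (continuous_subtype_val.comp continuous_snd))
    unfold phase
    refine Continuous.div (Complex.continuous_conj.comp h1)
      (Complex.continuous_ofReal.comp h1.norm) ?_
    intro x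
    have h2 := B13_Ef_ne hp (Circle.norm_coe x.1) (l := (x.2 : ℝ)) (abs_le.2 ⟨x.2.2.1, x.2.2.2⟩)
    exact Complex.ofReal_ne_zero.2 (norm_ne_zero_iff.2 h2)

theorem B13_rep {f : C(B13_X, ℂ)} (hf : f ∈ B13_V) : ∃ (M : ℕ) (c : ℤ → ℕ → ℂ),
    ∀ x : B13_X, f x = ∑ m ∈ Finset.Icc (-(M : ℤ)) M, ∑ j ∈ Finset.range (M + 1),
      c m j * (x.1 : ℂ) ^ m * ((Uc j (x.2 : ℝ) : ℝ) : ℂ) := by
  obtain ⟨c, hc⟩ := (Finsupp.mem_span_range_iff_exists_finsupp).1 hf
  set M : ℕ := c.support.sup (fun q => max q.1.natAbs q.2) with hM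
  refine ⟨M, fun m j => c (m, j), fun x => ?_⟩
  rw [← hc, Finsupp.sum, ContinuousMap.coe_sum, Finset.sum_apply]
  rw [← Finset.sum_product (s := Finset.Icc (-(M : ℤ)) M) (t := Finset.range (M + 1))
    (f := fun q => c (q.1, q.2) * (x.1 : ℂ) ^ q.1 * ((Uc q.2 (x.2 : ℝ) : ℝ) : ℂ))]
  have hsub : c.support ⊆ Finset.Icc (-(M : ℤ)) M ×ˢ Finset.range (M + 1) := by
    intro q hq
    have h1 : max q.1.natAbs q.2 ≤ M := Finset.le_sup (f := fun q : ℤ × ℕ => max q.1.natAbs q.2) hq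
    rw [Finset.mem_product, Finset.mem_Icc, Finset.mem_range]
    have h2 := le_trans (le_max_left _ _) h1
    have h3 := le_trans (le_max_right _ _) h1
    refine ⟨⟨by omega, by omega⟩, by omega⟩
  rw [← Finset.sum_subset hsub]
  · refine Finset.sum_congr rfl fun q _ => ?_
    rw [ContinuousMap.smul_apply, B13_bas_apply, smul_eq_mul]
    ring
  · intro q _ hq
    rw [Finsupp.notMem_support_iff] at hq
    show c (q.1, q.2) * _ * _ = 0
    rw [show ((q.1, q.2) : ℤ × ℕ) = q from rfl, hq]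
    ring

theorem B13_sin (j : ℕ) (θ : ℝ) : Uc j (2 * Real.cos θ) * Real.sin θ = Real.sin ((j + 1) * θ) := by
  induction j using Nat.twoStepInduction with
  | zero => simp [Uc]
  | one =>
    simp only [Uc]
    push_cast
    rw [show ((1 : ℝ) + 1) * θ = 2 * θ by ring, Real.sin_two_mul]
    ring
  | more n h1 h2 =>
    simp only [Uc]
    rw [sub_mul, mul_assoc, h2, h1]
    push_cast
    have e1 : Real.sin ((n + 2 + 1 : ℝ) * θ) + Real.sin ((n + 1 : ℝ) * θ) =
        2 * Real.cos θ * Real.sin ((n + 1 + 1 : ℝ) * θ) := by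
      have e2 : (n + 2 + 1 : ℝ) * θ = (n + 1 + 1 : ℝ) * θ + θ := by ring
      have e3 : (n + 1 : ℝ) * θ = (n + 1 + 1 : ℝ) * θ - θ := by ring
      rw [e2, e3, Real.sin_add, Real.sin_sub]
      ring
    linarith

theorem B13_cosint (n : ℤ) (hn : n ≠ 0) : ∫ θ in (0 : ℝ)..Real.pi, Real.cos (n * θ) = 0 := by
  have hn' : (n : ℝ) ≠ 0 := by exact_mod_cast hn
  rw [intervalIntegral.integral_comp_mul_left (fun x => Real.cos x) hn', integral_cos]
  rw [Real.sin_int_mul_pi, mul_zero, Real.sin_zero]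
  simp

theorem B13_orth (i j : ℕ) : ∫ θ in (0 : ℝ)..Real.pi,
    Real.sin ((i + 1) * θ) * Real.sin ((j + 1) * θ) = if i = j then Real.pi / 2 else 0 := by
  have h1 : ∀ θ : ℝ, Real.sin ((i + 1) * θ) * Real.sin ((j + 1) * θ) =
      1 / 2 * Real.cos ((((i : ℤ) - j : ℤ) : ℝ) * θ) -
        1 / 2 * Real.cos ((((i : ℤ) + j + 2 : ℤ) : ℝ) * θ) := by
    intro θ
    have e2 : (((i : ℤ) - j : ℤ) : ℝ) * θ = (i + 1) * θ - (j + 1) * θ := by push_cast; ring
    have e3 : (((i : ℤ) + j + 2 : ℤ) : ℝ) * θ = (i + 1) * θ + (j + 1) * θ := by push_cast; ring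
    rw [e2, e3, Real.cos_sub, Real.cos_add]
    ring
  simp only [h1]
  have hi : ∀ n : ℤ, IntervalIntegrable (fun θ : ℝ => 1 / 2 * Real.cos ((n : ℝ) * θ)) volume 0 Real.pi :=
    fun n => (by fun_prop : Continuous fun θ : ℝ => 1 / 2 * Real.cos ((n : ℝ) * θ)).intervalIntegrable _ _
  rw [intervalIntegral.integral_sub (hi _) (hi _), intervalIntegral.integral_const_mul,
    intervalIntegral.integral_const_mul, B13_cosint ((i : ℤ) + j + 2) (by omega)]
  by_cases hij : i = j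
  · subst hij
    simp
    ring
  · rw [B13_cosint ((i : ℤ) - j) (by omega), if_neg hij]
    ring

theorem B13_bessel (N : ℕ) (C : ℕ → ℂ) {B : ℝ} (hB : 0 ≤ B)
    (h : ∀ l : ℝ, |l| ≤ 2 → ‖∑ j ∈ Finset.range N, C j * (Uc j l : ℂ)‖ ≤ B) :
    ∑ j ∈ Finset.range N, ‖C j‖ ^ 2 ≤ B ^ 2 := by
  set g : ℝ → ℂ := fun θ => ∑ j ∈ Finset.range N, C j * (Real.sin ((j + 1) * θ) : ℂ) with hg
  have hgb : ∀ θ, ‖g θ‖ ^ 2 ≤ B ^ 2 * Real.sin θ ^ 2 := by
    intro θ
    have h1 : g θ = (∑ j ∈ Finset.range N, C j * (Uc j (2 * Real.cos θ) : ℂ)) * (Real.sin θ : ℂ) := by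
      rw [hg, Finset.sum_mul]
      refine Finset.sum_congr rfl fun j _ => ?_
      rw [← B13_sin]
      push_cast
      ring
    rw [h1, norm_mul, mul_pow]
    have h2 := h (2 * Real.cos θ) (by
      rw [abs_mul, abs_two]
      nlinarith [Real.abs_cos_le_one θ, abs_nonneg (Real.cos θ)])
    have h3 : ‖(Real.sin θ : ℂ)‖ ^ 2 = Real.sin θ ^ 2 := by
      rw [Complex.norm_real, Real.norm_eq_abs, sq_abs]
    rw [h3]
    exact mul_le_mul_of_nonneg_right (pow_le_pow_left₀ (norm_nonneg _) h2 2) (sq_nonneg _)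
  have hsq : ∫ θ in (0 : ℝ)..Real.pi, Real.sin θ ^ 2 = Real.pi / 2 := by
    have := B13_orth 0 0
    simpa [pow_two] using this
  have hgc : Continuous g := by
    rw [hg]
    fun_prop
  have hle : ∫ θ in (0 : ℝ)..Real.pi, ‖g θ‖ ^ 2 ≤ B ^ 2 * (Real.pi / 2) := by
    rw [← hsq, ← intervalIntegral.integral_const_mul]
    refine intervalIntegral.integral_mono_on Real.pi_pos.le
      ((hgc.norm.pow 2).intervalIntegrable _ _) ?_ (fun θ _ => hgb θ)
    exact (by fun_prop : Continuous fun θ : ℝ => B ^ 2 * Real.sin θ ^ 2).intervalIntegrable _ _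
  have heq : ∫ θ in (0 : ℝ)..Real.pi, ‖g θ‖ ^ 2 =
      (∑ j ∈ Finset.range N, ‖C j‖ ^ 2) * (Real.pi / 2) := by
    have h1 : ∀ θ, ‖g θ‖ ^ 2 = ∑ i ∈ Finset.range N, ∑ j ∈ Finset.range N,
        (C i * starRingEnd ℂ (C j)).re * (Real.sin ((i + 1) * θ) * Real.sin ((j + 1) * θ)) := by
      intro θ
      have h2 : ((‖g θ‖ ^ 2 : ℝ) : ℂ) = g θ * starRingEnd ℂ (g θ) := by
        rw [Complex.mul_conj, Complex.normSq_eq_norm_sq]
      have h3 : ‖g θ‖ ^ 2 = (g θ * starRingEnd ℂ (g θ)).re := by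
        rw [← h2, Complex.ofReal_re]
      rw [h3, hg]
      simp only [map_sum, map_mul, Complex.conj_ofReal]
      rw [Finset.sum_mul_sum, Complex.re_sum]
      refine Finset.sum_congr rfl fun i _ => ?_
      rw [Complex.re_sum]
      refine Finset.sum_congr rfl fun j _ => ?_
      have h4 : C i * (Real.sin ((i + 1) * θ) : ℂ) *
          (starRingEnd ℂ (C j) * (Real.sin ((j + 1) * θ) : ℂ)) =
          ((Real.sin ((i + 1) * θ) * Real.sin ((j + 1) * θ) : ℝ) : ℂ) *
            (C i * starRingEnd ℂ (C j)) := by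
        push_cast
        ring
      rw [h4, Complex.re_ofReal_mul]
      ring
    simp only [h1]
    have hint : ∀ i j : ℕ, IntervalIntegrable (fun θ : ℝ => (C i * starRingEnd ℂ (C j)).re *
        (Real.sin ((i + 1) * θ) * Real.sin ((j + 1) * θ))) volume 0 Real.pi := fun i j =>
      (by fun_prop : Continuous fun θ : ℝ => (C i * starRingEnd ℂ (C j)).re *
        (Real.sin ((i + 1) * θ) * Real.sin ((j + 1) * θ))).intervalIntegrable _ _
    rw [intervalIntegral.integral_finsetSum]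
    · rw [Finset.sum_mul]
      refine Finset.sum_congr rfl fun i hi => ?_
      rw [intervalIntegral.integral_finsetSum (fun j _ => hint i j)]
      rw [Finset.sum_eq_single i]
      · rw [intervalIntegral.integral_const_mul, B13_orth, if_pos rfl, Complex.mul_conj,
          Complex.normSq_eq_norm_sq, Complex.ofReal_re]
      · intro j _ hj
        rw [intervalIntegral.integral_const_mul, B13_orth, if_neg (Ne.symm hj), mul_zero]
      · intro h
        exact absurd hi h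
    · intro i _
      exact (by fun_prop : Continuous fun θ : ℝ => ∑ j ∈ Finset.range N,
        (C i * starRingEnd ℂ (C j)).re *
          (Real.sin ((i + 1) * θ) * Real.sin ((j + 1) * θ))).intervalIntegrable _ _
  rw [heq] at hle
  have hpi : 0 < Real.pi / 2 := by positivity
  exact le_of_mul_le_mul_right hle hpi

theorem B13_phase_norm {p : ℕ} {l : ℝ} {z : ℂ} : ‖phase p l z‖ ≤ 1 := by
  unfold phase
  rw [norm_div, RCLike.norm_conj, Complex.norm_real, norm_norm]
  exact div_self_le_one _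

theorem apx_one {p : ℕ} (hp : p.Prime) {ε : ℝ} (hε : 0 < ε) : ∃ (M : ℕ) (c : ℤ → ℕ → ℂ),
    (∀ z : ℂ, ‖z‖ = 1 → ∀ l : ℝ, |l| ≤ 21 / 10 →
      ‖∑ m ∈ Finset.Icc (-(M : ℤ)) M, ∑ j ∈ Finset.range (M + 1), c m j * z ^ m * (Uc j l : ℂ) -
        phase p l z‖ ≤ ε) ∧
    (∀ z : ℂ, ‖z‖ = 1 → ∑ j ∈ Finset.range (M + 1),
      ‖∑ m ∈ Finset.Icc (-(M : ℤ)) M, c m j * z ^ m‖ ^ 2 ≤ (1 + ε) ^ 2) := by
  have h1 : B13_ph hp ∈ closure (B13_A : Set C(B13_X, ℂ)) := by
    have h2 : B13_ph hp ∈ B13_A.topologicalClosure := by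
      rw [B13_A_dense]
      exact StarSubalgebra.mem_top
    exact h2
  rw [Metric.mem_closure_iff] at h1
  obtain ⟨f, hfA, hf⟩ := h1 ε hε
  obtain ⟨M, c, hc⟩ := B13_rep (B13_A_le hfA)
  have key : ∀ z : ℂ, ‖z‖ = 1 → ∀ l : ℝ, |l| ≤ 21 / 10 →
      ‖∑ m ∈ Finset.Icc (-(M : ℤ)) M, ∑ j ∈ Finset.range (M + 1), c m j * z ^ m * (Uc j l : ℂ) -
        phase p l z‖ ≤ ε := by
    intro z hz l hl
    have hzc : z ∈ Submonoid.unitSphere ℂ := by
      rw [Submonoid.unitSphere]
      simpa using hz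
    set x : B13_X := (⟨z, hzc⟩, ⟨l, (abs_le.1 hl).1, (abs_le.1 hl).2⟩) with hx
    have h2 := hc x
    have h3 : dist (B13_ph hp x) (f x) < ε := (ContinuousMap.dist_apply_le_dist x).trans_lt hf
    rw [dist_comm, dist_eq_norm, h2] at h3
    exact h3.le
  refine ⟨M, c, key, fun z hz => ?_⟩
  refine B13_bessel (M + 1) (fun j => ∑ m ∈ Finset.Icc (-(M : ℤ)) M, c m j * z ^ m)
    (by positivity) (fun l hl => ?_)
  have h2 := key z hz l (hl.trans (by norm_num))
  have h3 : ∑ j ∈ Finset.range (M + 1),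
      (∑ m ∈ Finset.Icc (-(M : ℤ)) M, c m j * z ^ m) * (Uc j l : ℂ) =
      ∑ m ∈ Finset.Icc (-(M : ℤ)) M, ∑ j ∈ Finset.range (M + 1), c m j * z ^ m * (Uc j l : ℂ) := by
    rw [Finset.sum_comm]
    refine Finset.sum_congr rfl fun j _ => ?_
    rw [Finset.sum_mul]
  rw [h3]
  have h4 := norm_sub_norm_le (∑ m ∈ Finset.Icc (-(M : ℤ)) M,
    ∑ j ∈ Finset.range (M + 1), c m j * z ^ m * (Uc j l : ℂ)) (phase p l z)
  have h5 := B13_phase_norm (p := p) (l := l) (z := z)
  linarith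

end Pool.Agent.WA
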