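import Pool.Agent.Lib_helper98.WAF.B13

/-! Block B14: existence of the approximation data. -/

namespace Pool.Agent.WA

open Complex MeasureTheory Filter Topology

/-- push-forward of coefficients -/
noncomputable def B14_c {X Y : Type} [DecidableEq Y] (J : Finset X) (φ : X → Y) (w : X → ℂ)
    (y : Y) : ℂ := ∑ x ∈ J.filter (fun x => φ x = y), w x

theorem B14_sum {X Y : Type} [DecidableEq Y] (J : Finset X) (φ : X → Y) (w : X → ℂ)
    (F : Y → ℂ) :
    ∑ y ∈ J.image φ, B14_c J φ w y * F y = ∑ x ∈ J, w x * F (φ x) := by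
  rw [← Finset.sum_fiberwise_of_maps_to (g := φ) (t := J.image φ)
    (fun x hx => Finset.mem_image_of_mem φ hx) (fun x => w x * F (φ x))]
  refine Finset.sum_congr rfl fun y _ => ?_
  rw [B14_c, Finset.sum_mul]
  refine Finset.sum_congr rfl fun x hx => ?_
  rw [(Finset.mem_filter.1 hx).2]

theorem B14_sum_filter {X Y : Type} [DecidableEq Y] (J : Finset X) (φ : X → Y) (w : X → ℂ)
    (F : Y → ℂ) (P : Y → Prop) [DecidablePred P] [DecidablePred fun x => P (φ x)] :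
    ∑ y ∈ (J.image φ).filter P, B14_c J φ w y * F y =
      ∑ x ∈ J.filter (fun x => P (φ x)), w x * F (φ x) := by
  rw [Finset.sum_filter, Finset.sum_filter]
  have h := B14_sum J φ w (fun y => if P y then F y else 0)
  have h1 : ∀ y, B14_c J φ w y * (if P y then F y else 0) =
      if P y then B14_c J φ w y * F y else 0 := by
    intro y
    split_ifs
    · rfl
    · ring
  simp only [h1] at h
  refine h.trans (Finset.sum_congr rfl fun x _ => ?_)
  by_cases hP : P (φ x)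
  · rw [if_pos hP, if_pos hP]
  · rw [if_neg hP, if_neg hP, mul_zero]

/-- the map of indices -/
def B14_phi (q M : ℕ) (x : (ℕ × ℕ) × (ℤ × ℕ)) : ℕ × ℕ :=
  (x.1.1 * q ^ ((M : ℤ) + x.2.1).toNat, x.1.2 * q ^ x.2.2)

theorem B14_coprime {S : Finset ℕ} {q : ℕ} (hq : q.Prime) (hqS : q ∉ S) {r : ℕ} (hr : 0 < r)
    (hrS : r.primeFactors ⊆ S) : r.Coprime q := by
  rw [Nat.coprime_comm, hq.coprime_iff_not_dvd]
  intro h
  exact hqS (hrS (Nat.mem_primeFactors.2 ⟨hq, h, hr.ne'⟩))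

theorem B14_inj {S : Finset ℕ} {q : ℕ} (hq : q.Prime) (hqS : q ∉ S) {r r' j j' : ℕ} (hr : 0 < r)
    (hrS : r.primeFactors ⊆ S) (hr' : 0 < r') (hrS' : r'.primeFactors ⊆ S)
    (h : r * q ^ j = r' * q ^ j') : r = r' ∧ j = j' := by
  have h1 := B14_coprime hq hqS hr hrS
  have h2 := B14_coprime hq hqS hr' hrS'
  have hj : j = j' := by
    have e1 := congrArg (fun n => n.factorization q) h
    rw [Nat.factorization_mul hr.ne' (pow_pos hq.pos _).ne',
      Nat.factorization_mul hr'.ne' (pow_pos hq.pos _).ne'] at e1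
    have e2 : r.factorization q = 0 := Nat.factorization_eq_zero_of_not_dvd
      ((hq.coprime_iff_not_dvd).1 h1.symm)
    have e3 : r'.factorization q = 0 := Nat.factorization_eq_zero_of_not_dvd
      ((hq.coprime_iff_not_dvd).1 h2.symm)
    simp only [Finsupp.add_apply, e2, e3, hq.factorization_pow, Finsupp.single_eq_same,
      zero_add] at e1
    exact e1
  subst hj
  exact ⟨Nat.eq_of_mul_eq_mul_right (pow_pos hq.pos _) h, rfl⟩

theorem B14_Uc {S : Finset ℕ} {l : ℕ → ℝ} (H : LamSys S l) {q : ℕ} (hq : q ∈ S) (j : ℕ) :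
    l (q ^ j) = Uc j (l q) := by
  induction j using Nat.twoStepInduction with
  | zero => rw [pow_zero, H.one]; rfl
  | one => rw [pow_one]; rfl
  | more n h1 h2 =>
    rw [H.hecke q hq n, h1, h2]
    rfl

theorem B14_restrict {S S' : Finset ℕ} (h : S ⊆ S') {l : ℕ → ℝ} (H : LamSys S' l) : LamSys S l :=
  ⟨H.one, H.mul, fun p hp => H.hecke p (h hp), fun p hp => H.bd p (h hp)⟩

theorem B14_zpow {z : ℂ} (hz : ‖z‖ = 1) {M : ℕ} {m : ℤ} (hm : -(M : ℤ) ≤ m) :
    starRingEnd ℂ z ^ M * z ^ ((M : ℤ) + m).toNat = z ^ m := by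
  have h0 : z ≠ 0 := by
    intro h
    rw [h, norm_zero] at hz
    exact zero_ne_one hz
  have h1 : starRingEnd ℂ z * z = 1 := by
    rw [mul_comm, Complex.mul_conj, Complex.normSq_eq_norm_sq, hz]
    simp
  have h2 : z ^ ((M : ℤ) + m).toNat = z ^ M * z ^ m := by
    rw [← zpow_natCast, Int.toNat_of_nonneg (by omega), zpow_add₀ h0, zpow_natCast]
  rw [h2, ← mul_assoc, ← mul_pow, h1, one_pow, one_mul]

theorem B14_zpow' {z : ℂ} (h0 : z ≠ 0) {M : ℕ} {m : ℤ} (hm : -(M : ℤ) ≤ m) :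
    z ^ ((M : ℤ) + m).toNat = z ^ M * z ^ m := by
  rw [← zpow_natCast, Int.toNat_of_nonneg (by omega), zpow_add₀ h0, zpow_natCast]

theorem B14_phase_prod (S : Finset ℕ) (l : ℕ → ℝ) (x : ℕ → ℂ) :
    ‖∏ p ∈ S, phase p (l p) (x p)‖ ≤ 1 := by
  rw [norm_prod]
  exact Finset.prod_le_one (fun p _ => norm_nonneg _) (fun p _ => B13_phase_norm)

theorem B14_insert {S : Finset ℕ} {q : ℕ} (hq : q.Prime) (hqS : q ∉ S) {ε₁ ε₂ : ℝ} (h1 : 0 ≤ ε₁)
    (h2 : 0 ≤ ε₂) (A : Apx S ε₁) (M : ℕ) (d : ℤ → ℕ → ℂ)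
    (hd1 : ∀ z : ℂ, ‖z‖ = 1 → ∀ l : ℝ, |l| ≤ 21 / 10 →
      ‖∑ m ∈ Finset.Icc (-(M : ℤ)) M, ∑ j ∈ Finset.range (M + 1), d m j * z ^ m * (Uc j l : ℂ) -
        phase q l z‖ ≤ ε₂)
    (hd2 : ∀ z : ℂ, ‖z‖ = 1 → ∑ j ∈ Finset.range (M + 1),
      ‖∑ m ∈ Finset.Icc (-(M : ℤ)) M, d m j * z ^ m‖ ^ 2 ≤ (1 + ε₂) ^ 2) :
    Nonempty (Apx (insert q S) (ε₁ + (1 + ε₁) * ε₂)) := by
  classical
  set J : Finset ((ℕ × ℕ) × (ℤ × ℕ)) :=
    A.ι ×ˢ (Finset.Icc (-(M : ℤ)) M ×ˢ Finset.range (M + 1)) with hJ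
  set w : (ℕ × ℕ) × (ℤ × ℕ) → ℂ := fun x => A.c x.1 * d x.2.1 x.2.2 with hw
  have hmJ : ∀ x ∈ J, x.1 ∈ A.ι ∧ -(M : ℤ) ≤ x.2.1 ∧ x.2.1 ≤ M ∧ x.2.2 < M + 1 := by
    intro x hx
    rw [hJ, Finset.mem_product, Finset.mem_product, Finset.mem_Icc, Finset.mem_range] at hx
    exact ⟨hx.1, hx.2.1.1, hx.2.1.2, hx.2.2⟩
  refine ⟨{
    B := A.B * q ^ M
    Bpos := Nat.mul_pos A.Bpos (pow_pos hq.pos _)
    ι := J.image (B14_phi q M)
    c := B14_c J (B14_phi q M) w
    pos := ?_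
    smooth := ?_
    approx := ?_
    l2 := ?_ }⟩
  · intro y hy
    obtain ⟨x, hx, rfl⟩ := Finset.mem_image.1 hy
    have h3 := A.pos x.1 (hmJ x hx).1
    exact ⟨Nat.mul_pos h3.1 (pow_pos hq.pos _), Nat.mul_pos h3.2 (pow_pos hq.pos _)⟩
  · intro y hy
    obtain ⟨x, hx, rfl⟩ := Finset.mem_image.1 hy
    have h3 := A.pos x.1 (hmJ x hx).1
    have h4 := A.smooth x.1 (hmJ x hx).1
    show (x.1.2 * q ^ x.2.2).primeFactors ⊆ insert q S
    rw [Nat.primeFactors_mul h3.2.ne' (pow_pos hq.pos _).ne']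
    refine Finset.union_subset (h4.trans (Finset.subset_insert _ _)) ?_
    intro p hp
    have hp1 := Nat.prime_of_mem_primeFactors hp
    have hp2 : p = q := (Nat.prime_dvd_prime_iff_eq hp1 hq).1
      (hp1.dvd_of_dvd_pow (Nat.dvd_of_mem_primeFactors hp))
    rw [hp2]
    exact Finset.mem_insert_self _ _
  · intro x hx l hl
    have hlS : LamSys S l := B14_restrict (Finset.subset_insert _ _) hl
    have hxS : ∀ p ∈ S, ‖x p‖ = 1 := fun p hp => hx p (Finset.mem_insert_of_mem hp)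
    have hxq : ‖x q‖ = 1 := hx q (Finset.mem_insert_self _ _)
    have hA := A.approx x hxS l hlS
    have hD := hd1 (x q) hxq (l q) (hl.bd q (Finset.mem_insert_self _ _))
    set V : ℂ := starRingEnd ℂ (x A.B) * ∑ p ∈ A.ι, A.c p * x p.1 * (l p.2 : ℂ) with hV
    set W : ℂ := ∑ m ∈ Finset.Icc (-(M : ℤ)) M, ∑ j ∈ Finset.range (M + 1),
      d m j * x q ^ m * (Uc j (l q) : ℂ) with hW
    have e1 : starRingEnd ℂ (x (A.B * q ^ M)) * ∑ y ∈ J.image (B14_phi q M),
        B14_c J (B14_phi q M) w y * x y.1 * (l y.2 : ℂ) = V * W := by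
      have e2 : ∑ y ∈ J.image (B14_phi q M), B14_c J (B14_phi q M) w y * x y.1 * (l y.2 : ℂ) =
          ∑ y ∈ J.image (B14_phi q M), B14_c J (B14_phi q M) w y * (x y.1 * (l y.2 : ℂ)) :=
        Finset.sum_congr rfl fun y _ => by ring
      rw [e2, B14_sum, hV, hW, ← Finset.sum_product', mul_assoc, Finset.sum_mul_sum,
        ← Finset.sum_product', Finset.mul_sum, Finset.mul_sum]
      refine Finset.sum_congr rfl fun y hy => ?_
      have h5 := hmJ y hy
      have h6 : (l (B14_phi q M y).2 : ℂ) = (l y.1.2 : ℂ) * (Uc y.2.2 (l q) : ℂ) := by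
        show (l (y.1.2 * q ^ y.2.2) : ℂ) = _
        rw [hl.mul, B14_Uc hl (Finset.mem_insert_self _ _)]
        · push_cast
          ring
        · exact Nat.Coprime.pow_right _
            (B14_coprime hq hqS (A.pos _ h5.1).2 (A.smooth _ h5.1))
      have h7 : x (B14_phi q M y).1 = x y.1.1 * x q ^ ((M : ℤ) + y.2.1).toNat := by
        show x (y.1.1 * q ^ ((M : ℤ) + y.2.1).toNat) = _
        rw [map_mul, map_pow]
      rw [h6, h7, map_mul, map_pow, map_mul, map_pow, ← B14_zpow hxq h5.2.1]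
      ring
    rw [e1, Finset.prod_insert hqS]
    have hP := B14_phase_prod S l x
    set Φ : ℂ := ∏ p ∈ S, phase p (l p) (x p) with hΦ
    set φ : ℂ := phase q (l q) (x q) with hφ
    have hφ1 : ‖φ‖ ≤ 1 := B13_phase_norm
    have e3 : V * W - φ * Φ = V * (W - φ) + φ * (V - Φ) := by ring
    have hVn : ‖V‖ ≤ 1 + ε₁ := by
      have := norm_sub_norm_le V Φ
      linarith
    rw [e3]
    calc ‖V * (W - φ) + φ * (V - Φ)‖ ≤ ‖V‖ * ‖W - φ‖ + ‖φ‖ * ‖V - Φ‖ := by
          refine (norm_add_le _ _).trans (le_of_eq ?_)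
          rw [norm_mul V (W - φ), norm_mul φ (V - Φ)]
      _ ≤ (1 + ε₁) * ε₂ + 1 * ε₁ := by
          gcongr
      _ = ε₁ + (1 + ε₁) * ε₂ := by ring
  · intro t
    set z : ℂ := (q : ℂ) ^ (-(t * Complex.I) : ℂ) with hz
    have hq0 : (0 : ℝ) < q := by exact_mod_cast hq.pos
    have hzn : ‖z‖ = 1 := by
      rw [hz, show (q : ℂ) = ((q : ℝ) : ℂ) by push_cast; rfl, Complex.norm_cpow_eq_rpow_re_of_pos hq0]
      simp
    have hz0 : z ≠ 0 := by
      intro h
      rw [h, norm_zero] at hzn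
      exact zero_ne_one hzn
    set RR : Finset (ℕ × ℕ) := (A.ι.image Prod.snd) ×ˢ Finset.range (M + 1) with hRR
    set ψ : ℕ × ℕ → ℕ := fun v => v.1 * q ^ v.2 with hψ
    have hrr : ∀ v ∈ RR, 0 < v.1 ∧ v.1.primeFactors ⊆ S := by
      intro v hv
      rw [hRR, Finset.mem_product, Finset.mem_image] at hv
      obtain ⟨⟨p, hp, hp2⟩, _⟩ := hv
      rw [← hp2]
      exact ⟨(A.pos p hp).2, A.smooth p hp⟩
    have hψinj : Set.InjOn ψ (RR : Set (ℕ × ℕ)) := by
      intro v hv v' hv' h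
      have h3 := hrr v hv
      have h4 := hrr v' hv'
      have h5 := B14_inj hq hqS h3.1 h3.2 h4.1 h4.2 h
      exact Prod.ext h5.1 h5.2
    set T : ℕ → ℂ := fun r => ∑ p ∈ (J.image (B14_phi q M)).filter (fun p => p.2 = r),
      B14_c J (B14_phi q M) w p * (p.1 : ℂ) ^ (-(t * Complex.I) : ℂ) with hT
    have hsub : (J.image (B14_phi q M)).image Prod.snd ⊆ RR.image ψ := by
      intro r hr
      obtain ⟨y, hy, rfl⟩ := Finset.mem_image.1 hr
      obtain ⟨x, hx, rfl⟩ := Finset.mem_image.1 hy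
      refine Finset.mem_image.2 ⟨(x.1.2, x.2.2), ?_, rfl⟩
      rw [hRR, Finset.mem_product, Finset.mem_range]
      exact ⟨Finset.mem_image_of_mem _ (hmJ x hx).1, (hmJ x hx).2.2.2⟩
    have hTr : ∀ v ∈ RR, T (ψ v) = (∑ p ∈ A.ι.filter (fun p => p.2 = v.1),
        A.c p * (p.1 : ℂ) ^ (-(t * Complex.I) : ℂ)) *
          (z ^ M * ∑ m ∈ Finset.Icc (-(M : ℤ)) M, d m v.2 * z ^ m) := by
      intro v hv
      have hv' := hrr v hv
      have hv2 : v.2 ∈ Finset.range (M + 1) := (Finset.mem_product.1 hv).2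
      rw [hT]
      simp only
      rw [B14_sum_filter J (B14_phi q M) w (fun y => (y.1 : ℂ) ^ (-(t * Complex.I) : ℂ))
        (fun y => y.2 = ψ v)]
      have e1 : J.filter (fun x => (B14_phi q M x).2 = ψ v) =
          (A.ι.filter (fun p => p.2 = v.1)) ×ˢ (Finset.Icc (-(M : ℤ)) M ×ˢ {v.2}) := by
        ext x
        constructor
        · intro h
          obtain ⟨hx, hx2⟩ := Finset.mem_filter.1 h
          have h3 := hmJ x hx
          have h5 := B14_inj hq hqS (A.pos _ h3.1).2 (A.smooth _ h3.1) hv'.1 hv'.2 hx2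
          exact Finset.mem_product.2 ⟨Finset.mem_filter.2 ⟨h3.1, h5.1⟩,
            Finset.mem_product.2 ⟨Finset.mem_Icc.2 ⟨h3.2.1, h3.2.2.1⟩,
              Finset.mem_singleton.2 h5.2⟩⟩
        · intro h
          obtain ⟨hx0, hx00⟩ := Finset.mem_product.1 h
          obtain ⟨hx1, hx2⟩ := Finset.mem_filter.1 hx0
          obtain ⟨hx3, hx5⟩ := Finset.mem_product.1 hx00
          have hx4 := Finset.mem_singleton.1 hx5
          refine Finset.mem_filter.2 ⟨?_, ?_⟩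
          · refine Finset.mem_product.2 ⟨hx1, Finset.mem_product.2 ⟨hx3, ?_⟩⟩
            rw [hx4]
            exact hv2
          · show x.1.2 * q ^ x.2.2 = v.1 * q ^ v.2
            rw [hx2, hx4]
      rw [e1, Finset.sum_product, Finset.sum_mul]
      refine Finset.sum_congr rfl fun p hp => ?_
      have hpι : p ∈ A.ι := (Finset.mem_filter.1 hp).1
      rw [Finset.sum_product, Finset.mul_sum, Finset.mul_sum]
      refine Finset.sum_congr rfl fun m hm => ?_
      rw [Finset.sum_singleton]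
      show A.c p * d m v.2 * ((p.1 * q ^ ((M : ℤ) + m).toNat : ℕ) : ℂ) ^ (-(t * Complex.I) : ℂ) = _
      have e4 : ((p.1 * q ^ ((M : ℤ) + m).toNat : ℕ) : ℂ) ^ (-(t * Complex.I) : ℂ) =
          (p.1 : ℂ) ^ (-(t * Complex.I) : ℂ) * z ^ ((M : ℤ) + m).toNat := by
        rw [Nat.cast_mul, Complex.natCast_mul_natCast_cpow, Nat.cast_pow, hz,
          ← Complex.natCast_cpow_natCast_mul, Complex.cpow_nat_mul]
      rw [e4, B14_zpow' hz0 (Finset.mem_Icc.1 hm).1]
      ring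
    calc ∑ r ∈ (J.image (B14_phi q M)).image Prod.snd, ‖T r‖ ^ 2
        ≤ ∑ r ∈ RR.image ψ, ‖T r‖ ^ 2 :=
          Finset.sum_le_sum_of_subset_of_nonneg hsub (fun _ _ _ => by positivity)
      _ = ∑ v ∈ RR, ‖T (ψ v)‖ ^ 2 := Finset.sum_image hψinj
      _ = ∑ v ∈ RR, ‖∑ p ∈ A.ι.filter (fun p => p.2 = v.1),
          A.c p * (p.1 : ℂ) ^ (-(t * Complex.I) : ℂ)‖ ^ 2 *
            ‖∑ m ∈ Finset.Icc (-(M : ℤ)) M, d m v.2 * z ^ m‖ ^ 2 := by
          refine Finset.sum_congr rfl fun v hv => ?_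
          rw [hTr v hv, norm_mul, norm_mul, norm_pow, hzn, one_pow, one_mul, mul_pow]
      _ = (∑ r ∈ A.ι.image Prod.snd, ‖∑ p ∈ A.ι.filter (fun p => p.2 = r),
          A.c p * (p.1 : ℂ) ^ (-(t * Complex.I) : ℂ)‖ ^ 2) *
            ∑ j ∈ Finset.range (M + 1), ‖∑ m ∈ Finset.Icc (-(M : ℤ)) M, d m j * z ^ m‖ ^ 2 := by
          rw [hRR, Finset.sum_product, Finset.sum_mul_sum]
      _ ≤ (1 + ε₁) ^ 2 * (1 + ε₂) ^ 2 := by
          refine mul_le_mul (A.l2 t) (hd2 z hzn) (Finset.sum_nonneg fun _ _ => by positivity)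
            (by positivity)
      _ = (1 + (ε₁ + (1 + ε₁) * ε₂)) ^ 2 := by ring

theorem exists_apx {S : Finset ℕ} (hS : ∀ p ∈ S, p.Prime) {ε : ℝ} (hε : 0 < ε) :
    Nonempty (Apx S ε) := by
  classical
  induction S using Finset.induction_on generalizing ε with
  | empty =>
    refine ⟨{
      B := 1
      Bpos := one_pos
      ι := {(1, 1)}
      c := fun _ => 1
      pos := ?_
      smooth := ?_
      approx := ?_
      l2 := ?_ }⟩
    · intro p hp
      rw [Finset.mem_singleton] at hp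
      subst hp
      exact ⟨one_pos, one_pos⟩
    · intro p hp
      rw [Finset.mem_singleton] at hp
      subst hp
      simp
    · intro x _ l hl
      rw [Finset.sum_singleton, hl.one]
      simp [hε.le]
    · intro t
      simp only [Finset.image_singleton, Finset.sum_singleton]
      have : Finset.filter (fun p : ℕ × ℕ => p.2 = 1) {(1, 1)} = {(1, 1)} := by
        ext p
        simp only [Finset.mem_filter, Finset.mem_singleton]
        constructor
        · exact fun h => h.1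
        · intro h
          exact ⟨h, by rw [h]⟩
      rw [this, Finset.sum_singleton]
      have h2 : ‖(1 : ℂ) * ((1 : ℕ) : ℂ) ^ (-(t * Complex.I) : ℂ)‖ = 1 := by simp
      rw [h2]
      nlinarith
  | insert q S hqS ih =>
    have hq : q.Prime := hS q (Finset.mem_insert_self _ _)
    obtain ⟨A⟩ := ih (fun p hp => hS p (Finset.mem_insert_of_mem hp)) (ε := ε / 2) (by positivity)
    have hε2 : 0 < (ε / 2) / (1 + ε / 2) := by positivity
    obtain ⟨M, d, hd1, hd2⟩ := apx_one hq hε2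
    have h := B14_insert hq hqS (by positivity) hε2.le A M d hd1 hd2
    have e : ε / 2 + (1 + ε / 2) * (ε / 2 / (1 + ε / 2)) = ε := by
      field_simp
      ring
    rwa [e] at h

end Pool.Agent.WA
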