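import Pool.Agent.Lib_helper98.WAF.B3
import Pool.Agent.Lib_helper98.WAF.B4

/-! Block B15: few forms have a large normalised eigenvalue. -/

namespace Pool.Agent.WA

open Complex MeasureTheory Filter Topology UpperHalfPlane
open scoped MatrixGroups ENNReal
open Pool.Agent.GL2 (qs HData am dens hatw Ep Mol xt FD IsCompletedL oddZ)

theorem b15_pow {k p : ℕ} (a : ℕ → ℝ) (r : ℕ) :
    lam k a (p ^ r) = a (p ^ r) * ((p : ℝ) ^ (-((k : ℝ) - 1) / 2)) ^ r := by
  have hp0 : (0 : ℝ) ≤ p := Nat.cast_nonneg _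
  rw [lam]
  congr 1
  push_cast
  rw [← Real.rpow_natCast, ← Real.rpow_natCast, ← Real.rpow_mul hp0, ← Real.rpow_mul hp0, mul_comm]

theorem b15_rec {k : ℕ} {a : ℕ → ℝ} (H : HData k a) {p : ℕ} (hp : p.Prime) (r : ℕ) :
    lam k a (p ^ (r + 2)) = lam k a p * lam k a (p ^ (r + 1)) - lam k a (p ^ r) := by
  have hp0 : (0 : ℝ) < p := by exact_mod_cast hp.pos
  have h1 := b15_pow (k := k) (p := p) a 1
  rw [pow_one, pow_one] at h1
  rw [b15_pow, b15_pow, b15_pow, h1, H.hecke p r hp]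
  set c : ℝ := (p : ℝ) ^ (-((k : ℝ) - 1) / 2) with hc
  have h2 : (p : ℝ) ^ (k - 1) * c ^ 2 = 1 := by
    rw [hc, ← Real.rpow_natCast, ← Real.rpow_natCast, ← Real.rpow_mul hp0.le,
      ← Real.rpow_add hp0, Nat.cast_sub H.kpos]
    have : (k : ℝ) - (1 : ℕ) + -((k : ℝ) - 1) / 2 * (2 : ℕ) = 0 := by push_cast; ring
    rw [this, Real.rpow_zero]
  have h3 : (p : ℝ) ^ (k - 1) * a (p ^ r) * c ^ (r + 2) = a (p ^ r) * c ^ r := by
    calc (p : ℝ) ^ (k - 1) * a (p ^ r) * c ^ (r + 2) =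
          ((p : ℝ) ^ (k - 1) * c ^ 2) * (a (p ^ r) * c ^ r) := by ring
      _ = _ := by rw [h2, one_mul]
  rw [sub_mul, h3]
  ring

theorem b15_grow {k : ℕ} {a : ℕ → ℝ} (H : HData k a) {p : ℕ} (hp : p.Prime)
    (hl : 21 / 10 < |lam k a p|) (r : ℕ) :
    13 / 10 * |lam k a (p ^ r)| ≤ |lam k a (p ^ (r + 1))| ∧ (13 / 10 : ℝ) ^ r ≤ |lam k a (p ^ r)| := by
  have h0 : lam k a (p ^ 0) = 1 := by
    rw [pow_zero, lam, H.one]
    simp
  induction r with
  | zero =>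
    refine ⟨?_, ?_⟩
    · rw [h0, zero_add, pow_one, abs_one]
      linarith
    · rw [h0, abs_one, pow_zero]
  | succ r ih =>
    obtain ⟨ih1, ih2⟩ := ih
    refine ⟨?_, ?_⟩
    · rw [show r + 1 + 1 = r + 2 by ring, b15_rec H hp]
      have h1 : |lam k a p * lam k a (p ^ (r + 1))| - |lam k a (p ^ r)| ≤
          |lam k a p * lam k a (p ^ (r + 1)) - lam k a (p ^ r)| := abs_sub_abs_le_abs_sub _ _
      rw [abs_mul] at h1
      have h2 : 21 / 10 * |lam k a (p ^ (r + 1))| ≤ |lam k a p| * |lam k a (p ^ (r + 1))| :=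
        mul_le_mul_of_nonneg_right hl.le (abs_nonneg _)
      have h3 := abs_nonneg (lam k a (p ^ (r + 1)))
      linarith
    · rw [pow_succ]
      linarith

theorem b15_mean {k : ℕ} (hk : 2 ≤ k) (hlow : ∀ n : ℕ, 1 ≤ n → 8 * Real.pi * n ≤ k →
    omk k / (2 * (n : ℝ) ^ (k - 1)) ≤ rho k n) {ι : Type} [Fintype ι] (F : Fam k ι) {n : ℕ}
    (hn : 1 ≤ n) (hn8 : 8 * Real.pi * n ≤ k) :
    ∑ i, om k (F.a i) * lam k (F.a i) n ^ 2 ≤ 2 := by
  have homk : 0 < omk k := omk_pos hk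
  have hn0 : (0 : ℝ) < n := by exact_mod_cast hn
  set c : ℝ := (n : ℝ) ^ (-((k : ℝ) - 1) / 2) with hc
  have hc2 : c ^ 2 * (n : ℝ) ^ (k - 1) = 1 := by
    rw [hc, ← Real.rpow_natCast, ← Real.rpow_natCast, ← Real.rpow_mul hn0.le,
      ← Real.rpow_add hn0, Nat.cast_sub (by omega : 1 ≤ k)]
    have : -((k : ℝ) - 1) / 2 * (2 : ℕ) + ((k : ℝ) - (1 : ℕ)) = 0 := by push_cast; ring
    rw [this, Real.rpow_zero]
  have hbes := bessel hk F (fun b => b n * (c : ℂ)) (fun d => by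
    simp only
    rw [Finset.sum_mul]
    exact Finset.sum_congr rfl (fun i _ => by ring)) (M := 2 / omk k) (by positivity) (by
    intro b H
    let t : ℕ → ℂ := fun m => if m = n then (c : ℂ) else 0
    have hsum : HasSum (fun m : ℕ => ‖t m‖ ^ 2 / rho k m) (‖t n‖ ^ 2 / rho k n) := by
      apply hasSum_single n
      intro m hm
      simp [t, hm]
    have hsum2 : HasSum (fun m : ℕ => b m * t m) (b n * t n) := by
      apply hasSum_single n
      intro m hm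
      simp [t, hm]
    have h1 := (coef_bound hk H (t := t) hsum.summable).2
    rw [hsum.tsum_eq, hsum2.tsum_eq] at h1
    have ht : t n = (c : ℂ) := by simp [t]
    rw [ht] at h1
    refine h1.trans ?_
    apply mul_le_mul_of_nonneg_right _ (pn_nonneg k b)
    have hr := hlow n hn hn8
    have hr0 : 0 < omk k / (2 * (n : ℝ) ^ (k - 1)) := by positivity
    rw [Complex.norm_real, Real.norm_eq_abs, sq_abs]
    calc c ^ 2 / rho k n ≤ c ^ 2 / (omk k / (2 * (n : ℝ) ^ (k - 1))) :=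
          div_le_div_of_nonneg_left (sq_nonneg _) hr0 hr
      _ = 2 / omk k * (c ^ 2 * (n : ℝ) ^ (k - 1)) := by field_simp
      _ = 2 / omk k := by rw [hc2, mul_one])
  have h2 : ∑ i, om k (F.a i) * lam k (F.a i) n ^ 2 =
      omk k * ∑ i, ‖F.c i n * (c : ℂ)‖ ^ 2 / pn k (F.c i) := by
    rw [Finset.mul_sum]
    refine Finset.sum_congr rfl (fun i _ => ?_)
    have h3 : F.c i n = ((F.a i n : ℝ) : ℂ) := rfl
    have h4 : pn k (F.c i) = pn k (fun n => (F.a i n : ℂ)) := rfl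
    have h5 : ‖((F.a i n : ℝ) : ℂ) * (c : ℂ)‖ ^ 2 = F.a i n ^ 2 * c ^ 2 := by
      rw [norm_mul, Complex.norm_real, Complex.norm_real, Real.norm_eq_abs, Real.norm_eq_abs,
        mul_pow, sq_abs, sq_abs]
    rw [om, lam, ← hc, h3, h4, h5]
    ring
  rw [h2]
  calc omk k * ∑ i, ‖F.c i n * (c : ℂ)‖ ^ 2 / pn k (F.c i) ≤ omk k * (2 / omk k) :=
        mul_le_mul_of_nonneg_left hbes homk.le
    _ = 2 := by field_simp

theorem exc_small (P : ℕ) {η : ℝ} (hη : 0 < η) : ∃ k₀ : ℕ, ∀ k : ℕ, k₀ ≤ k → Even k →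
    ∀ {ι : Type} [Fintype ι] (F : Fam k ι) (S : Finset ι),
      (∀ i ∈ S, ∃ p ∈ P.factorial.primeFactors, 21 / 10 < |lam k (F.a i) p|) →
        ∑ i ∈ S, om k (F.a i) ≤ η := by
  classical
  set T : Finset ℕ := P.factorial.primeFactors with hT
  -- choice of the exponent
  obtain ⟨j, hj⟩ : ∃ j : ℕ, (T.card : ℝ) * (2 * ((100 / 169 : ℝ)) ^ j) ≤ η := by
    have h1 : Tendsto (fun j : ℕ => (T.card : ℝ) * (2 * ((100 / 169 : ℝ)) ^ j)) atTop
        (𝓝 ((T.card : ℝ) * (2 * 0))) :=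
      ((tendsto_pow_atTop_nhds_zero_of_lt_one (by norm_num) (by norm_num)).const_mul 2).const_mul _
    rw [mul_zero, mul_zero] at h1
    exact (h1.eventually (eventually_le_nhds hη)).exists
  obtain ⟨k₁, hk₁⟩ := rho_low
  obtain ⟨k₂, hk₂⟩ := exists_nat_ge (8 * Real.pi * ((P.factorial : ℝ) ^ j))
  refine ⟨max (max k₁ k₂) 2, ?_⟩
  intro k hk _ ι _ F S hS
  have hkk₁ : k₁ ≤ k := ((le_max_left _ _).trans (le_max_left _ _)).trans hk
  have hkk₂ : k₂ ≤ k := ((le_max_right _ _).trans (le_max_left _ _)).trans hk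
  have hk2 : 2 ≤ k := (le_max_right _ _).trans hk
  have hprime : ∀ p ∈ T, ∑ i ∈ S.filter (fun i => 21 / 10 < |lam k (F.a i) p|), om k (F.a i) ≤
      2 * (100 / 169 : ℝ) ^ j := by
    intro p hp
    have hpp : p.Prime := Nat.prime_of_mem_primeFactors hp
    have hple : p ≤ P.factorial := Nat.le_of_mem_primeFactors hp
    have hn1 : 1 ≤ p ^ j := Nat.one_le_pow _ _ hpp.pos
    have hn8 : 8 * Real.pi * ((p ^ j : ℕ) : ℝ) ≤ k := by
      have h1 : ((p ^ j : ℕ) : ℝ) ≤ (P.factorial : ℝ) ^ j := by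
        push_cast
        exact pow_le_pow_left₀ (Nat.cast_nonneg _) (by exact_mod_cast hple) _
      have h2 : (k₂ : ℝ) ≤ k := by exact_mod_cast hkk₂
      calc 8 * Real.pi * ((p ^ j : ℕ) : ℝ) ≤ 8 * Real.pi * (P.factorial : ℝ) ^ j := by gcongr
        _ ≤ k := hk₂.trans h2
    have hmean := b15_mean hk2 (hk₁ k hkk₁) F hn1 hn8
    have hom : ∀ i, 0 ≤ om k (F.a i) := fun i => (om_pos hk2 (F.data i)).le
    have h3 : ∑ i ∈ S.filter (fun i => 21 / 10 < |lam k (F.a i) p|),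
        om k (F.a i) * (169 / 100 : ℝ) ^ j ≤ 2 := by
      refine le_trans ?_ hmean
      refine le_trans (Finset.sum_le_sum (g := fun i => om k (F.a i) *
        lam k (F.a i) (p ^ j) ^ 2) ?_) ?_
      · intro i hi
        have hi2 := (Finset.mem_filter.mp hi).2
        have h4 := (b15_grow (F.data i) hpp hi2 j).2
        apply mul_le_mul_of_nonneg_left _ (hom i)
        calc (169 / 100 : ℝ) ^ j = ((13 / 10 : ℝ) ^ j) ^ 2 := by
              rw [← pow_mul, mul_comm, pow_mul]; norm_num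
          _ ≤ |lam k (F.a i) (p ^ j)| ^ 2 := pow_le_pow_left₀ (by positivity) h4 2
          _ = _ := sq_abs _
      · exact Finset.sum_le_sum_of_subset_of_nonneg (Finset.subset_univ _)
          (fun i _ _ => mul_nonneg (hom i) (sq_nonneg _))
    rw [← Finset.sum_mul] at h3
    have h5 : (169 / 100 : ℝ) ^ j * (100 / 169 : ℝ) ^ j = 1 := by
      rw [← mul_pow]; norm_num
    have h6 : (0 : ℝ) < (100 / 169 : ℝ) ^ j := by positivity
    calc ∑ i ∈ S.filter (fun i => 21 / 10 < |lam k (F.a i) p|), om k (F.a i)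
        = (∑ i ∈ S.filter (fun i => 21 / 10 < |lam k (F.a i) p|), om k (F.a i)) *
            ((169 / 100 : ℝ) ^ j * (100 / 169 : ℝ) ^ j) := by rw [h5, mul_one]
      _ = ((∑ i ∈ S.filter (fun i => 21 / 10 < |lam k (F.a i) p|), om k (F.a i)) *
            (169 / 100 : ℝ) ^ j) * (100 / 169 : ℝ) ^ j := by ring
      _ ≤ 2 * (100 / 169 : ℝ) ^ j := mul_le_mul_of_nonneg_right h3 h6.le
  have hom : ∀ i, 0 ≤ om k (F.a i) := fun i => (om_pos hk2 (F.data i)).le
  calc ∑ i ∈ S, om k (F.a i)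
      ≤ ∑ i ∈ S, ∑ p ∈ T, (if 21 / 10 < |lam k (F.a i) p| then om k (F.a i) else 0) := by
        refine Finset.sum_le_sum (fun i hi => ?_)
        obtain ⟨p, hp, hpi⟩ := hS i hi
        have h1 := Finset.single_le_sum (s := T)
          (f := fun p => if 21 / 10 < |lam k (F.a i) p| then om k (F.a i) else 0)
          (fun p _ => by split_ifs; exacts [hom i, le_rfl]) hp
        simp only [if_pos hpi] at h1
        exact h1
    _ = ∑ p ∈ T, ∑ i ∈ S.filter (fun i => 21 / 10 < |lam k (F.a i) p|), om k (F.a i) := by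
        rw [Finset.sum_comm]
        exact Finset.sum_congr rfl (fun p _ => (Finset.sum_filter _ _).symm)
    _ ≤ ∑ p ∈ T, 2 * (100 / 169 : ℝ) ^ j := Finset.sum_le_sum hprime
    _ = (T.card : ℝ) * (2 * (100 / 169 : ℝ) ^ j) := by rw [Finset.sum_const, nsmul_eq_mul]
    _ ≤ η := hj

end Pool.Agent.WA
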