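import Pool.Agent.Lib_helper98.WA.Defs
import Pool.Agent.Lib_helper68.GL2.KEY2

/-! Block B16 (KEYA) of the weight aspect: the key inequality. -/

namespace Pool.Agent.WA

open Complex MeasureTheory Filter Topology UpperHalfPlane ModularGroup
open scoped MatrixGroups Modular ENNReal
open Pool.Agent.GL2 (qs HData am dens hatw Ep Mol xt FD IsCompletedL oddZ)

theorem B16_pow_eq {k p : ℕ} (hk : 0 < k) (hp : 0 < p) :
    (p : ℝ) ^ (k - 1) * ((p : ℝ) ^ (-((k : ℝ) - 1) / 2)) ^ 2 = 1 := by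
  have hp' : (0 : ℝ) < p := by exact_mod_cast hp
  rw [← Real.rpow_natCast, ← Real.rpow_natCast, ← Real.rpow_mul hp'.le, ← Real.rpow_add hp']
  have : (((k - 1 : ℕ) : ℝ) + -((k : ℝ) - 1) / 2 * ((2 : ℕ) : ℝ)) = 0 := by
    rw [Nat.cast_sub hk]
    push_cast
    ring
  rw [this, Real.rpow_zero]

/-- block B16 -/
theorem lamsys_of_hdata {k : ℕ} {a : ℕ → ℝ} (H : HData k a) {S : Finset ℕ}
    (hS : ∀ p ∈ S, p.Prime) (hbd : ∀ p ∈ S, |lam k a p| ≤ 21 / 10) : LamSys S (lam k a) := by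
  refine ⟨?_, ?_, ?_, hbd⟩
  · unfold lam
    rw [H.one]
    simp
  · intro m n hmn
    unfold lam
    rw [H.mul m n hmn, Nat.cast_mul, Real.mul_rpow (Nat.cast_nonneg _) (Nat.cast_nonneg _)]
    ring
  · intro p hp r
    have hpp := hS p hp
    have hp0 : (0 : ℝ) < p := by exact_mod_cast hpp.pos
    have h1 := B16_pow_eq H.kpos hpp.pos
    have e : ∀ s : ℕ, ((p ^ s : ℕ) : ℝ) ^ (-((k : ℝ) - 1) / 2) =
        ((p : ℝ) ^ (-((k : ℝ) - 1) / 2)) ^ s := by
      intro s
      rw [Nat.cast_pow, ← Real.rpow_natCast, ← Real.rpow_natCast, ← Real.rpow_mul hp0.le,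
        ← Real.rpow_mul hp0.le, mul_comm]
    unfold lam
    rw [H.hecke p r hpp, e, e, e]
    set x := (p : ℝ) ^ (-((k : ℝ) - 1) / 2) with hx
    linear_combination (-(a (p ^ r) * x ^ r)) * h1

theorem B16_dm {k : ℕ} {a : ℕ → ℝ} (m : ℕ) (u : ℝ) :
    dm k (fun n => (a n : ℂ)) m u = dens k (am a m) (1 : DirichletCharacter ℂ 1) u := by
  unfold dm dens
  congr 1
  apply tsum_congr
  intro n
  have h1 : (1 : DirichletCharacter ℂ 1) (n : ZMod 1) = 1 := by
    apply MulChar.one_apply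
    exact isUnit_of_subsingleton _
  rw [h1, one_mul]
  unfold am
  simp only [Nat.cast_one, div_one]
  split_ifs <;> push_cast <;> ring

theorem B16_Ep_Ef {k : ℕ} {a : ℕ → ℝ} {p : ℕ} (hp : 0 < p) (z : ℂ) :
    Ep k a p z = Ef p (lam k a p) z := by
  unfold Ep Ef lam
  have hp' : (0 : ℝ) < p := by exact_mod_cast hp
  have : a p * (p : ℝ) ^ (-(k : ℝ) / 2) =
      a p * (p : ℝ) ^ (-((k : ℝ) - 1) / 2) * (p : ℝ) ^ (-(1 : ℝ) / 2) := by
    rw [mul_assoc, ← Real.rpow_add hp']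
    congr 2
    ring
  rw [this]

theorem B16_phase {k : ℕ} {a : ℕ → ℝ} (m : ℕ) (t : ℝ) :
    starRingEnd ℂ (Mol k a m (1 : DirichletCharacter ℂ 1) t) /
      (‖Mol k a m (1 : DirichletCharacter ℂ 1) t‖ : ℂ) =
      ∏ p ∈ m.primeFactors, phase p (lam k a p) (xt (1 : DirichletCharacter ℂ 1) t p) := by
  rw [Mol, map_prod, norm_prod, ofReal_prod, ← Finset.prod_div_distrib]
  refine Finset.prod_congr rfl fun p hp => ?_
  unfold phase
  rw [B16_Ep_Ef (Nat.pos_of_mem_primeFactors hp)]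

/-- block B16 -/
theorem key_weight {k : ℕ} {a : ℕ → ℝ} (H : HData k a) {α β : ℝ} (W : WtW α β) {m : ℕ}
    (hm : 0 < m) {ε : ℝ} (hε : ε ≤ 1 / 2) (A : Apx m.primeFactors ε)
    (hbd : ∀ p ∈ m.primeFactors, |lam k a p| ≤ 21 / 10) (hz : Ph1 k a α β) (c₀ : ℝ) :
    ‖∫ u, dm k (fun n => (a n : ℂ)) m u * hatw W.w (u + c₀)‖ ≤
      2 * ‖∑ p ∈ A.ι, A.c p * (lam k a p.2 : ℂ) * ∫ u, dm k (fun n => (a n : ℂ)) m u *
        hatw W.w (u - Real.log p.1 + Real.log A.B)‖ := by
  simp_rw [B16_dm]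
  set χ : DirichletCharacter ℂ 1 := 1 with hχdef
  have hχ : χ.IsPrimitive := DirichletCharacter.isPrimitive_one_level_one
  obtain ⟨hint, hrep⟩ := GL2.repm H χ hχ hm
  have hint1 : Integrable (dens k a χ) := by
    have h1 := (GL2.repm H χ hχ one_pos).1
    rwa [GL2.KEY2_am_one] at h1
  obtain ⟨θ, hθ, hph⟩ := hz
  set L : ℝ → ℂ := fun t => ∫ u : ℝ, dens k a χ u * cexp (t * u * Complex.I) with hL
  have hLc : Continuous L := GL2.KEY2_cont hint1
  have hMc := GL2.KEY2_Mol_cont k a m χ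
  have hLM : ∀ t : ℝ, ∫ u : ℝ, dens k (am a m) χ u * cexp (t * u * Complex.I) =
      L t * Mol k a m χ t := fun t => by rw [hrep t, mul_comm]
  set V : ℝ → ℂ := fun t => starRingEnd ℂ (xt χ t A.B) *
    ∑ p ∈ A.ι, A.c p * xt χ t p.1 * (lam k a p.2 : ℂ) with hV
  have hVc : Continuous V := by
    refine Continuous.mul ?_ (continuous_finsetSum _ fun p hp => ?_)
    · exact Complex.continuous_conj.comp (GL2.KEY2_xt_cont χ A.Bpos)
    · exact (continuous_const.mul (GL2.KEY2_xt_cont χ (A.pos p hp).1)).mul continuous_const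
  have hsys : LamSys m.primeFactors (lam k a) :=
    lamsys_of_hdata H (fun p hp => Nat.prime_of_mem_primeFactors hp) hbd
  have happ' : ∀ t, ‖V t - starRingEnd ℂ (Mol k a m χ t) / (‖Mol k a m χ t‖ : ℂ)‖ ≤ 1 / 2 := by
    intro t
    rw [B16_phase]
    refine (A.approx (xt χ t) (fun p hp => ?_) _ hsys).trans hε
    exact GL2.KEY2_xt_norm χ t (Nat.pos_of_mem_primeFactors hp) (Nat.coprime_one_right p)
  have hkey := GL2.key_ineq hLc hMc hVc hθ hph W.cont W.cs W.nonneg W.supp happ' c₀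
  -- left side
  have c7 : ∫ u : ℝ, dens k (am a m) χ u * hatw W.w (u + c₀) =
      ∫ t : ℝ, (W.w t : ℂ) * (L t * Mol k a m χ t * cexp ((c₀ : ℂ) * t * Complex.I)) := by
    have h1 : ∫ u : ℝ, dens k (am a m) χ u * hatw W.w (u + c₀) =
        ∫ u : ℝ, dens k (am a m) χ (u + -c₀) * hatw W.w u := by
      rw [← integral_add_right_eq_self (μ := volume)
        (fun u : ℝ => dens k (am a m) χ (u + -c₀) * hatw W.w u) c₀]
      simp only [add_neg_cancel_right]
    rw [h1, ← GL2.KEY2_flip W.w W.cont W.cs _ (hint.comp_add_right (-c₀))]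
    congr 1
    funext t
    rw [GL2.KEY2_shift (dens k (am a m) χ) t (-c₀), hLM]
    have h2 : cexp (-(t * ((-c₀ : ℝ) : ℂ) * Complex.I)) = cexp ((c₀ : ℂ) * t * Complex.I) := by
      congr 1
      push_cast
      ring
    rw [h2]
    ring
  -- right side
  have hterm : ∀ p ∈ A.ι, ∫ u : ℝ, dens k (am a m) χ u *
      hatw W.w (u - Real.log p.1 + Real.log A.B) =
      ∫ t : ℝ, (W.w t : ℂ) * (L t * Mol k a m χ t *
        (starRingEnd ℂ (xt χ t A.B) * xt χ t p.1)) := by
    intro p hp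
    have h1 : ∫ u : ℝ, dens k (am a m) χ u * hatw W.w (u - Real.log p.1 + Real.log A.B) =
        ∫ u : ℝ, dens k (am a m) χ (u + (Real.log p.1 - Real.log A.B)) * hatw W.w u := by
      rw [← integral_add_right_eq_self (μ := volume)
        (fun u : ℝ => dens k (am a m) χ u * hatw W.w (u - Real.log p.1 + Real.log A.B))
        (Real.log p.1 - Real.log A.B)]
      congr 1
      funext u
      congr 2
      ring
    rw [h1, ← GL2.KEY2_flip W.w W.cont W.cs _ (hint.comp_add_right _)]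
    congr 1
    funext t
    rw [GL2.KEY2_shift (dens k (am a m) χ) t, hLM]
    have hn0 : 0 < p.1 := (A.pos p hp).1
    have e3 : (starRingEnd ℂ (xt χ t A.B) * xt χ t p.1) =
        cexp (-(t * ((Real.log p.1 - Real.log A.B : ℝ) : ℂ) * Complex.I)) := by
      have hone : ∀ n : ℕ, χ (n : ZMod 1) = 1 := by
        intro n
        rw [hχdef]
        apply MulChar.one_apply
        exact isUnit_of_subsingleton _
      rw [GL2.KEY2_xt_apply, GL2.KEY2_xt_apply, hone, hone, one_mul, one_mul]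
      have hB0 : (A.B : ℂ) ≠ 0 := by exact_mod_cast A.Bpos.ne'
      have hn0' : (p.1 : ℂ) ≠ 0 := by exact_mod_cast hn0.ne'
      rw [Complex.cpow_def_of_ne_zero hB0, Complex.cpow_def_of_ne_zero hn0',
        ← Complex.exp_conj, ← Complex.exp_add]
      congr 1
      rw [← Complex.natCast_log, ← Complex.natCast_log]
      rw [map_mul, Complex.conj_ofReal, map_neg, map_mul, Complex.conj_ofReal, Complex.conj_I]
      push_cast
      ring
    rw [← e3]
    ring
  have c6 : ∫ t : ℝ, (W.w t : ℂ) * (L t * Mol k a m χ t * V t) =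
      ∑ p ∈ A.ι, A.c p * (lam k a p.2 : ℂ) * ∫ u, dens k (am a m) χ u *
        hatw W.w (u - Real.log p.1 + Real.log A.B) := by
    have e1 : ∀ p ∈ A.ι, Integrable (fun t : ℝ => A.c p * (lam k a p.2 : ℂ) *
        ((W.w t : ℂ) * (L t * Mol k a m χ t * (starRingEnd ℂ (xt χ t A.B) * xt χ t p.1)))) := by
      intro p hp
      refine Integrable.const_mul ?_ _
      refine Continuous.integrable_of_hasCompactSupport ?_ ?_
      · refine (continuous_ofReal.comp W.cont).mul ((hLc.mul hMc).mul ?_)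
        exact (Complex.continuous_conj.comp (GL2.KEY2_xt_cont χ A.Bpos)).mul
          (GL2.KEY2_xt_cont χ (A.pos p hp).1)
      · exact (W.cs.comp_left (g := fun x : ℝ => (x : ℂ)) (by simp)).mul_right
    rw [Finset.sum_congr rfl (fun p hp => by rw [hterm p hp])]
    simp_rw [← integral_const_mul]
    rw [← integral_finsetSum _ e1]
    congr 1
    funext t
    simp only [hV]
    rw [Finset.mul_sum, Finset.mul_sum, Finset.mul_sum]
    refine Finset.sum_congr rfl fun p _ => ?_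
    ring
  rw [c7]
  refine hkey.trans ?_
  rw [c6]

end Pool.Agent.WA
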