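import Pool.Agent.Lib_helper98.WA.Defs

/-! Block B17a (helper38): the smooth weight. -/

namespace Pool.Agent.WA

open Complex MeasureTheory Filter Topology UpperHalfPlane
open scoped MatrixGroups ENNReal FourierTransform ContDiff
open Pool.Agent.GL2 (qs HData am dens hatw Ep Mol xt FD IsCompletedL oddZ)

theorem B17a_decay (w : ℝ → ℝ) (hw : ContDiff ℝ ∞ w) (hc : HasCompactSupport w) :
    ∃ C : ℝ, ∀ u : ℝ, ‖hatw w u‖ ≤ C / (1 + u ^ 2) ^ 2 := by
  have h1 : ContDiff ℝ ∞ (fun t => ((w t : ℝ) : ℂ)) := Complex.ofRealCLM.contDiff.comp hw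
  have h2 : HasCompactSupport (fun t => ((w t : ℝ) : ℂ)) := by
    refine hc.comp_left (g := fun x : ℝ => (x : ℂ)) (by simp)
  set g : SchwartzMap ℝ ℂ := h2.toSchwartzMap h1 with hg
  have h4 : hatw w = fun u : ℝ => (𝓕 g : SchwartzMap ℝ ℂ) ((-(1 / (2 * Real.pi))) * u) := by
    funext u
    rw [SchwartzMap.fourier_coe, Real.fourier_real_eq_integral_exp_smul]
    unfold hatw
    refine integral_congr_ae (Eventually.of_forall fun t => ?_)
    simp only [hg, smul_eq_mul]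
    rw [mul_comm]
    congr 2
    have : (Real.pi : ℂ) ≠ 0 := by exact_mod_cast Real.pi_ne_zero
    push_cast
    field_simp
  obtain ⟨C0, hC0⟩ := (𝓕 g : SchwartzMap ℝ ℂ).decay 0 0
  obtain ⟨C2, hC2⟩ := (𝓕 g : SchwartzMap ℝ ℂ).decay 4 0
  refine ⟨2 * C0 + 2 * ((2 * Real.pi) ^ 4 * C2), fun u => ?_⟩
  rw [le_div_iff₀ (by positivity), h4]
  have e0 := hC0.2 ((-(1 / (2 * Real.pi))) * u)
  have e2 := hC2.2 ((-(1 / (2 * Real.pi))) * u)
  rw [norm_iteratedFDeriv_zero, pow_zero, one_mul] at e0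
  rw [norm_iteratedFDeriv_zero] at e2
  have h5 : ‖(-(1 / (2 * Real.pi))) * u‖ ^ 4 = u ^ 4 / (2 * Real.pi) ^ 4 := by
    rw [Real.norm_eq_abs, (show Even 4 from ⟨2, rfl⟩).pow_abs]
    ring
  rw [h5] at e2
  set N := ‖(𝓕 g : SchwartzMap ℝ ℂ) ((-(1 / (2 * Real.pi))) * u)‖
  have hN : 0 ≤ N := norm_nonneg _
  have h6 : u ^ 4 * N ≤ (2 * Real.pi) ^ 4 * C2 := by
    have h7 := mul_le_mul_of_nonneg_left e2 (by positivity : (0 : ℝ) ≤ (2 * Real.pi) ^ 4)
    have h8 : (2 * Real.pi) ^ 4 * (u ^ 4 / (2 * Real.pi) ^ 4 * N) = u ^ 4 * N := by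
      field_simp
    rw [h8] at h7
    exact h7
  have h9 : (1 + u ^ 2) ^ 2 ≤ 2 + 2 * u ^ 4 := by
    nlinarith [sq_nonneg (u ^ 2 - 1)]
  have h10 : N * (1 + u ^ 2) ^ 2 ≤ N * (2 + 2 * u ^ 4) := mul_le_mul_of_nonneg_left h9 hN
  linarith

theorem exists_WtW {α β : ℝ} (h : α < β) : Nonempty (WtW α β) := by
  set t₀ : ℝ := (α + β) / 2 with ht₀
  set R : ℝ := (β - α) / 4 with hR
  have hR0 : 0 < R := by simp only [hR]; linarith
  let f : ContDiffBump t₀ := ⟨R / 2, R, by positivity, by linarith⟩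
  have hfR : f.rOut = R := rfl
  have hfsupp : ∀ t, t ∉ Metric.ball t₀ R → f t = 0 := by
    intro t ht
    have : Function.support f = Metric.ball t₀ f.rOut := f.support_eq
    by_contra hcon
    have h1 : t ∈ Function.support f := hcon
    rw [this, hfR] at h1
    exact ht h1
  obtain ⟨C, hC⟩ := B17a_decay f f.contDiff f.hasCompactSupport
  refine ⟨⟨f, f.continuous, f.hasCompactSupport, fun t => f.nonneg, ?_, C, hC, ?_⟩⟩
  · intro t ht
    apply hfsupp
    intro hb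
    apply ht
    rw [Metric.mem_ball, Real.dist_eq, abs_lt] at hb
    constructor
    · simp only [ht₀, hR] at hb; linarith [hb.1]
    · simp only [ht₀, hR] at hb; linarith [hb.2]
  · exact f.integral_pos

end Pool.Agent.WA
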