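import Pool.Agent.Lib_helper98.WAF.B9b

/-! Block B9 (LHSW): the first coefficient. -/

namespace Pool.Agent.WA

open Complex MeasureTheory Filter Topology UpperHalfPlane
open scoped MatrixGroups ENNReal
open Pool.Agent.GL2 (qs HData am dens hatw Ep Mol xt FD IsCompletedL oddZ)

/-- Cauchy-Schwarz for integrals on a set -/
theorem B9_cs {s : Set ℝ} {g : ℝ → ℝ} {F : ℝ → ℂ} (hg0 : ∀ u, 0 ≤ g u) (hg : Integrable g)
    (hF : Continuous F) {M : ℝ} (hM : ∀ u, ‖F u‖ ≤ M) :
    ‖∫ u in s, (g u : ℂ) * F u‖ ^ 2 ≤ (∫ u, g u) * ∫ u, g u * ‖F u‖ ^ 2 := by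
  have hM0 : 0 ≤ M := (norm_nonneg _).trans (hM 0)
  have hi1 : Integrable (fun u => g u * ‖F u‖) :=
    hg.mul_bdd (c := M) hF.norm.aestronglyMeasurable (Eventually.of_forall fun u => by
      rw [norm_norm]; exact hM u)
  have hi2 : Integrable (fun u => g u * ‖F u‖ ^ 2) :=
    hg.mul_bdd (c := M ^ 2) (hF.norm.pow 2).aestronglyMeasurable (Eventually.of_forall fun u => by
      rw [norm_pow, norm_norm]; exact pow_le_pow_left₀ (norm_nonneg _) (hM u) 2)
  have h1 : ‖∫ u in s, (g u : ℂ) * F u‖ ≤ ∫ u, g u * ‖F u‖ := by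
    refine (norm_integral_le_integral_norm _).trans ?_
    have h2 : ∫ u in s, ‖(g u : ℂ) * F u‖ = ∫ u in s, g u * ‖F u‖ := by
      refine integral_congr_ae (Eventually.of_forall fun u => ?_)
      simp only
      rw [norm_mul, Complex.norm_real, Real.norm_of_nonneg (hg0 u)]
    rw [h2]
    exact setIntegral_le_integral hi1 (Eventually.of_forall fun u =>
      mul_nonneg (hg0 u) (norm_nonneg _))
  have hA : 0 ≤ ∫ u, g u := integral_nonneg hg0
  have hB : 0 ≤ ∫ u, g u * ‖F u‖ := integral_nonneg fun u => mul_nonneg (hg0 u) (norm_nonneg _)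
  have h2 : (∫ u, g u * ‖F u‖) ^ 2 ≤ (∫ u, g u) * ∫ u, g u * ‖F u‖ ^ 2 := by
    have h3 : ∀ x : ℝ, 0 ≤ (∫ u, g u) * (x * x) + (-(2 * ∫ u, g u * ‖F u‖)) * x +
        ∫ u, g u * ‖F u‖ ^ 2 := by
      intro x
      have h4 : (∫ u, g u) * (x * x) + (-(2 * ∫ u, g u * ‖F u‖)) * x +
          ∫ u, g u * ‖F u‖ ^ 2 = ∫ u, g u * (x - ‖F u‖) ^ 2 := by
        have e1 : (fun u => g u * (x - ‖F u‖) ^ 2) = fun u =>
            (g u * (x * x) + (-(2 * x)) * (g u * ‖F u‖)) + g u * ‖F u‖ ^ 2 := by
          funext u; ring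
        have hadd : Integrable (fun u => g u * (x * x) + (-(2 * x)) * (g u * ‖F u‖)) :=
          (hg.mul_const _).add (hi1.const_mul _)
        rw [e1, integral_add hadd hi2,
          integral_add (hg.mul_const _) (hi1.const_mul _), integral_mul_const,
          integral_const_mul]
        ring
      rw [h4]
      exact integral_nonneg fun u => mul_nonneg (hg0 u) (sq_nonneg _)
    have h5 := discrim_le_zero h3
    rw [discrim] at h5
    nlinarith
  exact (pow_le_pow_left₀ (norm_nonneg _) h1 2).trans h2

theorem B9_gd_nonneg (k n : ℕ) (u : ℝ) : 0 ≤ gd k n u := (Real.exp_pos _).le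

theorem B9_high {α β : ℝ} (W : WtW α β) {δ : ℝ} (hδ : 0 < δ) :
    ∃ P₀ : ℕ, ∀ P : ℕ, P₀ ≤ P → ∃ k₀ : ℕ, ∀ k : ℕ, k₀ ≤ k → Even k → ∀ b, CForm k b →
      ‖(∫ u in Set.Ioi (Real.log 12), dm k b P.factorial u *
        hatw W.w (u + -Real.log (k / (4 * Real.pi)))) / (gk k : ℂ) -
        ((∫ t, W.w t : ℝ) : ℂ) * b 1‖ ^ 2 ≤ δ / omk k * pn k b := by
  classical
  set a : ℝ := Real.log 12 with ha
  set J : ℝ := ∫ t, W.w t with hJ
  have hC := B9_C W
  have hcw := B9_hatw_cont W.cont W.cs
  obtain ⟨C₁, kp, hkp⟩ := gd_peetre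
  set c₁ : ℝ := 2 * W.C ^ 2 * |C₁| with hc₁
  have hc₁0 : 0 ≤ c₁ := by positivity
  obtain ⟨P₀, hP₀⟩ := log_tail (δ := δ / (4 * (c₁ + 1))) (by positivity)
  refine ⟨P₀, fun P hP => ?_⟩
  obtain ⟨k₁, hk₁⟩ := gd_lim hcw (B9_hatw_bd W) (δ := √(δ / 8)) (by positivity)
  obtain ⟨k₂, hk₂⟩ := rho_low
  obtain ⟨k₃, hk₃⟩ := gd_tail
  obtain ⟨k₄, hk₄⟩ := exists_nat_gt (80 * W.C ^ 2 / δ)
  refine ⟨32 + kp + k₁ + k₂ + k₃ + k₄, fun k hk he b H => ?_⟩
  have hk2 : 2 ≤ k := by omega
  have hg : 0 < gk k := gk_pos (by omega)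
  have ho : 0 < omk k := omk_pos hk2
  have hpn := pn_nonneg k b
  set L : ℝ := Real.log (k / (4 * Real.pi)) with hL
  set F : ℝ → ℂ := fun u => hatw W.w (u + -L) with hF
  have hFc : Continuous F := by fun_prop
  have hFb : ∀ u, ‖F u‖ ≤ W.C := fun u => B9_hatw_bd W _
  set m : ℕ := P.factorial with hm
  -- the coefficients
  set I : ℕ → ℂ := fun n => ∫ u in Set.Ioi a, (gd k n u : ℂ) * F u with hI
  set s : ℕ → ℝ := fun n => ∫ u in Set.Ioi a, gd k n u with hs
  set t : ℕ → ℂ := fun n => (if n.Coprime m then I n else 0) / (gk k : ℂ) -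
    (if n = 1 then (J : ℂ) else 0) with ht
  have hgdi : ∀ n : ℕ, 1 ≤ n → Integrable (gd k n) := fun n hn => (gd_int (by omega) hn).1
  have hIs : ∀ n, 1 ≤ n → ‖I n‖ ≤ W.C * s n := by
    intro n hn
    refine (norm_integral_le_integral_norm _).trans ?_
    rw [hs]
    simp only
    rw [← integral_const_mul]
    refine integral_mono_of_nonneg (Eventually.of_forall fun u => norm_nonneg _)
      ((hgdi n hn).integrableOn.const_mul _) (Eventually.of_forall fun u => ?_)
    simp only
    rw [norm_mul, Complex.norm_real, Real.norm_of_nonneg (B9_gd_nonneg k n u), mul_comm]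
    exact mul_le_mul_of_nonneg_right (hFb u) (B9_gd_nonneg k n u)
  have hbs := (coef_bound hk2 H (B9_tail_sum hk2 (hk₃ k (by omega)))).1
  -- interchange
  have hint : HasSum (fun n : ℕ => (if n.Coprime m then b n else 0) * I n)
      (∫ u in Set.Ioi a, dm k b m u * F u) := by
    have h1 : HasSum (fun n : ℕ => ∫ u in Set.Ioi a,
        (if n.Coprime m then b n else 0) * (gd k n u : ℂ) * F u)
        (∫ u in Set.Ioi a, ∑' n : ℕ, (if n.Coprime m then b n else 0) * (gd k n u : ℂ) * F u) := by
      refine hasSum_integral_of_summable_integral_norm (fun n => ?_) ?_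
      · rcases Nat.eq_zero_or_pos n with rfl | hn
        · have : (fun u : ℝ => (if (0 : ℕ).Coprime m then b 0 else 0) * (gd k 0 u : ℂ) * F u) =
              fun _ => 0 := by
            funext u
            rw [H.zero]
            simp
          rw [this]
          exact integrable_zero _ _ _
        · have h2 : Integrable (fun u : ℝ => (gd k n u : ℂ) * F u) :=
            (hgdi n hn).ofReal.mul_bdd (c := W.C) hFc.aestronglyMeasurable
              (Eventually.of_forall hFb)
          refine ((h2.const_mul (if n.Coprime m then b n else 0)).congr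
            (Eventually.of_forall fun u => ?_)).integrableOn
          simp only
          ring
      · refine Summable.of_nonneg_of_le (fun n => integral_nonneg fun u => norm_nonneg _)
          (fun n => ?_) (hbs.mul_left W.C)
        rcases Nat.eq_zero_or_pos n with rfl | hn
        · simp [H.zero]
        · have h2 : ∫ u in Set.Ioi a, ‖(if n.Coprime m then b n else 0) * (gd k n u : ℂ) * F u‖ ≤
              ∫ u in Set.Ioi a, W.C * ‖b n‖ * gd k n u := by
            refine integral_mono_of_nonneg (Eventually.of_forall fun u => norm_nonneg _)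
              ((hgdi n hn).integrableOn.const_mul _) (Eventually.of_forall fun u => ?_)
            simp only
            rw [norm_mul, norm_mul, Complex.norm_real, Real.norm_of_nonneg (B9_gd_nonneg k n u)]
            have h3 : ‖(if n.Coprime m then b n else 0)‖ ≤ ‖b n‖ := by
              split_ifs <;> simp
            calc ‖(if n.Coprime m then b n else 0)‖ * gd k n u * ‖F u‖
                ≤ ‖b n‖ * gd k n u * W.C := by
                  refine mul_le_mul (mul_le_mul_of_nonneg_right h3 (B9_gd_nonneg k n u)) (hFb u)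
                    (norm_nonneg _) (mul_nonneg (norm_nonneg _) (B9_gd_nonneg k n u))
              _ = _ := by ring
          refine h2.trans (le_of_eq ?_)
          rw [integral_const_mul, norm_mul, Complex.norm_real, Real.norm_of_nonneg
            (integral_nonneg fun u => B9_gd_nonneg k n u)]
          ring
    have h2 : (fun n : ℕ => ∫ u in Set.Ioi a,
        (if n.Coprime m then b n else 0) * (gd k n u : ℂ) * F u) =
        fun n : ℕ => (if n.Coprime m then b n else 0) * I n := by
      funext n
      rw [hI]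
      simp only
      rw [← integral_const_mul]
      exact integral_congr_ae (Eventually.of_forall fun u => by simp only; ring)
    have h3 : ∫ u in Set.Ioi a, ∑' n : ℕ, (if n.Coprime m then b n else 0) * (gd k n u : ℂ) * F u =
        ∫ u in Set.Ioi a, dm k b m u * F u := by
      refine integral_congr_ae (Eventually.of_forall fun u => ?_)
      simp only
      exact ((dm_series H m u).mul_right (F u)).tsum_eq
    rw [h2, h3] at h1
    exact h1
  have hsum : HasSum (fun n : ℕ => b n * t n)
      ((∫ u in Set.Ioi a, dm k b m u * F u) / (gk k : ℂ) - (J : ℂ) * b 1) := by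
    have h1 := hint.div_const (gk k : ℂ)
    have h2 : HasSum (fun n : ℕ => if n = 1 then (J : ℂ) * b 1 else 0) ((J : ℂ) * b 1) :=
      hasSum_ite_eq 1 _
    refine (h1.sub h2).congr_fun fun n => ?_
    simp only [ht]
    by_cases h3 : n = 1
    · subst h3
      simp only [if_true]
      rw [if_pos (Nat.coprime_one_left m), if_pos (Nat.coprime_one_left m)]
      ring
    · rw [if_neg h3, if_neg h3]
      split_ifs
      · ring
      · simp
  -- the majorant
  have hrw : ∀ n : ℕ, 1 ≤ n → 0 < rho k n := fun n hn => rho_pos hk2 hn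
  set G : ℕ → ℝ := fun n => (if n = 1 then δ / 4 / omk k else 0) +
    (if n ∈ Finset.Icc (P₀ + 1) k then c₁ / omk k * (1 / (n : ℝ) / (1 + Real.log n ^ 2)) else 0) +
    W.C ^ 2 / gk k ^ 2 * Real.exp (-(k : ℝ) - n) with hG
  have hpi := Real.pi_gt_three
  have hpi4 := Real.pi_lt_four
  have hmaj : ∀ n : ℕ, ‖t n‖ ^ 2 / rho k n ≤ G n := by
    intro n
    have hG1 : 0 ≤ (if n = 1 then δ / 4 / omk k else 0) := by
      split_ifs <;> positivity
    have hG2 : 0 ≤ (if n ∈ Finset.Icc (P₀ + 1) k then
        c₁ / omk k * (1 / (n : ℝ) / (1 + Real.log n ^ 2)) else 0) := by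
      split_ifs <;> positivity
    have hG3 : 0 ≤ W.C ^ 2 / gk k ^ 2 * Real.exp (-(k : ℝ) - n) := by positivity
    rcases Nat.eq_zero_or_pos n with rfl | hn
    · have h1 : rho k 0 = 0 := by
        unfold rho
        refine integral_undef ?_
        intro hcon
        have h2 : IntegrableOn (fun _ : ℝ => (1 : ℝ)) (Set.Ioi 1) := by
          refine Integrable.mono' hcon (by fun_prop) ?_
          filter_upwards [ae_restrict_mem measurableSet_Ioi] with y hy
          have hy1 : (1 : ℝ) ≤ y := (Set.mem_Ioi.1 hy).le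
          simp only [norm_one, Nat.cast_zero, mul_zero, zero_mul, Real.exp_zero, mul_one]
          exact one_le_pow₀ hy1
        rw [integrableOn_const_iff (by simp)] at h2
        simp at h2
      rw [h1, div_zero]
      simp only [hG]
      linarith
    rcases Nat.eq_or_lt_of_le (show 1 ≤ n from hn) with h1 | hn1
    · -- n = 1
      subst h1
      have h2 : t 1 = I 1 / (gk k : ℂ) - (J : ℂ) := by
        simp only [ht]
        rw [if_pos (Nat.coprime_one_left m), if_pos trivial]
      have h3 : ‖t 1‖ ≤ √(δ / 8) := by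
        rw [h2]
        have h4 := hk₁ k (by omega)
        rw [B9_hatw_zero W] at h4
        exact h4
      have h4 : ‖t 1‖ ^ 2 ≤ δ / 8 := by
        calc ‖t 1‖ ^ 2 ≤ √(δ / 8) ^ 2 := pow_le_pow_left₀ (norm_nonneg _) h3 2
          _ = δ / 8 := Real.sq_sqrt (by positivity)
      have h5 : omk k / 2 ≤ rho k 1 := by
        have h6 := hk₂ k (by omega) 1 le_rfl (by
          have : (32 : ℝ) ≤ k := by
            have : 32 ≤ k := by omega
            exact_mod_cast this
          push_cast
          linarith)
        simpa using h6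
      have h6 : ‖t 1‖ ^ 2 / rho k 1 ≤ δ / 4 / omk k := by
        rw [div_le_div_iff₀ (hrw 1 le_rfl) ho]
        nlinarith
      simp only [hG]
      rw [if_pos trivial]
      linarith
    · -- n ≥ 2
      have hn1' : n ≠ 1 := by omega
      have ht' : t n = (if n.Coprime m then I n else 0) / (gk k : ℂ) := by
        simp only [ht]
        rw [if_neg hn1', sub_zero]
      rcases le_or_gt (8 * Real.pi * n) k with h8 | h8
      · -- small n
        by_cases hcop : n.Coprime m
        · have hnP : P < n := by
            by_contra hcon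
            have h9 : n ∣ m := Nat.dvd_factorial (by omega) (not_lt.1 hcon)
            have h10 := Nat.Coprime.eq_one_of_dvd hcop h9
            exact hn1' h10
          have hn0 : (0 : ℝ) < n := by exact_mod_cast hn
          have hIn : ‖I n‖ ^ 2 ≤ (gk k * (n : ℝ) ^ (-(k : ℝ) / 2)) *
              (W.C ^ 2 * (|C₁| * (gk k * (n : ℝ) ^ (-(k : ℝ) / 2)) / (1 + Real.log n ^ 2))) := by
            have h9 := B9_cs (s := Set.Ioi a) (B9_gd_nonneg k n) (hgdi n hn) hFc hFb
            refine h9.trans ?_
            rw [(gd_int (by omega : 1 ≤ k) hn).2]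
            refine mul_le_mul_of_nonneg_left ?_ (by positivity)
            have h10 : ∫ u, gd k n u * ‖F u‖ ^ 2 ≤
                ∫ u, W.C ^ 2 * (gd k n u / (1 + (u - L) ^ 2)) := by
              have hi3 : Integrable (fun u : ℝ => gd k n u / (1 + (u - L) ^ 2)) := by
                refine (hgdi n hn).mono' ?_ (Eventually.of_forall fun u => ?_)
                · refine (Continuous.div ?_ (by fun_prop) fun u => ?_).aestronglyMeasurable
                  · unfold gd
                    fun_prop
                  · positivity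
                · rw [norm_div, Real.norm_of_nonneg (B9_gd_nonneg k n u),
                    Real.norm_of_nonneg (by positivity : (0 : ℝ) ≤ 1 + (u - L) ^ 2)]
                  exact div_le_self (B9_gd_nonneg k n u) (by nlinarith [sq_nonneg (u - L)])
              refine integral_mono_of_nonneg (Eventually.of_forall fun u =>
                mul_nonneg (B9_gd_nonneg k n u) (by positivity)) (hi3.const_mul _)
                (Eventually.of_forall fun u => ?_)
              simp only
              have h11 : ‖F u‖ ≤ W.C / (1 + (u - L) ^ 2) := by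
                have := B9_hatw_le W (u + -L)
                rwa [← sub_eq_add_neg] at this
              have h12 : ‖F u‖ ^ 2 ≤ W.C ^ 2 / (1 + (u - L) ^ 2) := by
                have h13 : (0 : ℝ) < 1 + (u - L) ^ 2 := by positivity
                calc ‖F u‖ ^ 2 ≤ (W.C / (1 + (u - L) ^ 2)) ^ 2 :=
                      pow_le_pow_left₀ (norm_nonneg _) h11 2
                  _ = W.C ^ 2 / (1 + (u - L) ^ 2) ^ 2 := by rw [div_pow]
                  _ ≤ W.C ^ 2 / (1 + (u - L) ^ 2) := by
                      refine div_le_div_of_nonneg_left (by positivity) h13 ?_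
                      nlinarith [sq_nonneg (u - L)]
              calc gd k n u * ‖F u‖ ^ 2 ≤ gd k n u * (W.C ^ 2 / (1 + (u - L) ^ 2)) :=
                    mul_le_mul_of_nonneg_left h12 (B9_gd_nonneg k n u)
                _ = _ := by ring
            refine h10.trans ?_
            rw [integral_const_mul]
            refine mul_le_mul_of_nonneg_left ?_ (by positivity)
            have h11 := hkp k (by omega) n hn L
            have h12 : Real.log (k / (4 * Real.pi * n)) - L = -Real.log n := by
              have hk0 : (k : ℝ) ≠ 0 := by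
                have : k ≠ 0 := by omega
                exact_mod_cast this
              rw [hL, ← div_div, Real.log_div (by positivity) (by positivity)]
              ring
            rw [h12, neg_sq] at h11
            refine h11.trans ?_
            gcongr
            exact le_abs_self _
          have hIn2 : ‖t n‖ ^ 2 ≤ W.C ^ 2 * |C₁| * (n : ℝ) ^ (-(k : ℝ)) /
              (1 + Real.log n ^ 2) := by
            rw [ht', if_pos hcop, norm_div, Complex.norm_real, Real.norm_of_nonneg hg.le, div_pow,
              div_le_iff₀ (by positivity)]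
            refine hIn.trans (le_of_eq ?_)
            have e1 : (n : ℝ) ^ (-(k : ℝ)) = (n : ℝ) ^ (-(k : ℝ) / 2) * (n : ℝ) ^ (-(k : ℝ) / 2) := by
              rw [← Real.rpow_add hn0]
              congr 1
              ring
            rw [e1]
            ring
          have hrn := hk₂ k (by omega) n hn h8
          have h9 : ‖t n‖ ^ 2 / rho k n ≤ c₁ / omk k * (1 / (n : ℝ) / (1 + Real.log n ^ 2)) := by
            rw [div_le_iff₀ (hrw n hn)]
            refine hIn2.trans ?_
            have e2 : W.C ^ 2 * |C₁| * (n : ℝ) ^ (-(k : ℝ)) / (1 + Real.log n ^ 2) =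
                c₁ / omk k * (1 / (n : ℝ) / (1 + Real.log n ^ 2)) *
                  (omk k / (2 * (n : ℝ) ^ (k - 1))) := by
              have e3 : (n : ℝ) ^ (-(k : ℝ)) = 1 / ((n : ℝ) * (n : ℝ) ^ (k - 1)) := by
                rw [Real.rpow_neg hn0.le, Real.rpow_natCast, one_div]
                congr 1
                rw [← pow_succ']
                congr 1
                omega
              rw [e3, hc₁]
              field_simp
            rw [e2]
            exact mul_le_mul_of_nonneg_left hrn (by positivity)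
          have h10 : n ∈ Finset.Icc (P₀ + 1) k := by
            rw [Finset.mem_Icc]
            refine ⟨by omega, ?_⟩
            have : (n : ℝ) ≤ k := by nlinarith
            exact_mod_cast this
          simp only [hG]
          rw [if_pos h10]
          linarith
        · rw [ht', if_neg hcop]
          simp only [hG]
          rw [zero_div, norm_zero]
          have : (0 : ℝ) ^ 2 / rho k n = 0 := by simp
          rw [this]
          linarith
      · -- large n
        have h9 := hk₃ k (by omega) n h8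
        have hs0 : 0 ≤ s n := integral_nonneg fun u => B9_gd_nonneg k n u
        have h10 : ‖t n‖ ^ 2 ≤ W.C ^ 2 / gk k ^ 2 * (s n) ^ 2 := by
          rw [ht', norm_div, Complex.norm_real, Real.norm_of_nonneg hg.le, div_pow]
          have h11 : ‖(if n.Coprime m then I n else 0)‖ ≤ W.C * s n := by
            split_ifs
            · exact hIs n hn
            · rw [norm_zero]; positivity
          calc ‖(if n.Coprime m then I n else 0)‖ ^ 2 / gk k ^ 2 ≤ (W.C * s n) ^ 2 / gk k ^ 2 := by
                gcongr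
            _ = _ := by ring
        have h11 : ‖t n‖ ^ 2 / rho k n ≤ W.C ^ 2 / gk k ^ 2 * Real.exp (-(k : ℝ) - n) := by
          rw [div_le_iff₀ (hrw n hn)]
          refine h10.trans ?_
          rw [mul_assoc]
          refine mul_le_mul_of_nonneg_left ?_ (by positivity)
          rw [mul_comm (Real.exp _)]
          exact h9
        simp only [hG]
        linarith
  -- sum of the majorant
  have hexp : HasSum (fun n : ℕ => Real.exp (-(k : ℝ) - n))
      (Real.exp (-(k : ℝ)) * (1 - Real.exp (-1))⁻¹) := by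
    have h1 := (hasSum_geometric_of_lt_one (Real.exp_pos (-1)).le
      (Real.exp_lt_one_iff.2 (by norm_num : (-1 : ℝ) < 0))).mul_left (Real.exp (-(k : ℝ)))
    refine h1.congr_fun fun n => ?_
    rw [← Real.exp_nat_mul, ← Real.exp_add]
    congr 1
    ring
  have hGsum : HasSum G (δ / 4 / omk k +
      (∑ n ∈ Finset.Icc (P₀ + 1) k, c₁ / omk k * (1 / (n : ℝ) / (1 + Real.log n ^ 2))) +
      W.C ^ 2 / gk k ^ 2 * (Real.exp (-(k : ℝ)) * (1 - Real.exp (-1))⁻¹)) := by
    refine ((hasSum_ite_eq 1 _).add ?_).add (hexp.mul_left _)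
    have h1 : HasSum (fun n : ℕ => if n ∈ Finset.Icc (P₀ + 1) k then
        c₁ / omk k * (1 / (n : ℝ) / (1 + Real.log n ^ 2)) else 0)
        (∑ n ∈ Finset.Icc (P₀ + 1) k, if n ∈ Finset.Icc (P₀ + 1) k then
        c₁ / omk k * (1 / (n : ℝ) / (1 + Real.log n ^ 2)) else 0) :=
      hasSum_sum_of_ne_finset_zero (fun n hn => if_neg hn)
    have h2 : (∑ n ∈ Finset.Icc (P₀ + 1) k, if n ∈ Finset.Icc (P₀ + 1) k then
        c₁ / omk k * (1 / (n : ℝ) / (1 + Real.log n ^ 2)) else 0) =
        ∑ n ∈ Finset.Icc (P₀ + 1) k, c₁ / omk k * (1 / (n : ℝ) / (1 + Real.log n ^ 2)) :=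
      Finset.sum_congr rfl fun n hn => if_pos hn
    rw [h2] at h1
    exact h1
  have hts : Summable (fun n : ℕ => ‖t n‖ ^ 2 / rho k n) := by
    refine Summable.of_nonneg_of_le (fun n => ?_) hmaj hGsum.summable
    have : 0 ≤ rho k n := by
      unfold rho
      exact integral_nonneg_of_ae (by
        filter_upwards [ae_restrict_mem measurableSet_Ioi] with y hy
        have : (0 : ℝ) < y := lt_trans one_pos hy
        positivity)
    positivity
  have hfin := (coef_bound hk2 H hts).2
  rw [hsum.tsum_eq] at hfin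
  refine hfin.trans (mul_le_mul_of_nonneg_right ?_ hpn)
  have h1 : ∑' n : ℕ, ‖t n‖ ^ 2 / rho k n ≤ _ := hts.tsum_le_of_sum_le
    (fun S => (Finset.sum_le_sum fun n _ => hmaj n).trans
      (sum_le_hasSum S (fun n _ => by
        have := hmaj n
        have h2 : 0 ≤ ‖t n‖ ^ 2 / rho k n := by
          have : 0 ≤ rho k n := by
            unfold rho
            exact integral_nonneg_of_ae (by
              filter_upwards [ae_restrict_mem measurableSet_Ioi] with y hy
              have : (0 : ℝ) < y := lt_trans one_pos hy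
              positivity)
          positivity
        linarith) hGsum))
  refine h1.trans ?_
  have h2 : (∑ n ∈ Finset.Icc (P₀ + 1) k, c₁ / omk k * (1 / (n : ℝ) / (1 + Real.log n ^ 2))) ≤
      δ / 4 / omk k := by
    rw [← Finset.mul_sum]
    calc c₁ / omk k * ∑ n ∈ Finset.Icc (P₀ + 1) k, 1 / (n : ℝ) / (1 + Real.log n ^ 2)
        ≤ c₁ / omk k * (δ / (4 * (c₁ + 1))) := mul_le_mul_of_nonneg_left (hP₀ k) (by positivity)
      _ = (c₁ / (c₁ + 1)) * (δ / 4 / omk k) := by field_simp
      _ ≤ 1 * (δ / 4 / omk k) := by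
          refine mul_le_mul_of_nonneg_right ?_ (by positivity)
          rw [div_le_one (by positivity)]
          linarith
      _ = _ := one_mul _
  have h3 : W.C ^ 2 / gk k ^ 2 * (Real.exp (-(k : ℝ)) * (1 - Real.exp (-1))⁻¹) ≤
      δ / 4 / omk k := by
    have hr := B9_ratio (k := k) (by omega) he
    have hk0 : (1 : ℝ) ≤ Real.sqrt k := by
      rw [Real.one_le_sqrt]
      have : 1 ≤ k := by omega
      exact_mod_cast this
    have h4 : 1 / gk k ^ 2 ≤ 10 / omk k := by
      refine le_trans ?_ hr
      exact div_le_div_of_nonneg_right hk0 (by positivity)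
    have h5 : Real.exp (-(k : ℝ)) ≤ 1 / k := by
      have hk00 : (0 : ℝ) < k := by
        have : 0 < k := by omega
        exact_mod_cast this
      rw [Real.exp_neg, ← one_div]
      refine one_div_le_one_div_of_le hk00 ?_
      linarith [Real.add_one_le_exp (k : ℝ)]
    have h6 : (1 - Real.exp (-1))⁻¹ ≤ 2 := by
      have h7 : Real.exp (-1) ≤ 1 / 2 := by
        rw [Real.exp_neg, ← one_div]
        refine one_div_le_one_div_of_le (by norm_num) ?_
        linarith [Real.add_one_le_exp (1 : ℝ)]
      rw [inv_le_comm₀ (by linarith) (by norm_num)]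
      linarith
    have h6' : 0 ≤ (1 - Real.exp (-1))⁻¹ := by
      have h7 : Real.exp (-1) < 1 := Real.exp_lt_one_iff.2 (by norm_num)
      exact inv_nonneg.2 (by linarith)
    have h7 : 80 * W.C ^ 2 / δ < k := by
      refine hk₄.trans_le ?_
      have : k₄ ≤ k := by omega
      exact_mod_cast this
    have hk00 : (0 : ℝ) < k := by
      have : 0 < k := by omega
      exact_mod_cast this
    have h8 : 20 * W.C ^ 2 * (1 / (k : ℝ)) ≤ δ / 4 := by
      rw [mul_one_div, div_le_iff₀ hk00]
      rw [div_lt_iff₀ hδ] at h7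
      linarith
    calc W.C ^ 2 / gk k ^ 2 * (Real.exp (-(k : ℝ)) * (1 - Real.exp (-1))⁻¹)
        = W.C ^ 2 * (1 / gk k ^ 2) * (Real.exp (-(k : ℝ)) * (1 - Real.exp (-1))⁻¹) := by ring
      _ ≤ W.C ^ 2 * (10 / omk k) * (1 / k * 2) := by gcongr
      _ = (20 * W.C ^ 2 * (1 / k)) / omk k := by ring
      _ ≤ δ / 4 / omk k := div_le_div_of_nonneg_right h8 ho.le
  have h4 : δ / omk k = δ / 4 / omk k + δ / 4 / omk k + δ / 4 / omk k + δ / 4 / omk k := by
    ring
  have h5 : 0 ≤ δ / 4 / omk k := by positivity
  linarith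

theorem lhs_weight {α β : ℝ} (W : WtW α β) {δ : ℝ} (hδ : 0 < δ) :
    ∃ P₀ : ℕ, ∀ P : ℕ, P₀ ≤ P → ∃ k₀ : ℕ, ∀ k : ℕ, k₀ ≤ k → Even k → ∀ b, CForm k b →
      ‖(∫ u, dm k b P.factorial u * hatw W.w (u + -Real.log (k / (4 * Real.pi)))) / (gk k : ℂ) -
        ((∫ t, W.w t : ℝ) : ℂ) * b 1‖ ^ 2 ≤ δ / omk k * pn k b := by
  obtain ⟨P₀, hP₀⟩ := B9_high W (δ := δ / 4) (by positivity)
  refine ⟨P₀, fun P hP => ?_⟩
  obtain ⟨k₁, hk₁⟩ := hP₀ P hP
  have hm : 0 < P.factorial := Nat.factorial_pos P
  obtain ⟨k₂, hk₂⟩ := B9_low W hm (δ := δ / 4) (by positivity)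
  refine ⟨max k₁ k₂, fun k hk he b H => ?_⟩
  have h1 := hk₁ k (le_trans (le_max_left _ _) hk) he b H
  have h2 := hk₂ k (le_trans (le_max_right _ _) hk) he b H
  have hi := B9_dm_int H hm W (-Real.log (k / (4 * Real.pi)))
  have h3 := intervalIntegral.integral_Iic_add_Ioi (b := Real.log 12) hi.integrableOn
    hi.integrableOn
  rw [← h3, add_div, add_sub_assoc]
  set X := (∫ u in Set.Iic (Real.log 12), dm k b P.factorial u *
        hatw W.w (u + -Real.log (k / (4 * Real.pi)))) / (gk k : ℂ) with hX
  set Y := (∫ u in Set.Ioi (Real.log 12), dm k b P.factorial u *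
        hatw W.w (u + -Real.log (k / (4 * Real.pi)))) / (gk k : ℂ) -
        ((∫ t, W.w t : ℝ) : ℂ) * b 1 with hY
  have h4 : ‖X + Y‖ ^ 2 ≤ (‖X‖ + ‖Y‖) ^ 2 := pow_le_pow_left₀ (norm_nonneg _) (norm_add_le _ _) 2
  have h5 : δ / omk k * pn k b = 4 * (δ / 4 / omk k * pn k b) := by ring
  rw [h5]
  nlinarith [sq_nonneg (‖X‖ - ‖Y‖)]

end Pool.Agent.WA
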