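import Pool.Agent.Lib_helper98.WAF.B10
import Pool.Agent.Lib_helper98.WAF.B12
import Pool.Agent.Lib_helper98.WAF.B14
import Pool.Agent.Lib_helper98.WAF.B15
import Pool.Agent.Lib_helper98.WAF.B16
import Pool.Agent.Lib_helper98.WAF.B17a
import Pool.Agent.Lib_helper98.WAF.B17b
import Pool.Agent.Lib_helper98.WAF.B9

/-! Block B18 (ONE): one window. -/

namespace Pool.Agent.WA

open Complex MeasureTheory Filter Topology UpperHalfPlane
open scoped MatrixGroups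
open Pool.Agent.GL2 (qs HData am dens hatw Ep Mol xt FD IsCompletedL oddZ)

theorem B18_bessel {k : ℕ} (hk : 2 ≤ k) {ι : Type} [Fintype ι] (F : Fam k ι) (L : (ℕ → ℂ) → ℂ)
    (hL : ∀ c : ι → ℂ, L (fun n => ∑ i, c i * F.c i n) = ∑ i, c i * L (F.c i))
    {M : ℝ} (hM0 : 0 ≤ M) (hM : ∀ b, CForm k b → ‖L b‖ ^ 2 ≤ M / omk k * pn k b) (S : Finset ι) :
    ∑ i ∈ S, om k (F.a i) * ‖L (F.c i)‖ ^ 2 ≤ M := by
  have h0 := omk_pos hk
  have h1 := bessel hk F L hL (div_nonneg hM0 h0.le) hM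
  have h2 : ∀ i, om k (F.a i) * ‖L (F.c i)‖ ^ 2 = omk k * (‖L (F.c i)‖ ^ 2 / pn k (F.c i)) := by
    intro i
    show omk k / pn k (F.c i) * ‖L (F.c i)‖ ^ 2 = _
    ring
  calc ∑ i ∈ S, om k (F.a i) * ‖L (F.c i)‖ ^ 2 ≤ ∑ i, om k (F.a i) * ‖L (F.c i)‖ ^ 2 := by
        refine Finset.sum_le_sum_of_subset_of_nonneg (Finset.subset_univ _) fun i _ _ => ?_
        exact mul_nonneg (om_pos hk (F.data i)).le (by positivity)
    _ = omk k * ∑ i, ‖L (F.c i)‖ ^ 2 / pn k (F.c i) := by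
        rw [Finset.mul_sum]
        exact Finset.sum_congr rfl fun i _ => h2 i
    _ ≤ omk k * (M / omk k) := mul_le_mul_of_nonneg_left h1 h0.le
    _ = M := by field_simp

theorem one_window {α β : ℝ} (h : α < β) {η : ℝ} (hη : 0 < η) : ∃ k₀ : ℕ, ∀ k : ℕ, k₀ ≤ k →
    Even k → ∀ {ι : Type} [Fintype ι] (F : Fam k ι) (S : Finset ι),
      (∀ i ∈ S, Ph1 k (F.a i) α β) → ∑ i ∈ S, om k (F.a i) ≤ η := by
  classical
  obtain ⟨W⟩ := exists_WtW h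
  set J : ℝ := ∫ t, W.w t with hJ
  have hJ0 : 0 < J := W.pos
  set I2 : ℝ := ∫ t, W.w t ^ 2 with hI2
  have hI20 : 0 ≤ I2 := integral_nonneg fun t => sq_nonneg _
  obtain ⟨C₁, hC₁, hrhs⟩ := rhs_weight
  set δ₁ : ℝ := η * J ^ 2 / 16 with hδ₁
  have hδ₁0 : 0 < δ₁ := by positivity
  set δ₂ : ℝ := η * J ^ 2 / 64 with hδ₂
  have hδ₂0 : 0 < δ₂ := by positivity
  set τ : ℝ := η * J ^ 2 / (144 * C₁ * (I2 + 1)) with hτ
  have hτ0 : 0 < τ := by positivity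
  obtain ⟨P₁, hP₁⟩ := lhs_weight W hδ₁0
  obtain ⟨P₂, hP₂⟩ := tot_small hτ0
  set P := max P₁ P₂ with hP
  obtain ⟨k₁, hk₁⟩ := hP₁ P (le_max_left _ _)
  have htot := hP₂ P (le_max_right _ _)
  set m : ℕ := P.factorial with hm
  have hm0 : 0 < m := Nat.factorial_pos P
  obtain ⟨A⟩ := exists_apx (S := m.primeFactors) (fun p hp => Nat.prime_of_mem_primeFactors hp)
    (ε := 1 / 2) (by norm_num)
  obtain ⟨k₂, hk₂⟩ := hrhs W hm0 (by norm_num : (0 : ℝ) < 1 / 2) A hδ₂0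
  obtain ⟨k₃, hk₃⟩ := exc_small P (η := η / 2) (by positivity)
  refine ⟨max 2 (max k₁ (max k₂ k₃)), fun k hk he ι _ F S hS => ?_⟩
  have hk2 : 2 ≤ k := le_trans (le_max_left _ _) hk
  have hkk : max k₁ (max k₂ k₃) ≤ k := le_trans (le_max_right _ _) hk
  have hkk1 : k₁ ≤ k := le_trans (le_max_left _ _) hkk
  have hkk2 : k₂ ≤ k := le_trans (le_max_left _ _) (le_trans (le_max_right _ _) hkk)
  have hkk3 : k₃ ≤ k := le_trans (le_max_right _ _) (le_trans (le_max_right _ _) hkk)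
  set c₀ : ℝ := -Real.log (k / (4 * Real.pi)) with hc₀
  set L₁ : (ℕ → ℂ) → ℂ := fun b => (∫ u, dm k b m u * hatw W.w (u + c₀)) / (gk k : ℂ) -
    (J : ℂ) * b 1 with hL₁
  set L₂ : (ℕ → ℂ) → ℂ := fun b => Yf A W.w m k b / (gk k : ℂ) with hL₂
  set M₂ : ℝ := C₁ * ((m.totient : ℝ) / m) * (1 + 1 / 2) ^ 2 * I2 + δ₂ with hM₂
  have hM₂0 : 0 ≤ M₂ := by positivity
  -- Bessel for `L₁`
  have hb1 : ∀ S' : Finset ι, ∑ i ∈ S', om k (F.a i) * ‖L₁ (F.c i)‖ ^ 2 ≤ δ₁ := by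
    refine B18_bessel hk2 F L₁ (fun c => ?_) hδ₁0.le (fun b hb => hk₁ k hkk1 he b hb)
    simp only [hL₁]
    rw [lhs_lin F W hm0 c₀ c, Finset.sum_div, Finset.mul_sum, ← Finset.sum_sub_distrib]
    refine Finset.sum_congr rfl fun i _ => ?_
    ring
  have hb2 : ∀ S' : Finset ι, ∑ i ∈ S', om k (F.a i) * ‖L₂ (F.c i)‖ ^ 2 ≤ M₂ := by
    refine B18_bessel hk2 F L₂ (fun c => ?_) hM₂0 (fun b hb => hk₂ k hkk2 he b hb)
    simp only [hL₂]
    rw [Yf_lin F W hm0 A c, Finset.sum_div]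
    refine Finset.sum_congr rfl fun i _ => ?_
    ring
  have hM₂le : 8 * M₂ ≤ η * J ^ 2 / 4 := by
    have h1 : C₁ * ((m.totient : ℝ) / m) * (1 + 1 / 2) ^ 2 * I2 ≤
        C₁ * τ * (1 + 1 / 2) ^ 2 * I2 := by
      gcongr
    have h2 : C₁ * τ * (1 + 1 / 2) ^ 2 * I2 ≤ η * J ^ 2 / 64 := by
      rw [hτ]
      have h3 : C₁ * (η * J ^ 2 / (144 * C₁ * (I2 + 1))) * (1 + 1 / 2) ^ 2 * I2 =
          η * J ^ 2 / 64 * (I2 / (I2 + 1)) := by
        field_simp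
        ring
      rw [h3]
      refine mul_le_of_le_one_right (by positivity) ?_
      rw [div_le_one (by positivity)]
      linarith
    rw [hM₂, hδ₂]
    linarith
  -- the good forms
  set S₁ : Finset ι := S.filter fun i => ∀ p ∈ m.primeFactors, |lam k (F.a i) p| ≤ 21 / 10
    with hS₁
  set S₂ : Finset ι := S.filter fun i => ¬ ∀ p ∈ m.primeFactors, |lam k (F.a i) p| ≤ 21 / 10
    with hS₂
  have hsplit : ∑ i ∈ S, om k (F.a i) = ∑ i ∈ S₁, om k (F.a i) + ∑ i ∈ S₂, om k (F.a i) :=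
    (Finset.sum_filter_add_sum_filter_not S _ _).symm
  have h2 : ∑ i ∈ S₂, om k (F.a i) ≤ η / 2 := by
    refine hk₃ k hkk3 he F S₂ fun i hi => ?_
    have h3 := (Finset.mem_filter.1 hi).2
    push Not at h3
    exact h3
  have hkey : ∀ i ∈ S₁, J ^ 2 ≤ 2 * ‖L₁ (F.c i)‖ ^ 2 + 8 * ‖L₂ (F.c i)‖ ^ 2 := by
    intro i hi
    obtain ⟨hiS, hbd⟩ := Finset.mem_filter.1 hi
    have h4 := key_weight (F.data i) W hm0 (by norm_num : (1 / 2 : ℝ) ≤ 1 / 2) A hbd (hS i hiS) c₀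
    rw [← transfer (F.data i) W hm0 A] at h4
    have hg : 0 < gk k := gk_pos (by omega)
    have h5 : ‖(∫ u, dm k (F.c i) m u * hatw W.w (u + c₀)) / (gk k : ℂ)‖ ≤ 2 * ‖L₂ (F.c i)‖ := by
      simp only [hL₂]
      rw [norm_div, norm_div, Complex.norm_real, Real.norm_of_nonneg hg.le, ← mul_div_assoc]
      exact div_le_div_of_nonneg_right h4 hg.le
    have h6 : F.c i 1 = 1 := by
      show ((F.a i 1 : ℝ) : ℂ) = 1
      rw [(F.data i).one]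
      simp
    have h7 : (J : ℂ) = (∫ u, dm k (F.c i) m u * hatw W.w (u + c₀)) / (gk k : ℂ) -
        L₁ (F.c i) := by
      simp only [hL₁]
      rw [h6]
      ring
    have h8 : J ≤ 2 * ‖L₂ (F.c i)‖ + ‖L₁ (F.c i)‖ := by
      calc J = ‖(J : ℂ)‖ := by rw [Complex.norm_real, Real.norm_of_nonneg hJ0.le]
        _ ≤ ‖(∫ u, dm k (F.c i) m u * hatw W.w (u + c₀)) / (gk k : ℂ)‖ + ‖L₁ (F.c i)‖ := by
            rw [h7]; exact norm_sub_le _ _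
        _ ≤ _ := by linarith
    have h9 : J ^ 2 ≤ (2 * ‖L₂ (F.c i)‖ + ‖L₁ (F.c i)‖) ^ 2 := pow_le_pow_left₀ hJ0.le h8 2
    nlinarith [sq_nonneg (2 * ‖L₂ (F.c i)‖ - ‖L₁ (F.c i)‖)]
  have h3 : ∑ i ∈ S₁, om k (F.a i) ≤ η / 2 := by
    have h4 : (∑ i ∈ S₁, om k (F.a i)) * J ^ 2 ≤ η * J ^ 2 / 2 := by
      calc (∑ i ∈ S₁, om k (F.a i)) * J ^ 2 = ∑ i ∈ S₁, om k (F.a i) * J ^ 2 := by
            rw [Finset.sum_mul]
        _ ≤ ∑ i ∈ S₁, (2 * (om k (F.a i) * ‖L₁ (F.c i)‖ ^ 2) +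
              8 * (om k (F.a i) * ‖L₂ (F.c i)‖ ^ 2)) := by
            refine Finset.sum_le_sum fun i hi => ?_
            have h5 := mul_le_mul_of_nonneg_left (hkey i hi) (om_pos hk2 (F.data i)).le
            linarith
        _ = 2 * ∑ i ∈ S₁, om k (F.a i) * ‖L₁ (F.c i)‖ ^ 2 +
              8 * ∑ i ∈ S₁, om k (F.a i) * ‖L₂ (F.c i)‖ ^ 2 := by
            rw [Finset.sum_add_distrib, Finset.mul_sum, Finset.mul_sum]
        _ ≤ 2 * δ₁ + 8 * M₂ := by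
            have := hb1 S₁
            have := hb2 S₁
            linarith
        _ ≤ η * J ^ 2 / 2 := by rw [hδ₁]; linarith [mul_pos hη (pow_pos hJ0 2)]
    have h5 : 0 < J ^ 2 := by positivity
    by_contra hcon
    have h6 : η / 2 * J ^ 2 < (∑ i ∈ S₁, om k (F.a i)) * J ^ 2 :=
      mul_lt_mul_of_pos_right (not_le.1 hcon) h5
    linarith
  linarith

end Pool.Agent.WA
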