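import Pool.Agent.Lib_helper98.WAF.B18
import Pool.Agent.Lib_helper68.GL2.FIN

/-! Block B19 (WIN): all windows. -/

namespace Pool.Agent.WA

open Complex MeasureTheory Filter Topology UpperHalfPlane
open scoped MatrixGroups
open Pool.Agent.GL2 (qs HData am dens hatw Ep Mol xt FD IsCompletedL oddZ)

theorem windows (T : ℝ) {h : ℝ} (hh : 0 < h) (K : ℕ) {η : ℝ} (hη : 0 < η) :
    ∃ k₀ : ℕ, ∀ k : ℕ, k₀ ≤ k → Even k → ∀ {ι : Type} [Fintype ι] (F : Fam k ι) (S : Finset ι),
      (∀ i ∈ S, GL2.Bad k (F.a i) T h K (1 : DirichletCharacter ℂ 1)) →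
        ∑ i ∈ S, om k (F.a i) ≤ η := by
  classical
  set g : ℝ := h / (K + 1) with hg
  have hg0 : 0 < g := by positivity
  set J : ℕ := ⌈2 * T / g⌉₊ + K + 1 with hJ
  have hJ0 : (0 : ℝ) < J := by rw [hJ]; positivity
  have hwin : ∀ j : ℕ, ∃ k₀ : ℕ, ∀ k : ℕ, k₀ ≤ k → Even k → ∀ {ι : Type} [Fintype ι]
      (F : Fam k ι) (S : Finset ι),
      (∀ i ∈ S, Ph1 k (F.a i) (-T + j * g) (-T + j * g + g)) →
        ∑ i ∈ S, om k (F.a i) ≤ η / J :=
    fun j => one_window (by linarith) (by positivity)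
  choose k₀ hk₀ using hwin
  refine ⟨2 + ∑ j ∈ Finset.range J, k₀ j, fun k hk he ι _ F S hS => ?_⟩
  have hk2 : 2 ≤ k := by omega
  have hc : ∀ i ∈ S, ∃ j ∈ Finset.range J, Ph1 k (F.a i) (-T + j * g) (-T + j * g + g) := by
    intro i hi
    obtain ⟨j, hj, hjz⟩ := GL2.fin_bad (F.data i) hh (hS i hi)
    exact ⟨j, hj, hjz.2⟩
  have hom : ∀ i, 0 ≤ om k (F.a i) := fun i => (om_pos hk2 (F.data i)).le
  calc ∑ i ∈ S, om k (F.a i)
      ≤ ∑ i ∈ S, ∑ j ∈ Finset.range J,
          (if Ph1 k (F.a i) (-T + j * g) (-T + j * g + g) then om k (F.a i) else 0) := by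
        refine Finset.sum_le_sum fun i hi => ?_
        obtain ⟨j, hj, hjz⟩ := hc i hi
        have h1 := Finset.single_le_sum (f := fun j : ℕ =>
          if Ph1 k (F.a i) (-T + j * g) (-T + j * g + g) then om k (F.a i) else 0)
          (fun j _ => by
            split_ifs
            · exact hom i
            · exact le_refl _) hj
        rwa [if_pos hjz] at h1
    _ = ∑ j ∈ Finset.range J,
          ∑ i ∈ S.filter fun i => Ph1 k (F.a i) (-T + j * g) (-T + j * g + g), om k (F.a i) := by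
        rw [Finset.sum_comm]
        refine Finset.sum_congr rfl fun j _ => ?_
        rw [Finset.sum_filter]
    _ ≤ ∑ j ∈ Finset.range J, η / J := by
        refine Finset.sum_le_sum fun j hj => hk₀ j k ?_ he F _ fun i hi =>
          (Finset.mem_filter.1 hi).2
        have := Finset.single_le_sum (f := k₀) (fun _ _ => Nat.zero_le _) hj
        omega
    _ = η := by
        rw [Finset.sum_const, Finset.card_range, nsmul_eq_mul]
        field_simp

end Pool.Agent.WA
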