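import Pool.Agent.Lib_helper98.WAF.B1b
import Pool.Agent.Lib_helper68.GL2.BAS

/-!
# Block B2 (STRIP, CF)
-/

namespace Pool.Agent.WA

open Complex MeasureTheory Filter Topology
open Pool.Agent.GL2 (qs HData FD HH bas_HH_continuous parseval_pr)

theorem B2_rho_int (k : ℕ) {n : ℕ} (hn : 1 ≤ n) :
    IntegrableOn (fun y : ℝ => y ^ (k - 2) * Real.exp (-4 * Real.pi * n * y)) (Set.Ioi 1) := by
  have hn' : (0 : ℝ) < n := by exact_mod_cast hn
  have ha : 0 < 4 * Real.pi * n := by positivity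
  have h2 := integrableOn_rpow_mul_exp_neg_mul_rpow (p := 1) (s := ((k - 2 : ℕ) : ℝ))
    (b := 4 * Real.pi * n) (by have : (0 : ℝ) ≤ ((k - 2 : ℕ) : ℝ) := Nat.cast_nonneg _
                               linarith) one_pos ha
  refine (h2.mono_set (Set.Ioi_subset_Ioi (zero_le_one' ℝ))).congr_fun (fun y _ => ?_)
    measurableSet_Ioi
  simp only [Real.rpow_one, Real.rpow_natCast]
  congr 2
  ring

theorem B2_rho_low (k : ℕ) {n : ℕ} (hn : 1 ≤ n) :
    Real.exp (-(4 * Real.pi * n)) / (4 * Real.pi * n) ≤ rho k n := by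
  have hn' : (0 : ℝ) < n := by exact_mod_cast hn
  have ha : 0 < 4 * Real.pi * n := by positivity
  have h1 : ∫ y in Set.Ioi (1 : ℝ), Real.exp (-(4 * Real.pi * n) * y) =
      Real.exp (-(4 * Real.pi * n)) / (4 * Real.pi * n) := by
    rw [integral_exp_mul_Ioi (by linarith)]
    rw [mul_one, neg_div_neg_eq]
  rw [← h1]
  unfold rho
  refine setIntegral_mono_on (integrableOn_exp_mul_Ioi (by linarith) 1) (B2_rho_int k hn)
    measurableSet_Ioi fun y hy => ?_
  have hy1 : (1 : ℝ) ≤ y := le_of_lt hy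
  have h2 : (1 : ℝ) ≤ y ^ (k - 2) := one_le_pow₀ hy1
  have h3 : Real.exp (-(4 * Real.pi * n) * y) = Real.exp (-4 * Real.pi * n * y) := by
    congr 1
    ring
  rw [h3]
  exact le_mul_of_one_le_left (Real.exp_pos _).le h2

theorem rho_pos {k n : ℕ} (_hk : 2 ≤ k) (hn : 1 ≤ n) : 0 < rho k n := by
  have hn' : (0 : ℝ) < n := by exact_mod_cast hn
  refine lt_of_lt_of_le ?_ (B2_rho_low k hn)
  positivity

theorem B2_rho_nonneg (k n : ℕ) : 0 ≤ rho k n := by
  unfold rho
  refine setIntegral_nonneg measurableSet_Ioi fun y hy => ?_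
  have : (0 : ℝ) < y := lt_trans one_pos hy
  positivity

/-- Parseval on the horizontal segment of height `y` -/
theorem B2_pars {k : ℕ} {b : ℕ → ℂ} (H : CForm k b) {y : ℝ} (hy : 0 < y) (N : ℕ) :
    ∑ n ∈ Finset.range N, ‖b n‖ ^ 2 * Real.exp (-4 * Real.pi * n * y) ≤
      ∫ x in Set.Ioo (-(1 / 2) : ℝ) (1 / 2), ‖qc b (x + y * Complex.I)‖ ^ 2 := by
  have hs := cf_summable H (y := 2 * Real.pi * y) (by positivity)
  set c : ℕ → ℂ := fun n => b n * (Real.exp (-(2 * Real.pi * y) * n) : ℝ) with hc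
  have hcn : ∀ n, ‖c n‖ = ‖b n‖ * Real.exp (-(2 * Real.pi * y) * n) := by
    intro n
    rw [hc]
    simp only
    rw [norm_mul, Complex.norm_real, Real.norm_of_nonneg (Real.exp_pos _).le]
  have hsc : Summable (fun n => ‖c n‖) := by
    simp_rw [hcn]
    exact hs
  have hsc2 : Summable (fun n => ‖c n‖ ^ 2) := by
    have hM : ∀ n, ‖c n‖ ≤ ∑' n, ‖c n‖ := fun n => hsc.le_tsum n (fun _ _ => norm_nonneg _)
    refine Summable.of_nonneg_of_le (fun n => by positivity) (fun n => ?_)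
      (hsc.mul_left (∑' n, ‖c n‖))
    rw [pow_two]
    exact mul_le_mul_of_nonneg_right (hM n) (norm_nonneg _)
  have hHH : ∀ θ : ℝ, HH c θ = qc b (θ + y * Complex.I) := by
    intro θ
    unfold HH qc
    refine tsum_congr fun n => ?_
    rw [hc]
    simp only
    rw [mul_assoc, Complex.ofReal_exp, ← Complex.exp_add]
    congr 2
    push_cast
    linear_combination (-2 * Real.pi * n * y : ℂ) * Complex.I_sq
  have hper : Function.Periodic (fun θ : ℝ => ‖HH c θ‖ ^ 2) 1 := by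
    intro θ
    simp only
    congr 2
    unfold HH
    refine tsum_congr fun n => ?_
    congr 1
    have h1 : 2 * Real.pi * Complex.I * n * ((θ + 1 : ℝ) : ℂ) =
        2 * Real.pi * Complex.I * n * (θ : ℂ) + n * (2 * Real.pi * Complex.I) := by
      push_cast
      ring
    rw [h1, Complex.exp_add, Complex.exp_nat_mul_two_pi_mul_I, mul_one]
  have hpar := parseval_pr c hsc
  have h1 : ∫ θ in (0 : ℝ)..1, ‖HH c θ‖ ^ 2 =
      ∫ x in Set.Ioo (-(1 / 2) : ℝ) (1 / 2), ‖qc b (x + y * Complex.I)‖ ^ 2 := by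
    have h2 := hper.intervalIntegral_add_eq 0 (-(1 / 2))
    rw [zero_add, show -(1 / 2 : ℝ) + 1 = 1 / 2 by norm_num] at h2
    rw [h2, intervalIntegral.integral_of_le (by norm_num), integral_Ioc_eq_integral_Ioo]
    refine setIntegral_congr_fun measurableSet_Ioo fun x _ => ?_
    rw [hHH]
  rw [← h1, ← hpar]
  refine le_trans (le_of_eq ?_) (hsc2.sum_le_tsum (Finset.range N) fun n _ => by positivity)
  refine Finset.sum_congr rfl fun n _ => ?_
  rw [hcn, mul_pow, ← Real.exp_nat_mul]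
  congr 2
  push_cast
  ring

/-- the strip -/
def B2_S : Set ℂ := {z : ℂ | (-(1 / 2) < z.re ∧ z.re < 1 / 2) ∧ 1 < z.im}

theorem B2_S_meas : MeasurableSet B2_S :=
  ((measurableSet_lt measurable_const Complex.measurable_re).inter
    (measurableSet_lt Complex.measurable_re measurable_const)).inter
      (measurableSet_lt measurable_const Complex.measurable_im)

theorem B2_S_sub : B2_S ⊆ FD := by
  rintro z ⟨⟨h1, h2⟩, h3⟩
  refine ⟨by linarith, ?_, abs_lt.mpr ⟨h1, h2⟩⟩
  have h4 := Complex.abs_im_le_norm z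
  have h5 := le_abs_self z.im
  linarith

theorem B2_part {k : ℕ} {b : ℕ → ℂ} (hk : 2 ≤ k) (H : CForm k b) (N : ℕ) :
    ∑ n ∈ Finset.range N, ‖b n‖ ^ 2 * rho k n ≤ pn k b := by
  set f : ℂ → ℝ := fun z => ‖qc b z‖ ^ 2 * z.im ^ k / z.im ^ 2 with hf
  have hint : IntegrableOn f FD := pn_int H
  have hintS : IntegrableOn f B2_S := hint.mono_set B2_S_sub
  have hfn : ∀ z : ℂ, 0 < z.im → 0 ≤ f z := by
    intro z hz
    rw [hf]
    simp only
    positivity
  have hFD : MeasurableSet FD := by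
    unfold FD
    refine (measurableSet_lt measurable_const Complex.measurable_im).inter
      ((measurableSet_lt measurable_const measurable_norm).inter
        (measurableSet_lt (Complex.measurable_re.abs) measurable_const))
  -- the integral over the strip
  have h1 : ∫ z in B2_S, f z ≤ pn k b := by
    unfold pn
    refine setIntegral_mono_set hint ?_ (LE.le.eventuallyLE B2_S_sub)
    exact (ae_restrict_iff' hFD).mpr (Eventually.of_forall fun z hz => hfn z hz.1)
  refine le_trans ?_ h1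
  -- Fubini
  have e0 : ∀ p : ℝ × ℝ, B2_S.indicator f (Complex.measurableEquivRealProd.symm p) =
      (Set.Ioo (-(1 / 2) : ℝ) (1 / 2) ×ˢ Set.Ioi (1 : ℝ)).indicator
        (fun p : ℝ × ℝ => ‖qc b (p.1 + p.2 * Complex.I)‖ ^ 2 * p.2 ^ (k - 2)) p := by
    rintro ⟨x, y⟩
    have e : Complex.measurableEquivRealProd.symm (x, y) = (⟨x, y⟩ : ℂ) := rfl
    rw [e]
    by_cases hp : ((-(1 / 2) < x ∧ x < 1 / 2) ∧ 1 < y)
    · have hy : 0 < y := by linarith [hp.2]
      rw [Set.indicator_of_mem (by exact hp), Set.indicator_of_mem (by exact hp)]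
      rw [hf]
      simp only
      have e2 : (⟨x, y⟩ : ℂ) = (x : ℂ) + y * Complex.I := by
        apply Complex.ext <;> simp
      rw [← e2, mul_div_assoc]
      congr 1
      rw [div_eq_iff (by positivity), ← pow_add]
      congr 1
      omega
    · rw [Set.indicator_of_notMem (by exact hp), Set.indicator_of_notMem (by exact hp)]
  have hmeas : MeasurableSet (Set.Ioo (-(1 / 2) : ℝ) (1 / 2) ×ˢ Set.Ioi (1 : ℝ)) :=
    measurableSet_Ioo.prod measurableSet_Ioi
  have hint2 : Integrable (fun p : ℝ × ℝ => ‖qc b (p.1 + p.2 * Complex.I)‖ ^ 2 * p.2 ^ (k - 2))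
      ((volume.restrict (Set.Ioo (-(1 / 2) : ℝ) (1 / 2))).prod
        (volume.restrict (Set.Ioi (1 : ℝ)))) := by
    have h2 : Integrable (B2_S.indicator f) := (integrable_indicator_iff B2_S_meas).mpr hintS
    have h3 : Integrable (fun p : ℝ × ℝ =>
        B2_S.indicator f (Complex.measurableEquivRealProd.symm p)) :=
      (Complex.volume_preserving_equiv_real_prod.symm.integrable_comp_emb
        (Complex.measurableEquivRealProd.symm.measurableEmbedding)).mpr h2
    simp_rw [e0] at h3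
    rw [Measure.prod_restrict, ← Measure.volume_eq_prod]
    exact (integrable_indicator_iff hmeas).mp h3
  have h2 : ∫ z in B2_S, f z = ∫ y in Set.Ioi (1 : ℝ),
      ∫ x in Set.Ioo (-(1 / 2) : ℝ) (1 / 2), ‖qc b (x + y * Complex.I)‖ ^ 2 * y ^ (k - 2) := by
    rw [← integral_indicator B2_S_meas,
      ← (Complex.volume_preserving_equiv_real_prod.symm).integral_comp']
    simp_rw [e0]
    rw [integral_indicator hmeas, Measure.volume_eq_prod, ← Measure.prod_restrict,
      integral_prod_symm _ hint2]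
  rw [h2]
  have h3 : ∀ n : ℕ, IntegrableOn (fun y : ℝ => ‖b n‖ ^ 2 *
      (y ^ (k - 2) * Real.exp (-4 * Real.pi * n * y))) (Set.Ioi 1) := by
    intro n
    rcases Nat.eq_zero_or_pos n with h0 | h0
    · subst h0
      simp only [H.zero, norm_zero]
      simp
    · exact (B2_rho_int k h0).const_mul _
  have h4 : ∑ n ∈ Finset.range N, ‖b n‖ ^ 2 * rho k n = ∫ y in Set.Ioi (1 : ℝ),
      ∑ n ∈ Finset.range N, ‖b n‖ ^ 2 * (y ^ (k - 2) * Real.exp (-4 * Real.pi * n * y)) := by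
    rw [integral_finsetSum _ fun n _ => h3 n]
    refine Finset.sum_congr rfl fun n _ => ?_
    rw [integral_const_mul]
    rfl
  rw [h4]
  refine setIntegral_mono_on (integrable_finsetSum _ fun n _ => h3 n) hint2.integral_prod_right
    measurableSet_Ioi fun y hy => ?_
  have hy0 : (0 : ℝ) < y := lt_trans one_pos hy
  rw [integral_mul_const]
  calc ∑ n ∈ Finset.range N, ‖b n‖ ^ 2 * (y ^ (k - 2) * Real.exp (-4 * Real.pi * n * y))
      = (∑ n ∈ Finset.range N, ‖b n‖ ^ 2 * Real.exp (-4 * Real.pi * n * y)) * y ^ (k - 2) := by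
        rw [Finset.sum_mul]
        refine Finset.sum_congr rfl fun n _ => ?_
        ring
    _ ≤ _ := mul_le_mul_of_nonneg_right (B2_pars H hy0 N) (by positivity)

theorem strip_le {k : ℕ} {b : ℕ → ℂ} (hk : 2 ≤ k) (H : CForm k b) :
    Summable (fun n : ℕ => ‖b n‖ ^ 2 * rho k n) ∧ ∑' n : ℕ, ‖b n‖ ^ 2 * rho k n ≤ pn k b := by
  have h0 : ∀ n : ℕ, 0 ≤ ‖b n‖ ^ 2 * rho k n := fun n =>
    mul_nonneg (by positivity) (B2_rho_nonneg k n)
  have h1 : Summable (fun n : ℕ => ‖b n‖ ^ 2 * rho k n) :=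
    summable_of_sum_range_le h0 (B2_part hk H)
  exact ⟨h1, h1.tsum_le_of_sum_range_le (B2_part hk H)⟩

theorem coef_bound {k : ℕ} {b : ℕ → ℂ} (hk : 2 ≤ k) (H : CForm k b) {t : ℕ → ℂ}
    (ht : Summable (fun n : ℕ => ‖t n‖ ^ 2 / rho k n)) :
    Summable (fun n : ℕ => ‖b n * t n‖) ∧
      ‖∑' n : ℕ, b n * t n‖ ^ 2 ≤ (∑' n : ℕ, ‖t n‖ ^ 2 / rho k n) * pn k b := by
  obtain ⟨hs, hle⟩ := strip_le hk H
  have hr0 := B2_rho_nonneg k
  have hT0 : 0 ≤ ∑' n : ℕ, ‖t n‖ ^ 2 / rho k n :=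
    tsum_nonneg fun n => div_nonneg (by positivity) (hr0 n)
  have hpn : 0 ≤ pn k b := pn_nonneg k b
  set T := ∑' n : ℕ, ‖t n‖ ^ 2 / rho k n with hT
  have hpart : ∀ N : ℕ, ∑ n ∈ Finset.range N, ‖b n * t n‖ ≤ Real.sqrt (T * pn k b) := by
    intro N
    refine Real.le_sqrt_of_sq_le ?_
    have h1 := Finset.sum_sq_le_sum_mul_sum_of_sq_le_mul (Finset.range N)
      (r := fun n => ‖b n * t n‖) (f := fun n => ‖t n‖ ^ 2 / rho k n)
      (g := fun n => ‖b n‖ ^ 2 * rho k n)
      (fun n _ => div_nonneg (by positivity) (hr0 n))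
      (fun n _ => mul_nonneg (by positivity) (hr0 n))
      (fun n _ => le_of_eq <| by
        rcases Nat.eq_zero_or_pos n with h0 | h0
        · subst h0
          simp [H.zero]
        · have h2 := (rho_pos hk h0).ne'
          rw [norm_mul, mul_pow]
          field_simp)
    refine h1.trans ?_
    refine mul_le_mul ?_ ?_ ?_ hT0
    · exact ht.sum_le_tsum _ fun n _ => div_nonneg (by positivity) (hr0 n)
    · exact (hs.sum_le_tsum _ fun n _ => mul_nonneg (by positivity) (hr0 n)).trans hle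
    · exact Finset.sum_nonneg fun n _ => mul_nonneg (by positivity) (hr0 n)
  have hsum : Summable (fun n : ℕ => ‖b n * t n‖) :=
    summable_of_sum_range_le (fun n => norm_nonneg _) hpart
  refine ⟨hsum, ?_⟩
  have h1 : ‖∑' n : ℕ, b n * t n‖ ≤ Real.sqrt (T * pn k b) :=
    (norm_tsum_le_tsum_norm hsum).trans (hsum.tsum_le_of_sum_range_le hpart)
  calc ‖∑' n : ℕ, b n * t n‖ ^ 2 ≤ Real.sqrt (T * pn k b) ^ 2 :=
        pow_le_pow_left₀ (norm_nonneg _) h1 2
    _ = T * pn k b := Real.sq_sqrt (mul_nonneg hT0 hpn)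

theorem pn_pos {k : ℕ} {b : ℕ → ℂ} (hk : 2 ≤ k) (H : CForm k b) (h1 : b 1 ≠ 0) :
    0 < pn k b := by
  obtain ⟨hs, hle⟩ := strip_le hk H
  have h2 : ‖b 1‖ ^ 2 * rho k 1 ≤ ∑' n : ℕ, ‖b n‖ ^ 2 * rho k n :=
    hs.le_tsum 1 fun n _ => mul_nonneg (by positivity) (B2_rho_nonneg k n)
  have h3 := rho_pos hk (le_refl 1)
  have h4 : 0 < ‖b 1‖ := norm_pos_iff.mpr h1
  have h5 : 0 < ‖b 1‖ ^ 2 * rho k 1 := by positivity
  linarith

end Pool.Agent.WA
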