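import Pool.Agent.Lib_helper98.WAF.B2

/-! Block B3: orthogonal families and the dual Bessel inequality. -/

namespace Pool.Agent.WA

open Complex MeasureTheory Filter Topology UpperHalfPlane
open scoped MatrixGroups ENNReal
open Pool.Agent.GL2 (qs HData am dens hatw Ep Mol xt FD IsCompletedL oddZ)

theorem b3_open : IsOpen FD := by
  have h1 : IsOpen {z : ℂ | 0 < z.im} := isOpen_lt continuous_const Complex.continuous_im
  have h2 : IsOpen {z : ℂ | 1 < ‖z‖} := isOpen_lt continuous_const continuous_norm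
  have h3 : IsOpen {z : ℂ | |z.re| < 1 / 2} :=
    isOpen_lt (continuous_abs.comp Complex.continuous_re) continuous_const
  exact h1.inter (h2.inter h3)

theorem b3_im {z : ℂ} (hz : z ∈ FD) : 0 < z.im := hz.1

theorem b3_cont {k : ℕ} {b : ℕ → ℂ} (H : CForm k b) : ContinuousOn (qc b) FD :=
  (cf_holo H).continuousOn.mono (fun _ hz => b3_im hz)

theorem b3_prod_int {k : ℕ} {b b' : ℕ → ℂ} (H : CForm k b) (H' : CForm k b') :
    IntegrableOn (fun z : ℂ => qc b z * starRingEnd ℂ (qc b' z) *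
      ((z.im ^ k / z.im ^ 2 : ℝ) : ℂ)) FD := by
  have h1 := pn_int H
  have h2 := pn_int H'
  have h3 := h1.add h2
  refine Integrable.mono' h3 ?_ ?_
  · refine ContinuousOn.aestronglyMeasurable ?_ b3_open.measurableSet
    refine ContinuousOn.mul (ContinuousOn.mul (b3_cont H) ?_) ?_
    · exact (Complex.continuous_conj.comp_continuousOn (b3_cont H'))
    · refine Complex.continuous_ofReal.comp_continuousOn ?_
      refine ContinuousOn.div (by fun_prop) (by fun_prop) ?_
      intro z hz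
      have := b3_im hz
      positivity
  · refine (ae_restrict_iff' b3_open.measurableSet).mpr (Filter.Eventually.of_forall ?_)
    intro z hz
    have hz0 := b3_im hz
    rw [norm_mul, norm_mul, RCLike.norm_conj, Complex.norm_real, Real.norm_eq_abs,
      abs_of_nonneg (by positivity)]
    simp only [Pi.add_apply]
    have h4 : ‖qc b z‖ * ‖qc b' z‖ ≤ ‖qc b z‖ ^ 2 + ‖qc b' z‖ ^ 2 := by
      nlinarith [sq_nonneg (‖qc b z‖ - ‖qc b' z‖), norm_nonneg (qc b z), norm_nonneg (qc b' z),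
        mul_nonneg (norm_nonneg (qc b z)) (norm_nonneg (qc b' z))]
    have h5 : (0 : ℝ) ≤ z.im ^ k / z.im ^ 2 := by positivity
    calc ‖qc b z‖ * ‖qc b' z‖ * (z.im ^ k / z.im ^ 2)
        ≤ (‖qc b z‖ ^ 2 + ‖qc b' z‖ ^ 2) * (z.im ^ k / z.im ^ 2) :=
          mul_le_mul_of_nonneg_right h4 h5
      _ = _ := by ring

theorem b3_pn_ofReal {k : ℕ} {b : ℕ → ℂ} :
    ((pn k b : ℝ) : ℂ) = ∫ z in FD, qc b z * starRingEnd ℂ (qc b z) *
      ((z.im ^ k / z.im ^ 2 : ℝ) : ℂ) := by
  rw [pn, ← integral_complex_ofReal]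
  congr 1
  funext z
  rw [Complex.mul_conj, Complex.normSq_eq_norm_sq]
  push_cast
  ring

theorem pn_fam {k : ℕ} {ι : Type} [Fintype ι] (F : Fam k ι) (c : ι → ℂ) :
    pn k (fun n => ∑ i, c i * F.c i n) = ∑ i, ‖c i‖ ^ 2 * pn k (F.c i) := by
  classical
  have hC : ∀ i, CForm k (F.c i) := fun i => cf_of_hdata (F.data i)
  have h1 : ((pn k (fun n => ∑ i, c i * F.c i n) : ℝ) : ℂ) =
      ((∑ i, ‖c i‖ ^ 2 * pn k (F.c i) : ℝ) : ℂ) := by
    rw [b3_pn_ofReal]
    have h2 : ∫ z in FD, qc (fun n => ∑ i, c i * F.c i n) z *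
        starRingEnd ℂ (qc (fun n => ∑ i, c i * F.c i n) z) * ((z.im ^ k / z.im ^ 2 : ℝ) : ℂ) =
        ∫ z in FD, ∑ i, ∑ j, (c i * starRingEnd ℂ (c j)) * (qc (F.c i) z *
          starRingEnd ℂ (qc (F.c j) z) * ((z.im ^ k / z.im ^ 2 : ℝ) : ℂ)) := by
      refine setIntegral_congr_fun b3_open.measurableSet ?_
      intro z hz
      simp only
      rw [qc_comb hC c (b3_im hz), map_sum, Finset.sum_mul_sum, Finset.sum_mul]
      refine Finset.sum_congr rfl (fun i _ => ?_)
      rw [Finset.sum_mul]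
      refine Finset.sum_congr rfl (fun j _ => ?_)
      rw [map_mul]
      ring
    rw [h2]
    have hi : ∀ i j, Integrable (fun z : ℂ => (c i * starRingEnd ℂ (c j)) * (qc (F.c i) z *
          starRingEnd ℂ (qc (F.c j) z) * ((z.im ^ k / z.im ^ 2 : ℝ) : ℂ)))
          (volume.restrict FD) := fun i j => (b3_prod_int (hC i) (hC j)).const_mul _
    rw [integral_finsetSum _ (fun i _ => integrable_finsetSum _ (fun j _ => hi i j)),
      Complex.ofReal_sum]
    refine Finset.sum_congr rfl (fun i _ => ?_)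
    rw [integral_finsetSum _ (fun j _ => hi i j)]
    rw [Finset.sum_eq_single i]
    · rw [integral_const_mul, ← b3_pn_ofReal, Complex.mul_conj, Complex.normSq_eq_norm_sq]
      push_cast
      ring
    · intro j _ hj
      rw [integral_const_mul]
      have := F.orth i j (Ne.symm hj)
      have h3 : ∫ z in FD, qc (F.c i) z * starRingEnd ℂ (qc (F.c j) z) *
          ((z.im ^ k / z.im ^ 2 : ℝ) : ℂ) = 0 := this
      rw [h3, mul_zero]
    · intro h
      exact absurd (Finset.mem_univ i) h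
  exact_mod_cast h1

theorem bessel {k : ℕ} (hk : 2 ≤ k) {ι : Type} [Fintype ι] (F : Fam k ι) (L : (ℕ → ℂ) → ℂ)
    (hL : ∀ c : ι → ℂ, L (fun n => ∑ i, c i * F.c i n) = ∑ i, c i * L (F.c i))
    {M : ℝ} (hM0 : 0 ≤ M) (hM : ∀ b, CForm k b → ‖L b‖ ^ 2 ≤ M * pn k b) :
    ∑ i, ‖L (F.c i)‖ ^ 2 / pn k (F.c i) ≤ M := by
  classical
  have hC : ∀ i, CForm k (F.c i) := fun i => cf_of_hdata (F.data i)
  have hp : ∀ i, 0 < pn k (F.c i) := by
    intro i
    refine pn_pos hk (hC i) ?_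
    change ((F.a i 1 : ℝ) : ℂ) ≠ 0
    rw [(F.data i).one]
    simp
  set S : ℝ := ∑ i, ‖L (F.c i)‖ ^ 2 / pn k (F.c i) with hS
  have hS0 : 0 ≤ S := Finset.sum_nonneg (fun i _ => div_nonneg (sq_nonneg _) (hp i).le)
  let c : ι → ℂ := fun i => starRingEnd ℂ (L (F.c i)) / (pn k (F.c i) : ℂ)
  have h1 : L (fun n => ∑ i, c i * F.c i n) = (S : ℂ) := by
    rw [hL c, hS]
    push_cast
    refine Finset.sum_congr rfl (fun i _ => ?_)
    change starRingEnd ℂ (L (F.c i)) / (pn k (F.c i) : ℂ) * L (F.c i) = _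
    rw [div_mul_eq_mul_div, mul_comm (starRingEnd ℂ (L (F.c i))), Complex.mul_conj,
      Complex.normSq_eq_norm_sq]
    push_cast
    rfl
  have h2 : pn k (fun n => ∑ i, c i * F.c i n) = S := by
    rw [pn_fam, hS]
    refine Finset.sum_congr rfl (fun i _ => ?_)
    change ‖starRingEnd ℂ (L (F.c i)) / (pn k (F.c i) : ℂ)‖ ^ 2 * _ = _
    rw [norm_div, RCLike.norm_conj, Complex.norm_real, Real.norm_eq_abs, abs_of_pos (hp i)]
    have := (hp i).ne'
    field_simp
  have h3 := hM _ (cf_comb hC c)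
  rw [h1, h2, Complex.norm_real, Real.norm_eq_abs, abs_of_nonneg hS0] at h3
  rcases eq_or_lt_of_le hS0 with h | h
  · rw [← h]; exact hM0
  · nlinarith

end Pool.Agent.WA
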