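import Pool.Agent.Lib_helper98.WA.Defs

/-!
# Block B5b (GT): tails
-/

namespace Pool.Agent.WA

open Complex MeasureTheory Filter Topology

theorem B5b_log12 : Real.log 12 ≤ 3 := by
  rw [Real.log_le_iff_le_exp (by norm_num)]
  have h1 : (2.7 : ℝ) ≤ Real.exp 1 := by
    have := Real.exp_one_gt_d9
    linarith
  have h2 : Real.exp 3 = Real.exp 1 ^ 3 := by
    rw [← Real.exp_nat_mul]
    norm_num
  rw [h2]
  calc (12 : ℝ) ≤ 2.7 ^ 3 := by norm_num
    _ ≤ Real.exp 1 ^ 3 := pow_le_pow_left₀ (by norm_num) h1 3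

theorem B5b_gd_le {k n : ℕ} (h : (k : ℝ) < 8 * Real.pi * n) {u : ℝ} (hu : Real.log 12 < u) :
    gd k n u ≤ Real.exp ((k : ℝ) * 3 / 2 - 24 * Real.pi * n) *
      Real.exp (-(20 * Real.pi * n) * (u - Real.log 12)) := by
  unfold gd
  rw [← Real.exp_add]
  apply Real.exp_le_exp.mpr
  have h1 : 12 * (1 + (u - Real.log 12)) ≤ Real.exp u := by
    have h2 : Real.exp u = 12 * Real.exp (u - Real.log 12) := by
      rw [Real.exp_sub, Real.exp_log (by norm_num)]
      field_simp
    rw [h2]
    have := Real.add_one_le_exp (u - Real.log 12)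
    linarith
  have hpn : 0 ≤ Real.pi * n := by positivity
  have h2 : 2 * Real.pi * n * (12 * (1 + (u - Real.log 12))) ≤ 2 * Real.pi * n * Real.exp u :=
    mul_le_mul_of_nonneg_left h1 (by positivity)
  have h3 : (k : ℝ) / 2 * (u - Real.log 12) ≤ 4 * Real.pi * n * (u - Real.log 12) :=
    mul_le_mul_of_nonneg_right (by linarith) (by linarith)
  have h4 : (k : ℝ) / 2 * Real.log 12 ≤ (k : ℝ) / 2 * 3 :=
    mul_le_mul_of_nonneg_left B5b_log12 (by positivity)
  nlinarith

theorem B5b_rho_low {k n : ℕ} (hn : 1 ≤ n) :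
    Real.exp (-(4 * Real.pi * n)) / (4 * Real.pi * n) ≤ rho k n := by
  have hn' : (0 : ℝ) < n := by exact_mod_cast hn
  have ha : 0 < 4 * Real.pi * n := by positivity
  have h1 : ∫ y in Set.Ioi (1 : ℝ), Real.exp (-(4 * Real.pi * n) * y) =
      Real.exp (-(4 * Real.pi * n)) / (4 * Real.pi * n) := by
    rw [integral_exp_mul_Ioi (by linarith)]
    rw [mul_one, neg_div_neg_eq]
  rw [← h1]
  unfold rho
  refine setIntegral_mono_on (integrableOn_exp_mul_Ioi (by linarith) 1) ?_ measurableSet_Ioi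
    fun y hy => ?_
  · have h2 := integrableOn_rpow_mul_exp_neg_mul_rpow (p := 1) (s := ((k - 2 : ℕ) : ℝ))
      (b := 4 * Real.pi * n) (by have : (0 : ℝ) ≤ ((k - 2 : ℕ) : ℝ) := Nat.cast_nonneg _
                                 linarith) one_pos ha
    refine (h2.mono_set (Set.Ioi_subset_Ioi (zero_le_one' ℝ))).congr_fun (fun y _ => ?_)
      measurableSet_Ioi
    simp only [Real.rpow_one, Real.rpow_natCast]
    congr 2
    ring
  · have hy1 : (1 : ℝ) ≤ y := le_of_lt hy
    have h2 : (1 : ℝ) ≤ y ^ (k - 2) := one_le_pow₀ hy1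
    have h3 : Real.exp (-(4 * Real.pi * n) * y) = Real.exp (-4 * Real.pi * n * y) := by
      congr 1
      ring
    rw [h3]
    exact le_mul_of_one_le_left (Real.exp_pos _).le h2

theorem gd_tail : ∃ k₀ : ℕ, ∀ k : ℕ, k₀ ≤ k → ∀ n : ℕ, (k : ℝ) < 8 * Real.pi * n →
    (∫ u in Set.Ioi (Real.log 12), gd k n u) ^ 2 ≤ rho k n * Real.exp (-(k : ℝ) - n) := by
  refine ⟨0, fun k _ n h => ?_⟩
  have hn : 1 ≤ n := by
    rcases Nat.eq_zero_or_pos n with h0 | h0
    · subst h0
      simp only [Nat.cast_zero, mul_zero] at h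
      exact absurd h (not_lt.mpr (Nat.cast_nonneg k))
    · exact h0
  have hn' : (1 : ℝ) ≤ n := by exact_mod_cast hn
  have hpi := Real.pi_gt_three
  have ha : 0 < 20 * Real.pi * n := by positivity
  have hshift : ∀ u : ℝ, Real.exp (-(20 * Real.pi * n) * (u - Real.log 12)) =
      Real.exp (20 * Real.pi * n * Real.log 12) * Real.exp (-(20 * Real.pi * n) * u) := by
    intro u
    rw [← Real.exp_add]
    congr 1
    ring
  have hint : IntegrableOn (fun u : ℝ => Real.exp ((k : ℝ) * 3 / 2 - 24 * Real.pi * n) *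
      Real.exp (-(20 * Real.pi * n) * (u - Real.log 12))) (Set.Ioi (Real.log 12)) := by
    simp only [hshift]
    exact ((integrableOn_exp_mul_Ioi (a := -(20 * Real.pi * n)) (by linarith) _).const_mul
      _).const_mul _
  have h0 : 0 ≤ ∫ u in Set.Ioi (Real.log 12), gd k n u :=
    integral_nonneg fun u => (Real.exp_pos _).le
  have h1 : ∫ u in Set.Ioi (Real.log 12), gd k n u ≤
      Real.exp ((k : ℝ) * 3 / 2 - 24 * Real.pi * n) := by
    calc ∫ u in Set.Ioi (Real.log 12), gd k n u ≤ ∫ u in Set.Ioi (Real.log 12),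
          Real.exp ((k : ℝ) * 3 / 2 - 24 * Real.pi * n) *
            Real.exp (-(20 * Real.pi * n) * (u - Real.log 12)) := by
          refine setIntegral_mono_on ?_ hint measurableSet_Ioi fun u hu => B5b_gd_le h hu
          refine hint.mono' ?_ ?_
          · have : Continuous (gd k n) := by
              unfold gd
              fun_prop
            exact this.aestronglyMeasurable
          · refine (ae_restrict_iff' measurableSet_Ioi).mpr (Eventually.of_forall fun u hu => ?_)
            rw [Real.norm_of_nonneg (show 0 ≤ gd k n u from (Real.exp_pos _).le)]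
            exact B5b_gd_le h hu
      _ = Real.exp ((k : ℝ) * 3 / 2 - 24 * Real.pi * n) * (1 / (20 * Real.pi * n)) := by
          rw [integral_const_mul]
          congr 1
          simp only [hshift]
          rw [integral_const_mul, integral_exp_mul_Ioi (by linarith), neg_div_neg_eq,
            ← mul_div_assoc, ← Real.exp_add]
          congr 1
          rw [show 20 * Real.pi * n * Real.log 12 + -(20 * Real.pi * n) * Real.log 12 = 0 by ring,
            Real.exp_zero]
      _ ≤ Real.exp ((k : ℝ) * 3 / 2 - 24 * Real.pi * n) * 1 := by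
          refine mul_le_mul_of_nonneg_left ?_ (Real.exp_pos _).le
          rw [div_le_one ha]
          nlinarith
      _ = _ := mul_one _
  have h2 : (∫ u in Set.Ioi (Real.log 12), gd k n u) ^ 2 ≤
      Real.exp ((k : ℝ) * 3 - 48 * Real.pi * n) := by
    calc (∫ u in Set.Ioi (Real.log 12), gd k n u) ^ 2 ≤
        Real.exp ((k : ℝ) * 3 / 2 - 24 * Real.pi * n) ^ 2 := pow_le_pow_left₀ h0 h1 2
      _ = _ := by
        rw [← Real.exp_nat_mul]
        congr 1
        push_cast
        ring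
  refine h2.trans ?_
  have h3 := B5b_rho_low (k := k) hn
  have h4 : Real.exp (-(8 * Real.pi * n)) ≤ Real.exp (-(4 * Real.pi * n)) / (4 * Real.pi * n) := by
    rw [le_div_iff₀ (by positivity)]
    have h5 : 4 * Real.pi * n ≤ Real.exp (4 * Real.pi * n) := by
      have := Real.add_one_le_exp (4 * Real.pi * n)
      linarith
    calc Real.exp (-(8 * Real.pi * n)) * (4 * Real.pi * n)
        ≤ Real.exp (-(8 * Real.pi * n)) * Real.exp (4 * Real.pi * n) :=
          mul_le_mul_of_nonneg_left h5 (Real.exp_pos _).le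
      _ = Real.exp (-(4 * Real.pi * n)) := by
          rw [← Real.exp_add]
          congr 1
          ring
  calc Real.exp ((k : ℝ) * 3 - 48 * Real.pi * n)
      ≤ Real.exp (-(8 * Real.pi * n)) * Real.exp (-(k : ℝ) - n) := by
        rw [← Real.exp_add]
        apply Real.exp_le_exp.mpr
        nlinarith
    _ ≤ rho k n * Real.exp (-(k : ℝ) - n) :=
        mul_le_mul_of_nonneg_right (h4.trans h3) (Real.exp_pos _).le

theorem B5b_term {c : ℝ} (hc : 0 < c) {n : ℕ} (hn : 1 ≤ n) :
    1 / (n : ℝ) / (1 + Real.log (c / n) ^ 2) ≤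
      6 * (Real.arctan (Real.log (c / n)) - Real.arctan (Real.log (c / ((n + 1 : ℕ) : ℝ)))) := by
  have hn' : (0 : ℝ) < n := by exact_mod_cast hn
  have hn1 : (1 : ℝ) ≤ n := by exact_mod_cast hn
  set x := Real.log (c / n) with hx
  set y := Real.log (c / ((n + 1 : ℕ) : ℝ)) with hy
  have hxy : x - y = Real.log (1 + 1 / n) := by
    rw [hx, hy, Real.log_div hc.ne' hn'.ne', Real.log_div hc.ne' (by positivity)]
    have h1 : (1 + 1 / (n : ℝ)) = ((n + 1 : ℕ) : ℝ) / n := by
      push_cast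
      field_simp
    rw [h1, Real.log_div (by positivity) hn'.ne']
    ring
  have hlow : 1 / (2 * (n : ℝ)) ≤ x - y := by
    rw [hxy, Real.le_log_iff_exp_le (by positivity)]
    have h1 : 0 ≤ 1 - 1 / (2 * (n : ℝ)) := by
      have : 1 / (2 * (n : ℝ)) ≤ 1 := by
        rw [div_le_one (by positivity)]
        linarith
      linarith
    have h2 := Real.exp_bound_div_one_sub_of_interval (x := 1 / (2 * (n : ℝ))) (by positivity) (by
      rw [div_lt_one (by positivity)]
      linarith)
    refine h2.trans ?_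
    rw [div_le_iff₀]
    · have h3 : (1 + 1 / (n : ℝ)) * (1 - 1 / (2 * (n : ℝ))) =
          1 + (1 / (2 * (n : ℝ))) * (1 - 1 / n) := by
        field_simp
        ring
      rw [h3]
      have h4 : 0 ≤ 1 - 1 / (n : ℝ) := by
        have : 1 / (n : ℝ) ≤ 1 := by
          rw [div_le_one hn']
          exact hn1
        linarith
      have : 0 ≤ (1 / (2 * (n : ℝ))) * (1 - 1 / n) := by positivity
      linarith
    · have : 1 / (2 * (n : ℝ)) < 1 := by
        rw [div_lt_one (by positivity)]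
        linarith
      linarith
  have hup : x - y ≤ 1 := by
    rw [hxy]
    have h1 := Real.log_le_sub_one_of_pos (show 0 < 1 + 1 / (n : ℝ) by positivity)
    have h2 : 1 / (n : ℝ) ≤ 1 := by
      rw [div_le_one hn']
      exact hn1
    linarith
  have hup' : x - y ≤ 7 / 10 := by
    rw [hxy]
    have h2 : 1 / (n : ℝ) ≤ 1 := by
      rw [div_le_one hn']
      exact hn1
    calc Real.log (1 + 1 / n) ≤ Real.log 2 := Real.log_le_log (by positivity) (by linarith)
      _ ≤ 7 / 10 := by
        have := Real.log_two_lt_d9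
        linarith
  have hlt : y < x := by
    have : 0 < 1 / (2 * (n : ℝ)) := by positivity
    linarith
  obtain ⟨z, hz, hz2⟩ := exists_hasDerivAt_eq_slope Real.arctan (fun z => 1 / (1 + z ^ 2)) hlt
    Real.continuous_arctan.continuousOn (fun z _ => Real.hasDerivAt_arctan z)
  have hz3 : Real.arctan x - Real.arctan y = 1 / (1 + z ^ 2) * (x - y) := by
    have h1 : x - y ≠ 0 := by linarith [hlt]
    rw [eq_div_iff h1] at hz2
    exact hz2.symm
  rw [hz3]
  have hzx : (x - z) ^ 2 ≤ 49 / 100 := by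
    have h1 := hz.1
    have h2 := hz.2
    nlinarith
  have hz4 : 1 + z ^ 2 ≤ 3 * (1 + x ^ 2) := by
    nlinarith [sq_nonneg (x + z), sq_nonneg (x - z), sq_nonneg (2 * x - z), sq_nonneg x]
  have hz5 : 1 / (3 * (1 + x ^ 2)) ≤ 1 / (1 + z ^ 2) :=
    one_div_le_one_div_of_le (by positivity) hz4
  calc 1 / (n : ℝ) / (1 + x ^ 2) = 6 * (1 / (3 * (1 + x ^ 2)) * (1 / (2 * (n : ℝ)))) := by
        field_simp
        norm_num
    _ ≤ 6 * (1 / (1 + z ^ 2) * (x - y)) := by
        refine mul_le_mul_of_nonneg_left ?_ (by norm_num)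
        exact mul_le_mul hz5 hlow (by positivity) (by positivity)

theorem B5b_tele {c : ℝ} (hc : 0 < c) (P N : ℕ) (h : P ≤ N) :
    ∑ n ∈ Finset.Icc (P + 1) N, 1 / (n : ℝ) / (1 + Real.log (c / n) ^ 2) ≤
      6 * (Real.arctan (Real.log (c / ((P + 1 : ℕ) : ℝ))) -
        Real.arctan (Real.log (c / ((N + 1 : ℕ) : ℝ)))) := by
  induction N, h using Nat.le_induction with
  | base => simp
  | succ N hN ih =>
    rw [Finset.sum_Icc_succ_top (by omega)]
    have h1 := B5b_term hc (n := N + 1) (by omega)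
    linarith

theorem log_sum {c : ℝ} (hc : 0 < c) (N : ℕ) :
    ∑ n ∈ Finset.Icc 1 N, 1 / (n : ℝ) / (1 + Real.log (c / n) ^ 2) ≤ 30 := by
  have h1 := B5b_tele hc 0 N (Nat.zero_le N)
  rw [Nat.zero_add] at h1
  refine h1.trans ?_
  have h2 := Real.arctan_lt_pi_div_two (Real.log (c / ((1 : ℕ) : ℝ)))
  have h3 := Real.neg_pi_div_two_lt_arctan (Real.log (c / ((N + 1 : ℕ) : ℝ)))
  have h4 := Real.pi_lt_d2
  linarith

theorem log_tail {δ : ℝ} (hδ : 0 < δ) : ∃ P₀ : ℕ, ∀ N : ℕ,
    ∑ n ∈ Finset.Icc (P₀ + 1) N, 1 / (n : ℝ) / (1 + Real.log n ^ 2) ≤ δ := by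
  have h1 : Tendsto (fun P : ℕ => 6 * (Real.pi / 2 - Real.arctan (Real.log ((P + 1 : ℕ) : ℝ))))
      atTop (𝓝 (6 * (Real.pi / 2 - Real.pi / 2))) := by
    refine Tendsto.const_mul _ (Tendsto.const_sub _ ?_)
    have h2 : Tendsto (fun P : ℕ => Real.log ((P + 1 : ℕ) : ℝ)) atTop atTop :=
      Real.tendsto_log_atTop.comp (tendsto_natCast_atTop_atTop.comp (tendsto_add_atTop_nat 1))
    exact (Real.tendsto_arctan_atTop.mono_right nhdsWithin_le_nhds).comp h2
  rw [sub_self, mul_zero] at h1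
  obtain ⟨P₀, hP⟩ := (h1.eventually (gt_mem_nhds hδ)).exists
  refine ⟨P₀, fun N => ?_⟩
  rcases lt_or_ge N P₀ with h | h
  · rw [Finset.Icc_eq_empty (by omega), Finset.sum_empty]
    exact hδ.le
  · have h2 := B5b_tele one_pos P₀ N h
    have h3 : ∑ n ∈ Finset.Icc (P₀ + 1) N, 1 / (n : ℝ) / (1 + Real.log n ^ 2) =
        ∑ n ∈ Finset.Icc (P₀ + 1) N, 1 / (n : ℝ) / (1 + Real.log (1 / n) ^ 2) := by
      refine Finset.sum_congr rfl fun n _ => ?_
      rw [one_div (n : ℝ), Real.log_inv, neg_sq]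
    rw [h3]
    refine h2.trans (le_trans ?_ hP.le)
    rw [one_div, Real.log_inv, Real.arctan_neg, one_div, Real.log_inv, Real.arctan_neg]
    have h4 := Real.arctan_lt_pi_div_two (Real.log ((N + 1 : ℕ) : ℝ))
    linarith

end Pool.Agent.WA
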