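import Pool.Agent.Lib_helper98.WAF.B4
import Pool.Agent.Lib_helper98.WAF.B5a
import Pool.Agent.Lib_helper98.WAF.B5b

/-! Block B6 (TAILP): the tail at the cusp `∞`. -/

namespace Pool.Agent.WA

open Complex MeasureTheory Filter Topology UpperHalfPlane ModularGroup
open scoped MatrixGroups Modular ENNReal
open Pool.Agent.GL2 (qs HData am dens hatw Ep Mol xt FD IsCompletedL oddZ)

theorem B6_gd_nonneg (k n : ℕ) (u : ℝ) : 0 ≤ gd k n u := (Real.exp_pos _).le

theorem B6_Pint {Ψ : ℝ → ℂ} (hm : Measurable Ψ) (hb : ∀ u, ‖Ψ u‖ ≤ 1 / (1 + u ^ 2)) {g : ℝ → ℝ}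
    (hg : Integrable g) : Integrable (fun u => ‖Ψ u‖ * g u) := by
  refine (hg.bdd_mul (c := 1) hm.norm.aestronglyMeasurable
    (Filter.Eventually.of_forall fun u => ?_))
  rw [norm_norm]
  refine (hb u).trans ?_
  rw [div_le_one (by positivity)]
  nlinarith [sq_nonneg u]

theorem B6_cs {f g : ℝ → ℝ} (hg0 : ∀ u, 0 ≤ g u) (hg : Integrable g)
    (hfg : Integrable (fun u => f u * g u)) (hffg : Integrable (fun u => f u ^ 2 * g u)) :
    (∫ u, f u * g u) ^ 2 ≤ (∫ u, f u ^ 2 * g u) * ∫ u, g u := by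
  set a := ∫ u, f u ^ 2 * g u
  set b := ∫ u, f u * g u
  set c := ∫ u, g u
  have hc0 : 0 ≤ c := integral_nonneg hg0
  have hq : ∀ t : ℝ, 0 ≤ a - 2 * t * b + t ^ 2 * c := by
    intro t
    have h1 : 0 ≤ ∫ u, (f u - t) ^ 2 * g u :=
      integral_nonneg fun u => mul_nonneg (sq_nonneg _) (hg0 u)
    have h2 : (fun u => (f u - t) ^ 2 * g u) =
        fun u => (f u ^ 2 * g u - 2 * t * (f u * g u)) + t ^ 2 * g u := by
      funext u; ring
    have e1 : ∫ u, ((f u ^ 2 * g u - 2 * t * (f u * g u)) + t ^ 2 * g u) =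
        (∫ u, (f u ^ 2 * g u - 2 * t * (f u * g u))) + ∫ u, t ^ 2 * g u :=
      integral_add (hffg.sub (hfg.const_mul _)) (hg.const_mul _)
    have e2 : ∫ u, (f u ^ 2 * g u - 2 * t * (f u * g u)) =
        (∫ u, f u ^ 2 * g u) - ∫ u, 2 * t * (f u * g u) :=
      integral_sub hffg (hfg.const_mul _)
    rw [h2, e1, e2, integral_const_mul, integral_const_mul] at h1
    exact h1
  rcases hc0.eq_or_lt with h0 | h0
  · by_contra hcon
    push Not at hcon
    rw [← h0, mul_zero] at hcon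
    have hb : b ≠ 0 := by
      intro hb; rw [hb] at hcon; simp at hcon
    have := hq ((a + 1) / (2 * b))
    rw [← h0] at this
    have h3 : 2 * ((a + 1) / (2 * b)) * b = a + 1 := by field_simp
    rw [h3] at this
    linarith
  · have := hq (b / c)
    have h3 : a - 2 * (b / c) * b + (b / c) ^ 2 * c = (a * c - b ^ 2) / c := by
      field_simp; ring
    rw [h3] at this
    have h4 : 0 ≤ a * c - b ^ 2 := by
      by_contra hcon
      push Not at hcon
      have := div_neg_of_neg_of_pos hcon h0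
      linarith
    linarith

/-- the comparison coefficients -/
noncomputable def B6_T (Ψ : ℝ → ℂ) (k n : ℕ) : ℝ :=
  if n = 0 then 0 else ∫ u, ‖Ψ u‖ * gd k n u

theorem B6_T_nonneg (Ψ : ℝ → ℂ) (k n : ℕ) : 0 ≤ B6_T Ψ k n := by
  unfold B6_T
  split_ifs
  · exact le_rfl
  · exact integral_nonneg fun u => mul_nonneg (norm_nonneg _) (B6_gd_nonneg _ _ _)

theorem B6_A {C : ℝ} {k : ℕ} (hk : 4 ≤ k) (he : Even k) {n : ℕ} (hn : 1 ≤ n)
    (hP : ∫ u : ℝ, gd k n u / (1 + (u - 0) ^ 2) ≤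
      C * (gk k * (n : ℝ) ^ (-(k : ℝ) / 2)) /
        (1 + (Real.log (k / (4 * Real.pi * n)) - 0) ^ 2))
    (hrho : omk k / (2 * (n : ℝ) ^ (k - 1)) ≤ rho k n)
    {V : ℝ} (hV : 0 ≤ V) {Ψ : ℝ → ℂ} (hm : Measurable Ψ) (hb : ∀ u, ‖Ψ u‖ ≤ 1 / (1 + u ^ 2))
    (h0 : ∀ u, u ≤ V → Ψ u = 0) :
    B6_T Ψ k n ^ 2 / rho k n ≤ 2 * |C| / (1 + V ^ 2) * Real.sqrt k *
      (1 / (n : ℝ) / (1 + Real.log ((k / (4 * Real.pi)) / n) ^ 2)) := by
  have hn' : (0 : ℝ) < n := by exact_mod_cast hn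
  obtain ⟨hgi, hgI⟩ := gd_int (k := k) (n := n) (by omega) hn
  have hgk : 0 < gk k := gk_pos (by omega)
  have homk : 0 < omk k := omk_pos (by omega)
  have hT : B6_T Ψ k n = ∫ u, ‖Ψ u‖ * gd k n u := by
    unfold B6_T; rw [if_neg (by omega)]
  have hi1 := B6_Pint hm hb hgi
  have hi2 : Integrable (fun u => ‖Ψ u‖ ^ 2 * gd k n u) := by
    have := B6_Pint hm hb hi1
    refine this.congr (Filter.Eventually.of_forall fun u => ?_)
    simp only
    ring
  have hdiv : Integrable (fun u => gd k n u / (1 + (u - 0) ^ 2)) := by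
    have : Integrable (fun u => (1 + (u - 0) ^ 2)⁻¹ * gd k n u) := by
      refine (hgi.bdd_mul (c := 1) ?_ (Filter.Eventually.of_forall fun u => ?_))
      · exact (by fun_prop : Measurable fun u : ℝ => (1 + (u - 0) ^ 2)⁻¹).aestronglyMeasurable
      · rw [norm_inv, Real.norm_eq_abs, abs_of_pos (by positivity)]
        exact inv_le_one_of_one_le₀ (by nlinarith [sq_nonneg (u - 0)])
    refine this.congr (Filter.Eventually.of_forall fun u => ?_)
    simp only
    rw [div_eq_mul_inv, mul_comm]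
  have hcs := B6_cs (B6_gd_nonneg k n) hgi hi1 hi2
  have hb2 : ∫ u, ‖Ψ u‖ ^ 2 * gd k n u ≤ (1 + V ^ 2)⁻¹ * ∫ u : ℝ, gd k n u / (1 + (u - 0) ^ 2) := by
    rw [← integral_const_mul]
    refine integral_mono hi2 (hdiv.const_mul _) fun u => ?_
    simp only [sub_zero]
    by_cases hu : u ≤ V
    · rw [h0 u hu]
      simp only [norm_zero, ne_eq, OfNat.ofNat_ne_zero, not_false_eq_true, zero_pow, zero_mul]
      have := B6_gd_nonneg k n u
      positivity
    · push Not at hu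
      have h1 : ‖Ψ u‖ ^ 2 ≤ (1 / (1 + u ^ 2)) ^ 2 := by
        gcongr; exact hb u
      have h2 : (1 / (1 + u ^ 2)) ^ 2 ≤ (1 + V ^ 2)⁻¹ * (1 / (1 + u ^ 2)) := by
        rw [sq]
        gcongr
        rw [one_div]
        gcongr
      calc ‖Ψ u‖ ^ 2 * gd k n u ≤ ((1 + V ^ 2)⁻¹ * (1 / (1 + u ^ 2))) * gd k n u :=
            mul_le_mul_of_nonneg_right (h1.trans h2) (B6_gd_nonneg k n u)
        _ = (1 + V ^ 2)⁻¹ * (gd k n u / (1 + u ^ 2)) := by ring
  set L := Real.log (k / (4 * Real.pi * n)) with hL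
  have hLL : Real.log ((k / (4 * Real.pi)) / n) = L := by
    rw [hL, div_div]
  rw [hLL]
  rw [sub_zero] at hP
  have hG : 0 < gk k * (n : ℝ) ^ (-(k : ℝ) / 2) := mul_pos hgk (Real.rpow_pos_of_pos hn' _)
  have hsq : B6_T Ψ k n ^ 2 ≤ (1 + V ^ 2)⁻¹ * (|C| * (gk k * (n : ℝ) ^ (-(k : ℝ) / 2)) /
      (1 + L ^ 2)) * (gk k * (n : ℝ) ^ (-(k : ℝ) / 2)) := by
    rw [hT]
    refine hcs.trans ?_
    rw [hgI]
    refine mul_le_mul_of_nonneg_right (hb2.trans ?_) hG.le
    refine mul_le_mul_of_nonneg_left (hP.trans ?_) (by positivity)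
    gcongr
    exact le_abs_self C
  have hrpos : 0 < omk k / (2 * (n : ℝ) ^ (k - 1)) := by positivity
  have hpow : (n : ℝ) ^ (-(k : ℝ) / 2) * (n : ℝ) ^ (-(k : ℝ) / 2) * (n : ℝ) ^ (k - 1) =
      1 / (n : ℝ) := by
    rw [← Real.rpow_add hn', ← Real.rpow_natCast, ← Real.rpow_add hn', one_div, ← Real.rpow_neg_one]
    congr 1
    rw [Nat.cast_sub (by omega)]
    push_cast
    ring
  calc B6_T Ψ k n ^ 2 / rho k n ≤ B6_T Ψ k n ^ 2 / (omk k / (2 * (n : ℝ) ^ (k - 1))) := by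
        gcongr
    _ ≤ ((1 + V ^ 2)⁻¹ * (|C| * (gk k * (n : ℝ) ^ (-(k : ℝ) / 2)) /
      (1 + L ^ 2)) * (gk k * (n : ℝ) ^ (-(k : ℝ) / 2))) / (omk k / (2 * (n : ℝ) ^ (k - 1))) := by
        gcongr
    _ = 2 * |C| / (1 + V ^ 2) * (gk k ^ 2 / omk k) * (((n : ℝ) ^ (-(k : ℝ) / 2) *
        (n : ℝ) ^ (-(k : ℝ) / 2) * (n : ℝ) ^ (k - 1)) / (1 + L ^ 2)) := by
        field_simp
    _ = 2 * |C| / (1 + V ^ 2) * (gk k ^ 2 / omk k) * (1 / (n : ℝ) / (1 + L ^ 2)) := by
        rw [hpow]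
    _ ≤ 2 * |C| / (1 + V ^ 2) * Real.sqrt k * (1 / (n : ℝ) / (1 + L ^ 2)) := by
        have := (gam_ratio hk he).2
        gcongr

theorem B6_B {k : ℕ} (hk : 4 ≤ k) {n : ℕ} (hn : 1 ≤ n)
    (ht : (∫ u in Set.Ioi (Real.log 12), gd k n u) ^ 2 ≤ rho k n * Real.exp (-(k : ℝ) - n))
    {V : ℝ} (hV : Real.log 12 ≤ V) {Ψ : ℝ → ℂ} (hm : Measurable Ψ)
    (hb : ∀ u, ‖Ψ u‖ ≤ 1 / (1 + u ^ 2)) (h0 : ∀ u, u ≤ V → Ψ u = 0) :
    B6_T Ψ k n ^ 2 / rho k n ≤ Real.exp (-(k : ℝ)) * Real.exp (-(n : ℝ)) := by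
  obtain ⟨hgi, hgI⟩ := gd_int (k := k) (n := n) (by omega) hn
  have hT : B6_T Ψ k n = ∫ u, ‖Ψ u‖ * gd k n u := by
    unfold B6_T; rw [if_neg (by omega)]
  have hi1 := B6_Pint hm hb hgi
  have hr := rho_pos (k := k) (n := n) (by omega) hn
  have h1 : B6_T Ψ k n ≤ ∫ u in Set.Ioi (Real.log 12), gd k n u := by
    rw [hT, ← integral_indicator measurableSet_Ioi]
    refine integral_mono hi1 (hgi.indicator measurableSet_Ioi) fun u => ?_
    by_cases hu : u ∈ Set.Ioi (Real.log 12)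
    · rw [Set.indicator_of_mem hu]
      have h2 : ‖Ψ u‖ ≤ 1 := by
        refine (hb u).trans ?_
        rw [div_le_one (by positivity)]
        nlinarith [sq_nonneg u]
      have h3 := B6_gd_nonneg k n u
      simp only
      nlinarith
    · rw [Set.indicator_of_notMem hu]
      simp only
      rw [h0 u ((not_lt.mp hu).trans hV)]
      simp
  rw [div_le_iff₀ hr]
  calc B6_T Ψ k n ^ 2 ≤ (∫ u in Set.Ioi (Real.log 12), gd k n u) ^ 2 := by
        have := B6_T_nonneg Ψ k n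
        gcongr
    _ ≤ _ := ht
    _ = Real.exp (-(k : ℝ)) * Real.exp (-(n : ℝ)) * rho k n := by
        rw [← Real.exp_add, mul_comm, sub_eq_add_neg]

theorem B6_exp_sum : Summable (fun n : ℕ => Real.exp (-(n : ℝ))) ∧
    ∑' n : ℕ, Real.exp (-(n : ℝ)) ≤ 2 := by
  have h1 : (fun n : ℕ => Real.exp (-(n : ℝ))) = fun n : ℕ => (Real.exp (-1)) ^ n := by
    funext n
    rw [← Real.exp_nat_mul]
    congr 1
    ring
  have h2 : Real.exp (-1) < 1 := by
    rw [Real.exp_lt_one_iff]; norm_num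
  have h3 : Real.exp (-1) ≤ 1 / 2 := by
    rw [Real.exp_neg, ← one_div]
    apply one_div_le_one_div_of_le (by norm_num)
    have := Real.add_one_le_exp (1 : ℝ)
    linarith
  rw [h1]
  refine ⟨summable_geometric_of_lt_one (Real.exp_pos _).le h2, ?_⟩
  rw [tsum_geometric_of_lt_one (Real.exp_pos _).le h2]
  rw [inv_le_comm₀ (by linarith) (by norm_num)]
  linarith

theorem tail_pos {δ : ℝ} (hδ : 0 < δ) : ∃ (V : ℝ) (k₀ : ℕ), 0 ≤ V ∧ ∀ k : ℕ, k₀ ≤ k → Even k →
    ∀ (β : ℝ) (Ψ : ℝ → ℂ), Measurable Ψ → (∀ u, ‖Ψ u‖ ≤ 1 / (1 + u ^ 2)) →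
      (∀ u, u ≤ V → Ψ u = 0) → ∀ b, CForm k b →
        ‖∫ u, Ψ u * geo k b β u‖ ^ 2 ≤ δ * Real.sqrt k * pn k b := by
  obtain ⟨C, k₁, hP⟩ := gd_peetre
  obtain ⟨k₂, hrho⟩ := rho_low
  obtain ⟨k₃, htail⟩ := gd_tail
  obtain ⟨k₄, hk₄⟩ : ∃ k₄ : ℕ, ∀ k : ℕ, k₄ ≤ k → Real.exp (-(k : ℝ)) * 2 ≤ δ / 2 := by
    have h1 : Tendsto (fun k : ℕ => Real.exp (-(k : ℝ)) * 2) atTop (𝓝 (0 * 2)) :=
      (Real.tendsto_exp_neg_atTop_nhds_zero.comp tendsto_natCast_atTop_atTop).mul_const 2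
    rw [zero_mul] at h1
    exact eventually_atTop.mp (h1.eventually_le_const (by linarith))
  have hlog12 : 0 ≤ Real.log 12 := Real.log_nonneg (by norm_num)
  set V : ℝ := Real.log 12 + 120 * |C| / δ + 1 with hVdef
  have hq0 : 0 ≤ 120 * |C| / δ := by positivity
  have hV0 : 0 ≤ V := by linarith
  have hV12 : Real.log 12 ≤ V := by linarith
  have hVC : 2 * |C| / (1 + V ^ 2) * 30 ≤ δ / 2 := by
    have h1 : 120 * |C| / δ ≤ 1 + V ^ 2 := by nlinarith
    rw [div_le_iff₀ hδ] at h1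
    rw [div_mul_eq_mul_div, div_le_iff₀ (by positivity)]
    nlinarith
  refine ⟨V, k₁ + k₂ + k₃ + k₄ + 4, hV0, ?_⟩
  intro k hk he β Ψ hm hb h0 b H
  have hk4 : 4 ≤ k := by omega
  set N₀ : ℕ := ⌊(k : ℝ) / (8 * Real.pi)⌋₊ with hN₀
  set A : ℕ → ℝ := fun n => if n ∈ Finset.Icc 1 N₀ then 2 * |C| / (1 + V ^ 2) * Real.sqrt k *
      (1 / (n : ℝ) / (1 + Real.log ((k / (4 * Real.pi)) / n) ^ 2)) else 0 with hA
  have hA0 : ∀ n, 0 ≤ A n := by
    intro n
    simp only [hA]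
    split_ifs <;> positivity
  have hbound : ∀ n : ℕ, B6_T Ψ k n ^ 2 / rho k n ≤
      A n + Real.exp (-(k : ℝ)) * Real.exp (-(n : ℝ)) := by
    intro n
    have hE : 0 ≤ Real.exp (-(k : ℝ)) * Real.exp (-(n : ℝ)) := by positivity
    rcases Nat.eq_zero_or_pos n with rfl | hn
    · have : B6_T Ψ k 0 = 0 := by unfold B6_T; simp
      rw [this]
      simp only [ne_eq, OfNat.ofNat_ne_zero, not_false_eq_true, zero_pow, zero_div]
      have := hA0 0
      linarith
    · by_cases hc : 8 * Real.pi * n ≤ k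
      · have h1 := B6_A (C := C) hk4 he hn (hP k (by omega) n hn 0)
          (hrho k (by omega) n hn hc) hV0 hm hb h0
        have h2 : n ∈ Finset.Icc 1 N₀ := by
          rw [Finset.mem_Icc]
          refine ⟨hn, ?_⟩
          rw [hN₀, Nat.le_floor_iff (by positivity), le_div_iff₀ (by positivity)]
          linarith
        have h3 : A n = 2 * |C| / (1 + V ^ 2) * Real.sqrt k *
            (1 / (n : ℝ) / (1 + Real.log ((k / (4 * Real.pi)) / n) ^ 2)) := by
          simp only [hA]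
          rw [if_pos h2]
        rw [h3]
        linarith
      · push Not at hc
        have h1 := B6_B hk4 hn (htail k (by omega) n hc) hV12 hm hb h0
        have := hA0 n
        linarith
  have hAs : HasSum A (∑ n ∈ Finset.Icc 1 N₀, 2 * |C| / (1 + V ^ 2) * Real.sqrt k *
      (1 / (n : ℝ) / (1 + Real.log ((k / (4 * Real.pi)) / n) ^ 2))) := by
    have h1 : HasSum A (∑ n ∈ Finset.Icc 1 N₀, A n) := by
      refine hasSum_sum_of_ne_finset_zero fun n hn => ?_
      simp only [hA]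
      rw [if_neg hn]
    have h2 : ∑ n ∈ Finset.Icc 1 N₀, A n = ∑ n ∈ Finset.Icc 1 N₀,
        2 * |C| / (1 + V ^ 2) * Real.sqrt k *
      (1 / (n : ℝ) / (1 + Real.log ((k / (4 * Real.pi)) / n) ^ 2)) := by
      refine Finset.sum_congr rfl fun n hn => ?_
      simp only [hA]
      rw [if_pos hn]
    rwa [h2] at h1
  have hAsum : ∑' n, A n ≤ δ / 2 * Real.sqrt k := by
    rw [hAs.tsum_eq, ← Finset.mul_sum]
    have hkpos : (0 : ℝ) < k := by exact_mod_cast (by omega : 0 < k)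
    have h1 := log_sum (c := (k : ℝ) / (4 * Real.pi)) (by positivity) N₀
    calc 2 * |C| / (1 + V ^ 2) * Real.sqrt k * ∑ n ∈ Finset.Icc 1 N₀,
          (1 / (n : ℝ) / (1 + Real.log ((k / (4 * Real.pi)) / n) ^ 2))
        ≤ 2 * |C| / (1 + V ^ 2) * Real.sqrt k * 30 := by gcongr
      _ = (2 * |C| / (1 + V ^ 2) * 30) * Real.sqrt k := by ring
      _ ≤ δ / 2 * Real.sqrt k := by gcongr
  have hEs := B6_exp_sum.1.mul_left (Real.exp (-(k : ℝ)))
  have hsqrt : 1 ≤ Real.sqrt k := by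
    rw [Real.one_le_sqrt]
    exact_mod_cast (by omega : 1 ≤ k)
  have hEsum : ∑' n : ℕ, Real.exp (-(k : ℝ)) * Real.exp (-(n : ℝ)) ≤ δ / 2 * Real.sqrt k := by
    rw [tsum_mul_left]
    calc Real.exp (-(k : ℝ)) * ∑' n : ℕ, Real.exp (-(n : ℝ)) ≤ Real.exp (-(k : ℝ)) * 2 := by
          gcongr; exact B6_exp_sum.2
      _ ≤ δ / 2 := hk₄ k (by omega)
      _ ≤ δ / 2 * Real.sqrt k := by nlinarith
  have hrho0 : ∀ n, 0 ≤ rho k n := by
    intro n
    unfold rho
    refine setIntegral_nonneg measurableSet_Ioi fun y hy => ?_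
    have : (0 : ℝ) < y := lt_trans one_pos hy
    positivity
  have hTs : Summable (fun n => B6_T Ψ k n ^ 2 / rho k n) :=
    Summable.of_nonneg_of_le (fun n => div_nonneg (sq_nonneg _) (hrho0 n)) hbound
      (hAs.summable.add hEs)
  have hTsum : ∑' n, B6_T Ψ k n ^ 2 / rho k n ≤ δ * Real.sqrt k := by
    calc ∑' n, B6_T Ψ k n ^ 2 / rho k n ≤
        ∑' n : ℕ, (A n + Real.exp (-(k : ℝ)) * Real.exp (-(n : ℝ))) :=
          hTs.tsum_le_tsum hbound (hAs.summable.add hEs)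
      _ = (∑' n, A n) + ∑' n : ℕ, Real.exp (-(k : ℝ)) * Real.exp (-(n : ℝ)) :=
          hAs.summable.tsum_add hEs
      _ ≤ δ * Real.sqrt k := by linarith
  -- the two families of coefficients
  have hTc : Summable (fun n : ℕ => ‖((B6_T Ψ k n : ℝ) : ℂ)‖ ^ 2 / rho k n) := by
    refine hTs.congr fun n => ?_
    rw [Complex.norm_real, Real.norm_eq_abs, sq_abs]
  have hsum1 := (coef_bound (k := k) (by omega) H (t := fun n => ((B6_T Ψ k n : ℝ) : ℂ)) hTc).1
  set e : ℕ → ℂ := fun n => cexp (2 * Real.pi * Complex.I * n * β) with he'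
  have hen : ∀ n, ‖e n‖ = 1 := by
    intro n
    simp only [he']
    rw [show (2 * Real.pi * Complex.I * n * β : ℂ) = ((2 * Real.pi * n * β : ℝ) : ℂ) * Complex.I by
      push_cast; ring]
    exact Complex.norm_exp_ofReal_mul_I _
  set t : ℕ → ℂ := fun n => if n = 0 then 0 else e n * ∫ u, Ψ u * (gd k n u : ℂ) with ht
  have htT : ∀ n, ‖t n‖ ≤ B6_T Ψ k n := by
    intro n
    simp only [ht]
    unfold B6_T
    split_ifs with hn
    · simp
    · rw [norm_mul, hen, one_mul]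
      refine (norm_integral_le_integral_norm _).trans (le_of_eq ?_)
      refine integral_congr_ae (Filter.Eventually.of_forall fun u => ?_)
      simp only [norm_mul, Complex.norm_real, Real.norm_eq_abs, abs_of_nonneg (B6_gd_nonneg k n u)]
  have htle : ∀ n, ‖t n‖ ^ 2 / rho k n ≤ B6_T Ψ k n ^ 2 / rho k n := by
    intro n
    have := hrho0 n
    have := htT n
    gcongr
  have hts : Summable (fun n => ‖t n‖ ^ 2 / rho k n) :=
    Summable.of_nonneg_of_le (fun n => div_nonneg (sq_nonneg _) (hrho0 n)) htle hTs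
  have hcb := (coef_bound (k := k) (by omega) H (t := t) hts).2
  -- exchange
  have hΨint : ∀ n : ℕ, n ≠ 0 → Integrable (fun u => Ψ u * (gd k n u : ℂ)) := by
    intro n hn
    have hgi := (gd_int (k := k) (n := n) (by omega) (Nat.pos_of_ne_zero hn)).1
    refine (hgi.ofReal.bdd_mul (c := 1) hm.aestronglyMeasurable
      (Filter.Eventually.of_forall fun u => ?_))
    refine (hb u).trans ?_
    rw [div_le_one (by positivity)]
    nlinarith [sq_nonneg u]
  have hex : HasSum (fun n : ℕ => ∫ u, Ψ u * (b n * e n * (gd k n u : ℂ)))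
      (∫ u, ∑' n : ℕ, Ψ u * (b n * e n * (gd k n u : ℂ))) := by
    refine hasSum_integral_of_summable_integral_norm ?_ ?_
    · intro n
      by_cases hn : n = 0
      · subst hn
        rw [H.zero]
        simp
      · have := (hΨint n hn).const_mul (b n * e n)
        refine this.congr (Filter.Eventually.of_forall fun u => ?_)
        simp only
        ring
    · refine hsum1.congr fun n => ?_
      by_cases hn : n = 0
      · subst hn
        rw [H.zero]
        simp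
      · rw [norm_mul, Complex.norm_real, Real.norm_eq_abs, abs_of_nonneg (B6_T_nonneg Ψ k n)]
        unfold B6_T
        rw [if_neg hn, ← integral_const_mul]
        refine integral_congr_ae (Filter.Eventually.of_forall fun u => ?_)
        simp only [norm_mul, Complex.norm_real, Real.norm_eq_abs,
          abs_of_nonneg (B6_gd_nonneg k n u), hen]
        ring
  have hL : ∫ u, Ψ u * geo k b β u = ∑' n, b n * t n := by
    have h1 : ∫ u, Ψ u * geo k b β u = ∫ u, ∑' n : ℕ, Ψ u * (b n * e n * (gd k n u : ℂ)) := by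
      refine integral_congr_ae (Filter.Eventually.of_forall fun u => ?_)
      simp only
      rw [tsum_mul_left, (geo_series H β u).tsum_eq]
    rw [h1, ← hex.tsum_eq]
    refine tsum_congr fun n => ?_
    by_cases hn : n = 0
    · subst hn
      rw [H.zero]
      simp
    · simp only [ht]
      rw [if_neg hn, ← mul_assoc, ← integral_const_mul]
      refine integral_congr_ae (Filter.Eventually.of_forall fun u => ?_)
      simp only
      ring
  rw [hL]
  refine hcb.trans ?_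
  refine mul_le_mul_of_nonneg_right ?_ (pn_nonneg k b)
  exact (hts.tsum_le_tsum htle hTs).trans hTsum

end Pool.Agent.WA
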