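import Pool.Agent.Lib_helper98.WAF.B11
import Pool.Agent.Lib_helper98.WAF.B8

/-! Block B9 (LHSW), first part: linearity and auxiliary facts. -/

namespace Pool.Agent.WA

open Complex MeasureTheory Filter Topology UpperHalfPlane
open scoped MatrixGroups ENNReal
open Pool.Agent.GL2 (qs HData am dens hatw Ep Mol xt FD IsCompletedL oddZ)

theorem B9_hatw_cont {w : ℝ → ℝ} (hw : Continuous w) (hc : HasCompactSupport w) :
    Continuous (hatw w) := by
  unfold hatw
  have hi : Integrable w := hw.integrable_of_hasCompactSupport hc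
  refine continuous_of_dominated (bound := fun t => ‖w t‖) ?_ ?_ hi.norm ?_
  · intro u
    exact (by fun_prop : Continuous fun t : ℝ =>
      (w t : ℂ) * cexp (t * u * Complex.I)).aestronglyMeasurable
  · intro u
    refine Eventually.of_forall fun t => ?_
    rw [norm_mul, show (t : ℂ) * u * Complex.I = ((t * u : ℝ) : ℂ) * Complex.I by push_cast; ring,
      Complex.norm_exp_ofReal_mul_I, mul_one, Complex.norm_real]
  · refine Eventually.of_forall fun t => ?_
    fun_prop

theorem B9_C {α β : ℝ} (W : WtW α β) : 0 ≤ W.C := by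
  have := (norm_nonneg _).trans (W.decay 0)
  simpa using this

theorem B9_hatw_le {α β : ℝ} (W : WtW α β) (u : ℝ) : ‖hatw W.w u‖ ≤ W.C / (1 + u ^ 2) := by
  refine (W.decay u).trans ?_
  refine div_le_div_of_nonneg_left (B9_C W) (by positivity) ?_
  nlinarith [sq_nonneg u]

theorem B9_hatw_bd {α β : ℝ} (W : WtW α β) (u : ℝ) : ‖hatw W.w u‖ ≤ W.C := by
  refine (B9_hatw_le W u).trans ?_
  rw [div_le_iff₀ (by positivity)]
  nlinarith [sq_nonneg u, mul_nonneg (B9_C W) (sq_nonneg u)]

theorem B9_hatw_int {α β : ℝ} (W : WtW α β) (c : ℝ) :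
    Integrable (fun u => hatw W.w (u + c)) := by
  have h1 : Integrable (hatw W.w) :=
    (B8_dom W.C).mono' (B9_hatw_cont W.cont W.cs).aestronglyMeasurable
      (Eventually.of_forall fun u => B9_hatw_le W u)
  exact h1.comp_add_right c

theorem B9_hatw_zero {α β : ℝ} (W : WtW α β) : hatw W.w 0 = ((∫ t, W.w t : ℝ) : ℂ) := by
  unfold hatw
  rw [← integral_complex_ofReal]
  refine integral_congr_ae (Eventually.of_forall fun t => ?_)
  simp

theorem B9_dm_int {k : ℕ} {b : ℕ → ℂ} (H : CForm k b) {m : ℕ} (hm : 0 < m) {α β : ℝ}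
    (W : WtW α β) (c : ℝ) : Integrable (fun u => dm k b m u * hatw W.w (u + c)) := by
  obtain ⟨C, hC⟩ := dm_bdd H hm
  exact (B9_hatw_int W c).bdd_mul (c := C) (dm_cont H hm).aestronglyMeasurable
    (Eventually.of_forall hC)

theorem B9_geo_lin {k : ℕ} {ι : Type} [Fintype ι] (F : Fam k ι) (c : ι → ℂ) (β u : ℝ) :
    geo k (fun n => ∑ i, c i * F.c i n) β u = ∑ i, c i * geo k (F.c i) β u := by
  have h : ∀ i, CForm k (F.c i) := fun i => cf_of_hdata (F.data i)
  have hz : 0 < ((β : ℂ) + (Real.exp u : ℝ) * Complex.I).im := by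
    have e : ((β : ℂ) + (Real.exp u : ℝ) * Complex.I).im = Real.exp u := by
      rw [Complex.add_im, Complex.ofReal_im, Complex.mul_I_im, Complex.ofReal_re, zero_add]
    rw [e]
    exact Real.exp_pos u
  unfold geo
  rw [qc_comb h c hz, Finset.sum_mul]
  exact Finset.sum_congr rfl fun i _ => by ring

theorem B9_dm_lin {k : ℕ} {ι : Type} [Fintype ι] (F : Fam k ι) (c : ι → ℂ) (m : ℕ) (u : ℝ) :
    dm k (fun n => ∑ i, c i * F.c i n) m u = ∑ i, c i * dm k (F.c i) m u := by
  have h : ∀ i, CForm k (F.c i) := fun i => cf_of_hdata (F.data i)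
  have h1 := dm_series (cf_comb h c) m u
  have h2 : HasSum (fun n : ℕ => ∑ i, c i * ((if n.Coprime m then F.c i n else 0) *
      (gd k n u : ℂ))) (∑ i, c i * dm k (F.c i) m u) :=
    hasSum_sum fun i _ => (dm_series (h i) m u).mul_left (c i)
  refine h1.unique (h2.congr_fun fun n => ?_)
  split_ifs
  · rw [Finset.sum_mul]
    exact Finset.sum_congr rfl fun i _ => by ring
  · simp

theorem lhs_lin {k : ℕ} {ι : Type} [Fintype ι] (F : Fam k ι) {α β : ℝ} (W : WtW α β) {m : ℕ}
    (hm : 0 < m) (c₀ : ℝ) (c : ι → ℂ) :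
    ∫ u, dm k (fun n => ∑ i, c i * F.c i n) m u * hatw W.w (u + c₀) =
      ∑ i, c i * ∫ u, dm k (F.c i) m u * hatw W.w (u + c₀) := by
  have h : ∀ i, CForm k (F.c i) := fun i => cf_of_hdata (F.data i)
  simp_rw [B9_dm_lin F c m, Finset.sum_mul]
  rw [integral_finsetSum _ fun i _ => ?_]
  · refine Finset.sum_congr rfl fun i _ => ?_
    rw [← integral_const_mul]
    exact integral_congr_ae (Eventually.of_forall fun u => by simp only; ring)
  · refine ((B9_dm_int (h i) hm W c₀).const_mul (c i)).congr (Eventually.of_forall fun u => ?_)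
    simp only
    ring

theorem Yf_lin {k : ℕ} {ι : Type} [Fintype ι] (F : Fam k ι) {α β : ℝ} (W : WtW α β) {m : ℕ}
    (hm : 0 < m) {ε : ℝ} (A : Apx m.primeFactors ε) (c : ι → ℂ) :
    Yf A W.w m k (fun n => ∑ i, c i * F.c i n) = ∑ i, c i * Yf A W.w m k (F.c i) := by
  have h : ∀ i, CForm k (F.c i) := fun i => cf_of_hdata (F.data i)
  obtain ⟨hcont, C, hC0, hC⟩ := psi_decay hm A W
  have hi : ∀ (i : ι) (j : Fin (A.R * m)) (β' : ℝ),
      Integrable (fun u => Psi A W.w m j u * geo k (F.c i) β' u) := fun i j β' =>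
    B8_int (h i) β' (hcont j).measurable (fun u => hC j u)
  unfold Yf
  simp_rw [Finset.mul_sum]
  rw [Finset.sum_comm]
  refine Finset.sum_congr rfl fun j _ => ?_
  simp_rw [B9_geo_lin F c, Finset.mul_sum]
  rw [integral_finsetSum _ fun i _ => ?_]
  · refine Finset.sum_congr rfl fun i _ => ?_
    rw [← integral_const_mul]
    exact integral_congr_ae (Eventually.of_forall fun u => by simp only; ring)
  · refine ((hi i j ((((j : ℕ) : ℝ)) / ((A.R * m : ℕ) : ℝ))).const_mul (c i)).congr
      (Eventually.of_forall fun u => ?_)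
    simp only
    ring

/-- the tail integrals -/
theorem B9_tail_sum {k : ℕ} (hk : 2 ≤ k) (hk' : ∀ n : ℕ, (k : ℝ) < 8 * Real.pi * n →
    (∫ u in Set.Ioi (Real.log 12), gd k n u) ^ 2 ≤ rho k n * Real.exp (-(k : ℝ) - n)) :
    Summable (fun n : ℕ => ‖((∫ u in Set.Ioi (Real.log 12), gd k n u : ℝ) : ℂ)‖ ^ 2 /
      rho k n) := by
  have h1 : Summable (fun n : ℕ => Real.exp (-(k : ℝ) - n)) := by
    have h2 : Summable (fun n : ℕ => Real.exp (-(n : ℝ))) := by
      have := Real.summable_exp_neg_nat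
      exact this
    have := h2.mul_left (Real.exp (-(k : ℝ)))
    refine this.congr fun n => ?_
    rw [← Real.exp_add]
    congr 1
  refine (summable_nat_add_iff (k + 1)).1 ?_
  refine Summable.of_nonneg_of_le (fun n => ?_) (fun n => ?_)
    ((summable_nat_add_iff (k + 1)).2 h1)
  · have : 0 < rho k (n + (k + 1)) := rho_pos hk (by omega)
    positivity
  · have h3 : 0 < rho k (n + (k + 1)) := rho_pos hk (by omega)
    rw [div_le_iff₀ h3, Complex.norm_real, Real.norm_eq_abs, sq_abs, mul_comm]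
    refine hk' _ ?_
    have hpi := Real.pi_gt_three
    push_cast
    have : (0 : ℝ) ≤ n := Nat.cast_nonneg n
    have : (0 : ℝ) ≤ k := Nat.cast_nonneg k
    nlinarith

end Pool.Agent.WA
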