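import Pool.Agent.Lib_helper98.WAF.B9a

/-! Block B9 (LHSW), second part: the part `u ≤ log 12`. -/

namespace Pool.Agent.WA

open Complex MeasureTheory Filter Topology UpperHalfPlane
open scoped MatrixGroups ENNReal
open Pool.Agent.GL2 (qs HData am dens hatw Ep Mol xt FD IsCompletedL oddZ)

theorem B9_theta_le (N m r b : ℕ) : ‖theta N m r b‖ ≤ 1 := by
  unfold theta
  rw [norm_mul, norm_div, norm_one, Complex.norm_natCast]
  have h1 : ‖∑ a ∈ (Finset.range N).filter (fun a => r ∣ a ∧ (a / r).Coprime m),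
      cexp (-(2 * Real.pi * Complex.I) * a * b / N)‖ ≤ N := by
    refine (norm_sum_le _ _).trans ?_
    have h2 : ∀ a ∈ (Finset.range N).filter (fun a => r ∣ a ∧ (a / r).Coprime m),
        ‖cexp (-(2 * Real.pi * Complex.I) * a * b / N)‖ ≤ 1 := by
      intro a _
      have e : (-(2 * Real.pi * Complex.I) * a * b / N : ℂ) =
          ((-(2 * Real.pi) * a * b / N : ℝ) : ℂ) * Complex.I := by
        push_cast; ring
      rw [e, Complex.norm_exp_ofReal_mul_I]
    refine (Finset.sum_le_card_nsmul _ _ 1 h2).trans ?_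
    rw [nsmul_eq_mul, mul_one]
    have h3 := Finset.card_filter_le (Finset.range N) (fun a => r ∣ a ∧ (a / r).Coprime m)
    rw [Finset.card_range] at h3
    exact_mod_cast h3
  rcases Nat.eq_zero_or_pos N with rfl | hN
  · simp
  · have hN' : (0 : ℝ) < N := by exact_mod_cast hN
    calc 1 / (N : ℝ) * _ ≤ 1 / (N : ℝ) * N := mul_le_mul_of_nonneg_left h1 (by positivity)
      _ = 1 := by field_simp

theorem B9_L (R : ℝ) : ∃ k₀ : ℕ, ∀ k : ℕ, k₀ ≤ k → R ≤ Real.log (k / (4 * Real.pi)) := by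
  have h1 : Tendsto (fun k : ℕ => Real.log ((k : ℝ) / (4 * Real.pi))) atTop atTop :=
    Real.tendsto_log_atTop.comp
      (tendsto_natCast_atTop_atTop.atTop_div_const (by positivity))
  exact Filter.eventually_atTop.1 (h1.eventually_ge_atTop R)

theorem B9_ratio {k : ℕ} (hk : 4 ≤ k) (he : Even k) : Real.sqrt k / gk k ^ 2 ≤ 10 / omk k := by
  have h1 := (gam_ratio hk he).1
  have h2 : 0 < gk k := gk_pos (by omega)
  have h3 : 0 < omk k := omk_pos (by omega)
  rw [div_le_div_iff₀ (by positivity) h3]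
  rw [div_le_div_iff₀ (by norm_num) h3] at h1
  linarith

theorem B9_low {α β : ℝ} (W : WtW α β) {m : ℕ} (hm : 0 < m) {δ : ℝ} (hδ : 0 < δ) :
    ∃ k₀ : ℕ, ∀ k : ℕ, k₀ ≤ k → Even k → ∀ b, CForm k b →
      ‖(∫ u in Set.Iic (Real.log 12), dm k b m u *
        hatw W.w (u + -Real.log (k / (4 * Real.pi)))) / (gk k : ℂ)‖ ^ 2 ≤ δ / omk k * pn k b := by
  classical
  have hm' : (0 : ℝ) < m := by exact_mod_cast hm
  set a : ℝ := Real.log 12 with ha
  have ha0 : 0 < a := Real.log_pos (by norm_num)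
  have ha1 : a ≤ 5 / 2 := by
    have h1 : (12 : ℝ) ≤ Real.exp (5 / 2) := by
      have h2 : (2.7182818283 : ℝ) < Real.exp 1 := Real.exp_one_gt_d9
      have h3 : Real.exp (5 / 2) = Real.exp 1 ^ 2 * Real.exp (1 / 2) := by
        rw [← Real.exp_nat_mul, ← Real.exp_add]; norm_num
      have h4 : (1.64 : ℝ) ≤ Real.exp (1 / 2) := by
        have h5 : Real.exp (1 / 2) ^ 2 = Real.exp 1 := by
          rw [← Real.exp_nat_mul]; norm_num
        by_contra hcon
        have h6 : Real.exp (1 / 2) < 1.64 := not_le.1 hcon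
        have h7 : Real.exp (1 / 2) ^ 2 < 1.64 ^ 2 :=
          pow_lt_pow_left₀ h6 (Real.exp_pos _).le (by norm_num)
        rw [h5] at h7
        norm_num at h7
        linarith
      rw [h3]
      have h8 : (2.7182818283 : ℝ) ^ 2 ≤ Real.exp 1 ^ 2 :=
        pow_le_pow_left₀ (by norm_num) h2.le 2
      nlinarith [Real.exp_pos (1 / 2)]
    calc a = Real.log 12 := rfl
      _ ≤ Real.log (Real.exp (5 / 2)) := Real.log_le_log (by norm_num) h1
      _ = 5 / 2 := Real.log_exp _
  have hC := B9_C W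
  set η : ℝ := min 1 (δ / (80 * Real.pi * m)) with hη
  have hη0 : 0 < η := lt_min one_pos (by positivity)
  have hη1 : η ≤ 1 := min_le_left _ _
  have hη2 : η ≤ δ / (80 * Real.pi * m) := min_le_right _ _
  set R : ℝ := 8 * W.C / η + 1 with hR
  have hR0 : 1 ≤ R := by rw [hR]; have : 0 ≤ 8 * W.C / η := by positivity
                         linarith
  obtain ⟨k₁, hk₁⟩ := B9_L (a + R)
  set β' : Fin m → ℚ := fun j => ((j : ℕ) : ℚ) / (m : ℚ) with hβ'
  have hmq : (m : ℚ) ≠ 0 := by exact_mod_cast hm.ne'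
  have hβd : ∀ i j, i ≠ j → ∀ n : ℤ, β' i - β' j ≠ n := by
    intro i j hij n hn
    simp only [hβ'] at hn
    rw [div_sub_div_same, div_eq_iff hmq] at hn
    have hn' : ((i : ℕ) : ℤ) - ((j : ℕ) : ℤ) = n * m := by exact_mod_cast hn
    have h1 : |((i : ℕ) : ℤ) - ((j : ℕ) : ℤ)| < m := by
      have := i.2
      have := j.2
      rw [abs_lt]
      constructor <;> omega
    rw [hn', abs_mul, Nat.abs_cast] at h1
    have h2 : |n| < 1 := by
      by_contra hcon
      have h3 : (1 : ℤ) ≤ |n| := not_lt.1 hcon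
      have h4 : (m : ℤ) ≤ |n| * m := by nlinarith
      omega
    have h5 : n = 0 := Int.abs_lt_one_iff.1 h2
    rw [h5, zero_mul] at hn'
    exact hij (Fin.ext (by omega))
  obtain ⟨k₂, hk₂⟩ := ratl_bound β' hβd one_pos (δ := δ / 20) (by positivity)
  refine ⟨4 + k₁ + k₂, fun k hk he b H => ?_⟩
  have hL := hk₁ k (by omega)
  set L : ℝ := Real.log (k / (4 * Real.pi)) with hLdef
  -- decay of the weight
  have hdec : ∀ u ≤ a, ‖hatw W.w (u + -L)‖ ≤ η / (1 + u ^ 2) := by
    intro u hu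
    have h1 := W.decay (u + -L)
    set x : ℝ := u + -L with hx
    have hxR : x ≤ -R := by linarith
    have h2 : R ^ 2 ≤ x ^ 2 := by nlinarith
    have h3 : 1 + u ^ 2 ≤ 8 * (1 + x ^ 2) := by
      rcases le_or_gt u 0 with h | h
      · have : x ≤ u := by linarith
        nlinarith
      · nlinarith [sq_nonneg x]
    have h4 : 8 * W.C ≤ η * (1 + x ^ 2) := by
      have h5 : 8 * W.C ≤ η * R := by
        rw [hR, mul_add, mul_div_cancel₀ _ hη0.ne']
        linarith
      have h6 : η * R ≤ η * (1 + x ^ 2) := by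
        refine mul_le_mul_of_nonneg_left ?_ hη0.le
        nlinarith
      linarith
    refine h1.trans ?_
    rw [div_le_div_iff₀ (by positivity) (by positivity)]
    have h7 : 0 < 1 + x ^ 2 := by positivity
    nlinarith [mul_le_mul_of_nonneg_left h3 hC, mul_le_mul_of_nonneg_right h4 h7.le]
  set Ψ : Fin m → ℝ → ℂ := fun j u =>
    theta m m 1 j * (if u ≤ a then hatw W.w (u + -L) else 0) with hΨ
  have hcw := B9_hatw_cont W.cont W.cs
  have hΨm : ∀ j, Measurable (Ψ j) := fun j => by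
    refine Measurable.const_mul ?_ _
    exact Measurable.ite measurableSet_Iic (by fun_prop) measurable_const
  have hΨb : ∀ j u, ‖Ψ j u‖ ≤ η / (1 + u ^ 2) := by
    intro j u
    simp only [hΨ]
    rw [norm_mul]
    have h1 := B9_theta_le m m 1 j
    have h2 : ‖(if u ≤ a then hatw W.w (u + -L) else 0)‖ ≤ η / (1 + u ^ 2) := by
      split_ifs with h
      · exact hdec u h
      · rw [norm_zero]; positivity
    calc ‖theta m m 1 j‖ * ‖(if u ≤ a then hatw W.w (u + -L) else 0)‖
        ≤ 1 * (η / (1 + u ^ 2)) := mul_le_mul h1 h2 (norm_nonneg _) zero_le_one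
      _ = _ := one_mul _
  have hΨ1 : ∀ j u, ‖Ψ j u‖ ≤ 1 / (1 + u ^ 2) := fun j u => (hΨb j u).trans (by gcongr)
  have h1 := hk₂ k (by omega) he Ψ hΨm hΨ1 b H
  -- the functional
  have hX : ∫ u in Set.Iic a, dm k b m u * hatw W.w (u + -L) =
      Lf k (fun j => (β' j : ℝ)) Ψ b := by
    rw [← integral_indicator measurableSet_Iic, Lf]
    rw [← integral_finsetSum _ fun j _ => B8_int H _ (hΨm j) (hΨb j)]
    refine integral_congr_ae (Eventually.of_forall fun u => ?_)
    simp only
    by_cases hu : u ≤ a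
    · rw [Set.indicator_of_mem (show u ∈ Set.Iic a from hu), dm_geo H hm, Finset.sum_mul,
        Finset.sum_range]
      refine Finset.sum_congr rfl fun j _ => ?_
      simp only [hΨ, hβ']
      rw [if_pos hu]
      push_cast
      ring
    · rw [Set.indicator_of_notMem (show u ∉ Set.Iic a from hu)]
      symm
      refine Finset.sum_eq_zero fun j _ => ?_
      simp only [hΨ]
      rw [if_neg hu, mul_zero, zero_mul]
  have hI : ∑ j, ∫ u, ‖Ψ j u‖ ^ 2 ≤ δ / 80 := by
    have h2 : ∀ j, ∫ u, ‖Ψ j u‖ ^ 2 ≤ η * Real.pi := by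
      intro j
      have h3 : ∫ u : ℝ, η / (1 + u ^ 2) = η * Real.pi := by
        have h4 : (fun u : ℝ => η / (1 + u ^ 2)) = fun u : ℝ => η * (1 + u ^ 2)⁻¹ := by
          funext u; rw [div_eq_mul_inv]
        rw [h4, integral_const_mul, integral_univ_inv_one_add_sq]
      rw [← h3]
      refine integral_mono (B8_sq_int (hΨm j) hη0.le (hΨb j)) (B8_dom η) fun u => ?_
      simp only
      have h5 := hΨb j u
      have h6 := hΨ1 j u
      have h7 : ‖Ψ j u‖ ≤ 1 := h6.trans (by
        rw [div_le_one (by positivity)]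
        nlinarith [sq_nonneg u])
      nlinarith [norm_nonneg (Ψ j u)]
    calc ∑ j, ∫ u, ‖Ψ j u‖ ^ 2 ≤ ∑ _j : Fin m, η * Real.pi := Finset.sum_le_sum fun j _ => h2 j
      _ = m * (η * Real.pi) := by simp
      _ ≤ m * (δ / (80 * Real.pi * m) * Real.pi) := by gcongr
      _ = δ / 80 := by
        have := Real.pi_pos
        field_simp
  have hpn := pn_nonneg k b
  have hg : 0 < gk k := gk_pos (by omega)
  have ho : 0 < omk k := omk_pos (by omega)
  have hr := B9_ratio (k := k) (by omega) he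
  rw [hX, norm_div, Complex.norm_real, Real.norm_of_nonneg hg.le, div_pow]
  calc ‖Lf k (fun j => (β' j : ℝ)) Ψ b‖ ^ 2 / gk k ^ 2
      ≤ (Real.sqrt k * (4 * (δ / 80) + δ / 20) * pn k b) / gk k ^ 2 := by
        refine div_le_div_of_nonneg_right (h1.trans ?_) (by positivity)
        gcongr
    _ = Real.sqrt k / gk k ^ 2 * (δ / 10 * pn k b) := by ring
    _ ≤ 10 / omk k * (δ / 10 * pn k b) := mul_le_mul_of_nonneg_right hr (by positivity)
    _ = δ / omk k * pn k b := by ring

end Pool.Agent.WA
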