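import Pool.Agent.Lib_helper98.WA.Defs
import Pool.Agent.Lib_helper68.GL2.MFD
import Pool.Agent.Lib_helper28.REAL.Main

/-! Block C1 (helper38): from Mathlib cusp forms to `CForm` and `HData`. -/

namespace Pool.Agent.WA

open Complex MeasureTheory Filter Topology UpperHalfPlane
open scoped MatrixGroups ENNReal
open Pool.Agent.GL2 (qs HData am dens hatw Ep Mol xt FD IsCompletedL oddZ)

theorem C1_growth {k : ℕ} (hk : 0 < k) {c : ℕ → ℂ}
    (h : c =O[atTop] fun n : ℕ => (n : ℝ) ^ ((k : ℝ) / 2)) (h0 : c 0 = 0) :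
    ∃ C : ℝ, ∀ n : ℕ, ‖c n‖ ≤ C * (n : ℝ) ^ ((k : ℝ) / 2) := by
  obtain ⟨C, hC, hb⟩ := h.exists_pos
  obtain ⟨N, hN⟩ := Filter.eventually_atTop.mp hb.bound
  refine ⟨C + ∑ i ∈ Finset.range N, ‖c i‖, fun n => ?_⟩
  have hS : 0 ≤ ∑ i ∈ Finset.range N, ‖c i‖ :=
    Finset.sum_nonneg fun _ _ => norm_nonneg _
  rcases Nat.eq_zero_or_pos n with rfl | hn
  · rw [h0, norm_zero]
    positivity
  have hn1 : (1 : ℝ) ≤ (n : ℝ) ^ ((k : ℝ) / 2) :=
    Real.one_le_rpow (by exact_mod_cast hn) (by positivity)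
  rcases le_or_gt N n with h | h
  · have h2 := hN n h
    rw [Real.norm_of_nonneg (by positivity)] at h2
    refine le_trans h2 ?_
    exact mul_le_mul_of_nonneg_right (by linarith) (by positivity)
  · have h4 : ‖c n‖ ≤ ∑ i ∈ Finset.range N, ‖c i‖ :=
      Finset.single_le_sum (f := fun i => ‖c i‖)
        (fun _ _ => norm_nonneg _) (Finset.mem_range.mpr h)
    nlinarith

theorem C1_qc {k : ℕ} (f : CuspForm 𝒮ℒ (k : ℤ)) (z : ℂ) (hz : 0 < z.im) :
    qc (co f) z = f ⟨z, hz⟩ :=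
  (Pool.Agent.GL2.MFD_hasSum f z hz).tsum_eq

theorem cf_of_cusp {k : ℕ} (hk : 0 < k) (f : CuspForm 𝒮ℒ (k : ℤ)) : CForm k (co f) ∧
    ∀ z : ℍ, qc (co f) z = f z := by
  refine ⟨⟨?_, ?_, ?_, ?_⟩, fun z => C1_qc f z z.im_pos⟩
  · exact CuspFormClass.qExpansion_coeff_zero f one_pos one_mem_strictPeriods_SL
  · have h1 := CuspFormClass.qExpansion_isBigO f
    rw [Subgroup.strictWidthInfty_SL2Z] at h1
    have h2 : (((k : ℤ) : ℝ)) = (k : ℝ) := by simp
    rw [h2] at h1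
    exact C1_growth hk h1
      (CuspFormClass.qExpansion_coeff_zero f one_pos one_mem_strictPeriods_SL)
  · obtain ⟨C, hC⟩ := CuspFormClass.exists_bound f
    refine ⟨C, fun z hz => ?_⟩
    rw [C1_qc f z hz]
    refine (hC ⟨z, hz⟩).trans (le_of_eq ?_)
    rw [neg_div, Real.rpow_neg hz.le, div_eq_mul_inv]
    simp [UpperHalfPlane.im]
  · intro α β γ δ h z hz
    obtain ⟨hz', h1⟩ := Pool.Agent.GL2.MFD_slash f α β γ δ h z hz
    rw [C1_qc f _ hz', C1_qc f z hz, h1]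

theorem eig_data {k : ℕ} (hk : 0 < k) {f : CuspForm 𝒮ℒ (k : ℤ)} (hf : Eig f) :
    HData k (fun n => (co f n).re) ∧ ∀ n, ((co f n).re : ℂ) = co f n := by
  have h1 : Pool.Agent.GL2.IsHeckeEigenform f :=
    ⟨Pool.Agent.RealCoeff.coeff_real f hk hf.one hf.mul hf.hecke, hf.one, hf.mul, hf.hecke⟩
  refine ⟨Pool.Agent.GL2.hdata_of_eigenform_pr hk f h1, fun n => ?_⟩
  exact Complex.ext (by simp) (by rw [Complex.ofReal_im]; exact (h1.real n).symm)

end Pool.Agent.WA
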