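import Pool.Agent.Lib_helper98.WA.Defs
import Pool.Agent.Lib_helper28.REAL.Main

/-!
# Block C2 (HOP): the Hecke operator `T_p` on cusp forms of level one
-/

namespace Pool.Agent.WA

open Complex MeasureTheory Filter Topology UpperHalfPlane ModularGroup
open scoped MatrixGroups Modular ENNReal ModularForm Manifold
open Pool.Agent.RealCoeff (MM GG rep GG_coe GG_det GG_smul rep_surj rep_inj_aux ee f_hasSum
  none_hasSum some_hasSum hs_congr ee_mul_nat)

/-- the product of an integer matrix of determinant `p` with an element of `SL(2, ℤ)` -/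
def C2_mulR {p : ℕ} (A : MM p) (γ : SL(2, ℤ)) : MM p :=
  ⟨A.1 * γ.1, by rw [Matrix.det_mul, A.2, γ.2, mul_one]⟩

theorem C2_GG_mulR {p : ℕ} [Fact (0 < p)] (A : MM p) (γ : SL(2, ℤ)) :
    GG (C2_mulR A γ) = GG A * Matrix.SpecialLinearGroup.mapGL ℝ γ := by
  apply Units.ext
  rw [Units.val_mul, GG_coe, GG_coe]
  ext i j
  simp [C2_mulR, Matrix.mul_apply]

theorem C2_mulR_smul {p : ℕ} (A : MM p) (γ g : SL(2, ℤ)) :
    C2_mulR (g • A) γ = g • C2_mulR A γ := by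
  apply FixedDetMatrices.ext'
  rw [FixedDetMatrices.smul_coe]
  simp only [C2_mulR]
  rw [FixedDetMatrices.smul_coe, Matrix.mul_assoc]

theorem C2_mulR_inj {p : ℕ} {A B : MM p} {γ : SL(2, ℤ)} (h : C2_mulR A γ = C2_mulR B γ) :
    A = B := by
  apply FixedDetMatrices.ext'
  have h1 := congrArg Subtype.val h
  simp only [C2_mulR] at h1
  have h2 : A.1 * γ.1 * (γ⁻¹).1 = B.1 * γ.1 * (γ⁻¹).1 := by rw [h1]
  rw [Matrix.mul_assoc, Matrix.mul_assoc] at h2
  have h3 : γ.1 * (γ⁻¹).1 = 1 := by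
    rw [← Matrix.SpecialLinearGroup.coe_mul, mul_inv_cancel, Matrix.SpecialLinearGroup.coe_one]
  rwa [h3, Matrix.mul_one, Matrix.mul_one] at h2

/-- the permutation of the representatives -/
theorem C2_perm {p : ℕ} (hp : p.Prime) (γ : SL(2, ℤ)) : ∃ e : Option (Fin p) ≃ Option (Fin p),
    ∀ r, ∃ g : SL(2, ℤ), C2_mulR (rep p r) γ = g • rep p (e r) := by
  choose φ g hg using fun r => rep_surj hp (C2_mulR (rep p r) γ)
  have hinj : Function.Injective φ := by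
    intro r r' h
    have h1 := hg r
    have h2 := hg r'
    rw [h] at h1
    have h3 : C2_mulR (rep p r) γ = (g r * (g r')⁻¹) • C2_mulR (rep p r') γ := by
      rw [← h1, ← h2, mul_smul, inv_smul_smul]
    rw [← C2_mulR_smul] at h3
    have h4 := C2_mulR_inj h3
    exact (rep_inj_aux hp r' r _ h4.symm).1.symm
  exact ⟨Equiv.ofBijective φ (Finite.injective_iff_bijective.mp hinj), fun r =>
    ⟨g r, (hg r).symm⟩⟩

variable {k : ℕ}

theorem C2_slash_rep {p : ℕ} [Fact (0 < p)] (f : CuspForm 𝒮ℒ (k : ℤ)) (g : SL(2, ℤ)) (A : MM p) :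
    (⇑f) ∣[(k : ℤ)] GG (g • A) = (⇑f) ∣[(k : ℤ)] GG A := by
  rw [GG_smul, SlashAction.slash_mul]
  congr 1
  exact SlashInvariantFormClass.slash_action_eq f _ ⟨g, rfl⟩

/-- the function `T_p f` -/
noncomputable def C2_fn (p : ℕ) [Fact (0 < p)] (f : CuspForm 𝒮ℒ (k : ℤ)) : ℍ → ℂ :=
  ∑ r : Option (Fin p), (⇑f ∣[(k : ℤ)] GG (rep p r))

theorem C2_inv {p : ℕ} [Fact (0 < p)] (hp : p.Prime) (f : CuspForm 𝒮ℒ (k : ℤ)) (γ : SL(2, ℤ)) :
    (C2_fn p f) ∣[(k : ℤ)] (Matrix.SpecialLinearGroup.mapGL ℝ γ) = C2_fn p f := by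
  obtain ⟨e, he⟩ := C2_perm hp γ
  unfold C2_fn
  rw [SlashAction.sum_slash]
  refine Fintype.sum_equiv e _ _ fun r => ?_
  obtain ⟨g, hg⟩ := he r
  rw [← SlashAction.slash_mul, ← C2_GG_mulR, hg, C2_slash_rep]

theorem C2_GG10 {p : ℕ} [Fact (0 < p)] (r : Option (Fin p)) : (GG (rep p r)) 1 0 = 0 := by
  have : ((GG (rep p r) : GL (Fin 2) ℝ) : Matrix (Fin 2) (Fin 2) ℝ) 1 0 = 0 := by
    rw [GG_coe]
    rcases r with _ | r <;> simp [rep]
  exact this

theorem C2_zero_infty {p : ℕ} [Fact (0 < p)] (f : CuspForm 𝒮ℒ (k : ℤ)) (r : Option (Fin p)) :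
    IsZeroAtImInfty (⇑f ∣[(k : ℤ)] GG (rep p r)) := by
  apply IsZeroAtImInfty.slash _ (C2_GG10 r)
  exact CuspFormClass.zero_at_infty f

theorem C2_fn_zero {p : ℕ} [Fact (0 < p)] (f : CuspForm 𝒮ℒ (k : ℤ)) :
    IsZeroAtImInfty (C2_fn p f) := by
  unfold C2_fn IsZeroAtImInfty Filter.ZeroAtFilter
  rw [Finset.sum_fn, show (0 : ℂ) = ∑ r : Option (Fin p), (0 : ℂ) by simp]
  exact tendsto_finsetSum _ fun r _ => C2_zero_infty f r

theorem C2_holo {p : ℕ} [Fact (0 < p)] (f : CuspForm 𝒮ℒ (k : ℤ)) : MDiff (C2_fn p f) :=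
  MDifferentiable.sum fun r _ => (CuspFormClass.holo f).slash k (GG (rep p r))

/-- `T_p f` as a cusp form -/
noncomputable def C2_form {p : ℕ} [Fact (0 < p)] (hp : p.Prime) (f : CuspForm 𝒮ℒ (k : ℤ)) :
    CuspForm 𝒮ℒ (k : ℤ) where
  toFun := C2_fn p f
  slash_action_eq' γ hγ := by
    obtain ⟨g, rfl⟩ := hγ
    exact C2_inv hp f g
  holo' := C2_holo f
  zero_at_cusps' {c} hc := by
    rw [OnePoint.isZeroAt_iff_forall_SL2Z hc]
    intro γ _
    have h := C2_inv hp f γ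
    have h2 : (C2_fn p f) ∣[(k : ℤ)] γ = C2_fn p f := h
    rw [h2]
    exact C2_fn_zero f

theorem C2_form_apply {p : ℕ} [Fact (0 < p)] (hp : p.Prime) (f : CuspForm 𝒮ℒ (k : ℤ)) (z : ℍ) :
    C2_form hp f z = ∑ r : Option (Fin p), (⇑f ∣[(k : ℤ)] GG (rep p r)) z := by
  change C2_fn p f z = _
  unfold C2_fn
  rw [Finset.sum_apply]

theorem C2_qp (n : ℕ) (z : ℍ) : ee (n * (z : ℂ)) = Function.Periodic.qParam 1 (z : ℂ) ^ n := by
  rw [ee_mul_nat]
  unfold ee Function.Periodic.qParam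
  simp

theorem C2_coeff (hk : 0 < k) {p : ℕ} [Fact (0 < p)] (hp : p.Prime) (f : CuspForm 𝒮ℒ (k : ℤ))
    (n : ℕ) : co (C2_form hp f) n =
      co f (p * n) + (if p ∣ n then (p : ℂ) ^ (k - 1) * co f (n / p) else 0) := by
  unfold co
  symm
  refine ModularFormClass.qExpansion_coeff_unique (k := (k : ℤ)) (Γ := 𝒮ℒ)
    (f := C2_form hp f) (c := fun n => (qExpansion 1 f).coeff (p * n) +
      (if p ∣ n then (p : ℂ) ^ (k - 1) * (qExpansion 1 f).coeff (n / p) else 0))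
    one_pos one_mem_strictPeriods_SL ?_ n
  intro z
  rw [C2_form_apply, Fintype.sum_option]
  have h1 := (none_hasSum f (p := p) hk z).add (some_hasSum f (p := p) z)
  refine hs_congr (fun m => ?_) h1
  rw [← add_mul, C2_qp, smul_eq_mul, add_comm]

/-- block C2 -/
theorem exists_hecke {k : ℕ} (hk : 0 < k) {p : ℕ} (hp : p.Prime) :
    ∃ T : CuspForm 𝒮ℒ (k : ℤ) →ₗ[ℂ] CuspForm 𝒮ℒ (k : ℤ), IsHecke p T := by
  have : Fact (0 < p) := ⟨hp.pos⟩
  refine ⟨{ toFun := C2_form hp, map_add' := ?_, map_smul' := ?_ }, ?_⟩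
  · intro f g
    ext z
    rw [add_apply, C2_form_apply, C2_form_apply, C2_form_apply,
      ← Finset.sum_add_distrib]
    refine Finset.sum_congr rfl fun r _ => ?_
    rw [FunLike.coe_add, SlashAction.add_slash]
    rfl
  · intro c f
    ext z
    rw [RingHom.id_apply]
    change C2_form hp (c • f) z = c • (C2_form hp f z)
    rw [C2_form_apply, C2_form_apply, Finset.smul_sum]
    refine Finset.sum_congr rfl fun r _ => ?_
    have hp0 : (0 : ℝ) < p := by exact_mod_cast hp.pos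
    have h1 : (⇑(c • f)) = c • ⇑f := rfl
    rw [h1, ModularForm.smul_slash]
    rw [Pool.Agent.RealCoeff.sigma_pos (by rw [GG_det]; exact hp0)]
    rfl
  · intro f n
    exact C2_coeff hk hp f n

end Pool.Agent.WA
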