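import Pool.Agent.Lib_helper98.WA.Defs
import Pool.Agent.Lib_helper28.REAL.R
import Pool.Agent.Lib_helper68.GL2.B7
import Pool.Agent.Lib_helper68.GL2.MFD

/-! Block C3 (HSA): the Hecke operators are self-adjoint for the Petersson product (helper95). -/

namespace Pool.Agent.WA

open Complex MeasureTheory Filter Topology UpperHalfPlane ModularGroup
open scoped MatrixGroups Modular ENNReal ModularForm ComplexConjugate
open Pool.Agent.GL2 (qs HData am dens hatw Ep Mol xt FD IsCompletedL oddZ)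
open Pool.Agent.RealCoeff (MM GG GG_det GG_smul GG_mul_adj GG_adj_smul adjM adjM_adjM scal
  slash_scal sigma_pos P P_meas P_nonneg P_int P_hasSum P_smul_meas GG_smul_smul pet_norm_sq rep
  rep_bij hasSum_prod_fin hs_congr ee f_hasSum none_hasSum some_hasSum f_slash f_cont pet_bdd)

section pair

variable {p : ℕ} [hp : Fact (0 < p)] {k : ℤ} {f g : ℍ → ℂ}

/-- the integrand for a pair of forms -/
noncomputable def c3_Ph (k : ℤ) (f g : ℍ → ℂ) (A : MM p) (z : ℍ) : ℂ :=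
  petersson k f (g ∣[k] GG A) z

theorem c3_Ph_smul (hg : ∀ γ : SL(2, ℤ), g ∣[k] γ = g) (γ : SL(2, ℤ)) (A : MM p) :
    c3_Ph k f g (γ • A) = c3_Ph k f g A := by
  unfold c3_Ph
  rw [GG_smul, SlashAction.slash_mul]
  have h : g ∣[k] (Matrix.SpecialLinearGroup.mapGL ℝ) γ = g := hg γ
  rw [h]

theorem c3_Ph_adj (A : MM p) (z : ℍ) :
    c3_Ph k f g A (GG (adjM A) • z) = conj (c3_Ph k g f (adjM A) z) := by
  have hp0 : (0 : ℝ) < p := by exact_mod_cast hp.1
  have hp1 : (p : ℂ) ≠ 0 := by exact_mod_cast hp.1.ne'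
  have h1 := petersson_slash k f (g ∣[k] GG A) (GG (adjM A)) z
  rw [GG_det, abs_of_pos hp0, sigma_pos (by rw [GG_det]; exact hp0),
    ← SlashAction.slash_mul, GG_mul_adj] at h1
  have h2 : petersson k (f ∣[k] GG (adjM A)) (g ∣[k] scal p) z =
      (p : ℂ) ^ (k - 2) * petersson k (f ∣[k] GG (adjM A)) g z := by
    unfold petersson
    rw [slash_scal]; ring
  rw [h2] at h1
  have h3 : petersson k (f ∣[k] GG (adjM A)) g z =
      petersson k f (g ∣[k] GG A) (GG (adjM A) • z) := by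
    have h4 : (p : ℂ) ^ (k - 2) ≠ 0 := zpow_ne_zero _ hp1
    apply mul_left_cancel₀ h4
    rw [h1]
    push_cast
    rfl
  unfold c3_Ph
  rw [← h3, petersson_symm]

theorem c3_Ph_cont (hf : Continuous f) (hg : Continuous g) (A : MM p) :
    Continuous (c3_Ph k f g A) := by
  unfold c3_Ph
  refine petersson_continuous k hf ?_
  rw [ModularForm.slash_def]
  have hp0 : (0 : ℝ) < p := by exact_mod_cast hp.1
  have h1 : ∀ z, σ (GG A) (g (GG A • z)) = g (GG A • z) := fun z =>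
    sigma_pos (by rw [GG_det]; exact hp0) _
  simp_rw [h1]
  refine Continuous.mul (Continuous.mul (hg.comp (continuous_const_smul _)) continuous_const) ?_
  refine Continuous.zpow₀ ?_ _ fun z => Or.inl (denom_ne_zero _ z)
  unfold denom
  fun_prop

theorem c3_Ph_bdd {C D : ℝ} (hf : ∀ z, ‖petersson k f f z‖ ≤ C)
    (hg : ∀ z, ‖petersson k g g z‖ ≤ D) (A : MM p) :
    ∃ C', ∀ z, ‖c3_Ph k f g A z‖ ≤ C' := by
  have hp0 : (0 : ℝ) < p := by exact_mod_cast hp.1
  have hC : 0 ≤ C := (norm_nonneg _).trans (hf I)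
  have hD : 0 ≤ D := (norm_nonneg _).trans (hg I)
  refine ⟨√(C * ((p : ℝ) ^ (k - 2) * D)), fun z => ?_⟩
  apply Real.le_sqrt_of_sq_le
  unfold c3_Ph
  rw [pet_norm_sq]
  refine mul_le_mul (hf z) ?_ (norm_nonneg _) hC
  rw [petersson_slash, GG_det, abs_of_pos hp0, norm_mul, norm_σ]
  refine mul_le_mul ?_ (hg _) (norm_nonneg _) (by positivity)
  rw [norm_zpow]
  simp

/-- the integral attached to a matrix -/
noncomputable def c3_II (k : ℤ) (f g : ℍ → ℂ) (A : MM p) : ℂ :=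
  ∫ z : ℍ, ((P z * P (GG A • z) : ℝ) : ℂ) * c3_Ph k f g A z

theorem c3_II_adj (A : MM p) : c3_II k g f (adjM A) = conj (c3_II k f g A) := by
  unfold c3_II
  rw [← integral_conj]
  rw [← integral_smul_eq_self (μ := (volume : Measure ℍ))
    (fun z => conj (((P z * P (GG A • z) : ℝ) : ℂ) * c3_Ph k f g A z)) (g := GG (adjM A))]
  refine integral_congr_ae (Eventually.of_forall fun z => ?_)
  simp only
  rw [GG_adj_smul, c3_Ph_adj, map_mul, Complex.conj_ofReal, Complex.conj_conj]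
  push_cast
  ring

theorem c3_II_hasSum (hgs : ∀ γ : SL(2, ℤ), g ∣[k] γ = g) (hfc : Continuous f)
    (hgc : Continuous g) {C D : ℝ} (hf : ∀ z, ‖petersson k f f z‖ ≤ C)
    (hg : ∀ z, ‖petersson k g g z‖ ≤ D) (A : MM p) :
    HasSum (fun γ : SL(2, ℤ) => c3_II k f g (γ • A))
      (∫ z : ℍ, ((P z : ℝ) : ℂ) * c3_Ph k f g A z) := by
  obtain ⟨C', hC'⟩ := c3_Ph_bdd hf hg A
  have hC0 : 0 ≤ C' := (norm_nonneg _).trans (hC' UpperHalfPlane.I)
  unfold c3_II
  have hs : ∀ z : ℍ, HasSum (fun γ : SL(2, ℤ) => P (GG (γ • A) • z)) 1 := by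
    intro z
    simp_rw [GG_smul_smul]
    exact P_hasSum _
  refine hasSum_integral_of_dominated_convergence
    (bound := fun γ z => P z * P (GG (γ • A) • z) * C') (fun γ => ?_) (fun γ => ?_) ?_ ?_ ?_
  · refine AEStronglyMeasurable.mul ?_ ?_
    · exact (Complex.measurable_ofReal.comp (P_meas.mul (P_smul_meas _))).aestronglyMeasurable
    · rw [c3_Ph_smul hgs]
      exact (c3_Ph_cont hfc hgc A).aestronglyMeasurable
  · refine Eventually.of_forall fun z => ?_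
    rw [norm_mul, Complex.norm_real, Real.norm_of_nonneg
      (mul_nonneg (P_nonneg _) (P_nonneg _)), c3_Ph_smul hgs]
    exact mul_le_mul_of_nonneg_left (hC' z) (mul_nonneg (P_nonneg _) (P_nonneg _))
  · refine Eventually.of_forall fun z => ?_
    exact (((hs z).mul_left (P z)).mul_right C').summable
  · have h1 : (fun z : ℍ => ∑' γ : SL(2, ℤ), P z * P (GG (γ • A) • z) * C') =
        fun z => P z * C' := by
      funext z
      rw [(((hs z).mul_left (P z)).mul_right C').tsum_eq, mul_one]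
    rw [h1]
    exact P_int.mul_const C'
  · refine Eventually.of_forall fun z => ?_
    have h2 := ((hs z).mul_left (P z))
    have h3 := (Complex.hasSum_ofReal.mpr h2).mul_right (c3_Ph k f g A z)
    rw [mul_one] at h3
    have h4 : (fun γ : SL(2, ℤ) => ((P z * P (GG (γ • A) • z) : ℝ) : ℂ) *
        c3_Ph k f g (γ • A) z) =
        fun γ => ((P z * P (GG (γ • A) • z) : ℝ) : ℂ) * c3_Ph k f g A z := by
      funext γ
      rw [c3_Ph_smul hgs]
    rw [h4]
    exact h3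

theorem c3_II_total (hpp : p.Prime) (hgs : ∀ γ : SL(2, ℤ), g ∣[k] γ = g) (hfc : Continuous f)
    (hgc : Continuous g) {C D : ℝ} (hf : ∀ z, ‖petersson k f f z‖ ≤ C)
    (hg : ∀ z, ‖petersson k g g z‖ ≤ D) :
    HasSum (c3_II k f g : MM p → ℂ)
      (∑ r, ∫ z : ℍ, ((P z : ℝ) : ℂ) * c3_Ph k f g (rep p r) z) := by
  have h1 := hasSum_prod_fin
    (F := fun x : Option (Fin p) × SL(2, ℤ) => c3_II k f g (x.2 • rep p x.1))
    (fun r => c3_II_hasSum hgs hfc hgc hf hg (rep p r))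
  let e := Equiv.ofBijective _ (rep_bij hpp)
  have h2 : (fun x : Option (Fin p) × SL(2, ℤ) => c3_II k f g (x.2 • rep p x.1)) =
    (c3_II k f g) ∘ e := rfl
  rw [h2] at h1
  exact (Equiv.hasSum_iff e).mp h1

theorem c3_total (hpp : p.Prime) (hfs : ∀ γ : SL(2, ℤ), f ∣[k] γ = f)
    (hgs : ∀ γ : SL(2, ℤ), g ∣[k] γ = g) (hfc : Continuous f)
    (hgc : Continuous g) {C D : ℝ} (hf : ∀ z, ‖petersson k f f z‖ ≤ C)
    (hg : ∀ z, ‖petersson k g g z‖ ≤ D) :
    conj (∑ r, ∫ z : ℍ, ((P z : ℝ) : ℂ) * c3_Ph k f g (rep p r) z) =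
      ∑ r, ∫ z : ℍ, ((P z : ℝ) : ℂ) * c3_Ph k g f (rep p r) z := by
  have h1 := c3_II_total hpp hfs hgc hfc hg hf
  have h2 : HasSum (fun A : MM p => conj (c3_II k f g A))
      (conj (∑ r, ∫ z : ℍ, ((P z : ℝ) : ℂ) * c3_Ph k f g (rep p r) z)) := by
    exact ((c3_II_total hpp hgs hfc hgc hf hg).map (starRingEnd ℂ) Complex.continuous_conj)
  let e : MM p ≃ MM p := ⟨adjM, adjM, adjM_adjM, adjM_adjM⟩
  have h3 : (fun A : MM p => conj (c3_II k f g A)) = (c3_II k g f) ∘ e := by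
    funext A
    exact (c3_II_adj A).symm
  rw [h3] at h2
  exact ((Equiv.hasSum_iff e).mp h2).unique h1

end pair

/-- the sum over the representatives is the Hecke operator -/
theorem c3_hecke {k : ℕ} (hk : 0 < k) {p : ℕ} [hp : Fact (0 < p)]
    {T : CuspForm 𝒮ℒ (k : ℤ) →ₗ[ℂ] CuspForm 𝒮ℒ (k : ℤ)} (hT : IsHecke p T)
    (f : CuspForm 𝒮ℒ (k : ℤ)) (z : ℍ) :
    ∑ r : Option (Fin p), (⇑f ∣[(k : ℤ)] GG (rep p r)) z = T f z := by
  rw [Fintype.sum_option]
  have h1 := (none_hasSum f (p := p) hk z).add (some_hasSum f (p := p) z)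
  have h2 := f_hasSum (T f) z
  refine h1.unique ?_
  refine hs_congr (fun n => ?_) h2
  have h3 : (qExpansion 1 (T f)).coeff n = (qExpansion 1 f).coeff (p * n) +
      (if p ∣ n then (p : ℂ) ^ (k - 1) * (qExpansion 1 f).coeff (n / p) else 0) := hT f n
  rw [h3, ← add_mul, add_comm]

theorem c3_pairbdd {k : ℕ} (f g : CuspForm 𝒮ℒ (k : ℤ)) :
    ∃ C, ∀ z, ‖petersson (k : ℤ) f g z‖ ≤ C :=
  CuspFormClass.petersson_bounded_left (k : ℤ) 𝒮ℒ f g

theorem c3_pairinv {k : ℕ} (f g : CuspForm 𝒮ℒ (k : ℤ)) (γ : SL(2, ℤ)) (z : ℍ) :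
    petersson (k : ℤ) f g (γ • z) = petersson (k : ℤ) f g z := by
  have h := SlashInvariantFormClass.petersson_smul (k := (k : ℤ)) (Γ := 𝒮ℒ) (f := f) (f' := g)
    (g := Matrix.SpecialLinearGroup.mapGL ℝ γ) (τ := z) ⟨γ, rfl⟩
  exact h

theorem c3_sum {k : ℕ} (hk : 0 < k) {p : ℕ} [hp : Fact (0 < p)]
    {T : CuspForm 𝒮ℒ (k : ℤ) →ₗ[ℂ] CuspForm 𝒮ℒ (k : ℤ)} (hT : IsHecke p T)
    (f g : CuspForm 𝒮ℒ (k : ℤ)) :
    ∑ r, ∫ z : ℍ, ((P z : ℝ) : ℂ) * c3_Ph (k : ℤ) f g (rep p r) z =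
      ∫ z : ℍ, ((P z : ℝ) : ℂ) * petersson (k : ℤ) f (T g) z := by
  obtain ⟨C, hC⟩ := pet_bdd f
  obtain ⟨D, hD⟩ := pet_bdd g
  rw [← integral_finsetSum]
  · refine integral_congr_ae (Eventually.of_forall fun z => ?_)
    simp only
    rw [← Finset.mul_sum]
    congr 1
    unfold c3_Ph petersson
    rw [← Finset.sum_mul, ← Finset.mul_sum, c3_hecke hk hT g z]
  · intro r _
    obtain ⟨C', hC'⟩ := c3_Ph_bdd hC hD (rep p r)
    exact (P_int.ofReal).mul_bdd (c := C') (c3_Ph_cont (f_cont f) (f_cont g) _).aestronglyMeasurable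
      (Eventually.of_forall hC')

/-- the integral against the partition of unity is half of the integral over the domain -/
theorem c3_P_fd {k : ℕ} (f g : CuspForm 𝒮ℒ (k : ℤ)) :
    ∫ z in 𝒟ᵒ, petersson (k : ℤ) f g z =
      2 * ∫ z : ℍ, ((P z : ℝ) : ℂ) * petersson (k : ℤ) f g z := by
  obtain ⟨C, hC⟩ := c3_pairbdd f g
  have hcont : Continuous (petersson (k : ℤ) f g) :=
    petersson_continuous (k : ℤ) (f_cont f) (f_cont g)
  have hsm : StronglyMeasurable fun z : ℍ => ((P z : ℝ) : ℂ) * petersson (k : ℤ) f g z := by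
    exact ((Complex.measurable_ofReal.comp P_meas).mul hcont.measurable).stronglyMeasurable
  have hint : Integrable fun z : ℍ => ((P z : ℝ) : ℂ) * petersson (k : ℤ) f g z :=
    (P_int.ofReal).mul_bdd (c := C) hcont.aestronglyMeasurable (Eventually.of_forall hC)
  rw [← GL2.b7_unfold _ hsm hint]
  refine integral_congr_ae (Eventually.of_forall fun z => ?_)
  simp only
  simp_rw [c3_pairinv]
  rw [tsum_mul_right]
  have h1 : ∑' γ : SL(2, ℤ), ((P (γ • z) : ℝ) : ℂ) = 1 := by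
    have := (Complex.hasSum_ofReal.mpr (P_hasSum z)).tsum_eq
    simpa using this
  rw [h1, one_mul]

theorem c3_qc {k : ℕ} (f : CuspForm 𝒮ℒ (k : ℤ)) (z : ℍ) : qc (co f) z = f z := by
  have h := GL2.MFD_hasSum f z z.im_pos
  exact h.tsum_eq

theorem c3_indic (z : ℍ) : (z : ℂ) ∈ FD ↔ z ∈ (𝒟ᵒ : Set ℍ) := by
  have : FD = (↑) '' 𝒟ᵒ := by rw [coe_fdo]; rfl
  rw [this]
  constructor
  · rintro ⟨v, hv, hvw⟩
    rwa [← UpperHalfPlane.ext hvw]
  · intro h
    exact ⟨z, h, rfl⟩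

theorem c3_pet {k : ℕ} (f g : CuspForm 𝒮ℒ (k : ℤ)) :
    pet f g = ∫ z in 𝒟ᵒ, petersson (k : ℤ) f g z := by
  have hmo : MeasurableSet (𝒟ᵒ : Set ℍ) := isOpen_fdo.measurableSet
  have hFD : MeasurableSet FD := by
    have : FD = (↑) '' 𝒟ᵒ := by rw [coe_fdo]; rfl
    rw [this]
    exact measurableEmbedding_coe.measurableSet_image.mpr hmo
  have hsub : FD ⊆ {z : ℂ | 0 < z.im} := fun z hz => hz.1
  set F : ℂ → ℂ := fun z => starRingEnd ℂ (qc (co f) z) * qc (co g) z * ((z.im ^ k : ℝ) : ℂ)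
    with hF
  have h1 := GL2.b7_int (FD.indicator F)
  rw [← integral_indicator hmo]
  have h2 : ∀ z : ℍ, (𝒟ᵒ : Set ℍ).indicator (petersson (k : ℤ) f g) z = FD.indicator F (z : ℂ) := by
    intro z
    by_cases hz : z ∈ (𝒟ᵒ : Set ℍ)
    · rw [Set.indicator_of_mem hz, Set.indicator_of_mem ((c3_indic z).mpr hz), hF]
      simp only
      rw [c3_qc, c3_qc]
      unfold petersson
      push_cast
      rw [zpow_natCast]
      rfl
    · rw [Set.indicator_of_notMem hz, Set.indicator_of_notMem (fun h => hz ((c3_indic z).mp h))]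
  simp_rw [h2]
  rw [h1]
  unfold pet
  rw [← integral_indicator hFD, ← integral_indicator
    ((isOpen_lt continuous_const Complex.continuous_im).measurableSet)]
  congr 1
  ext z
  by_cases hz : z ∈ FD
  · rw [Set.indicator_of_mem hz, Set.indicator_of_mem (hsub hz), Set.indicator_of_mem hz, hF]
    simp only
    push_cast
    ring
  · rw [Set.indicator_of_notMem hz]
    by_cases hz' : z ∈ {z : ℂ | 0 < z.im}
    · rw [Set.indicator_of_mem hz', Set.indicator_of_notMem hz, mul_zero]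
    · rw [Set.indicator_of_notMem hz']

/-- the Hecke operators are self-adjoint -/
theorem pet_hecke {k : ℕ} (hk : 0 < k) {p : ℕ} (hp : p.Prime)
    {T : CuspForm 𝒮ℒ (k : ℤ) →ₗ[ℂ] CuspForm 𝒮ℒ (k : ℤ)} (hT : IsHecke p T)
    (f g : CuspForm 𝒮ℒ (k : ℤ)) : pet (T f) g = pet f (T g) := by
  have : Fact (0 < p) := ⟨hp.pos⟩
  obtain ⟨C, hC⟩ := pet_bdd f
  obtain ⟨D, hD⟩ := pet_bdd g
  have h1 := c3_total (p := p) (k := (k : ℤ)) (f := ⇑g) (g := ⇑f) hp (f_slash g) (f_slash f)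
    (f_cont g) (f_cont f) hD hC
  rw [c3_sum hk hT g f, c3_sum hk hT f g, ← integral_conj] at h1
  rw [c3_pet, c3_pet, c3_P_fd, c3_P_fd, ← h1]
  congr 1
  refine integral_congr_ae (Eventually.of_forall fun z => ?_)
  simp only
  rw [map_mul, Complex.conj_ofReal, petersson_symm]

end Pool.Agent.WA
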