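import Pool.Agent.Lib_helper98.WAF.A1
import Pool.Agent.Lib_helper98.WAF.B1b
import Pool.Agent.Lib_helper68.GL2.RSA

/-! Block N1 (COV) of the weight aspect: the covering of the strip. -/

namespace Pool.Agent.WA

open Complex MeasureTheory Filter Topology UpperHalfPlane ModularGroup
open scoped MatrixGroups Modular ENNReal
open Pool.Agent.GL2 (qs HData am dens hatw Ep Mol xt FD IsCompletedL oddZ)

/-- the strip in `ℍ` -/
def N1_strip (η : ℝ) : Set ℍ := {w : ℍ | (0 ≤ w.re ∧ w.re < 1) ∧ η < w.im}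

/-- the finite set of possible bottom rows -/
noncomputable def N1_F (x R : ℝ) (A : ℤ) : Finset (ℤ × ℤ) :=
  {((0 : ℤ), (1 : ℤ)), (0, -1)} ∪ ((Finset.Icc (-A) A).erase 0).biUnion
    (fun c => (Finset.Icc ⌈-(c * x) - R⌉ ⌊-(c * x) + R⌋).image (fun d => (c, d)))

theorem N1_F_card (x : ℝ) {R : ℝ} (hR : 0 ≤ R) {A : ℤ} (hA : 0 ≤ A) :
    ((N1_F x R A).card : ℝ) ≤ 2 + 2 * A * (2 * R + 1) := by
  have h1 : (N1_F x R A).card ≤ 2 + ∑ c ∈ (Finset.Icc (-A) A).erase 0,
      (Finset.Icc ⌈-(c * x) - R⌉ ⌊-(c * x) + R⌋).card := by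
    unfold N1_F
    refine (Finset.card_union_le _ _).trans (add_le_add Finset.card_le_two ?_)
    refine Finset.card_biUnion_le.trans (Finset.sum_le_sum fun c _ => Finset.card_image_le)
  have h2 : ∀ c ∈ (Finset.Icc (-A) A).erase 0,
      ((Finset.Icc ⌈-(c * x) - R⌉ ⌊-(c * x) + R⌋).card : ℝ) ≤ 2 * R + 1 := by
    intro c _
    rw [Int.card_Icc]
    have e1 : (⌈-(c * x) - R⌉ : ℝ) ≥ -(c * x) - R := Int.le_ceil _
    have e2 : (⌊-(c * x) + R⌋ : ℝ) ≤ -(c * x) + R := Int.floor_le _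
    by_cases h : 0 ≤ ⌊-(c * x) + R⌋ + 1 - ⌈-(c * x) - R⌉
    · have : ((⌊-(c * x) + R⌋ + 1 - ⌈-(c * x) - R⌉).toNat : ℝ) =
          ((⌊-(c * x) + R⌋ + 1 - ⌈-(c * x) - R⌉ : ℤ) : ℝ) := by
        have := Int.toNat_of_nonneg h
        exact_mod_cast this
      rw [this]
      push_cast
      linarith
    · rw [Int.toNat_of_nonpos (by omega)]
      simp only [Nat.cast_zero]
      linarith
  have h3 : (((Finset.Icc (-A) A).erase 0).card : ℝ) = 2 * A := by
    rw [Finset.card_erase_of_mem (by simp [hA]), Int.card_Icc]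
    have : ((A + 1 - -A).toNat - 1 : ℕ) = (2 * A).toNat := by omega
    rw [this]
    have := Int.toNat_of_nonneg (show 0 ≤ 2 * A by omega)
    have h4 : (((2 * A).toNat : ℕ) : ℝ) = ((2 * A : ℤ) : ℝ) := by
      rw [← Int.cast_natCast, this]
    rw [h4]
    push_cast
    rfl
  calc ((N1_F x R A).card : ℝ) ≤ ((2 + ∑ c ∈ (Finset.Icc (-A) A).erase 0,
      (Finset.Icc ⌈-(c * x) - R⌉ ⌊-(c * x) + R⌋).card : ℕ) : ℝ) := by exact_mod_cast h1
    _ = 2 + ∑ c ∈ (Finset.Icc (-A) A).erase 0,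
      ((Finset.Icc ⌈-(c * x) - R⌉ ⌊-(c * x) + R⌋).card : ℝ) := by push_cast; rfl
    _ ≤ 2 + ∑ c ∈ (Finset.Icc (-A) A).erase 0, (2 * R + 1) := by
        gcongr with c hc
        exact h2 c hc
    _ = 2 + 2 * A * (2 * R + 1) := by
        rw [Finset.sum_const, nsmul_eq_mul, h3]

theorem N1_inj (z : ℍ) (η : ℝ) :
    Function.Injective (fun g : {g : SL(2, ℤ) // g • z ∈ N1_strip η} => (g.1 1 0, g.1 1 1)) := by
  rintro ⟨g, hg⟩ ⟨g', hg'⟩ h
  simp only [Prod.mk.injEq] at h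
  obtain ⟨hc, hd⟩ := h
  have h10 : (g' * g⁻¹) 1 0 = 0 := by
    rw [Matrix.SpecialLinearGroup.coe_mul, Matrix.mul_apply, Fin.sum_univ_two,
      Matrix.SpecialLinearGroup.SL2_inv_expl]
    simp [← hc, ← hd]
    ring
  have h11 : (g' * g⁻¹) 1 1 = 1 := by
    have hdet := g.det_coe
    rw [Matrix.det_fin_two] at hdet
    rw [Matrix.SpecialLinearGroup.coe_mul, Matrix.mul_apply, Fin.sum_univ_two,
      Matrix.SpecialLinearGroup.SL2_inv_expl]
    simp [← hc, ← hd]
    linarith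
  have h00 : (g' * g⁻¹) 0 0 = 1 := by
    have hdet := (g' * g⁻¹).det_coe
    rw [Matrix.det_fin_two, h10, h11] at hdet
    linarith
  have hT : g' * g⁻¹ = ModularGroup.T ^ ((g' * g⁻¹) 0 1) := by
    ext i j
    fin_cases i <;> fin_cases j
    · simpa [coe_T_zpow] using h00
    · simp [coe_T_zpow]
    · simpa [coe_T_zpow] using h10
    · simpa [coe_T_zpow] using h11
  set n := (g' * g⁻¹) 0 1 with hn
  have h0 : g' = ModularGroup.T ^ n * g := by
    rw [← hT]; simp
  have h1 : g' • z = ModularGroup.T ^ n • (g • z) := by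
    rw [← mul_smul, ← h0]
  have h2 : (g' • z).re = (g • z).re + n := by
    rw [h1, re_T_zpow_smul]
  have h3 := hg.1
  have h4 := hg'.1
  rw [h2] at h4
  have h5 : n = 0 := by
    have h6 : (n : ℝ) < 1 := by linarith [h3.1, h4.2]
    have h7 : (-1 : ℝ) < n := by linarith [h3.2, h4.1]
    have h8 : n < 1 := by exact_mod_cast h6
    have h9 : -1 < n := by exact_mod_cast h7
    omega
  rw [h5] at h0
  simp at h0
  exact Subtype.ext h0.symm

theorem N1_mem {z : ℍ} {η : ℝ} (h0 : 0 < η) {g : SL(2, ℤ)} (hg : g • z ∈ N1_strip η) :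
    (g 1 0, g 1 1) ∈ N1_F z.re (Real.sqrt (z.im / η)) ⌊Real.sqrt (1 / (η * z.im))⌋ := by
  have him := hg.2
  rw [GL2.RSA_im_smul] at him
  have hy := z.im_pos
  set c : ℤ := g 1 0 with hc
  set d : ℤ := g 1 1 with hd
  have hne := GL2.RSA_denom_ne g z
  have hpos : 0 < ‖((c : ℤ) * (z : ℂ) + (d : ℤ))‖ ^ 2 := by
    have : 0 < ‖((c : ℤ) * (z : ℂ) + (d : ℤ))‖ := norm_pos_iff.mpr hne
    positivity
  rw [lt_div_iff₀ hpos] at him
  have hn : ‖((c : ℤ) * (z : ℂ) + (d : ℤ))‖ ^ 2 = (c * z.re + d) ^ 2 + (c * z.im) ^ 2 := by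
    rw [← Complex.normSq_eq_norm_sq, Complex.normSq_apply]
    simp
    ring
  rw [hn] at him
  have h1 : (c * z.re + d) ^ 2 + (c * z.im) ^ 2 < z.im / η := by
    rw [lt_div_iff₀ h0]
    linarith
  have hdet := g.det_coe
  rw [Matrix.det_fin_two] at hdet
  unfold N1_F
  rw [Finset.mem_union]
  by_cases hc0 : c = 0
  · left
    have h2 : g 0 0 * d = 1 := by
      have h3 : g 0 0 * g 1 1 - g 0 1 * g 1 0 = 1 := hdet
      rw [← hc, hc0, mul_zero, sub_zero] at h3
      exact h3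
    have h4 : IsUnit d := IsUnit.of_mul_eq_one_right _ h2
    rcases Int.isUnit_iff.mp h4 with h | h
    · simp [hc0, h]
    · simp [hc0, h]
  · right
    rw [Finset.mem_biUnion]
    refine ⟨c, ?_, ?_⟩
    · rw [Finset.mem_erase, Finset.mem_Icc]
      refine ⟨hc0, ?_⟩
      have h2 : (c : ℝ) ^ 2 ≤ 1 / (η * z.im) := by
        rw [le_div_iff₀ (by positivity)]
        have h3 : (c * z.im) ^ 2 < z.im / η := lt_of_le_of_lt (by nlinarith [sq_nonneg (c * z.re + d)]) h1
        rw [lt_div_iff₀ h0] at h3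
        have h4 : ((c : ℝ) ^ 2 * (η * z.im)) * z.im < 1 * z.im := by nlinarith
        exact (lt_of_mul_lt_mul_right h4 hy.le).le
      have h3 : |(c : ℝ)| ≤ Real.sqrt (1 / (η * z.im)) := Real.abs_le_sqrt h2
      have h4 : |c| ≤ ⌊Real.sqrt (1 / (η * z.im))⌋ := by
        rw [Int.le_floor]
        push_cast
        exact h3
      exact abs_le.mp h4
    · rw [Finset.mem_image]
      refine ⟨d, ?_, rfl⟩
      rw [Finset.mem_Icc, Int.ceil_le, Int.le_floor]
      have h2 : (c * z.re + d) ^ 2 ≤ z.im / η := by nlinarith [sq_nonneg (c * z.im)]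
      have h3 := abs_le.mp (Real.abs_le_sqrt h2)
      constructor <;> linarith [h3.1, h3.2]

theorem N1_count {z : ℍ} (hz : 1 / 2 ≤ z.im) {η : ℝ} (h0 : 0 < η) (h1 : η ≤ 1) :
    ∑' g : SL(2, ℤ), (N1_strip η).indicator (fun _ => (1 : ℝ≥0∞)) (g • z) ≤
      ENNReal.ofReal (9 / η) := by
  have hy := z.im_pos
  have e1 : ∀ g : SL(2, ℤ), (N1_strip η).indicator (fun _ => (1 : ℝ≥0∞)) (g • z) =
      {g : SL(2, ℤ) | g • z ∈ N1_strip η}.indicator (fun _ => 1) g := by
    intro g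
    by_cases hg : g • z ∈ N1_strip η
    · rw [Set.indicator_of_mem hg, Set.indicator_of_mem (by exact hg)]
    · rw [Set.indicator_of_notMem hg, Set.indicator_of_notMem (by exact hg)]
  simp_rw [e1]
  rw [← tsum_subtype {g : SL(2, ℤ) | g • z ∈ N1_strip η} (fun _ => (1 : ℝ≥0∞)),
    ENNReal.tsum_const, mul_one]
  set F := N1_F z.re (Real.sqrt (z.im / η)) ⌊Real.sqrt (1 / (η * z.im))⌋ with hF
  have h2 : ENat.card {g : SL(2, ℤ) | g • z ∈ N1_strip η} ≤ (F.card : ℕ∞) := by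
    have hinj : Function.Injective (fun g : {g : SL(2, ℤ) | g • z ∈ N1_strip η} =>
        (⟨(g.1 1 0, g.1 1 1), N1_mem h0 g.2⟩ : F)) := by
      intro g g' h
      apply N1_inj z η
      exact congrArg Subtype.val h
    have h3 := ENat.card_le_card_of_injective hinj
    refine h3.trans (le_of_eq ?_)
    simp
  have h3 : (F.card : ℝ) ≤ 9 / η := by
    have hA0 : 0 ≤ ⌊Real.sqrt (1 / (η * z.im))⌋ := Int.floor_nonneg.mpr (Real.sqrt_nonneg _)
    refine (N1_F_card z.re (Real.sqrt_nonneg _) hA0).trans ?_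
    set R := Real.sqrt (z.im / η) with hR
    have hA1 : (⌊Real.sqrt (1 / (η * z.im))⌋ : ℝ) ≤ Real.sqrt (1 / (η * z.im)) := Int.floor_le _
    set A : ℝ := (⌊Real.sqrt (1 / (η * z.im))⌋ : ℝ) with hA
    have hAn : (0 : ℝ) ≤ A := by rw [hA]; exact_mod_cast hA0
    have hRn : 0 ≤ R := Real.sqrt_nonneg _
    have h4 : A * R ≤ 1 / η := by
      calc A * R ≤ Real.sqrt (1 / (η * z.im)) * R := mul_le_mul_of_nonneg_right hA1 hRn
        _ = Real.sqrt ((1 / η) ^ 2) := by
            rw [hR, ← Real.sqrt_mul (by positivity)]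
            congr 1
            field_simp
        _ = 1 / η := Real.sqrt_sq (by positivity)
    have h5 : A ≤ 3 / 2 / η := by
      refine hA1.trans ?_
      rw [Real.sqrt_le_left (by positivity)]
      rw [div_pow, div_le_div_iff₀ (by positivity) (by positivity)]
      nlinarith
    have h6 : 1 ≤ 1 / η := by
      rw [le_div_iff₀ h0]; linarith
    have e2 : 2 + 2 * A * (2 * R + 1) = 2 + 4 * (A * R) + 2 * A := by ring
    rw [e2]
    have e3 : 9 / η = 2 * (1 / η) + 4 * (1 / η) + 2 * (3 / 2 / η) := by ring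
    rw [e3]
    linarith
  calc ((ENat.card {g : SL(2, ℤ) | g • z ∈ N1_strip η} : ℕ∞) : ℝ≥0∞) ≤ ((F.card : ℕ∞) : ℝ≥0∞) := by
        exact_mod_cast h2
    _ = ENNReal.ofReal (F.card : ℝ) := by simp
    _ ≤ ENNReal.ofReal (9 / η) := ENNReal.ofReal_le_ofReal h3

theorem N1_phf_sq {k : ℕ} (b : ℕ → ℂ) (w : ℍ) :
    ‖phf k (qc b) w‖ ^ 2 = ‖qc b w‖ ^ 2 * (w : ℂ).im ^ k := by
  have hw : 0 < w.im := w.im_pos
  unfold phf
  rw [norm_mul, Complex.norm_real, Real.norm_eq_abs, abs_of_pos (Real.rpow_pos_of_pos hw _),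
    mul_pow]
  congr 1
  rw [← Real.rpow_natCast, ← Real.rpow_mul hw.le, ← Real.rpow_natCast]
  congr 1
  push_cast
  ring

theorem N1_qc_cont {k : ℕ} {b : ℕ → ℂ} (H : CForm k b) :
    ContinuousOn (fun p : ℝ × ℝ => qc b (⟨p.1, p.2⟩ : ℂ)) {p : ℝ × ℝ | 0 < p.2} := by
  have h3 : Continuous (fun p : ℝ × ℝ => (⟨p.1, p.2⟩ : ℂ)) :=
    Complex.equivRealProdCLM.symm.continuous
  exact (cf_holo H).continuousOn.comp h3.continuousOn (fun p hp => hp)

theorem N1_phf_cont {k : ℕ} {b : ℕ → ℂ} (H : CForm k b) : Continuous (phf k (qc b)) := by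
  unfold phf
  refine Continuous.mul ?_ ?_
  · exact (cf_holo H).continuousOn.comp_continuous UpperHalfPlane.continuous_coe
      (fun w => w.im_pos)
  · refine Complex.continuous_ofReal.comp ?_
    exact UpperHalfPlane.continuous_im.rpow_const (fun w => Or.inl w.im_pos.ne')

/-- Parseval on a horizontal line -/
theorem N1_pars {k : ℕ} {b : ℕ → ℂ} (H : CForm k b) {y : ℝ} (hy : 0 < y) :
    Summable (fun n : ℕ => ‖b n‖ ^ 2 * Real.exp (-4 * Real.pi * n * y)) ∧
    ∑' n : ℕ, ‖b n‖ ^ 2 * Real.exp (-4 * Real.pi * n * y) =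
      ∫ x in (0 : ℝ)..1, ‖qc b (⟨x, y⟩ : ℂ)‖ ^ 2 := by
  have hs := cf_summable H (y := 2 * Real.pi * y) (by positivity)
  set c : ℕ → ℂ := fun n => b n * (Real.exp (-(2 * Real.pi * y) * n) : ℝ) with hc
  have hcn : ∀ n, ‖c n‖ = ‖b n‖ * Real.exp (-(2 * Real.pi * y) * n) := by
    intro n
    rw [hc]
    simp only
    rw [norm_mul, Complex.norm_real, Real.norm_eq_abs, abs_of_pos (Real.exp_pos _)]
  have hpar := GL2.parseval c (by simp_rw [hcn]; exact hs)
  have hHH : ∀ θ : ℝ, GL2.HH c θ = qc b (⟨θ, y⟩ : ℂ) := by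
    intro θ
    unfold GL2.HH qc
    congr 1
    ext n
    rw [hc]
    simp only
    rw [mul_assoc, Complex.ofReal_exp, ← Complex.exp_add]
    congr 2
    have h1 : (⟨θ, y⟩ : ℂ) = (θ : ℂ) + y * Complex.I := by
      apply Complex.ext <;> simp
    rw [h1]
    push_cast
    linear_combination (-2 * Real.pi * n * y : ℂ) * Complex.I_sq
  have h2 : ∀ n : ℕ, ‖b n‖ ^ 2 * Real.exp (-4 * Real.pi * n * y) = ‖c n‖ ^ 2 := by
    intro n
    rw [hcn, mul_pow, ← Real.exp_nat_mul]
    congr 2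
    push_cast
    ring
  constructor
  · simp_rw [h2, hcn]
    have hnn : ∀ n : ℕ, 0 ≤ ‖b n‖ * Real.exp (-(2 * Real.pi * y) * n) :=
      fun n => mul_nonneg (norm_nonneg _) (Real.exp_pos _).le
    apply Summable.of_nonneg_of_le (fun n => sq_nonneg _) (fun n => ?_)
      (hs.mul_left (∑' n : ℕ, ‖b n‖ * Real.exp (-(2 * Real.pi * y) * n)))
    rw [sq]
    exact mul_le_mul_of_nonneg_right (hs.le_tsum n (fun j _ => hnn j)) (hnn n)
  · simp_rw [h2]
    rw [hpar]
    simp_rw [hHH]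


/-- the strip in `ℂ` -/
def N1_str (η : ℝ) : Set ℂ := {z : ℂ | (0 ≤ z.re ∧ z.re < 1) ∧ η < z.im}

/-- the integral over the strip -/
theorem N1_strip_int {k : ℕ} {b : ℕ → ℂ} (hk : 2 ≤ k) (H : CForm k b) {η : ℝ} (h0 : 0 < η) :
    ∫⁻ w : ℍ, (N1_strip η).indicator (fun w => ENNReal.ofReal (‖phf k (qc b) w‖ ^ 2)) w =
      ∑' n : ℕ, ENNReal.ofReal (‖b n‖ ^ 2) *
        ∫⁻ y in Set.Ioi η, ENNReal.ofReal (y ^ (k - 2) * Real.exp (-4 * Real.pi * n * y)) := by
  have h1 : ∀ w : ℍ, (N1_strip η).indicator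
      (fun w : ℍ => ENNReal.ofReal (‖phf k (qc b) w‖ ^ 2)) w =
      (N1_str η).indicator (fun z : ℂ => ENNReal.ofReal (‖qc b z‖ ^ 2 * z.im ^ k)) (w : ℂ) := by
    intro w
    by_cases hw : w ∈ N1_strip η
    · rw [Set.indicator_of_mem hw, Set.indicator_of_mem (by exact hw), N1_phf_sq]
    · rw [Set.indicator_of_notMem hw, Set.indicator_of_notMem (by exact hw)]
  rw [lintegral_congr h1, GL2.RSA_lint, ← lintegral_indicator
    (isOpen_lt continuous_const Complex.continuous_im).measurableSet]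
  set f : ℝ × ℝ → ℝ≥0∞ := (Set.Ico (0 : ℝ) 1 ×ˢ Set.Ioi η).indicator
    (fun p : ℝ × ℝ => ENNReal.ofReal (‖qc b (⟨p.1, p.2⟩ : ℂ)‖ ^ 2 * p.2 ^ (k - 2))) with hf
  have h2 : ∫⁻ z : ℂ, {z : ℂ | 0 < z.im}.indicator (fun z =>
      (N1_str η).indicator (fun z : ℂ => ENNReal.ofReal (‖qc b z‖ ^ 2 * z.im ^ k)) z *
        ENNReal.ofReal (1 / z.im ^ 2)) z = ∫⁻ p : ℝ × ℝ, f p := by
    rw [(Complex.volume_preserving_equiv_real_prod.symm).lintegral_map_equiv]
    apply lintegral_congr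
    rintro ⟨x, y⟩
    have e : Complex.measurableEquivRealProd.symm (x, y) = (⟨x, y⟩ : ℂ) := rfl
    rw [e, hf]
    by_cases hp : ((0 ≤ x ∧ x < 1) ∧ η < y)
    · have hy : 0 < y := by linarith [hp.2]
      rw [Set.indicator_of_mem (by exact hy), Set.indicator_of_mem (by exact hp),
        Set.indicator_of_mem (by exact hp)]
      simp only
      rw [← ENNReal.ofReal_mul (by positivity)]
      congr 1
      have e2 : y ^ k = y ^ (k - 2) * y ^ 2 := by
        rw [← pow_add, Nat.sub_add_cancel hk]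
      rw [e2]
      field_simp
    · rw [Set.indicator_of_notMem (s := Set.Ico (0 : ℝ) 1 ×ˢ Set.Ioi η) (by exact hp)]
      by_cases hy : 0 < y
      · rw [Set.indicator_of_mem (by exact hy), Set.indicator_of_notMem (by exact hp), zero_mul]
      · rw [Set.indicator_of_notMem (by exact hy)]
  rw [h2, Measure.volume_eq_prod]
  have hcont := N1_qc_cont H
  have hmeas : MeasurableSet (Set.Ico (0 : ℝ) 1 ×ˢ Set.Ioi η) :=
    measurableSet_Ico.prod measurableSet_Ioi
  have hfm : AEMeasurable f (volume.prod volume) := by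
    rw [hf, aemeasurable_indicator_iff hmeas]
    apply AEMeasurable.ennreal_ofReal
    apply ContinuousOn.aemeasurable _ hmeas
    apply ContinuousOn.mul
    · exact (hcont.norm.pow 2).mono (fun p hp => lt_trans h0 hp.2)
    · fun_prop
  rw [lintegral_prod_symm _ hfm]
  have h4 : ∀ y : ℝ, ∫⁻ x : ℝ, f (x, y) = (Set.Ioi η).indicator
      (fun y => ∑' n : ℕ, ENNReal.ofReal (‖b n‖ ^ 2) *
        ENNReal.ofReal (y ^ (k - 2) * Real.exp (-4 * Real.pi * n * y))) y := by
    intro y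
    by_cases hy : y ∈ Set.Ioi η
    · have hy0 : 0 < y := lt_trans h0 hy
      rw [Set.indicator_of_mem hy]
      have h5 : ∀ x : ℝ, f (x, y) = (Set.Ico (0 : ℝ) 1).indicator
          (fun x => ENNReal.ofReal (‖qc b (⟨x, y⟩ : ℂ)‖ ^ 2 * y ^ (k - 2))) x := by
        intro x
        by_cases hx : x ∈ Set.Ico (0 : ℝ) 1
        · rw [hf, Set.indicator_of_mem (by exact ⟨hx, hy⟩), Set.indicator_of_mem hx]
        · rw [hf, Set.indicator_of_notMem (by exact fun h => hx h.1), Set.indicator_of_notMem hx]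
      rw [lintegral_congr h5, lintegral_indicator measurableSet_Ico,
        ← ofReal_integral_eq_lintegral_ofReal]
      · obtain ⟨hs, hp⟩ := N1_pars H hy0
        rw [integral_mul_const, integral_Ico_eq_integral_Ioc,
          ← intervalIntegral.integral_of_le zero_le_one, ← hp, ← tsum_mul_right,
          ENNReal.ofReal_tsum_of_nonneg (fun n => by positivity) (hs.mul_right _)]
        apply tsum_congr
        intro n
        rw [← ENNReal.ofReal_mul (by positivity)]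
        congr 1
        ring
      · have h6 : ContinuousOn (fun x : ℝ => ‖qc b (⟨x, y⟩ : ℂ)‖ ^ 2 * y ^ (k - 2))
            (Set.Icc 0 1) := by
          apply ContinuousOn.mul _ continuousOn_const
          exact ((hcont.comp (f := fun x : ℝ => (x, y)) (by fun_prop) (fun x _ => hy0)).norm).pow 2
        exact (h6.integrableOn_Icc).mono_set Set.Ico_subset_Icc_self
      · apply Eventually.of_forall
        intro x
        positivity
    · rw [Set.indicator_of_notMem hy]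
      have h5 : ∀ x : ℝ, f (x, y) = 0 := by
        intro x
        rw [hf, Set.indicator_of_notMem (by exact fun h => hy h.2)]
      rw [lintegral_congr h5, lintegral_zero]
  rw [lintegral_congr h4, lintegral_indicator measurableSet_Ioi, lintegral_tsum]
  · apply tsum_congr
    intro n
    rw [lintegral_const_mul]
    fun_prop
  · intro n
    fun_prop

/-- block N1 -/
theorem strip_cover : ∃ C : ℝ, 0 < C ∧ ∀ (k : ℕ) (b : ℕ → ℂ), 2 ≤ k → CForm k b → ∀ η : ℝ,
    0 < η → η ≤ 1 →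
    Summable (fun n : ℕ => ‖b n‖ ^ 2 *
      ∫ y in Set.Ioi η, y ^ (k - 2) * Real.exp (-4 * Real.pi * n * y)) ∧
    ∑' n : ℕ, ‖b n‖ ^ 2 * ∫ y in Set.Ioi η, y ^ (k - 2) * Real.exp (-4 * Real.pi * n * y) ≤
      C / η * pn k b := by
  refine ⟨9, by norm_num, ?_⟩
  intro k b hk H η h0 h1
  obtain ⟨hpi, hpe⟩ := pn_eq H
  have hpn := pn_nonneg k b
  have hmo : MeasurableSet (𝒟ᵒ : Set ℍ) := isOpen_fdo.measurableSet
  set G : ℍ → ℝ≥0∞ := (N1_strip η).indicator
    (fun w => ENNReal.ofReal (‖phf k (qc b) w‖ ^ 2)) with hG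
  have hGm : Measurable G := by
    rw [hG]
    refine Measurable.indicator ?_ ?_
    · exact ((N1_phf_cont H).norm.pow 2).measurable.ennreal_ofReal
    · have e1 : Measurable (fun w : ℍ => w.re) := UpperHalfPlane.continuous_re.measurable
      have e2 : Measurable (fun w : ℍ => w.im) := UpperHalfPlane.continuous_im.measurable
      exact ((measurableSet_le measurable_const e1).inter
        (measurableSet_lt e1 measurable_const)).inter (measurableSet_lt measurable_const e2)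
  have hunf := GL2.RSA_unfold G hGm
  have hinv : ∀ (g : SL(2, ℤ)) (w : ℍ), ‖phf k (qc b) (g • w)‖ = ‖phf k (qc b) w‖ := by
    intro g w
    rw [cf_smul H, norm_mul, jk_norm, one_mul]
  have hsum : ∀ z : ℍ, ∑' g : SL(2, ℤ), G (g • z) = ENNReal.ofReal (‖phf k (qc b) z‖ ^ 2) *
      ∑' g : SL(2, ℤ), (N1_strip η).indicator (fun _ => (1 : ℝ≥0∞)) (g • z) := by
    intro z
    rw [← ENNReal.tsum_mul_left]
    apply tsum_congr
    intro g
    rw [hG]
    by_cases hg : g • z ∈ N1_strip η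
    · rw [Set.indicator_of_mem hg, Set.indicator_of_mem hg, hinv, mul_one]
    · rw [Set.indicator_of_notMem hg, Set.indicator_of_notMem hg, mul_zero]
  have hle : ∫⁻ z in 𝒟ᵒ, ∑' g : SL(2, ℤ), G (g • z) ≤
      ENNReal.ofReal (pn k b) * ENNReal.ofReal (9 / η) := by
    calc ∫⁻ z in 𝒟ᵒ, ∑' g : SL(2, ℤ), G (g • z)
        ≤ ∫⁻ z in 𝒟ᵒ, ENNReal.ofReal (‖phf k (qc b) z‖ ^ 2) * ENNReal.ofReal (9 / η) := by
          apply setLIntegral_mono_ae' hmo
          apply Eventually.of_forall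
          intro z hz
          rw [hsum]
          refine mul_le_mul_right ?_ _
          refine N1_count ?_ h0 h1
          have h3 : 3 < 4 * z.im ^ 2 := ModularGroup.three_lt_four_mul_im_sq_of_mem_fdo hz
          nlinarith [z.im_pos]
      _ = ENNReal.ofReal (pn k b) * ENNReal.ofReal (9 / η) := by
          have hm1 : Measurable (fun z : ℍ => ENNReal.ofReal (‖phf k (qc b) z‖ ^ 2)) :=
            ((N1_phf_cont H).norm.pow 2).measurable.ennreal_ofReal
          rw [lintegral_mul_const _ hm1, ← ofReal_integral_eq_lintegral_ofReal hpi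
              (Eventually.of_forall (fun z => by positivity)), hpe]
  rw [hunf] at hle
  have hB : ∑' n : ℕ, ENNReal.ofReal (‖b n‖ ^ 2) *
        ∫⁻ y in Set.Ioi η, ENNReal.ofReal (y ^ (k - 2) * Real.exp (-4 * Real.pi * n * y)) ≤
      ENNReal.ofReal (9 / η * pn k b) := by
    rw [← N1_strip_int hk H h0]
    rw [mul_comm (9 / η), ENNReal.ofReal_mul hpn]
    refine le_trans ?_ hle
    calc _ = 1 * ∫⁻ w : ℍ, G w := by rw [one_mul]
      _ ≤ 2 * ∫⁻ w : ℍ, G w := by gcongr; norm_num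
  have hterm : ∀ n : ℕ, ENNReal.ofReal (‖b n‖ ^ 2 *
      ∫ y in Set.Ioi η, y ^ (k - 2) * Real.exp (-4 * Real.pi * n * y)) ≤
      ENNReal.ofReal (‖b n‖ ^ 2) *
        ∫⁻ y in Set.Ioi η, ENNReal.ofReal (y ^ (k - 2) * Real.exp (-4 * Real.pi * n * y)) := by
    intro n
    rw [ENNReal.ofReal_mul (by positivity)]
    refine mul_le_mul_right ?_ _
    rw [integral_eq_lintegral_of_nonneg_ae]
    · exact ENNReal.ofReal_toReal_le
    · rw [EventuallyLE, ae_restrict_iff' measurableSet_Ioi]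
      apply Eventually.of_forall
      intro y hy
      have hy0 : 0 < y := lt_trans h0 hy
      simp only [Pi.zero_apply]
      positivity
    · apply Continuous.aestronglyMeasurable
      fun_prop
  have hnn : ∀ n : ℕ, 0 ≤ ‖b n‖ ^ 2 *
      ∫ y in Set.Ioi η, y ^ (k - 2) * Real.exp (-4 * Real.pi * n * y) := by
    intro n
    refine mul_nonneg (by positivity) ?_
    apply setIntegral_nonneg measurableSet_Ioi
    intro y hy
    have hy0 : 0 < y := lt_trans h0 hy
    positivity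
  have hfin : ∀ s : Finset ℕ, ∑ n ∈ s, ‖b n‖ ^ 2 *
      ∫ y in Set.Ioi η, y ^ (k - 2) * Real.exp (-4 * Real.pi * n * y) ≤ 9 / η * pn k b := by
    intro s
    have hnn2 : 0 ≤ 9 / η * pn k b := by positivity
    rw [← ENNReal.ofReal_le_ofReal_iff hnn2, ENNReal.ofReal_sum_of_nonneg (fun n _ => hnn n)]
    refine le_trans (Finset.sum_le_sum fun n _ => hterm n) ?_
    exact (ENNReal.sum_le_tsum s).trans hB
  exact ⟨summable_of_sum_le hnn hfin, Real.tsum_le_of_sum_le hnn hfin⟩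

end Pool.Agent.WA

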