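import Pool.Agent.Lib_helper98.WAF.B3
import Pool.Agent.Lib_helper98.WAF.B4
import Pool.Agent.Lib_helper98.WAF.N1

/-! Block N2 (LS) of the weight aspect: the large sieve inequality. -/

namespace Pool.Agent.WA

open Complex MeasureTheory Filter Topology UpperHalfPlane ModularGroup
open scoped MatrixGroups Modular ENNReal
open Pool.Agent.GL2 (qs HData am dens hatw Ep Mol xt FD IsCompletedL oddZ)

theorem N2_subst {k n : ℕ} (hk : 2 ≤ k) (hn : 1 ≤ n) (η : ℝ) :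
    ∫ y in Set.Ioi η, y ^ (k - 2) * Real.exp (-4 * Real.pi * n * y) =
      ((4 * Real.pi * n) ^ (k - 1))⁻¹ *
        ∫ t in Set.Ioi (4 * Real.pi * n * η), t ^ (k - 2) * Real.exp (-t) := by
  have hn' : (0 : ℝ) < n := by exact_mod_cast hn
  have hb : 0 < 4 * Real.pi * n := by positivity
  have h := MeasureTheory.integral_comp_mul_left_Ioi
    (fun t : ℝ => t ^ (k - 2) * Real.exp (-t)) η hb
  have e1 : ∀ y : ℝ, (4 * Real.pi * n * y) ^ (k - 2) * Real.exp (-(4 * Real.pi * n * y)) =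
      (4 * Real.pi * n) ^ (k - 2) * (y ^ (k - 2) * Real.exp (-4 * Real.pi * n * y)) := by
    intro y
    rw [mul_pow]
    have : -(4 * Real.pi * n * y) = -4 * Real.pi * n * y := by ring
    rw [this]
    ring
  simp_rw [e1] at h
  rw [integral_const_mul, smul_eq_mul] at h
  have e2 : (4 * Real.pi * (n : ℝ)) ^ (k - 1) =
      (4 * Real.pi * n) ^ (k - 2) * (4 * Real.pi * n) := by
    rw [← pow_succ]
    congr 1
    omega
  have hne : (4 * Real.pi * (n : ℝ)) ^ (k - 2) ≠ 0 := by positivity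
  rw [e2, mul_inv]
  rw [mul_assoc (((4 * Real.pi * (n : ℝ)) ^ (k - 2))⁻¹) _ _, ← h, ← mul_assoc,
    inv_mul_cancel₀ hne, one_mul]

/-- block N2 -/
theorem ls_coef : ∃ (C : ℝ) (k₀ : ℕ), 0 < C ∧ ∀ k : ℕ, k₀ ≤ k → ∀ b, CForm k b → ∀ N : ℕ,
    ∑ n ∈ Finset.Icc 1 N, ‖b n‖ ^ 2 / (n : ℝ) ^ (k - 1) ≤
      C * (1 + N / k) * (pn k b / omk k) := by
  obtain ⟨C₀, hC₀, hcov⟩ := strip_cover
  obtain ⟨k₁, hk₁⟩ := gam_low
  refine ⟨32 * Real.pi * C₀, max 2 k₁, by positivity, ?_⟩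
  intro k hk b H N
  have hk2 : 2 ≤ k := le_trans (le_max_left _ _) hk
  have hkk : k₁ ≤ k := le_trans (le_max_right _ _) hk
  have hk0 : (0 : ℝ) < k := by exact_mod_cast (by omega : 0 < k)
  have hN0 : (0 : ℝ) ≤ N := Nat.cast_nonneg N
  have hom := omk_pos hk2
  have hpi := Real.pi_gt_three
  have hpn := pn_nonneg k b
  set η : ℝ := k / (k + 16 * Real.pi * N) with hη
  have hden : 0 < k + 16 * Real.pi * N := by positivity
  have hη0 : 0 < η := by positivity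
  have hη1 : η ≤ 1 := by
    rw [hη, div_le_one hden]
    have : 0 ≤ 16 * Real.pi * N := by positivity
    linarith
  obtain ⟨hs, hle⟩ := hcov k b hk2 H η hη0 hη1
  have hnn : ∀ n : ℕ, 0 ≤ ‖b n‖ ^ 2 *
      ∫ y in Set.Ioi η, y ^ (k - 2) * Real.exp (-4 * Real.pi * n * y) := by
    intro n
    refine mul_nonneg (by positivity) ?_
    apply setIntegral_nonneg measurableSet_Ioi
    intro y hy
    have hy0 : 0 < y := lt_trans hη0 hy
    positivity
  have h1 := (hs.sum_le_tsum (Finset.Icc 1 N) (fun n _ => hnn n)).trans hle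
  have h2 : ∀ n ∈ Finset.Icc 1 N, omk k / 2 * (‖b n‖ ^ 2 / (n : ℝ) ^ (k - 1)) ≤ ‖b n‖ ^ 2 *
      ∫ y in Set.Ioi η, y ^ (k - 2) * Real.exp (-4 * Real.pi * n * y) := by
    intro n hn
    rw [Finset.mem_Icc] at hn
    have hn' : (0 : ℝ) < n := by exact_mod_cast hn.1
    have hnN : (n : ℝ) ≤ N := by exact_mod_cast hn.2
    rw [N2_subst hk2 hn.1]
    have h3 := hk₁ k hkk (4 * Real.pi * n * η) (by positivity) (by
      rw [hη, mul_div_assoc', div_le_div_iff₀ hden (by norm_num)]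
      have : 4 * Real.pi * n * k * 2 ≤ 4 * Real.pi * N * k * 2 := by gcongr
      nlinarith [mul_nonneg (mul_nonneg Real.pi_pos.le hN0) hk0.le, mul_pos hk0 hk0])
    have e1 : omk k / 2 * (‖b n‖ ^ 2 / (n : ℝ) ^ (k - 1)) = ‖b n‖ ^ 2 *
        (((4 * Real.pi * n) ^ (k - 1))⁻¹ * (Real.Gamma ((k : ℝ) - 1) / 2)) := by
      have e4 : (4 * Real.pi * (n : ℝ)) ^ (k - 1) = (4 * Real.pi) ^ (k - 1) * (n : ℝ) ^ (k - 1) :=
        mul_pow _ _ _
      unfold omk
      rw [e4]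
      have hne1 : (4 * Real.pi) ^ (k - 1) ≠ 0 := by positivity
      have hne2 : (n : ℝ) ^ (k - 1) ≠ 0 := by positivity
      generalize (4 * Real.pi) ^ (k - 1) = X at *
      generalize (n : ℝ) ^ (k - 1) = Y at *
      field_simp
    rw [e1]
    gcongr
  have h4 : omk k / 2 * ∑ n ∈ Finset.Icc 1 N, ‖b n‖ ^ 2 / (n : ℝ) ^ (k - 1) ≤
      C₀ / η * pn k b := by
    rw [Finset.mul_sum]
    exact (Finset.sum_le_sum h2).trans h1
  have h5 : C₀ / η ≤ C₀ * (16 * Real.pi * (1 + N / k)) := by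
    rw [hη, div_div_eq_mul_div, mul_div_assoc]
    refine mul_le_mul_of_nonneg_left ?_ hC₀.le
    rw [div_le_iff₀ hk0]
    have e : 16 * Real.pi * (1 + N / k) * k = 16 * Real.pi * k + 16 * Real.pi * N := by
      field_simp
    rw [e]
    nlinarith
  have h6 : omk k / 2 * ∑ n ∈ Finset.Icc 1 N, ‖b n‖ ^ 2 / (n : ℝ) ^ (k - 1) ≤
      C₀ * (16 * Real.pi * (1 + N / k)) * pn k b :=
    h4.trans (mul_le_mul_of_nonneg_right h5 hpn)
  have e3 : 32 * Real.pi * C₀ * (1 + N / k) * (pn k b / omk k) =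
      (C₀ * (16 * Real.pi * (1 + N / k)) * pn k b) / (omk k / 2) := by
    field_simp
    ring
  rw [e3, le_div_iff₀ (by positivity), mul_comm]
  exact h6

/-- block N2 -/
theorem ls_dual : ∃ (C : ℝ) (k₀ : ℕ), 0 < C ∧ ∀ k : ℕ, k₀ ≤ k → ∀ {ι : Type} [Fintype ι]
    (F : Fam k ι) (N : ℕ) (c : ℕ → ℝ),
    ∑ i, om k (F.a i) * (∑ n ∈ Finset.Icc 1 N, c n * lam k (F.a i) n) ^ 2 ≤
      C * (1 + N / k) * ∑ n ∈ Finset.Icc 1 N, c n ^ 2 := by
  obtain ⟨C, k₀, hC, hls⟩ := ls_coef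
  refine ⟨C, max 2 k₀, hC, ?_⟩
  intro k hk ι _ F N c
  have hk2 : 2 ≤ k := le_trans (le_max_left _ _) hk
  have hkk : k₀ ≤ k := le_trans (le_max_right _ _) hk
  have hom := omk_pos hk2
  set L : (ℕ → ℂ) → ℂ := fun b => ∑ n ∈ Finset.Icc 1 N,
    ((c n * (n : ℝ) ^ (-((k : ℝ) - 1) / 2) : ℝ) : ℂ) * b n with hL
  set M : ℝ := C * (1 + N / k) * (∑ n ∈ Finset.Icc 1 N, c n ^ 2) / omk k with hM
  have hM0 : 0 ≤ M := by
    rw [hM]
    have : 0 ≤ ∑ n ∈ Finset.Icc 1 N, c n ^ 2 := Finset.sum_nonneg fun n _ => sq_nonneg _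
    positivity
  have hlin : ∀ d : ι → ℂ, L (fun n => ∑ i, d i * F.c i n) = ∑ i, d i * L (F.c i) := by
    intro d
    simp only [hL]
    simp_rw [Finset.mul_sum]
    rw [Finset.sum_comm]
    refine Finset.sum_congr rfl fun n _ => Finset.sum_congr rfl fun i _ => ?_
    ring
  have hbound : ∀ b, CForm k b → ‖L b‖ ^ 2 ≤ M * pn k b := by
    intro b H
    have h1 : ‖L b‖ ≤ ∑ n ∈ Finset.Icc 1 N, |c n| * (‖b n‖ * (n : ℝ) ^ (-((k : ℝ) - 1) / 2)) := by
      refine (norm_sum_le _ _).trans (Finset.sum_le_sum fun n hn => ?_)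
      rw [norm_mul, Complex.norm_real, Real.norm_eq_abs, abs_mul,
        abs_of_nonneg (Real.rpow_nonneg (Nat.cast_nonneg n) _)]
      apply le_of_eq
      ring
    have h2 : ‖L b‖ ^ 2 ≤ (∑ n ∈ Finset.Icc 1 N, c n ^ 2) *
        ∑ n ∈ Finset.Icc 1 N, ‖b n‖ ^ 2 / (n : ℝ) ^ (k - 1) := by
      calc ‖L b‖ ^ 2 ≤ (∑ n ∈ Finset.Icc 1 N, |c n| *
            (‖b n‖ * (n : ℝ) ^ (-((k : ℝ) - 1) / 2))) ^ 2 :=
            pow_le_pow_left₀ (norm_nonneg _) h1 2
        _ ≤ (∑ n ∈ Finset.Icc 1 N, |c n| ^ 2) * ∑ n ∈ Finset.Icc 1 N,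
            (‖b n‖ * (n : ℝ) ^ (-((k : ℝ) - 1) / 2)) ^ 2 := Finset.sum_mul_sq_le_sq_mul_sq _ _ _
        _ = _ := by
            congr 1
            · exact Finset.sum_congr rfl fun n _ => sq_abs _
            · refine Finset.sum_congr rfl fun n hn => ?_
              have hn1 : 1 ≤ n := (Finset.mem_Icc.mp hn).1
              have hn' : (0 : ℝ) < n := by exact_mod_cast hn1
              rw [mul_pow, div_eq_mul_inv]
              congr 1
              rw [← Real.rpow_natCast, ← Real.rpow_natCast, ← Real.rpow_mul hn'.le,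
                ← Real.rpow_neg hn'.le]
              congr 1
              rw [Nat.cast_sub (by omega)]
              push_cast
              ring
    have h3 := hls k hkk b H N
    calc ‖L b‖ ^ 2 ≤ _ := h2
      _ ≤ (∑ n ∈ Finset.Icc 1 N, c n ^ 2) * (C * (1 + N / k) * (pn k b / omk k)) :=
          mul_le_mul_of_nonneg_left h3 (Finset.sum_nonneg fun n _ => sq_nonneg _)
      _ = M * pn k b := by rw [hM]; ring
  have hb := bessel hk2 F L hlin hM0 hbound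
  have h4 : ∀ i, om k (F.a i) * (∑ n ∈ Finset.Icc 1 N, c n * lam k (F.a i) n) ^ 2 =
      omk k * (‖L (F.c i)‖ ^ 2 / pn k (F.c i)) := by
    intro i
    have h5 : L (F.c i) = ((∑ n ∈ Finset.Icc 1 N, c n * lam k (F.a i) n : ℝ) : ℂ) := by
      simp only [hL, Fam.c, lam]
      push_cast
      refine Finset.sum_congr rfl fun n _ => ?_
      ring
    rw [h5, Complex.norm_real, Real.norm_eq_abs, sq_abs]
    unfold om
    have h6 : pn k (fun n => ((F.a i n : ℝ) : ℂ)) = pn k (F.c i) := rfl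
    rw [h6]
    ring
  rw [Finset.sum_congr rfl (fun i _ => h4 i), ← Finset.mul_sum]
  calc omk k * ∑ i, ‖L (F.c i)‖ ^ 2 / pn k (F.c i) ≤ omk k * M :=
        mul_le_mul_of_nonneg_left hb hom.le
    _ = _ := by rw [hM]; field_simp

end Pool.Agent.WA
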