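import Pool.Agent.Lib_helper98.WA.Defs
import Pool.Agent.Lib_helper68.GL2.RSA
import Pool.Agent.Lib_helper68.GL2.RSL

/-! Block N3 (HREL): `lam_sq`, `pn_le` (helper76). -/

namespace Pool.Agent.WA

open Complex MeasureTheory Filter Topology UpperHalfPlane ModularGroup
open scoped MatrixGroups Modular ENNReal
open Pool.Agent.GL2 (qs HData am dens hatw Ep Mol xt FD IsCompletedL oddZ)

theorem n3_lam_one {k : ℕ} {a : ℕ → ℝ} (H : HData k a) : lam k a 1 = 1 := by
  simp [lam, H.one]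

theorem n3_lam_mul {k : ℕ} {a : ℕ → ℝ} (H : HData k a) {m n : ℕ} (h : m.Coprime n) :
    lam k a (m * n) = lam k a m * lam k a n := by
  unfold lam
  rw [H.mul m n h, Nat.cast_mul, Real.mul_rpow (Nat.cast_nonneg _) (Nat.cast_nonneg _)]
  ring

theorem n3_lam_rec {k : ℕ} {a : ℕ → ℝ} (H : HData k a) {p : ℕ} (hp : p.Prime) (r : ℕ) :
    lam k a (p ^ (r + 2)) = lam k a p * lam k a (p ^ (r + 1)) - lam k a (p ^ r) := by
  have hp0 : (0 : ℝ) < p := by exact_mod_cast hp.pos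
  set s : ℝ := (p : ℝ) ^ (-((k : ℝ) - 1) / 2) with hs
  have hs2 : s ^ 2 * (p : ℝ) ^ (k - 1) = 1 := by
    rw [hs, ← Real.rpow_natCast, ← Real.rpow_mul hp0.le, ← Real.rpow_natCast, ← Real.rpow_add hp0,
      Nat.cast_sub H.kpos]
    have : -((k : ℝ) - 1) / 2 * ((2 : ℕ) : ℝ) + ((k : ℝ) - ((1 : ℕ) : ℝ)) = 0 := by push_cast; ring
    rw [this, Real.rpow_zero]
  have hpow : ∀ j : ℕ, ((p ^ j : ℕ) : ℝ) ^ (-((k : ℝ) - 1) / 2) = s ^ j := by
    intro j
    rw [Nat.cast_pow, hs, ← Real.rpow_natCast, ← Real.rpow_natCast, ← Real.rpow_mul hp0.le,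
      ← Real.rpow_mul hp0.le, mul_comm]
  unfold lam
  rw [hpow, hpow, hpow, ← hs, H.hecke p r hp]
  have : s ^ (r + 2) = s ^ r * s ^ 2 := by ring
  calc (a p * a (p ^ (r + 1)) - (p : ℝ) ^ (k - 1) * a (p ^ r)) * s ^ (r + 2)
      = a p * a (p ^ (r + 1)) * s ^ (r + 2) - (s ^ 2 * (p : ℝ) ^ (k - 1)) * a (p ^ r) * s ^ r := by
        rw [this]; ring
    _ = _ := by rw [hs2]; ring

/-- `x_{m+n+2} = x_{m+1} x_{n+1} - x_m x_n` -/
theorem n3_cheb {x : ℕ → ℝ} (h0 : x 0 = 1) (h : ∀ r, x (r + 2) = x 1 * x (r + 1) - x r) (m : ℕ) :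
    ∀ n, x (m + n + 2) = x (m + 1) * x (n + 1) - x m * x n := by
  have key : ∀ n, x (m + n + 2) = x (m + 1) * x (n + 1) - x m * x n ∧
      x (m + (n + 1) + 2) = x (m + 1) * x (n + 1 + 1) - x m * x (n + 1) := by
    intro n
    induction n with
    | zero =>
      constructor
      · simp only [Nat.add_zero, Nat.zero_add]
        rw [h m, h0]; ring
      · have e1 : x (m + (0 + 1) + 2) = x 1 * x (m + 2) - x (m + 1) := h (m + 1)
        have e2 : x (0 + 1 + 1) = x 1 * x 1 - x 0 := h 0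
        rw [e1, e2, h m, h0]; ring
    | succ n ih =>
      refine ⟨ih.2, ?_⟩
      have e1 : x (m + (n + 1 + 1) + 2) = x 1 * x (m + (n + 1) + 2) - x (m + n + 2) := by
        have := h (m + n + 2)
        rw [show m + (n + 1 + 1) + 2 = m + n + 2 + 2 by ring,
          show m + (n + 1) + 2 = m + n + 2 + 1 by ring]
        exact this
      have e2 : x (n + 1 + 1 + 1) = x 1 * x (n + 1 + 1) - x (n + 1) := h (n + 1)
      have e3 : x (n + 1 + 1) = x 1 * x (n + 1) - x n := h n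
      rw [e1, ih.1, ih.2, e2]
      linear_combination (x m) * e3
  exact fun n => (key n).1

theorem n3_sq_sum {x : ℕ → ℝ} (h0 : x 0 = 1) (h : ∀ r, x (r + 2) = x 1 * x (r + 1) - x r) (r : ℕ) :
    x r ^ 2 = ∑ i ∈ Finset.range (r + 1), x (2 * i) := by
  induction r with
  | zero => simp [h0]
  | succ r ih =>
    rw [Finset.sum_range_succ, ← ih]
    have := n3_cheb h0 h r r
    rw [show 2 * (r + 1) = r + r + 2 by ring, this]
    ring

/-- block N3 -/
theorem lam_sq {k : ℕ} {a : ℕ → ℝ} (H : HData k a) {n : ℕ} (hn : 0 < n) :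
    lam k a n ^ 2 = ∑ d ∈ n.divisors, lam k a ((n / d) ^ 2) := by
  rw [Nat.sum_div_divisors n (fun d => lam k a (d ^ 2))]
  let F : ArithmeticFunction ℝ := ⟨fun n => if n = 0 then 0 else lam k a n ^ 2, by simp⟩
  let G : ArithmeticFunction ℝ := ⟨fun n => if n = 0 then 0 else lam k a (n ^ 2), by simp⟩
  have hF : F.IsMultiplicative := by
    rw [ArithmeticFunction.IsMultiplicative.iff_ne_zero]
    refine ⟨by simp [F, n3_lam_one H], ?_⟩
    intro m n hm hn hmn
    simp only [F, ArithmeticFunction.coe_mk, hm, hn, mul_eq_zero, or_self, if_false]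
    rw [n3_lam_mul H hmn]; ring
  have hG : G.IsMultiplicative := by
    rw [ArithmeticFunction.IsMultiplicative.iff_ne_zero]
    refine ⟨by simp [G, n3_lam_one H], ?_⟩
    intro m n hm hn hmn
    simp only [G, ArithmeticFunction.coe_mk, hm, hn, mul_eq_zero, or_self, if_false]
    rw [mul_pow, n3_lam_mul H (hmn.pow 2 2)]
  have hZG : ((ArithmeticFunction.zeta : ArithmeticFunction ℝ) * G).IsMultiplicative :=
    ArithmeticFunction.isMultiplicative_zeta.natCast.mul hG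
  have heq : F = (ArithmeticFunction.zeta : ArithmeticFunction ℝ) * G := by
    rw [ArithmeticFunction.IsMultiplicative.eq_iff_eq_on_prime_powers F hF _ hZG]
    intro p i hp
    rw [ArithmeticFunction.coe_zeta_mul_apply, Nat.sum_divisors_prime_pow hp]
    have hx := n3_sq_sum (x := fun r => lam k a (p ^ r)) (by simpa using n3_lam_one H)
      (fun r => by simpa using n3_lam_rec H hp r) i
    have hp' : ∀ j, p ^ j ≠ 0 := fun j => pow_ne_zero _ hp.ne_zero
    simp only [F, G, ArithmeticFunction.coe_mk, hp', if_false]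
    rw [hx]
    refine Finset.sum_congr rfl fun j _ => ?_
    rw [← pow_mul, mul_comm]
  have h1 := congrArg (fun f : ArithmeticFunction ℝ => f n) heq
  simp only [ArithmeticFunction.coe_zeta_mul_apply] at h1
  have h2 : F n = lam k a n ^ 2 := by simp [F, hn.ne']
  rw [← h2, h1]
  refine Finset.sum_congr rfl fun d hd => ?_
  have hd0 : d ≠ 0 := (Nat.pos_of_mem_divisors hd).ne'
  simp [G, hd0]

/-- `t^j e^{-c t}` is integrable on `(0,∞)` -/
theorem n4_int (j : ℕ) {c : ℝ} (hc : 0 < c) :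
    IntegrableOn (fun t : ℝ => t ^ j * Real.exp (-(c * t))) (Set.Ioi 0) := by
  have h := integrableOn_rpow_mul_exp_neg_mul_rpow (p := 1) (s := (j : ℝ)) (b := c)
    (by have : (0 : ℝ) ≤ j := Nat.cast_nonneg j
        linarith) one_pos hc
  refine (h.congr_fun ?_ measurableSet_Ioi)
  intro t ht
  simp [Real.rpow_natCast]

theorem n4_gamma (j : ℕ) : ∫ t in Set.Ioi (0 : ℝ), t ^ j * Real.exp (-t) = Real.Gamma (j + 1) := by
  rw [Real.Gamma_eq_integral (by positivity)]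
  refine setIntegral_congr_fun measurableSet_Ioi fun t ht => ?_
  simp only [add_sub_cancel_right, Real.rpow_natCast]
  ring

theorem n4_gamma_c (j : ℕ) {c : ℝ} (hc : 0 < c) :
    ∫ t in Set.Ioi (0 : ℝ), t ^ j * Real.exp (-(c * t)) = Real.Gamma (j + 1) / c ^ (j + 1) := by
  have h := Real.integral_rpow_mul_exp_neg_mul_Ioi (a := (j : ℝ) + 1) (r := c) (by positivity) hc
  rw [add_sub_cancel_right] at h
  have h2 : ∫ t in Set.Ioi (0 : ℝ), t ^ j * Real.exp (-(c * t)) =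
      ∫ t in Set.Ioi (0 : ℝ), t ^ (j : ℝ) * Real.exp (-(c * t)) := by
    refine setIntegral_congr_fun measurableSet_Ioi fun t ht => ?_
    simp [Real.rpow_natCast]
  rw [h2, h, show ((j : ℝ) + 1) = ((j + 1 : ℕ) : ℝ) by push_cast; ring, Real.rpow_natCast, one_div,
    inv_pow]
  field_simp

theorem n4_int1 (j : ℕ) : IntegrableOn (fun t : ℝ => t ^ j * Real.exp (-t)) (Set.Ioi 0) := by
  simpa using n4_int j one_pos

theorem n4_Q_nonneg (k n : ℕ) (hk : 2 ≤ k) : 0 ≤ Qk k n := by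
  unfold Qk
  have hk' : (2 : ℝ) ≤ k := by exact_mod_cast hk
  refine div_nonneg ?_ (Real.Gamma_pos_of_pos (by linarith)).le
  refine setIntegral_nonneg measurableSet_Ioi fun t ht => ?_
  have : 0 < t := lt_of_le_of_lt (by positivity) ht
  positivity

theorem n4_Q_le {k : ℕ} (hk : 2 ≤ k) (n : ℕ) :
    Qk k n ≤ 2 ^ (k - 1) * Real.exp (-(Real.pi * n)) := by
  obtain ⟨j, rfl⟩ : ∃ j, k = j + 2 := ⟨k - 2, by omega⟩
  have e1 : ((j + 2 : ℕ) : ℝ) - 1 = (j : ℝ) + 1 := by push_cast; ring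
  have hG : 0 < Real.Gamma ((j : ℝ) + 1) := Real.Gamma_pos_of_pos (by positivity)
  have hpi := Real.pi_pos
  unfold Qk
  rw [e1, Nat.add_sub_cancel, div_le_iff₀ hG]
  have hc : (0 : ℝ) ≤ 2 * Real.pi * n := by positivity
  have hsub : Set.Ioi (2 * Real.pi * (n : ℝ)) ⊆ Set.Ioi 0 := Set.Ioi_subset_Ioi hc
  have h1 : ∫ t in Set.Ioi (2 * Real.pi * (n : ℝ)), t ^ j * Real.exp (-t) ≤
      ∫ t in Set.Ioi (2 * Real.pi * (n : ℝ)), Real.exp (-(Real.pi * n)) *
        (t ^ j * Real.exp (-((1 / 2) * t))) := by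
    refine setIntegral_mono_on ((n4_int1 j).mono_set hsub)
      (((n4_int j (c := 1 / 2) (by norm_num)).mono_set hsub).const_mul _) measurableSet_Ioi
      fun t ht => ?_
    have ht' : 2 * Real.pi * (n : ℝ) < t := ht
    have ht0 : 0 < t := lt_of_le_of_lt hc ht'
    have : Real.exp (-t) ≤ Real.exp (-(Real.pi * n)) * Real.exp (-((1 / 2) * t)) := by
      rw [← Real.exp_add]
      apply Real.exp_le_exp.mpr
      linarith
    calc t ^ j * Real.exp (-t) ≤ t ^ j * (Real.exp (-(Real.pi * n)) * Real.exp (-((1 / 2) * t))) :=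
          mul_le_mul_of_nonneg_left this (by positivity)
      _ = _ := by ring
  have h2 : ∫ t in Set.Ioi (2 * Real.pi * (n : ℝ)), Real.exp (-(Real.pi * n)) *
        (t ^ j * Real.exp (-((1 / 2) * t))) ≤
      ∫ t in Set.Ioi (0 : ℝ), Real.exp (-(Real.pi * n)) * (t ^ j * Real.exp (-((1 / 2) * t))) := by
    refine setIntegral_mono_set ((n4_int j (c := 1 / 2) (by norm_num)).const_mul _) ?_
      hsub.eventuallyLE
    rw [EventuallyLE, ae_restrict_iff' measurableSet_Ioi]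
    refine Eventually.of_forall fun t ht => ?_
    have ht' : 0 < t := ht
    simp only [Pi.zero_apply]
    positivity
  refine (h1.trans h2).trans (le_of_eq ?_)
  rw [integral_const_mul, n4_gamma_c j (by norm_num)]
  rw [show j + 2 - 1 = j + 1 by omega]
  simp only [one_div, inv_pow, div_inv_eq_mul]
  ring


/-! ### the strip above `1/2` -/

theorem n3_summable {k : ℕ} (hk : 2 ≤ k) {a : ℕ → ℝ} (H : HData k a) :
    Summable (fun n : ℕ => lam k a n ^ 2 * Qk k n) := by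
  obtain ⟨C, hC⟩ := H.growth
  have hC0 : 0 ≤ C := by
    have := hC 1
    simp only [Nat.cast_one, Real.one_rpow, mul_one] at this
    exact (abs_nonneg _).trans this
  have s1 : Summable (fun l : ℕ => (l : ℝ) * Real.exp (-(1 : ℝ) * l)) := by
    simpa using Real.summable_pow_mul_exp_neg_nat_mul 1 one_pos
  refine Summable.of_nonneg_of_le (fun n => mul_nonneg (sq_nonneg _) (n4_Q_nonneg k n hk)) ?_
    (s1.mul_left (C ^ 2 * 2 ^ (k - 1)))
  intro n
  rcases Nat.eq_zero_or_pos n with h0 | h0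
  · subst h0
    simp [lam, H.zero]
  have hn : (0 : ℝ) < n := by exact_mod_cast h0
  have h1 : lam k a n ^ 2 ≤ C ^ 2 * n := by
    have h2 : |lam k a n| ≤ C * (n : ℝ) ^ ((1 : ℝ) / 2) := by
      unfold lam
      rw [abs_mul, abs_of_nonneg (Real.rpow_nonneg hn.le _)]
      calc |a n| * (n : ℝ) ^ (-((k : ℝ) - 1) / 2)
          ≤ C * (n : ℝ) ^ ((k : ℝ) / 2) * (n : ℝ) ^ (-((k : ℝ) - 1) / 2) :=
            mul_le_mul_of_nonneg_right (hC n) (Real.rpow_nonneg hn.le _)
        _ = C * (n : ℝ) ^ ((1 : ℝ) / 2) := by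
            rw [mul_assoc, ← Real.rpow_add hn]
            congr 2
            ring
    calc lam k a n ^ 2 = |lam k a n| ^ 2 := (sq_abs _).symm
      _ ≤ (C * (n : ℝ) ^ ((1 : ℝ) / 2)) ^ 2 := pow_le_pow_left₀ (abs_nonneg _) h2 2
      _ = C ^ 2 * n := by
          rw [mul_pow, ← Real.rpow_natCast ((n : ℝ) ^ ((1 : ℝ) / 2)), ← Real.rpow_mul hn.le]
          norm_num
  have hQ := n4_Q_le hk n
  have hE : Real.exp (-(Real.pi * n)) ≤ Real.exp (-(1 : ℝ) * n) := by
    apply Real.exp_le_exp.mpr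
    have := Real.pi_gt_three
    nlinarith
  calc lam k a n ^ 2 * Qk k n ≤ (C ^ 2 * n) * (2 ^ (k - 1) * Real.exp (-(1 : ℝ) * n)) :=
        mul_le_mul h1 (hQ.trans (mul_le_mul_of_nonneg_left hE (by positivity)))
          (n4_Q_nonneg k _ hk) (by positivity)
    _ = _ := by ring

theorem n3_omk_pos {k : ℕ} (hk : 2 ≤ k) : 0 < omk k := by
  have hk' : (2 : ℝ) ≤ k := by exact_mod_cast hk
  unfold omk
  have := Real.Gamma_pos_of_pos (s := (k : ℝ) - 1) (by linarith)
  positivity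

/-- the `y` integral -/
theorem n3_yint {k : ℕ} (hk : 2 ≤ k) {a : ℕ → ℝ} (H : HData k a) (n : ℕ) :
    ∫⁻ y in Set.Ioi (1 / 2 : ℝ), ENNReal.ofReal
      (a n ^ 2 * (y ^ (k - 2) * Real.exp (-4 * Real.pi * n * y))) =
      ENNReal.ofReal (omk k * (lam k a n ^ 2 * Qk k n)) := by
  rcases Nat.eq_zero_or_pos n with h0 | h0
  · subst h0
    simp [lam, H.zero]
  have hn : (0 : ℝ) < n := by exact_mod_cast h0
  obtain ⟨j, rfl⟩ : ∃ j, k = j + 2 := ⟨k - 2, by omega⟩
  have hpi := Real.pi_pos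
  have hc : 0 < 4 * Real.pi * n := by positivity
  have hsub : Set.Ioi (1 / 2 : ℝ) ⊆ Set.Ioi 0 := Set.Ioi_subset_Ioi (by norm_num)
  have hint : IntegrableOn (fun y : ℝ => a n ^ 2 * (y ^ (j + 2 - 2) *
      Real.exp (-4 * Real.pi * n * y))) (Set.Ioi (1 / 2 : ℝ)) := by
    refine Integrable.const_mul ?_ _
    have := (n4_int j hc).mono_set hsub
    rw [Nat.add_sub_cancel]
    refine this.congr_fun (fun y _ => ?_) measurableSet_Ioi
    ring_nf
  rw [← ofReal_integral_eq_lintegral_ofReal hint]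
  · congr 1
    rw [integral_const_mul, Nat.add_sub_cancel]
    have h1 := MeasureTheory.integral_comp_mul_left_Ioi (fun t : ℝ => t ^ j * Real.exp (-t)) (1 / 2 : ℝ) hc
    have h2 : ∫ y in Set.Ioi (1 / 2 : ℝ), (4 * Real.pi * n * y) ^ j * Real.exp (-(4 * Real.pi * n * y)) =
        (4 * Real.pi * n) ^ j * ∫ y in Set.Ioi (1 / 2 : ℝ), y ^ j * Real.exp (-4 * Real.pi * n * y) := by
      rw [← integral_const_mul]
      refine setIntegral_congr_fun measurableSet_Ioi fun y _ => ?_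
      rw [mul_pow (4 * Real.pi * n) y j, mul_assoc]
      congr 3
      ring
    rw [h2, smul_eq_mul, show 4 * Real.pi * n * (1 / 2) = 2 * Real.pi * n by ring] at h1
    have hG : 0 < Real.Gamma ((j : ℝ) + 1) := Real.Gamma_pos_of_pos (by positivity)
    have e1 : ((j + 2 : ℕ) : ℝ) - 1 = (j : ℝ) + 1 := by push_cast; ring
    have hQ : ∫ t in Set.Ioi (2 * Real.pi * (n : ℝ)), t ^ j * Real.exp (-t) =
        Real.Gamma ((j : ℝ) + 1) * Qk (j + 2) n := by
      unfold Qk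
      rw [e1, Nat.add_sub_cancel]
      field_simp
    rw [hQ] at h1
    have hl : lam (j + 2) a n ^ 2 * (n : ℝ) ^ (j + 1) = a n ^ 2 := by
      unfold lam
      rw [mul_pow, mul_assoc, ← Real.rpow_natCast ((n : ℝ) ^ (-(((j + 2 : ℕ) : ℝ) - 1) / 2)),
        ← Real.rpow_mul hn.le, ← Real.rpow_natCast (n : ℝ) (j + 1), ← Real.rpow_add hn]
      have : -(((j + 2 : ℕ) : ℝ) - 1) / 2 * ((2 : ℕ) : ℝ) + ((j + 1 : ℕ) : ℝ) = 0 := by
        push_cast; ring
      rw [this, Real.rpow_zero, mul_one]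
    have hI : ∫ y in Set.Ioi (1 / 2 : ℝ), y ^ j * Real.exp (-4 * Real.pi * n * y) =
        Real.Gamma ((j : ℝ) + 1) * Qk (j + 2) n / (4 * Real.pi * n) ^ (j + 1) := by
      rw [eq_div_iff (by positivity), pow_succ]
      have h3 : (4 * Real.pi * n) * ((4 * Real.pi * n) ^ j *
          ∫ y in Set.Ioi (1 / 2 : ℝ), y ^ j * Real.exp (-4 * Real.pi * n * y)) =
          Real.Gamma ((j : ℝ) + 1) * Qk (j + 2) n := by
        rw [h1, mul_inv_cancel_left₀ hc.ne']
      linarith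
    rw [hI, ← hl]
    unfold omk
    rw [e1, show j + 2 - 1 = j + 1 by omega, mul_pow (4 * Real.pi) (n : ℝ) (j + 1)]
    field_simp
  · rw [EventuallyLE, ae_restrict_iff' measurableSet_Ioi]
    refine Eventually.of_forall fun y hy => ?_
    have : (0 : ℝ) < y := hsub hy
    simp only [Pi.zero_apply]
    positivity

theorem n3_periodic {k : ℕ} {a : ℕ → ℝ} (y : ℝ) :
    Function.Periodic (fun x : ℝ => GL2.ph k a (⟨x, y⟩ : ℂ)) 1 := by
  intro x
  unfold GL2.ph
  simp only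
  congr 3
  unfold qs
  refine tsum_congr fun n => ?_
  congr 1
  rw [Complex.exp_eq_exp_iff_exists_int]
  refine ⟨n, ?_⟩
  have : (⟨x + 1, y⟩ : ℂ) = (⟨x, y⟩ : ℂ) + 1 := by
    apply Complex.ext <;> simp
  rw [this]
  push_cast
  ring

theorem n3_Dm {k : ℕ} {a : ℕ → ℝ} (H : HData k a) {y : ℝ} (hy : 0 < y) :
    GL2.Dm k a 1 y = ∫ x in (-(1 / 2) : ℝ)..(1 / 2), GL2.ph k a (⟨x, y⟩ : ℂ) := by
  rw [GL2.RSA_Dm H hy]
  have h := (n3_periodic (k := k) (a := a) y).intervalIntegral_add_eq 0 (-(1 / 2))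
  rw [zero_add, show -(1 / 2) + (1 : ℝ) = 1 / 2 by norm_num] at h
  exact h

theorem n3_Dm_tsum {k : ℕ} (hk : 2 ≤ k) {a : ℕ → ℝ} (H : HData k a) {y : ℝ} (hy : 0 < y) :
    ENNReal.ofReal (GL2.Dm k a 1 y / y ^ 2) = ∑' n : ℕ, ENNReal.ofReal
      (a n ^ 2 * (y ^ (k - 2) * Real.exp (-4 * Real.pi * n * y))) := by
  obtain ⟨C, hC⟩ := H.growth
  have hC0 : 0 ≤ C := by
    have := hC 1
    simp only [Nat.cast_one, Real.one_rpow, mul_one] at this
    exact (abs_nonneg _).trans this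
  have hpi := Real.pi_pos
  have hs : Summable (fun n : ℕ => a n ^ 2 * Real.exp (-4 * Real.pi * n * y)) := by
    have s1 : Summable (fun l : ℕ => (l : ℝ) ^ k * Real.exp (-(4 * Real.pi * y) * l)) :=
      Real.summable_pow_mul_exp_neg_nat_mul k (by positivity)
    refine Summable.of_nonneg_of_le (fun n => by positivity) ?_ (s1.mul_left (C ^ 2))
    intro n
    have h1 : a n ^ 2 ≤ C ^ 2 * (n : ℝ) ^ k := by
      calc a n ^ 2 = |a n| ^ 2 := (sq_abs _).symm
        _ ≤ (C * (n : ℝ) ^ ((k : ℝ) / 2)) ^ 2 := pow_le_pow_left₀ (abs_nonneg _) (hC n) 2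
        _ = C ^ 2 * (n : ℝ) ^ k := by
            rw [mul_pow, ← Real.rpow_natCast ((n : ℝ) ^ ((k : ℝ) / 2)),
              ← Real.rpow_mul (Nat.cast_nonneg n)]
            rw [show (k : ℝ) / 2 * ((2 : ℕ) : ℝ) = (k : ℝ) by push_cast; ring, Real.rpow_natCast]
    calc a n ^ 2 * Real.exp (-4 * Real.pi * n * y)
        ≤ C ^ 2 * (n : ℝ) ^ k * Real.exp (-4 * Real.pi * n * y) :=
          mul_le_mul_of_nonneg_right h1 (Real.exp_pos _).le
      _ = C ^ 2 * ((n : ℝ) ^ k * Real.exp (-(4 * Real.pi * y) * n)) := by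
          rw [mul_assoc]
          congr 3
          ring
  have h2 : GL2.Dm k a 1 y / y ^ 2 =
      ∑' n : ℕ, a n ^ 2 * (y ^ (k - 2) * Real.exp (-4 * Real.pi * n * y)) := by
    unfold GL2.Dm
    have : ∀ n : ℕ, am a 1 n = a n := fun n => by simp [am]
    simp_rw [this]
    rw [mul_div_assoc, ← tsum_div_const, ← tsum_mul_left]
    refine tsum_congr fun n => ?_
    obtain ⟨j, rfl⟩ : ∃ j, k = j + 2 := ⟨k - 2, by omega⟩
    rw [Nat.add_sub_cancel]
    field_simp
    ring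
  rw [h2, ENNReal.ofReal_tsum_of_nonneg]
  · intro n
    positivity
  · have := hs.mul_left (y ^ (k - 2))
    refine this.congr fun n => ?_
    ring

/-- the integral over the strip -/
theorem n3_strip {k : ℕ} {a : ℕ → ℝ} (H : HData k a) :
    ∫⁻ z in {z : ℂ | |z.re| < 1 / 2 ∧ 1 / 2 < z.im}, ENNReal.ofReal (GL2.ph k a z / z.im ^ 2) ≤
      ∫⁻ y in Set.Ioi (1 / 2 : ℝ), ENNReal.ofReal (GL2.Dm k a 1 y / y ^ 2) := by
  have hSm : MeasurableSet {z : ℂ | |z.re| < 1 / 2 ∧ 1 / 2 < z.im} := by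
    apply MeasurableSet.inter
    · exact (isOpen_lt (Complex.continuous_re.abs) continuous_const).measurableSet
    · exact (isOpen_lt continuous_const Complex.continuous_im).measurableSet
  rw [← lintegral_indicator hSm]
  set f : ℝ × ℝ → ℝ≥0∞ := (Set.Ioo (-(1 / 2) : ℝ) (1 / 2) ×ˢ Set.Ioi (1 / 2 : ℝ)).indicator
    (fun p : ℝ × ℝ => ENNReal.ofReal (GL2.ph k a (⟨p.1, p.2⟩ : ℂ) / p.2 ^ 2)) with hf
  have h2 : ∫⁻ z : ℂ, {z : ℂ | |z.re| < 1 / 2 ∧ 1 / 2 < z.im}.indicator (fun z =>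
      ENNReal.ofReal (GL2.ph k a z / z.im ^ 2)) z = ∫⁻ p : ℝ × ℝ, f p := by
    rw [(Complex.volume_preserving_equiv_real_prod.symm).lintegral_map_equiv]
    apply lintegral_congr
    rintro ⟨x, y⟩
    have e : Complex.measurableEquivRealProd.symm (x, y) = (⟨x, y⟩ : ℂ) := rfl
    rw [e, hf]
    by_cases hp : (|x| < 1 / 2 ∧ 1 / 2 < y)
    · have hp' : (x, y) ∈ Set.Ioo (-(1 / 2) : ℝ) (1 / 2) ×ˢ Set.Ioi (1 / 2 : ℝ) :=
        ⟨abs_lt.1 hp.1, hp.2⟩
      rw [Set.indicator_of_mem (by exact hp), Set.indicator_of_mem hp']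
    · have hp' : (x, y) ∉ Set.Ioo (-(1 / 2) : ℝ) (1 / 2) ×ˢ Set.Ioi (1 / 2 : ℝ) :=
        fun h => hp ⟨abs_lt.2 h.1, h.2⟩
      rw [Set.indicator_of_notMem (by exact hp), Set.indicator_of_notMem hp']
  rw [h2, Measure.volume_eq_prod]
  have hcont : ContinuousOn (fun p : ℝ × ℝ => GL2.ph k a (⟨p.1, p.2⟩ : ℂ)) {p : ℝ × ℝ | 0 < p.2} := by
    have h3 : Continuous (fun p : ℝ × ℝ => (⟨p.1, p.2⟩ : ℂ)) :=
      Complex.equivRealProdCLM.symm.continuous
    exact (GL2.RSA_ph_cont H).comp h3.continuousOn (fun p hp => hp)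
  have hmeas : MeasurableSet (Set.Ioo (-(1 / 2) : ℝ) (1 / 2) ×ˢ Set.Ioi (1 / 2 : ℝ)) :=
    measurableSet_Ioo.prod measurableSet_Ioi
  have hfm : AEMeasurable f (volume.prod volume) := by
    rw [hf, aemeasurable_indicator_iff hmeas]
    apply AEMeasurable.ennreal_ofReal
    apply ContinuousOn.aemeasurable _ hmeas
    apply ContinuousOn.div
    · exact hcont.mono (fun p hp => lt_trans (by norm_num) (show (1 / 2 : ℝ) < p.2 from hp.2))
    · fun_prop
    · intro p hp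
      have : 0 < p.2 := lt_trans (by norm_num) (show (1 / 2 : ℝ) < p.2 from hp.2)
      positivity
  rw [lintegral_prod_symm _ hfm, ← lintegral_indicator measurableSet_Ioi]
  apply lintegral_mono
  intro y
  simp only
  by_cases hy : y ∈ Set.Ioi (1 / 2 : ℝ)
  · have hy0 : 0 < y := lt_trans (by norm_num) (show (1 / 2 : ℝ) < y from hy)
    rw [Set.indicator_of_mem hy]
    have h5 : ∀ x : ℝ, f (x, y) = (Set.Ioo (-(1 / 2) : ℝ) (1 / 2)).indicator
        (fun x => ENNReal.ofReal (GL2.ph k a (⟨x, y⟩ : ℂ) / y ^ 2)) x := by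
      intro x
      by_cases hx : x ∈ Set.Ioo (-(1 / 2) : ℝ) (1 / 2)
      · rw [hf, Set.indicator_of_mem (by exact ⟨hx, hy⟩), Set.indicator_of_mem hx]
      · rw [hf, Set.indicator_of_notMem (by exact fun h => hx h.1), Set.indicator_of_notMem hx]
    rw [lintegral_congr h5, lintegral_indicator measurableSet_Ioo,
      ← ofReal_integral_eq_lintegral_ofReal]
    · apply le_of_eq
      congr 1
      rw [n3_Dm H hy0, integral_div, intervalIntegral.integral_of_le (by norm_num),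
        integral_Ioc_eq_integral_Ioo]
    · have h6 : ContinuousOn (fun x : ℝ => GL2.ph k a (⟨x, y⟩ : ℂ) / y ^ 2)
          (Set.Icc (-(1 / 2)) (1 / 2)) := by
        apply ContinuousOn.div_const
        exact hcont.comp (f := fun x : ℝ => (x, y)) (by fun_prop) (fun x _ => hy0)
      exact (h6.integrableOn_Icc).mono_set Set.Ioo_subset_Icc_self
    · apply Eventually.of_forall
      intro x
      exact div_nonneg (GL2.RSA_ph_nonneg hy0.le) (sq_nonneg y)
  · rw [Set.indicator_of_notMem hy]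
    have h5 : ∀ x : ℝ, f (x, y) = 0 := by
      intro x
      rw [hf, Set.indicator_of_notMem (by exact fun h => hy h.2)]
    rw [lintegral_congr h5, lintegral_zero]

/-- block N3 -/
theorem pn_le {k : ℕ} (hk : 2 ≤ k) {a : ℕ → ℝ} (H : HData k a) :
    Summable (fun n : ℕ => lam k a n ^ 2 * Qk k n) ∧
      1 / om k a ≤ ∑' n : ℕ, lam k a n ^ 2 * Qk k n := by
  have hs := n3_summable hk H
  refine ⟨hs, ?_⟩
  have hom := n3_omk_pos hk
  have hnn : ∀ n, 0 ≤ lam k a n ^ 2 * Qk k n := fun n => mul_nonneg (sq_nonneg _) (n4_Q_nonneg k n hk)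
  have hT : 0 ≤ ∑' n : ℕ, lam k a n ^ 2 * Qk k n := tsum_nonneg hnn
  have hpn : pn k (fun n => (a n : ℂ)) = ∫ z in FD, GL2.ph k a z / z.im ^ 2 := rfl
  have h0 : 0 ≤ pn k (fun n => (a n : ℂ)) := by
    rw [hpn]
    apply setIntegral_nonneg GL2.rsl_FD_meas
    intro z hz
    exact div_nonneg (GL2.RSA_ph_nonneg hz.1.le) (sq_nonneg _)
  have h1 : ENNReal.ofReal (pn k (fun n => (a n : ℂ))) ≤
      ENNReal.ofReal (omk k * ∑' n : ℕ, lam k a n ^ 2 * Qk k n) := by
    calc ENNReal.ofReal (pn k (fun n => (a n : ℂ)))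
        = ‖∫ z in FD, GL2.ph k a z / z.im ^ 2‖ₑ := by
          rw [← hpn, Real.enorm_eq_ofReal h0]
      _ ≤ ∫⁻ z in FD, ‖GL2.ph k a z / z.im ^ 2‖ₑ := enorm_integral_le_lintegral_enorm _
      _ = ∫⁻ z in FD, ENNReal.ofReal (GL2.ph k a z / z.im ^ 2) := by
          refine setLIntegral_congr_fun GL2.rsl_FD_meas fun z hz => ?_
          rw [Real.enorm_eq_ofReal (div_nonneg (GL2.RSA_ph_nonneg hz.1.le) (sq_nonneg _))]
      _ ≤ ∫⁻ z in {z : ℂ | |z.re| < 1 / 2 ∧ 1 / 2 < z.im},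
            ENNReal.ofReal (GL2.ph k a z / z.im ^ 2) := by
          apply lintegral_mono_set
          intro z hz
          exact ⟨hz.2.2, GL2.rsl_FD_im hz⟩
      _ ≤ ∫⁻ y in Set.Ioi (1 / 2 : ℝ), ENNReal.ofReal (GL2.Dm k a 1 y / y ^ 2) := n3_strip H
      _ = ∫⁻ y in Set.Ioi (1 / 2 : ℝ), ∑' n : ℕ, ENNReal.ofReal
            (a n ^ 2 * (y ^ (k - 2) * Real.exp (-4 * Real.pi * n * y))) := by
          refine setLIntegral_congr_fun measurableSet_Ioi fun y hy => ?_
          exact n3_Dm_tsum hk H (lt_trans (by norm_num) (show (1 / 2 : ℝ) < y from hy))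
      _ = ∑' n : ℕ, ∫⁻ y in Set.Ioi (1 / 2 : ℝ), ENNReal.ofReal
            (a n ^ 2 * (y ^ (k - 2) * Real.exp (-4 * Real.pi * n * y))) := by
          apply lintegral_tsum
          intro n
          exact (by fun_prop : Measurable fun y : ℝ => ENNReal.ofReal
            (a n ^ 2 * (y ^ (k - 2) * Real.exp (-4 * Real.pi * n * y)))).aemeasurable
      _ = ∑' n : ℕ, ENNReal.ofReal (omk k * (lam k a n ^ 2 * Qk k n)) :=
          tsum_congr fun n => n3_yint hk H n
      _ = ENNReal.ofReal (omk k * ∑' n : ℕ, lam k a n ^ 2 * Qk k n) := by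
          rw [← tsum_mul_left, ENNReal.ofReal_tsum_of_nonneg
            (fun n => mul_nonneg hom.le (hnn n)) (hs.mul_left _)]
  have h2 : pn k (fun n => (a n : ℂ)) ≤ omk k * ∑' n : ℕ, lam k a n ^ 2 * Qk k n :=
    (ENNReal.ofReal_le_ofReal_iff (mul_nonneg hom.le hT)).1 h1
  unfold om
  rw [one_div_div, div_le_iff₀ hom]
  linarith

end Pool.Agent.WA
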