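import Pool.Agent.Lib_helper98.WAF.N3

/-! Block N4 (RL): `Rl_le`, `Rl_small`, `inv_om_le` (helper76). -/

namespace Pool.Agent.WA

open Complex MeasureTheory Filter Topology UpperHalfPlane ModularGroup
open scoped MatrixGroups Modular ENNReal
open Pool.Agent.GL2 (qs HData am dens hatw Ep Mol xt FD IsCompletedL oddZ)

theorem n4_count (D : ℕ) {x : ℝ} (hx : 0 ≤ x) :
    ∑ d ∈ Finset.range D, (if ((d : ℝ) + 1) < x then (1 : ℝ) else 0) ≤ x := by
  rw [← Finset.sum_filter, Finset.sum_const, nsmul_eq_mul, mul_one]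
  have h : (Finset.filter (fun d : ℕ => ((d : ℝ) + 1) < x) (Finset.range D)).card ≤ ⌊x⌋₊ := by
    rw [← Finset.card_range ⌊x⌋₊]
    refine Finset.card_le_card fun d hd => ?_
    rw [Finset.mem_filter] at hd
    rw [Finset.mem_range, ← Nat.succ_le_iff]
    refine Nat.le_floor ?_
    push_cast
    exact hd.2.le
  calc ((Finset.filter (fun d : ℕ => ((d : ℝ) + 1) < x) (Finset.range D)).card : ℝ)
      ≤ (⌊x⌋₊ : ℝ) := by exact_mod_cast h
    _ ≤ x := Nat.floor_le hx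

theorem n4_partial {k l : ℕ} (hk : 2 ≤ k) (hl : 1 ≤ l) (D : ℕ) :
    ∑ d ∈ Finset.range D, Qk k ((d + 1) * l) ≤ ((k : ℝ) - 1) / (2 * Real.pi * l) := by
  obtain ⟨j, rfl⟩ : ∃ j, k = j + 2 := ⟨k - 2, by omega⟩
  have hl' : (0 : ℝ) < l := by exact_mod_cast hl
  have hpi := Real.pi_pos
  have e1 : ((j + 2 : ℕ) : ℝ) - 1 = (j : ℝ) + 1 := by push_cast; ring
  have hG : 0 < Real.Gamma ((j : ℝ) + 1) := Real.Gamma_pos_of_pos (by positivity)
  have e2 : ∀ d : ℕ, Qk (j + 2) ((d + 1) * l) =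
      (∫ t in Set.Ioi (0 : ℝ), (if ((d : ℝ) + 1) < t / (2 * Real.pi * l) then (1 : ℝ) else 0) *
        (t ^ j * Real.exp (-t))) / Real.Gamma ((j : ℝ) + 1) := by
    intro d
    unfold Qk
    rw [e1, Nat.add_sub_cancel]
    congr 1
    have hc : (0 : ℝ) ≤ 2 * Real.pi * (((d + 1) * l : ℕ) : ℝ) := by positivity
    rw [← integral_indicator measurableSet_Ioi, ← integral_indicator measurableSet_Ioi]
    congr 1
    ext t
    by_cases ht : 2 * Real.pi * (((d + 1) * l : ℕ) : ℝ) < t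
    · have ht0 : 0 < t := lt_of_le_of_lt hc ht
      have hcond : ((d : ℝ) + 1) < t / (2 * Real.pi * l) := by
        rw [lt_div_iff₀ (by positivity)]
        push_cast at ht
        nlinarith [ht]
      rw [Set.indicator_of_mem (Set.mem_Ioi.mpr ht), Set.indicator_of_mem (Set.mem_Ioi.mpr ht0),
        if_pos hcond, one_mul]
    · rw [Set.indicator_of_notMem (by simpa using ht)]
      by_cases ht0 : 0 < t
      · have hcond : ¬ ((d : ℝ) + 1) < t / (2 * Real.pi * l) := by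
          rw [lt_div_iff₀ (by positivity)]
          push_cast at ht
          intro h
          apply ht
          nlinarith [h]
        rw [Set.indicator_of_mem (Set.mem_Ioi.mpr ht0), if_neg hcond, zero_mul]
      · rw [Set.indicator_of_notMem (by simpa using ht0)]
  have hint : ∀ d : ℕ, IntegrableOn (fun t : ℝ =>
      (if ((d : ℝ) + 1) < t / (2 * Real.pi * l) then (1 : ℝ) else 0) *
        (t ^ j * Real.exp (-t))) (Set.Ioi 0) := by
    intro d
    refine (n4_int1 j).mono' ?_ ?_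
    · refine AEStronglyMeasurable.mul ?_ (n4_int1 j).aestronglyMeasurable
      refine Measurable.aestronglyMeasurable ?_
      exact Measurable.ite (measurableSet_lt measurable_const (measurable_id.div_const _))
        measurable_const measurable_const
    · rw [ae_restrict_iff' measurableSet_Ioi]
      refine Eventually.of_forall fun t ht => ?_
      have ht' : 0 < t := ht
      rw [norm_mul, Real.norm_of_nonneg (by positivity : 0 ≤ t ^ j * Real.exp (-t))]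
      refine mul_le_of_le_one_left (by positivity) ?_
      split_ifs <;> simp
  rw [Finset.sum_congr rfl (fun d _ => e2 d), ← Finset.sum_div,
    ← integral_finset_sum _ (fun d _ => hint d), div_le_iff₀ hG]
  have h3 : ∫ t in Set.Ioi (0 : ℝ), ∑ d ∈ Finset.range D,
      (if ((d : ℝ) + 1) < t / (2 * Real.pi * l) then (1 : ℝ) else 0) * (t ^ j * Real.exp (-t)) ≤
      ∫ t in Set.Ioi (0 : ℝ), (1 / (2 * Real.pi * l)) * (t ^ (j + 1) * Real.exp (-t)) := by
    refine setIntegral_mono_on (integrable_finset_sum _ fun d _ => hint d)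
      ((n4_int1 (j + 1)).const_mul _) measurableSet_Ioi fun t ht => ?_
    have ht' : 0 < t := ht
    rw [← Finset.sum_mul]
    have := n4_count D (x := t / (2 * Real.pi * l)) (by positivity)
    calc (∑ d ∈ Finset.range D, (if ((d : ℝ) + 1) < t / (2 * Real.pi * l) then (1 : ℝ) else 0)) *
          (t ^ j * Real.exp (-t)) ≤ t / (2 * Real.pi * l) * (t ^ j * Real.exp (-t)) :=
          mul_le_mul_of_nonneg_right this (by positivity)
      _ = _ := by rw [pow_succ]; ring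
  refine h3.trans (le_of_eq ?_)
  rw [integral_const_mul, n4_gamma, e1]
  push_cast
  rw [Real.Gamma_add_one (by positivity)]
  ring

/-- block N4 -/
theorem Rl_le {k l : ℕ} (hk : 2 ≤ k) (hl : 1 ≤ l) :
    Summable (fun d : ℕ => Qk k ((d + 1) * l)) ∧ 0 ≤ Rl k l ∧
      Rl k l ≤ ((k : ℝ) - 1) / (2 * Real.pi * l) := by
  refine ⟨summable_of_sum_range_le (fun d => n4_Q_nonneg k _ hk) (n4_partial hk hl),
    tsum_nonneg (fun d => n4_Q_nonneg k _ hk),
    Real.tsum_le_of_sum_range_le (fun d => n4_Q_nonneg k _ hk) (n4_partial hk hl)⟩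

/-- block N4 -/
theorem Rl_small : ∃ k₀ : ℕ, ∀ k : ℕ, k₀ ≤ k → ∀ l : ℕ, k ≤ l →
    Rl k l ≤ Real.exp (-(l : ℝ)) := by
  refine ⟨2, fun k hk l hkl => ?_⟩
  have hl : 1 ≤ l := by omega
  have hl' : (2 : ℝ) ≤ l := by exact_mod_cast (hk.trans hkl)
  have hpi := Real.pi_gt_three
  set r : ℝ := Real.exp (-(Real.pi * l)) with hr
  have hr0 : 0 < r := Real.exp_pos _
  have hr1 : r ≤ 1 / 2 := by
    rw [hr]
    calc Real.exp (-(Real.pi * l)) ≤ Real.exp (-1) := Real.exp_le_exp.mpr (by nlinarith)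
      _ ≤ 1 / 2 := by
        have := Real.exp_one_gt_d9
        rw [Real.exp_neg, one_div]
        apply inv_anti₀ (by norm_num)
        linarith
  have hgeo : HasSum (fun d : ℕ => 2 ^ (k - 1) * (r * r ^ d)) (2 ^ (k - 1) * (r * (1 - r)⁻¹)) :=
    ((hasSum_geometric_of_lt_one hr0.le (by linarith)).mul_left r).mul_left _
  have hle : ∀ d : ℕ, Qk k ((d + 1) * l) ≤ 2 ^ (k - 1) * (r * r ^ d) := by
    intro d
    refine (n4_Q_le hk _).trans (le_of_eq ?_)
    congr 1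
    rw [hr, ← pow_succ', ← Real.exp_nat_mul]
    congr 1
    push_cast
    ring
  have h1 : Rl k l ≤ 2 ^ (k - 1) * (r * (1 - r)⁻¹) := by
    unfold Rl
    rw [← hgeo.tsum_eq]
    exact (Rl_le hk hl).1.tsum_le_tsum hle hgeo.summable
  have h2 : (1 - r)⁻¹ ≤ 2 := by
    rw [inv_le_comm₀ (by linarith) (by norm_num)]
    linarith
  have h3 : (2 : ℝ) ^ (k - 1) * (r * (1 - r)⁻¹) ≤ 2 ^ k * r := by
    have : (2 : ℝ) ^ k = 2 ^ (k - 1) * 2 := by
      rw [← pow_succ]
      congr 1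
      omega
    rw [this]
    have : r * (1 - r)⁻¹ ≤ r * 2 := mul_le_mul_of_nonneg_left h2 hr0.le
    calc (2 : ℝ) ^ (k - 1) * (r * (1 - r)⁻¹) ≤ 2 ^ (k - 1) * (r * 2) :=
          mul_le_mul_of_nonneg_left this (by positivity)
      _ = _ := by ring
  have h4 : (2 : ℝ) ^ k * r ≤ Real.exp (-(l : ℝ)) := by
    have h5 : (2 : ℝ) ^ k ≤ Real.exp (l : ℝ) := by
      calc (2 : ℝ) ^ k ≤ Real.exp 1 ^ k := by
            apply pow_le_pow_left₀ (by norm_num)
            have := Real.exp_one_gt_d9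
            linarith
        _ = Real.exp (k : ℝ) := by rw [← Real.exp_nat_mul]; simp
        _ ≤ Real.exp (l : ℝ) := Real.exp_le_exp.mpr (by exact_mod_cast hkl)
    calc (2 : ℝ) ^ k * r ≤ Real.exp (l : ℝ) * r := mul_le_mul_of_nonneg_right h5 hr0.le
      _ = Real.exp ((l : ℝ) + -(Real.pi * l)) := by rw [hr, Real.exp_add]
      _ ≤ Real.exp (-(l : ℝ)) := Real.exp_le_exp.mpr (by nlinarith)
  exact (h1.trans h3).trans h4

theorem n4_lam_le {k : ℕ} {a : ℕ → ℝ} (H : HData k a) :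
    ∃ C : ℝ, 0 ≤ C ∧ ∀ l : ℕ, 0 < l → |lam k a (l ^ 2)| ≤ C * l := by
  obtain ⟨C, hC⟩ := H.growth
  have hC0 : 0 ≤ C := by
    have := hC 1
    simp only [Nat.cast_one, Real.one_rpow, mul_one] at this
    exact (abs_nonneg _).trans this
  refine ⟨C, hC0, fun l hl => ?_⟩
  have hl' : (0 : ℝ) < l := by exact_mod_cast hl
  unfold lam
  rw [abs_mul, abs_of_nonneg (Real.rpow_nonneg (Nat.cast_nonneg _) _)]
  have h1 := hC (l ^ 2)
  calc |a (l ^ 2)| * ((l ^ 2 : ℕ) : ℝ) ^ (-((k : ℝ) - 1) / 2)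
      ≤ C * ((l ^ 2 : ℕ) : ℝ) ^ ((k : ℝ) / 2) * ((l ^ 2 : ℕ) : ℝ) ^ (-((k : ℝ) - 1) / 2) :=
        mul_le_mul_of_nonneg_right h1 (Real.rpow_nonneg (Nat.cast_nonneg _) _)
    _ = C * ((((l : ℝ) ^ (2 : ℕ))) ^ ((k : ℝ) / 2) * ((l : ℝ) ^ (2 : ℕ)) ^ (-((k : ℝ) - 1) / 2)) := by
        push_cast; ring
    _ = C * l := by
        rw [← Real.rpow_add (by positivity), ← Real.rpow_natCast, ← Real.rpow_mul hl'.le]
        have : ((2 : ℕ) : ℝ) * ((k : ℝ) / 2 + -((k : ℝ) - 1) / 2) = 1 := by push_cast; ring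
        rw [this, Real.rpow_one]

theorem n4_summable {k : ℕ} (hk : 2 ≤ k) {a : ℕ → ℝ} (H : HData k a) :
    Summable (fun x : ℕ+ × ℕ+ => lam k a ((x.1 : ℕ) ^ 2) * Qk k (x.2 * x.1)) := by
  obtain ⟨C, hC0, hC⟩ := n4_lam_le H
  have s1 : Summable (fun l : ℕ => (l : ℝ) * Real.exp (-(1 : ℝ) * l)) := by
    simpa using Real.summable_pow_mul_exp_neg_nat_mul 1 one_pos
  have s2 : Summable (fun l : ℕ => Real.exp (-(1 : ℝ) * l)) := by
    simpa using Real.summable_pow_mul_exp_neg_nat_mul 0 one_pos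
  have s1' : Summable (fun l : ℕ+ => ((l : ℕ) : ℝ) * Real.exp (-(1 : ℝ) * (l : ℕ))) :=
    s1.comp_injective PNat.coe_injective
  have s2' : Summable (fun l : ℕ+ => Real.exp (-(1 : ℝ) * (l : ℕ))) :=
    s2.comp_injective PNat.coe_injective
  have s3 := (s1'.mul_of_nonneg s2' (fun l => by positivity) (fun l => by positivity)).mul_left
    (C * 2 ^ (k - 1))
  refine Summable.of_norm_bounded s3 fun x => ?_
  obtain ⟨l, d⟩ := x
  have hl : 0 < (l : ℕ) := l.pos
  have hd : 0 < (d : ℕ) := d.pos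
  have hl' : (1 : ℝ) ≤ (l : ℕ) := by exact_mod_cast hl
  have hd' : (1 : ℝ) ≤ (d : ℕ) := by exact_mod_cast hd
  simp only
  rw [norm_mul, Real.norm_eq_abs, Real.norm_of_nonneg (n4_Q_nonneg k _ hk)]
  have hQ := n4_Q_le hk ((d : ℕ) * (l : ℕ))
  have hpi := Real.pi_gt_three
  have hE : Real.exp (-(Real.pi * (((d : ℕ) * (l : ℕ) : ℕ) : ℝ))) ≤
      Real.exp (-(1 : ℝ) * (l : ℕ)) * Real.exp (-(1 : ℝ) * (d : ℕ)) := by
    rw [← Real.exp_add]
    apply Real.exp_le_exp.mpr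
    push_cast
    have h1 : ((d : ℕ) : ℝ) ≤ (d : ℕ) * (l : ℕ) := by nlinarith
    have h2 : ((l : ℕ) : ℝ) ≤ (d : ℕ) * (l : ℕ) := by nlinarith
    nlinarith
  calc |lam k a ((l : ℕ) ^ 2)| * Qk k ((d : ℕ) * (l : ℕ))
      ≤ (C * (l : ℕ)) * (2 ^ (k - 1) * (Real.exp (-(1 : ℝ) * (l : ℕ)) *
          Real.exp (-(1 : ℝ) * (d : ℕ)))) :=
        mul_le_mul (hC _ hl) (hQ.trans (mul_le_mul_of_nonneg_left hE (by positivity)))
          (n4_Q_nonneg k _ hk) (by positivity)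
    _ = _ := by ring

theorem n4_Rl (k : ℕ) (l : ℕ+) : ∑' d : ℕ+, Qk k ((d : ℕ) * (l : ℕ)) = Rl k l :=
  tsum_pnat_eq_tsum_succ (f := fun d => Qk k (d * (l : ℕ)))

/-- block N4 -/
theorem inv_om_le {k : ℕ} (hk : 2 ≤ k) {a : ℕ → ℝ} (H : HData k a) :
    Summable (fun l : ℕ => |lam k a ((l + 1) ^ 2)| * Rl k (l + 1)) ∧
      1 / om k a ≤ ∑' l : ℕ, lam k a ((l + 1) ^ 2) * Rl k (l + 1) := by
  have hs := n4_summable hk H
  constructor
  · have h1 := hs.norm.prod
    have h2 : (fun l : ℕ+ => ∑' d : ℕ+, ‖lam k a ((l : ℕ) ^ 2) * Qk k ((d : ℕ) * (l : ℕ))‖) =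
        fun l : ℕ+ => |lam k a ((l : ℕ) ^ 2)| * Rl k l := by
      ext l
      rw [← n4_Rl, ← tsum_mul_left]
      refine tsum_congr fun d => ?_
      rw [norm_mul, Real.norm_eq_abs, Real.norm_of_nonneg (n4_Q_nonneg k _ hk)]
    rw [h2] at h1
    exact (summable_pnat_iff_summable_succ
      (f := fun l : ℕ => |lam k a (l ^ 2)| * Rl k l)).mp h1
  · obtain ⟨_, hpn⟩ := pn_le hk H
    refine hpn.trans (le_of_eq ?_)
    have h0 : lam k a 0 ^ 2 * Qk k 0 = 0 := by simp [lam, H.zero]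
    rw [← tsum_pnat_eq_tsum_of_eq_zero (f := fun n => lam k a n ^ 2 * Qk k n) h0,
      ← tsum_pnat_eq_tsum_succ (f := fun l => lam k a (l ^ 2) * Rl k l)]
    have e1 : ∑' x : ℕ+ × ℕ+, lam k a ((x.1 : ℕ) ^ 2) * Qk k (x.2 * x.1) =
        ∑' l : ℕ+, lam k a ((l : ℕ) ^ 2) * Rl k l := by
      rw [hs.tsum_prod]
      refine tsum_congr fun l => ?_
      simp only
      rw [tsum_mul_left, n4_Rl]
    rw [← e1]
    have hσ := (sigmaAntidiagonalEquivProd.summable_iff).mpr hs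
    rw [← sigmaAntidiagonalEquivProd.tsum_eq]
    refine Eq.trans ?_ (Summable.tsum_sigma hσ).symm
    refine tsum_congr fun n => ?_
    have e3 : ∀ x : Nat.divisorsAntidiagonal (n : ℕ),
        lam k a (((sigmaAntidiagonalEquivProd ⟨n, x⟩).1 : ℕ) ^ 2) *
          Qk k ((sigmaAntidiagonalEquivProd ⟨n, x⟩).2 * (sigmaAntidiagonalEquivProd ⟨n, x⟩).1) =
        lam k a ((x : ℕ × ℕ).1 ^ 2) * Qk k n := by
      intro x
      have hx := (Nat.mem_divisorsAntidiagonal.mp x.2).1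
      simp only [sigmaAntidiagonalEquivProd, divisorsAntidiagonalFactors, Equiv.coe_fn_mk,
        PNat.mk_coe]
      rw [mul_comm (x : ℕ × ℕ).2, hx]
    rw [lam_sq H n.pos, Nat.sum_div_divisors (n : ℕ) (fun d => lam k a (d ^ 2)),
      Finset.sum_mul]
    simp only [Function.comp]
    rw [tsum_congr e3, Finset.tsum_subtype (Nat.divisorsAntidiagonal (n : ℕ))
      (fun x => lam k a (x.1 ^ 2) * Qk k n),
      Nat.sum_divisorsAntidiagonal (fun x _ => lam k a (x ^ 2) * Qk k n)]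

end Pool.Agent.WA
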