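import Pool.Agent.Lib_helper98.WAF.N2
import Pool.Agent.Lib_helper98.WAF.N4

/-! Block N5 (INV): the sum of the inverse harmonic weights (helper95). -/

namespace Pool.Agent.WA

open Complex MeasureTheory Filter Topology UpperHalfPlane ModularGroup
open scoped MatrixGroups Modular ENNReal
open Pool.Agent.GL2 (qs HData am dens hatw Ep Mol xt FD IsCompletedL oddZ)

/-- dyadic block -/
noncomputable def n5_B (k : ℕ) (a : ℕ → ℝ) (s : ℕ) : ℝ :=
  ∑ l ∈ Finset.Ico (2 ^ s) (2 ^ (s + 1)), lam k a (l ^ 2) * Rl k l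

theorem n5_partial (k : ℕ) (a : ℕ → ℝ) (S : ℕ) :
    ∑ s ∈ Finset.range S, n5_B k a s =
      ∑ l ∈ Finset.Ico 1 (2 ^ S), lam k a (l ^ 2) * Rl k l := by
  induction S with
  | zero => simp
  | succ S ih =>
    rw [Finset.sum_range_succ, ih, n5_B, Finset.sum_Ico_consecutive]
    · exact Nat.one_le_two_pow
    · exact Nat.pow_le_pow_right (by norm_num) (Nat.le_succ S)

theorem n5_block {C₁ : ℝ} {k : ℕ} {ι : Type} [Fintype ι] (F : Fam k ι)
    (h : ∀ (N : ℕ) (c : ℕ → ℝ),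
      ∑ i, om k (F.a i) * (∑ n ∈ Finset.Icc 1 N, c n * lam k (F.a i) n) ^ 2 ≤
      C₁ * (1 + N / k) * ∑ n ∈ Finset.Icc 1 N, c n ^ 2) (s : ℕ) :
    ∑ i, om k (F.a i) * n5_B k (F.a i) s ^ 2 ≤
      C₁ * (1 + (4 : ℝ) ^ (s + 1) / k) * ∑ l ∈ Finset.Ico (2 ^ s) (2 ^ (s + 1)), Rl k l ^ 2 := by
  classical
  set I : Finset ℕ := Finset.Ico (2 ^ s) (2 ^ (s + 1)) with hI
  set J : Finset ℕ := I.image (fun l => l ^ 2) with hJ
  have hinj : Set.InjOn (fun l : ℕ => l ^ 2) (I : Set ℕ) :=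
    fun a _ b _ hab => Nat.pow_left_injective (by norm_num) hab
  have hsub : J ⊆ Finset.Icc 1 (4 ^ (s + 1)) := by
    intro n hn
    rw [hJ, Finset.mem_image] at hn
    obtain ⟨l, hl, rfl⟩ := hn
    rw [hI, Finset.mem_Ico] at hl
    have h1 : 1 ≤ l := le_trans Nat.one_le_two_pow hl.1
    rw [Finset.mem_Icc]
    refine ⟨Nat.one_le_pow _ _ h1, ?_⟩
    have h2 : (4 : ℕ) ^ (s + 1) = (2 ^ (s + 1)) ^ 2 := by
      rw [← pow_mul, mul_comm (s + 1) 2, pow_mul]; norm_num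
    rw [h2]
    exact Nat.pow_le_pow_left hl.2.le 2
  have key : ∀ φ : ℕ → ℝ, ∑ n ∈ Finset.Icc 1 (4 ^ (s + 1)), (if n ∈ J then φ n else 0) =
      ∑ l ∈ I, φ (l ^ 2) := by
    intro φ
    rw [Finset.sum_ite_mem, Finset.inter_eq_right.mpr hsub, hJ, Finset.sum_image hinj]
  have h1 := h (4 ^ (s + 1)) (fun n => if n ∈ J then Rl k (Nat.sqrt n) else 0)
  have h2 : ∀ a : ℕ → ℝ, ∑ n ∈ Finset.Icc 1 (4 ^ (s + 1)),
      (if n ∈ J then Rl k (Nat.sqrt n) else 0) * lam k a n = n5_B k a s := by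
    intro a
    have h3 : ∀ n, (if n ∈ J then Rl k (Nat.sqrt n) else 0) * lam k a n =
        if n ∈ J then Rl k (Nat.sqrt n) * lam k a n else 0 := by
      intro n; split_ifs <;> simp
    simp_rw [h3]
    rw [key, n5_B]
    refine Finset.sum_congr rfl fun l _ => ?_
    rw [Nat.sqrt_eq', mul_comm]
  have h4 : ∑ n ∈ Finset.Icc 1 (4 ^ (s + 1)),
      (if n ∈ J then Rl k (Nat.sqrt n) else 0) ^ 2 = ∑ l ∈ I, Rl k l ^ 2 := by
    have h3 : ∀ n, (if n ∈ J then Rl k (Nat.sqrt n) else 0) ^ 2 =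
        if n ∈ J then Rl k (Nat.sqrt n) ^ 2 else 0 := by
      intro n; split_ifs <;> simp
    simp_rw [h3]
    rw [key]
    refine Finset.sum_congr rfl fun l _ => ?_
    rw [Nat.sqrt_eq']
  rw [h4] at h1
  simp_rw [h2] at h1
  push_cast at h1
  exact h1

/-- the weights -/
noncomputable def n5_w (k s : ℕ) : ℝ :=
  k * (1 / Real.sqrt 2) ^ s + Real.sqrt k * (if 2 ^ s ≤ k then Real.sqrt 2 ^ s else 0) + (1 / 2) ^ s

theorem n5_w_pos (k s : ℕ) : 0 < n5_w k s := by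
  unfold n5_w
  have h1 : (0 : ℝ) < (1 / 2) ^ s := by positivity
  have h2 : (0 : ℝ) ≤ k * (1 / Real.sqrt 2) ^ s := by positivity
  have h3 : (0 : ℝ) ≤ Real.sqrt k * (if 2 ^ s ≤ k then Real.sqrt 2 ^ s else 0) := by
    apply mul_nonneg (Real.sqrt_nonneg _)
    split_ifs <;> positivity
  linarith

theorem n5_sqrt2 : (1.4 : ℝ) ≤ Real.sqrt 2 ∧ Real.sqrt 2 ≤ 1.5 := by
  constructor
  · apply Real.le_sqrt_of_sq_le; norm_num
  · rw [Real.sqrt_le_left (by norm_num)]; norm_num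

theorem n5_geo {x : ℝ} (h0 : 0 ≤ x) (h1 : x < 1) (S : ℕ) :
    ∑ s ∈ Finset.range S, x ^ s ≤ 1 / (1 - x) := by
  have h2 := (summable_geometric_of_lt_one h0 h1).sum_le_tsum (Finset.range S)
    (fun i _ => pow_nonneg h0 i)
  rwa [tsum_geometric_of_lt_one h0 h1, ← one_div] at h2

theorem n5_grow (k S : ℕ) :
    ∑ s ∈ Finset.range S, (if 2 ^ s ≤ k then Real.sqrt 2 ^ s else 0) ≤ 4 * Real.sqrt k := by
  rcases Nat.eq_zero_or_pos k with rfl | hk
  · simp
  obtain ⟨h1, h2⟩ := n5_sqrt2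
  have hs2 : Real.sqrt 2 ^ 2 = 2 := Real.sq_sqrt (by norm_num)
  set L := Nat.log 2 k with hL
  have h3 : ∑ s ∈ Finset.range S, (if 2 ^ s ≤ k then Real.sqrt 2 ^ s else 0) ≤
      ∑ s ∈ Finset.range (L + 1), Real.sqrt 2 ^ s := by
    rw [← Finset.sum_filter]
    apply Finset.sum_le_sum_of_subset_of_nonneg
    · intro s hs
      rw [Finset.mem_filter] at hs
      rw [Finset.mem_range]
      have := (Nat.le_log_iff_pow_le (by norm_num) hk.ne').mpr hs.2
      omega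
    · intro s _ _
      positivity
  have h4 : ∑ s ∈ Finset.range (L + 1), Real.sqrt 2 ^ s =
      (Real.sqrt 2 ^ (L + 1) - 1) / (Real.sqrt 2 - 1) := geom_sum_eq (by linarith) _
  have h5 : Real.sqrt 2 ^ L ≤ Real.sqrt k := by
    apply Real.le_sqrt_of_sq_le
    rw [← pow_mul, mul_comm, pow_mul, hs2]
    exact_mod_cast Nat.pow_log_le_self 2 hk.ne'
  refine h3.trans ?_
  rw [h4, div_le_iff₀ (by linarith), pow_succ]
  have h6 : (0 : ℝ) ≤ Real.sqrt k := Real.sqrt_nonneg _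
  have h7 : Real.sqrt 2 ^ L * Real.sqrt 2 ≤ Real.sqrt k * 1.5 :=
    mul_le_mul h5 h2 (by positivity) h6
  nlinarith

theorem n5_w_sum {k : ℕ} (hk : 1 ≤ k) (S : ℕ) :
    ∑ s ∈ Finset.range S, n5_w k s ≤ 10 * k := by
  obtain ⟨h1, h2⟩ := n5_sqrt2
  unfold n5_w
  rw [Finset.sum_add_distrib, Finset.sum_add_distrib, ← Finset.mul_sum, ← Finset.mul_sum]
  have hk1 : (1 : ℝ) ≤ k := by exact_mod_cast hk
  have e1 : ∑ s ∈ Finset.range S, (1 / Real.sqrt 2) ^ s ≤ 4 := by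
    have h3 : 1 / Real.sqrt 2 ≤ 3 / 4 := by
      rw [div_le_div_iff₀ (by linarith) (by norm_num)]; linarith
    refine (Finset.sum_le_sum fun s _ => pow_le_pow_left₀ (by positivity) h3 s).trans ?_
    refine (n5_geo (by norm_num) (by norm_num) S).trans ?_
    norm_num
  have e2 : ∑ s ∈ Finset.range S, ((1 : ℝ) / 2) ^ s ≤ 2 :=
    (n5_geo (by norm_num) (by norm_num) S).trans (by norm_num)
  have e3 := n5_grow k S
  have e4 : Real.sqrt k * ∑ s ∈ Finset.range S, (if 2 ^ s ≤ k then Real.sqrt 2 ^ s else 0) ≤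
      Real.sqrt k * (4 * Real.sqrt k) := mul_le_mul_of_nonneg_left e3 (Real.sqrt_nonneg _)
  have e5 : Real.sqrt k * (4 * Real.sqrt k) = 4 * k := by
    have := Real.mul_self_sqrt (by positivity : (0 : ℝ) ≤ k)
    linarith
  have e6 : (k : ℝ) * ∑ s ∈ Finset.range S, (1 / Real.sqrt 2) ^ s ≤ k * 4 :=
    mul_le_mul_of_nonneg_left e1 (by positivity)
  linarith

theorem n5_expo {x : ℝ} (hx : 1 ≤ x) : x ^ 3 * Real.exp (-(2 * x)) ≤ 4 * (1 / x) ^ 2 := by
  have hx0 : 0 < x := by linarith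
  have h1 := Real.pow_div_factorial_le_exp (2 * x) (by positivity) 5
  have h2 : (Nat.factorial 5 : ℝ) = 120 := by norm_num [Nat.factorial]
  rw [h2] at h1
  rw [Real.exp_neg, ← div_eq_mul_inv, one_div, inv_pow, ← div_eq_mul_inv,
    div_le_div_iff₀ (Real.exp_pos _) (by positivity)]
  have h3 : (2 * x) ^ 5 = 32 * x ^ 5 := by ring
  rw [h3] at h1
  have h4 : 0 < x ^ 5 := by positivity
  nlinarith

theorem n5_weight {C₁ : ℝ} (hC : 0 < C₁) {k : ℕ} (hk : 2 ≤ k)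
    (hR : ∀ l : ℕ, k ≤ l → Rl k l ≤ Real.exp (-(l : ℝ))) (s : ℕ) :
    C₁ * (1 + (4 : ℝ) ^ (s + 1) / k) * ∑ l ∈ Finset.Ico (2 ^ s) (2 ^ (s + 1)), Rl k l ^ 2 ≤
      20 * C₁ * n5_w k s ^ 2 := by
  have hk0 : (0 : ℝ) < k := by positivity
  have hk1 : (1 : ℝ) ≤ k := by exact_mod_cast (by omega : 1 ≤ k)
  have hs2 : Real.sqrt 2 ^ 2 = 2 := Real.sq_sqrt (by norm_num)
  have hsk : Real.sqrt k ^ 2 = k := Real.sq_sqrt hk0.le
  have hs0 : (0 : ℝ) < Real.sqrt 2 := by positivity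
  have hR0 : ∀ l : ℕ, 1 ≤ l → 0 ≤ Rl k l := fun l hl => (Rl_le hk hl).2.1
  have hcard : (Finset.Ico (2 ^ s) (2 ^ (s + 1))).card = 2 ^ s := by
    rw [Nat.card_Ico, pow_succ]; omega
  have hw1 : (0 : ℝ) ≤ (1 / 2) ^ s := by positivity
  by_cases hsk2 : 2 ^ s ≤ k
  · have h1 : ∑ l ∈ Finset.Ico (2 ^ s) (2 ^ (s + 1)), Rl k l ^ 2 ≤ (k : ℝ) ^ 2 / 2 ^ s := by
      have h2 : ∀ l ∈ Finset.Ico (2 ^ s) (2 ^ (s + 1)), Rl k l ^ 2 ≤ ((k : ℝ) / 2 ^ s) ^ 2 := by
        intro l hl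
        rw [Finset.mem_Ico] at hl
        have hl1 : 1 ≤ l := le_trans Nat.one_le_two_pow hl.1
        have h3 := (Rl_le hk hl1).2.2
        have h4 : (2 : ℝ) ^ s ≤ l := by exact_mod_cast hl.1
        have h5 : ((k : ℝ) - 1) / (2 * Real.pi * l) ≤ (k : ℝ) / 2 ^ s := by
          have hpi := Real.pi_gt_three
          apply div_le_div₀ hk0.le (by linarith) (by positivity)
          have : (0 : ℝ) < 2 ^ s := by positivity
          nlinarith
        exact pow_le_pow_left₀ (hR0 l hl1) (h3.trans h5) 2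
      refine (Finset.sum_le_card_nsmul _ _ _ h2).trans ?_
      rw [hcard, nsmul_eq_mul, div_pow]
      push_cast
      have : (0 : ℝ) < 2 ^ s := by positivity
      apply le_of_eq
      field_simp
    have h3 : 0 ≤ C₁ * (1 + (4 : ℝ) ^ (s + 1) / k) := by positivity
    refine (mul_le_mul_of_nonneg_left h1 h3).trans ?_
    have h4 : (1 + (4 : ℝ) ^ (s + 1) / k) * ((k : ℝ) ^ 2 / 2 ^ s) =
        (k : ℝ) ^ 2 / 2 ^ s + 4 * (k * 2 ^ s) := by
      have h5 : (4 : ℝ) ^ (s + 1) = 4 * (2 ^ s) ^ 2 := by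
        rw [pow_succ, ← pow_mul, mul_comm s 2, pow_mul]; norm_num; ring
      rw [h5]
      field_simp
    have h6 : (k : ℝ) ^ 2 / 2 ^ s + k * 2 ^ s ≤ n5_w k s ^ 2 := by
      have h7 : (k : ℝ) ^ 2 / 2 ^ s = (k * (1 / Real.sqrt 2) ^ s) ^ 2 := by
        rw [mul_pow, ← pow_mul, mul_comm s 2, pow_mul, div_pow, hs2, one_pow, div_pow, one_pow]
        ring
      have h8 : (k : ℝ) * 2 ^ s = (Real.sqrt k * Real.sqrt 2 ^ s) ^ 2 := by
        rw [mul_pow, ← pow_mul, mul_comm s 2, pow_mul, hs2, hsk]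
      rw [h7, h8]
      unfold n5_w
      rw [if_pos hsk2]
      have h9 : (0 : ℝ) ≤ k * (1 / Real.sqrt 2) ^ s := by positivity
      have h10 : (0 : ℝ) ≤ Real.sqrt k * Real.sqrt 2 ^ s := by positivity
      nlinarith [mul_nonneg h9 h10, mul_nonneg h9 hw1, mul_nonneg h10 hw1, sq_nonneg ((1 / 2 : ℝ) ^ s)]
    have h11 : (0 : ℝ) ≤ (k : ℝ) ^ 2 / 2 ^ s := by positivity
    have h12 : (0 : ℝ) ≤ (k : ℝ) * 2 ^ s := by positivity
    calc C₁ * (1 + (4 : ℝ) ^ (s + 1) / k) * ((k : ℝ) ^ 2 / 2 ^ s)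
        = C₁ * ((k : ℝ) ^ 2 / 2 ^ s + 4 * (k * 2 ^ s)) := by rw [mul_assoc, h4]
      _ ≤ C₁ * (20 * n5_w k s ^ 2) := by
          apply mul_le_mul_of_nonneg_left _ hC.le
          nlinarith
      _ = 20 * C₁ * n5_w k s ^ 2 := by ring
  · push Not at hsk2
    set x : ℝ := (2 : ℝ) ^ s with hx
    have hx1 : 1 ≤ x := one_le_pow₀ (by norm_num)
    have hx0 : 0 < x := by linarith
    have h1 : ∑ l ∈ Finset.Ico (2 ^ s) (2 ^ (s + 1)), Rl k l ^ 2 ≤ x * Real.exp (-(2 * x)) := by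
      have h2 : ∀ l ∈ Finset.Ico (2 ^ s) (2 ^ (s + 1)), Rl k l ^ 2 ≤ Real.exp (-(2 * x)) := by
        intro l hl
        rw [Finset.mem_Ico] at hl
        have hl1 : 1 ≤ l := le_trans Nat.one_le_two_pow hl.1
        have hkl : k ≤ l := le_trans hsk2.le hl.1
        have h4 : x ≤ l := by rw [hx]; exact_mod_cast hl.1
        have h5 : Rl k l ≤ Real.exp (-x) :=
          (hR l hkl).trans (Real.exp_le_exp.mpr (by linarith))
        calc Rl k l ^ 2 ≤ Real.exp (-x) ^ 2 := pow_le_pow_left₀ (hR0 l hl1) h5 2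
          _ = Real.exp (-(2 * x)) := by rw [← Real.exp_nat_mul]; congr 1; push_cast; ring
      refine (Finset.sum_le_card_nsmul _ _ _ h2).trans ?_
      rw [hcard, nsmul_eq_mul]
      push_cast
      exact le_of_eq rfl
    have h3 : 0 ≤ C₁ * (1 + (4 : ℝ) ^ (s + 1) / k) := by positivity
    refine (mul_le_mul_of_nonneg_left h1 h3).trans ?_
    have h5 : (4 : ℝ) ^ (s + 1) = 4 * x ^ 2 := by
      rw [hx, pow_succ, ← pow_mul, mul_comm s 2, pow_mul]; norm_num; ring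
    have h6 : 1 + (4 : ℝ) ^ (s + 1) / k ≤ 5 * x ^ 2 := by
      have h7 : (4 : ℝ) ^ (s + 1) / k ≤ (4 : ℝ) ^ (s + 1) := div_le_self (by positivity) hk1
      nlinarith
    have h8 := n5_expo hx1
    have h9 : (1 / x) ^ 2 ≤ n5_w k s ^ 2 := by
      apply pow_le_pow_left₀ (by positivity)
      unfold n5_w
      have h10 : (0 : ℝ) ≤ k * (1 / Real.sqrt 2) ^ s := by positivity
      have h11 : (0 : ℝ) ≤ Real.sqrt k * (if 2 ^ s ≤ k then Real.sqrt 2 ^ s else 0) := by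
        apply mul_nonneg (Real.sqrt_nonneg _)
        split_ifs <;> positivity
      have h12 : 1 / x = (1 / 2 : ℝ) ^ s := by rw [hx, div_pow, one_pow]
      linarith
    have h13 : 0 ≤ x * Real.exp (-(2 * x)) := by positivity
    calc C₁ * (1 + (4 : ℝ) ^ (s + 1) / k) * (x * Real.exp (-(2 * x)))
        ≤ C₁ * (5 * x ^ 2) * (x * Real.exp (-(2 * x))) := by
          apply mul_le_mul_of_nonneg_right _ h13
          exact mul_le_mul_of_nonneg_left h6 hC.le
      _ = C₁ * (5 * (x ^ 3 * Real.exp (-(2 * x)))) := by ring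
      _ ≤ C₁ * (5 * (4 * (1 / x) ^ 2)) := by
          apply mul_le_mul_of_nonneg_left _ hC.le
          linarith
      _ ≤ C₁ * (20 * n5_w k s ^ 2) := by
          apply mul_le_mul_of_nonneg_left _ hC.le
          linarith
      _ = 20 * C₁ * n5_w k s ^ 2 := by ring

theorem inv_om_sum : ∃ (C : ℝ) (k₀ : ℕ), 0 < C ∧ ∀ k : ℕ, k₀ ≤ k → ∀ {ι : Type} [Fintype ι]
    (F : Fam k ι), ∑ i, 1 / om k (F.a i) ≤ C * (k : ℝ) ^ 2 := by
  obtain ⟨C₁, k₁, hC₁, hls⟩ := ls_dual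
  obtain ⟨k₂, hR⟩ := Rl_small
  refine ⟨2000 * C₁, max 2 (max k₁ k₂), by positivity, ?_⟩
  intro k hk ι _ F
  have hk2 : 2 ≤ k := le_trans (le_max_left _ _) hk
  have hk1' : k₁ ≤ k := le_trans (le_trans (le_max_left _ _) (le_max_right _ _)) hk
  have hk2' : k₂ ≤ k := le_trans (le_trans (le_max_right _ _) (le_max_right _ _)) hk
  have hk0 : (0 : ℝ) < k := by positivity
  have hom : ∀ i, 0 < om k (F.a i) := fun i => om_pos hk2 (F.data i)
  set X : ι → ℝ := fun i => ∑' l : ℕ, lam k (F.a i) ((l + 1) ^ 2) * Rl k (l + 1) with hX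
  set TT : ℕ → ι → ℝ := fun S i => ∑ s ∈ Finset.range S, n5_B k (F.a i) s with hTT
  have hfin : ∀ S : ℕ, ∑ i, om k (F.a i) * TT S i ^ 2 ≤ 2000 * C₁ * (k : ℝ) ^ 2 := by
    intro S
    have h1 : ∀ i, TT S i ^ 2 ≤ (∑ s ∈ Finset.range S, n5_w k s) *
        ∑ s ∈ Finset.range S, n5_B k (F.a i) s ^ 2 / n5_w k s := by
      intro i
      apply Finset.sum_sq_le_sum_mul_sum_of_sq_le_mul
      · intro s _; exact (n5_w_pos k s).le
      · intro s _; exact div_nonneg (sq_nonneg _) (n5_w_pos k s).le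
      · intro s _
        have := n5_w_pos k s
        apply le_of_eq
        field_simp
    have hW := n5_w_sum (k := k) (by omega) S
    have hW0 : 0 ≤ ∑ s ∈ Finset.range S, n5_w k s := Finset.sum_nonneg fun s _ => (n5_w_pos k s).le
    calc ∑ i, om k (F.a i) * TT S i ^ 2
        ≤ ∑ i, om k (F.a i) * ((∑ s ∈ Finset.range S, n5_w k s) *
          ∑ s ∈ Finset.range S, n5_B k (F.a i) s ^ 2 / n5_w k s) :=
          Finset.sum_le_sum fun i _ => mul_le_mul_of_nonneg_left (h1 i) (hom i).le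
      _ = (∑ s ∈ Finset.range S, n5_w k s) * ∑ s ∈ Finset.range S,
          (∑ i, om k (F.a i) * n5_B k (F.a i) s ^ 2) / n5_w k s := by
          rw [Finset.mul_sum]
          simp_rw [Finset.sum_div, Finset.mul_sum]
          rw [Finset.sum_comm]
          refine Finset.sum_congr rfl fun s _ => Finset.sum_congr rfl fun i _ => ?_
          ring
      _ ≤ (∑ s ∈ Finset.range S, n5_w k s) * ∑ s ∈ Finset.range S, 20 * C₁ * n5_w k s := by
          apply mul_le_mul_of_nonneg_left _ hW0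
          apply Finset.sum_le_sum
          intro s _
          rw [div_le_iff₀ (n5_w_pos k s)]
          have h2 := n5_block F (C₁ := C₁) (fun N c => hls k hk1' F N c) s
          have h3 := n5_weight hC₁ hk2 (hR k hk2') s
          calc ∑ i, om k (F.a i) * n5_B k (F.a i) s ^ 2 ≤ 20 * C₁ * n5_w k s ^ 2 := h2.trans h3
            _ = 20 * C₁ * n5_w k s * n5_w k s := by ring
      _ = 20 * C₁ * (∑ s ∈ Finset.range S, n5_w k s) ^ 2 := by
          rw [← Finset.mul_sum]; ring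
      _ ≤ 20 * C₁ * (10 * k) ^ 2 := by
          apply mul_le_mul_of_nonneg_left _ (by positivity)
          exact pow_le_pow_left₀ hW0 hW 2
      _ = 2000 * C₁ * (k : ℝ) ^ 2 := by ring
  have hlim : ∀ i, Tendsto (fun S => TT S i) atTop (𝓝 (X i)) := by
    intro i
    have h1 := (inv_om_le hk2 (F.data i)).1
    have h2 : Summable (fun l : ℕ => lam k (F.a i) ((l + 1) ^ 2) * Rl k (l + 1)) := by
      apply Summable.of_norm
      refine h1.congr fun l => ?_
      rw [Real.norm_eq_abs, abs_mul, abs_of_nonneg (Rl_le hk2 (by omega : 1 ≤ l + 1)).2.1]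
    have h3 := h2.hasSum.tendsto_sum_nat
    have h4 : Tendsto (fun S : ℕ => 2 ^ S - 1) atTop atTop := by
      apply tendsto_atTop_mono (f := fun S : ℕ => S)
      · intro S
        have := Nat.lt_two_pow_self (n := S)
        omega
      · exact tendsto_id
    have h5 := h3.comp h4
    refine h5.congr fun S => ?_
    simp only [Function.comp_apply, hTT]
    rw [n5_partial, Finset.sum_Ico_eq_sum_range]
    refine Finset.sum_congr rfl fun l _ => ?_
    rw [add_comm 1 l]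
  have hlim2 : Tendsto (fun S => ∑ i, om k (F.a i) * TT S i ^ 2) atTop
      (𝓝 (∑ i, om k (F.a i) * X i ^ 2)) := by
    apply tendsto_finsetSum
    intro i _
    exact ((hlim i).pow 2).const_mul _
  have hfin2 := le_of_tendsto' hlim2 hfin
  refine le_trans (Finset.sum_le_sum fun i _ => ?_) hfin2
  have h1 := (inv_om_le hk2 (F.data i)).2
  have h2 := hom i
  have h3 : 0 < 1 / om k (F.a i) := by positivity
  calc 1 / om k (F.a i) = om k (F.a i) * (1 / om k (F.a i)) ^ 2 := by field_simp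
    _ ≤ om k (F.a i) * X i ^ 2 := by
        apply mul_le_mul_of_nonneg_left _ h2.le
        exact pow_le_pow_left₀ h3.le h1 2

end Pool.Agent.WA
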