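import Pool.Agent.Lib_helper98.WAF.B19
import Pool.Agent.Lib_helper98.WAF.N5

/-! Block N6 (NAT) of the weight aspect: the natural count. -/

namespace Pool.Agent.WA

open Complex MeasureTheory Filter Topology UpperHalfPlane ModularGroup
open scoped MatrixGroups Modular ENNReal
open Pool.Agent.GL2 (qs HData am dens hatw Ep Mol xt FD IsCompletedL oddZ)

/-- block N6 -/
theorem natural (T : ℝ) {h : ℝ} (hh : 0 < h) (K : ℕ) {ε : ℝ} (hε : 0 < ε) :
    ∃ k₀ : ℕ, ∀ k : ℕ, k₀ ≤ k → Even k → ∀ {ι : Type} [Fintype ι] (F : Fam k ι) (S : Finset ι),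
      (∀ i ∈ S, GL2.Bad k (F.a i) T h K (1 : DirichletCharacter ℂ 1)) →
        (S.card : ℝ) ≤ ε * k := by
  obtain ⟨C, k₁, hC, hinv⟩ := inv_om_sum
  obtain ⟨k₂, hwin⟩ := windows T hh K (show 0 < ε ^ 2 / C by positivity)
  refine ⟨max 2 (max k₁ k₂), ?_⟩
  intro k hk he ι _ F S hS
  have hk2 : 2 ≤ k := le_trans (le_max_left _ _) hk
  have hk1' : k₁ ≤ k := le_trans (le_trans (le_max_left _ _) (le_max_right _ _)) hk
  have hk2' : k₂ ≤ k := le_trans (le_trans (le_max_right _ _) (le_max_right _ _)) hk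
  have h1 := hwin k hk2' he F S hS
  have hpos : ∀ i, 0 < om k (F.a i) := fun i => om_pos hk2 (F.data i)
  have h2 : ∑ i ∈ S, 1 / om k (F.a i) ≤ C * (k : ℝ) ^ 2 := by
    refine le_trans ?_ (hinv k hk1' F)
    apply Finset.sum_le_sum_of_subset_of_nonneg (Finset.subset_univ _)
    intro i _ _
    exact (one_div_pos.mpr (hpos i)).le
  have h3 : (∑ i ∈ S, (1 : ℝ)) ^ 2 ≤ (∑ i ∈ S, om k (F.a i)) * ∑ i ∈ S, 1 / om k (F.a i) := by
    apply Finset.sum_sq_le_sum_mul_sum_of_sq_le_mul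
    · intro i _; exact (hpos i).le
    · intro i _; exact (one_div_pos.mpr (hpos i)).le
    · intro i _
      rw [one_pow, mul_one_div, div_self (hpos i).ne']
  rw [Finset.sum_const, nsmul_eq_mul, mul_one] at h3
  have h4 : (S.card : ℝ) ^ 2 ≤ (ε * k) ^ 2 := by
    calc (S.card : ℝ) ^ 2 ≤ _ := h3
      _ ≤ (ε ^ 2 / C) * (C * (k : ℝ) ^ 2) := by
          apply mul_le_mul h1 h2
          · exact Finset.sum_nonneg fun i _ => (one_div_pos.mpr (hpos i)).le
          · positivity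
      _ = (ε * k) ^ 2 := by field_simp
  exact (sq_le_sq₀ (Nat.cast_nonneg _) (by positivity)).mp h4

end Pool.Agent.WA
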