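import Pool.Agent.Lib_helper98.WAF.C5
import Pool.Agent.Lib_helper98.WAF.N6
import Pool.Agent.Lib_helper68.GL2.NORM
import Pool.Agent.Lib_helper68.GL2.FIN

/-! Final theorem of the weight aspect. -/

namespace Pool.Agent.WA

open Complex MeasureTheory Filter Topology UpperHalfPlane
open scoped MatrixGroups
open Pool.Agent.GL2 (qs HData am dens hatw Ep Mol xt FD IsCompletedL oddZ)

theorem top_qs {k : ℕ} (hk : 0 < k) {f : CuspForm 𝒮ℒ (k : ℤ)} (hf : Eig f) (z : ℂ) :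
    qs (fun n => (co f n).re) z = qc (co f) z := by
  unfold qs qc
  refine tsum_congr fun n => ?_
  rw [(eig_data hk hf).2 n]

/-- `f` is bad: not all the windows contain `K` zeros -/
def TopBad (T h : ℝ) (K : ℕ) {k : ℕ} (f : CuspForm 𝒮ℒ (k : ℤ)) : Prop :=
  ¬ ∃ Λ : ℂ → ℂ, GL2.IsLambda k (co f) (1 : DirichletCharacter ℂ 1) Λ ∧
    ∀ x : ℝ, -T ≤ x → x + h ≤ T → (K : ℕ∞) ≤ {t : ℝ | x < t ∧ t < x + h ∧
      Odd (analyticOrderNatAt Λ (1 / 2 + t * Complex.I))}.encard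

theorem top_bad {k : ℕ} (hk : 0 < k) {f : CuspForm 𝒮ℒ (k : ℤ)} (hf : Eig f) {T h : ℝ} {K : ℕ}
    (hb : TopBad T h K f) :
    GL2.Bad k (fun n => (co f n).re) T h K (1 : DirichletCharacter ℂ 1) := by
  obtain ⟨H, hre⟩ := eig_data hk hf
  have hprim : (1 : DirichletCharacter ℂ 1).IsPrimitive :=
    DirichletCharacter.isPrimitive_one_level_one
  have hco : (fun n : ℕ => (((co f n).re : ℝ) : ℂ)) = co f := funext hre
  obtain ⟨Λ₀, hΛ₀, -⟩ := GL2.exists_completedL_pr H (1 : DirichletCharacter ℂ 1) hprim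
  have h1 := GL2.norm_from hΛ₀
  refine ⟨hprim, ?_⟩
  by_contra hcon
  refine hb ⟨_, hco ▸ h1, fun x hx hxT => ?_⟩
  by_contra hlt
  refine hcon ⟨Λ₀, hΛ₀, x, hx, hxT, ?_⟩
  have h2 := GL2.completedL_unique_pr (1 : DirichletCharacter ℂ 1) (GL2.norm_to h1) hΛ₀
  have h3 : oddZ k Λ₀ x (x + h) = {t : ℝ | x < t ∧ t < x + h ∧
      Odd (analyticOrderNatAt (fun s : ℂ => 2 * ((1 : ℕ) : ℂ) ^ (-(s + ((k : ℂ) - 1) / 2)) *
        Λ₀ (s + ((k : ℂ) - 1) / 2)) (1 / 2 + t * Complex.I))} := by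
    ext t
    have h4 := GL2.norm_order (k := k) (q := 1) h1.1 t
    rw [h2] at h4
    show x < t ∧ t < x + h ∧ Odd (analyticOrderNatAt Λ₀ ((k : ℂ) / 2 + t * Complex.I)) ↔ _
    rw [h4]
    rfl
  rw [h3]
  exact not_le.1 hlt

theorem wa_top (T : ℝ) {h : ℝ} (hh : 0 < h) (K : ℕ) {ε : ℝ} (hε : 0 < ε) :
    ∃ k₀ : ℕ, ∀ k : ℕ, k₀ ≤ k → Even k →
      {f : CuspForm 𝒮ℒ (k : ℤ) | Eig f}.Finite ∧
      (k : ℝ) / 24 ≤ {f : CuspForm 𝒮ℒ (k : ℤ) | Eig f}.ncard ∧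
      ({f : CuspForm 𝒮ℒ (k : ℤ) | Eig f ∧ TopBad T h K f}.ncard : ℝ) ≤
        ε * {f : CuspForm 𝒮ℒ (k : ℤ) | Eig f}.ncard := by
  classical
  obtain ⟨k₀, hk₀⟩ := natural T hh K (ε := ε / 24) (by positivity)
  refine ⟨max k₀ 48, fun k hk he => ?_⟩
  have hk48 : 48 ≤ k := le_trans (le_max_right _ _) hk
  have hkpos : 0 < k := by omega
  obtain ⟨hfin, hcard⟩ := eig_count hkpos
  have hdim := dim_low hk48 he
  have hdim' : (k : ℝ) / 24 ≤ {f : CuspForm 𝒮ℒ (k : ℤ) | Eig f}.ncard := by rw [hcard]; exact hdim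
  refine ⟨hfin, hdim', ?_⟩
  let ι : Type := {f : CuspForm 𝒮ℒ (k : ℤ) // Eig f}
  have : Fintype ι := hfin.fintype
  let F : Fam k ι :=
    { a := fun i n => (co i.1 n).re
      data := fun i => (eig_data hkpos i.2).1
      orth := fun i j hij => by
        have h1 : pet j.1 i.1 = 0 := eig_orth hkpos j.2 i.2 fun e => hij (Subtype.ext e.symm)
        rw [← h1, pet]
        refine integral_congr_ae (Eventually.of_forall fun z => ?_)
        simp only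
        rw [top_qs hkpos i.2, top_qs hkpos j.2]
        ring }
  set S : Finset ι := Finset.univ.filter fun i => TopBad T h K i.1 with hS
  have h1 := hk₀ k (le_trans (le_max_left _ _) hk) he F S fun i hi =>
    top_bad hkpos i.2 (Finset.mem_filter.1 hi).2
  have h2 : {f : CuspForm 𝒮ℒ (k : ℤ) | Eig f ∧ TopBad T h K f}.ncard ≤ S.card := by
    have h3 : {f : CuspForm 𝒮ℒ (k : ℤ) | Eig f ∧ TopBad T h K f} =
        (fun i : ι => (i.1 : CuspForm 𝒮ℒ (k : ℤ))) '' (S : Set ι) := by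
      ext f
      constructor
      · rintro ⟨hf, hb⟩
        exact ⟨⟨f, hf⟩, by simp [hS, hb], rfl⟩
      · rintro ⟨i, hi, rfl⟩
        exact ⟨i.2, by simpa [hS] using hi⟩
    rw [h3]
    refine (Set.ncard_image_le (Finset.finite_toSet S)).trans ?_
    rw [Set.ncard_coe_finset]
  calc ({f : CuspForm 𝒮ℒ (k : ℤ) | Eig f ∧ TopBad T h K f}.ncard : ℝ) ≤ S.card := by
        exact_mod_cast h2
    _ ≤ ε / 24 * k := h1
    _ = ε * (k / 24) := by ring
    _ ≤ _ := mul_le_mul_of_nonneg_left hdim' hε.le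

end Pool.Agent.WA
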